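import Pool.Agent.STP.Fo

/-! # Names of ordered pairs and of sequences (package Y01)

(problem MP_e44aae_lc, project STP)

* `IsOP.inj`, `IsOP.uniq`: Kuratowski pairs in a model `(N, E)` of `ZFC` (only extensionality, pairing and their definitions are used). `inj`: `p = {{x}, {x,y}} = {{x'}, {x',y'}}`; the elements of `p` are the sets `z` with `IsUP z x x` or `IsUP z x y`; such `z` exist by pairing.
  From `{x} ∈ p`: `{x} = {x'}` or `{x} = {x', y'}`, so `x = x'` in both cases. Then `{x,y} ∈ p`: `{x,y} = {x}` or `{x, y'}`; if `y = x` then `{x,y'} ∈ p` gives `y' = x`; otherwise `y = y'`. `uniq`: extensionality, and the elements `z` of both are the same.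
* `upN_up`, `opN_op`: `mem_upN`, `EG_mk`, `NG.mk_eq`; an element of `NG G` is a class (`NG.exists_rep`). (`a ⊔ b ∈ G.s ↔ a ∈ G.s ∨ b ∈ G.s` by `Ult.dec`, `up`, `inf`, `bot`.) For `opN`: `IsUP z x x` determines `z` (`NG_ext`).
* `seqN_mem`: the bounded quantifier over the name `seqN o w` (`iInf_mem`): `Fo p (∀ z ∈ seqN o w, φ)` iff `Fo p φ (cns (opN (ck a) (w a)) v)` for all `a < o`.
* `seqN_val`: the pair `opN (ck a) (w a)` is an element of `seqN o w` (`vl_le_mem`, the value is `⊤`) and `opN_op`.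
* `seqN_fun`: three parts. (1) every element of `seqN o w` is `(x, y)` with `x ∈ ck o`: `seqN_mem` (for every `p`, i.e. for all `G`, `Fo.iff`) with the formula `∃ x y, x ∈ ck o ∧ z = (x, y)`; take `x = ck a`, `y = w a`. (2) every `x ∈ ck o` has a value: `Fo.ball` and `seqN_val`. (3) `Val x y`, `Val x z`
  imply `y = z`: by `seqN_mem` twice, the formula is `∀ p ∈ F, ∀ p' ∈ F, ∀ x y z, p = (x, y) → p' = (x, z) → y = z`; for `p = (ck a, w a)`, `p' = (ck b, w b)`: by `IsOP.inj` `x = ck a = ck b`, so `a = b` (`eq_ck_ck`) and `y = w a = z`. To pass from all `G` to the values: every `G` contains `RO.up p`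
  for some `p`? This is not needed: use `Fo` for all `p`: `(∀ p, Fo p φ v) ↔ bval φ v = ⊤`, and `los'`. -/

universe u v

namespace STP

open BSet

theorem IsOP.inj {N : Type v} {E : N → N → Prop} (hE : ZFC E) {p x y x' y' : N}
    (h : IsOP E p x y) (h' : IsOP E p x' y') : x = x' ∧ y = y' := by
  obtain ⟨a, ha⟩ := hE.pair x x
  obtain ⟨b, hb⟩ := hE.pair x y
  obtain ⟨b', hb'⟩ := hE.pair x' y'
  have hap : E a p := (h a).2 (Or.inl ha)
  have hbp : E b p := (h b).2 (Or.inr hb)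
  have hbp' : E b' p := (h' b').2 (Or.inr hb')
  have key : x = x' := by
    rcases (h' a).1 hap with h1 | h1
    · exact ((h1 x).1 ((ha x).2 (Or.inl rfl))).elim id id
    · exact (((ha x').1 ((h1 x').2 (Or.inl rfl))).elim id id).symm
  subst key
  refine ⟨rfl, ?_⟩
  have h2 : y = x ∨ y = y' := by
    rcases (h' b).1 hbp with h1 | h1
    · exact Or.inl (((h1 y).1 ((hb y).2 (Or.inr rfl))).elim id id)
    · exact (h1 y).1 ((hb y).2 (Or.inr rfl))
  rcases h2 with h2 | h2
  · subst h2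
    rcases (h b').1 hbp' with h1 | h1
    · exact (((h1 y').1 ((hb' y').2 (Or.inr rfl))).elim id id).symm
    · exact (((h1 y').1 ((hb' y').2 (Or.inr rfl))).elim id id).symm
  · exact h2

theorem IsOP.uniq {N : Type v} {E : N → N → Prop} (hE : ZFC E) {p p' x y : N}
    (h : IsOP E p x y) (h' : IsOP E p' x y) : p = p' :=
  hE.ext p p' fun z => (h z).trans (h' z).symm

variable {P : Type u} [PartialOrder P]

private theorem ysup {G : Ult (RO P)} {a b : RO P} : a ⊔ b ∈ G.s ↔ a ∈ G.s ∨ b ∈ G.s := by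
  constructor
  · intro h
    rcases G.dec a with h1 | h1
    · exact Or.inl h1
    · refine Or.inr (G.up (G.inf h h1) ?_)
      rw [inf_sup_right, inf_compl_self, bot_sup_eq]
      exact inf_le_left
  · rintro (h | h)
    · exact G.up h le_sup_left
    · exact G.up h le_sup_right

theorem upN_up (G : Ult (RO P)) (x y : BSet (RO P)) :
    IsUP (EG G) (NG.mk G (upN x y)) (NG.mk G x) (NG.mk G y) := by
  intro z
  obtain ⟨z, rfl⟩ := NG.exists_rep z
  rw [EG_mk, mem_upN, ysup, NG.mk_eq, NG.mk_eq]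

/-- the name of an ordered pair -/
def opN (x y : BSet (RO P)) : BSet (RO P) := upN (upN x x) (upN x y)

theorem opN_op (G : Ult (RO P)) (x y : BSet (RO P)) :
    IsOP (EG G) (NG.mk G (opN x y)) (NG.mk G x) (NG.mk G y) := by
  have key : ∀ (z : NG G) (a b : BSet (RO P)),
      z = NG.mk G (upN a b) ↔ IsUP (EG G) z (NG.mk G a) (NG.mk G b) := by
    intro z a b
    constructor
    · rintro rfl
      exact upN_up G a b
    · intro h
      exact NG_ext G _ _ fun w => (h w).trans (upN_up G a b w).symm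
  intro z
  rw [← key, ← key]
  exact upN_up G (upN x x) (upN x y) z

/-- the name of the sequence `(w a)_{a < o}` -/
noncomputable def seqN (o : Ordinal.{u}) (w : Ordinal.{u} → BSet (RO P)) : BSet (RO P) :=
  BSet.mk o.ToType
    (fun i => opN (ck (Ordinal.ToType.toOrd i).1) (w (Ordinal.ToType.toOrd i).1)) fun _ => ⊤

theorem seqN_mem {p : P} {φ : Fml} {v : ℕ → BSet (RO P)} {j : ℕ} {o : Ordinal.{u}}
    {w : Ordinal.{u} → BSet (RO P)} (hj : v j = seqN o w) :
    Fo p (fBall j φ) v ↔ ∀ a < o, Fo p φ (cns (opN (ck a) (w a)) v) := by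
  have h1 : bval (fBall j φ) v = ⨅ z, (mem z (v j) ⇨ bval φ (cns z v)) := rfl
  have h2 : bval (fBall j φ) v = ⨅ i : o.ToType, (⊤ ⇨ bval φ
      (cns (opN (ck (Ordinal.ToType.toOrd i).1) (w (Ordinal.ToType.toOrd i).1)) v)) := by
    rw [h1, hj]
    exact iInf_mem (bval_ext φ v) (seqN o w)
  unfold Fo
  rw [h2, RO.mem_iInf]
  simp only [top_himp]
  constructor
  · intro h a ha
    have h3 : Ordinal.ToType.toOrd ((Ordinal.ToType.mk (o := o)) ⟨a, ha⟩) = ⟨a, ha⟩ :=
      (Ordinal.ToType.mk (o := o)).symm_apply_apply ⟨a, ha⟩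
    have h4 := h ((Ordinal.ToType.mk (o := o)) ⟨a, ha⟩)
    rw [h3] at h4
    exact h4
  · intro h i
    exact h _ (Ordinal.ToType.toOrd i).2

theorem seqN_val (o : Ordinal.{u}) (w : Ordinal.{u} → BSet (RO P)) {a : Ordinal.{u}} (ha : a < o)
    (G : Ult (RO P)) :
    Val (EG G) (NG.mk G (seqN o w)) (NG.mk G (ck a)) (NG.mk G (w a)) := by
  refine ⟨NG.mk G (opN (ck a) (w a)), ?_, opN_op G _ _⟩
  rw [EG_mk]
  have h3 : Ordinal.ToType.toOrd ((Ordinal.ToType.mk (o := o)) ⟨a, ha⟩) = ⟨a, ha⟩ :=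
    (Ordinal.ToType.mk (o := o)).symm_apply_apply ⟨a, ha⟩
  have h1 : (⊤ : RO P) ≤ mem (opN (ck (Ordinal.ToType.toOrd
      ((Ordinal.ToType.mk (o := o)) ⟨a, ha⟩)).1) (w (Ordinal.ToType.toOrd
      ((Ordinal.ToType.mk (o := o)) ⟨a, ha⟩)).1)) (seqN o w) :=
    vl_le_mem (seqN o w) ((Ordinal.ToType.mk (o := o)) ⟨a, ha⟩)
  rw [h3] at h1
  exact G.up G.top h1

theorem seqN_fun (o : Ordinal.{u}) (w : Ordinal.{u} → BSet (RO P)) (G : Ult (RO P)) :
    IsFun (EG G) (NG.mk G (seqN o w)) (NG.mk G (ck o)) := by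
  have hck : ∀ (G : Ult (RO P)) (a b : Ordinal.{u}), NG.mk G (ck a) = NG.mk G (ck b) →
      a = b := by
    intro G a b h
    by_contra hne
    have h1 := NG.mk_eq.1 h
    rw [eq_ck_ck] at h1
    have h2 : (chi (a = b) : RO P) = ⊥ := iSup_neg hne
    rw [h2] at h1
    exact G.bot h1
  have p1 : ∀ p : P, Fo p (fBall 0 (.ex (.ex (.an (.mem 1 4) (fOP 2 1 0)))))
      (vl [seqN o w, ck o]) := by
    intro p
    rw [seqN_mem (o := o) (w := w) rfl]
    intro a ha
    refine Fo.of_top (fun G => ?_) p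
    simp only [sat_ex, sat_an, sat_mem, sat_fOP]
    refine ⟨NG.mk G (ck a), NG.mk G (w a), ?_, opN_op G _ _⟩
    change EG G (NG.mk G (ck a)) (NG.mk G (ck o))
    rw [EG_mk, mem_ck_ck]
    have h2 : (chi (a < o) : RO P) = ⊤ := iSup_pos ha
    rw [h2]
    exact G.top
  have p2 : ∀ p : P, Fo p (fBall 1 (.ex (fVal 2 1 0))) (vl [seqN o w, ck o]) := by
    intro p
    rw [Fo.ball (o := o) rfl]
    intro a ha
    refine Fo.of_top (fun G => ?_) p
    simp only [sat_ex, sat_fVal]
    exact ⟨NG.mk G (w a), seqN_val o w ha G⟩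
  have p3 : ∀ p : P, Fo p (fBall 0 (fBall 1 (.all (.all (.all (.imp (fOP 4 2 1)
      (.imp (fOP 3 2 0) (.eq 1 0)))))))) (vl [seqN o w, ck o]) := by
    intro p
    rw [seqN_mem (o := o) (w := w) rfl]
    intro a ha
    rw [seqN_mem (o := o) (w := w) rfl]
    intro b hb
    refine Fo.of_top (fun G => ?_) p
    simp only [sat_all, sat_imp, sat_fOP, sat_eq]
    intro x y z h1 h2
    obtain ⟨h3, h4⟩ := IsOP.inj (NG_zfc G) (opN_op G (ck a) (w a)) h1
    obtain ⟨h5, h6⟩ := IsOP.inj (NG_zfc G) (opN_op G (ck b) (w b)) h2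
    have h7 : a = b := hck G a b (h3.trans h5.symm)
    subst h7
    exact h4.symm.trans h6
  refine ⟨?_, ?_, ?_⟩
  · intro q hq
    have h := Fo.top p1 G
    simp only [sat_fBall, sat_ex, sat_an, sat_mem, sat_fOP] at h
    exact h q hq
  · intro x hx
    have h := Fo.top p2 G
    simp only [sat_fBall, sat_ex, sat_fVal] at h
    exact h x hx
  · rintro x y z ⟨q, hq, h1⟩ ⟨q', hq', h2⟩
    have h := Fo.top p3 G
    simp only [sat_fBall, sat_all, sat_imp, sat_fOP, sat_eq] at h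
    exact h q hq q' hq' x y z h1 h2

end STP
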