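import Pool.Agent.STP.Lang

/-! # Formulas for the notions of set theory in `Lang.lean`

(problem MP_e44aae_lc, project STP; no sorry in this file)

For each predicate `R` of `Lang.lean` a formula `fR i j ...` whose free variables are `i, j, ...`,
and `sat E (fR i j ...) v ↔ R E (v i) (v j) ...`. -/

universe v

namespace STP

section

variable {X : Type v} (x : X) (v : ℕ → X)

@[simp] theorem cns_two : cns x v 2 = v 1 := rfl
@[simp] theorem cns_three : cns x v 3 = v 2 := rfl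
@[simp] theorem cns_four : cns x v 4 = v 3 := rfl
@[simp] theorem cns_five : cns x v 5 = v 4 := rfl
@[simp] theorem cns_six : cns x v 6 = v 5 := rfl
@[simp] theorem cns_seven : cns x v 7 = v 6 := rfl
@[simp] theorem cns_eight : cns x v 8 = v 7 := rfl
@[simp] theorem cns_nine : cns x v 9 = v 8 := rfl
@[simp] theorem cns_add_two (n : ℕ) : cns x v (n + 2) = v (n + 1) := rfl
@[simp] theorem cns_add_three (n : ℕ) : cns x v (n + 3) = v (n + 2) := rfl
@[simp] theorem cns_add_four (n : ℕ) : cns x v (n + 4) = v (n + 3) := rfl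
@[simp] theorem cns_add_five (n : ℕ) : cns x v (n + 5) = v (n + 4) := rfl

end

open Fml

/-- `x_i ⊆ x_j` -/
def fSub (i j : ℕ) : Fml := .all (.imp (.mem 0 (i + 1)) (.mem 0 (j + 1)))

/-- `x_p = {x_i, x_j}` -/
def fUP (p i j : ℕ) : Fml := .all (iff (.mem 0 (p + 1)) (or (.eq 0 (i + 1)) (.eq 0 (j + 1))))

/-- `x_p = (x_i, x_j)` -/
def fOP (p i j : ℕ) : Fml :=
  .all (iff (.mem 0 (p + 1)) (or (fUP 0 (i + 1) (i + 1)) (fUP 0 (i + 1) (j + 1))))

/-- `(x_i, x_j) ∈ x_f` -/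
def fVal (f i j : ℕ) : Fml := ex (an (.mem 0 (f + 1)) (fOP 0 (i + 1) (j + 1)))

/-- `x_f` is a function with domain `x_a` -/
def fFun (f a : ℕ) : Fml :=
  an (.all (.imp (.mem 0 (f + 1)) (ex (ex (an (.mem 1 (a + 3)) (fOP 2 1 0))))))
    (an (.all (.imp (.mem 0 (a + 1)) (ex (fVal (f + 2) 1 0))))
      (.all (.all (.all (.imp (fVal (f + 3) 2 1) (.imp (fVal (f + 3) 2 0) (.eq 1 0)))))))

/-- `x_i` is transitive -/
def fTr (i : ℕ) : Fml := .all (.imp (.mem 0 (i + 1)) (fSub 0 (i + 1)))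

/-- `x_i` is an ordinal -/
def fOrd (i : ℕ) : Fml := an (fTr i) (.all (.imp (.mem 0 (i + 1)) (fTr 0)))

/-- `x_s = x_i ∪ {x_i}` -/
def fSc (s i : ℕ) : Fml := .all (iff (.mem 0 (s + 1)) (or (.mem 0 (i + 1)) (.eq 0 (i + 1))))

/-- `x_w` is the set of natural numbers -/
def fOm (w : ℕ) : Fml :=
  an (fOrd w) (an (ex (.mem 0 (w + 1)))
    (an (.all (.imp (.mem 0 (w + 1)) (ex (an (.mem 0 (w + 2)) (fSc 0 1)))))
      (.all (.imp (.mem 0 (w + 1)) (.imp (ex (.mem 0 1)) (ex (fSc 1 0)))))))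

/-- `|x_i| < x_k` -/
def fSm (i k : ℕ) : Fml :=
  ex (an (.mem 0 (k + 1)) (ex (an (fFun 0 1)
    (.all (.imp (.mem 0 (i + 3)) (ex (an (.mem 0 3) (fVal 2 0 1))))))))

/-- `x_c` is a cardinal -/
def fCd (c : ℕ) : Fml := an (fOrd c) (no (fSm c c))

/-- `x_c` is an infinite cardinal -/
def fIC (c : ℕ) : Fml := an (fCd c) (ex (an (fOm 0) (fSub 0 (c + 1))))

/-- `x_c` is an infinite regular cardinal -/
def fRC (c : ℕ) : Fml :=
  an (fIC c) (.all (.all (.imp (.mem 1 (c + 2)) (.imp (fFun 0 1)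
    (.imp (.all (.all (.imp (fVal 2 1 0) (.mem 0 (c + 4)))))
      (ex (an (.mem 0 (c + 3)) (.all (.all (.imp (fVal 3 1 0) (.mem 0 2)))))))))))

/-- `x_c = ℵ_(x_g)` -/
def fAl (c g : ℕ) : Fml :=
  an (fIC c) (an (fOrd g) (ex (an (fFun 0 (g + 1))
    (an (.all (.all (.imp (fVal 2 1 0) (an (.mem 0 (c + 3)) (fIC 0)))))
      (an (.all (.imp (.mem 0 (c + 2)) (.imp (fIC 0) (ex (fVal 2 0 1)))))
        (.all (.all (.all (.all (.imp (fVal 4 3 1) (.imp (fVal 4 2 0)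
          (.imp (.mem 3 2) (.mem 1 0)))))))))))))

/-- `x_i ∈ P_(x_k)(x_l)` -/
def fP (k l i : ℕ) : Fml := an (fSub i l) (fSm i k)

/-- `x_d` is a `P_(x_k)(x_l)`-list -/
def fList (k l d : ℕ) : Fml :=
  an (.all (.imp (.mem 0 (d + 1)) (ex (ex (an (fP (k + 3) (l + 3) 1) (fOP 2 1 0))))))
    (an (.all (.imp (fP (k + 1) (l + 1) 0) (ex (fVal (d + 2) 1 0))))
      (an (.all (.all (.all (.imp (fVal (d + 3) 2 1) (.imp (fVal (d + 3) 2 0) (.eq 1 0))))))
        (.all (.all (.imp (fVal (d + 2) 1 0) (fSub 0 1))))))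

/-- `x_u` is the union of `x_s` -/
def fUn (u s : ℕ) : Fml :=
  .all (iff (.mem 0 (u + 1)) (ex (an (.mem 0 (s + 2)) (.mem 1 0))))

/-- `x_C` is a club in `P_(x_k)(x_l)` -/
def fClub (k l C : ℕ) : Fml :=
  an (.all (.imp (.mem 0 (C + 1)) (fP (k + 1) (l + 1) 0)))
    (an (.all (.imp (fP (k + 1) (l + 1) 0) (ex (an (.mem 0 (C + 2)) (fSub 1 0)))))
      (.all (.all (.imp (fSub 1 (C + 2)) (.imp (ex (.mem 0 2))
        (.imp (.all (.all (.imp (.mem 1 3) (.imp (.mem 0 3) (or (fSub 1 0) (fSub 0 1))))))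
          (.imp (fSm 1 (k + 2)) (.imp (fUn 0 1) (.mem 0 (C + 2))))))))))

/-- `x_t = x_s ∩ x_y` -/
def fInt (t s y : ℕ) : Fml := .all (iff (.mem 0 (t + 1)) (an (.mem 0 (s + 1)) (.mem 0 (y + 1))))

/-- `x_T` is the set of traces of the list `x_d` on `x_y` -/
def fTrace (k l d y T : ℕ) : Fml :=
  .all (iff (.mem 0 (T + 1)) (ex (ex (an (fP (k + 3) (l + 3) 1) (an (fSub (y + 3) 1)
    (an (fVal (d + 3) 1 0) (fInt 2 0 (y + 3))))))))

/-- `x_d` is thin -/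
def fThin (k l d : ℕ) : Fml :=
  ex (an (fClub (k + 1) (l + 1) 0) (.all (.imp (.mem 0 1)
    (ex (an (fTrace (k + 3) (l + 3) (d + 3) 1 0) (fSm 0 (k + 3)))))))

/-- `x_b` is a cofinal branch of `x_d` -/
def fBr (k l d b : ℕ) : Fml :=
  an (fSub b l) (.all (.imp (fP (k + 1) (l + 1) 0) (ex (ex (ex
    (an (fP (k + 4) (l + 4) 2) (an (fSub 3 2) (an (fVal (d + 4) 2 1)
      (an (fInt 0 1 3) (fInt 0 (b + 4) 3))))))))))

/-- the strong tree property at `x_k` -/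
def fSTP (k : ℕ) : Fml :=
  .all (.all (.imp (fOrd 1) (.imp (fSub (k + 2) 1) (.imp (fList (k + 2) 1 0)
    (.imp (fThin (k + 2) 1 0) (ex (fBr (k + 3) 2 1 0)))))))

section

variable {N : Type v} {E : N → N → Prop} {v : ℕ → N}

@[simp] theorem sat_fSub {i j : ℕ} : sat E (fSub i j) v ↔ Sub E (v i) (v j) := by
  simp [fSub, Sub]

@[simp] theorem sat_fUP {p i j : ℕ} : sat E (fUP p i j) v ↔ IsUP E (v p) (v i) (v j) := by
  simp [fUP, IsUP]

@[simp] theorem sat_fOP {p i j : ℕ} : sat E (fOP p i j) v ↔ IsOP E (v p) (v i) (v j) := by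
  simp [fOP, IsOP]

@[simp] theorem sat_fVal {f i j : ℕ} : sat E (fVal f i j) v ↔ Val E (v f) (v i) (v j) := by
  simp [fVal, Val]

@[simp] theorem sat_fFun {f a : ℕ} : sat E (fFun f a) v ↔ IsFun E (v f) (v a) := by
  simp [fFun, IsFun]

@[simp] theorem sat_fTr {i : ℕ} : sat E (fTr i) v ↔ IsTr E (v i) := by
  simp [fTr, IsTr]

@[simp] theorem sat_fOrd {i : ℕ} : sat E (fOrd i) v ↔ IsOrd E (v i) := by
  simp [fOrd, IsOrd]

@[simp] theorem sat_fSc {s i : ℕ} : sat E (fSc s i) v ↔ IsSc E (v s) (v i) := by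
  simp [fSc, IsSc]

@[simp] theorem sat_fOm {w : ℕ} : sat E (fOm w) v ↔ IsOm E (v w) := by
  simp [fOm, IsOm]

@[simp] theorem sat_fSm {i k : ℕ} : sat E (fSm i k) v ↔ Sm E (v i) (v k) := by
  simp [fSm, Sm]

@[simp] theorem sat_fCd {c : ℕ} : sat E (fCd c) v ↔ IsCd E (v c) := by
  simp [fCd, IsCd]

@[simp] theorem sat_fIC {c : ℕ} : sat E (fIC c) v ↔ IsIC E (v c) := by
  simp [fIC, IsIC]

@[simp] theorem sat_fRC {c : ℕ} : sat E (fRC c) v ↔ IsRC E (v c) := by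
  simp [fRC, IsRC]

@[simp] theorem sat_fAl {c g : ℕ} : sat E (fAl c g) v ↔ IsAl E (v c) (v g) := by
  simp [fAl, IsAl]

@[simp] theorem sat_fP {k l i : ℕ} : sat E (fP k l i) v ↔ IsP E (v k) (v l) (v i) := by
  simp [fP, IsP]

@[simp] theorem sat_fList {k l d : ℕ} :
    sat E (fList k l d) v ↔ IsList E (v k) (v l) (v d) := by
  simp [fList, IsList]

@[simp] theorem sat_fUn {u s : ℕ} : sat E (fUn u s) v ↔ IsUn E (v u) (v s) := by
  simp [fUn, IsUn]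

@[simp] theorem sat_fClub {k l C : ℕ} :
    sat E (fClub k l C) v ↔ IsClub E (v k) (v l) (v C) := by
  simp [fClub, IsClub]

@[simp] theorem sat_fInt {t s y : ℕ} : sat E (fInt t s y) v ↔ IsInt E (v t) (v s) (v y) := by
  simp [fInt, IsInt]

@[simp] theorem sat_fTrace {k l d y T : ℕ} :
    sat E (fTrace k l d y T) v ↔ IsTrace E (v k) (v l) (v d) (v y) (v T) := by
  simp [fTrace, IsTrace]

@[simp] theorem sat_fThin {k l d : ℕ} :
    sat E (fThin k l d) v ↔ IsThin E (v k) (v l) (v d) := by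
  simp [fThin, IsThin]

@[simp] theorem sat_fBr {k l d b : ℕ} :
    sat E (fBr k l d b) v ↔ IsBr E (v k) (v l) (v d) (v b) := by
  simp [fBr, IsBr]

@[simp] theorem sat_fSTP {k : ℕ} : sat E (fSTP k) v ↔ StrongTP E (v k) := by
  simp [fSTP, StrongTP]

end

end STP
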