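import Pool.Agent.STP.Fo

/-! # Names of ordinals in the quotients (package Y02)

(problem MP_e44aae_lc, project STP)

* `ck_mem_iff`, `ck_eq_iff`: `EG_mk`, `NG.mk_eq`, `mem_ck_ck`, `eq_ck_ck` (`chi` is `⊤` or `⊥`).
* `ck_sub`: `ck_tr` (every element of `NG G` is a class).
* `ck_ord`: transitivity: `∀ y ∈ ck a, ∀ z ∈ y, z ∈ ck a` is the formula `fTr 0`; as `bval (fBall 0 (fSub 0 1)) v` it equals `⨅ b < a, bval (fSub 0 1) (cns (ck b) v)` by `Fo.ball`, and `ck b ⊆ ck a` by `ck_sub`. (`fTr i` is `fBall i (fSub 0 (i+1))` by `rfl`, or use `sat` in all `NG G`.) The same for the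
  elements. Work with `Fo p` for all `p` and pass to `G` by `los'` (`bval = ⊤` if forced by all `p`).
* `ck_sc`: `mem_ck_succ` (file ZInf).
* `ck_om`: `IsOrd` by `ck_ord`; `ck 0 ∈ ck ω`; for `x ∈ ck ω` there is a successor in `ck ω`: `Fo.ball`: for `n < ω` the name `ck (succ n)` (`ck_sc`); if `x = ck n ∈ ck ω` has an element then `n ≠ 0` (`ck 0` is empty: `mem_ck` is an empty supremum), so `n = succ m` (a natural number) and `ck n` is the successor of `ck m`.
* `om_sub`: `w = NG.mk G W`. For every `q` with `Fo q (fOm 0) (vl [W])` and every `n < ω`: `Fo q (.mem 0 1) (vl [ck n, W])`, by induction on `n` (`n` is a natural number, `Ordinal.lt_omega0`): in each `NG G'` with `up q ∈ G'`: `w'` is a nonzero ordinal; it contains the empty set `ck 0` (foundation: an `E`-minimal element of `w'` is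
  empty because `w'` is transitive; an empty set is equal to `ck 0` by extensionality), and with `ck n` it contains its successor, which is `ck (succ n)` by extensionality. So for all `q`: `Fo q (fOm 0 → ∀ x ∈ ck ω, x ∈ w)` (`Fo.imp`, `Fo.ball`); `los'`.
* `ck_ex`: `Fo q (.mem 0 1) (vl [x, ck o])`: `mem_ck` and `RO.mem_iSup`.
* `ck_zero`: `mem_ck`. -/

universe u

namespace STP

open BSet

variable {P : Type u} [PartialOrder P]

private theorem yo_chi (G : Ult (RO P)) {p : Prop} : (chi p : RO P) ∈ G.s ↔ p := by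
  by_cases h : p
  · have h1 : (chi p : RO P) = ⊤ := le_antisymm le_top (le_iSup (fun _ : p => (⊤ : RO P)) h)
    rw [h1]
    exact ⟨fun _ => h, fun _ => G.top⟩
  · have h1 : (chi p : RO P) = ⊥ := le_antisymm (iSup_le fun h1 => absurd h1 h) bot_le
    rw [h1]
    exact ⟨fun h2 => absurd h2 G.bot, fun h2 => absurd h2 h⟩

private theorem yo_ball {φ : Fml} {v : ℕ → BSet (RO P)} {j : ℕ} {o : Ordinal.{u}}
    (hj : v j = ck o)
    (h : ∀ a < o, ∀ G : Ult (RO P), STP.sat (EG G) φ (ev G (cns (ck a) v)))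
    (G : Ult (RO P)) : STP.sat (EG G) (fBall j φ) (ev G v) := by
  refine Fo.top (fun p => ?_) G
  rw [Fo.ball hj]
  intro a ha
  exact Fo.of_top (fun G => h a ha G) p

theorem ck_mem_iff (G : Ult (RO P)) {a b : Ordinal.{u}} :
    EG G (NG.mk G (ck a)) (NG.mk G (ck b)) ↔ a < b := by
  rw [EG_mk, mem_ck_ck, yo_chi]

theorem ck_eq_iff (G : Ult (RO P)) {a b : Ordinal.{u}} :
    NG.mk G (ck a) = NG.mk G (ck b) ↔ a = b := by
  rw [NG.mk_eq, eq_ck_ck, yo_chi]

theorem ck_sub (G : Ult (RO P)) {a b : Ordinal.{u}} (h : a ≤ b) :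
    Sub (EG G) (NG.mk G (ck a)) (NG.mk G (ck b)) := by
  intro z hz
  obtain ⟨z', rfl⟩ := NG.exists_rep z
  rw [EG_mk] at hz ⊢
  exact G.up hz (ck_tr h z')

theorem ck_ord (G : Ult (RO P)) (a : Ordinal.{u}) : IsOrd (EG G) (NG.mk G (ck a)) := by
  have h1 : ∀ (b : Ordinal.{u}) (G : Ult (RO P)), IsTr (EG G) (NG.mk G (ck b)) := by
    intro b G
    have h2 := yo_ball (φ := fSub 0 1) (v := vl [ck b]) (j := 0) (o := b) rfl
      (fun c hc G' => sat_fSub.2 (ck_sub G' hc.le)) G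
    intro y hy
    have h3 := sat_fBall.1 h2 y hy
    rw [sat_fSub] at h3
    exact h3
  refine ⟨h1 a G, ?_⟩
  have h2 := yo_ball (φ := fTr 0) (v := vl [ck a]) (j := 0) (o := a) rfl
    (fun c hc G' => sat_fTr.2 (h1 c G')) G
  intro y hy
  have h3 := sat_fBall.1 h2 y hy
  rw [sat_fTr] at h3
  exact h3

theorem ck_sc (G : Ult (RO P)) (a : Ordinal.{u}) :
    IsSc (EG G) (NG.mk G (ck (Order.succ a))) (NG.mk G (ck a)) := by
  intro z
  obtain ⟨z', rfl⟩ := NG.exists_rep z
  rw [EG_mk, mem_ck_succ, EG_mk, NG.mk_eq]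
  constructor
  · intro h
    rcases G.dec (mem z' (ck a)) with h1 | h1
    · exact Or.inl h1
    · refine Or.inr (G.up (G.inf h h1) ?_)
      rw [inf_sup_right, inf_compl_eq_bot, bot_sup_eq]
      exact inf_le_left
  · rintro (h | h)
    · exact G.up h le_sup_left
    · exact G.up h le_sup_right

theorem ck_zero (G : Ult (RO P)) (x : NG G) : ¬ EG G x (NG.mk G (ck 0)) := by
  obtain ⟨z', rfl⟩ := NG.exists_rep x
  rw [EG_mk, mem_ck]
  have h : (⨆ a : Set.Iio (0 : Ordinal.{u}), eq z' (ck a.1)) = ⊥ := by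
    refine iSup_eq_bot.2 fun a => ?_
    exact absurd a.2 (not_lt_of_ge (zero_le (a := a.1)))
  rw [h]
  exact G.bot

theorem ck_om (G : Ult (RO P)) : IsOm (EG G) (NG.mk G (ck Ordinal.omega0)) := by
  refine ⟨ck_ord G _, ⟨_, (ck_mem_iff G).2 Ordinal.omega0_pos⟩, ?_, ?_⟩
  · have h1 := yo_ball (φ := .ex (.an (.mem 0 2) (fSc 0 1))) (v := vl [ck Ordinal.omega0])
      (j := 0) (o := Ordinal.omega0) rfl (fun a ha G' => by
        rw [sat_ex]
        refine ⟨NG.mk G' (ck (Order.succ a)), sat_an.2 ⟨?_, sat_fSc.2 (ck_sc G' a)⟩⟩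
        exact (ck_mem_iff G').2 (Ordinal.isSuccLimit_omega0.succ_lt ha)) G
    intro x hx
    have h2 := sat_fBall.1 h1 x hx
    obtain ⟨s, hs⟩ := sat_ex.1 h2
    obtain ⟨h3, h4⟩ := sat_an.1 hs
    exact ⟨s, h3, sat_fSc.1 h4⟩
  · have h1 := yo_ball (φ := .imp (.ex (.mem 0 1)) (.ex (fSc 1 0)))
      (v := vl [ck Ordinal.omega0])
      (j := 0) (o := Ordinal.omega0) rfl (fun a ha G' => by
        rw [sat_imp, sat_ex, sat_ex]
        rintro ⟨z, hz⟩
        obtain ⟨n, rfl⟩ := Ordinal.lt_omega0.1 ha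
        cases n with
        | zero =>
          exfalso
          refine ck_zero G' z ?_
          have h2 : EG G' z (NG.mk G' (ck ((0 : ℕ) : Ordinal.{u}))) := hz
          rwa [Nat.cast_zero] at h2
        | succ m =>
          refine ⟨NG.mk G' (ck (m : Ordinal.{u})), sat_fSc.2 ?_⟩
          have h2 := ck_sc G' (m : Ordinal.{u})
          have h3 : Order.succ (m : Ordinal.{u}) = ((m + 1 : ℕ) : Ordinal.{u}) := by
            rw [Order.succ_eq_add_one]
            push_cast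
            rfl
          rw [h3] at h2
          exact h2) G
    intro x hx h3
    have h2 := sat_fBall.1 h1 x hx
    rw [sat_imp, sat_ex, sat_ex] at h2
    obtain ⟨y, hy⟩ := h2 h3
    exact ⟨y, sat_fSc.1 hy⟩

theorem om_sub (G : Ult (RO P)) {w : NG G} (h : IsOm (EG G) w) :
    Sub (EG G) (NG.mk G (ck Ordinal.omega0)) w := by
  obtain ⟨W, rfl⟩ := NG.exists_rep w
  have h0 : ∀ (G' : Ult (RO P)) (w' : NG G'), IsOm (EG G') w' → ∀ n : ℕ,
      EG G' (NG.mk G' (ck (n : Ordinal.{u}))) w' := by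
    intro G' w' hw' n
    induction n with
    | zero =>
      obtain ⟨y, hy, hy'⟩ := NG_found G' w' hw'.2.1
      have h1 : y = NG.mk G' (ck ((0 : ℕ) : Ordinal.{u})) := by
        rw [Nat.cast_zero]
        refine NG_ext G' _ _ fun z => ⟨fun hz => ?_, fun hz => absurd hz (ck_zero G' z)⟩
        exact absurd hz (hy' z (hw'.1.1 y hy z hz))
      rw [← h1]
      exact hy
    | succ m ih =>
      obtain ⟨s, hs, hs'⟩ := hw'.2.2.1 _ ih
      have h3 : Order.succ (m : Ordinal.{u}) = ((m + 1 : ℕ) : Ordinal.{u}) := by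
        rw [Order.succ_eq_add_one]
        push_cast
        rfl
      have h1 : s = NG.mk G' (ck ((m + 1 : ℕ) : Ordinal.{u})) := by
        rw [← h3]
        refine NG_ext G' _ _ fun z => ?_
        rw [hs' z, ck_sc G' (m : Ordinal.{u}) z]
      rw [← h1]
      exact hs
  have h1 : STP.sat (EG G) (.imp (fOm 0) (fBall 1 (.mem 0 1)))
      (ev G (vl [W, ck Ordinal.omega0])) := by
    refine Fo.top (fun p => ?_) G
    rw [Fo.imp]
    intro q _ hq
    rw [Fo.ball (o := Ordinal.omega0) rfl]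
    intro a ha
    obtain ⟨n, rfl⟩ := Ordinal.lt_omega0.1 ha
    refine Fo.of fun G' hG' => ?_
    exact h0 G' _ (sat_fOm.1 (hq.tr G' hG')) n
  rw [sat_imp] at h1
  have h2 := h1 (sat_fOm.2 h)
  intro x hx
  exact sat_fBall.1 h2 x hx

theorem ck_ex {p : P} {x : BSet (RO P)} {o : Ordinal.{u}}
    (h : Fo p (.mem 0 1) (vl [x, ck o])) :
    ∀ q ≤ p, ∃ r ≤ q, ∃ a < o, Fo r (.eq 0 1) (vl [x, ck a]) := by
  intro q hq
  have h1 : p ∈ mem x (ck o) := h
  rw [mem_ck, RO.mem_iSup] at h1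
  obtain ⟨r, hr, a, ha⟩ := h1 q hq
  exact ⟨r, hr, a.1, a.2, ha⟩

end STP
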