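import Pool.Agent.STP.Defs

/-! # Transfinite recursion, dense sets (package S01)

(problem MP_e44aae_lc, project STP)

* `TR`: well-founded recursion with choice on the well-order `α`.
* `DC.lower`: a descending family indexed by a linear order `α` with `#α < δ`, all of whose members
  are below `p`, has a lower bound `≤ p`.
* `REC`: fewer than `δ` dense open sets can be met by one condition.
* `NAME`: names of functions on fewer than `δ` arguments are decided as far as the small poset `T`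
  is concerned. -/

universe u v

namespace STP

open Cardinal

theorem TR {α : Type u} [LinearOrder α] [WellFoundedLT α] {X : Type v} [Nonempty X]
    (Rl : α → X → X → Prop) (G : α → X → Prop)
    (h : ∀ (i : α) (x : α → X), (∀ j k, j < k → k < i → Rl j (x j) (x k)) →
      (∀ j < i, G j (x j)) → ∃ y, (∀ j < i, Rl j (x j) y) ∧ G i y) :
    ∃ x : α → X, (∀ j k, j < k → Rl j (x j) (x k)) ∧ ∀ i, G i (x i) := by
  classical
  let d : X := Classical.arbitrary X
  let E : ∀ i : α, (∀ j, j < i → X) → α → X := fun i f j => if hj : j < i then f j hj else d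
  let F : ∀ i : α, (∀ j, j < i → X) → X := fun i f =>
    if H : (∀ j k, j < k → k < i → Rl j (E i f j) (E i f k)) ∧ (∀ j < i, G j (E i f j)) then
      Classical.choose (h i (E i f) H.1 H.2) else d
  let x : α → X := WellFounded.fix (wellFounded_lt (α := α)) F
  have hx : ∀ i, x i = F i (fun j _ => x j) := fun i =>
    WellFounded.fix_eq (wellFounded_lt (α := α)) F i
  have key : ∀ i, (∀ j < i, Rl j (x j) (x i)) ∧ G i (x i) := by
    intro i
    induction i using WellFoundedLT.induction with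
    | ind i ih =>
      have hE : ∀ j, j < i → E i (fun j _ => x j) j = x j := by
        intro j hj
        exact dif_pos hj
      have H : (∀ j k, j < k → k < i →
          Rl j (E i (fun j _ => x j) j) (E i (fun j _ => x j) k)) ∧
          (∀ j < i, G j (E i (fun j _ => x j) j)) := by
        refine ⟨fun j k hjk hk => ?_, fun j hj => ?_⟩
        · rw [hE j (hjk.trans hk), hE k hk]
          exact (ih k hk).1 j hjk
        · rw [hE j hj]
          exact (ih j hj).2
      have hs := Classical.choose_spec (h i (E i (fun j _ => x j)) H.1 H.2)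
      have he : x i = Classical.choose (h i (E i (fun j _ => x j)) H.1 H.2) := by
        rw [hx i]
        exact dif_pos H
      rw [← he] at hs
      refine ⟨fun j hj => ?_, hs.2⟩
      have h1 := hs.1 j hj
      rwa [hE j hj] at h1
  exact ⟨x, fun j k hjk => (key k).1 j hjk, fun i => (key i).2⟩

theorem DC.lower {δ : Cardinal.{u}} {P : Type u} [Preorder P] (hP : DC δ P) {α : Type u}
    [LinearOrder α] (hα : #α < δ) (x : α → P) (hx : Antitone x) (p : P) (hp : ∀ i, x i ≤ p) :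
    ∃ q ≤ p, ∀ i, q ≤ x i := by
  rcases isEmpty_or_nonempty α with hα0 | ⟨⟨i0⟩⟩
  · exact ⟨p, le_rfl, fun i => (hα0.false i).elim⟩
  · have hdir : DirectedOn (· ≥ ·) (Set.range x) := by
      rintro a ⟨i, rfl⟩ b ⟨j, rfl⟩
      exact ⟨x (max i j), ⟨_, rfl⟩, hx (le_max_left i j), hx (le_max_right i j)⟩
    obtain ⟨q, hq⟩ := hP (Set.range x) hdir (lt_of_le_of_lt Cardinal.mk_range_le hα)
    exact ⟨q, (hq _ ⟨i0, rfl⟩).trans (hp i0), fun i => hq _ ⟨i, rfl⟩⟩

theorem REC {δ : Cardinal.{u}} {P : Type u} [Preorder P] (hP : DC δ P) {J : Type u}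
    (hJ : #J < δ) (D : J → P → Prop) (p : P) (hop : ∀ s q r, r ≤ q → D s q → D s r)
    (hd : ∀ s, ∀ q ≤ p, ∃ r ≤ q, D s r) : ∃ r ≤ p, ∀ s, D s r := by
  obtain ⟨hlin, hwf⟩ := exists_wellFoundedLT J
  have : Nonempty P := ⟨p⟩
  obtain ⟨x, hx, hG⟩ := TR (α := J) (X := P) (fun _ x y => y ≤ x) (fun j y => y ≤ p ∧ D j y) (by
    intro i x h1 h2
    obtain ⟨q, hqp, hq⟩ := DC.lower hP (α := {j : J // j < i})
      (lt_of_le_of_lt (Cardinal.mk_subtype_le _) hJ) (fun j => x j.1) (by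
        rintro ⟨j, hj⟩ ⟨k, hk⟩ hjk
        rcases eq_or_lt_of_le (show j ≤ k from hjk) with h | h
        · subst h
          exact le_rfl
        · exact h1 j k h hk) p (fun j => (h2 j.1 j.2).1)
    obtain ⟨r, hr, hD⟩ := hd i q hqp
    exact ⟨r, fun j hj => hr.trans (hq ⟨j, hj⟩), hr.trans hqp, hD⟩)
  obtain ⟨r, hrp, hr⟩ := DC.lower hP hJ x (by
    intro j k hjk
    rcases eq_or_lt_of_le hjk with h | h
    · subst h
      exact le_rfl
    · exact hx j k h) p (fun i => (hG i).1)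
  exact ⟨r, hrp, fun s => hop s _ _ (hr s) (hG s).2⟩

theorem NAME {δ : Cardinal.{u}} (hδ : ℵ₀ ≤ δ) {T Q J X : Type u} [Preorder T] [Preorder Q]
    (hQ : DC δ Q) (hT : #T < δ) (hJ : #J < δ) (W : J → T → Q → X → Prop)
    (hW : ∀ s t q x t' q', t' ≤ t → q' ≤ q → W s t q x → W s t' q' x) (t0 : T) (q0 : Q)
    (hd : ∀ s, ∀ t ≤ t0, ∀ q ≤ q0, ∃ t' ≤ t, ∃ q' ≤ q, ∃ x, W s t' q' x) :
    ∃ q ≤ q0, ∀ s, ∀ t ≤ t0, ∃ t' ≤ t, ∃ x, W s t' q x := by
  have hc : #(J × {t : T // t ≤ t0}) < δ := by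
    rw [Cardinal.mk_prod, Cardinal.lift_id, Cardinal.lift_id]
    exact Cardinal.mul_lt_of_lt hδ hJ (lt_of_le_of_lt (Cardinal.mk_subtype_le _) hT)
  obtain ⟨q, hq, h⟩ := REC hQ hc (fun z q => ∃ t' ≤ z.2.1, ∃ x, W z.1 t' q x) q0 (by
    rintro ⟨s, t⟩ q r hrq ⟨t', ht', x, hx⟩
    exact ⟨t', ht', x, hW _ _ _ _ _ _ le_rfl hrq hx⟩) (by
    rintro ⟨s, t⟩ q hq
    obtain ⟨t', ht', q', hq', x, hx⟩ := hd s t.1 t.2 q hq
    exact ⟨q', hq', t', ht', x, hx⟩)
  exact ⟨q, hq, fun s t ht => h (s, ⟨t, ht⟩)⟩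

end STP
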