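import Pool.Agent.STP.BEq

/-! # Mixing and the maximum principle for Boolean valued sets (package M02)

(problem MP_e44aae_lc, project STP)

* `mix`: for a disjoint family `a i` (`i : ι`, `ι : Type u`) and names `x i` let `y := mk (Σ i, (x i).ty) (fun p => (x p.1).fn p.2) (fun p => a p.1 ⊓ (x p.1).vl p.2)`. Then `a i ≤ eq y (x i)`: use `le_eq_iff`:
  `a i ⊓ mem z y = a i ⊓ ⨆ p, a p.1 ⊓ (x p.1).vl p.2 ⊓ eq z ((x p.1).fn p.2)`, only `p.1 = i` contributes (disjointness), `≤ mem z (x i)`; conversely `a i ⊓ mem z (x i) ≤ mem z y`.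
* `full`: let `Φ` be extensional. The set of values `{Φ y | y}` is a subset of `B : Type u`; choose for each `b : B` in it a name `x b` with `Φ (x b) = b`. Well-order `ι := {b : B // ∃ y, Φ y = b}` and put `a b := b ⊓ (⨆ c < b (in the well-order), c)ᶜ`:
  disjoint, `a b ≤ Φ (x b)`, `⨆ b, a b = ⨆ b, b = ⨆ y, Φ y` (well-founded induction). The mixture `y` has `a b ≤ eq y (x b) ⊓ Φ (x b) ≤ Φ y`, so `⨆ y, Φ y ≤ Φ y`.
* `full_le`: variant. -/

universe u

namespace STP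

namespace BSet

variable {B : Type u} [CompleteBooleanAlgebra B]

theorem mix {ι : Type u} (a : ι → B) (hd : ∀ i j, i ≠ j → a i ⊓ a j = ⊥) (x : ι → BSet B) :
    ∃ y : BSet B, ∀ i, a i ≤ eq y (x i) := by
  refine ⟨mk (Σ i, (x i).ty) (fun p => (x p.1).fn p.2) (fun p => a p.1 ⊓ (x p.1).vl p.2),
    fun i => le_eq_iff.2 fun z => ⟨?_, ?_⟩⟩
  · rw [mem_mk, inf_iSup_eq]
    refine iSup_le ?_
    rintro ⟨j, b⟩
    by_cases hj : i = j
    · subst hj
      refine le_trans ?_ (le_iSup (fun b : (x i).ty => (x i).vl b ⊓ eq z ((x i).fn b)) b)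
      exact inf_le_right.trans (inf_le_inf_right _ inf_le_right)
    · refine le_trans ?_ bot_le
      rw [← hd i j hj]
      exact inf_le_inf_left _ (inf_le_left.trans inf_le_left)
  · unfold mem
    rw [inf_iSup_eq]
    refine iSup_le fun b => ?_
    refine le_trans ?_ (le_iSup (fun p : (Σ i, (x i).ty) => (a p.1 ⊓ (x p.1).vl p.2) ⊓
      eq z ((x p.1).fn p.2)) ⟨i, b⟩)
    exact (inf_assoc _ _ _).ge

theorem full {Φ : BSet B → B} (hΦ : Ext Φ) : ∃ x, Φ x = ⨆ y, Φ y := by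
  choose x hx using fun b : {b : B // ∃ y, Φ y = b} => b.2
  obtain ⟨a, ha⟩ : ∃ a : {b : B // ∃ y, Φ y = b} → B, ∀ b, a b = b.1 ⊓
      (⨆ c : {c : {b : B // ∃ y, Φ y = b} // WellOrderingRel c b}, c.1.1)ᶜ := ⟨_, fun _ => rfl⟩
  have hab : ∀ b, a b ≤ b.1 := fun b => by
    rw [ha]
    exact inf_le_left
  have hd0 : ∀ b c, WellOrderingRel b c → a b ⊓ a c = ⊥ := by
    intro b c hbc
    refine le_bot_iff.1 ?_
    have h1 : a c ≤ (b.1)ᶜ := by
      rw [ha]
      refine inf_le_right.trans (compl_le_compl ?_)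
      exact le_iSup (fun c' : {c' : {b : B // ∃ y, Φ y = b} // WellOrderingRel c' c} => c'.1.1)
        ⟨b, hbc⟩
    exact (inf_le_inf (hab b) h1).trans (inf_compl_self (a := b.1)).le
  have hd : ∀ b c, b ≠ c → a b ⊓ a c = ⊥ := by
    intro b c hbc
    rcases trichotomous_of WellOrderingRel b c with h | h | h
    · exact hd0 b c h
    · exact absurd h hbc
    · rw [inf_comm]
      exact hd0 c b h
  obtain ⟨y, hy⟩ := mix a hd x
  have h1 : ∀ b, a b ≤ Φ y := by
    intro b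
    refine le_trans (le_inf ?_ ?_) (hΦ (x b) y)
    · rw [eq_symm]
      exact hy b
    · rw [hx]
      exact hab b
  have h2 : ∀ b : {b : B // ∃ y, Φ y = b}, b.1 ≤ Φ y := by
    intro b
    induction b using (IsWellFounded.wf (r := WellOrderingRel
      (α := {b : B // ∃ y, Φ y = b}))).induction with
    | _ b ih =>
      have h3 : (⨆ c : {c : {b : B // ∃ y, Φ y = b} // WellOrderingRel c b}, c.1.1) ≤ Φ y :=
        iSup_le fun c => ih c.1 c.2
      have h4 := h1 b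
      rw [ha] at h4
      calc b.1 = (b.1 ⊓ (⨆ c : {c : {b : B // ∃ y, Φ y = b} // WellOrderingRel c b}, c.1.1)) ⊔
            (b.1 ⊓ (⨆ c : {c : {b : B // ∃ y, Φ y = b} // WellOrderingRel c b}, c.1.1)ᶜ) :=
            (sup_inf_inf_compl).symm
        _ ≤ Φ y := sup_le (inf_le_right.trans h3) h4
  exact ⟨y, le_antisymm (le_iSup Φ y) (iSup_le fun z => h2 ⟨Φ z, z, rfl⟩)⟩

theorem full_le {Φ : BSet B → B} (hΦ : Ext Φ) {b : B} (h : b ≤ ⨆ y, Φ y) : ∃ x, b ≤ Φ x := by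
  obtain ⟨x, hx⟩ := full hΦ
  exact ⟨x, hx ▸ h⟩

end BSet

end STP
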