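import Pool.Agent.STP.BVal

/-! # The quotient is a model: extensionality, pairing, union, power set, separation (package M05)

(problem MP_e44aae_lc, project STP)

Names: `sepN x Φ` (elements of `x` with `Φ`), `upN x y` (unordered pair), `unN x` (union), `pwN x` (power set).

* `mem_sepN`: `⨆ a, (vl a ⊓ Φ (fn a)) ⊓ eq z (fn a) = mem z x ⊓ Φ z` by extensionality of `Φ`.
* `mem_upN`: `⨆ b : ULift Bool, ..`. `mem_unN`: `mem z (unN x) = ⨆ a : x.ty, x.vl a ⊓ mem z (x.fn a)` (`= ⨆ w, mem w x ⊓ mem z w` by `iSup_mem`).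
* `mem_pwN`: `mem z (pwN x) = ⨅ w, (mem w z ⇨ mem w x)`. `≤`: for `f : x.ty → B` the name `mk x.ty x.fn (fun a => f a ⊓ x.vl a)` is forced to be a subset of `x`, and `z` equal to it. `≥`: given `z`, put `f a := mem (x.fn a) z`; below `s := ⨅ w, (mem w z ⇨ mem w x)` the name for `f` is
  equal to `z` (`le_eq_iff`).
* In `NG G` (elements are `NG.mk G x`, `NG.exists_rep`): each axiom is read off: e.g. `sep`: choose `ẋ` and names `v̇ i`, `y := NG.mk G (sepN ẋ (fun z => bval φ (cns z v̇)))`; `EG_mk`, `mem_sepN`, `los` and `a ⊓ b ∈ G ↔ a ∈ G ∧ b ∈ G`. For functions `v : ℕ → NG G` choose representatives pointwise; `cns (mk z) (mk ∘ v̇) = mk ∘ cns z v̇` (funext, cases).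
  Suprema: `⨆ w, mem w x ⊓ mem z w ∈ G ↔ ∃ w, ..` by the maximum principle (`full`; the function is extensional), infima dually; or use `los` for the formulas `∃ w (w ∈ x ∧ z ∈ w)`, `∀ w (w ∈ z → w ∈ x)`. -/

universe u

namespace STP

open BSet

variable {B : Type u} [CompleteBooleanAlgebra B]

/-- `{z ∈ x | Φ z}` -/
def sepN (x : BSet B) (Φ : BSet B → B) : BSet B := mk x.ty x.fn fun a => x.vl a ⊓ Φ (x.fn a)

theorem mem_sepN {Φ : BSet B → B} (hΦ : Ext Φ) (x z : BSet B) :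
    mem z (sepN x Φ) = mem z x ⊓ Φ z := by
  have h1 : mem z (sepN x Φ) = ⨆ a : x.ty, (x.vl a ⊓ Φ (x.fn a)) ⊓ eq z (x.fn a) := rfl
  have h2 : mem z x = ⨆ a : x.ty, x.vl a ⊓ eq z (x.fn a) := rfl
  rw [h1, h2, iSup_inf_eq]
  refine iSup_congr fun a => le_antisymm ?_ ?_
  · refine le_inf (inf_le_inf_right _ inf_le_left) ?_
    refine le_trans (le_inf ?_ (inf_le_left.trans inf_le_right)) (hΦ (x.fn a) z)
    rw [eq_symm (x.fn a) z]
    exact inf_le_right
  · refine le_inf (le_inf (inf_le_left.trans inf_le_left) ?_) (inf_le_left.trans inf_le_right)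
    exact (inf_le_inf_right _ inf_le_right).trans (hΦ z (x.fn a))

/-- `{x, y}` -/
def upN (x y : BSet B) : BSet B := mk (ULift Bool) (fun b => if b.down then x else y) fun _ => ⊤

theorem mem_upN (x y z : BSet B) : mem z (upN x y) = eq z x ⊔ eq z y := by
  have h1 : mem z (upN x y) = ⨆ b : ULift Bool, ⊤ ⊓ eq z (if b.down then x else y) := rfl
  rw [h1]
  refine le_antisymm (iSup_le ?_) (sup_le ?_ ?_)
  · rintro ⟨b⟩
    rw [top_inf_eq]
    cases b
    · exact le_sup_right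
    · exact le_sup_left
  · refine le_iSup_of_le ⟨true⟩ ?_
    rw [top_inf_eq]
    exact le_rfl
  · refine le_iSup_of_le ⟨false⟩ ?_
    rw [top_inf_eq]
    exact le_rfl

/-- the union of the elements of `x` -/
def unN (x : BSet B) : BSet B :=
  mk (Σ a : x.ty, (x.fn a).ty) (fun p => (x.fn p.1).fn p.2) fun p => x.vl p.1 ⊓ (x.fn p.1).vl p.2

theorem mem_unN (x z : BSet B) : mem z (unN x) = ⨆ w, (mem w x ⊓ mem z w) := by
  have hΦ : Ext fun w => mem z w := fun w w' => mem_congr_right w w' z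
  rw [iSup_mem hΦ x]
  have h1 : mem z (unN x) = ⨆ p : (Σ a : x.ty, (x.fn a).ty),
      (x.vl p.1 ⊓ (x.fn p.1).vl p.2) ⊓ eq z ((x.fn p.1).fn p.2) := rfl
  rw [h1, iSup_sigma]
  refine iSup_congr fun a => ?_
  have h2 : mem z (x.fn a) = ⨆ b : (x.fn a).ty, (x.fn a).vl b ⊓ eq z ((x.fn a).fn b) := rfl
  rw [h2, inf_iSup_eq]
  exact iSup_congr fun b => inf_assoc _ _ _

/-- the power set of `x` -/
def pwN (x : BSet B) : BSet B :=
  mk (x.ty → B) (fun f => mk x.ty x.fn fun a => f a ⊓ x.vl a) fun _ => ⊤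

theorem mem_pwN (x z : BSet B) : mem z (pwN x) = ⨅ w, (mem w z ⇨ mem w x) := by
  have h1 : mem z (pwN x) = ⨆ f : x.ty → B,
      ⊤ ⊓ eq z (mk x.ty x.fn fun a => f a ⊓ x.vl a) := rfl
  have h2 : ∀ (f : x.ty → B) (w : BSet B), mem w (mk x.ty x.fn fun a => f a ⊓ x.vl a) =
      ⨆ a : x.ty, (f a ⊓ x.vl a) ⊓ eq w (x.fn a) := fun f w => rfl
  have h3 : ∀ w, mem w x = ⨆ a : x.ty, x.vl a ⊓ eq w (x.fn a) := fun w => rfl
  rw [h1]
  refine le_antisymm (iSup_le fun f => le_iInf fun w => ?_) ?_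
  · rw [top_inf_eq, le_himp_iff]
    refine (mem_congr_right _ _ w).trans ?_
    rw [h2, h3]
    exact iSup_mono fun a => inf_le_inf_right _ inf_le_right
  · refine le_iSup_of_le (fun a => mem (x.fn a) z) ?_
    rw [top_inf_eq]
    refine le_eq_iff.2 fun w => ⟨?_, ?_⟩
    · have h4 : (⨅ w, (mem w z ⇨ mem w x)) ⊓ mem w z ≤ mem w x ⊓ mem w z :=
        le_inf (le_himp_iff.1 (iInf_le _ w)) inf_le_right
      refine h4.trans ?_
      rw [h2, h3, iSup_inf_eq]
      refine iSup_mono fun a => ?_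
      refine le_inf (le_inf ?_ (inf_le_left.trans inf_le_left)) (inf_le_left.trans inf_le_right)
      exact (inf_le_inf_right _ inf_le_right).trans (mem_congr_left w (x.fn a) z)
    · refine inf_le_right.trans ?_
      rw [h2]
      refine iSup_le fun a => ?_
      refine le_trans (le_inf ?_ (inf_le_left.trans inf_le_left)) (mem_congr_left (x.fn a) w z)
      rw [eq_symm (x.fn a) w]
      exact inf_le_right

variable (G : Ult B)

private theorem zs_inf {a b : B} : a ⊓ b ∈ G.s ↔ a ∈ G.s ∧ b ∈ G.s :=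
  ⟨fun h => ⟨G.up h inf_le_left, G.up h inf_le_right⟩, fun h => G.inf h.1 h.2⟩

private theorem zs_sup {a b : B} : a ⊔ b ∈ G.s ↔ a ∈ G.s ∨ b ∈ G.s := by
  constructor
  · intro h
    rcases G.dec a with ha | ha
    · exact Or.inl ha
    · refine Or.inr (G.up (G.inf h ha) ?_)
      rw [inf_sup_right, inf_compl_eq_bot, bot_sup_eq]
      exact inf_le_left
  · rintro (h | h)
    · exact G.up h le_sup_left
    · exact G.up h le_sup_right

/-- the assignment `x, y, y, ..` -/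
private def zsV (x y : BSet B) : ℕ → BSet B := cns x fun _ => y

/-- the infimum `⨅ w, (mem w x ⇨ mem w y)` -/
private theorem zs_sub (x y : BSet B) : (⨅ w, (mem w x ⇨ mem w y)) ∈ G.s ↔
    ∀ w : NG G, EG G w (NG.mk G x) → EG G w (NG.mk G y) := by
  have h1 := los G (Fml.all (Fml.imp (Fml.mem 0 1) (Fml.mem 0 2))) (zsV x y)
  exact h1.symm

private theorem zs_cap (x y : BSet B) : (⨆ w, (mem w x ⊓ mem y w)) ∈ G.s ↔
    ∃ w : NG G, EG G w (NG.mk G x) ∧ EG G (NG.mk G y) w := by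
  have h1 := los G (Fml.ex (Fml.an (Fml.mem 0 1) (Fml.mem 2 0))) (zsV x y)
  rw [bval_ex, sat_ex] at h1
  simp only [bval_an, sat_an] at h1
  exact h1.symm

theorem NG_ext (x y : NG G) (h : ∀ z, EG G z x ↔ EG G z y) : x = y := by
  obtain ⟨x, rfl⟩ := NG.exists_rep x
  obtain ⟨y, rfl⟩ := NG.exists_rep y
  rw [NG.mk_eq]
  have h1 := (zs_sub G x y).2 fun w => (h w).1
  have h2 := (zs_sub G y x).2 fun w => (h w).2
  refine G.up (G.inf h1 h2) (le_eq_iff.2 fun w => ⟨?_, ?_⟩)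
  · exact (inf_le_inf_right _ inf_le_left).trans (le_himp_iff.1 (iInf_le _ w))
  · exact (inf_le_inf_right _ inf_le_right).trans (le_himp_iff.1 (iInf_le _ w))

theorem NG_pair (x y : NG G) : ∃ z, ∀ w, EG G w z ↔ w = x ∨ w = y := by
  obtain ⟨x, rfl⟩ := NG.exists_rep x
  obtain ⟨y, rfl⟩ := NG.exists_rep y
  refine ⟨NG.mk G (upN x y), fun w => ?_⟩
  obtain ⟨w, rfl⟩ := NG.exists_rep w
  rw [EG_mk, mem_upN, zs_sup, NG.mk_eq, NG.mk_eq]

theorem NG_union (x : NG G) : ∃ y, ∀ z, EG G z y ↔ ∃ w, EG G w x ∧ EG G z w := by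
  obtain ⟨x, rfl⟩ := NG.exists_rep x
  refine ⟨NG.mk G (unN x), fun z => ?_⟩
  obtain ⟨z, rfl⟩ := NG.exists_rep z
  rw [EG_mk, mem_unN, zs_cap]

theorem NG_power (x : NG G) : ∃ y, ∀ z, EG G z y ↔ ∀ w, EG G w z → EG G w x := by
  obtain ⟨x, rfl⟩ := NG.exists_rep x
  refine ⟨NG.mk G (pwN x), fun z => ?_⟩
  obtain ⟨z, rfl⟩ := NG.exists_rep z
  rw [EG_mk, mem_pwN, zs_sub]

theorem NG_sep (φ : Fml) (v : ℕ → NG G) (x : NG G) :
    ∃ y, ∀ z, EG G z y ↔ EG G z x ∧ sat (EG G) φ (cns z v) := by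
  obtain ⟨x, rfl⟩ := NG.exists_rep x
  choose u hu using fun i => NG.exists_rep (v i)
  refine ⟨NG.mk G (sepN x fun z => bval φ (cns z u)), fun z => ?_⟩
  obtain ⟨z, rfl⟩ := NG.exists_rep z
  have h1 : (cns (NG.mk G z) v) = fun i => NG.mk G (cns z u i) := by
    funext i
    cases i with
    | zero => rfl
    | succ i => exact (hu i).symm
  rw [EG_mk, EG_mk, mem_sepN (bval_ext φ u), zs_inf, h1, los]

end STP
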