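import Pool.Agent.STP.Defs

/-! # Closure of products and of clique posets (package S02)

(problem MP_e44aae_lc, project STP)

* `DC.mono`, `DC.iso`: immediate.
* `DC.prod`, `DC.pi`: a directed set `D` of a product has directed images under the coordinate projections
  (of cardinality at most `#D`); choose a lower bound in each coordinate.
* `Clq.dc`: for a directed `D` with `#D < δ` the union of the sets `d.s`, `d ∈ D`, has fewer than `δ` elements
  because `δ` is regular (`Cardinal.card_biUnion_lt_iff_forall_of_isRegular` or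
  `Cardinal.card_iUnion_lt_iff_forall_of_isRegular`), and it is a clique: if `x ∈ d.s` and `y ∈ d'.s` then some
  `d'' ∈ D` contains both sets. (`D` empty: the empty clique, `0 < δ`.)
* `Clq.exists_union`: two conditions whose union is a clique have a common extension.
* `prodMono`, ...: trivial facts about the order of products used later. -/

universe u

namespace STP

open Cardinal

theorem DC.mono {δ δ' : Cardinal.{u}} (h : δ ≤ δ') {P : Type u} [Preorder P] (hP : DC δ' P) :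
    DC δ P := fun D hD hc => hP D hD (hc.trans_le h)

theorem DC.iso {δ : Cardinal.{u}} {P Q : Type u} [Preorder P] [Preorder Q] (e : P ≃o Q)
    (hP : DC δ P) : DC δ Q := by
  intro D hD hc
  obtain ⟨p, hp⟩ := hP (e.symm '' D) (by
    rintro _ ⟨x, hx, rfl⟩ _ ⟨y, hy, rfl⟩
    obtain ⟨z, hz, h1, h2⟩ := hD x hx y hy
    exact ⟨e.symm z, ⟨z, hz, rfl⟩, e.symm.monotone h1, e.symm.monotone h2⟩)
    (mk_image_le.trans_lt hc)
  refine ⟨e p, fun d hd => ?_⟩
  have h1 := e.monotone (hp _ ⟨d, hd, rfl⟩)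
  rwa [e.apply_symm_apply] at h1

theorem DC.prod {δ : Cardinal.{u}} {P Q : Type u} [Preorder P] [Preorder Q] (hP : DC δ P)
    (hQ : DC δ Q) : DC δ (P × Q) := by
  intro D hD hc
  obtain ⟨p, hp⟩ := hP (Prod.fst '' D) (by
    rintro _ ⟨x, hx, rfl⟩ _ ⟨y, hy, rfl⟩
    obtain ⟨z, hz, h1, h2⟩ := hD x hx y hy
    exact ⟨z.1, ⟨z, hz, rfl⟩, h1.1, h2.1⟩) (mk_image_le.trans_lt hc)
  obtain ⟨q, hq⟩ := hQ (Prod.snd '' D) (by
    rintro _ ⟨x, hx, rfl⟩ _ ⟨y, hy, rfl⟩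
    obtain ⟨z, hz, h1, h2⟩ := hD x hx y hy
    exact ⟨z.2, ⟨z, hz, rfl⟩, h1.2, h2.2⟩) (mk_image_le.trans_lt hc)
  exact ⟨(p, q), fun d hd => ⟨hp _ ⟨d, hd, rfl⟩, hq _ ⟨d, hd, rfl⟩⟩⟩

theorem DC.pi {δ : Cardinal.{u}} {ι : Type u} {P : ι → Type u} [∀ i, Preorder (P i)]
    (h : ∀ i, DC δ (P i)) : DC δ (∀ i, P i) := by
  intro D hD hc
  have h1 : ∀ i, ∃ p, ∀ d ∈ (fun f : ∀ i, P i => f i) '' D, p ≤ d := by
    intro i
    refine h i _ ?_ (mk_image_le.trans_lt hc)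
    rintro _ ⟨x, hx, rfl⟩ _ ⟨y, hy, rfl⟩
    obtain ⟨z, hz, h1, h2⟩ := hD x hx y hy
    exact ⟨z i, ⟨z, hz, rfl⟩, h1 i, h2 i⟩
  choose p hp using h1
  exact ⟨p, fun d hd i => hp i _ ⟨d, hd, rfl⟩⟩

theorem Clq.dc {X : Type u} {r : X → X → Prop} {δ : Cardinal.{u}} (hδ : δ.IsRegular) :
    DC δ (Clq X r δ) := by
  intro D hD hc
  refine ⟨⟨⋃ d ∈ D, d.s, ?_, ?_⟩, fun d hd => ?_⟩
  · exact (card_biUnion_lt_iff_forall_of_isRegular hδ hc).2 fun d _ => d.card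
  · intro x hx y hy
    simp only [Set.mem_iUnion] at hx hy
    obtain ⟨d, hd, hxd⟩ := hx
    obtain ⟨d', hd', hyd⟩ := hy
    obtain ⟨z, -, h1, h2⟩ := hD d hd d' hd'
    exact z.cl x (h1 hxd) y (h2 hyd)
  · change d.s ⊆ ⋃ d ∈ D, d.s
    exact Set.subset_biUnion_of_mem (u := fun d : Clq X r δ => d.s) hd

theorem Clq.exists_union {X : Type u} {r : X → X → Prop} {δ : Cardinal.{u}} (hδ : ℵ₀ ≤ δ)
    (p q : Clq X r δ) (h : ∀ x ∈ p.s ∪ q.s, ∀ y ∈ p.s ∪ q.s, r x y) :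
    ∃ t : Clq X r δ, t.s = p.s ∪ q.s ∧ t ≤ p ∧ t ≤ q :=
  ⟨⟨p.s ∪ q.s, (mk_union_le _ _).trans_lt (add_lt_of_lt hδ p.card q.card), h⟩, rfl,
    Set.subset_union_left, Set.subset_union_right⟩

end STP
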