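import Pool.Agent.STP.ATLa
import Pool.Agent.STP.Cls

/-! # Adding partial threads by a quotient forcing (package S20)

(problem MP_e44aae_lc, project STP)

Text, section 7, ATL. Suppose there is no partial thread (`hno`, by contradiction, for all `r`). Let `E` be a type with `#E = succ χ` (`(succ χ).out`) and
`EE := {x : Q × (E → Gm) // ∀ f, p (x.2 f) = x.1}` with the product order.
(1) `EE` is `DC (succ (succ χ))`: for a directed set `D` of at most `succ χ` elements take a lower bound `q` of the first coordinates (`hQ`; the image is directed), and for each `f` apply `hCL` to the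
directed set of the `x.2 f`, `x ∈ D`, and `q` (`q ≤ x.1 = p (x.2 f)`).
(2) `REC` for `EE`, below the constant family at some `g0` with `p g0 = q0` (`hg0`), index set `{(f, f') // f ≠ f'} × {l // l ≤ l0} × RR × ZZ` (at most `succ χ` elements), and the open dense sets
`D ((f,f'), l, r, z) x := ∃ l' ≤ l, ∃ a, Sep p (fun g l a ξ => Dec g l r z a ξ) (x.2 f) (x.2 f') l' a` (open: `Sep.mono`; dense: `claimA`, then move all other coordinates to the new projection by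
`hCL` with one element sets, `Function.update`). Result: `x1 : EE`, and by choice `l'`, `a` for each index.
(3) `a0` := an upper bound of these at most `succ χ` many `a` (`Dir (succ χ) Λ`). `hD1`: `q1 ≤ x1.1`, `l1 ≤ l0`, `a1 ≥ a0` with `In q1 l1 a1`. Move `x1` to the projection `q1` (`hCL`): `x2`.
(4) `REC` below `x2`, index set `E`, `D' f x := p (x.2 f) ≤ q1 → ∃ l' ≤ l1, ∃ r z ξ, Dec (x.2 f) l' r z a1 ξ`; dense by `hD2` (`In (p (x.2 f)) l1 a1` by `hIn`). Result `x3`; choose `l f, r f, z f, ξ f`.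
(5) Pigeonhole: `#E = succ χ > χ ≥ #(L × RR × ZZ × N0)` (`ξ f ∈ N0` by `hN`), so there are `f ≠ f'` with the same `(l, r, z, ξ)` (`Cardinal.infinite_pigeonhole` or non-injectivity). By (2) there are `l' ≤ l` (the common one) and
`a ≤ a0 ≤ a1` with `Sep .. (x1.2 f) (x1.2 f') l' a`. But `Dec (x3.2 f) l' r z a1 ξ`, `Dec (x3.2 f') l' r z a1 ξ`, `p (x3.2 f) = x3.1 = p (x3.2 f')`, `x3.2 f ≤ x1.2 f`, ...: contradiction. -/

universe u

namespace STP

open Cardinal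

/-- The conditions of the quotient forcing with `E` copies of the generic. -/
private abbrev EEt {Q Gm : Type u} (p : Gm → Q) (E : Type u) : Type u :=
  {x : Q × (E → Gm) // ∀ f, p (x.2 f) = x.1}

private theorem EEt.dc {Q Gm : Type u} [Preorder Q] [Preorder Gm] {δ : Cardinal.{u}}
    (hQ : DC δ Q) (p : Gm → Q)
    (hCL : ∀ D : Set Gm, DirectedOn (· ≥ ·) D → #D < δ →
      ∀ q, (∀ d ∈ D, q ≤ p d) → ∃ g, (∀ d ∈ D, g ≤ d) ∧ p g = q) (E : Type u) :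
    DC δ (EEt p E) := by
  intro D hD hc
  obtain ⟨q, hq⟩ := hQ ((fun x : EEt p E => x.1.1) '' D) (by
    rintro _ ⟨x, hx, rfl⟩ _ ⟨y, hy, rfl⟩
    obtain ⟨z, hz, h1, h2⟩ := hD x hx y hy
    exact ⟨z.1.1, ⟨z, hz, rfl⟩, h1.1, h2.1⟩) (mk_image_le.trans_lt hc)
  have h1 : ∀ f : E, ∃ g, (∀ d ∈ (fun x : EEt p E => x.1.2 f) '' D, g ≤ d) ∧ p g = q := by
    intro f
    refine hCL _ ?_ (mk_image_le.trans_lt hc) q ?_
    · rintro _ ⟨x, hx, rfl⟩ _ ⟨y, hy, rfl⟩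
      obtain ⟨z, hz, h1, h2⟩ := hD x hx y hy
      exact ⟨z.1.2 f, ⟨z, hz, rfl⟩, h1.2 f, h2.2 f⟩
    · rintro _ ⟨x, hx, rfl⟩
      have h2 := hq _ ⟨x, hx, rfl⟩
      change q ≤ p (x.1.2 f)
      rw [x.2 f]
      exact h2
  choose g hg hgq using h1
  exact ⟨⟨(q, g), hgq⟩, fun d hd => ⟨hq _ ⟨d, hd, rfl⟩, fun f => hg f _ ⟨d, hd, rfl⟩⟩⟩

private theorem EEt.move {Q Gm : Type u} [Preorder Q] [Preorder Gm] {p : Gm → Q} {E : Type u}
    (x : EEt p E) (q : Q) (hq : q ≤ x.1.1) (P : E → Gm → Prop)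
    (hP : ∀ f, ∃ g, g ≤ x.1.2 f ∧ p g = q ∧ P f g) :
    ∃ y : EEt p E, y ≤ x ∧ y.1.1 = q ∧ ∀ f, P f (y.1.2 f) := by
  choose g hg hgq hgP using hP
  exact ⟨⟨(q, g), hgq⟩, ⟨hq, fun f => hg f⟩, rfl, hgP⟩

theorem ATL {L Q Gm Λ N RR ZZ : Type u} [Preorder L] [Preorder Q] [Preorder Gm] [Preorder Λ]
    {χ : Cardinal.{u}} (hχ : ℵ₀ ≤ χ) (hL : #L ≤ χ) (hRR : #RR ≤ χ) (hZZ : #ZZ ≤ χ)
    (N0 : Set N) (hN0 : #N0 ≤ χ)
    (hQ : DC (Order.succ (Order.succ χ)) Q) (p : Gm → Q) (hp : Monotone p)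
    (hCL : ∀ D : Set Gm, DirectedOn (· ≥ ·) D → #D < Order.succ (Order.succ χ) →
      ∀ q, (∀ d ∈ D, q ≤ p d) → ∃ g, (∀ d ∈ D, g ≤ d) ∧ p g = q)
    (Dec : Gm → L → RR → ZZ → Λ → N → Prop)
    (hDec : ∀ g g' l l' r z a ξ, g' ≤ g → l' ≤ l → Dec g l r z a ξ → Dec g' l' r z a ξ)
    (hN : ∀ g l r z a ξ, Dec g l r z a ξ → ξ ∈ N0)
    (In : Q → L → Λ → Prop) (hIn : ∀ q q' l l' a, q' ≤ q → l' ≤ l → In q l a → In q' l' a)
    (R : RR → Rel (Q × L) Λ N) (hΛ : Dir (Order.succ χ) Λ) {q0 : Q} {l0 : L}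
    (hg0 : ∃ g, p g = q0)
    (hcoh : ∀ g l r z a b ξ ζ, p g ≤ q0 → l ≤ l0 → a ≤ b → Dec g l r z a ξ →
      Dec g l r z b ζ → (R r).rel (p g, l) a b ξ ζ)
    (hD1 : ∀ q ≤ q0, ∀ l ≤ l0, ∀ a, ∃ q' ≤ q, ∃ l' ≤ l, ∃ a', a ≤ a' ∧ In q' l' a')
    (hD2 : ∀ g l a, p g ≤ q0 → l ≤ l0 → In (p g) l a →
      ∃ g' ≤ g, ∃ l' ≤ l, ∃ r z ξ, Dec g' l' r z a ξ) :
    ∃ r, ∃ x ≤ (q0, l0), ∃ th, IsPThr (R r).rel x th := by
  classical
  by_contra hcon
  have hno : ∀ r, ∀ x ≤ (q0, l0), ∀ th, ¬ IsPThr (R r).rel x th := fun r x hx th h =>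
    hcon ⟨r, x, hx, th, h⟩
  -- cardinals
  have hsχ : ℵ₀ ≤ Order.succ χ := hχ.trans (Order.le_succ χ)
  have hlt : Order.succ χ < Order.succ (Order.succ χ) := Order.lt_succ _
  have hCL1 : ∀ g, ∀ q ≤ p g, ∃ g' ≤ g, p g' = q := by
    intro g q hq
    obtain ⟨g', h1, h2⟩ := hCL {g} (by
      intro a ha b hb
      rw [Set.mem_singleton_iff] at ha hb
      exact ⟨g, rfl, ha.ge, hb.ge⟩) (by
      rw [mk_singleton]
      exact (one_lt_aleph0.trans_le hsχ).trans hlt) q (by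
      rintro d rfl
      exact hq)
    exact ⟨g', h1 g rfl, h2⟩
  have hΛ2 : ∀ a b : Λ, ∃ c, a ≤ c ∧ b ≤ c := by
    intro a b
    obtain ⟨c, hc⟩ := hΛ {a, b} ((Set.toFinite ({a, b} : Set Λ)).lt_aleph0.le.trans hsχ)
    exact ⟨c, hc a (Set.mem_insert _ _), hc b (Set.mem_insert_of_mem _ rfl)⟩
  let E : Type u := (Order.succ χ).out
  have hE : #E = Order.succ χ := mk_out _
  have hEE : DC (Order.succ (Order.succ χ)) (EEt p E) := EEt.dc hQ p hCL E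
  obtain ⟨g0, hg0⟩ := hg0
  let x0 : EEt p E := ⟨(q0, fun _ => g0), fun _ => hg0⟩
  -- (2)
  let J2 : Type u := {z : E × E // z.1 ≠ z.2} × {l : L // l ≤ l0} × RR × ZZ
  have hJ2 : #J2 ≤ Order.succ χ := by
    have h1 : #{z : E × E // z.1 ≠ z.2} ≤ Order.succ χ := by
      refine (mk_subtype_le _).trans ?_
      rw [mk_prod, lift_id, hE, mul_eq_self hsχ]
    have h2 : #{l : L // l ≤ l0} ≤ Order.succ χ :=
      (mk_subtype_le _).trans (hL.trans (Order.le_succ χ))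
    have h3 : #RR ≤ Order.succ χ := hRR.trans (Order.le_succ χ)
    have h4 : #ZZ ≤ Order.succ χ := hZZ.trans (Order.le_succ χ)
    have h5 : #(RR × ZZ) ≤ Order.succ χ := by
      rw [mk_prod, lift_id, lift_id]
      exact (mul_le_mul' h3 h4).trans (mul_eq_self hsχ).le
    have h6 : #({l : L // l ≤ l0} × RR × ZZ) ≤ Order.succ χ := by
      rw [mk_prod, lift_id, lift_id]
      exact (mul_le_mul' h2 h5).trans (mul_eq_self hsχ).le
    change #({z : E × E // z.1 ≠ z.2} × {l : L // l ≤ l0} × RR × ZZ) ≤ _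
    rw [mk_prod, lift_id, lift_id]
    exact (mul_le_mul' h1 h6).trans (mul_eq_self hsχ).le
  obtain ⟨x1, hx1, hD2'⟩ := REC hEE (hJ2.trans_lt hlt)
    (fun (s : J2) (x : EEt p E) => ∃ l' ≤ s.2.1.1, ∃ a,
      Sep p (fun g l a ξ => Dec g l s.2.2.1 s.2.2.2 a ξ) (x.1.2 s.1.1.1) (x.1.2 s.1.1.2) l' a)
    x0 (by
    rintro s x y hyx ⟨l', hl', a, h⟩
    exact ⟨l', hl', a, h.mono (hyx.2 _) (hyx.2 _) le_rfl le_rfl⟩) (by
    rintro ⟨⟨⟨f, f'⟩, hff⟩, ⟨l, hl⟩, r, z⟩ x hx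
    obtain ⟨g1', h1, g2', h2, h12, l', hl', a, hS⟩ := claimA p hp hCL1
      (fun g l a ξ => Dec g l r z a ξ) (fun g g' l l' a ξ h h' h'' =>
        hDec g g' l l' r z a ξ h h' h'') (R r) hΛ2 (q0 := q0) (l0 := l0)
      (fun g l a b ξ ζ h h' h'' => hcoh g l r z a b ξ ζ h h' h'') (hno r)
      (x.1.2 f) (x.1.2 f') ((x.2 f).trans (x.2 f').symm) (by
        rw [x.2 f]
        exact hx.1) l hl
    have hq1 : p g1' ≤ x.1.1 := by
      have h3 := hp h1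
      rwa [x.2 f] at h3
    obtain ⟨y, hy, -, hyP⟩ := EEt.move x (p g1') hq1
      (fun e g => (e = f → g = g1') ∧ (e = f' → g = g2')) (by
      intro e
      by_cases he : e = f
      · subst he
        exact ⟨g1', h1, rfl, fun _ => rfl, fun h => (hff h).elim⟩
      by_cases he' : e = f'
      · subst he'
        exact ⟨g2', h2, h12.symm, fun h => (he h).elim, fun _ => rfl⟩
      obtain ⟨g', hg', hg''⟩ := hCL1 (x.1.2 e) (p g1') (by
        rw [x.2 e]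
        exact hq1)
      exact ⟨g', hg', hg'', fun h => (he h).elim, fun h => (he' h).elim⟩)
    refine ⟨y, hy, l', hl', a, ?_⟩
    change Sep p (fun g l a ξ => Dec g l r z a ξ) (y.1.2 f) (y.1.2 f') l' a
    rw [(hyP f).1 rfl, (hyP f').2 rfl]
    exact hS)
  choose ls hls av hSep using hD2'
  -- (3)
  obtain ⟨a0, ha0⟩ := hΛ (Set.range av) (mk_range_le.trans hJ2)
  obtain ⟨q1, hq1, l1, hl1, a1, ha1, hIn1⟩ := hD1 x1.1.1 hx1.1 l0 le_rfl a0
  obtain ⟨x2, hx2, hx2q, -⟩ := EEt.move x1 q1 hq1 (fun _ _ => True) (by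
    intro e
    obtain ⟨g', hg', hg''⟩ := hCL1 (x1.1.2 e) q1 (by
      rw [x1.2 e]
      exact hq1)
    exact ⟨g', hg', hg'', trivial⟩)
  -- (4)
  obtain ⟨x3, hx3, hD4⟩ := REC hEE (hE.trans_lt hlt)
    (fun (f : E) (x : EEt p E) => ∃ l' ≤ l1, ∃ r z ξ, Dec (x.1.2 f) l' r z a1 ξ) x2 (by
    rintro f x y hyx ⟨l', hl', r, z, ξ, h⟩
    exact ⟨l', hl', r, z, ξ, hDec _ _ _ _ r z a1 ξ (hyx.2 f) le_rfl h⟩) (by
    intro f x hx
    have hx' : p (x.1.2 f) ≤ q1 := by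
      rw [x.2 f, ← hx2q]
      exact hx.1
    have hx'' : p (x.1.2 f) ≤ q0 := by
      rw [x.2 f]
      exact hx.1.trans (hx2.1.trans hx1.1)
    obtain ⟨g', hg', l', hl', r, z, ξ, h⟩ := hD2 (x.1.2 f) l1 a1 hx'' hl1
      (hIn q1 _ l1 l1 a1 hx' le_rfl hIn1)
    have hqg : p g' ≤ x.1.1 := by
      have h3 := hp hg'
      rwa [x.2 f] at h3
    obtain ⟨y, hy, -, hyP⟩ := EEt.move x (p g') hqg (fun e g => e = f → g = g') (by
      intro e
      by_cases he : e = f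
      · subst he
        exact ⟨g', hg', rfl, fun _ => rfl⟩
      obtain ⟨g'', h1, h2⟩ := hCL1 (x.1.2 e) (p g') (by
        rw [x.2 e]
        exact hqg)
      exact ⟨g'', h1, h2, fun h => (he h).elim⟩)
    refine ⟨y, hy, l', hl', r, z, ξ, ?_⟩
    rw [hyP f rfl]
    exact h)
  choose lf hlf rf zf ξf hDf using hD4
  -- (5)
  let F : E → L × RR × ZZ × N0 := fun f =>
    (lf f, rf f, zf f, ⟨ξf f, hN _ _ _ _ _ _ (hDf f)⟩)
  have hcard : #(L × RR × ZZ × N0) ≤ χ := by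
    have h1 : #(ZZ × N0) ≤ χ := by
      rw [mk_prod, lift_id, lift_id]
      exact (mul_le_mul' hZZ hN0).trans (mul_eq_self hχ).le
    have h2 : #(RR × ZZ × N0) ≤ χ := by
      rw [mk_prod, lift_id, lift_id]
      exact (mul_le_mul' hRR h1).trans (mul_eq_self hχ).le
    rw [mk_prod, lift_id, lift_id]
    exact (mul_le_mul' hL h2).trans (mul_eq_self hχ).le
  have hninj : ¬ Function.Injective F := by
    intro h
    have h1 := (mk_le_of_injective h).trans hcard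
    rw [hE] at h1
    exact absurd h1 (not_le.2 (Order.lt_succ χ))
  obtain ⟨f, f', hFf, hff⟩ : ∃ f f', F f = F f' ∧ f ≠ f' := by
    unfold Function.Injective at hninj
    push Not at hninj
    exact hninj
  have e1 : lf f = lf f' := congrArg Prod.fst hFf
  have e2 : rf f = rf f' := congrArg (fun x => x.2.1) hFf
  have e3 : zf f = zf f' := congrArg (fun x => x.2.2.1) hFf
  have e4 : ξf f = ξf f' := congrArg (fun x => (x.2.2.2 : N)) hFf
  let s : J2 := (⟨(f, f'), hff⟩, ⟨lf f, (hlf f).trans hl1⟩, rf f, zf f)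
  have hs := hSep s
  have has : av s ≤ a1 := (ha0 _ ⟨s, rfl⟩).trans ha1
  refine hs (ls s) le_rfl (x3.1.2 f) ((hx3.trans hx2).2 f) (x3.1.2 f') ((hx3.trans hx2).2 f')
    ((x3.2 f).trans (x3.2 f').symm) a1 has (ξf f) ⟨?_, ?_⟩
  · exact hDec _ _ _ _ _ _ _ _ le_rfl (hls s) (hDf f)
  · have h1 := hDf f'
    rw [← e1, ← e2, ← e3, ← e4] at h1
    exact hDec _ _ _ _ _ _ _ _ le_rfl (hls s) h1

end STP
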