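import Pool.Agent.STP.Defs

/-! # Systems and threads: first facts (package S03)

(problem MP_e44aae_lc, project STP)

* `Sys.can`: if `a ≤ b ≤ c`, `rel p a c ξ η`, `rel p b c ζ η`, then `rel p a b ξ ζ`. By `loc`: below any `q ≤ p` take
  (by `tot`) `r ≤ q` and `ξ'` with `rel r a b ξ' ζ`; `comp` gives `rel r a c ξ' η`, `fn` gives `ξ' = ξ`.
* `IsThr.single`: a thread is single valued: `coh` with `a = b` gives `rel p a a ξ ξ'` and `rel p a a ξ' ξ'`; `fn`.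
* `pthr_thr`: from a partial thread `th` define `th' p a ξ := ∃ b, a ≤ b ∧ ∃ ζ, th p b ζ ∧ S.rel p a b ξ ζ`. `tot`: `cof`
  gives `q ≤ p`, `b ≥ a`, `ζ` with `th q b ζ`, then `S.tot` gives `r ≤ q` and `ξ`. `coh`: given `p ≤ p0`, `a ≤ a'`, `th' p a ξ`
  by `(b, ζ)`, `th' p a' ξ'` by `(b', ζ')`. By `loc` it is enough to find for `q ≤ p` some `r ≤ q` with `rel r a a' ξ ξ'`.
  Take `c ≥ b, b'` (directedness), `r ≤ q`, `c' ≥ c`, `η` with `th r c' η` (`cof`). `coh` of `th`: `rel r b c' ζ η`,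
  `rel r b' c' ζ' η`. `comp`: `rel r a c' ξ η`, `rel r a' c' ξ' η`. `can`: `rel r a a' ξ ξ'`.
* `Sys.comap`: pull back a system along a projection `f : P' → P` of forcing notions.
  `loc`: if `∀ q' ≤ p', ∃ r' ≤ q', rel (f r') ..`, then for `q ≤ f p'` take `q' ≤ p'` with `f q' ≤ q` and `r' ≤ q'`.
* `Sys.index`: pull back along a monotone map of index sets.
* `thr_index`: a thread of `S.index g` below `p0` gives a thread of `S` below `p0`, if `g : Λ' → Λ` is surjective and `Λ'` is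
  directed: `th' p a ξ := ∃ a', g a' = a ∧ th p a' ξ`. `coh`: `th p a' ξ`, `th p b' ζ`, `g a' ≤ g b'`; take `c' ≥ a', b'` and (by
  `loc`) `r` below a given `q ≤ p` and `η` with `th r c' η`: `rel r (g a') (g c') ξ η`, `rel r (g b') (g c') ζ η`; `can`.
* `Threads.iso`: transport along an order isomorphism `e : P ≃o P'`; use `Sys.comap e`. -/

universe u

namespace STP

open Cardinal

variable {P : Type u} [Preorder P] {Λ : Type u} [Preorder Λ] {N : Type u}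

theorem Sys.can (S : Sys P Λ N) {p : P} {a b c : Λ} {ξ ζ η : N} (hab : a ≤ b) (hbc : b ≤ c)
    (h : S.rel p a c ξ η) (h' : S.rel p b c ζ η) : S.rel p a b ξ ζ := by
  refine S.loc fun q hq => ?_
  obtain ⟨r, hr, ξ', h1⟩ := S.tot hab q ζ
  have h2 := S.comp hab hbc h1 (S.mono (hr.trans hq) h')
  have h3 := S.fn h2 (S.mono (hr.trans hq) h)
  exact ⟨r, hr, h3 ▸ h1⟩

theorem IsThr.single {S : Sys P Λ N} {p0 : P} {th : P → Λ → N → Prop} (h : IsThr S.rel p0 th)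
    {p : P} (hp : p ≤ p0) {a : Λ} {ξ ξ' : N} (h1 : th p a ξ) (h2 : th p a ξ') : ξ = ξ' :=
  S.fn (h.coh hp le_rfl h1 h2) (h.coh hp le_rfl h2 h2)

theorem pthr_thr (hΛ : ∀ a b : Λ, ∃ c, a ≤ c ∧ b ≤ c) (S : Sys P Λ N) {p0 : P}
    {th : P → Λ → N → Prop} (h : IsPThr S.rel p0 th) : ∃ th', IsThr S.rel p0 th' := by
  refine ⟨fun p a ξ => ∃ b, a ≤ b ∧ ∃ ζ, th p b ζ ∧ S.rel p a b ξ ζ, ?_, ?_, ?_⟩
  · rintro p q a ξ hq ⟨b, hb, ζ, h1, h2⟩
    exact ⟨b, hb, ζ, h.mono hq h1, S.mono hq h2⟩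
  · intro a p hp
    obtain ⟨q, hq, b, hb, ζ, h1⟩ := h.cof a p hp
    obtain ⟨r, hr, ξ, h2⟩ := S.tot hb q ζ
    exact ⟨r, hr.trans hq, ξ, b, hb, ζ, h.mono hr h1, h2⟩
  · rintro p a a' ξ ξ' hp ha ⟨b, hb, ζ, h1, h2⟩ ⟨b', hb', ζ', h1', h2'⟩
    refine S.loc fun q hq => ?_
    obtain ⟨c, hc, hc'⟩ := hΛ b b'
    obtain ⟨r, hr, c', hcc, η, h3⟩ := h.cof c q (hq.trans hp)
    have hrp : r ≤ p := hr.trans hq
    have h4 := h.coh (hrp.trans hp) (hc.trans hcc) (h.mono hrp h1) h3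
    have h5 := h.coh (hrp.trans hp) (hc'.trans hcc) (h.mono hrp h1') h3
    have h6 := S.comp hb (hc.trans hcc) (S.mono hrp h2) h4
    have h7 := S.comp hb' (hc'.trans hcc) (S.mono hrp h2') h5
    exact ⟨r, hr, S.can ha (hb'.trans (hc'.trans hcc)) h6 h7⟩

theorem IsThr.below {R : P → Λ → Λ → N → N → Prop} {p0 p1 : P} (hp : p1 ≤ p0)
    {th : P → Λ → N → Prop} (h : IsThr R p0 th) : IsThr R p1 th :=
  ⟨h.mono, fun a p hp' => h.tot a p (hp'.trans hp), fun hp' => h.coh (hp'.trans hp)⟩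

theorem IsPThr.below {R : P → Λ → Λ → N → N → Prop} {p0 p1 : P} (hp : p1 ≤ p0)
    {th : P → Λ → N → Prop} (h : IsPThr R p0 th) : IsPThr R p1 th :=
  ⟨h.mono, fun a p hp' => h.cof a p (hp'.trans hp), fun hp' => h.coh (hp'.trans hp)⟩

/-- pull back a system along a projection -/
def Sys.comap {P' : Type u} [Preorder P'] (S : Sys P Λ N) (f : P' → P)
    (hf : ∀ p q, q ≤ p → f q ≤ f p) (hp : ∀ p', ∀ q ≤ f p', ∃ q' ≤ p', f q' ≤ q) :
    Sys P' Λ N where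
  rel p a b ξ ζ := S.rel (f p) a b ξ ζ
  mono := fun hq h => S.mono (hf _ _ hq) h
  loc := by
    intro p a b ξ ζ h
    refine S.loc fun q hq => ?_
    obtain ⟨q', hq', h1⟩ := hp p q hq
    obtain ⟨r, hr, h2⟩ := h q' hq'
    exact ⟨f r, (hf _ _ hr).trans h1, h2⟩
  tot := by
    intro a b hab p ζ
    obtain ⟨q, hq, ξ, h1⟩ := S.tot hab (f p) ζ
    obtain ⟨q', hq', h2⟩ := hp p q hq
    exact ⟨q', hq', ξ, S.mono h2 h1⟩
  fn := fun h h' => S.fn h h'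
  comp := fun hab hbc h h' => S.comp hab hbc h h'

theorem Sys.comap_rel {P' : Type u} [Preorder P'] (S : Sys P Λ N) (f : P' → P)
    (hf : ∀ p q, q ≤ p → f q ≤ f p) (hp : ∀ p', ∀ q ≤ f p', ∃ q' ≤ p', f q' ≤ q) (p : P')
    (a b : Λ) (ξ ζ : N) : (S.comap f hf hp).rel p a b ξ ζ ↔ S.rel (f p) a b ξ ζ := Iff.rfl

/-- pull back a system along a monotone map of index sets -/
def Sys.index {Λ' : Type u} [Preorder Λ'] (S : Sys P Λ N) (g : Λ' → Λ)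
    (hg : ∀ a b, a ≤ b → g a ≤ g b) : Sys P Λ' N where
  rel p a b ξ ζ := S.rel p (g a) (g b) ξ ζ
  mono := fun hq h => S.mono hq h
  loc := fun h => S.loc h
  tot := fun hab p ζ => S.tot (hg _ _ hab) p ζ
  fn := fun h h' => S.fn h h'
  comp := fun hab hbc h h' => S.comp (hg _ _ hab) (hg _ _ hbc) h h'

theorem thr_index {Λ' : Type u} [Preorder Λ'] (S : Sys P Λ N) (g : Λ' → Λ)
    (hs : Function.Surjective g) (hΛ : ∀ a b : Λ', ∃ c, a ≤ c ∧ b ≤ c)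
    (hg : ∀ a b, a ≤ b → g a ≤ g b) {p0 : P} {th : P → Λ' → N → Prop}
    (h : IsThr (fun p a b ξ ζ => S.rel p (g a) (g b) ξ ζ) p0 th) :
    ∃ th', IsThr S.rel p0 th' := by
  refine ⟨fun p a ξ => ∃ a', g a' = a ∧ th p a' ξ, ?_, ?_, ?_⟩
  · rintro p q a ξ hq ⟨a', ha, h1⟩
    exact ⟨a', ha, h.mono hq h1⟩
  · intro a p hp
    obtain ⟨a', ha⟩ := hs a
    obtain ⟨q, hq, ξ, h1⟩ := h.tot a' p hp
    exact ⟨q, hq, ξ, a', ha, h1⟩
  · rintro p a b ξ ζ hp hab ⟨a', rfl, h1⟩ ⟨b', rfl, h2⟩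
    refine S.loc fun q hq => ?_
    obtain ⟨c, hac, hbc⟩ := hΛ a' b'
    obtain ⟨r, hr, η, h3⟩ := h.tot c q (hq.trans hp)
    have hrp : r ≤ p := hr.trans hq
    have h4 := h.coh (hrp.trans hp) hac (h.mono hrp h1) h3
    have h5 := h.coh (hrp.trans hp) hbc (h.mono hrp h2) h3
    exact ⟨r, hr, S.can hab (hg _ _ hbc) h4 h5⟩

/-- the relation of a system over `T × Q` at a fixed condition `t ∈ T`, as a relation over `Q` -/
def Sys.fix {T Q : Type u} [Preorder T] [Preorder Q] (S : Sys (T × Q) Λ N) (t : T) :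
    Rel Q Λ N where
  rel q a b ξ ζ := S.rel (t, q) a b ξ ζ
  mono := fun hq h => S.mono (Prod.mk_le_mk.2 ⟨le_rfl, hq⟩) h
  loc := by
    intro q a b ξ ζ h
    refine S.loc ?_
    rintro ⟨t', q'⟩ hq
    obtain ⟨r, hr, h1⟩ := h q' hq.2
    exact ⟨(t', r), Prod.mk_le_mk.2 ⟨le_rfl, hr⟩, S.mono (Prod.mk_le_mk.2 ⟨hq.1, le_rfl⟩) h1⟩
  can := fun hab hbc h h' => S.can hab hbc h h'

theorem Sys.fix_rel {T Q : Type u} [Preorder T] [Preorder Q] (S : Sys (T × Q) Λ N) (t : T)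
    (q : Q) (a b : Λ) (ξ ζ : N) : (S.fix t).rel q a b ξ ζ ↔ S.rel (t, q) a b ξ ζ := Iff.rfl

/-- A partial thread of `S.fix t` below `q0` gives a partial thread of `S` below `(t, q0)`:
`th' p a ξ := p.1 ≤ t ∧ th p.2 a ξ`. -/
theorem pthr_fix {T Q : Type u} [Preorder T] [Preorder Q] (S : Sys (T × Q) Λ N) (t : T)
    {q0 : Q} {th : Q → Λ → N → Prop} (h : IsPThr (S.fix t).rel q0 th) :
    ∃ th', IsPThr S.rel (t, q0) th' := by
  refine ⟨fun p a ξ => p.1 ≤ t ∧ th p.2 a ξ, ?_, ?_, ?_⟩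
  · rintro p q a ξ hq ⟨h1, h2⟩
    exact ⟨hq.1.trans h1, h.mono hq.2 h2⟩
  · rintro a ⟨t', q⟩ hp
    obtain ⟨r, hr, b, hb, ξ, h1⟩ := h.cof a q hp.2
    exact ⟨(t', r), Prod.mk_le_mk.2 ⟨le_rfl, hr⟩, b, hb, ξ, hp.1, h1⟩
  · rintro ⟨t', q⟩ a b ξ ζ hp hab ⟨h1, h2⟩ ⟨-, h3⟩
    have h4 : S.rel (t, q) a b ξ ζ := h.coh hp.2 hab h2 h3
    exact S.mono (Prod.mk_le_mk.2 ⟨h1, le_rfl⟩) h4

theorem Threads.iso {P' : Type u} [Preorder P'] (e : P ≃o P') (N : Type u) {p : P}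
    (h : Threads P N p) : Threads P' N (e p) := by
  intro Λ _ hΛ S p0 hp0
  obtain ⟨p1, hp1, th, h1⟩ := h Λ hΛ (S.comap e (fun p q hq => e.monotone hq) fun p' q hq =>
    ⟨e.symm q, e.symm_apply_le.2 hq, by rw [e.apply_symm_apply]⟩) (e.symm p0)
    (e.symm_apply_le.2 hp0)
  refine ⟨e p1, e.le_symm_apply.1 hp1, fun q a ξ => th (e.symm q) a ξ, ?_, ?_, ?_⟩
  · intro q r a ξ hr h2
    exact h1.mono (e.symm.monotone hr) h2
  · intro a q hq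
    obtain ⟨r, hr, ξ, h2⟩ := h1.tot a (e.symm q) (e.symm_apply_le.2 hq)
    refine ⟨e r, e.le_symm_apply.1 hr, ξ, ?_⟩
    rw [e.symm_apply_apply]
    exact h2
  · intro q a b ξ ζ hq hab h2 h3
    have h4 : S.rel (e (e.symm q)) a b ξ ζ := h1.coh (e.symm_apply_le.2 hq) hab h2 h3
    rwa [e.apply_symm_apply] at h4

theorem Threads.below {N : Type u} {p q : P} (hq : q ≤ p) (h : Threads P N p) :
    Threads P N q := fun Λ _ hΛ S p0 hp0 => h Λ hΛ S p0 (hp0.trans hq)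

end STP
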