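import Pool.Agent.STP.Rec
import Pool.Agent.STP.Thr

/-! # Adding partial threads by a quotient forcing: separation (package S19)

(problem MP_e44aae_lc, project STP)

Text, section 7, Claim A. `Gm` is a preorder with a projection `p : Gm → Q`; `Dec g l z a ξ`: the condition `(g, l)` decides that the generic partial thread with index `z` has the
node `ξ` at `a`. `Sep`: `a` separates `(g1, g2; l)`, i.e. there are no `l' ≤ l`, `g1' ≤ g1`, `g2' ≤ g2` with the same projection, `a' ≥ a`, `ξ` with `Dec g1' l' a' ξ` and `Dec g2' l' a' ξ`.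
(For a fixed index, which is suppressed.)

Proof of `claimA`. Suppose not: for all `g1' ≤ g1`, `g2' ≤ g2` with `p g1' = p g2'`, all `l' ≤ l` and all `a`, `¬ Sep`. Put `q := p g1 = p g2` and
`th x a ξ := ∃ h1 ≤ g1, ∃ h2 ≤ g2, p h1 = p h2 ∧ x.1 ≤ p h1 ∧ Dec h1 x.2 a ξ ∧ Dec h2 x.2 a ξ` (`x : Q × L`).
This is a partial thread of `R` below `(q, l)`, contradicting `hno`:
`mono`: clear (`hDec`). `cof`: given `a`, `x ≤ (q, l)`: by `hCL1` take `g1/x.1`, `g2/x.1` (`≤ g1`, `≤ g2`, projection `x.1`); not separated by `a` at `x.2`: `l' ≤ x.2`, `h1, h2`, `a' ≥ a`, `ξ`;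
the condition `(p h1, l')` is `≤ x` (`p` monotone) and `th (p h1, l') a' ξ`.
`coh`: `x ≤ (q, l)`, `a ≤ b`, `th x a ξ` by `h1, h2`, `th x b ζ` by `f1, f2`. By `R.loc` let `y ≤ x`. The pair `h1/y.1 ≤ g1`, `f2/y.1 ≤ g2` (projection `y.1`) is not separated at `y.2` by an upper bound `c` of
`a, b`: `l' ≤ y.2`, `h1' ≤ h1/y.1`, `f2' ≤ f2/y.1`, `p h1' = p f2'`, `c' ≥ c`, `η` with `Dec h1' l' c' η`, `Dec f2' l' c' η`. `Dec h1' l' a ξ` and `Dec f2' l' b ζ` by monotonicity. `hcoh` for `h1'`: `R.rel (p h1', l') a c' ξ η`; for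
`f2'`: `R.rel (p f2', l') b c' ζ η`; `R.can`: `R.rel (p h1', l') a b ξ ζ`. -/

universe u

namespace STP

open Cardinal

variable {L Q Gm Λ N : Type u} [Preorder L] [Preorder Q] [Preorder Gm] [Preorder Λ]

/-- `a` separates the pair `(g1, g2)` at `l` -/
def Sep (p : Gm → Q) (Dec : Gm → L → Λ → N → Prop) (g1 g2 : Gm) (l : L) (a : Λ) : Prop :=
  ∀ l' ≤ l, ∀ g1' ≤ g1, ∀ g2' ≤ g2, p g1' = p g2' → ∀ a', a ≤ a' → ∀ ξ,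
    ¬ (Dec g1' l' a' ξ ∧ Dec g2' l' a' ξ)

theorem Sep.mono {p : Gm → Q} {Dec : Gm → L → Λ → N → Prop} {g1 g2 g1' g2' : Gm} {l l' : L}
    {a a' : Λ} (h : Sep p Dec g1 g2 l a) (h1 : g1' ≤ g1) (h2 : g2' ≤ g2) (hl : l' ≤ l)
    (ha : a ≤ a') : Sep p Dec g1' g2' l' a' := by
  intro l'' hl'' g1'' hg1 g2'' hg2 hp a'' ha ξ
  exact h l'' (hl''.trans hl) g1'' (hg1.trans h1) g2'' (hg2.trans h2) hp a''
    (_root_.le_trans ‹a ≤ a'› ha) ξ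

theorem claimA (p : Gm → Q) (hp : Monotone p)
    (hCL1 : ∀ g, ∀ q ≤ p g, ∃ g' ≤ g, p g' = q)
    (Dec : Gm → L → Λ → N → Prop)
    (hDec : ∀ g g' l l' a ξ, g' ≤ g → l' ≤ l → Dec g l a ξ → Dec g' l' a ξ)
    (R : Rel (Q × L) Λ N) (hΛ : ∀ a b : Λ, ∃ c, a ≤ c ∧ b ≤ c) {q0 : Q} {l0 : L}
    (hcoh : ∀ g l a b ξ ζ, p g ≤ q0 → l ≤ l0 → a ≤ b → Dec g l a ξ → Dec g l b ζ →
      R.rel (p g, l) a b ξ ζ)
    (hno : ∀ x ≤ (q0, l0), ∀ th, ¬ IsPThr R.rel x th)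
    (g1 g2 : Gm) (h12 : p g1 = p g2) (hq : p g1 ≤ q0) (l : L) (hl : l ≤ l0) :
    ∃ g1' ≤ g1, ∃ g2' ≤ g2, p g1' = p g2' ∧ ∃ l' ≤ l, ∃ a, Sep p Dec g1' g2' l' a := by
  by_contra hcon
  have hns : ∀ g1' ≤ g1, ∀ g2' ≤ g2, p g1' = p g2' → ∀ l' ≤ l, ∀ a,
      ∃ l'' ≤ l', ∃ h1 ≤ g1', ∃ h2 ≤ g2', p h1 = p h2 ∧ ∃ a', a ≤ a' ∧ ∃ ξ,
        Dec h1 l'' a' ξ ∧ Dec h2 l'' a' ξ := by
    intro g1' hg1 g2' hg2 hpp l' hl' a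
    by_contra hc
    apply hcon
    refine ⟨g1', hg1, g2', hg2, hpp, l', hl', a, ?_⟩
    intro l'' hl'' h1 hh1 h2 hh2 hp12 a' ha' ξ hd
    exact hc ⟨l'', hl'', h1, hh1, h2, hh2, hp12, a', ha', ξ, hd⟩
  refine hno (p g1, l) ⟨hq, hl⟩
    (fun x a ξ => ∃ h1 ≤ g1, ∃ h2 ≤ g2, p h1 = p h2 ∧ x.1 ≤ p h1 ∧ Dec h1 x.2 a ξ ∧
      Dec h2 x.2 a ξ) ⟨?_, ?_, ?_⟩
  · rintro x y a ξ hyx ⟨h1, hh1, h2, hh2, hpp, hx, d1, d2⟩
    exact ⟨h1, hh1, h2, hh2, hpp, hyx.1.trans hx, hDec _ _ _ _ _ _ le_rfl hyx.2 d1,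
      hDec _ _ _ _ _ _ le_rfl hyx.2 d2⟩
  · intro a x hx
    obtain ⟨g1', hg1', hpg1'⟩ := hCL1 g1 x.1 hx.1
    obtain ⟨g2', hg2', hpg2'⟩ := hCL1 g2 x.1 (hx.1.trans_eq h12)
    obtain ⟨l', hl', h1, hh1, h2, hh2, hpp, a', ha', ξ, d1, d2⟩ :=
      hns g1' hg1' g2' hg2' (hpg1'.trans hpg2'.symm) x.2 hx.2 a
    refine ⟨(p h1, l'), ⟨(hp hh1).trans_eq hpg1', hl'⟩, a', ha', ξ, h1, hh1.trans hg1', h2,
      hh2.trans hg2', hpp, le_rfl, d1, d2⟩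
  · rintro x a b ξ ζ hx hab ⟨h1, hh1, h2, hh2, hpp, hxh, d1, d2⟩
      ⟨f1, hf1, f2, hf2, hppf, hxf, e1, e2⟩
    apply R.loc
    intro y hy
    obtain ⟨k1, hk1, hpk1⟩ := hCL1 h1 y.1 (hy.1.trans hxh)
    obtain ⟨k2, hk2, hpk2⟩ := hCL1 f2 y.1 ((hy.1.trans hxf).trans_eq hppf)
    obtain ⟨c, hac, hbc⟩ := hΛ a b
    obtain ⟨l', hl', m1, hm1, m2, hm2, hpm, c', hc', η, u1, u2⟩ :=
      hns k1 (hk1.trans hh1) k2 (hk2.trans hf2) (hpk1.trans hpk2.symm) y.2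
        (hy.2.trans hx.2) c
    have hlx : l' ≤ x.2 := hl'.trans hy.2
    have hll : l' ≤ l0 := (hlx.trans hx.2).trans hl
    have hpm1 : p m1 ≤ y.1 := (hp hm1).trans_eq hpk1
    have hpq : p m1 ≤ q0 := ((hpm1.trans hy.1).trans hx.1).trans hq
    have v1 : Dec m1 l' a ξ := hDec _ _ _ _ _ _ (hm1.trans hk1) hlx d1
    have v2 : Dec m2 l' b ζ := hDec _ _ _ _ _ _ (hm2.trans hk2) hlx e2
    have w1 := hcoh m1 l' a c' ξ η hpq hll (hac.trans hc') v1 u1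
    have w2 := hcoh m2 l' b c' ζ η (hpm ▸ hpq) hll (hbc.trans hc') v2 u2
    rw [← hpm] at w2
    exact ⟨(p m1, l'), ⟨hpm1, hl'⟩, R.can hab (hbc.trans hc') w1 w2⟩

end STP
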