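import Pool.Agent.STP.BSet

/-! # Boolean valued sets: equality and membership (package M01)

(problem MP_e44aae_lc, project STP)

* `eq_refl`: induction on `x`: `φ a ≤ ⨆ b, φ b ⊓ eq (A a) (A b)` (take `b = a`). `eq_symm`: induction on `x` (for all `y`), `inf_comm`.
* `eq_trans`: induction on `y` (or on all three): for `x = mk α A φ`, `y = mk β C ψ`, `z = mk γ D χ`: `eq x y ⊓ eq y z ⊓ φ a ≤ ⨆ b, ψ b ⊓ eq (A a) (C b) ⊓ eq y z ≤ ⨆ b c, χ c ⊓ eq (C b) (D c) ⊓ eq (A a) (C b) ≤ ⨆ c, χ c ⊓ eq (A a) (D c)`; the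
  second half is symmetric.
* `vl_le_mem`: take the index `a` and `eq_refl`. `mem_congr_left`: `eq x y ⊓ (vl b ⊓ eq x (fn b)) ≤ vl b ⊓ eq y (fn b)`. `mem_congr_right`: `eq x y ⊓ vl_x a ≤ ⨆ b, vl_y b ⊓ eq (fn a) (fn b)`, and `eq z (fn a)`.
* `le_eq_iff`: `→` by `mem_congr_right`; `←`: `b ⊓ φ a ≤ b ⊓ mem (A a) x ≤ mem (A a) y = ⨆ ..`.
* `iInf_mem`, `iSup_mem` (bounded quantifiers): `Φ` is extensional. `⨅ z, mem z x ⇨ Φ z ≤ vl a ⇨ Φ (fn a)` by `vl_le_mem`; conversely `mem z x ⊓ ⨅ a, (vl a ⇨ Φ (fn a)) ≤ ⨆ a, vl a ⊓ eq z (fn a) ⊓ Φ (fn a) ≤ Φ z`. -/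

universe u

namespace STP

namespace BSet

variable {B : Type u} [CompleteBooleanAlgebra B]

private theorem eq_def' (x y : BSet B) : eq x y =
    (⨅ a : x.ty, x.vl a ⇨ ⨆ b : y.ty, y.vl b ⊓ eq (x.fn a) (y.fn b)) ⊓
      ⨅ b : y.ty, y.vl b ⇨ ⨆ a : x.ty, x.vl a ⊓ eq (x.fn a) (y.fn b) := by
  cases x
  cases y
  exact eq_mk _ _ _ _ _ _

private theorem eq_left (x y : BSet B) (a : x.ty) : eq x y ⊓ x.vl a ≤ mem (x.fn a) y := by
  rw [← le_himp_iff, eq_def' x y]
  exact inf_le_left.trans (iInf_le _ a)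

private theorem eq_right (x y : BSet B) (b : y.ty) :
    eq x y ⊓ y.vl b ≤ ⨆ a : x.ty, x.vl a ⊓ eq (x.fn a) (y.fn b) := by
  rw [← le_himp_iff, eq_def' x y]
  exact inf_le_right.trans (iInf_le _ b)

theorem eq_refl (x : BSet B) : eq x x = ⊤ := by
  induction x with
  | mk α A φ ih =>
    rw [eq_mk, eq_top_iff]
    refine le_inf (le_iInf fun a => ?_) (le_iInf fun a => ?_)
    · rw [le_himp_iff, top_inf_eq]
      refine le_iSup_of_le a ?_
      rw [ih a, inf_top_eq]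
    · rw [le_himp_iff, top_inf_eq]
      refine le_iSup_of_le a ?_
      rw [ih a, inf_top_eq]

theorem eq_symm (x y : BSet B) : eq x y = eq y x := by
  induction x generalizing y with
  | mk α A φ ih =>
    cases y with
    | mk β C ψ =>
      rw [eq_mk, eq_mk, inf_comm]
      simp only [ih]

private theorem eq_trans_left (x y z : BSet B)
    (ih : ∀ (a : x.ty) (b : y.ty) (c : z.ty),
      eq (x.fn a) (y.fn b) ⊓ eq (y.fn b) (z.fn c) ≤ eq (x.fn a) (z.fn c)) (a : x.ty) :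
    eq x y ⊓ eq y z ⊓ x.vl a ≤ ⨆ c : z.ty, z.vl c ⊓ eq (x.fn a) (z.fn c) := by
  have h1 : eq x y ⊓ eq y z ⊓ x.vl a ≤
      (⨆ b : y.ty, y.vl b ⊓ eq (x.fn a) (y.fn b)) ⊓ eq y z :=
    le_inf ((inf_le_inf_right _ inf_le_left).trans (eq_left x y a))
      (inf_le_left.trans inf_le_right)
  refine h1.trans ?_
  rw [iSup_inf_eq]
  refine iSup_le fun b => ?_
  have h2 : y.vl b ⊓ eq (x.fn a) (y.fn b) ⊓ eq y z ≤
      (⨆ c : z.ty, z.vl c ⊓ eq (y.fn b) (z.fn c)) ⊓ eq (x.fn a) (y.fn b) :=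
    le_inf ((le_inf inf_le_right (inf_le_left.trans inf_le_left)).trans (eq_left y z b))
      (inf_le_left.trans inf_le_right)
  refine h2.trans ?_
  rw [iSup_inf_eq]
  refine iSup_mono fun c => ?_
  refine le_inf (inf_le_left.trans inf_le_left) ?_
  exact (le_inf inf_le_right (inf_le_left.trans inf_le_right)).trans (ih a b c)

theorem eq_trans (x y z : BSet B) : eq x y ⊓ eq y z ≤ eq x z := by
  induction x generalizing y z with
  | mk α A φ ih =>
    have ih' : ∀ (a : (mk α A φ : BSet B).ty) (b : y.ty) (c : z.ty),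
        eq ((mk α A φ : BSet B).fn a) (y.fn b) ⊓ eq (y.fn b) (z.fn c) ≤
          eq ((mk α A φ : BSet B).fn a) (z.fn c) := fun a b c => ih a (y.fn b) (z.fn c)
    rw [eq_def' (mk α A φ) z]
    refine le_inf (le_iInf fun a => ?_) (le_iInf fun c => ?_)
    · rw [le_himp_iff]
      exact eq_trans_left _ y z ih' a
    · rw [le_himp_iff]
      have h1 := eq_trans_left z y (mk α A φ) (fun c b a => by
        rw [eq_symm (z.fn c) (y.fn b), eq_symm (y.fn b) ((mk α A φ : BSet B).fn a),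
          eq_symm (z.fn c) ((mk α A φ : BSet B).fn a), inf_comm]
        exact ih' a b c) c
      rw [eq_symm z y, eq_symm y (mk α A φ), inf_comm (eq y z)] at h1
      refine h1.trans (iSup_mono fun a => ?_)
      rw [eq_symm (z.fn c)]

theorem vl_le_mem (x : BSet B) (a : x.ty) : x.vl a ≤ mem (x.fn a) x := by
  refine le_iSup_of_le a ?_
  rw [eq_refl, inf_top_eq]

theorem mem_congr_left (x y z : BSet B) : eq x y ⊓ mem x z ≤ mem y z := by
  unfold mem
  rw [inf_iSup_eq]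
  refine iSup_mono fun b => ?_
  refine le_inf (inf_le_right.trans inf_le_left) ?_
  rw [eq_symm x y]
  exact (le_inf inf_le_left (inf_le_right.trans inf_le_right)).trans (eq_trans y x (z.fn b))

theorem mem_congr_right (x y z : BSet B) : eq x y ⊓ mem z x ≤ mem z y := by
  have h0 : mem z x = ⨆ a : x.ty, x.vl a ⊓ eq z (x.fn a) := rfl
  rw [h0, inf_iSup_eq]
  refine iSup_le fun a => ?_
  have h1 : eq x y ⊓ (x.vl a ⊓ eq z (x.fn a)) ≤ eq (x.fn a) z ⊓ mem (x.fn a) y := by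
    rw [eq_symm (x.fn a) z]
    exact le_inf (inf_le_right.trans inf_le_right)
      ((le_inf inf_le_left (inf_le_right.trans inf_le_left)).trans (eq_left x y a))
  exact h1.trans (mem_congr_left (x.fn a) z y)

theorem le_eq_iff {b : B} {x y : BSet B} :
    b ≤ eq x y ↔ ∀ z, b ⊓ mem z x ≤ mem z y ∧ b ⊓ mem z y ≤ mem z x := by
  constructor
  · intro h z
    refine ⟨(inf_le_inf_right _ h).trans (mem_congr_right x y z), ?_⟩
    rw [eq_symm] at h
    exact (inf_le_inf_right _ h).trans (mem_congr_right y x z)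
  · intro h
    rw [eq_def' x y]
    refine le_inf (le_iInf fun a => ?_) (le_iInf fun c => ?_)
    · rw [le_himp_iff]
      exact (inf_le_inf_left b (vl_le_mem x a)).trans (h (x.fn a)).1
    · rw [le_himp_iff]
      refine (inf_le_inf_left b (vl_le_mem y c)).trans ((h (y.fn c)).2.trans ?_)
      refine iSup_mono fun a => ?_
      rw [eq_symm (x.fn a)]

/-- `Φ` is extensional -/
def Ext (Φ : BSet B → B) : Prop := ∀ x y, eq x y ⊓ Φ x ≤ Φ y

theorem iInf_mem {Φ : BSet B → B} (hΦ : Ext Φ) (x : BSet B) :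
    ⨅ z, (mem z x ⇨ Φ z) = ⨅ a : x.ty, (x.vl a ⇨ Φ (x.fn a)) := by
  refine le_antisymm (le_iInf fun a => ?_) (le_iInf fun z => ?_)
  · exact (iInf_le _ (x.fn a)).trans (himp_le_himp_right (vl_le_mem x a))
  · rw [le_himp_iff]
    have h0 : mem z x = ⨆ a : x.ty, x.vl a ⊓ eq z (x.fn a) := rfl
    rw [h0, inf_iSup_eq]
    refine iSup_le fun a => ?_
    refine le_trans (le_inf ?_ ?_) (hΦ (x.fn a) z)
    · rw [eq_symm (x.fn a) z]
      exact inf_le_right.trans inf_le_right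
    · exact (inf_le_inf_left _ inf_le_left).trans (le_himp_iff.1 (iInf_le _ a))

theorem iSup_mem {Φ : BSet B → B} (hΦ : Ext Φ) (x : BSet B) :
    ⨆ z, (mem z x ⊓ Φ z) = ⨆ a : x.ty, (x.vl a ⊓ Φ (x.fn a)) := by
  refine le_antisymm (iSup_le fun z => ?_) (iSup_le fun a => ?_)
  · have h0 : mem z x = ⨆ a : x.ty, x.vl a ⊓ eq z (x.fn a) := rfl
    rw [h0, iSup_inf_eq]
    refine iSup_mono fun a => ?_
    exact le_inf (inf_le_left.trans inf_le_left)
      ((inf_le_inf_right _ inf_le_right).trans (hΦ z (x.fn a)))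
  · exact le_iSup_of_le (x.fn a) (inf_le_inf_right _ (vl_le_mem x a))

end BSet

end STP
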