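import Pool.Agent.STP.Rec
import Pool.Agent.STP.Cls

/-! # Covering: fusion in a product of closed posets (package S05)

(problem MP_e44aae_lc, project STP)

Text, section 4, (4.1). `Γ` is a well-order, `H = ∀ i, C i` (full support), `L` is a small poset, `R0` a closed poset. For each
`i` the product `L × ∏_{j ≤ i} C j` has at most `k i` elements, while `C j`, `j > i`, and `R0` are `succ (k i)`-directed closed. Index sets `J`
with at most `ν` elements are unions `J = ⋃ Ji i`, `#(Ji i) ≤ k i`.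

Proof. Let `W : J → L × H × R0 → X → Prop` be open and dense below `(l0, h0, r0)`.
`TR` with `X := H × R0`, `Rl j x y := y.1 ≤ x.1 ∧ y.2 ≤ x.2 ∧ ∀ a ≤ j, y.1 a = x.1 a` and
`G i y := y ≤ (h0, r0) ∧ ∃ A : Set X, #A ≤ k i ∧ ∀ s ∈ Ji i, ∀ l ≤ l0, ∀ g : (∀ j : {j // j ≤ i}, C j), (∀ j, g j ≤ y.1 j) →
   ∃ l' ≤ l, ∃ g' ≤ g, ∃ x ∈ A, W s (l', mrg g' y.1, y.2) x`,
where `mrg g' h j = if hj : j ≤ i then g' ⟨j, hj⟩ else h j`.
Step at `i`: first a common lower bound `y0` of the `x j`, `j < i`: for `a < i` put `y0 a = (x a).1 a` (this is `≤ (x j).1 a` for all `j < i`: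
for `j < a` by `Rl j`, for `j = a` trivially, for `a < j` it is equal to `(x j).1 a` by `Rl a (x a) (x j)`); for `a ≥ i` a lower bound of
`(x j).1 a`, `j < i`, and `h0 a` (`DC.lower`, `#{j // j < i} < δ`, hypothesis `hΓ`); second coordinate: lower bound (`DC.lower`).
Then `REC` for the poset `Q_i = (∀ j : {j // i < j}, C j) × R0`, which is `DC (succ (k i))`, below `(y0 restricted, r)`, with the index set
`{s // s ∈ Ji i} × {l // l ≤ l0} × (∀ j : {j // j ≤ i}, C j)` (at most `k i` elements) and the sets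
`D (s,l,g) q := (∀ j, g j ≤ y0 j) → ∃ l' ≤ l, ∃ g' ≤ g, ∃ x, W s (l', the element of H given by g' and q.1, q.2) x`;
dense because `W s` is dense below `(l0, h0, r0)` (extend `(l, g ∪ q.1, q.2)`, the extension is `(l', h', r')`, `g'` = restriction of `h'`,
`q'` = (restriction of `h'`, `r'`)). Choose for each `(s,l,g)` one `x`; `A` = the set of the chosen `x`, `#A ≤ k i`. The new point
`y` = (`y0 a` for `a ≤ i`, the new `q.1` for `a > i`; the new `q.2`). It satisfies `Rl j (x j) y` (for `a ≤ j < i` nothing changed)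
and `G i y`.
At the end: `h a := (x a).1 a`, `r` = lower bound of the `(x i).2` and `r0` (`DC.lower`, `#Γ < δ`), `A := ⋃ i, A i`, `#A ≤ #Γ * ν ≤ ν`. Then
`(l0, h, r)` works: let `s ∈ Ji i`, `(l, g, r') ≤ (l0, h, r)`. `h ≤ (x i).1` and `h a = (x i).1 a` for `a ≤ i`. Apply `G i` to `l` and the restriction of
`g` to `{j // j ≤ i}`: `l' ≤ l`, `g' ≤ g` on `j ≤ i`, `x ∈ A i`, `W s (l', mrg g' (x i).1, (x i).2) x`. The condition `(l', mrg g' g, r')` is `≤ (l, g, r')` and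
`≤ (l', mrg g' (x i).1, (x i).2)`, so it satisfies `W s _ x` (open). -/

universe u

namespace STP

open Cardinal

/-- gluing a lower and an upper part -/
private def glue {Γ : Type u} [LinearOrder Γ] {C : Γ → Type u} (i : Γ)
    (g : ∀ j : {j : Γ // j ≤ i}, C j) (q : ∀ j : {j : Γ // i < j}, C j) : ∀ j, C j :=
  fun j => if h : j ≤ i then g ⟨j, h⟩ else q ⟨j, not_le.1 h⟩

/-- replacing the lower part -/
private def mrg {Γ : Type u} [LinearOrder Γ] {C : Γ → Type u} (i : Γ)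
    (g : ∀ j : {j : Γ // j ≤ i}, C j) (h : ∀ j, C j) : ∀ j, C j :=
  fun j => if hj : j ≤ i then g ⟨j, hj⟩ else h j

private theorem glue_le {Γ : Type u} [LinearOrder Γ] {C : Γ → Type u} {i j : Γ}
    (g : ∀ j : {j : Γ // j ≤ i}, C j) (q : ∀ j : {j : Γ // i < j}, C j) (h : j ≤ i) :
    glue i g q j = g ⟨j, h⟩ := dif_pos h

private theorem glue_gt {Γ : Type u} [LinearOrder Γ] {C : Γ → Type u} {i j : Γ}
    (g : ∀ j : {j : Γ // j ≤ i}, C j) (q : ∀ j : {j : Γ // i < j}, C j) (h : i < j) :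
    glue i g q j = q ⟨j, h⟩ := dif_neg (not_le.2 h)

private theorem mrg_le {Γ : Type u} [LinearOrder Γ] {C : Γ → Type u} {i j : Γ}
    (g : ∀ j : {j : Γ // j ≤ i}, C j) (f : ∀ j, C j) (h : j ≤ i) :
    mrg i g f j = g ⟨j, h⟩ := dif_pos h

private theorem mrg_gt {Γ : Type u} [LinearOrder Γ] {C : Γ → Type u} {i j : Γ}
    (g : ∀ j : {j : Γ // j ≤ i}, C j) (f : ∀ j, C j) (h : i < j) :
    mrg i g f j = f j := dif_neg (not_le.2 h)

private theorem glue_mono {Γ : Type u} [LinearOrder Γ] {C : Γ → Type u} [∀ i, Preorder (C i)]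
    {i : Γ} {g g' : ∀ j : {j : Γ // j ≤ i}, C j} {q q' : ∀ j : {j : Γ // i < j}, C j}
    (h : ∀ j, g j ≤ g' j) (h' : ∀ j, q j ≤ q' j) : glue i g q ≤ glue i g' q' := by
  intro j
  rcases le_or_gt j i with hj | hj
  · rw [glue_le _ _ hj, glue_le _ _ hj]
    exact h _
  · rw [glue_gt _ _ hj, glue_gt _ _ hj]
    exact h' _

private theorem glue_bd {Γ : Type u} [LinearOrder Γ] {C : Γ → Type u} [∀ i, Preorder (C i)]
    {i : Γ} {g : ∀ j : {j : Γ // j ≤ i}, C j} {q : ∀ j : {j : Γ // i < j}, C j}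
    {y : ∀ j, C j} (h : ∀ j, g j ≤ y j.1) (h' : ∀ j, q j ≤ y j.1) : glue i g q ≤ y := by
  intro j
  rcases le_or_gt j i with hj | hj
  · rw [glue_le _ _ hj]
    exact h ⟨j, hj⟩
  · rw [glue_gt _ _ hj]
    exact h' ⟨j, hj⟩

private theorem mrg_mono {Γ : Type u} [LinearOrder Γ] {C : Γ → Type u} [∀ i, Preorder (C i)]
    {i : Γ} {g : ∀ j : {j : Γ // j ≤ i}, C j} {f f' : ∀ j, C j} (h : f ≤ f') :
    mrg i g f ≤ mrg i g f' := by
  intro j
  rcases le_or_gt j i with hj | hj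
  · rw [mrg_le _ _ hj, mrg_le _ _ hj]
  · rw [mrg_gt _ _ hj, mrg_gt _ _ hj]
    exact h j

private theorem mrg_self {Γ : Type u} [LinearOrder Γ] {C : Γ → Type u} [∀ i, Preorder (C i)]
    {i : Γ} {g : ∀ j : {j : Γ // j ≤ i}, C j} {f : ∀ j, C j} (h : ∀ j, g j ≤ f j.1) :
    mrg i g f ≤ f := by
  intro j
  rcases le_or_gt j i with hj | hj
  · rw [mrg_le _ _ hj]
    exact h ⟨j, hj⟩
  · rw [mrg_gt _ _ hj]

/-- common lower bound of a fusion sequence -/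
private theorem fus_lower {Γ : Type u} [LinearOrder Γ] (C : Γ → Type u) [∀ i, PartialOrder (C i)]
    {R0 : Type u} [Preorder R0] (hΓ : ∀ j, DC (Order.succ #Γ) (C j))
    (hRΓ : DC (Order.succ #Γ) R0) (h0 : ∀ i, C i) (r0 : R0) (S : Γ → Prop)
    (hS : ∀ a b, a < b → S b → S a) (x : Γ → (∀ i, C i) × R0)
    (hx : ∀ j k, j < k → S k → (x k).1 ≤ (x j).1 ∧ (x k).2 ≤ (x j).2 ∧
      ∀ a ≤ j, (x k).1 a = (x j).1 a)
    (hb : ∀ j, S j → (x j).1 ≤ h0 ∧ (x j).2 ≤ r0) :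
    ∃ (y : ∀ i, C i) (r : R0), y ≤ h0 ∧ r ≤ r0 ∧ (∀ j, S j → y ≤ (x j).1 ∧ r ≤ (x j).2 ∧
      ∀ a ≤ j, y a = (x j).1 a) := by
  classical
  have hcard : #{j : Γ // S j} < Order.succ #Γ :=
    lt_of_le_of_lt (mk_subtype_le _) (Order.lt_succ _)
  have hlow : ∀ a, ∃ q : C a, q ≤ h0 a ∧ (∀ j, S j → q ≤ (x j).1 a) ∧
      (S a → q = (x a).1 a) := by
    intro a
    by_cases ha : S a
    · refine ⟨(x a).1 a, (hb a ha).1 a, ?_, fun _ => rfl⟩
      intro j hj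
      rcases lt_trichotomy j a with h | h | h
      · exact (hx j a h ha).1 a
      · subst h; exact le_rfl
      · exact ((hx a j h hj).2.2 a le_rfl).symm.le
    · obtain ⟨q, hq1, hq2⟩ := DC.lower (hΓ a) hcard (fun j : {j : Γ // S j} => (x j.1).1 a)
        (by
          intro j j' hjj'
          rcases eq_or_lt_of_le hjj' with h | h
          · subst h; exact le_rfl
          · exact (hx j.1 j'.1 h j'.2).1 a) (h0 a) (fun j => (hb j.1 j.2).1 a)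
      exact ⟨q, hq1, fun j hj => hq2 ⟨j, hj⟩, fun h => absurd h ha⟩
  choose y hy1 hy2 hy3 using hlow
  obtain ⟨r, hr1, hr2⟩ := DC.lower hRΓ hcard (fun j : {j : Γ // S j} => (x j.1).2)
    (by
      intro j j' hjj'
      rcases eq_or_lt_of_le hjj' with h | h
      · subst h; exact le_rfl
      · exact (hx j.1 j'.1 h j'.2).2.1) r0 (fun j => (hb j.1 j.2).2)
  refine ⟨y, r, fun a => hy1 a, hr1, ?_⟩
  intro j hj
  refine ⟨fun a => hy2 a j hj, hr2 ⟨j, hj⟩, ?_⟩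
  intro a ha
  rcases eq_or_lt_of_le ha with h | h
  · subst h; exact hy3 a hj
  · rw [hy3 a (hS a j h hj)]
    exact ((hx a j h hj).2.2 a le_rfl).symm

theorem cov_fusion {Γ : Type u} [LinearOrder Γ] [WellFoundedLT Γ] {ν : Cardinal.{u}}
    (k : Γ → Cardinal.{u}) (C : Γ → Type u) [∀ i, PartialOrder (C i)]
    {L R0 : Type u} [Preorder L] [Preorder R0]
    (hν : ℵ₀ ≤ ν) (hk0 : ∀ i, ℵ₀ ≤ k i) (hk : ∀ i, k i ≤ ν) (hΓν : #Γ ≤ ν)
    (hJ : ∀ J : Type u, #J ≤ ν → ∃ Ji : Γ → Set J, (∀ i, #(Ji i) ≤ k i) ∧ ∀ s, ∃ i, s ∈ Ji i)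
    (hsize : ∀ i, #L * #(∀ j : {j : Γ // j ≤ i}, C j) ≤ k i)
    (hC : ∀ i j, i < j → DC (Order.succ (k i)) (C j))
    (hΓ : ∀ j, DC (Order.succ #Γ) (C j))
    (hR : ∀ i, DC (Order.succ (k i)) R0) (hRΓ : DC (Order.succ #Γ) R0) :
    COV ν (L × (∀ i, C i) × R0) := by
  classical
  intro J X hJc W hW t0 hd
  obtain ⟨l0, h0, r0⟩ := t0
  obtain ⟨Ji, hJi, hJall⟩ := hJ J hJc
  have step : ∀ (i : Γ) (x : Γ → (∀ i, C i) × R0),
      (∀ j k, j < k → k < i → ((x k).1 ≤ (x j).1 ∧ (x k).2 ≤ (x j).2 ∧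
        ∀ a ≤ j, (x k).1 a = (x j).1 a)) →
      (∀ j < i, ((x j).1 ≤ h0 ∧ (x j).2 ≤ r0 ∧ ∃ A : Set X, #A ≤ k j ∧ ∀ s ∈ Ji j, ∀ l ≤ l0,
        ∀ g : (∀ b : {b : Γ // b ≤ j}, C b), (∀ b, g b ≤ (x j).1 b) →
          ∃ l' ≤ l, ∃ g' : (∀ b : {b : Γ // b ≤ j}, C b), (∀ b, g' b ≤ g b) ∧
            ∃ z ∈ A, W s (l', mrg j g' (x j).1, (x j).2) z)) →
      ∃ y : (∀ i, C i) × R0, (∀ j < i, (y.1 ≤ (x j).1 ∧ y.2 ≤ (x j).2 ∧
        ∀ a ≤ j, y.1 a = (x j).1 a)) ∧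
        (y.1 ≤ h0 ∧ y.2 ≤ r0 ∧ ∃ A : Set X, #A ≤ k i ∧ ∀ s ∈ Ji i, ∀ l ≤ l0,
        ∀ g : (∀ b : {b : Γ // b ≤ i}, C b), (∀ b, g b ≤ y.1 b) →
          ∃ l' ≤ l, ∃ g' : (∀ b : {b : Γ // b ≤ i}, C b), (∀ b, g' b ≤ g b) ∧
            ∃ z ∈ A, W s (l', mrg i g' y.1, y.2) z) := by
    intro i x hx hG
    obtain ⟨y0, r, hy0, hr, hyr⟩ := fus_lower C hΓ hRΓ h0 r0 (fun j => j < i)
      (fun a b hab hb => hab.trans hb) x hx (fun j hj => ⟨(hG j hj).1, (hG j hj).2.1⟩)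
    have hQ : DC (Order.succ (k i)) ((∀ j : {j : Γ // i < j}, C j) × R0) :=
      DC.prod (DC.pi fun j => hC i j.1 j.2) (hR i)
    have hcard : #({s : J // s ∈ Ji i} × {l : L // l ≤ l0} × (∀ j : {j : Γ // j ≤ i}, C j)) ≤
        k i := by
      rw [mk_prod, lift_id, lift_id, mk_prod, lift_id, lift_id]
      calc #{s : J // s ∈ Ji i} * (#{l : L // l ≤ l0} * #(∀ j : {j : Γ // j ≤ i}, C j))
          ≤ k i * k i := by
            apply mul_le_mul' (hJi i)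
            exact le_trans (mul_le_mul' (mk_subtype_le _) le_rfl) (hsize i)
        _ = k i := mul_eq_self (hk0 i)
    obtain ⟨q, hq, hqD⟩ := REC hQ (lt_of_le_of_lt hcard (Order.lt_succ _))
      (fun (a : {s : J // s ∈ Ji i} × {l : L // l ≤ l0} × (∀ j : {j : Γ // j ≤ i}, C j))
        (q : (∀ j : {j : Γ // i < j}, C j) × R0) => (∀ j, a.2.2 j ≤ y0 j) →
          ∃ l' ≤ a.2.1.1, ∃ g' : (∀ b : {b : Γ // b ≤ i}, C b), (∀ b, g' b ≤ a.2.2 b) ∧
            ∃ z, W a.1.1 (l', glue i g' q.1, q.2) z)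
      ((fun j => y0 j.1), r)
      (by
        intro a q r' hr' hD ha
        obtain ⟨l', hl', g', hg', z, hz⟩ := hD ha
        refine ⟨l', hl', g', hg', z, hW _ _ _ _ ?_ hz⟩
        exact ⟨le_rfl, glue_mono (fun j => le_rfl) hr'.1, hr'.2⟩)
      (by
        intro a q hq
        by_cases ha : ∀ j, a.2.2 j ≤ y0 j
        · obtain ⟨t', ht', z, hz⟩ := hd a.1.1 (a.2.1.1, glue i a.2.2 q.1, q.2) (by
            exact ⟨a.2.1.2, (glue_bd ha hq.1).trans hy0, hq.2.trans hr⟩)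
          have ht2 : t'.2.1 ≤ glue i a.2.2 q.1 := ht'.2.1
          refine ⟨((fun j => t'.2.1 j.1), t'.2.2), ⟨?_, ht'.2.2⟩, fun _ => ?_⟩
          · intro j
            have h1 := ht2 j.1
            rw [glue_gt _ _ j.2] at h1
            exact h1
          · refine ⟨t'.1, ht'.1, fun j => t'.2.1 j.1, ?_, z, ?_⟩
            · intro j
              have h1 := ht2 j.1
              rw [glue_le _ _ j.2] at h1
              exact h1
            · have h1 : glue i (fun j : {j : Γ // j ≤ i} => t'.2.1 j.1)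
                  (fun j : {j : Γ // i < j} => t'.2.1 j.1) = t'.2.1 := by
                funext j
                rcases le_or_gt j i with h | h
                · rw [glue_le _ _ h]
                · rw [glue_gt _ _ h]
              rw [h1]
              exact hz
        · exact ⟨q, le_rfl, fun h => absurd h ha⟩)
    -- the new point
    refine ⟨(glue i (fun j => y0 j.1) q.1, q.2), ?_, ?_, hq.2.trans hr, ?_⟩
    · intro j hj
      refine ⟨(glue_bd (fun j => le_rfl) hq.1).trans (hyr j hj).1,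
        hq.2.trans (hyr j hj).2.1, ?_⟩
      intro a ha
      have h : a ≤ i := ha.trans hj.le
      change glue i (fun j => y0 j.1) q.1 a = (x j).1 a
      rw [glue_le _ _ h]
      exact (hyr j hj).2.2 a ha
    · exact (glue_bd (fun j => le_rfl) hq.1).trans hy0
    · choose l1 hl1 g1 hg1 z1 hz1 using hqD
      refine ⟨Set.range (fun a : {a : {s : J // s ∈ Ji i} × {l : L // l ≤ l0} ×
          (∀ j : {j : Γ // j ≤ i}, C j) // ∀ j, a.2.2 j ≤ y0 j} => z1 a.1 a.2), ?_, ?_⟩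
      · exact mk_range_le.trans ((mk_subtype_le _).trans hcard)
      · intro s hs l hl g hg
        have hg2 : ∀ j, g j ≤ y0 j := by
          intro j
          have h1 : g j ≤ glue i (fun j => y0 j.1) q.1 j.1 := hg j
          rw [glue_le _ _ j.2] at h1
          exact h1
        refine ⟨l1 (⟨s, hs⟩, ⟨l, hl⟩, g) hg2, hl1 (⟨s, hs⟩, ⟨l, hl⟩, g) hg2,
          g1 (⟨s, hs⟩, ⟨l, hl⟩, g) hg2, hg1 (⟨s, hs⟩, ⟨l, hl⟩, g) hg2,
          z1 (⟨s, hs⟩, ⟨l, hl⟩, g) hg2, ⟨⟨(⟨s, hs⟩, ⟨l, hl⟩, g), hg2⟩, rfl⟩, ?_⟩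
        have h1 : mrg i (g1 (⟨s, hs⟩, ⟨l, hl⟩, g) hg2) (glue i (fun j => y0 j.1) q.1) =
            glue i (g1 (⟨s, hs⟩, ⟨l, hl⟩, g) hg2) q.1 := by
          funext j
          rcases le_or_gt j i with h | h
          · rw [glue_le _ _ h, mrg_le _ _ h]
          · rw [mrg_gt _ _ h, glue_gt _ _ h, glue_gt _ _ h]
        change W s (_, mrg i (g1 (⟨s, hs⟩, ⟨l, hl⟩, g) hg2) (glue i (fun j => y0 j.1) q.1), q.2) _
        rw [h1]
        exact hz1 (⟨s, hs⟩, ⟨l, hl⟩, g) hg2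
  have : Nonempty ((∀ i, C i) × R0) := ⟨(h0, r0)⟩
  obtain ⟨x, hx, hG⟩ := TR (α := Γ) (X := (∀ i, C i) × R0)
    (fun j x y => (y.1 ≤ x.1 ∧ y.2 ≤ x.2 ∧ ∀ a ≤ j, y.1 a = x.1 a))
    (fun i y => (y.1 ≤ h0 ∧ y.2 ≤ r0 ∧ ∃ A : Set X, #A ≤ k i ∧ ∀ s ∈ Ji i, ∀ l ≤ l0,
        ∀ g : (∀ b : {b : Γ // b ≤ i}, C b), (∀ b, g b ≤ y.1 b) →
          ∃ l' ≤ l, ∃ g' : (∀ b : {b : Γ // b ≤ i}, C b), (∀ b, g' b ≤ g b) ∧
            ∃ z ∈ A, W s (l', mrg i g' y.1, y.2) z)) step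
  obtain ⟨h, r, hh, hr, hhr⟩ := fus_lower C hΓ hRΓ h0 r0 (fun _ => True)
    (fun _ _ _ _ => trivial) x (fun j k hjk _ => hx j k hjk)
    (fun j _ => ⟨(hG j).1, (hG j).2.1⟩)
  have hA : ∀ i, ∃ A : Set X, #A ≤ k i ∧ ∀ s ∈ Ji i, ∀ l ≤ l0,
        ∀ g : (∀ b : {b : Γ // b ≤ i}, C b), (∀ b, g b ≤ (x i).1 b) →
          ∃ l' ≤ l, ∃ g' : (∀ b : {b : Γ // b ≤ i}, C b), (∀ b, g' b ≤ g b) ∧
            ∃ z ∈ A, W s (l', mrg i g' (x i).1, (x i).2) z := fun i => (hG i).2.2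
  choose A hA1 hA2 using hA
  refine ⟨(l0, h, r), ⟨le_rfl, hh, hr⟩, ⋃ i, A i, ?_, ?_⟩
  · calc #(⋃ i, A i) ≤ Cardinal.sum fun i => #(A i) := mk_iUnion_le_sum_mk
      _ ≤ Cardinal.sum fun _ : Γ => ν := sum_le_sum _ _ fun i => (hA1 i).trans (hk i)
      _ = #Γ * ν := by rw [sum_const']
      _ ≤ ν * ν := mul_le_mul' hΓν le_rfl
      _ = ν := mul_eq_self hν
  · intro s t ht
    obtain ⟨l, g, r'⟩ := t
    obtain ⟨hl, hg, hr'⟩ := ht
    obtain ⟨i, hs⟩ := hJall s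
    obtain ⟨l', hl', g', hg', z, hz, hWz⟩ := hA2 i s hs l hl (fun b => g b.1) (by
      intro b
      have h1 := (hhr i trivial).2.2 b.1 b.2
      rw [← h1]
      exact hg b.1)
    have hg2 : g ≤ (x i).1 := le_trans hg (hhr i trivial).1
    have hr2 : r' ≤ (x i).2 := le_trans hr' (hhr i trivial).2.1
    exact ⟨(l', mrg i g' g, r'), ⟨hl', mrg_self hg', le_rfl⟩, z, Set.mem_iUnion.2 ⟨i, hz⟩,
      hW s (l', mrg i g' (x i).1, (x i).2) (l', mrg i g' g, r') z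
        ⟨le_rfl, mrg_mono hg2, hr2⟩ hWz⟩

end STP
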