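import Pool.Agent.STP.Inac
import Pool.Agent.STP.Fus

/-! # One block of indestructible supercompact cardinals: definitions

(problem MP_e44aae_lc, project STP; no sorry in this file)

`Γ` is a well-order of type `γ` (a regular cardinal), `kb < k i` (`i : Γ`) are indestructible supercompact cardinals. -/

universe u

namespace STP

open Cardinal

variable {Γ : Type u} [LinearOrder Γ]

/-- a block -/
structure Block (Γ : Type u) [LinearOrder Γ] (γ kb : Cardinal.{u}) (k : Γ → Cardinal.{u}) :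
    Prop where
  wf : WellFoundedLT Γ
  reg : γ.IsRegular
  card : #Γ = γ
  init : ∀ i : Γ, #{j : Γ // j ≤ i} < γ
  LIb : LI kb
  LIk : ∀ i, LI (k i)
  gkb : γ < kb
  kbk : ∀ i, kb < k i
  mono : ∀ i j, i < j → k i < k j

/-- the supremum `ν` of the block -/
noncomputable def nu (k : Γ → Cardinal.{u}) : Cardinal.{u} := ⨆ i, k i

/-- `ρ_i = max (kb, sup_{j < i} k j)` -/
noncomputable def rho (kb : Cardinal.{u}) (k : Γ → Cardinal.{u}) (i : Γ) : Cardinal.{u} :=
  max kb (⨆ j : {j : Γ // j < i}, k j.1)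

/-- `ρ_i⁺⁺` -/
noncomputable def dl (kb : Cardinal.{u}) (k : Γ → Cardinal.{u}) (i : Γ) : Cardinal.{u} :=
  Order.succ (Order.succ (rho kb k i))

/-- `C_i = Col(ρ_i⁺⁺, < k_i)` -/
abbrev CC (kb : Cardinal.{u}) (k : Γ → Cardinal.{u}) (i : Γ) : Type u := Levy (dl kb k i) (k i)

/-- the full support product of the `C_i` -/
abbrev HH (kb : Cardinal.{u}) (k : Γ → Cardinal.{u}) : Type u := ∀ i : Γ, CC kb k i

/-- `Col(ν⁺, 2^ν)` -/
abbrev R0 (k : Γ → Cardinal.{u}) : Type u := Col (Order.succ (nu k)) ((2 : Cardinal.{u}) ^ nu k).out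

/-- the closed part of a block -/
abbrev HR (kb : Cardinal.{u}) (k : Γ → Cardinal.{u}) : Type u := HH kb k × R0 k

/-- the collapses in front of the block: `S × Col(γ, μ) × Col(μ⁺⁺⁺, kb)` -/
abbrev TT (S : Type u) (γ kb μ : Cardinal.{u}) : Type u :=
  (S × Col γ μ.out) × Col (Order.succ (Order.succ (Order.succ μ))) kb.out

end STP
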