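import Pool.Agent.STP.Bdd
import Pool.Agent.STP.Blk

/-! # The interface between the forcing combinatorics and the Boolean valued model

(problem MP_e44aae_lc, project STP; definitions, no sorry in this file)

`BF P pstar γ ν` collects the facts about one block of the poset `P` which are used in the
construction of the model of the strong tree property. -/

universe u

namespace STP

open Cardinal

/-- below `p0` there is a name of a partial function from `A` onto `C` -/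
def OntoN (P : Type u) [Preorder P] (p0 : P) (A C : Type u) : Prop :=
  ∃ W : P → A → C → Prop, (∀ p p' x y, p' ≤ p → W p x y → W p' x y) ∧
    (∀ p x y y', W p x y → W p x y' → y = y') ∧
    ∀ y, ∀ p ≤ p0, ∃ p' ≤ p, ∃ x, W p' x y

/-- the facts about one block which are used in the construction of the model -/
structure BF (P : Type u) [PartialOrder P] (pstar : P) (γ ν : Cardinal.{u}) : Prop where
  inf : ℵ₀ ≤ γ
  lt : γ < ν
  bdd : BddP P γ
  bddS : BddP P (Order.succ ν)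
  seq : ∃ k : γ.ord.ToType → Cardinal.{u}, (∀ i j, i < j → k i < k j) ∧ (∀ i, ℵ₀ ≤ k i) ∧
    (∀ i, k i < ν) ∧ (∀ c < ν, ∃ i, c < k i) ∧ ∀ i, BddP P (k i)
  cand : ∃ D : Set Cardinal.{u},
    (∀ c, ℵ₀ ≤ c → c < ν → c ∉ D → ∃ a < c, OntoN P pstar a.out c.out) ∧
    ∀ c < ν, ∃ A : Type u, #A < γ ∧ Nonempty ({d // d ∈ D ∧ d < c} ↪ A)
  thr : Threads P ν.ord.ToType pstar

/-- the facts of `BF` without the threads -/
structure BF0 (P : Type u) [PartialOrder P] (pstar : P) (γ ν : Cardinal.{u}) : Prop where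
  inf : ℵ₀ ≤ γ
  lt : γ < ν
  bdd : BddP P γ
  bddS : BddP P (Order.succ ν)
  seq : ∃ k : γ.ord.ToType → Cardinal.{u}, (∀ i j, i < j → k i < k j) ∧ (∀ i, ℵ₀ ≤ k i) ∧
    (∀ i, k i < ν) ∧ (∀ c < ν, ∃ i, c < k i) ∧ ∀ i, BddP P (k i)
  cand : ∃ D : Set Cardinal.{u},
    (∀ c, ℵ₀ ≤ c → c < ν → c ∉ D → ∃ a < c, OntoN P pstar a.out c.out) ∧
    ∀ c < ν, ∃ A : Type u, #A < γ ∧ Nonempty ({d // d ∈ D ∧ d < c} ↪ A)

theorem BF.bf0 {P : Type u} [PartialOrder P] {pstar : P} {γ ν : Cardinal.{u}}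
    (h : BF P pstar γ ν) : BF0 P pstar γ ν :=
  ⟨h.inf, h.lt, h.bdd, h.bddS, h.seq, h.cand⟩

end STP
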