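import Pool.Agent.STP.Defs

/-! # The complete Boolean algebra of regular open sets

(problem MP_e44aae_lc, project STP) -/

universe u

namespace STP

namespace RO

variable {P : Type u} [Preorder P]

theorem down (U : RO P) {p q : P} (h : q ≤ p) (hp : p ∈ U.carrier) : q ∈ U.carrier := by
  rw [U.reg] at hp ⊢
  exact fun r hr => hp r (hr.trans h)

theorem locally (U : RO P) {p : P} (h : ∀ q ≤ p, ∃ r ≤ q, r ∈ U.carrier) : p ∈ U.carrier :=
  (U.reg p).2 h

/-- the regular open set generated by a property -/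
def cl (s : Set P) : RO P where
  carrier := {p | ∀ q ≤ p, ∃ r ≤ q, ∀ t ≤ r, t ∈ s}
  reg p := by
    constructor
    · intro h q hq
      exact ⟨q, le_rfl, fun q' hq' => h q' (hq'.trans hq)⟩
    · intro h q hq
      obtain ⟨r, hr, h1⟩ := h q hq
      obtain ⟨r', hr', h2⟩ := h1 r le_rfl
      exact ⟨r', hr'.trans hr, h2⟩

instance : Membership P (RO P) where
  mem U p := p ∈ U.carrier

theorem mem_def {U : RO P} {p : P} : p ∈ U ↔ p ∈ U.carrier := Iff.rfl

theorem mem_iff {U : RO P} {p : P} : p ∈ U ↔ ∀ q ≤ p, ∃ r ≤ q, r ∈ U := U.reg p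

theorem ext' {U V : RO P} (h : ∀ p, p ∈ U ↔ p ∈ V) : U = V := RO.ext (Set.ext h)

theorem mem_cl {s : Set P} (hs : ∀ p q, q ≤ p → p ∈ s → q ∈ s) {p : P} :
    p ∈ cl s ↔ ∀ q ≤ p, ∃ r ≤ q, r ∈ s := by
  constructor
  · intro h q hq
    obtain ⟨r, hr, h1⟩ := h q hq
    exact ⟨r, hr, h1 r le_rfl⟩
  · intro h q hq
    obtain ⟨r, hr, h1⟩ := h q hq
    exact ⟨r, hr, fun t ht => hs r t ht h1⟩

instance : PartialOrder (RO P) where
  le U V := ∀ p, p ∈ U → p ∈ V
  le_refl _ _ h := h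
  le_trans _ _ _ h h' p hp := h' p (h p hp)
  le_antisymm _ _ h h' := ext' fun p => ⟨h p, h' p⟩

theorem le_def {U V : RO P} : U ≤ V ↔ ∀ p, p ∈ U → p ∈ V := Iff.rfl

/-- infimum -/
def sInf' (S : Set (RO P)) : RO P where
  carrier := {p | ∀ U ∈ S, p ∈ U}
  reg p := by
    constructor
    · intro h q hq
      exact ⟨q, le_rfl, fun U hU => U.down hq (h U hU)⟩
    · intro h U hU
      refine U.locally fun q hq => ?_
      obtain ⟨r, hr, h1⟩ := h q hq
      exact ⟨r, hr, h1 U hU⟩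

instance : InfSet (RO P) := ⟨sInf'⟩

instance instCL : CompleteLattice (RO P) :=
  { completeLatticeOfInf (RO P) fun S => ⟨fun _ hU _ hp => hp _ hU, fun _ hV _ hp U hU =>
      hV hU _ hp⟩ with
    inf := fun U V =>
      { carrier := {p | p ∈ U ∧ p ∈ V}
        reg := fun p => by
          constructor
          · rintro ⟨h1, h2⟩ q hq
            exact ⟨q, le_rfl, U.down hq h1, V.down hq h2⟩
          · intro h
            exact ⟨U.locally fun q hq => (h q hq).imp fun r hr => ⟨hr.1, hr.2.1⟩,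
              V.locally fun q hq => (h q hq).imp fun r hr => ⟨hr.1, hr.2.2⟩⟩ }
    inf_le_left := fun _ _ _ h => h.1
    inf_le_right := fun _ _ _ h => h.2
    le_inf := fun _ _ _ h h' p hp => ⟨h p hp, h' p hp⟩
    top := { carrier := Set.univ, reg := fun p => ⟨fun _ q _ => ⟨q, le_rfl, trivial⟩, fun _ => trivial⟩ }
    le_top := fun _ _ _ => trivial
    bot := { carrier := ∅, reg := fun p => ⟨fun h => h.elim, fun h => (h p le_rfl).choose_spec.2⟩ }
    bot_le := fun _ _ h => h.elim }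

@[simp] theorem mem_inf {U V : RO P} {p : P} : p ∈ U ⊓ V ↔ p ∈ U ∧ p ∈ V := Iff.rfl

@[simp] theorem mem_top {p : P} : p ∈ (⊤ : RO P) := trivial

@[simp] theorem not_mem_bot {p : P} : p ∉ (⊥ : RO P) := fun h => h

theorem mem_sInf {S : Set (RO P)} {p : P} : p ∈ sInf S ↔ ∀ U ∈ S, p ∈ U := Iff.rfl

@[simp] theorem mem_iInf {ι : Sort*} {U : ι → RO P} {p : P} : p ∈ ⨅ i, U i ↔ ∀ i, p ∈ U i := by
  rw [iInf, mem_sInf]
  simp

theorem mem_sSup {S : Set (RO P)} {p : P} :
    p ∈ sSup S ↔ ∀ q ≤ p, ∃ r ≤ q, ∃ U ∈ S, r ∈ U := by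
  constructor
  · intro h
    have h1 : sSup S ≤ cl {r | ∃ U ∈ S, r ∈ U} := by
      refine sSup_le fun U hU p hp => ?_
      exact fun q hq => ⟨q, le_rfl, fun t ht => ⟨U, hU, U.down (ht.trans hq) hp⟩⟩
    have h2 := h1 p h
    rw [mem_cl] at h2
    · exact h2
    · rintro p q hq ⟨U, hU, h3⟩
      exact ⟨U, hU, U.down hq h3⟩
  · intro h
    refine (sSup S).locally fun q hq => ?_
    obtain ⟨r, hr, U, hU, h1⟩ := h q hq
    exact ⟨r, hr, le_sSup hU r h1⟩

theorem mem_iSup {ι : Sort*} {U : ι → RO P} {p : P} :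
    p ∈ ⨆ i, U i ↔ ∀ q ≤ p, ∃ r ≤ q, ∃ i, r ∈ U i := by
  rw [iSup, mem_sSup]
  simp

theorem mem_sup {U V : RO P} {p : P} :
    p ∈ U ⊔ V ↔ ∀ q ≤ p, ∃ r ≤ q, r ∈ U ∨ r ∈ V := by
  rw [← sSup_pair, mem_sSup]
  simp

/-- complement -/
def compl' (U : RO P) : RO P where
  carrier := {p | ∀ q ≤ p, q ∉ U}
  reg p := by
    constructor
    · intro h q hq
      exact ⟨q, le_rfl, fun r hr => h r (hr.trans hq)⟩
    · intro h q hq hU
      obtain ⟨r, hr, h1⟩ := h q hq
      exact h1 r le_rfl (U.down hr hU)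

instance instDL : DistribLattice (RO P) :=
  { instCL with
    le_sup_inf := fun U V W p hp => by
      change p ∈ U ⊔ V ⊓ W
      have h1 : p ∈ U ⊔ V := hp.1
      have h2 : p ∈ U ⊔ W := hp.2
      rw [mem_sup] at h1 h2 ⊢
      intro q hq
      obtain ⟨r, hr, h | h⟩ := h1 q hq
      · exact ⟨r, hr, Or.inl h⟩
      obtain ⟨r', hr', h' | h'⟩ := h2 r (hr.trans hq)
      · exact ⟨r', hr'.trans hr, Or.inl h'⟩
      · exact ⟨r', hr'.trans hr, Or.inr ⟨V.down hr' h, h'⟩⟩ }

instance instBA : BooleanAlgebra (RO P) :=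
  { instDL, instCL with
    compl := compl'
    inf_compl_le_bot := fun U p hp => hp.2 p le_rfl hp.1
    top_le_sup_compl := fun U p _ => by
      change p ∈ U ⊔ compl' U
      rw [mem_sup]
      intro q _
      by_cases h : ∃ r ≤ q, r ∈ U
      · obtain ⟨r, hr, h⟩ := h
        exact ⟨r, hr, Or.inl h⟩
      · exact ⟨q, le_rfl, Or.inr fun r hr hU => h ⟨r, hr, hU⟩⟩ }

instance instCBA : CompleteBooleanAlgebra (RO P) :=
  { instCL, instBA with }

theorem mem_compl {U : RO P} {p : P} : p ∈ Uᶜ ↔ ∀ q ≤ p, q ∉ U := Iff.rfl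

theorem mem_chi {q : Prop} {p : P} : p ∈ (chi q : RO P) ↔ q := by
  unfold chi
  rw [mem_iSup]
  constructor
  · intro h
    obtain ⟨_, _, hq, _⟩ := h p le_rfl
    exact hq
  · intro hq r _
    exact ⟨r, le_rfl, hq, trivial⟩

/-- the regular open set of all conditions that force `p` into the generic filter -/
def up (p : P) : RO P := cl {q | q ≤ p}

theorem mem_up {p q : P} : q ∈ up p ↔ ∀ r ≤ q, ∃ t ≤ r, t ≤ p := by
  unfold up
  rw [mem_cl]
  · rfl
  · intro a b hb ha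
    exact hb.trans ha

theorem self_mem_up (p : P) : p ∈ up p := mem_up.2 fun r hr => ⟨r, le_rfl, hr⟩

theorem up_le {p : P} {U : RO P} : up p ≤ U ↔ p ∈ U := by
  constructor
  · intro h
    exact h p (self_mem_up p)
  · intro h q hq
    rw [mem_up] at hq
    refine U.locally fun r hr => ?_
    obtain ⟨t, ht, h1⟩ := hq r hr
    exact ⟨t, ht, U.down h1 h⟩

end RO

/-! ## Indestructible supercompact cardinals -/

/-- `κ` is a Laver indestructible supercompact cardinal: it is uncountable and for all `κ`-directed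
closed posets `Q` and all `X`, there is in `V^Q` a normal fine `κ`-complete ultrafilter on `P_κ(X)`.
(As `Q` is `κ`-closed, `P_κ(X)` is the same in `V` and in `V^Q`; a `Q`-name of an ultrafilter on it is
a map `U` as in `NormalU`.) -/
def LI (κ : Cardinal.{u}) : Prop :=
  Cardinal.aleph0 < κ ∧ ∀ (Q : Type u) [PartialOrder Q], DC κ Q → ∀ X : Type u,
    ∃ U : (Pk κ X → RO Q) → RO Q, NormalU κ X (RO Q) U

end STP
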