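import Pool.Agent.STP.Thr
import Pool.Agent.STP.RO

/-! # Ineffable threads: definitions

(problem MP_e44aae_lc, project STP, ITP extension, text `/team-store/ITPinf.md`; architect helper69; no sorry in this file) -/

universe u

namespace STP

open Cardinal

/-- nonempty chains with at most `ν` elements have least upper bounds -/
def ChSup (ν : Cardinal.{u}) (Λ : Type u) [Preorder Λ] : Prop :=
  ∀ s : Set Λ, s.Nonempty → IsChain (· ≤ ·) s → #s ≤ ν → ∃ d, IsLUB s d

/-- closed under least upper bounds of nonempty chains with at most `ν` elements -/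
def Cld (ν : Cardinal.{u}) {Λ : Type u} [Preorder Λ] (D : Set Λ) : Prop :=
  ∀ s : Set Λ, s ⊆ D → s.Nonempty → IsChain (· ≤ ·) s → #s ≤ ν → ∀ d, IsLUB s d → d ∈ D

/-- closed and cofinal subsets -/
structure Club (ν : Cardinal.{u}) {Λ : Type u} [Preorder Λ] (D : Set Λ) : Prop where
  cof : ∀ a, ∃ b ∈ D, a ≤ b
  cld : Cld ν D

section

variable {P : Type u} [Preorder P] {Λ : Type u} [Preorder Λ] {N : Type u}

/-- `o` is a node at every level -/
def Sys.Top (S : Sys P Λ N) (o : N) : Prop := ∀ p a, S.rel p a a o o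

/-- continuity of a system at least upper bounds of chains -/
def Sys.Cnt (ν : Cardinal.{u}) (S : Sys P Λ N) : Prop :=
  ∀ s : Set Λ, s.Nonempty → IsChain (· ≤ ·) s → #s ≤ ν → ∀ d, IsLUB s d →
    ∀ (p : P) (ζ ζ' : N),
      (∀ a ∈ s, ∀ p' ≤ p, ∃ q ≤ p', ∃ ξ, S.rel q a d ξ ζ ∧ S.rel q a d ξ ζ') →
      ∀ p' ≤ p, ∃ q ≤ p', ∃ η, S.rel q d d η ζ ∧ S.rel q d d η ζ'

/-- the thread `th` is (below `p`) equal to `o` at the points of a stationary set -/
def Inef (ν : Cardinal.{u}) (p : P) (th : P → Λ → N → Prop) (o : N) : Prop :=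
  ∀ D : Set Λ, Club ν D → ∀ p' ≤ p, ∃ q ≤ p', ∃ a ∈ D, th q a o

end

/-- Below `pstar`, the forcing `P` adds ineffable threads to all continuous inverse systems with node set `N` and
a distinguished node at every level, over ground model preorders in which sets of at most `|N|` elements are bounded and
nonempty chains with at most `|N|` elements have least upper bounds. -/
def IThreads (P : Type u) [Preorder P] (N : Type u) (pstar : P) : Prop :=
  ∀ (Λ : Type u) [Preorder Λ], Dir #N Λ → ChSup #N Λ → ∀ (S : Sys P Λ N) (o : N), S.Top o →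
    S.Cnt #N → ∀ p0 ≤ pstar, ∃ p ≤ p0, ∃ th, IsThr S.rel p th ∧ Inef #N p th o

/-- The data of the narrow system with top nodes. `U` is a normal ultrafilter on `P_κ(Y)` in `V^P`, `iΛ : Λ → Y`, `S m` are systems
over `T m × P` on `Λ`, `o m` top nodes, `tm m` conditions, `N0` a set of nodes. For `u : Pk κ Y`, `F u` is a disjoint family of truth
values (a name of an element of `E u`). -/
structure TopD {κ : Cardinal.{u}} {P Λ N Mi Y : Type u} [Preorder P] [Preorder Λ] {T : Mi → Type u}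
    [∀ m, Preorder (T m)] (iΛ : Λ → Y) (S : ∀ m, Sys (T m × P) Λ N) (o : Mi → N)
    (tm : ∀ m, T m) (N0 : Set N) (E : Pk κ Y → Type u) (F : ∀ u, E u → RO P)
    (A : ∀ u, E u → Λ → Prop) (m : Pk κ Y → Mi) (ρ : ∀ u, E u → T (m u))
    (z : ∀ u, E u → Λ → N) (d : Pk κ Y → Λ) : Prop where
  dis : ∀ u e e', e ≠ e' → F u e ⊓ F u e' = ⊥
  mem : ∀ u e a, A u e a → iΛ a ∈ u.1
  lub : ∀ u, (∃ b, IsLUB {a | iΛ a ∈ u.1} b) → IsLUB {a | iΛ a ∈ u.1} (d u)
  le : ∀ u e, ρ u e ≤ tm (m u)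
  nar : ∀ u e a, A u e a → z u e a ∈ N0
  top : ∀ u e a, A u e a → ∀ q ∈ F u e,
    (S (m u)).rel (ρ u e, q) a (d u) (z u e a) (o (m u))

/-- the truth value at `u` of: the level `a` is in the narrow system -/
noncomputable def TopD.Z {κ : Cardinal.{u}} {P Λ Y : Type u} [Preorder P] {E : Pk κ Y → Type u}
    (F : ∀ u, E u → RO P) (A : ∀ u, E u → Λ → Prop) (a : Λ) (u : Pk κ Y) : RO P :=
  ⨆ e, ⨆ _ : A u e a, F u e

/-- the truth value at `u` of: the level `a` is in the narrow system, and some `t ≤ ρ` satisfies `X t z` -/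
noncomputable def TopD.TT {κ : Cardinal.{u}} {P Λ N Mi Y : Type u} [Preorder P]
    {T : Mi → Type u} [∀ m, Preorder (T m)] {E : Pk κ Y → Type u}
    (F : ∀ u, E u → RO P) (A : ∀ u, E u → Λ → Prop) (m : Pk κ Y → Mi)
    (ρ : ∀ u, E u → T (m u)) (z : ∀ u, E u → Λ → N) (a : Λ)
    (X : ∀ m, T m → N → RO P) (u : Pk κ Y) : RO P :=
  ⨆ e, ⨆ _ : A u e a, ⨆ t, ⨆ _ : t ≤ ρ u e, F u e ⊓ X (m u) t (z u e a)

/-- A family of threads `th m b`, `b : B m`, of the systems `S m`, below `(tb m b, (q1, lb m b))`. `XX .. a m t ξ` is the set of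
conditions which force that no member of the family with index `m` agrees (below `t`) with the node `ξ` at `a`. -/
def XX {Q L Λ N Mi : Type u} [Preorder Q] [Preorder L] {T : Mi → Type u} [∀ m, Preorder (T m)]
    {B : Mi → Type u} (tb : ∀ m, B m → T m) (lb : ∀ m, B m → L)
    (th : ∀ m, B m → T m × (Q × L) → Λ → N → Prop) (a : Λ) (m : Mi) (t : T m) (ξ : N) :
    RO (Q × L) :=
  RO.cl {x | ∀ b : B m, ∀ t' ≤ t, t' ≤ tb m b → ∀ x' ≤ x, x'.2 ≤ lb m b →
    ¬ th m b (t', x') a ξ}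

theorem mem_XX {Q L Λ N Mi : Type u} [Preorder Q] [Preorder L] {T : Mi → Type u}
    [∀ m, Preorder (T m)] {B : Mi → Type u} {tb : ∀ m, B m → T m} {lb : ∀ m, B m → L}
    {th : ∀ m, B m → T m × (Q × L) → Λ → N → Prop}
    (hth : ∀ m b p q a ξ, q ≤ p → th m b p a ξ → th m b q a ξ) {a : Λ} {m : Mi} {t : T m} {ξ : N}
    {x : Q × L} : x ∈ XX tb lb th a m t ξ ↔ ∀ b : B m, ∀ t' ≤ t, t' ≤ tb m b → ∀ x' ≤ x,
      x'.2 ≤ lb m b → ¬ th m b (t', x') a ξ := by
  unfold XX
  rw [RO.mem_cl]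
  · constructor
    · intro h b t' ht ht' x' hx' hl h1
      obtain ⟨r, hr, h2⟩ := h x' hx'
      exact h2 b t' ht ht' r le_rfl (hr.2.trans hl)
        (hth m b (t', x') (t', r) a ξ ⟨le_rfl, hr⟩ h1)
    · intro h q hq
      exact ⟨q, le_rfl, fun b t' ht ht' x' hx' => h b t' ht ht' x' (hx'.trans hq)⟩
  · intro p q hq h b t' ht ht' x' hx'
    exact h b t' ht ht' x' (hx'.trans hq)

end STP
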