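import Pool.Agent.STP.BF
import Pool.Agent.STP.IDef

/-! # The interface for ITP

(problem MP_e44aae_lc, project STP, ITP extension; definition, no sorry in this file)

`BFI P pstar γ ν`: the facts `BF` with ineffable threads instead of threads. -/

universe u

namespace STP

open Cardinal

/-- the facts about one block which are used in the construction of the model of ITP -/
structure BFI (P : Type u) [PartialOrder P] (pstar : P) (γ ν : Cardinal.{u}) : Prop where
  inf : ℵ₀ ≤ γ
  lt : γ < ν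
  bdd : BddP P γ
  bddS : BddP P (Order.succ ν)
  seq : ∃ k : γ.ord.ToType → Cardinal.{u}, (∀ i j, i < j → k i < k j) ∧ (∀ i, ℵ₀ ≤ k i) ∧
    (∀ i, k i < ν) ∧ (∀ c < ν, ∃ i, c < k i) ∧ ∀ i, BddP P (k i)
  cand : ∃ D : Set Cardinal.{u},
    (∀ c, ℵ₀ ≤ c → c < ν → c ∉ D → ∃ a < c, OntoN P pstar a.out c.out) ∧
    ∀ c < ν, ∃ A : Type u, #A < γ ∧ Nonempty ({d // d ∈ D ∧ d < c} ↪ A)
  thr : IThreads P ν.ord.ToType pstar

end STP
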