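import Mathlib

/-! # Boolean valued sets: definitions

(problem MP_e44aae_lc, project STP; no sorry in this file) -/

universe u

namespace STP

/-- `B`-valued sets -/
inductive BSet (B : Type u) : Type (u + 1)
  | mk (α : Type u) (A : α → BSet B) (φ : α → B) : BSet B

namespace BSet

variable {B : Type u}

/-- the index type of a `B`-valued set -/
def ty : BSet B → Type u
  | ⟨α, _, _⟩ => α

/-- the possible elements -/
def fn : (x : BSet B) → x.ty → BSet B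
  | ⟨_, A, _⟩ => A

/-- their truth values -/
def vl : (x : BSet B) → x.ty → B
  | ⟨_, _, φ⟩ => φ

variable [CompleteBooleanAlgebra B]

/-- the truth value of `x = y` -/
def eq : BSet B → BSet B → B
  | ⟨α, A, φ⟩, ⟨β, C, ψ⟩ =>
    (⨅ a : α, φ a ⇨ ⨆ b : β, ψ b ⊓ eq (A a) (C b)) ⊓ ⨅ b : β, ψ b ⇨ ⨆ a : α, φ a ⊓ eq (A a) (C b)

/-- the truth value of `x ∈ y` -/
def mem (x : BSet B) (y : BSet B) : B := ⨆ b : y.ty, y.vl b ⊓ eq x (y.fn b)

theorem eq_mk (α : Type u) (A : α → BSet B) (φ : α → B) (β : Type u) (C : β → BSet B)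
    (ψ : β → B) : eq (mk α A φ) (mk β C ψ) =
      (⨅ a : α, φ a ⇨ ⨆ b : β, ψ b ⊓ eq (A a) (C b)) ⊓
        ⨅ b : β, ψ b ⇨ ⨆ a : α, φ a ⊓ eq (A a) (C b) := by
  rw [eq]

theorem mem_mk (x : BSet B) (β : Type u) (C : β → BSet B) (ψ : β → B) :
    mem x (mk β C ψ) = ⨆ b : β, ψ b ⊓ eq x (C b) := rfl

end BSet

end STP
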