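import Mathlib

/-! # First order formulas of set theory, models of ZFC (definitions)

(problem MP_e44aae_lc, project STP; no sorry in this file)

De Bruijn style: the variables are `0, 1, 2, ...`, a quantifier binds the variable `0` and shifts the others. -/

universe v

namespace STP

/-- First order formulas of the language of set theory. -/
inductive Fml : Type
  /-- `x_i ∈ x_j` -/
  | mem (i j : ℕ) : Fml
  /-- `x_i = x_j` -/
  | eq (i j : ℕ) : Fml
  /-- falsum -/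
  | bot : Fml
  /-- implication -/
  | imp (φ ψ : Fml) : Fml
  /-- `∀ x_0, φ` -/
  | all (φ : Fml) : Fml

/-- the assignment `x, v 0, v 1, ...` -/
def cns {X : Type v} (x : X) (v : ℕ → X) : ℕ → X
  | 0 => x
  | n + 1 => v n

@[simp] theorem cns_zero {X : Type v} (x : X) (v : ℕ → X) : cns x v 0 = x := rfl

@[simp] theorem cns_succ {X : Type v} (x : X) (v : ℕ → X) (n : ℕ) : cns x v (n + 1) = v n := rfl

@[simp] theorem cns_one {X : Type v} (x : X) (v : ℕ → X) : cns x v 1 = v 0 := rfl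

/-- Satisfaction in the structure `(N, E)`. -/
def sat {N : Type v} (E : N → N → Prop) : Fml → (ℕ → N) → Prop
  | .mem i j, v => E (v i) (v j)
  | .eq i j, v => v i = v j
  | .bot, _ => False
  | .imp φ ψ, v => sat E φ v → sat E ψ v
  | .all φ, v => ∀ x, sat E φ (cns x v)

namespace Fml

/-- negation -/
def no (φ : Fml) : Fml := .imp φ .bot
/-- disjunction -/
def or (φ ψ : Fml) : Fml := .imp (no φ) ψ
/-- conjunction -/
def an (φ ψ : Fml) : Fml := no (.imp φ (no ψ))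
/-- equivalence -/
def iff (φ ψ : Fml) : Fml := an (.imp φ ψ) (.imp ψ φ)
/-- existential quantifier -/
def ex (φ : Fml) : Fml := no (.all (no φ))

end Fml

section

variable {N : Type v} {E : N → N → Prop} {v : ℕ → N}

@[simp] theorem sat_mem {i j : ℕ} : sat E (.mem i j) v ↔ E (v i) (v j) := Iff.rfl

@[simp] theorem sat_eq {i j : ℕ} : sat E (.eq i j) v ↔ v i = v j := Iff.rfl

@[simp] theorem sat_bot : sat E .bot v ↔ False := Iff.rfl

@[simp] theorem sat_imp {φ ψ : Fml} : sat E (.imp φ ψ) v ↔ (sat E φ v → sat E ψ v) := Iff.rfl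

@[simp] theorem sat_all {φ : Fml} : sat E (.all φ) v ↔ ∀ x, sat E φ (cns x v) := Iff.rfl

@[simp] theorem sat_no {φ : Fml} : sat E φ.no v ↔ ¬ sat E φ v := Iff.rfl

@[simp] theorem sat_or {φ ψ : Fml} : sat E (φ.or ψ) v ↔ (sat E φ v ∨ sat E ψ v) := by
  change (¬ sat E φ v → sat E ψ v) ↔ _
  tauto

@[simp] theorem sat_an {φ ψ : Fml} : sat E (φ.an ψ) v ↔ (sat E φ v ∧ sat E ψ v) := by
  change ¬ (sat E φ v → ¬ sat E ψ v) ↔ _
  tauto

@[simp] theorem sat_iff {φ ψ : Fml} : sat E (φ.iff ψ) v ↔ (sat E φ v ↔ sat E ψ v) := by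
  unfold Fml.iff
  rw [sat_an, sat_imp, sat_imp]
  tauto

@[simp] theorem sat_ex {φ : Fml} : sat E φ.ex v ↔ ∃ x, sat E φ (cns x v) := by
  change ¬ (∀ x, ¬ sat E φ (cns x v)) ↔ _
  push Not
  rfl

end

/-- `(N, E)` is a model of the Zermelo-Fraenkel axioms with the axiom of choice. -/
structure ZFC {N : Type v} (E : N → N → Prop) : Prop where
  ext : ∀ x y, (∀ z, E z x ↔ E z y) → x = y
  found : ∀ x, (∃ y, E y x) → ∃ y, E y x ∧ ∀ z, E z x → ¬ E z y
  pair : ∀ x y, ∃ z, ∀ w, E w z ↔ w = x ∨ w = y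
  union : ∀ x, ∃ y, ∀ z, E z y ↔ ∃ w, E w x ∧ E z w
  power : ∀ x, ∃ y, ∀ z, E z y ↔ ∀ w, E w z → E w x
  infinity : ∃ x, (∃ y, E y x ∧ ∀ z, ¬ E z y) ∧
    ∀ y, E y x → ∃ z, E z x ∧ ∀ w, E w z ↔ E w y ∨ w = y
  separation : ∀ (φ : Fml) (v : ℕ → N) (x : N), ∃ y, ∀ z, E z y ↔ E z x ∧ sat E φ (cns z v)
  replacement : ∀ (φ : Fml) (v : ℕ → N) (x : N),
    (∀ z, E z x → ∃! w, sat E φ (cns w (cns z v))) →
      ∃ y, ∀ w, E w y ↔ ∃ z, E z x ∧ sat E φ (cns w (cns z v))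
  choice : ∀ x, (∀ y, E y x → ∃ z, E z y) →
    (∀ y z, E y x → E z x → y ≠ z → ¬ ∃ w, E w y ∧ E w z) →
      ∃ c, ∀ y, E y x → ∃! z, E z c ∧ E z y

end STP
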