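import Pool.Agent.STP.BMix
import Pool.Agent.STP.Fml

/-! # Boolean values of formulas, ultrafilters and the theorem of Los (package M03)

(problem MP_e44aae_lc, project STP)

* `bval_congr`: induction on `φ`. `mem`: `mem_congr_left`, `mem_congr_right`. `eq`: `eq_trans`, `eq_symm`. `imp`: `b ⊓ (bval φ v ⇨ bval ψ v) ≤ bval φ w ⇨ bval ψ w`, using the symmetric family for `φ`. `all`: for each `x`, `⨅ i, eq (cns x v i) (cns x w i) = ⨅ i, eq (v i) (w i)`
  (`eq x x = ⊤`), so `b ⊓ ⨅ x, bval φ (cns x v) ≤ bval φ (cns x w)` for each `x`.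
* `bval_ext`: `fun x => bval φ (cns x v)` is extensional.
* `Ult.exists_mem`: an ultrafilter containing a given `b ≠ ⊥`: the prime ideal theorem (`DistribLattice.prime_ideal_of_disjoint_filter_ideal` with the principal filter of `b` and the ideal `⊥`), or Zorn.
* `NG G`: the quotient of `BSet B` by `eq x y ∈ G`; `EG G` the induced membership (well defined by the congruence lemmas).
* `los`: induction on `φ`. `imp`: `a ⇨ b ∈ G ↔ (a ∈ G → b ∈ G)`. `all`: `→`: if `⨅ x, bval φ (cns x v) ∉ G` then its complement `⨆ x, (bval φ (cns x v))ᶜ ∈ G`, by `full` some `x` attains it, so `bval φ (cns x v) ∉ G`. `←`: `le`. (every element of `NG G` is some `mk x`.)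
* `mem_of_all`: `c ≤ b` if every ultrafilter containing `c` contains `b` (apply `exists_mem` to `c ⊓ bᶜ`). -/

universe u

namespace STP

open BSet

variable {B : Type u} [CompleteBooleanAlgebra B]

/-- the Boolean value of a formula -/
def bval : Fml → (ℕ → BSet B) → B
  | .mem i j, v => mem (v i) (v j)
  | .eq i j, v => eq (v i) (v j)
  | .bot, _ => ⊥
  | .imp φ ψ, v => bval φ v ⇨ bval ψ v
  | .all φ, v => ⨅ x, bval φ (cns x v)

theorem bval_congr (φ : Fml) (v w : ℕ → BSet B) :
    (⨅ i, eq (v i) (w i)) ⊓ bval φ v ≤ bval φ w := by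
  induction φ generalizing v w with
  | mem i j =>
    have h1 : (⨅ i, eq (v i) (w i)) ⊓ mem (v i) (v j) ≤ mem (w i) (v j) :=
      (inf_le_inf_right _ (iInf_le _ i)).trans (mem_congr_left _ _ _)
    have h2 : (⨅ i, eq (v i) (w i)) ⊓ mem (w i) (v j) ≤ mem (w i) (w j) :=
      (inf_le_inf_right _ (iInf_le _ j)).trans (mem_congr_right _ _ _)
    exact (le_inf inf_le_left h1).trans h2
  | eq i j =>
    have h1 : (⨅ i, BSet.eq (v i) (w i)) ⊓ BSet.eq (v i) (v j) ≤ BSet.eq (w i) (v j) := by
      refine (inf_le_inf_right _ (iInf_le _ i)).trans ?_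
      rw [eq_symm (v i) (w i)]
      exact eq_trans _ _ _
    have h2 : (⨅ i, BSet.eq (v i) (w i)) ⊓ BSet.eq (w i) (v j) ≤ BSet.eq (w i) (w j) := by
      refine (inf_le_inf_right _ (iInf_le _ j)).trans ?_
      rw [inf_comm]
      exact eq_trans _ _ _
    exact (le_inf inf_le_left h1).trans h2
  | bot => exact inf_le_right
  | imp φ ψ h1 h2 =>
    change (⨅ i, eq (v i) (w i)) ⊓ (bval φ v ⇨ bval ψ v) ≤ bval φ w ⇨ bval ψ w
    rw [le_himp_iff]
    have h3 : (⨅ i, eq (v i) (w i)) ⊓ bval φ w ≤ bval φ v := by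
      refine le_trans (inf_le_inf_right _ ?_) (h1 w v)
      exact le_iInf fun i => (iInf_le _ i).trans (eq_symm _ _).le
    refine le_trans (le_inf (inf_le_left.trans inf_le_left) ?_) (h2 v w)
    refine le_trans (le_inf (inf_le_left.trans inf_le_right) ?_) himp_inf_le
    exact le_trans (le_inf (inf_le_left.trans inf_le_left) inf_le_right) h3
  | all φ h1 =>
    change (⨅ i, eq (v i) (w i)) ⊓ (⨅ x, bval φ (cns x v)) ≤ ⨅ x, bval φ (cns x w)
    refine le_iInf fun x => ?_
    refine le_trans (inf_le_inf ?_ (iInf_le _ x)) (h1 (cns x v) (cns x w))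
    refine le_iInf fun i => ?_
    cases i with
    | zero => exact le_top.trans (eq_refl x).ge
    | succ i => exact iInf_le _ i

theorem bval_ext (φ : Fml) (v : ℕ → BSet B) : Ext fun x => bval φ (cns x v) := by
  intro x y
  refine le_trans (inf_le_inf_right _ ?_) (bval_congr φ (cns x v) (cns y v))
  refine le_iInf fun i => ?_
  cases i with
  | zero => exact le_rfl
  | succ i => exact le_top.trans (eq_refl (v i)).ge

theorem bval_no (φ : Fml) (v : ℕ → BSet B) : bval φ.no v = (bval φ v)ᶜ := by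
  exact himp_bot _

theorem bval_an (φ ψ : Fml) (v : ℕ → BSet B) : bval (φ.an ψ) v = bval φ v ⊓ bval ψ v := by
  change ((bval φ v ⇨ (bval ψ v ⇨ ⊥)) ⇨ ⊥) = _
  rw [himp_bot, himp_bot, himp_eq, compl_sup, compl_compl, compl_compl, inf_comm]

theorem bval_ex (φ : Fml) (v : ℕ → BSet B) : bval φ.ex v = ⨆ x, bval φ (cns x v) := by
  change ((⨅ x, (bval φ (cns x v) ⇨ ⊥)) ⇨ ⊥) = _
  rw [himp_bot, compl_iInf]
  refine iSup_congr fun x => ?_
  rw [himp_bot, compl_compl]

/-- ultrafilters on a Boolean algebra -/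
structure Ult (B : Type u) [BooleanAlgebra B] : Type u where
  /-- the set of elements -/
  s : Set B
  top : ⊤ ∈ s
  bot : ⊥ ∉ s
  inf : ∀ {a b}, a ∈ s → b ∈ s → a ⊓ b ∈ s
  up : ∀ {a b}, a ∈ s → a ≤ b → b ∈ s
  dec : ∀ a, a ∈ s ∨ aᶜ ∈ s

theorem Ult.exists_mem {b : B} (hb : b ≠ ⊥) : ∃ G : Ult B, b ∈ G.s := by
  have hd : Disjoint (Order.PFilter.principal b : Set B)
      (Order.Ideal.principal (⊥ : B) : Set B) := by
    rw [Set.disjoint_left]
    intro x hx hx'
    have h1 : b ≤ x := Order.PFilter.mem_principal.1 hx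
    have h2 : x ≤ ⊥ := Order.Ideal.mem_principal.1 hx'
    exact hb (le_bot_iff.1 (h1.trans h2))
  obtain ⟨J, hJ, -, hJd⟩ := DistribLattice.prime_ideal_of_disjoint_filter_ideal hd
  have htop : (⊤ : B) ∉ J := fun h => by
    have h1 := hJ.toIsProper.ne_univ
    exact h1 (Set.eq_univ_of_forall fun x => J.lower le_top h)
  refine ⟨⟨(J : Set B)ᶜ, htop, fun h => h (Order.Ideal.bot_mem J), ?_, ?_, ?_⟩, ?_⟩
  · intro a c ha hc h
    rcases hJ.mem_or_mem h with h1 | h1
    · exact ha h1
    · exact hc h1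
  · intro a c ha hac h
    exact ha (J.lower hac h)
  · intro a
    by_contra hcon
    push Not at hcon
    have h1 : a ∈ J := not_not.1 hcon.1
    have h2 : aᶜ ∈ J := not_not.1 hcon.2
    have h3 := Order.Ideal.sup_mem h1 h2
    rw [sup_compl_eq_top] at h3
    exact htop h3
  · intro h
    exact (Set.disjoint_left.1 hJd) (Order.PFilter.mem_principal.2 le_rfl) h

theorem Ult.mem_of_all {b c : B} (h : ∀ G : Ult B, c ∈ G.s → b ∈ G.s) : c ≤ b := by
  by_contra hcon
  have h1 : c ⊓ bᶜ ≠ ⊥ := by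
    rw [← sdiff_eq]
    intro h2
    exact hcon (sdiff_eq_bot_iff.1 h2)
  obtain ⟨G, hG⟩ := Ult.exists_mem h1
  have h2 := h G (G.up hG inf_le_left)
  have h3 := G.inf h2 (G.up hG inf_le_right)
  rw [inf_compl_eq_bot] at h3
  exact G.bot h3

/-- equality modulo an ultrafilter -/
def Ult.setoid (G : Ult B) : Setoid (BSet B) where
  r x y := eq x y ∈ G.s
  iseqv := ⟨fun x => by rw [eq_refl]; exact G.top, fun {x y} h => by rwa [eq_symm],
    fun {x y z} h h' => G.up (G.inf h h') (eq_trans x y z)⟩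

/-- the quotient of the Boolean valued universe by an ultrafilter -/
def NG (G : Ult B) : Type (u + 1) := Quotient G.setoid

/-- the class of a name -/
def NG.mk (G : Ult B) (x : BSet B) : NG G := Quotient.mk G.setoid x

theorem NG.mk_eq {G : Ult B} {x y : BSet B} : NG.mk G x = NG.mk G y ↔ eq x y ∈ G.s := by
  exact Quotient.eq (r := G.setoid)

theorem NG.exists_rep {G : Ult B} (a : NG G) : ∃ x, NG.mk G x = a := by
  exact Quotient.exists_rep a

/-- membership in the quotient -/
def EG (G : Ult B) (a b : NG G) : Prop :=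
  ∃ x y, NG.mk G x = a ∧ NG.mk G y = b ∧ mem x y ∈ G.s

theorem EG_mk {G : Ult B} {x y : BSet B} : EG G (NG.mk G x) (NG.mk G y) ↔ mem x y ∈ G.s := by
  constructor
  · rintro ⟨x', y', hx, hy, h⟩
    have h1 : mem x y' ∈ G.s := G.up (G.inf (NG.mk_eq.1 hx) h) (mem_congr_left _ _ _)
    exact G.up (G.inf (NG.mk_eq.1 hy) h1) (mem_congr_right _ _ _)
  · intro h
    exact ⟨x, y, rfl, rfl, h⟩

/-- the theorem of Los -/
theorem los (G : Ult B) (φ : Fml) (v : ℕ → BSet B) :
    sat (EG G) φ (fun i => NG.mk G (v i)) ↔ bval φ v ∈ G.s := by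
  induction φ generalizing v with
  | mem i j => exact EG_mk
  | eq i j => exact NG.mk_eq
  | bot => exact ⟨fun h => h.elim, fun h => G.bot h⟩
  | imp φ ψ h1 h2 =>
    change (sat (EG G) φ _ → sat (EG G) ψ _) ↔ (bval φ v ⇨ bval ψ v) ∈ G.s
    rw [h1, h2]
    constructor
    · intro h
      rcases G.dec (bval φ v) with h3 | h3
      · exact G.up (h h3) le_himp
      · refine G.up h3 ?_
        rw [himp_eq]
        exact le_sup_right
    · intro h h3
      exact G.up (G.inf h h3) himp_inf_le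
  | all φ h1 =>
    have hc : ∀ x, sat (EG G) φ (cns (NG.mk G x) fun i => NG.mk G (v i)) ↔
        bval φ (cns x v) ∈ G.s := by
      intro x
      rw [← h1 (cns x v)]
      have h2 : (cns (NG.mk G x) fun i => NG.mk G (v i)) = fun i => NG.mk G (cns x v i) := by
        funext i
        cases i <;> rfl
      rw [h2]
    change (∀ a, sat (EG G) φ (cns a fun i => NG.mk G (v i))) ↔ (⨅ x, bval φ (cns x v)) ∈ G.s
    constructor
    · intro h
      rcases G.dec (⨅ x, bval φ (cns x v)) with h3 | h3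
      · exact h3
      · exfalso
        rw [compl_iInf] at h3
        obtain ⟨x, hx⟩ := full (bval_ext φ.no v)
        have h4 : (⨆ y, bval φ.no (cns y v)) = ⨆ y, (bval φ (cns y v))ᶜ :=
          iSup_congr fun y => bval_no φ _
        have hx' : (bval φ (cns x v))ᶜ = ⨆ y, (bval φ (cns y v))ᶜ := by
          rw [← h4, ← bval_no]
          exact hx
        rw [← hx'] at h3
        have h5 := G.inf ((hc x).1 (h _)) h3
        rw [inf_compl_eq_bot] at h5
        exact G.bot h5
    · intro h a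
      obtain ⟨x, rfl⟩ := NG.exists_rep a
      exact (hc x).2 (G.up h (iInf_le _ x))

end STP
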