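import Pool.Agent.STP.Germ

/-! # Germs: closure relative to the projection (package S22)

(problem MP_e44aae_lc, project STP)

Text, section 7, (CL). `x = (c, q)`.
* `loc_ae`: almost every `u` satisfies: if `iX y ∈ u` and `¬ r y z` then `iX z ∈ u` (`NormalU.clos` with `G w := {iX z | ∃ y, iX y = w ∧ ¬ r y z}`, fewer than `κ` elements since `iX` is injective).
* `clq_union`: the merge lemma. Let `c : Clq`, `s` a set of conditions that is directed, of size `≤ succ χ`, each `e ∈ s` with trace `{y ∈ e.s | iX y ∈ u} ⊆ c.s`, `iX '' c.s ⊆ u`, and `u` as in `loc_ae`. Then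
  `c.s ∪ ⋃ e ∈ s, e.s` is (the set of) a condition `t`, with trace `c.s`. Clique: `y, z ∈ c.s` clear; `y ∈ c.s`, `z ∈ e.s`: if `iX z ∈ u` then `z ∈ c.s`; otherwise `r y z` by `loc_ae` (contrapositive) and
  `r z y` by symmetry; `y ∈ e.s`, `z ∈ e'.s`: both in a common `e''.s`. Size: at most `succ χ` sets of size at most `succ χ`.
* `germ_CL`: for each `u` let `F u` be `Nm.comb` of the names `d.F u` (`d ∈ D`, `#D < succ (succ χ) < κ`, `Q1` is `DC κ`) with the function `φ f :=` the condition with set `c.s ∪ ⋃ d, (f d).s` if there is one, else `c`.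
  `hc` and `g ≤ d`: the following hold at almost all `u` (`NormalU.mem_inf`, `complete_inf` over `D` and `D × D`, `q ≤ d.q` and `RO.down`): `iX '' c.s ⊆ u` (`small`), `loc_ae`, `ptr iX (d.F u) u d.c` for `d ∈ D`,
  and for all `d, d' ∈ D`, with a chosen `d'' ∈ D`, `d'' ≤ d, d'`: `nle (d''.F u) (d.F u)`, `nle (d''.F u) (d'.F u)`. Let `q' ≤ q` be in all of these values at `u`; by `dist` and uniqueness of values there are `t ≤ q'`, `f` with
  `t ∈ (d.F u).v (f d)` for all `d`, and then `{y ∈ (f d).s | iX y ∈ u} = d.c.s ⊆ c.s` and `f d'' ≤ f d, f d'`. By `clq_union` `φ f` has the set `c.s ∪ ⋃ d, (f d).s`, so `t ∈ (F u).v (φ f)`, the trace is `c.s`, `φ f ≤ f d`. Use `ae_mono`. -/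

universe u

namespace STP

open Cardinal

variable {κ χ : Cardinal.{u}} {Q1 X Y : Type u} {r : X → X → Prop}

theorem loc_ae {B : Type u} [CompleteBooleanAlgebra B] {U : (Pk κ Y → B) → B}
    (hU : NormalU κ Y B U) (iX : X → Y) (hiX : Function.Injective iX)
    (hloc : ∀ x, #{y | ¬ r x y} < κ) :
    U (fun u => chi (∀ y z, iX y ∈ u.1 → ¬ r y z → iX z ∈ u.1)) = ⊤ := by
  by_cases hκ : κ = 0
  · have he : IsEmpty (Pk κ Y) := ⟨fun u => not_lt_bot (a := #u.1) (lt_of_lt_of_eq u.2 hκ)⟩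
    rw [← hU.const (⊤ : B)]
    congr 1
    funext u
    exact he.elim u
  · have hpos : 0 < κ := pos_iff_ne_zero.2 hκ
    have h := hU.clos (fun w => {v | ∃ y z, iX y = w ∧ ¬ r y z ∧ iX z = v}) (by
      intro w
      by_cases hw : ∃ y, iX y = w
      · obtain ⟨y, rfl⟩ := hw
        have h1 : {v | ∃ y' z, iX y' = iX y ∧ ¬ r y' z ∧ iX z = v} ⊆ iX '' {z | ¬ r y z} := by
          rintro v ⟨y', z, h1, h2, rfl⟩
          have h3 := hiX h1
          subst h3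
          exact ⟨z, h2, rfl⟩
        exact (Cardinal.mk_le_mk_of_subset h1).trans_lt (Cardinal.mk_image_le.trans_lt (hloc y))
      · have h1 : {v | ∃ y z, iX y = w ∧ ¬ r y z ∧ iX z = v} = (∅ : Set Y) := by
          ext v
          constructor
          · rintro ⟨y, z, h1, -⟩
            exact (hw ⟨y, h1⟩).elim
          · exact fun h2 => h2.elim
        rw [h1, Cardinal.mk_eq_zero]
        exact hpos)
    rw [← h]
    congr 1
    funext u
    congr 1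
    apply propext
    constructor
    · rintro h1 x hx v ⟨y, z, rfl, h2, rfl⟩
      exact h1 y z hx h2
    · intro h1 y z hy hyz
      exact h1 (iX y) hy ⟨y, z, rfl, hyz, rfl⟩

theorem clq_union (hχ : ℵ₀ ≤ χ) (hr : ∀ x y, r x y → r y x) (iX : X → Y) (u : Set Y)
    (hu : ∀ y z, iX y ∈ u → ¬ r y z → iX z ∈ u) (c : Clq X r (Order.succ (Order.succ χ)))
    (hc : ∀ x ∈ c.s, iX x ∈ u) {D : Type u} (hD : #D ≤ Order.succ χ)
    (f : D → Clq X r (Order.succ (Order.succ χ)))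
    (hf : ∀ d, ∀ x ∈ (f d).s, iX x ∈ u → x ∈ c.s)
    (hdir : ∀ d d', ∃ d'', f d'' ≤ f d ∧ f d'' ≤ f d') :
    ∃ t : Clq X r (Order.succ (Order.succ χ)), t.s = c.s ∪ ⋃ d, (f d).s ∧
      {x | x ∈ t.s ∧ iX x ∈ u} = c.s := by
  have hχ' : ℵ₀ ≤ Order.succ χ := hχ.trans (Order.le_succ χ)
  have hmix : ∀ x ∈ c.s, ∀ d, ∀ y ∈ (f d).s, r x y := by
    intro x hx d y hy
    by_cases h : iX y ∈ u
    · exact c.cl x hx y (hf d y hy h)
    · by_contra h2
      exact h (hu x y (hc x hx) h2)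
  have hcard : #↥(c.s ∪ ⋃ d, (f d).s) < Order.succ (Order.succ χ) := by
    rw [Order.lt_succ_iff]
    have h1 : #↥(⋃ d, (f d).s) ≤ Order.succ χ := by
      refine (Cardinal.mk_iUnion_le_sum_mk).trans ?_
      calc Cardinal.sum (fun d => #↥(f d).s)
          ≤ Cardinal.sum (fun _ : D => Order.succ χ) :=
            Cardinal.sum_le_sum _ _ fun d => Order.lt_succ_iff.1 (f d).card
        _ = #D * Order.succ χ := Cardinal.sum_const' _ _
        _ ≤ Order.succ χ * Order.succ χ := mul_le_mul_left hD _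
        _ = Order.succ χ := Cardinal.mul_eq_self hχ'
    calc #↥(c.s ∪ ⋃ d, (f d).s) ≤ #↥c.s + #↥(⋃ d, (f d).s) := Cardinal.mk_union_le _ _
      _ ≤ Order.succ χ + Order.succ χ := add_le_add (Order.lt_succ_iff.1 c.card) h1
      _ = Order.succ χ := Cardinal.add_eq_self hχ'
  have hcl : ∀ x ∈ c.s ∪ ⋃ d, (f d).s, ∀ y ∈ c.s ∪ ⋃ d, (f d).s, r x y := by
    intro x hx y hy
    rcases hx with hx | hx <;> rcases hy with hy | hy
    · exact c.cl x hx y hy
    · obtain ⟨d, hd⟩ := Set.mem_iUnion.1 hy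
      exact hmix x hx d y hd
    · obtain ⟨d, hd⟩ := Set.mem_iUnion.1 hx
      exact hr _ _ (hmix y hy d x hd)
    · obtain ⟨d, hd⟩ := Set.mem_iUnion.1 hx
      obtain ⟨d', hd'⟩ := Set.mem_iUnion.1 hy
      obtain ⟨d'', h1, h2⟩ := hdir d d'
      exact (f d'').cl x (h1 hd) y (h2 hd')
  refine ⟨⟨c.s ∪ ⋃ d, (f d).s, hcard, hcl⟩, rfl, ?_⟩
  ext x
  constructor
  · rintro ⟨hx | hx, h2⟩
    · exact hx
    · obtain ⟨d, hd⟩ := Set.mem_iUnion.1 hx
      exact hf d x hd h2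
  · intro hx
    exact ⟨Or.inl hx, hc x hx⟩

theorem germ_CL [PartialOrder Q1] (hχ : ℵ₀ ≤ χ) (hχκ : Order.succ (Order.succ χ) < κ)
    (hr : ∀ x y, r x y → r y x) (hloc : ∀ x, #{y | ¬ r x y} < κ) (hQ : DC κ Q1)
    {U : (Pk κ Y → RO Q1) → RO Q1} (hU : NormalU κ Y (RO Q1) U) (iX : X → Y)
    (hiX : Function.Injective iX)
    (D : Set (Germ hU iX r (Order.succ (Order.succ χ)))) (hD : DirectedOn (· ≥ ·) D)
    (hDc : #D < Order.succ (Order.succ χ)) (x : Clq X r (Order.succ (Order.succ χ)) × Q1)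
    (hx : ∀ d ∈ D, x ≤ d.pr) : ∃ g, (∀ d ∈ D, g ≤ d) ∧ g.pr = x := by
  classical
  obtain ⟨c, q⟩ := x
  have hχ' : ℵ₀ ≤ Order.succ χ := hχ.trans (Order.le_succ χ)
  have hDκ : #D < κ := hDc.trans hχκ
  have hDs : #D ≤ Order.succ χ := Order.lt_succ_iff.1 hDc
  have hDD : #(D × D) < κ := by
    rw [← Cardinal.mul_def]
    refine lt_of_le_of_lt ?_ ((Order.lt_succ (Order.succ χ)).trans hχκ)
    calc #D * #D ≤ Order.succ χ * Order.succ χ := mul_le_mul' hDs hDs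
      _ = Order.succ χ := Cardinal.mul_eq_self hχ'
  have hxc : ∀ d : D, d.1.c.s ⊆ c.s := fun d => (hx d.1 d.2).1
  have hxq : ∀ d : D, q ≤ d.1.q := fun d => (hx d.1 d.2).2
  have hw : ∀ p : D × D, ∃ w : D, w.1 ≤ p.1.1 ∧ w.1 ≤ p.2.1 := by
    rintro ⟨d, d'⟩
    obtain ⟨w, hw, h1, h2⟩ := hD d.1 d.2 d'.1 d'.2
    exact ⟨⟨w, hw⟩, h1, h2⟩
  choose w hw1 hw2 using hw
  let φ : (D → Clq X r (Order.succ (Order.succ χ))) → Clq X r (Order.succ (Order.succ χ)) :=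
    fun f => if h : ∃ t : Clq X r (Order.succ (Order.succ χ)), t.s = c.s ∪ ⋃ d, (f d).s then
      Classical.choose h else c
  have hφ : ∀ f, (∃ t : Clq X r (Order.succ (Order.succ χ)), t.s = c.s ∪ ⋃ d, (f d).s) →
      (φ f).s = c.s ∪ ⋃ d, (f d).s := by
    intro f h
    change (if h : ∃ t : Clq X r (Order.succ (Order.succ χ)), t.s = c.s ∪ ⋃ d, (f d).s then
      Classical.choose h else c).s = _
    rw [dif_pos h]
    exact Classical.choose_spec h
  choose F hF using fun u : Pk κ Y => Nm.comb hQ hDκ (fun d : D => d.1.F u) φ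
  let Z : Pk κ Y → RO Q1 := fun u => chi (iX '' c.s ⊆ u.1) ⊓
    (chi (∀ y z, iX y ∈ u.1 → ¬ r y z → iX z ∈ u.1) ⊓
      ((⨅ d : D, ptr iX (d.1.F u) u.1 d.1.c) ⊓
        ⨅ p : D × D, nle ((w p).1.F u) (p.1.1.F u) ⊓ nle ((w p).1.F u) (p.2.1.F u)))
  have hZ : q ∈ U Z := by
    refine (hU.mem_inf).2 ⟨?_, (hU.mem_inf).2 ⟨?_, (hU.mem_inf).2 ⟨?_, ?_⟩⟩⟩
    · refine hU.of_top (hU.small ?_)
      exact Cardinal.mk_image_le.trans_lt (c.card.trans hχκ)
    · exact hU.of_top (loc_ae hU iX hiX hloc)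
    · rw [hU.complete_inf hDκ, RO.mem_iInf]
      intro d
      exact RO.down _ (hxq d) d.1.hc
    · rw [hU.complete_inf hDD, RO.mem_iInf]
      intro p
      refine (hU.mem_inf).2 ⟨?_, ?_⟩
      · exact RO.down _ (hxq (w p)) (hw1 p).2.2
      · exact RO.down _ (hxq (w p)) (hw2 p).2.2
  have key : ∀ (u : Pk κ Y) (q' : Q1), q' ∈ Z u → ∃ t ≤ q', ∃ f : D →
      Clq X r (Order.succ (Order.succ χ)), (∀ d : D, t ∈ (d.1.F u).v (f d)) ∧
      t ∈ (F u).v (φ f) ∧ (∀ d, φ f ≤ f d) ∧ {x | x ∈ (φ f).s ∧ iX x ∈ u.1} = c.s := by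
    intro u q' hq'
    obtain ⟨h1, h2, h3, h4⟩ := hq'
    have h1' : iX '' c.s ⊆ u.1 := RO.mem_chi.1 h1
    have h2' : ∀ y z, iX y ∈ u.1 → ¬ r y z → iX z ∈ u.1 := RO.mem_chi.1 h2
    have h3' := RO.mem_iInf.1 h3
    have h4' := RO.mem_iInf.1 h4
    obtain ⟨t, ht, f, hf⟩ := dist hQ hDκ (fun d : D => d.1.F u) q'
    have htr : ∀ d : D, {x | x ∈ (f d).s ∧ iX x ∈ u.1} = d.1.c.s := by
      intro d
      obtain ⟨t', ht', e, he, hte⟩ := mem_ptr.1 (h3' d) t ht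
      have h5 : e = f d := Nm.uniq _ hte (RO.down _ ht' (hf d))
      rw [← h5]
      exact he
    have hle : ∀ (d d' : D), t ∈ nle (d'.1.F u) (d.1.F u) → f d' ≤ f d := by
      intro d d' h5
      obtain ⟨t', ht', e', e, hee, h6, h7⟩ := mem_nle.1 h5 t le_rfl
      have h8 : e' = f d' := Nm.uniq _ h6 (RO.down _ ht' (hf d'))
      have h9 : e = f d := Nm.uniq _ h7 (RO.down _ ht' (hf d))
      rw [← h8, ← h9]
      exact hee
    obtain ⟨t0, ht0, ht1⟩ := clq_union hχ hr iX u.1 h2' c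
      (fun x hx => h1' ⟨x, hx, rfl⟩) hDs f
      (fun d x hx hxu => hxc d (by
        rw [← htr d]
        exact ⟨hx, hxu⟩))
      (fun d d' => ⟨w (d, d'), hle d _ (RO.down _ ht (h4' (d, d')).1),
        hle d' _ (RO.down _ ht (h4' (d, d')).2)⟩)
    have h5 := hφ f ⟨t0, ht0⟩
    refine ⟨t, ht, f, hf, hF u t f hf, fun d => ?_, ?_⟩
    · change (f d).s ⊆ (φ f).s
      rw [h5]
      exact (Set.subset_iUnion (fun d => (f d).s) d).trans Set.subset_union_right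
    · rw [h5, ← ht0]
      exact ht1
  have hc : q ∈ U (fun u => ptr iX (F u) u.1 c) := by
    refine hU.ae_mono hZ fun u q' _ hq' => mem_ptr.2 fun q'' hq'' => ?_
    obtain ⟨t, ht, f, -, h1, -, h2⟩ := key u q'' (RO.down _ hq'' hq')
    exact ⟨t, ht, φ f, h2, h1⟩
  refine ⟨⟨q, F, c, hc⟩, fun d hd => ?_, rfl⟩
  refine Germ.le_def.2 ⟨hxq ⟨d, hd⟩, hxc ⟨d, hd⟩, ?_⟩
  change q ∈ U (fun u => nle (F u) (d.F u))
  refine hU.ae_mono hZ fun u q' _ hq' => mem_nle.2 fun q'' hq'' => ?_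
  obtain ⟨t, ht, f, h0, h1, h2, -⟩ := key u q'' (RO.down _ hq'' hq')
  exact ⟨t, ht, φ f, f ⟨d, hd⟩, h2 ⟨d, hd⟩, h1, h0 ⟨d, hd⟩⟩

end STP
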