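import Pool.Agent.STP.Nu
import Pool.Agent.STP.Cls

/-! # Supercompact cardinals are inaccessible; small posets (package S12)

(problem MP_e44aae_lc, project STP)

* `LI.reg`, `LI.strong`: apply `LI κ` to the one point poset `Q = PUnit` (`DC κ PUnit` holds); `RO PUnit` has exactly the two elements `⊥`, `⊤`.
  Regular: `ℵ₀ ≤ κ`; let `X := κ.out` (or `κ.ord.ToType`) and suppose `κ.ord.cof < κ`: there is a set `S` cofinal in `κ.ord.ToType` with
  `#S < κ`, so `X` is the union of the initial segments `{y // y ≤ s}`, `s ∈ S`, each of cardinality `< κ`. Almost every `u` contains each of them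
  (`small`), hence all of them (`complete_inf`, `#S < κ`), hence `u = X` for some `u` (`exists_mem`), but `#u < κ`.
  Strong limit: let `lam < κ`, suppose `κ ≤ 2 ^ lam`; there is an injection `e : κ.out → (lam.out → Prop)`. For `u : Pk κ X` (`X = κ.out`) choose
  `x_u ∉ u` (`#u < κ = #X`). For `ξ : lam.out` the value `U (fun u => chi (e x_u ξ))` is `⊤` or `⊥`; let `b ξ : Prop` be the corresponding truth value. So for almost
  all `u`, for all `ξ` (`complete_inf`, `lam < κ`): `e x_u ξ ↔ b ξ`. Take such a `u0`; almost every `u` contains `x_{u0}` (`fine`), so there is a `u`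
  with `x_{u0} ∈ u` and `e x_u = b = e x_{u0}`, so `x_u = x_{u0} ∈ u`, contradiction.
* `card_small_sets`: if `κ` is regular and a strong limit, `#X ≤ κ`, then there are at most `κ` subsets of `X` with fewer than `κ` elements: embed `X`
  into `κ.ord.ToType`; each such set is bounded (`κ` regular) so it is a subset of some `{y // y < b}`, and `∑_b 2 ^ #{y // y < b} ≤ κ * κ = κ`.
* `Clq.card_le`: `#(Clq X r δ) ≤ κ` if `δ ≤ κ`, `#X ≤ κ` (`Clq.s` is injective).
* `LevX.card_le`: `#(LevX δ κ) ≤ κ` if `δ ≤ κ`, `ℵ₀ ≤ κ`. `Levy.card_le` follows.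
* `levr_small`: for each `x` there are fewer than `κ` many `y : LevX δ κ` with `¬ levr δ κ x y`: such a `y` has `y.1.1 = x.1.1` and is determined by
  `y.1.2 < x.1.1.2`, and initial segments of `κ.ord.ToType` have fewer than `κ` elements (`ℵ₀ ≤ κ`).
* `pi_card_le`: if `κ` is regular and a strong limit, `#ι < κ` and `#(C i) ≤ κ` for all `i : ι`, then `#(∀ i, C i) ≤ κ`: the functions
  `ι → κ.ord.ToType` are bounded: `∑_b #{y // y < b} ^ #ι ≤ κ`, because `lam ^ #ι ≤ 2 ^ (lam * #ι)`. -/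

universe u

namespace STP

open Cardinal

/-- The two-valued ultrafilter given by the one point poset. -/
private theorem exists_ae {κ : Cardinal.{u}} (h : LI κ) (X : Type u) :
    ∃ Ae : (Pk κ X → Prop) → Prop, (∀ Z, Ae Z → ∃ u, Z u) ∧
      (∀ Z, Ae Z ∨ Ae (fun u => ¬ Z u)) ∧
      (∀ (I : Type u) (Z : I → Pk κ X → Prop), #I < κ → (∀ i, Ae (Z i)) →
        Ae (fun u => ∀ i, Z i u)) ∧
      (∀ x, Ae (fun u => x ∈ u.1)) ∧
      (∀ Z Z', Ae Z → Ae Z' → Ae (fun u => Z u ∧ Z' u)) := by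
  have hDC : DC κ PUnit.{u + 1} := fun D _ _ => ⟨PUnit.unit, fun d _ => le_rfl⟩
  obtain ⟨V, hV⟩ := h.2 PUnit.{u + 1} hDC X
  have hmono : ∀ {W W' : Pk κ X → RO PUnit.{u + 1}}, (∀ u, PUnit.unit ∈ W u → PUnit.unit ∈ W' u) →
      PUnit.unit ∈ V W → PUnit.unit ∈ V W' := by
    intro W W' h1 h2
    exact NormalU.ae_mono hV h2 fun u q' _ hq => h1 u hq
  refine ⟨fun Z => PUnit.unit ∈ V (fun u => chi (Z u)), ?_, ?_, ?_, ?_, ?_⟩
  · intro Z hZ
    obtain ⟨u, q', _, hq⟩ := NormalU.exists_mem hV hZ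
    exact ⟨u, RO.mem_chi.1 hq⟩
  · intro Z
    by_cases h1 : PUnit.unit ∈ V (fun u => chi (Z u))
    · exact Or.inl h1
    · right
      have h2 : PUnit.unit ∈ (V (fun u => chi (Z u)))ᶜ := RO.mem_compl.2 fun q _ => h1
      rw [← hV.compl] at h2
      refine hmono (fun u hu => ?_) h2
      rw [RO.mem_chi]
      intro h3
      exact RO.mem_compl.1 hu _ le_rfl (RO.mem_chi.2 h3)
  · intro I Z hI h1
    have h2 : PUnit.unit ∈ V (fun u => ⨅ i, chi (Z i u)) := by
      rw [NormalU.complete_inf hV hI]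
      exact RO.mem_iInf.2 h1
    refine hmono (fun u hu => ?_) h2
    rw [RO.mem_chi]
    intro i
    exact RO.mem_chi.1 (RO.mem_iInf.1 hu i)
  · intro x
    exact NormalU.of_top hV (hV.fine x)
  · intro Z Z' h1 h2
    have h3 := (NormalU.mem_inf hV).2 ⟨h1, h2⟩
    refine hmono (fun u hu => ?_) h3
    rw [RO.mem_inf] at hu
    exact RO.mem_chi.2 ⟨RO.mem_chi.1 hu.1, RO.mem_chi.1 hu.2⟩

theorem LI.reg {κ : Cardinal.{u}} (h : LI κ) : κ.IsRegular := by
  refine ⟨h.1.le, ?_⟩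
  by_contra hcof
  rw [not_le] at hcof
  obtain ⟨Ae, hne, -, hall, hfine, -⟩ := exists_ae h κ.ord.ToType
  obtain ⟨S, hS, hSc⟩ := Order.exists_cof_eq (α := κ.ord.ToType)
  rw [Ordinal.cof_toType] at hSc
  have hIic : ∀ s : κ.ord.ToType, #(Set.Iic s) < κ := by
    intro s
    have h1 : Set.Iic s = Set.Iio s ∪ {s} := by
      rw [Set.union_singleton, Set.Iio_insert]
    rw [h1]
    refine (mk_union_le _ _).trans_lt (add_lt_of_lt h.1.le ?_ ?_)
    · have h2 := mk_Iio_lt s (by simp)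
      rwa [mk_toType, card_ord] at h2
    · rw [mk_singleton]
      exact one_lt_aleph0.trans h.1
  have h1 : ∀ s : S, Ae (fun u => ∀ x : Set.Iic (s : κ.ord.ToType), (x : κ.ord.ToType) ∈ u.1) :=
    fun s => hall _ _ (hIic s) fun x => hfine x
  have h2 : Ae (fun u => ∀ s : S, ∀ x : Set.Iic (s : κ.ord.ToType),
      (x : κ.ord.ToType) ∈ u.1) := hall _ _ (by rw [hSc]; exact hcof) h1
  obtain ⟨u, hu⟩ := hne _ h2
  have h3 : (u.1 : Set κ.ord.ToType) = Set.univ := by
    ext x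
    obtain ⟨s, hs, hxs⟩ := hS x
    exact ⟨fun _ => trivial, fun _ => hu ⟨s, hs⟩ ⟨x, hxs⟩⟩
  have h4 := u.2
  rw [h3, mk_univ, mk_toType, card_ord] at h4
  exact lt_irrefl _ h4

theorem LI.strong {κ : Cardinal.{u}} (h : LI κ) : ∀ x < κ, 2 ^ x < κ := by
  intro lam hlam
  by_contra hcon
  rw [not_lt] at hcon
  obtain ⟨Ae, hne, hor, hall, hfine, hand⟩ := exists_ae h κ.out
  have h0 : #κ.out ≤ #(Set lam.out) := by
    rw [mk_out, mk_set, mk_out]
    exact hcon
  obtain ⟨e⟩ := h0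
  have hx : ∀ u : Pk κ κ.out, ∃ x, x ∉ u.1 := by
    intro u
    by_contra hall'
    push Not at hall'
    have h1 : (u.1 : Set κ.out) = Set.univ := Set.eq_univ_iff_forall.2 hall'
    have h2 := u.2
    rw [h1, mk_univ, mk_out] at h2
    exact lt_irrefl _ h2
  choose x hx using hx
  have h1 : ∀ ξ : lam.out, Ae (fun u => (ξ ∈ e (x u) ↔ Ae (fun u => ξ ∈ e (x u)))) := by
    intro ξ
    by_cases hb : Ae (fun u => ξ ∈ e (x u))
    · simp only [hb, iff_true]
    · have h2 := (hor (fun u => ξ ∈ e (x u))).resolve_left hb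
      simpa only [hb, iff_false] using h2
  have h2 : Ae (fun u => ∀ ξ : lam.out, (ξ ∈ e (x u) ↔ Ae (fun u => ξ ∈ e (x u)))) :=
    hall _ _ (by rw [mk_out]; exact hlam) h1
  obtain ⟨u0, hu0⟩ := hne _ h2
  obtain ⟨u, hu1, hu2⟩ := hne _ (hand _ _ h2 (hfine (x u0)))
  have h3 : e (x u) = e (x u0) := by
    ext ξ
    rw [hu1 ξ, hu0 ξ]
  have h4 := e.injective h3
  rw [← h4] at hu2
  exact hx u hu2

theorem card_small_sets {κ : Cardinal.{u}} (hr : κ.IsRegular) (hs : ∀ x < κ, 2 ^ x < κ)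
    {X : Type u} (hX : #X ≤ κ) : #{s : Set X // #s < κ} ≤ κ := by
  have h0 : #X ≤ #κ.out := by rwa [mk_out]
  obtain ⟨e⟩ := h0
  have h1 : #{s : Set κ.out // #s < Ordinal.cof (#κ.out).ord} = #κ.out :=
    mk_subset_mk_lt_cof (by
      rw [mk_out]
      exact fun x hx => hs x hx)
  have h2 : Ordinal.cof (#κ.out).ord = κ := by
    rw [mk_out, hr.cof_ord]
  rw [h2, mk_out] at h1
  refine le_trans (mk_le_of_injective (f := fun s : {s : Set X // #s < κ} =>
    (⟨e '' s.1, mk_image_le.trans_lt s.2⟩ : {s : Set κ.out // #s < κ})) ?_) h1.le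
  intro s t hst
  exact Subtype.ext (Set.image_injective.2 e.injective (congrArg Subtype.val hst))

theorem Clq.card_le {κ : Cardinal.{u}} (hr : κ.IsRegular) (hs : ∀ x < κ, 2 ^ x < κ)
    {X : Type u} (hX : #X ≤ κ) (r : X → X → Prop) {δ : Cardinal.{u}} (hδ : δ ≤ κ) :
    #(Clq X r δ) ≤ κ := by
  refine le_trans (mk_le_of_injective (f := fun s : Clq X r δ =>
    (⟨s.s, s.card.trans_le hδ⟩ : {s : Set X // #s < κ})) ?_) (card_small_sets hr hs hX)
  intro s t hst
  exact Clq.ext (congrArg Subtype.val hst)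

theorem LevX.card_le {δ κ : Cardinal.{u}} (hκ : ℵ₀ ≤ κ) (hδ : δ ≤ κ) : #(LevX δ κ) ≤ κ := by
  refine (mk_subtype_le _).trans ?_
  simp only [mk_prod, lift_id, mk_out, mk_toType, card_ord]
  calc δ * κ * κ ≤ κ * κ * κ := by gcongr
    _ = κ := by rw [mul_eq_self hκ, mul_eq_self hκ]

theorem Levy.card_le {δ κ : Cardinal.{u}} (hr : κ.IsRegular) (hs : ∀ x < κ, 2 ^ x < κ)
    (hδ : δ ≤ κ) : #(Levy δ κ) ≤ κ :=
  Clq.card_le hr hs (LevX.card_le hr.aleph0_le hδ) _ hδ

theorem levr_small {δ κ : Cardinal.{u}} (hκ : ℵ₀ ≤ κ) (x : LevX δ κ) :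
    #{y : LevX δ κ | ¬ levr δ κ x y} < κ := by
  have h1 : #(Set.Iio x.1.1.2) < κ := by
    have h2 := mk_Iio_lt x.1.1.2 (by simp)
    rwa [mk_toType, card_ord] at h2
  refine lt_of_le_of_lt ?_ h1
  have h2 : ∀ y : {y : LevX δ κ | ¬ levr δ κ x y}, x.1.1 = y.1.1.1 := by
    rintro ⟨y, hy⟩
    by_contra h3
    exact hy fun h4 => absurd h4 h3
  refine mk_le_of_injective (f := fun y : {y : LevX δ κ | ¬ levr δ κ x y} =>
    (⟨y.1.1.2, by
      have h3 := y.1.2
      rw [← h2 y] at h3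
      exact h3⟩ : Set.Iio x.1.1.2)) ?_
  intro y z hyz
  have h3 : y.1.1.2 = z.1.1.2 := congrArg Subtype.val hyz
  exact Subtype.ext (Subtype.ext (Prod.ext ((h2 y).symm.trans (h2 z)) h3))

theorem pi_card_le {κ : Cardinal.{u}} (hr : κ.IsRegular) (hs : ∀ x < κ, 2 ^ x < κ) {ι : Type u}
    (hι : #ι < κ) (C : ι → Type u) (hC : ∀ i, #(C i) ≤ κ) : #(∀ i, C i) ≤ κ := by
  have h0 : ∀ i, ∃ e : C i → κ.out, Function.Injective e := fun i => by
    have h1 : #(C i) ≤ #κ.out := by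
      rw [mk_out]
      exact hC i
    obtain ⟨e⟩ := h1
    exact ⟨e, e.injective⟩
  choose e he using h0
  have h1 : #(ι × κ.out) ≤ κ := by
    simp only [mk_prod, lift_id, mk_out]
    calc #ι * κ ≤ κ * κ := by gcongr
      _ = κ := mul_eq_self hr.aleph0_le
  refine le_trans (mk_le_of_injective (f := fun g : (∀ i, C i) =>
    (⟨Set.range fun i => (i, e i (g i)), mk_range_le.trans_lt hι⟩ :
      {s : Set (ι × κ.out) // #s < κ})) ?_) (card_small_sets hr hs h1)
  intro g g' hgg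
  have h2 : (Set.range fun i => (i, e i (g i))) = Set.range fun i => (i, e i (g' i)) :=
    congrArg Subtype.val hgg
  funext i
  have h3 : (i, e i (g i)) ∈ Set.range fun i => (i, e i (g' i)) := by
    rw [← h2]
    exact ⟨i, rfl⟩
  obtain ⟨j, hj⟩ := h3
  obtain ⟨h4, h5⟩ := Prod.ext_iff.1 hj
  dsimp only at h4 h5
  subst h4
  exact (he j h5).symm

end STP
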