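import Pool.Agent.STP.RO
import Pool.Agent.STP.Rec
import Pool.Agent.STP.Cls

/-! # Names (package S10)

(problem MP_e44aae_lc, project STP)

* `exists_max`: the maximum principle. Well-order `E` (`WellOrderingRel`, `IsWellOrder E WellOrderingRel`) and put
  `m e := Φ e ⊓ (⨆ e' < e, Φ e')ᶜ`. `⨆ m ≤ ⨆ Φ` is clear; `Φ e ≤ ⨆ m` by well-founded induction on `e`:
  `Φ e ≤ m e ⊔ ⨆ e' < e, Φ e'`.
* A name of an element of `E` (`Nm B E`): a partition of `⊤` indexed by `E`.
* `Nm.ex`: below each condition some value is decided. `Nm.uniq`: the value is unique.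
* `dist`: fewer than `δ` names are decided simultaneously, if `Q` is `DC δ`: `REC` with `D d q := ∃ e, q ∈ (F d).v e`.
* `Nm.comb`: `G.v e := ⨆ f : {f : D → C // φ f = e}, ⨅ d, (F d).v (f d)`. Disjoint: for `f ≠ f'` there is `d` with `f d ≠ f' d`. Total: `dist`.
  Membership: a condition in all `(F d).v (f d)` is in `G.v (φ f)`.
* `Nm.const`: `v e' := chi (e' = e)`.
* `Nm.extend`: a disjoint family `m` with `⨆ m = b` becomes a name by adding `bᶜ` to the value `e0`. -/

universe u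

namespace STP

open Cardinal

/-- the maximum principle -/
theorem exists_max {B : Type u} [CompleteBooleanAlgebra B] {E : Type u} (Φ : E → B) :
    ∃ m : E → B, (∀ e, m e ≤ Φ e) ∧ (∀ e e', e ≠ e' → m e ⊓ m e' = ⊥) ∧ ⨆ e, m e = ⨆ e, Φ e := by
  have hwf : WellFounded (WellOrderingRel : E → E → Prop) := WellOrderingRel.isWellOrder.wf
  have key : ∀ e e', WellOrderingRel e e' →
      (Φ e ⊓ (⨆ a : {a : E // WellOrderingRel a e}, Φ a.1)ᶜ) ⊓
        (Φ e' ⊓ (⨆ a : {a : E // WellOrderingRel a e'}, Φ a.1)ᶜ) = ⊥ := by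
    intro e e' h
    have h1 : Φ e ≤ ⨆ a : {a : E // WellOrderingRel a e'}, Φ a.1 :=
      le_iSup (fun a : {a : E // WellOrderingRel a e'} => Φ a.1) ⟨e, h⟩
    refine le_bot_iff.1 ((inf_le_inf (inf_le_left.trans h1) inf_le_right).trans ?_)
    rw [inf_compl_self]
  refine ⟨fun e => Φ e ⊓ (⨆ a : {a : E // WellOrderingRel a e}, Φ a.1)ᶜ,
    fun e => inf_le_left, ?_, ?_⟩
  · intro e e' hne
    rcases trichotomous_of WellOrderingRel e e' with h | h | h
    · exact key e e' h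
    · exact absurd h hne
    · rw [inf_comm]
      exact key e' e h
  · refine le_antisymm (iSup_mono fun e => inf_le_left) (iSup_le fun e => ?_)
    induction e using hwf.induction with
    | _ e ih =>
      have h1 : Φ e ≤ (Φ e ⊓ (⨆ a : {a : E // WellOrderingRel a e}, Φ a.1)ᶜ) ⊔
          ⨆ a : {a : E // WellOrderingRel a e}, Φ a.1 := by
        rw [sup_inf_right, compl_sup_eq_top, inf_top_eq]
        exact le_sup_left
      refine h1.trans (sup_le ?_ (iSup_le fun a => ih a.1 a.2))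
      exact le_iSup (fun e => Φ e ⊓ (⨆ a : {a : E // WellOrderingRel a e}, Φ a.1)ᶜ) e

/-- a `B`-name of an element of `E` -/
structure Nm (B : Type u) [CompleteBooleanAlgebra B] (E : Type u) : Type u where
  /-- the truth value of `the value is e` -/
  v : E → B
  disj : ∀ e e', e ≠ e' → v e ⊓ v e' = ⊥
  tot : ⨆ e, v e = ⊤

private theorem chi_pos {B : Type u} [CompleteLattice B] {p : Prop} (h : p) :
    (chi p : B) = ⊤ := iSup_pos h

private theorem chi_neg {B : Type u} [CompleteLattice B] {p : Prop} (h : ¬ p) :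
    (chi p : B) = ⊥ := iSup_neg h

/-- the name of a ground model element -/
noncomputable def Nm.const {B : Type u} [CompleteBooleanAlgebra B] {E : Type u} (e : E) :
    Nm B E where
  v e' := chi (e' = e)
  disj := by
    intro e' e'' hne
    by_cases h : e' = e
    · rw [chi_neg (B := B) (p := e'' = e) (fun h' => hne (h.trans h'.symm)), inf_bot_eq]
    · rw [chi_neg (B := B) h, bot_inf_eq]
  tot := by
    refine top_le_iff.1 ?_
    have h := le_iSup (fun e' => (chi (e' = e) : B)) e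
    rwa [chi_pos (B := B) (p := e = e) rfl] at h

theorem Nm.const_v {B : Type u} [CompleteBooleanAlgebra B] {E : Type u} (e e' : E) :
    (Nm.const (B := B) e).v e' = chi (e' = e) := rfl

theorem Nm.extend {B : Type u} [CompleteBooleanAlgebra B] {E : Type u} (m : E → B)
    (hd : ∀ e e', e ≠ e' → m e ⊓ m e' = ⊥) (e0 : E) : ∃ F : Nm B E, ∀ e, m e ≤ F.v e := by
  classical
  have hb : ∀ e, (⨆ e, m e)ᶜ ⊓ m e = ⊥ := by
    intro e
    refine le_bot_iff.1 ((inf_le_inf_left _ (le_iSup m e)).trans ?_)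
    rw [compl_inf_self]
  refine ⟨⟨fun e => if e = e0 then m e ⊔ (⨆ e, m e)ᶜ else m e, ?_, ?_⟩, fun e => ?_⟩
  · intro e e' hne
    by_cases h : e = e0
    · have h' : e' ≠ e0 := fun h' => hne (h.trans h'.symm)
      rw [if_pos h, if_neg h', inf_sup_right, hd e e' hne, hb e', sup_bot_eq]
    · by_cases h' : e' = e0
      · rw [if_neg h, if_pos h', inf_sup_left, hd e e' hne, inf_comm, hb e, sup_bot_eq]
      · rw [if_neg h, if_neg h']
        exact hd e e' hne
  · refine top_le_iff.1 ?_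
    rw [← sup_compl_eq_top (x := ⨆ e, m e)]
    refine sup_le (iSup_mono fun e => ?_) ?_
    · split_ifs
      · exact le_sup_left
      · exact le_rfl
    · refine le_trans ?_ (le_iSup (fun e => if e = e0 then m e ⊔ (⨆ e, m e)ᶜ else m e) e0)
      rw [if_pos rfl]
      exact le_sup_right
  · change m e ≤ if e = e0 then m e ⊔ (⨆ e, m e)ᶜ else m e
    split_ifs
    · exact le_sup_left
    · exact le_rfl

variable {Q : Type u} [Preorder Q]

theorem Nm.ex {E : Type u} (F : Nm (RO Q) E) (q : Q) : ∃ r ≤ q, ∃ e, r ∈ F.v e := by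
  have h : q ∈ ⨆ e, F.v e := by
    rw [F.tot]
    exact RO.mem_top
  exact RO.mem_iSup.1 h q le_rfl

theorem Nm.uniq {E : Type u} (F : Nm (RO Q) E) {q : Q} {e e' : E} (h : q ∈ F.v e)
    (h' : q ∈ F.v e') : e = e' := by
  by_contra hne
  have h1 : q ∈ F.v e ⊓ F.v e' := RO.mem_inf.2 ⟨h, h'⟩
  rw [F.disj e e' hne] at h1
  exact RO.not_mem_bot h1

theorem dist {δ : Cardinal.{u}} (hQ : DC δ Q) {D E : Type u} (hD : #D < δ)
    (F : D → Nm (RO Q) E) (q : Q) : ∃ r ≤ q, ∃ f : D → E, ∀ d, r ∈ (F d).v (f d) := by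
  obtain ⟨r, hr, h⟩ := REC hQ hD (fun d q => ∃ e, q ∈ (F d).v e) q
    (fun d q r hr h => h.imp fun e he => ((F d).v e).down hr he)
    (fun d q' _ => (F d).ex q')
  choose f hf using h
  exact ⟨r, hr, f, hf⟩

theorem Nm.comb {δ : Cardinal.{u}} (hQ : DC δ Q) {D C E : Type u} (hD : #D < δ)
    (F : D → Nm (RO Q) C) (φ : (D → C) → E) :
    ∃ G : Nm (RO Q) E, ∀ (q : Q) (f : D → C), (∀ d, q ∈ (F d).v (f d)) → q ∈ G.v (φ f) := by
  have key : ∀ (q : Q) (f : D → C), (∀ d, q ∈ (F d).v (f d)) →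
      q ∈ ⨆ g : {g : D → C // φ g = φ f}, ⨅ d, (F d).v (g.1 d) := by
    intro q f h
    have h1 : (⨅ d, (F d).v (f d)) ≤ ⨆ g : {g : D → C // φ g = φ f}, ⨅ d, (F d).v (g.1 d) :=
      le_iSup (fun g : {g : D → C // φ g = φ f} => ⨅ d, (F d).v (g.1 d)) ⟨f, rfl⟩
    exact h1 q (RO.mem_iInf.2 h)
  refine ⟨⟨fun e => ⨆ f : {f : D → C // φ f = e}, ⨅ d, (F d).v (f.1 d), ?_, ?_⟩, key⟩
  · intro e e' hne
    refine le_bot_iff.1 fun p hp => ?_
    obtain ⟨h1, h2⟩ := RO.mem_inf.1 hp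
    obtain ⟨r, hr, f, hf⟩ := RO.mem_iSup.1 h1 p le_rfl
    obtain ⟨r', hr', f', hf'⟩ := RO.mem_iSup.1 h2 r hr
    have h3 : f.1 = f'.1 := by
      funext d
      exact (F d).uniq (((F d).v (f.1 d)).down hr' (RO.mem_iInf.1 hf d)) (RO.mem_iInf.1 hf' d)
    exact absurd (f.2.symm.trans ((congrArg φ h3).trans f'.2)) hne
  · refine top_le_iff.1 fun p _ => ?_
    rw [RO.mem_iSup]
    intro q _
    obtain ⟨r, hr, f, hf⟩ := dist hQ hD F q
    exact ⟨r, hr, φ f, key r f hf⟩

end STP
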