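import Pool.Agent.STP.Nu
import Pool.Agent.STP.Nm

/-! # Pressing down for small sets (package S11)

(problem MP_e44aae_lc, project STP)

Text, section 2, PD. `F u` is (for each `u ∈ P_κ(Y)`) a disjoint family of truth values indexed by `E u` (a name of an element of `E u`, total below
`q` for almost all `u`), and `G u e` is a subset of `Y` with fewer than `δ < κ` elements. Then some `q' ≤ q` forces that `G u e ∩ u` is a fixed
set `c` for almost all `u`.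

Proof. For `x : Y` let `χ x := U (fun u => ⨆ e, ⨆ _ : x ∈ G u e, F u e) ∈ RO Q` (the truth value of: `x ∈ G u e` for almost all `u`).
`TR` with `α := δ.ord.ToType` (`#α = δ`, `#{j // j < i} < δ`), `X := Q × Option Y`, `Rl j x y := y.1 ≤ x.1 ∧ (∀ a, y.2 = some a → x.2 ≠ some a)`,
`G i y := y.1 ≤ q ∧ ∀ a, y.2 = some a → y.1 ∈ χ a`, and if `y.2 = none` then nothing more can be added; the cleanest way: suppose the
CONTRARY of the theorem and show by `TR` that there are a descending sequence `q_i ≤ q` and distinct points `x_i` (`i ∈ α`) with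
`q_i ∈ χ (x_i)`:
step: given `(q_j, x_j)`, `j < i`, let `q* ≤ q` be a lower bound (`DC.lower`, `#{j // j < i} < δ < κ`) and `c := {x_j | j < i}`, `#c < δ`.
If there are `q' ≤ q*` and `a ∉ c` with `q' ∈ χ a`, take them. Otherwise `q* ∈ (χ a)ᶜ` for all `a ∉ c` (`RO.mem_compl`), and `q* ∈ χ a` for `a ∈ c`
(`RO.down`). Then for all `a : Y`: `q* ∈ U (fun u => ⨆ e, ⨆ _ : (a ∈ G u e ↔ a ∈ c), F u e)` (for `a ∈ c` by `mono`, for `a ∉ c`: `compl`, and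
`(⨆ e with a ∈ G u e, F u e)ᶜ ⊓ ⨆ e, F u e ≤ ⨆ e with a ∉ G u e, F u e`). By normality `q* ∈ U (fun u => ⨅ a ∈ u, ⨆ e, ⨆ _ : .., F u e)`, and almost
every `u` contains `c` (`small`). For such a `u` and `q'' ≤ q*` in the value: below `q''` some `F u e` contains `r` (total), and then for all `a ∈ u`:
`a ∈ G u e ↔ a ∈ c` (disjointness of `F u`), so `G u e ∩ u = c ∩ u = c`. By `ae_mono` `q* ∈ U (fun u => ⨆ e, ⨆ _ : G u e ∩ u = c, F u e)`:
the theorem holds for `q*`, `c`.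
At the end take a lower bound `q∞ ≤ q` of all `q_i` (`#α = δ < κ`): `q∞ ∈ χ (x_i)` for all `i`, so by completeness (`#α < κ`)
`q∞ ∈ U (fun u => ⨅ i, ⨆ e, ⨆ _ : x_i ∈ G u e, F u e)`. By `exists_mem` there are `u`, `q' ≤ q∞` in the value; it is also (total) below `⨆ e, F u e`: some
`r ≤ q'` and `e` with `r ∈ F u e`, and by disjointness `x_i ∈ G u e` for all `i`: `δ ≤ #(G u e)`, contradiction. -/

universe u

namespace STP

open Cardinal

private theorem mem_iS {Q E : Type u} [Preorder Q] {P : E → Prop} {F : E → RO Q} {p : Q} :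
    p ∈ ⨆ e, ⨆ _ : P e, F e ↔ ∀ q ≤ p, ∃ t ≤ q, ∃ e, P e ∧ t ∈ F e := by
  constructor
  · intro h q hq
    obtain ⟨r, hr, e, h1⟩ := RO.mem_iSup.1 h q hq
    obtain ⟨t, ht, h2, h3⟩ := RO.mem_iSup.1 h1 r le_rfl
    exact ⟨t, ht.trans hr, e, h2, h3⟩
  · intro h
    refine RO.mem_iSup.2 fun q hq => ?_
    obtain ⟨t, ht, e, h2, h3⟩ := h q hq
    exact ⟨t, ht, e, le_iSup (fun _ : P e => F e) h2 t h3⟩

private theorem eq_of_mem {Q E : Type u} [Preorder Q] {F : E → RO Q}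
    (hdis : ∀ e e', e ≠ e' → F e ⊓ F e' = ⊥) {t : Q} {e e' : E} (h : t ∈ F e) (h' : t ∈ F e') :
    e = e' := by
  by_contra hne
  have h1 : t ∈ F e ⊓ F e' := ⟨h, h'⟩
  rw [hdis e e' hne] at h1
  exact h1

private theorem step {κ : Cardinal.{u}} {Y Q : Type u} [Preorder Q]
    {U : (Pk κ Y → RO Q) → RO Q} (hU : NormalU κ Y (RO Q) U) {δ : Cardinal.{u}} (hδκ : δ < κ)
    {E : Pk κ Y → Type u} (F : ∀ u, E u → RO Q)
    (hdis : ∀ u e e', e ≠ e' → F u e ⊓ F u e' = ⊥) (q : Q)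
    (htot : q ∈ U (fun u => ⨆ e, F u e)) (G : ∀ u, E u → Set Y) {c : Set Y} (hc : #c < δ)
    (hcc : ∀ a ∈ c, q ∈ U (fun u => ⨆ e, ⨆ _ : a ∈ G u e, F u e))
    (hno : ∀ a ∉ c, ∀ q' ≤ q, q' ∉ U (fun u => ⨆ e, ⨆ _ : a ∈ G u e, F u e)) :
    q ∈ U (fun u => ⨆ e, ⨆ _ : G u e ∩ u.1 = c, F u e) := by
  have hW : ∀ a : Y, q ∈ U (fun u => ⨆ e, ⨆ _ : (a ∈ G u e ↔ a ∈ c), F u e) := by
    intro a
    by_cases ha : a ∈ c
    · refine hU.ae_mono (hcc a ha) fun u q' _ h => mem_iS.2 fun q'' hq'' => ?_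
      obtain ⟨t, ht, e, h1, h2⟩ := mem_iS.1 h q'' hq''
      exact ⟨t, ht, e, ⟨fun _ => ha, fun _ => h1⟩, h2⟩
    · have h1 : q ∈ U (fun u => (⨆ e, ⨆ _ : a ∈ G u e, F u e)ᶜ) := by
        rw [hU.compl]
        exact RO.mem_compl.2 fun q' hq' => hno a ha q' hq'
      refine hU.ae_mono (hU.mem_inf.2 ⟨h1, htot⟩) fun u q' _ h => mem_iS.2 fun q'' hq'' => ?_
      obtain ⟨h2, h3⟩ := h
      obtain ⟨t, ht, e, h4⟩ := RO.mem_iSup.1 h3 q'' hq''
      refine ⟨t, ht, e, ⟨fun h5 => ?_, fun h5 => absurd h5 ha⟩, h4⟩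
      exact absurd (mem_iS.2 fun r hr => ⟨r, le_rfl, e, h5, RO.down _ hr h4⟩)
        (RO.mem_compl.1 h2 t (ht.trans hq''))
  have h1 : q ∈ U (fun u => ⨅ a ∈ u.1, ⨆ e, ⨆ _ : (a ∈ G u e ↔ a ∈ c), F u e) :=
    hU.normal (fun a u => ⨆ e, ⨆ _ : (a ∈ G u e ↔ a ∈ c), F u e) q (RO.mem_iInf.2 hW)
  have h2 : q ∈ U (fun u => chi (c ⊆ u.1)) := hU.of_top (hU.small (hc.trans hδκ))
  refine hU.ae_mono (hU.mem_inf.2 ⟨h1, hU.mem_inf.2 ⟨h2, htot⟩⟩) fun u q' _ h =>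
    mem_iS.2 fun q'' hq'' => ?_
  obtain ⟨h3, h4, h5⟩ := h
  have h6 : c ⊆ u.1 := RO.mem_chi.1 h4
  obtain ⟨t, ht, e, h7⟩ := RO.mem_iSup.1 h5 q'' hq''
  refine ⟨t, ht, e, ?_, h7⟩
  ext a
  by_cases ha : a ∈ u.1
  · have h8 := RO.mem_iInf.1 (RO.mem_iInf.1 h3 a) ha
    obtain ⟨t', ht', e', h9, h10⟩ := mem_iS.1 h8 t (ht.trans hq'')
    have h11 : e = e' := eq_of_mem (hdis u) (RO.down _ ht' h7) h10
    rw [← h11] at h9
    exact ⟨fun h => h9.1 h.1, fun h => ⟨h9.2 h, ha⟩⟩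
  · exact ⟨fun h => absurd h.2 ha, fun h => absurd (h6 h) ha⟩

theorem PD {κ : Cardinal.{u}} {Y Q : Type u} [Preorder Q] {U : (Pk κ Y → RO Q) → RO Q}
    (hU : NormalU κ Y (RO Q) U) (hQ : DC κ Q) {δ : Cardinal.{u}} (hδ : ℵ₀ ≤ δ) (hδκ : δ < κ)
    {E : Pk κ Y → Type u} (F : ∀ u, E u → RO Q)
    (hdis : ∀ u e e', e ≠ e' → F u e ⊓ F u e' = ⊥) (q : Q)
    (htot : q ∈ U (fun u => ⨆ e, F u e)) (G : ∀ u, E u → Set Y) (hG : ∀ u e, #(G u e) < δ) :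
    ∃ q' ≤ q, ∃ c : Set Y, #c < δ ∧ q' ∈ U (fun u => ⨆ e, ⨆ _ : G u e ∩ u.1 = c, F u e) := by
  by_contra hcon
  push Not at hcon
  have hstep : ∀ q' ≤ q, ∀ c : Set Y, #c < δ →
      (∀ a ∈ c, q' ∈ U (fun u => ⨆ e, ⨆ _ : a ∈ G u e, F u e)) →
      ∃ q'' ≤ q', ∃ a ∉ c, q'' ∈ U (fun u => ⨆ e, ⨆ _ : a ∈ G u e, F u e) := by
    intro q' hq' c hc hcc
    by_contra h1
    push Not at h1
    exact hcon q' hq' c hc (step hU hδκ F hdis q' (RO.down _ hq' htot) G hc hcc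
      fun a ha q'' hq'' => h1 q'' hq'' a ha)
  have hne : Nonempty (Q × Y) := by
    obtain ⟨q'', -, a, -, -⟩ := hstep q le_rfl ∅
      (by rw [mk_emptyCollection]; exact aleph0_pos.trans_le hδ) fun a ha => absurd ha (by simp)
    exact ⟨(q'', a)⟩
  have hα : #δ.ord.ToType = δ := mk_ord_toType δ
  obtain ⟨x, hx1, hx2⟩ := TR (α := δ.ord.ToType) (X := Q × Y)
    (fun _ x y => y.1 ≤ x.1 ∧ x.2 ≠ y.2)
    (fun _ y => y.1 ≤ q ∧ y.1 ∈ U (fun u => ⨆ e, ⨆ _ : y.2 ∈ G u e, F u e)) (by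
      intro i x h1 h2
      have hI : #(Set.Iio i) < δ := mk_Iio_ord_toType i
      obtain ⟨q', hq', h3⟩ := hQ.lower (α := Set.Iio i) (hI.trans hδκ) (fun j => (x j).1) (by
        intro j k hjk
        rcases hjk.eq_or_lt with h | h
        · rw [h]
        · exact (h1 j k h k.2).1) q fun j => (h2 j j.2).1
      obtain ⟨q'', hq'', a, ha, h4⟩ := hstep q' hq'
        (Set.range fun j : Set.Iio i => (x j).2) (mk_range_le.trans_lt hI) (by
          rintro _ ⟨j, rfl⟩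
          exact RO.down _ (h3 j) (h2 j j.2).2)
      refine ⟨(q'', a), fun j hj => ⟨hq''.trans (h3 ⟨j, hj⟩), ?_⟩, hq''.trans hq', h4⟩
      rintro rfl
      exact ha ⟨⟨j, hj⟩, rfl⟩)
  obtain ⟨r, hr, h3⟩ := hQ.lower (α := δ.ord.ToType) (by rw [hα]; exact hδκ)
    (fun j => (x j).1) (by
      intro j k hjk
      rcases hjk.eq_or_lt with h | h
      · rw [h]
      · exact (hx1 j k h).1) q fun j => (hx2 j).1
  have h4 : r ∈ U (fun u => ⨅ i, ⨆ e, ⨆ _ : (x i).2 ∈ G u e, F u e) :=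
    hU.complete δ.ord.ToType (fun i u => ⨆ e, ⨆ _ : (x i).2 ∈ G u e, F u e)
      (by rw [hα]; exact hδκ) r (RO.mem_iInf.2 fun i => RO.down _ (h3 i) (hx2 i).2)
  obtain ⟨u, q', hq', h5⟩ := hU.exists_mem (hU.mem_inf.2 ⟨h4, RO.down _ hr htot⟩)
  obtain ⟨h6, h7⟩ := h5
  obtain ⟨t, ht, e, h8⟩ := RO.mem_iSup.1 h7 q' le_rfl
  have h9 : ∀ i, (x i).2 ∈ G u e := by
    intro i
    obtain ⟨t', ht', e', h10, h11⟩ := mem_iS.1 (RO.mem_iInf.1 h6 i) t ht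
    have h12 : e = e' := eq_of_mem (hdis u) (RO.down _ ht' h8) h11
    rw [h12]
    exact h10
  have hinj : Function.Injective fun i : δ.ord.ToType => (⟨(x i).2, h9 i⟩ : G u e) := by
    intro i j hij
    have h10 : (x i).2 = (x j).2 := congrArg Subtype.val hij
    rcases lt_trichotomy i j with h | h | h
    · exact absurd h10 (hx1 i j h).2
    · exact h
    · exact absurd h10.symm (hx1 j i h).2
  have h10 := mk_le_of_injective hinj
  rw [hα] at h10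
  exact absurd (hG u e) (not_lt.2 h10)

end STP
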