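import Pool.Agent.STP.Cov
import Pool.Agent.STP.PD
import Pool.Agent.STP.GermCL
import Pool.Agent.STP.Inac

/-! # Preservation of regular cardinals (package X01)

(problem MP_e44aae_lc, project STP)

`BddP P c`: names of functions from a set with fewer than `c` elements to `c` are bounded.

* `BddP.iso`: transport.
* `bdd_small`: `#T < c`, `Q` is `DC c`, `c` regular: `NAME` (`δ = c`, index set `A`, the values in `c.ord.ToType`) gives `q ≤ q0` such that for all `x`, `t ≤ t0` there are `t' ≤ t`, `y` with `W (t', q) x y`. Choose `y (x,t)` for each `x : A`, `t : T` (below `t0`); these are fewer than `c`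
  elements of `c.ord.ToType` (`#A, #T < c`), so they have an upper bound `b` (`c` regular: `Ordinal` cofinality; `c.ord.ToType` has no maximum, `#Iio < c`). `(t0, q)` and `b` work.
* `bdd_cov`: `COV ν T` gives `BddP T (succ ν)`: `#A < succ ν` means `#A ≤ ν`; the covering set of values has at most `ν` elements, so it is bounded in `(succ ν).ord.ToType` (`Cardinal.isRegular_succ`).
* `CCP c T` (`c`-chain condition): a family of `c` conditions has two compatible members (with different indices).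
* `bdd_cc`: `T` has the `c`-chain condition, `#T ≤ c`, `Q` is `DC (succ c)`, `c` regular. `NAME` (`δ = succ c`) gives `q ≤ q0` with `W (·, q) x` densely decided below `t0`, for all `x`. For `x : A` the set `V x := {y | ∃ t ≤ t0, W (t, q) x y}` has fewer than `c` elements: otherwise there is an injection
  `c.out → V x`, choose `t_y ≤ t0` for its values; two of them are compatible, `t'' ≤ t_y, t_y'`, so `W (t'', q) x y` and `W (t'', q) x y'`, `y = y'` (`hfn`), contradiction. `⋃ x, V x` has fewer than `c` elements (`#A < c`, regular), so it is bounded.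
* `ccp_clq`: `Clq X r δ` has the `κ`-chain condition, if `κ` is `LI` (only the trivial `Q` is used), `δ < κ` infinite and regular or not, `r` symmetric, `#{y | ¬ r x y} < κ`: let `p : κ.out → Clq X r δ`. `Y := X ⊕ κ.out`, `U` on `Pk κ Y` for `Q = PUnit`. For `u : Pk κ Y` choose `x_u : κ.out` with
  `inr x_u ∉ u` (`#u < κ`). `PD` with `E u := PUnit`, `F := ⊤`, `G u _ := inl '' (p x_u).s`: a set `c` with `inl '' (p x_u).s ∩ u = c` for almost all `u` (`Q = PUnit`, so almost all is two-valued). Let `u` satisfy this and `loc_ae`; almost every `u'` satisfies this, `loc_ae`, `u ⊆ u'`, `inl '' (p x_u).s ⊆ u'` and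
  `inr x_u ∈ u'` (`small`), so such a `u'` exists (`exists_mem`). `x_{u'} ≠ x_u`. The union of `(p x_u).s` and `(p x_{u'}).s` is a clique: `z` in the first, `w` in the second: if `inl w ∈ u'` then `inl w ∈ c`, so `w` is in the first; if not, `r z w` because `inl z ∈ u'` and `loc_ae`. `Clq.exists_union`.
* `ccp_prod`: if `#L < c`, `c` regular, and `C` has the `c`-chain condition, so has `L × C`: by the pigeonhole principle (`Cardinal.infinite_pigeonhole_card` or regularity) `c` many members of a family of `c` members have the same first coordinate. -/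

universe u

namespace STP

open Cardinal

/-- names of functions from a set with fewer than `c` elements to `c` are bounded -/
def BddP (P : Type u) [Preorder P] (c : Cardinal.{u}) : Prop :=
  ∀ (A : Type u), #A < c → ∀ W : P → A → c.ord.ToType → Prop,
    (∀ p p' x y, p' ≤ p → W p x y → W p' x y) →
    (∀ p x y y', W p x y → W p x y' → y = y') →
    ∀ p0 : P, (∀ x, ∀ p ≤ p0, ∃ p' ≤ p, ∃ y, W p' x y) →
      ∃ p ≤ p0, ∃ b, ∀ x, ∀ q ≤ p, ∃ q' ≤ q, ∃ y ≤ b, W q' x y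

private theorem exists_bound {c : Cardinal.{u}} (hc : c.IsRegular) {ι : Type u} (hι : #ι < c)
    (f : ι → c.ord.ToType) : ∃ b, ∀ i, f i ≤ b := by
  by_contra hcon
  push Not at hcon
  have h1 : IsCofinal (Set.range f) := fun b => by
    obtain ⟨i, hi⟩ := hcon b
    exact ⟨f i, ⟨i, rfl⟩, hi.le⟩
  have h2 : Order.cof c.ord.ToType ≤ #(Set.range f) := Order.cof_le h1
  rw [Ordinal.cof_toType, hc.cof_ord] at h2
  exact absurd (h2.trans mk_range_le) (not_le.2 hι)

theorem BddP.iso {P P' : Type u} [Preorder P] [Preorder P'] (e : P ≃o P') {c : Cardinal.{u}}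
    (h : BddP P c) : BddP P' c := by
  intro A hA W hW hfn p0 hd
  obtain ⟨p, hp, b, hb⟩ := h A hA (fun p x y => W (e p) x y)
    (fun p p' x y hp h1 => hW (e p) (e p') x y (e.monotone hp) h1)
    (fun p x y y' h1 h2 => hfn (e p) x y y' h1 h2) (e.symm p0) (fun x p hp => by
      obtain ⟨p', hp', y, hy⟩ := hd x (e p) (by
        have h1 := e.monotone hp
        rwa [e.apply_symm_apply] at h1)
      refine ⟨e.symm p', ?_, y, ?_⟩
      · have h1 := e.symm.monotone hp'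
        rwa [e.symm_apply_apply] at h1
      · rwa [e.apply_symm_apply])
  refine ⟨e p, ?_, b, ?_⟩
  · have h1 := e.monotone hp
    rwa [e.apply_symm_apply] at h1
  · intro x q hq
    obtain ⟨q', hq', y, hy, h1⟩ := hb x (e.symm q) (by
      have h1 := e.symm.monotone hq
      rwa [e.symm_apply_apply] at h1)
    refine ⟨e q', ?_, y, hy, h1⟩
    have h2 := e.monotone hq'
    rwa [e.apply_symm_apply] at h2

theorem bdd_aleph0 (P : Type u) [Preorder P] : BddP P ℵ₀ := by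
  classical
  intro A hA W hW hfn p0 hd
  have hfin : Finite A := Cardinal.lt_aleph0_iff_finite.1 hA
  have h1 : ∀ s : Finset A, ∃ p ≤ p0, ∀ x ∈ s, ∃ y, W p x y := by
    intro s
    induction s using Finset.induction_on with
    | empty => exact ⟨p0, le_rfl, fun x hx => absurd hx (Finset.notMem_empty x)⟩
    | insert a s _ ih =>
      obtain ⟨p, hp, h1⟩ := ih
      obtain ⟨p', hp', y, hy⟩ := hd a p hp
      refine ⟨p', hp'.trans hp, fun x hx => ?_⟩
      rcases Finset.mem_insert.1 hx with rfl | hx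
      · exact ⟨y, hy⟩
      · obtain ⟨z, hz⟩ := h1 x hx
        exact ⟨z, hW p p' x z hp' hz⟩
  have := Fintype.ofFinite A
  obtain ⟨p, hp, h2⟩ := h1 Finset.univ
  choose y hy using fun x => h2 x (Finset.mem_univ x)
  obtain ⟨b, hb⟩ := exists_bound Cardinal.isRegular_aleph0 hA y
  exact ⟨p, hp, b, fun x q hq => ⟨q, le_rfl, y x, hb x, hW p q x (y x) hq (hy x)⟩⟩

theorem bdd_small {T Q : Type u} [Preorder T] [Preorder Q] {c : Cardinal.{u}}
    (hc : c.IsRegular) (hT : #T < c) (hQ : DC c Q) : BddP (T × Q) c := by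
  intro A hA W hW hfn p0 hd
  obtain ⟨t0, q0⟩ := p0
  obtain ⟨q, hq, h1⟩ := NAME hc.aleph0_le (T := T) (Q := Q) (J := A) (X := c.ord.ToType) hQ hT hA
    (fun x t q y => W (t, q) x y)
    (fun x t q y t' q' ht hq h => hW (t, q) (t', q') x y ⟨ht, hq⟩ h) t0 q0
    (fun x t ht q hq => by
      obtain ⟨⟨t', q'⟩, h, y, hy⟩ := hd x (t, q) ⟨ht, hq⟩
      exact ⟨t', h.1, q', h.2, y, hy⟩)
  have h2 : ∀ z : A × {t : T // t ≤ t0}, ∃ y, ∃ t' ≤ z.2.1, W (t', q) z.1 y := by
    rintro ⟨x, t, ht⟩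
    obtain ⟨t', ht', y, hy⟩ := h1 x t ht
    exact ⟨y, t', ht', hy⟩
  choose y hy using h2
  have h3 : #(A × {t : T // t ≤ t0}) < c := by
    rw [mk_prod, lift_id, lift_id]
    exact mul_lt_of_lt hc.aleph0_le hA ((mk_subtype_le _).trans_lt hT)
  obtain ⟨b, hb⟩ := exists_bound hc h3 y
  refine ⟨(t0, q), ⟨le_rfl, hq⟩, b, ?_⟩
  rintro x ⟨t, q'⟩ ht
  obtain ⟨t', ht', h4⟩ := hy (x, ⟨t, ht.1⟩)
  exact ⟨(t', q'), ⟨ht', le_rfl⟩, y (x, ⟨t, ht.1⟩), hb _,
    hW (t', q) (t', q') x _ ⟨le_rfl, ht.2⟩ h4⟩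

theorem bdd_cov {T : Type u} [Preorder T] {ν : Cardinal.{u}} (hν : ℵ₀ ≤ ν) (hc : COV ν T) :
    BddP T (Order.succ ν) := by
  intro A hA W hW hfn p0 hd
  obtain ⟨t1, ht1, S, hS, h1⟩ := hc A _ (Order.lt_succ_iff.1 hA) (fun x t y => W t x y)
    (fun x t t' y ht h => hW t t' x y ht h) p0 hd
  obtain ⟨b, hb⟩ := exists_bound (Cardinal.isRegular_succ hν) (Order.lt_succ_of_le hS)
    (fun y : S => y.1)
  refine ⟨t1, ht1, b, fun x q hq => ?_⟩
  obtain ⟨t', ht', y, hy, h2⟩ := h1 x q hq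
  exact ⟨t', ht', y, hb ⟨y, hy⟩, h2⟩

/-- the `c`-chain condition -/
def CCP (c : Cardinal.{u}) (T : Type u) [Preorder T] : Prop :=
  ∀ t : c.out → T, ∃ x y, x ≠ y ∧ ∃ s, s ≤ t x ∧ s ≤ t y

theorem bdd_cc {T Q : Type u} [Preorder T] [Preorder Q] {c : Cardinal.{u}}
    (hc : c.IsRegular) (hcc : CCP c T) (hT : #T ≤ c) (hQ : DC (Order.succ c) Q) :
    BddP (T × Q) c := by
  intro A hA W hW hfn p0 hd
  obtain ⟨t0, q0⟩ := p0
  obtain ⟨q, hq, h1⟩ := NAME (hc.aleph0_le.trans (Order.le_succ c)) (T := T) (Q := Q) (J := A)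
    (X := c.ord.ToType) hQ (Order.lt_succ_of_le hT) (hA.trans (Order.lt_succ c))
    (fun x t q y => W (t, q) x y)
    (fun x t q y t' q' ht hq h => hW (t, q) (t', q') x y ⟨ht, hq⟩ h) t0 q0
    (fun x t ht q hq => by
      obtain ⟨⟨t', q'⟩, h, y, hy⟩ := hd x (t, q) ⟨ht, hq⟩
      exact ⟨t', h.1, q', h.2, y, hy⟩)
  let V : A → Set c.ord.ToType := fun x => {y | ∃ t ≤ t0, W (t, q) x y}
  have hV : ∀ x, #(V x) < c := by
    intro x
    by_contra hcon
    rw [not_lt] at hcon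
    have h2 : #c.out ≤ #(V x) := by rwa [mk_out]
    obtain ⟨i⟩ := h2
    choose t ht h3 using fun z : c.out => (i z).2
    obtain ⟨z, z', hzz, s, hs, hs'⟩ := hcc t
    have h4 := hW (t z, q) (s, q) x _ ⟨hs, le_rfl⟩ (h3 z)
    have h5 := hW (t z', q) (s, q) x _ ⟨hs', le_rfl⟩ (h3 z')
    exact hzz (i.injective (Subtype.ext (hfn _ _ _ _ h4 h5)))
  have h2 : #(⋃ x, V x : Set c.ord.ToType) < c :=
    (card_iUnion_lt_iff_forall_of_isRegular hc hA).2 hV
  obtain ⟨b, hb⟩ := exists_bound hc h2 (fun y => y.1)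
  refine ⟨(t0, q), ⟨le_rfl, hq⟩, b, ?_⟩
  rintro x ⟨t, q'⟩ ht
  obtain ⟨t', ht', y, hy⟩ := h1 x t ht.1
  exact ⟨(t', q'), ⟨ht', le_rfl⟩, y, hb ⟨y, Set.mem_iUnion.2 ⟨x, t', ht'.trans ht.1, hy⟩⟩,
    hW (t', q) (t', q') x y ⟨le_rfl, ht.2⟩ hy⟩

theorem ccp_clq {κ δ : Cardinal.{u}} (hκ : LI κ) {X : Type u} {r : X → X → Prop}
    (hδ : ℵ₀ ≤ δ) (hδκ : δ < κ) (hr : ∀ x y, r x y → r y x) (hloc : ∀ x, #{y | ¬ r x y} < κ) :
    CCP κ (Clq X r δ) := by
  intro p
  have hDC : DC κ PUnit.{u + 1} := fun D _ _ => ⟨PUnit.unit, fun d _ => le_rfl⟩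
  obtain ⟨V, hV⟩ := hκ.2 PUnit.{u + 1} hDC (X ⊕ κ.out)
  have hx : ∀ u : Pk κ (X ⊕ κ.out), ∃ x : κ.out, Sum.inr x ∉ u.1 := by
    intro u
    by_contra hall
    push Not at hall
    have h1 : #κ.out ≤ #u.1 := mk_le_of_injective (f := fun x : κ.out =>
      (⟨Sum.inr x, hall x⟩ : u.1)) fun x y hxy =>
        Sum.inr_injective (congrArg Subtype.val hxy)
    rw [mk_out] at h1
    exact absurd u.2 (not_lt.2 h1)
  choose x hx using hx
  have htop : PUnit.unit ∈ V (fun u => ⨆ _ : PUnit.{u + 1}, (⊤ : RO PUnit.{u + 1})) := by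
    have h1 : (fun u : Pk κ (X ⊕ κ.out) => ⨆ _ : PUnit.{u + 1}, (⊤ : RO PUnit.{u + 1})) =
        fun _ => ⊤ := funext fun _ => by simp
    rw [h1, hV.const]
    trivial
  obtain ⟨q', -, c, -, hc⟩ := PD hV hDC hδ hδκ (E := fun _ => PUnit.{u + 1}) (fun _ _ => ⊤)
    (fun u e e' h => (h (Subsingleton.elim e e')).elim) PUnit.unit htop
    (fun u _ => Sum.inl '' (p (x u)).s) (fun u _ => mk_image_le.trans_lt (p (x u)).card)
  have hval : ∀ (u : Pk κ (X ⊕ κ.out)) (t : PUnit.{u + 1}),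
      t ∈ (⨆ _ : PUnit.{u + 1}, ⨆ _ : Sum.inl '' (p (x u)).s ∩ u.1 = c,
        (⊤ : RO PUnit.{u + 1})) → Sum.inl '' (p (x u)).s ∩ u.1 = c := by
    intro u t ht
    obtain ⟨t1, -, e, h1⟩ := RO.mem_iSup.1 ht t le_rfl
    obtain ⟨t2, -, h2, -⟩ := RO.mem_iSup.1 h1 t1 le_rfl
    exact h2
  have hla := loc_ae (r := r) hV Sum.inl Sum.inl_injective hloc
  obtain ⟨u, t, -, hut⟩ := NormalU.exists_mem hV hc
  have hu := hval u t hut
  have h1 : q' ∈ V (fun u' => chi (Sum.inl '' (p (x u)).s ⊆ u'.1)) :=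
    NormalU.of_top hV (hV.small (mk_image_le.trans_lt ((p (x u)).card.trans hδκ)))
  have h2 : q' ∈ V (fun u' => chi (Sum.inr (x u) ∈ u'.1)) := NormalU.of_top hV (hV.fine _)
  have h3 := NormalU.of_top (q := q') hV hla
  obtain ⟨u', t', -, ⟨⟨ha, hb⟩, hd⟩, he⟩ := NormalU.exists_mem hV
    ((NormalU.mem_inf hV).2 ⟨(NormalU.mem_inf hV).2 ⟨(NormalU.mem_inf hV).2 ⟨hc, h1⟩, h2⟩, h3⟩)
  have hu' := hval u' t' ha
  rw [RO.mem_chi] at hb hd he
  have hne : x u ≠ x u' := fun h => hx u' (h ▸ hd)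
  have key : ∀ z ∈ (p (x u)).s, ∀ w ∈ (p (x u')).s, r z w := by
    intro z hz w hw
    by_cases hwu : Sum.inl w ∈ u'.1
    · have h4 : (Sum.inl w : X ⊕ κ.out) ∈ c := hu' ▸ ⟨⟨w, hw, rfl⟩, hwu⟩
      rw [← hu] at h4
      obtain ⟨⟨w', hw', h5⟩, -⟩ := h4
      rw [Sum.inl_injective h5] at hw'
      exact (p (x u)).cl z hz w hw'
    · by_contra hcon
      exact hwu (he z w (hb ⟨z, hz, rfl⟩) hcon)
  obtain ⟨s, -, hs1, hs2⟩ := Clq.exists_union hδ (p (x u)) (p (x u')) (by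
    rintro z (hz | hz) w (hw | hw)
    · exact (p (x u)).cl z hz w hw
    · exact key z hz w hw
    · exact hr _ _ (key w hw z hz)
    · exact (p (x u')).cl z hz w hw)
  exact ⟨x u, x u', hne, s, hs1, hs2⟩

theorem ccp_prod {c : Cardinal.{u}} (hc : c.IsRegular) {L C : Type u} [Preorder L] [Preorder C]
    (hL : #L < c) (hC : CCP c C) : CCP c (L × C) := by
  intro t
  obtain ⟨a, ha⟩ := infinite_pigeonhole_card (fun z : c.out => (t z).1) c (by rw [mk_out])
    hc.aleph0_le (by rwa [hc.cof_ord])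
  have h1 : #c.out ≤ #((fun z : c.out => (t z).1) ⁻¹' {a}) := by rwa [mk_out]
  obtain ⟨j⟩ := h1
  obtain ⟨z, z', hzz, s, hs, hs'⟩ := hC fun z => (t (j z).1).2
  refine ⟨(j z).1, (j z').1, fun h => hzz (j.injective (Subtype.ext h)), (a, s), ?_, ?_⟩
  · exact ⟨(show (t (j z).1).1 = a from (j z).2).ge, hs⟩
  · exact ⟨(show (t (j z').1).1 = a from (j z').2).ge, hs'⟩

end STP
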