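import Pool.Agent.STP.Blk

/-! # One block: cardinal arithmetic (package S13)

(problem MP_e44aae_lc, project STP)

All `Cardinal.iSup` are over small types (`Γ : Type u`), so bounded above (`Cardinal.bddAbove_range`).

* `exists_succ`: `#{j // j ≤ i} < γ = #Γ`, so `{j | i < j}` is nonempty; take its least element.
* `lt_nu`: `k i < k j ≤ ν` for some `j > i`. `gamma_lt_nu`, `kb_lt_nu`, `aleph0_le_nu` (`Γ` is nonempty since `#Γ = γ ≥ ℵ₀`).
* `rho_lt`: `#{j // j < i} < γ < k i`, `k i` regular (`LI.reg`), `k j < k i`: `Cardinal.iSup_lt_of_isRegular` (or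
  `Cardinal.iSup_lt_lift_of_isRegular`); `kb < k i`. `dl_lt`: `k i` is a limit cardinal (strong limit): `succ x ≤ 2 ^ x < k i` for `x < k i`.
* `lt_dl`: for `i < j`, `k i ≤ ρ_j < dl j`. `kb_lt_dl`, `gamma_lt_dl`.
* `rho_succ`: if `i < j` and `∀ l < j, l ≤ i`, then `ρ_j = k i` (`k l ≤ k i` for `l ≤ i`, `kb < k i`); so `dl j = succ (succ (k i))`.
* `dl_reg`: successor cardinals are regular (`Cardinal.isRegular_succ`).
* `nu_strong`: if `x < ν` then `x < k i` for some `i` (`exists_lt_of_lt_ciSup`), `2 ^ x < k i ≤ ν`.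
* `decomp`: `#J ≤ ν`: inject `J` into `ν.ord.ToType` (or `ν.out`) and use `Ji i := {s | rank of the image < (k i).ord}`; alternatively: the type
  `Σ i, (k i).out` has cardinality `sum k ≥ ν` (`Cardinal.iSup_le_sum`); an injection `f : J → Σ i, (k i).out` and `Ji i := {s | (f s).1 = i}` (the
  second components are an injection `Ji i → (k i).out`).
* `small_sets`: `#{s : Set X // #s < γ} ≤ ν` if `#X ≤ ν`: by `decomp` `X = ⋃ i, Xi i` with `#(Xi i) ≤ k i`; put `X'i := ⋃_{j ≤ i} Xi j` (increasing, `#(X'i) ≤ k i`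
  because `#{j // j ≤ i} < γ < k i`). A subset `s` with `#s < γ` is a subset of some `X'i` (`γ` regular: the indices of the elements of `s` are bounded in `Γ`,
  because a cofinal subset of `Γ` with fewer than `γ` elements would give `#Γ < γ` by `init` and regularity). So the number is at most
  `∑ i, #{s : Set (X'i) // #s < k i} ≤ ∑ i, k i ≤ ν * ν = ν` (`card_small_sets`).
* `card_CC`, `card_low`: `Levy.card_le`, `pi_card_le` (`#{j // j ≤ i} < γ < k i`; `#(CC j) ≤ k j ≤ k i`).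
* `card_HR`: `#(∀ i, CC i) ≤ ∏ k i ≤ ν ^ #Γ ≤ ν ^ ν = 2 ^ ν`; `#(R0 k) ≤ 2 ^ ν`: subsets of size `≤ ν` of a set of size `succ ν * 2 ^ ν = 2 ^ ν`:
  `Cardinal.mk_subset_ge_of_subset_image`/`Cardinal.mk_bounded_set_le` style: each such nonempty set is the range of a function
  `ν.out → _`, so `≤ (2 ^ ν) ^ ν + 1 = 2 ^ ν`.
* `card_TT`: `#(TT S γ kb μ) ≤ kb` if `#S < kb`, `μ < kb`: `Clq.card_le` (`γ.out × μ.out` has fewer than `kb` elements, `γ ≤ kb`; `succ³ μ ≤ kb`). -/

universe u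

namespace STP

open Cardinal

variable {Γ : Type u} [LinearOrder Γ] {γ kb : Cardinal.{u}} {k : Γ → Cardinal.{u}}

namespace Block

private theorem nonempty (h : Block Γ γ kb k) : Nonempty Γ := by
  rw [← Cardinal.mk_ne_zero_iff, h.card]
  exact h.reg.pos.ne'

private theorem le_nu (k : Γ → Cardinal.{u}) (i : Γ) : k i ≤ nu k :=
  le_ciSup Cardinal.bddAbove_of_small i

theorem exists_succ (h : Block Γ γ kb k) (i : Γ) : ∃ j, i < j ∧ ∀ l, l < j → l ≤ i := by
  have := h.wf
  have hne : {j | i < j}.Nonempty := by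
    by_contra h0
    rw [Set.not_nonempty_iff_eq_empty] at h0
    have h1 : ∀ j : Γ, j ≤ i := by
      intro j
      by_contra h2
      have h3 : j ∈ {j | i < j} := not_le.1 h2
      rw [h0] at h3
      exact h3
    have h2 : #Γ ≤ #{j : Γ // j ≤ i} :=
      Cardinal.mk_le_of_injective (f := fun j : Γ => (⟨j, h1 j⟩ : {j : Γ // j ≤ i}))
        (fun a b hab => congrArg Subtype.val hab)
    rw [h.card] at h2
    exact absurd (h.init i) (not_lt.2 h2)
  obtain ⟨j, hj, hmin⟩ := WellFounded.has_min (wellFounded_lt (α := Γ)) _ hne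
  exact ⟨j, hj, fun l hl => not_lt.1 fun h2 => hmin l h2 hl⟩

theorem lt_nu (h : Block Γ γ kb k) (i : Γ) : k i < nu k := by
  obtain ⟨j, hij, -⟩ := h.exists_succ i
  exact (h.mono i j hij).trans_le (le_nu k j)

theorem kb_lt_nu (h : Block Γ γ kb k) : kb < nu k := by
  obtain ⟨i⟩ := h.nonempty
  exact (h.kbk i).trans_le (le_nu k i)

theorem gamma_lt_nu (h : Block Γ γ kb k) : γ < nu k := by
  exact h.gkb.trans h.kb_lt_nu

theorem aleph0_le_nu (h : Block Γ γ kb k) : ℵ₀ ≤ nu k := by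
  exact h.LIb.1.le.trans h.kb_lt_nu.le

theorem aleph0_lt_kb (h : Block Γ γ kb k) : ℵ₀ < kb := h.LIb.1

theorem aleph0_lt_k (h : Block Γ γ kb k) (i : Γ) : ℵ₀ < k i := (h.LIk i).1

theorem rho_lt (h : Block Γ γ kb k) (i : Γ) : rho kb k i < k i := by
  have hr := (h.LIk i).reg
  have h1 : #{j : Γ // j < i} < k i := by
    refine lt_of_le_of_lt ?_ (((h.init i).trans h.gkb).trans (h.kbk i))
    exact Cardinal.mk_subtype_mono fun j hj => le_of_lt hj
  refine max_lt (h.kbk i) ?_
  refine Cardinal.iSup_lt_of_lt_cof_ord ?_ fun j => h.mono _ _ j.2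
  rwa [hr.cof_ord]

theorem dl_lt (h : Block Γ γ kb k) (i : Γ) : dl kb k i < k i := by
  have hs : ∀ x < k i, Order.succ x < k i := fun x hx =>
    (Order.succ_le_of_lt (Cardinal.cantor x)).trans_lt ((h.LIk i).strong x hx)
  exact hs _ (hs _ (h.rho_lt i))

theorem lt_dl (h : Block Γ γ kb k) {i j : Γ} (hij : i < j) : Order.succ (k i) ≤ dl kb k j := by
  have h1 : k i ≤ rho kb k j :=
    le_max_of_le_right (le_ciSup (f := fun l : {l : Γ // l < j} => k l.1)
      Cardinal.bddAbove_of_small ⟨i, hij⟩)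
  exact (Order.succ_le_succ h1).trans (Order.le_succ _)

theorem kb_lt_dl (h : Block Γ γ kb k) (j : Γ) : Order.succ (Order.succ kb) ≤ dl kb k j := by
  exact Order.succ_le_succ (Order.succ_le_succ (le_max_left _ _))

theorem gamma_lt_dl (h : Block Γ γ kb k) (j : Γ) : Order.succ γ ≤ dl kb k j := by
  exact ((Order.succ_le_succ h.gkb.le).trans (Order.le_succ _)).trans (h.kb_lt_dl j)

theorem dl_succ (h : Block Γ γ kb k) {i j : Γ} (hij : i < j) (hj : ∀ l, l < j → l ≤ i) :
    dl kb k j = Order.succ (Order.succ (k i)) := by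
  have h1 : rho kb k j = k i := by
    apply le_antisymm
    · refine max_le (h.kbk i).le (ciSup_le' fun l => ?_)
      rcases (hj l.1 l.2).eq_or_lt with h2 | h2
      · rw [h2]
      · exact (h.mono _ _ h2).le
    · exact le_max_of_le_right (le_ciSup (f := fun l : {l : Γ // l < j} => k l.1)
        Cardinal.bddAbove_of_small ⟨i, hij⟩)
  unfold dl
  rw [h1]

theorem dl_reg (h : Block Γ γ kb k) (i : Γ) : (dl kb k i).IsRegular := by
  refine Cardinal.isRegular_succ ?_
  exact (h.LIb.1.le.trans (le_max_left _ _)).trans (Order.le_succ _)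

theorem nu_strong (h : Block Γ γ kb k) : ∀ x < nu k, 2 ^ x < nu k := by
  intro x hx
  have := h.nonempty
  obtain ⟨i, hi⟩ := exists_lt_of_lt_ciSup hx
  exact ((h.LIk i).strong x hi).trans_le (le_nu k i)

theorem decomp (h : Block Γ γ kb k) (J : Type u) (hJ : #J ≤ nu k) :
    ∃ Ji : Γ → Set J, (∀ i, #(Ji i) ≤ k i) ∧ ∀ s, ∃ i, s ∈ Ji i := by
  have h1 : #J ≤ #(Σ i, (k i).out) := by
    rw [Cardinal.mk_sigma]
    simp only [Cardinal.mk_out]
    exact hJ.trans (Cardinal.iSup_le_sum k)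
  obtain ⟨f⟩ := h1
  refine ⟨fun i => f ⁻¹' Set.range (fun x : (k i).out => (⟨i, x⟩ : Σ i, (k i).out)), ?_, ?_⟩
  · intro i
    refine (Cardinal.mk_preimage_of_injective _ _ f.injective).trans ?_
    refine Cardinal.mk_range_le.trans ?_
    rw [Cardinal.mk_out]
  · intro s
    exact ⟨(f s).1, ⟨(f s).2, rfl⟩⟩

theorem small_sets (h : Block Γ γ kb k) {X : Type u} (hX : #X ≤ nu k) :
    #{s : Set X // #s < γ} ≤ nu k := by
  have := h.nonempty
  obtain ⟨Xi, hXi, hcov⟩ := h.decomp X hX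
  let X' : Γ → Set X := fun i => ⋃ j : {j : Γ // j ≤ i}, Xi j.1
  have hk0 : ∀ i, ℵ₀ ≤ k i := fun i => (h.LIk i).1.le
  have hkm : ∀ i j, i ≤ j → k i ≤ k j := by
    intro i j hij
    rcases hij.eq_or_lt with h2 | h2
    · rw [h2]
    · exact (h.mono _ _ h2).le
  have hX' : ∀ i, #(X' i) ≤ k i := by
    intro i
    refine (Cardinal.mk_iUnion_le _).trans ?_
    refine (mul_le_mul' (a := #{j : Γ // j ≤ i}) (b := k i) (d := k i) ?_ ?_).trans ?_
    · exact (((h.init i).trans h.gkb).trans (h.kbk i)).le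
    · exact ciSup_le' fun j => (hXi j.1).trans (hkm _ _ j.2)
    · rw [Cardinal.mul_eq_self (hk0 i)]
  have hsub : ∀ s : Set X, #s < γ → ∃ i, s ⊆ X' i := by
    intro s hs
    choose idx hidx using hcov
    by_contra hcon
    push Not at hcon
    have h1 : ∀ i : Γ, ∃ x ∈ s, i < idx x := by
      intro i
      obtain ⟨x, hx, hx'⟩ := Set.not_subset.1 (hcon i)
      refine ⟨x, hx, ?_⟩
      by_contra h2
      exact hx' (Set.mem_iUnion.2 ⟨⟨idx x, not_lt.1 h2⟩, hidx x⟩)
    have h2 : #(⋃ x : s, {j : Γ | j ≤ idx x.1}) < γ := by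
      rw [Cardinal.card_iUnion_lt_iff_forall_of_isRegular h.reg hs]
      intro x
      exact h.init _
    have h3 : (⋃ x : s, {j : Γ | j ≤ idx x.1}) = Set.univ := by
      rw [Set.eq_univ_iff_forall]
      intro i
      obtain ⟨x, hx, hx'⟩ := h1 i
      exact Set.mem_iUnion.2 ⟨⟨x, hx⟩, hx'.le⟩
    rw [h3, Cardinal.mk_univ, h.card] at h2
    exact lt_irrefl _ h2
  have hS : ({s : Set X | #s < γ}) ⊆
      ⋃ i, Set.range (fun t : {t : Set (X' i) // #t < k i} => Subtype.val '' t.1) := by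
    intro s hs
    obtain ⟨i, hi⟩ := hsub s hs
    refine Set.mem_iUnion.2 ⟨i, ⟨⟨{x : X' i | x.1 ∈ s}, ?_⟩, ?_⟩⟩
    · refine lt_of_le_of_lt ?_ ((lt_trans hs h.gkb).trans (h.kbk i))
      exact Cardinal.mk_le_of_injective
        (f := fun x : {x : X' i | x.1 ∈ s} => (⟨x.1.1, x.2⟩ : s))
        (fun a b hab => by
          have h5 : a.1.1 = b.1.1 := congrArg (fun z : s => z.1) hab
          exact Subtype.ext (Subtype.ext h5))
    · ext x
      constructor
      · rintro ⟨y, hy, rfl⟩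
        exact hy
      · intro hx
        exact ⟨⟨x, hi hx⟩, hx, rfl⟩
  calc #{s : Set X // #s < γ} ≤ #(⋃ i, Set.range
        (fun t : {t : Set (X' i) // #t < k i} => Subtype.val '' t.1)) :=
        Cardinal.mk_le_mk_of_subset hS
    _ ≤ Cardinal.sum fun i => #(Set.range
        (fun t : {t : Set (X' i) // #t < k i} => Subtype.val '' t.1)) :=
        Cardinal.mk_iUnion_le_sum_mk
    _ ≤ Cardinal.sum fun _ : Γ => nu k := by
        refine Cardinal.sum_le_sum _ _ fun i => ?_
        refine Cardinal.mk_range_le.trans ?_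
        exact (card_small_sets (h.LIk i).reg (h.LIk i).strong (hX' i)).trans (le_nu k i)
    _ = #Γ * nu k := by rw [Cardinal.sum_const']
    _ ≤ nu k * nu k := mul_le_mul' (by rw [h.card]; exact h.gamma_lt_nu.le) le_rfl
    _ = nu k := Cardinal.mul_eq_self h.aleph0_le_nu

theorem card_CC (h : Block Γ γ kb k) (i : Γ) : #(CC kb k i) ≤ k i := by
  exact Levy.card_le (h.LIk i).reg (h.LIk i).strong (h.dl_lt i).le

theorem card_low (h : Block Γ γ kb k) (i : Γ) : #(∀ j : {j : Γ // j ≤ i}, CC kb k j.1) ≤ k i := by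
  refine pi_card_le (h.LIk i).reg (h.LIk i).strong
    (((h.init i).trans h.gkb).trans (h.kbk i)) _ fun j => (h.card_CC j.1).trans ?_
  rcases j.2.eq_or_lt with h2 | h2
  · rw [h2]
  · exact (h.mono _ _ h2).le

theorem card_HR (h : Block Γ γ kb k) : #(HR kb k) ≤ 2 ^ nu k := by
  have h0 := h.aleph0_le_nu
  have h1 : #(HH kb k) ≤ 2 ^ nu k := by
    rw [Cardinal.mk_pi]
    calc Cardinal.prod (fun i => #(CC kb k i)) ≤ Cardinal.prod (fun _ : Γ => nu k) :=
          Cardinal.prod_le_prod _ _ fun i => (h.card_CC i).trans (le_nu k i)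
      _ = nu k ^ #Γ := by rw [Cardinal.prod_const']
      _ ≤ nu k ^ nu k := by
          apply Cardinal.power_le_power_left
          · exact (lt_of_lt_of_le Cardinal.aleph0_pos h0).ne'
          · rw [h.card]
            exact h.gamma_lt_nu.le
      _ = 2 ^ nu k := Cardinal.power_self_eq h0
  have h2 : #(R0 k) ≤ 2 ^ nu k := by
    have h3 : #((Order.succ (nu k)).out × ((2 : Cardinal.{u}) ^ nu k).out) ≤ 2 ^ nu k := by
      rw [Cardinal.mk_prod, Cardinal.lift_id, Cardinal.lift_id, Cardinal.mk_out, Cardinal.mk_out]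
      refine (mul_le_mul' (Order.succ_le_of_lt (Cardinal.cantor (nu k))) le_rfl).trans ?_
      rw [Cardinal.mul_eq_self]
      exact h0.trans (Cardinal.cantor _).le
    have h4 : #(R0 k) ≤ #{t : Set ((Order.succ (nu k)).out × ((2 : Cardinal.{u}) ^ nu k).out) //
        #t ≤ nu k} :=
      Cardinal.mk_le_of_injective (f := fun c : R0 k =>
        (⟨c.s, Order.lt_succ_iff.1 c.card⟩ :
          {t : Set ((Order.succ (nu k)).out × ((2 : Cardinal.{u}) ^ nu k).out) // #t ≤ nu k}))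
        (fun a b hab => Clq.ext (congrArg Subtype.val hab))
    refine h4.trans ((Cardinal.mk_bounded_set_le _ _).trans ?_)
    calc _ ≤ ((2 : Cardinal.{u}) ^ nu k) ^ nu k :=
          Cardinal.power_le_power_right (max_le h3 (h0.trans (Cardinal.cantor _).le))
      _ = 2 ^ nu k := by
          rw [← Cardinal.power_mul, Cardinal.mul_eq_self h0]
  rw [Cardinal.mk_prod, Cardinal.lift_id, Cardinal.lift_id]
  refine (mul_le_mul' h1 h2).trans ?_
  rw [Cardinal.mul_eq_self]
  exact h0.trans (Cardinal.cantor _).le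

theorem card_TT (h : Block Γ γ kb k) {S : Type u} (hS : #S < kb) {μ : Cardinal.{u}}
    (hμ : μ < kb) : #(TT S γ kb μ) ≤ kb := by
  have hr := h.LIb.reg
  have hs := h.LIb.strong
  have h0 : ℵ₀ ≤ kb := h.LIb.1.le
  have hsuc : ∀ x < kb, Order.succ x < kb := fun x hx =>
    (Order.succ_le_of_lt (Cardinal.cantor x)).trans_lt (hs x hx)
  have h1 : #(Col γ μ.out) ≤ kb := by
    refine Clq.card_le hr hs ?_ _ h.gkb.le
    rw [Cardinal.mk_prod, Cardinal.lift_id, Cardinal.lift_id, Cardinal.mk_out, Cardinal.mk_out]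
    refine (mul_le_mul' h.gkb.le hμ.le).trans ?_
    rw [Cardinal.mul_eq_self h0]
  have h3 : Order.succ (Order.succ (Order.succ μ)) ≤ kb :=
    (hsuc _ (hsuc _ (hsuc _ hμ))).le
  have h2 : #(Col (Order.succ (Order.succ (Order.succ μ))) kb.out) ≤ kb := by
    refine Clq.card_le hr hs ?_ _ h3
    rw [Cardinal.mk_prod, Cardinal.lift_id, Cardinal.lift_id, Cardinal.mk_out, Cardinal.mk_out]
    refine (mul_le_mul' h3 le_rfl).trans ?_
    rw [Cardinal.mul_eq_self h0]
  rw [Cardinal.mk_prod, Cardinal.lift_id, Cardinal.lift_id, Cardinal.mk_prod, Cardinal.lift_id,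
    Cardinal.lift_id]
  refine (mul_le_mul' (mul_le_mul' hS.le h1) h2).trans ?_
  rw [Cardinal.mul_eq_self h0, Cardinal.mul_eq_self h0]

end Block

end STP
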