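import Pool.Agent.STP.Rec

/-! # Covering: products with closed posets, no collapse (package S04)

(problem MP_e44aae_lc, project STP)

* `COV.prod`: let `W : J → T × R → X → Prop` be open, `#J ≤ ν`, dense below `(t0, r0)`. `NAME`
  with `δ = succ τ` (`#T ≤ τ`, `#J ≤ ν ≤ τ`) gives `r ≤ r0` such that for all `s` the set `{t | ∃
  x, W s (t, r) x}` is dense below `t0`. `COV ν T` for `fun s t x => W s (t, r) x` gives `t1 ≤
  t0`, `A`. Then `(t1, r)` and `A` work: for `(t, r') ≤ (t1, r)` take `t' ≤ t`, `x ∈ A` with `W s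
  (t', r) x`, then `(t', r') ≤ (t, r')` and `W s (t', r') x`.
* `COV.iso`: transport along an order isomorphism.
* `no_collapse`: text 4.3. `E` has more than `ν` elements, for `f ∈ E` the open relation `W f` is
  (the name of) a node `ξ ∈ N`, `#N ≤ ν`. Index set `N`, values in `Option E`: `V ξ t (some f) :=
  W f t ξ`, `V ξ t none := ∀ t' ≤ t, ∀ f, ¬ W f t' ξ`. It is open, and dense: given `t`, either
  some `t' ≤ t` and `f` have `W f t' ξ` (`some f`) or not (`none`). `COV` gives `t1 ≤ t0` and `A :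
  Set (Option E)`, `#A ≤ ν`. As `#E > ν`, there is `f0 : E` with `some f0 ∉ A` (otherwise `some
  ⁻¹' A = univ`). Take `t ≤ t1`, `ξ` with `W f0 t ξ` (density) and then `t' ≤ t`, `x ∈ A` with `V
  ξ t' x`. `x = none` contradicts `W f0 t' ξ`; `x = some f` with `f ≠ f0`: `W f t' ξ` and `W f0 t'
  ξ`. -/

universe u

namespace STP

open Cardinal

theorem COV.prod {ν τ : Cardinal.{u}} (hτ : ℵ₀ ≤ τ) (hν : ν ≤ τ) {T R : Type u} [Preorder T]
    [Preorder R] (hT : #T ≤ τ) (hc : COV ν T) (hR : DC (Order.succ τ) R) : COV ν (T × R) := by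
  intro J X hJ W hW p0 hd
  obtain ⟨t0, r0⟩ := p0
  obtain ⟨r, hr, h1⟩ := NAME (hτ.trans (Order.le_succ τ)) (T := T) (Q := R) (J := J) (X := X) hR
    (Order.lt_succ_of_le hT) (Order.lt_succ_of_le (hJ.trans hν)) (fun s t q x => W s (t, q) x)
    (fun s t q x t' q' ht hq h => hW s (t, q) (t', q') x ⟨ht, hq⟩ h) t0 r0
    (fun s t ht q hq => by
      obtain ⟨⟨t', q'⟩, h, x, hx⟩ := hd s (t, q) ⟨ht, hq⟩
      exact ⟨t', h.1, q', h.2, x, hx⟩)
  obtain ⟨t1, ht1, A, hA, h2⟩ := hc J X hJ (fun s t x => W s (t, r) x)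
    (fun s t t' x ht h => hW s (t, r) (t', r) x ⟨ht, le_rfl⟩ h) t0 h1
  refine ⟨(t1, r), ⟨ht1, hr⟩, A, hA, ?_⟩
  rintro s ⟨t, r'⟩ ht
  obtain ⟨t', ht', x, hx, h3⟩ := h2 s t ht.1
  exact ⟨(t', r'), ⟨ht', le_rfl⟩, x, hx, hW s (t', r) (t', r') x ⟨le_rfl, ht.2⟩ h3⟩

theorem COV.iso {ν : Cardinal.{u}} {T T' : Type u} [Preorder T] [Preorder T'] (e : T ≃o T')
    (hc : COV ν T) : COV ν T' := by
  intro J X hJ W hW t0 hd
  obtain ⟨t1, ht1, A, hA, h⟩ := hc J X hJ (fun s t x => W s (e t) x)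
    (fun s t t' x ht hx => hW s (e t) (e t') x (e.monotone ht) hx) (e.symm t0)
    (fun s t ht => by
      obtain ⟨t', ht', x, hx⟩ := hd s (e t) (by
        have h1 := e.monotone ht
        rwa [e.apply_symm_apply] at h1)
      refine ⟨e.symm t', ?_, x, ?_⟩
      · have h1 := e.symm.monotone ht'
        rwa [e.symm_apply_apply] at h1
      · rwa [e.apply_symm_apply])
  refine ⟨e t1, ?_, A, hA, ?_⟩
  · have h1 := e.monotone ht1
    rwa [e.apply_symm_apply] at h1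
  · intro s t ht
    obtain ⟨t', ht', x, hx, h1⟩ := h s (e.symm t) (by
      have h1 := e.symm.monotone ht
      rwa [e.symm_apply_apply] at h1)
    refine ⟨e t', ?_, x, hx, h1⟩
    have h2 := e.monotone ht'
    rwa [e.apply_symm_apply] at h2

theorem no_collapse {ν : Cardinal.{u}} {T E N : Type u} [Preorder T] (hc : COV ν T)
    (hN : #N ≤ ν) (hE : ν < #E) (W : E → T → N → Prop)
    (hW : ∀ f t t' ξ, t' ≤ t → W f t ξ → W f t' ξ) (t0 : T)
    (hd : ∀ f, ∀ t ≤ t0, ∃ t' ≤ t, ∃ ξ, W f t' ξ) :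
    ∃ t ≤ t0, ∃ f f' : E, f ≠ f' ∧ ∃ ξ, W f t ξ ∧ W f' t ξ := by
  classical
  let V : N → T → Option E → Prop := fun ξ t o =>
    match o with
    | none => ∀ t' ≤ t, ∀ f, ¬ W f t' ξ
    | some f => W f t ξ
  have hV : ∀ ξ t t' o, t' ≤ t → V ξ t o → V ξ t' o := by
    rintro ξ t t' (_ | f) ht h
    · exact fun t'' ht'' f => h t'' (ht''.trans ht) f
    · exact hW f t t' ξ ht h
  have hD : ∀ ξ, ∀ t ≤ t0, ∃ t' ≤ t, ∃ o, V ξ t' o := by
    intro ξ t _
    by_cases h : ∃ t' ≤ t, ∃ f, W f t' ξ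
    · obtain ⟨t', ht', f, hf⟩ := h
      exact ⟨t', ht', some f, hf⟩
    · push Not at h
      exact ⟨t, le_rfl, none, h⟩
  obtain ⟨t1, ht1, A, hA, h1⟩ := hc N (Option E) hN V hV t0 hD
  obtain ⟨f0, hf0⟩ : ∃ f0 : E, some f0 ∉ A := by
    by_contra hcon
    push Not at hcon
    have h2 : #E ≤ #A := Cardinal.mk_le_of_injective
      (f := fun f : E => (⟨some f, hcon f⟩ : A)) fun f f' h => by
        simpa using h
    exact absurd (hE.trans_le (h2.trans hA)) (lt_irrefl _)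
  obtain ⟨t, ht, ξ, hξ⟩ := hd f0 t1 ht1
  obtain ⟨t', ht', o, ho, h2⟩ := h1 ξ t ht
  rcases o with _ | f
  · exact absurd hξ (fun h => h2 t' le_rfl f0 (hW f0 t t' ξ ht' h))
  · refine ⟨t', ht'.trans (ht.trans ht1), f0, f, ?_, ξ, hW f0 t t' ξ ht' hξ, h2⟩
    rintro rfl
    exact hf0 ho

end STP
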