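import Pool.Agent.STP.BlkA
import Pool.Agent.STP.Cov

/-! # One block: closure and covering (package S14)

(problem MP_e44aae_lc, project STP)

* `dc_CC`: `Clq.dc` with `dl_reg`. `dc_R0`: `Clq.dc` with `Cardinal.isRegular_succ` (`ℵ₀ ≤ ν`). The others: `DC.mono`, `DC.pi`, `DC.prod`, and the inequalities
  of `BlkA` (`k i < ν < succ ν`, `kb < ν`).
* `dc_high`: for `i`: `∏_{i < j} C_j` is `DC (succ (k i))`; if `j` is the successor of `i`, `∏_{j < l} C_l` is `DC (succ (k j))`.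
* `cov`: `cov_fusion` with `L`, `C := CC kb k`, `R0 := R0 k`, `ν := nu k`; `hsize`: `#L * #(∀ j : {j // j ≤ i}, CC j) ≤ kb * k i = k i`.
* `cov_R`: `COV.prod` with `τ = 2 ^ nu k`: first reassociate `L × HR`; `#(L × HR) ≤ kb * 2 ^ ν = 2 ^ ν`; then `COV.iso` for
  `(L × HR) × R ≃o L × (HR × R)`. `cov_Q`: `L = PUnit` (or directly), `PUnit × (HR × R) ≃o HR × R`. -/

universe u

namespace STP

open Cardinal

variable {Γ : Type u} [LinearOrder Γ] {γ kb : Cardinal.{u}} {k : Γ → Cardinal.{u}}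

namespace Block

theorem dc_CC (h : Block Γ γ kb k) (i : Γ) : DC (dl kb k i) (CC kb k i) :=
  Clq.dc (h.dl_reg i)

theorem dc_R0 (h : Block Γ γ kb k) : DC (Order.succ (nu k)) (R0 k) :=
  Clq.dc (Cardinal.isRegular_succ h.aleph0_le_nu)

theorem dc_HR (h : Block Γ γ kb k) : DC (Order.succ (Order.succ kb)) (HR kb k) :=
  DC.prod (DC.pi fun i => DC.mono (h.kb_lt_dl i) (h.dc_CC i))
    (DC.mono (Order.succ_le_succ (Order.succ_le_of_lt h.kb_lt_nu)) h.dc_R0)

theorem dc_high (h : Block Γ γ kb k) (i : Γ) :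
    DC (Order.succ (k i)) (∀ j : {j : Γ // i < j}, CC kb k j.1) :=
  DC.pi fun j => DC.mono (h.lt_dl j.2) (h.dc_CC j.1)

theorem cov (h : Block Γ γ kb k) {L : Type u} [Preorder L] (hL : #L ≤ kb) :
    COV (nu k) (L × HR kb k) := by
  have hwf : WellFoundedLT Γ := h.wf
  refine cov_fusion k (CC kb k) h.aleph0_le_nu (fun i => (h.aleph0_lt_k i).le)
    (fun i => (h.lt_nu i).le) (h.card.le.trans h.gamma_lt_nu.le) (fun J hJ => h.decomp J hJ)
    (fun i => Cardinal.mul_le_of_le (h.aleph0_lt_k i).le (hL.trans (h.kbk i).le) (h.card_low i))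
    (fun i j hij => DC.mono (h.lt_dl hij) (h.dc_CC j))
    (fun j => ?_) (fun i => DC.mono (Order.succ_le_succ (h.lt_nu i).le) h.dc_R0) ?_
  · rw [h.card]
    exact DC.mono (h.gamma_lt_dl j) (h.dc_CC j)
  · rw [h.card]
    exact DC.mono (Order.succ_le_succ h.gamma_lt_nu.le) h.dc_R0

theorem cov_R (h : Block Γ γ kb k) {L R : Type u} [Preorder L] [Preorder R] (hL : #L ≤ kb)
    (hR : DC (Order.succ (2 ^ nu k)) R) : COV (nu k) (L × (HR kb k × R)) := by
  have h1 : nu k ≤ 2 ^ nu k := (Cardinal.cantor _).le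
  have h2 : ℵ₀ ≤ (2 : Cardinal.{u}) ^ nu k := h.aleph0_le_nu.trans h1
  have h3 : #(L × HR kb k) ≤ 2 ^ nu k := by
    rw [Cardinal.mk_prod, Cardinal.lift_id, Cardinal.lift_id]
    exact Cardinal.mul_le_of_le h2 (hL.trans (h.kb_lt_nu.le.trans h1)) h.card_HR
  have h4 := COV.prod h2 h1 h3 (h.cov hL) hR
  let e : (L × HR kb k) × R ≃o L × (HR kb k × R) :=
    { Equiv.prodAssoc L (HR kb k) R with
      map_rel_iff' := by
        rintro ⟨⟨a, b⟩, c⟩ ⟨⟨a', b'⟩, c'⟩
        constructor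
        · rintro ⟨h1, h2, h3⟩
          exact ⟨⟨h1, h2⟩, h3⟩
        · rintro ⟨⟨h1, h2⟩, h3⟩
          exact ⟨h1, h2, h3⟩ }
  exact COV.iso e h4

theorem cov_Q (h : Block Γ γ kb k) {R : Type u} [Preorder R]
    (hR : DC (Order.succ (2 ^ nu k)) R) : COV (nu k) (HR kb k × R) := by
  have h1 : #PUnit.{u + 1} ≤ kb := by
    rw [Cardinal.mk_punit]
    exact Cardinal.one_lt_aleph0.le.trans h.aleph0_lt_kb.le
  have h4 := h.cov_R (L := PUnit.{u + 1}) h1 hR
  let e : PUnit.{u + 1} × (HR kb k × R) ≃o HR kb k × R :=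
    { toFun := fun x => x.2
      invFun := fun x => (PUnit.unit, x)
      left_inv := fun _ => rfl
      right_inv := fun _ => rfl
      map_rel_iff' := by
        rintro ⟨a, b⟩ ⟨a', b'⟩
        constructor
        · intro h1
          exact ⟨le_rfl, h1⟩
        · rintro ⟨-, h2⟩
          exact h2 }
  exact COV.iso e h4

end Block

end STP
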