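import Mathlib

/-! # The strong tree property: posets, systems and threads (definitions)

(problem MP_e44aae_lc, project STP, text `/team-store/STPinf.md`; architect helper81)

Forcing notions are preorders, smaller elements are stronger. Everything lives in `Type u`. -/

universe u

namespace STP

open Cardinal

/-! ## Closed posets -/

/-- `P` is `δ`-directed closed: every downward directed subset (possibly empty) with fewer than `δ`
elements has a lower bound. -/
def DC (δ : Cardinal.{u}) (P : Type u) [Preorder P] : Prop :=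
  ∀ D : Set P, DirectedOn (· ≥ ·) D → #D < δ → ∃ p, ∀ d ∈ D, p ≤ d

/-- Every subset with at most `ν` elements has an upper bound. -/
def Dir (ν : Cardinal.{u}) (Λ : Type u) [Preorder Λ] : Prop :=
  ∀ A : Set Λ, #A ≤ ν → ∃ b, ∀ a ∈ A, a ≤ b

/-! ## Regular open sets -/

/-- The regular open subsets of a preorder. -/
@[ext] structure RO (P : Type u) [Preorder P] where
  /-- the underlying set -/
  carrier : Set P
  /-- it is regular open -/
  reg : ∀ p, p ∈ carrier ↔ ∀ q ≤ p, ∃ r ≤ q, r ∈ carrier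

/-! ## Systems and threads -/

/-- A `P`-name of a family of relations between nodes, indexed by pairs `a ≤ b` of a preorder `Λ`:
`rel p a b ξ ζ` means that `p` forces that the node `ζ` at `b` projects to the node `ξ` at `a`. -/
structure Rel (P : Type u) [Preorder P] (Λ : Type u) [Preorder Λ] (N : Type u) where
  /-- the relation -/
  rel : P → Λ → Λ → N → N → Prop
  mono : ∀ {p q : P} {a b : Λ} {ξ ζ : N}, q ≤ p → rel p a b ξ ζ → rel q a b ξ ζ
  loc : ∀ {p : P} {a b : Λ} {ξ ζ : N}, (∀ q ≤ p, ∃ r ≤ q, rel r a b ξ ζ) → rel p a b ξ ζ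
  can : ∀ {p : P} {a b c : Λ} {ξ ζ η : N}, a ≤ b → b ≤ c → rel p a c ξ η → rel p b c ζ η →
    rel p a b ξ ζ

/-- A `P`-name of an inverse system (of functions `N → N`) over the preorder `Λ`. -/
structure Sys (P : Type u) [Preorder P] (Λ : Type u) [Preorder Λ] (N : Type u) where
  /-- the relation -/
  rel : P → Λ → Λ → N → N → Prop
  mono : ∀ {p q : P} {a b : Λ} {ξ ζ : N}, q ≤ p → rel p a b ξ ζ → rel q a b ξ ζ
  loc : ∀ {p : P} {a b : Λ} {ξ ζ : N}, (∀ q ≤ p, ∃ r ≤ q, rel r a b ξ ζ) → rel p a b ξ ζ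
  tot : ∀ {a b : Λ}, a ≤ b → ∀ (p : P) (ζ : N), ∃ q ≤ p, ∃ ξ, rel q a b ξ ζ
  fn : ∀ {p : P} {a b : Λ} {ξ ξ' ζ : N}, rel p a b ξ ζ → rel p a b ξ' ζ → ξ = ξ'
  comp : ∀ {p : P} {a b c : Λ} {ξ ζ η : N}, a ≤ b → b ≤ c → rel p a b ξ ζ → rel p b c ζ η →
    rel p a c ξ η

/-- `th` is (a name of) a thread of the relation `R` below `p0`. -/
structure IsThr {P : Type u} [Preorder P] {Λ : Type u} [Preorder Λ] {N : Type u}
    (R : P → Λ → Λ → N → N → Prop) (p0 : P) (th : P → Λ → N → Prop) : Prop where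
  mono : ∀ {p q a ξ}, q ≤ p → th p a ξ → th q a ξ
  tot : ∀ a, ∀ p ≤ p0, ∃ q ≤ p, ∃ ξ, th q a ξ
  coh : ∀ {p a b ξ ζ}, p ≤ p0 → a ≤ b → th p a ξ → th p b ζ → R p a b ξ ζ

/-- `th` is (a name of) a partial thread with cofinal domain of the relation `R` below `p0`. -/
structure IsPThr {P : Type u} [Preorder P] {Λ : Type u} [Preorder Λ] {N : Type u}
    (R : P → Λ → Λ → N → N → Prop) (p0 : P) (th : P → Λ → N → Prop) : Prop where
  mono : ∀ {p q a ξ}, q ≤ p → th p a ξ → th q a ξ
  cof : ∀ a, ∀ p ≤ p0, ∃ q ≤ p, ∃ b, a ≤ b ∧ ∃ ξ, th q b ξ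
  coh : ∀ {p a b ξ ζ}, p ≤ p0 → a ≤ b → th p a ξ → th p b ζ → R p a b ξ ζ

/-- Below `pstar`, the forcing `P` adds threads to all inverse systems with node set `N` over ground
model preorders in which sets of at most `|N|` elements are bounded. -/
def Threads (P : Type u) [Preorder P] (N : Type u) (pstar : P) : Prop :=
  ∀ (Λ : Type u) [Preorder Λ], Dir #N Λ → ∀ S : Sys P Λ N, ∀ p0 ≤ pstar,
    ∃ p ≤ p0, ∃ th, IsThr S.rel p th

/-! ## Covering -/

/-- Names of sequences of length at most `ν` are covered by ground model sets of size at most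
`ν`. -/
def COV (ν : Cardinal.{u}) (T : Type u) [Preorder T] : Prop :=
  ∀ (J X : Type u), #J ≤ ν → ∀ W : J → T → X → Prop,
    (∀ s t t' x, t' ≤ t → W s t x → W s t' x) →
    ∀ t0 : T, (∀ s, ∀ t ≤ t0, ∃ t' ≤ t, ∃ x, W s t' x) →
      ∃ t1 ≤ t0, ∃ A : Set X, #A ≤ ν ∧ ∀ s, ∀ t ≤ t1, ∃ t' ≤ t, ∃ x ∈ A, W s t' x

/-! ## Clique posets, collapses -/

/-- The cliques of `r` with fewer than `δ` elements, ordered by reverse inclusion. -/
@[ext] structure Clq (X : Type u) (r : X → X → Prop) (δ : Cardinal.{u}) : Type u where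
  /-- the underlying set -/
  s : Set X
  card : #s < δ
  cl : ∀ x ∈ s, ∀ y ∈ s, r x y

instance (X : Type u) (r : X → X → Prop) (δ : Cardinal.{u}) : PartialOrder (Clq X r δ) where
  le p q := q.s ⊆ p.s
  le_refl _ := Set.Subset.rfl
  le_trans _ _ _ h h' := Set.Subset.trans h' h
  le_antisymm _ _ h h' := Clq.ext (Set.Subset.antisymm h' h)

theorem Clq.le_def {X : Type u} {r : X → X → Prop} {δ : Cardinal.{u}} {p q : Clq X r δ} :
    p ≤ q ↔ q.s ⊆ p.s := Iff.rfl

/-- Two pairs are compatible if they are equal or have different first coordinates. -/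
def colr (A B : Type u) (x y : A × B) : Prop := x.1 = y.1 → x.2 = y.2

/-- `Col(δ, B)`: the partial functions from `δ` to `B` with fewer than `δ` elements. -/
abbrev Col (δ : Cardinal.{u}) (B : Type u) : Type u := Clq (δ.out × B) (colr δ.out B) δ

/-- The index set of the Levy collapse `Col(δ, < lam)`: triples `(α, β, ξ)` with `α < δ`,
`ξ < β < lam`. -/
abbrev LevX (δ lam : Cardinal.{u}) : Type u :=
  {x : (δ.out × lam.ord.ToType) × lam.ord.ToType // x.2 < x.1.2}

/-- compatibility in the Levy collapse -/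
def levr (δ lam : Cardinal.{u}) (x y : LevX δ lam) : Prop := x.1.1 = y.1.1 → x.1.2 = y.1.2

/-- The Levy collapse `Col(δ, < lam)`. -/
abbrev Levy (δ lam : Cardinal.{u}) : Type u := Clq (LevX δ lam) (levr δ lam) δ

/-! ## Normal ultrafilters and indestructible supercompact cardinals -/

/-- `P_κ(X)`: the subsets of `X` with fewer than `κ` elements. -/
abbrev Pk (κ : Cardinal.{u}) (X : Type u) : Type u := {s : Set X // #s < κ}

/-- The truth value of a proposition. -/
def chi {B : Type u} [CompleteLattice B] (p : Prop) : B := ⨆ _ : p, ⊤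

/-- `U` is a `B`-valued normal fine `κ`-complete ultrafilter on `P_κ(X)`. -/
structure NormalU (κ : Cardinal.{u}) (X : Type u) (B : Type u) [CompleteBooleanAlgebra B]
    (U : (Pk κ X → B) → B) : Prop where
  const : ∀ b, U (fun _ => b) = b
  inf : ∀ Z Z', U (fun u => Z u ⊓ Z' u) = U Z ⊓ U Z'
  compl : ∀ Z, U (fun u => (Z u)ᶜ) = (U Z)ᶜ
  complete : ∀ (I : Type u) (Z : I → Pk κ X → B), #I < κ →
    ⨅ i, U (Z i) ≤ U (fun u => ⨅ i, Z i u)
  fine : ∀ x : X, U (fun u => chi (x ∈ u.1)) = ⊤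
  normal : ∀ Z : X → Pk κ X → B, ⨅ x, U (Z x) ≤ U (fun u => ⨅ x ∈ u.1, Z x u)

end STP
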