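import Pool.Agent.STP.BVal
import Pool.Agent.STP.Defs

/-! # Names of ground model ordinals (package M04)

(problem MP_e44aae_lc, project STP)

`ck o` is the canonical name of the von Neumann ordinal `o`. `ck_eq` is its defining equation.

* `mem_ck`: definition of `mem`.
* `ck_ck`: simultaneous induction on `max a b` (or `Ordinal.induction` on `a` for all `b`, using both statements for smaller pairs): `mem (ck a) (ck b) = ⨆ c < b, eq (ck a) (ck c)`; `eq (ck a) (ck b) = ⊤` for `a = b`; for `a < b`: `eq (ck a) (ck b) ≤ (⊤ ⇨ ⨆ c < a, eq (ck a) (ck c)) = ⊥` (the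
  index `a` of `ck b`; by induction `eq (ck a) (ck c) = ⊥` for `c < a`), symmetric for `b < a`.
* `iInf_ck`, `iSup_ck`: bounded quantifiers over `ck o` (`iInf_mem`, `iSup_mem`).
* `ck_tr`: `mem x (ck a) ≤ mem x (ck b)` for `a ≤ b`.
* In the quotient `NG G`: an element of `ck o` need not be some `ck a`, but a statement `∀ x ∈ ck o, φ(x)` has the value `⨅ a < o, bval φ (cns (ck a) v)` (`ball_ck`), and similarly for `∃` (`bex_ck`). -/

universe u

namespace STP

open BSet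

variable {B : Type u} [CompleteBooleanAlgebra B]

/-- the canonical name of an ordinal -/
noncomputable def ck (o : Ordinal.{u}) : BSet B :=
  BSet.mk o.ToType (fun i => ck (Ordinal.ToType.toOrd i).1) fun _ => ⊤
termination_by o
decreasing_by exact (Ordinal.ToType.toOrd i).2

theorem ck_eq (o : Ordinal.{u}) : (ck o : BSet B) =
    BSet.mk o.ToType (fun i => ck (Ordinal.ToType.toOrd i).1) fun _ => ⊤ := by
  rw [ck]

private theorem ck_chi_true {p : Prop} (h : p) : (chi p : B) = ⊤ :=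
  le_antisymm le_top (le_iSup (fun _ : p => (⊤ : B)) h)

private theorem ck_chi_false {p : Prop} (h : ¬ p) : (chi p : B) = ⊥ :=
  le_antisymm (iSup_le fun h1 => absurd h1 h) bot_le

theorem mem_ck (x : BSet B) (o : Ordinal.{u}) : mem x (ck o) = ⨆ a : Set.Iio o, eq x (ck a.1) := by
  rw [ck_eq, mem_mk]
  simp only [top_inf_eq]
  exact (Ordinal.ToType.mk (o := o)).symm.surjective.iSup_comp
    (g := fun a : Set.Iio o => eq x (ck a.1 : BSet B))

private theorem ck_eq_le (a b : Ordinal.{u}) (j : Set.Iio b) :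
    eq (ck a : BSet B) (ck b) ≤ mem (ck j.1) (ck a) := by
  have h1 : eq (ck a : BSet B) (ck b) ≤ ⨅ i : b.ToType, (⊤ ⇨ ⨆ i' : a.ToType, ⊤ ⊓
      eq (ck (Ordinal.ToType.toOrd i').1 : BSet B) (ck (Ordinal.ToType.toOrd i).1)) := by
    rw [ck_eq a, ck_eq b, eq_mk]
    exact inf_le_right
  refine h1.trans ((iInf_le _ ((Ordinal.ToType.mk (o := b)) j)).trans ?_)
  have h2 : Ordinal.ToType.toOrd ((Ordinal.ToType.mk (o := b)) j) = j :=
    (Ordinal.ToType.mk (o := b)).symm_apply_apply j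
  rw [h2, top_himp]
  refine iSup_le fun i' => ?_
  rw [top_inf_eq, eq_symm, mem_ck]
  exact le_iSup (fun a' : Set.Iio a => eq (ck j.1 : BSet B) (ck a'.1)) _

private theorem ck_lt (a : Ordinal.{u}) : ∀ b, a < b → eq (ck a : BSet B) (ck b) = ⊥ := by
  induction a using WellFoundedLT.induction with
  | ind a ih =>
    intro b hb
    refine le_antisymm ((ck_eq_le a b ⟨a, hb⟩).trans ?_) bot_le
    rw [mem_ck]
    refine iSup_le fun c => ?_
    rw [eq_symm, ih c.1 c.2 a c.2]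

theorem eq_ck_ck (a b : Ordinal.{u}) : eq (ck a : BSet B) (ck b) = chi (a = b) := by
  rcases lt_trichotomy a b with h | h | h
  · rw [ck_lt a b h, ck_chi_false h.ne]
  · rw [h, eq_refl, ck_chi_true rfl]
  · rw [eq_symm, ck_lt b a h, ck_chi_false h.ne']

theorem mem_ck_ck (a b : Ordinal.{u}) : mem (ck a : BSet B) (ck b) = chi (a < b) := by
  rw [mem_ck]
  by_cases h : a < b
  · rw [ck_chi_true h]
    refine le_antisymm le_top ?_
    rw [← eq_refl (ck a : BSet B)]
    exact le_iSup (fun c : Set.Iio b => eq (ck a : BSet B) (ck c.1)) ⟨a, h⟩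
  · rw [ck_chi_false h]
    refine le_antisymm (iSup_le fun c => ?_) bot_le
    rw [eq_ck_ck, ck_chi_false]
    rintro rfl
    exact h c.2

theorem iInf_ck {Φ : BSet B → B} (hΦ : Ext Φ) (o : Ordinal.{u}) :
    ⨅ z, (mem z (ck o) ⇨ Φ z) = ⨅ a : Set.Iio o, Φ (ck a.1) := by
  have h1 : ⨅ z, (mem z (ck o) ⇨ Φ z) =
      ⨅ i : o.ToType, (⊤ ⇨ Φ (ck (Ordinal.ToType.toOrd i).1)) := by
    rw [ck_eq o]
    exact iInf_mem hΦ _
  rw [h1]
  simp only [top_himp]
  exact (Ordinal.ToType.mk (o := o)).symm.surjective.iInf_comp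
    (g := fun a : Set.Iio o => Φ (ck a.1 : BSet B))

theorem iSup_ck {Φ : BSet B → B} (hΦ : Ext Φ) (o : Ordinal.{u}) :
    ⨆ z, (mem z (ck o) ⊓ Φ z) = ⨆ a : Set.Iio o, Φ (ck a.1) := by
  have h1 : ⨆ z, (mem z (ck o) ⊓ Φ z) =
      ⨆ i : o.ToType, (⊤ ⊓ Φ (ck (Ordinal.ToType.toOrd i).1)) := by
    rw [ck_eq o]
    exact iSup_mem hΦ _
  rw [h1]
  simp only [top_inf_eq]
  exact (Ordinal.ToType.mk (o := o)).symm.surjective.iSup_comp
    (g := fun a : Set.Iio o => Φ (ck a.1 : BSet B))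

theorem ck_tr {a b : Ordinal.{u}} (h : a ≤ b) (x : BSet B) : mem x (ck a) ≤ mem x (ck b) := by
  rw [mem_ck, mem_ck]
  exact iSup_le fun c => le_iSup (fun c : Set.Iio b => eq x (ck c.1 : BSet B))
    ⟨c.1, lt_of_lt_of_le c.2 h⟩

/-- `∀ x ∈ y, φ`, where `y = v j`: the bounded quantifier as a formula -/
def fBall (j : ℕ) (φ : Fml) : Fml := .all (.imp (.mem 0 (j + 1)) φ)

/-- `∃ x ∈ y, φ` -/
def fBex (j : ℕ) (φ : Fml) : Fml := .ex (.an (.mem 0 (j + 1)) φ)

theorem ball_ck (φ : Fml) (v : ℕ → BSet B) (j : ℕ) (o : Ordinal.{u}) (hj : v j = ck o) :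
    bval (fBall j φ) v = ⨅ a : Set.Iio o, bval φ (cns (ck a.1) v) := by
  rw [← iInf_ck (bval_ext φ v) o, ← hj]
  rfl

theorem bex_ck (φ : Fml) (v : ℕ → BSet B) (j : ℕ) (o : Ordinal.{u}) (hj : v j = ck o) :
    bval (fBex j φ) v = ⨆ a : Set.Iio o, bval φ (cns (ck a.1) v) := by
  rw [← iSup_ck (bval_ext φ v) o, ← hj, fBex, bval_ex]
  simp only [bval_an]
  rfl

end STP
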