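import Pool.Agent.STP.Rec
import Pool.Agent.STP.Cls
import Pool.Agent.STP.Thr

/-! # Splitting a new thread (package S07)

(problem MP_e44aae_lc, project STP)

Text, section 5, (Split) and (Split'). `S` is a system over `T × R1`, `th` a thread over `T × R1 × R2` below `(t0, r0, ρ0)`, and there is no
thread over `T × R1` below any extension of `(t0, r0)`.

* `split1`: Suppose that there are no `t', r', ρ1, ρ1', a, ξ, ξ'` as in the conclusion. Define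
  `th1 p a ξ := p ≤ (t, r) ∧ ∃ ρ1 ≤ ρ', th (p.1, p.2, ρ1) a ξ`. This is a thread of `S` below `(t, r)`, contradiction to `hno`:
  `mono`: clear. `tot`: `hth.tot a (p.1, p.2, ρ')`. `coh`: let `p ≤ (t, r)`, `a ≤ b`, `th (p.1, p.2, ρ1) a ξ`, `th (p.1, p.2, ρ2) b ζ`, `ρ1, ρ2 ≤ ρ'`.
  By `S.loc` take `q ≤ p`; `hth.tot a` and then `hth.tot b` below `(q.1, q.2, ρ)` give `(t3, r3, ρ3) ≤ (q.1, q.2, ρ)` and `ξa`, `ξb` with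
  `th (t3, r3, ρ3) a ξa`, `th (t3, r3, ρ3) b ξb`. By assumption (with `t' = t3`, `r' = r3`, `ρ3` and `ρ1`) `ξa = ξ`, and (with `ρ3`, `ρ2`) `ξb = ζ`.
  `hth.coh` at `(t3, r3, ρ3)`: `S.rel (t3, r3) a b ξ ζ`.
* `split2`: `REC` for `R1 × R2 × R2` (`DC.prod`), `δ = succ τ`, index set `{t // t ≤ t0}` (`#T ≤ τ`), point `(r, ρ, ρ')`, and the open dense sets
  `D t (r, ρ, ρ') := ∃ t' ≤ t, ∃ a ξ ξ', ξ ≠ ξ' ∧ th (t', r, ρ) a ξ ∧ th (t', r, ρ') a ξ'` (dense below the point by `split1`; open by `hth.mono`). -/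

universe u

namespace STP

open Cardinal

variable {T R1 R2 Λ N : Type u} [Preorder T] [Preorder R1] [Preorder R2] [Preorder Λ]

theorem split1 (S : Sys (T × R1) Λ N) {t0 : T} {r0 : R1} {ρ0 : R2}
    {th : T × R1 × R2 → Λ → N → Prop}
    (hth : IsThr (fun p a b ξ ζ => S.rel (p.1, p.2.1) a b ξ ζ) (t0, r0, ρ0) th)
    (hno : ∀ p ≤ (t0, r0), ∀ th', ¬ IsThr S.rel p th')
    {t : T} {r : R1} {ρ ρ' : R2} (ht : t ≤ t0) (hr : r ≤ r0) (hρ : ρ ≤ ρ0) (hρ' : ρ' ≤ ρ0) :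
    ∃ t' ≤ t, ∃ r' ≤ r, ∃ ρ1 ≤ ρ, ∃ ρ1' ≤ ρ', ∃ a ξ ξ', ξ ≠ ξ' ∧
      th (t', r', ρ1) a ξ ∧ th (t', r', ρ1') a ξ' := by
  by_contra hcon
  push Not at hcon
  have key : ∀ t' ≤ t, ∀ r' ≤ r, ∀ ρ1 ≤ ρ, ∀ ρ1' ≤ ρ', ∀ a ξ ξ', th (t', r', ρ1) a ξ →
      th (t', r', ρ1') a ξ' → ξ = ξ' := by
    intro t' ht' r' hr' ρ1 hρ1 ρ1' hρ1' a ξ ξ' h1 h2
    by_contra h3
    exact hcon t' ht' r' hr' ρ1 hρ1 ρ1' hρ1' a ξ ξ' h3 h1 h2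
  refine hno (t, r) ⟨ht, hr⟩ (fun p a ξ => p ≤ (t, r) ∧ ∃ ρ1 ≤ ρ', th (p.1, p.2, ρ1) a ξ)
    ⟨?_, ?_, ?_⟩
  · rintro p q a ξ hq ⟨hp, ρ1, hρ1, h1⟩
    exact ⟨hq.trans hp, ρ1, hρ1, hth.mono (p := (p.1, p.2, ρ1)) ⟨hq.1, hq.2, le_rfl⟩ h1⟩
  · intro a p hp
    obtain ⟨q, hq, ξ, h1⟩ := hth.tot a (p.1, p.2, ρ') ⟨hp.1.trans ht, hp.2.trans hr, hρ'⟩
    exact ⟨(q.1, q.2.1), ⟨hq.1, hq.2.1⟩, ξ, ⟨hq.1.trans hp.1, hq.2.1.trans hp.2⟩, q.2.2,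
      hq.2.2, h1⟩
  · rintro p a b ξ ζ hp hab ⟨_, ρ1, hρ1, h1⟩ ⟨_, ρ2, hρ2, h2⟩
    refine S.loc fun q hq => ?_
    have hq0 : ((q.1, q.2, ρ) : T × R1 × R2) ≤ (t0, r0, ρ0) :=
      ⟨(hq.1.trans hp.1).trans ht, (hq.2.trans hp.2).trans hr, hρ⟩
    obtain ⟨s1, hs1, ξa, h3⟩ := hth.tot a _ hq0
    obtain ⟨s2, hs2, ξb, h4⟩ := hth.tot b s1 (hs1.trans hq0)
    have h3' := hth.mono hs2 h3
    have hs := hs2.trans hs1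
    have e1 : ξa = ξ := key s2.1 (hs.1.trans (hq.1.trans hp.1)) s2.2.1
      (hs.2.1.trans (hq.2.trans hp.2)) s2.2.2 hs.2.2 ρ1 hρ1 a ξa ξ h3'
      (hth.mono (p := (p.1, p.2, ρ1)) ⟨hs.1.trans hq.1, hs.2.1.trans hq.2, le_rfl⟩ h1)
    have e2 : ξb = ζ := key s2.1 (hs.1.trans (hq.1.trans hp.1)) s2.2.1
      (hs.2.1.trans (hq.2.trans hp.2)) s2.2.2 hs.2.2 ρ2 hρ2 b ξb ζ h4
      (hth.mono (p := (p.1, p.2, ρ2)) ⟨hs.1.trans hq.1, hs.2.1.trans hq.2, le_rfl⟩ h2)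
    refine ⟨(s2.1, s2.2.1), ⟨hs.1, hs.2.1⟩, ?_⟩
    have h5 := hth.coh (hs.trans hq0) hab h3' h4
    rw [← e1, ← e2]
    exact h5

theorem split2 (S : Sys (T × R1) Λ N) {τ : Cardinal.{u}} (hT : #T ≤ τ)
    (h1 : DC (Order.succ τ) R1) (h2 : DC (Order.succ τ) R2) {t0 : T} {r0 : R1} {ρ0 : R2}
    {th : T × R1 × R2 → Λ → N → Prop}
    (hth : IsThr (fun p a b ξ ζ => S.rel (p.1, p.2.1) a b ξ ζ) (t0, r0, ρ0) th)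
    (hno : ∀ p ≤ (t0, r0), ∀ th', ¬ IsThr S.rel p th')
    {r : R1} {ρ ρ' : R2} (hr : r ≤ r0) (hρ : ρ ≤ ρ0) (hρ' : ρ' ≤ ρ0) :
    ∃ r' ≤ r, ∃ ρ1 ≤ ρ, ∃ ρ1' ≤ ρ', ∀ t ≤ t0, ∃ t' ≤ t, ∃ a ξ ξ', ξ ≠ ξ' ∧
      th (t', r', ρ1) a ξ ∧ th (t', r', ρ1') a ξ' := by
  have hop : ∀ (s : {t // t ≤ t0}) (q q' : R1 × R2 × R2), q' ≤ q →
      (∃ t' ≤ s.1, ∃ a ξ ξ', ξ ≠ ξ' ∧ th (t', q.1, q.2.1) a ξ ∧ th (t', q.1, q.2.2) a ξ') →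
      (∃ t' ≤ s.1, ∃ a ξ ξ', ξ ≠ ξ' ∧ th (t', q'.1, q'.2.1) a ξ ∧
        th (t', q'.1, q'.2.2) a ξ') := by
    rintro s q q' hq ⟨t', ht', a, ξ, ξ', h4, h5, h6⟩
    exact ⟨t', ht', a, ξ, ξ', h4, hth.mono (p := (t', q.1, q.2.1)) ⟨le_rfl, hq.1, hq.2.1⟩ h5,
      hth.mono (p := (t', q.1, q.2.2)) ⟨le_rfl, hq.1, hq.2.2⟩ h6⟩
  have hd : ∀ s : {t // t ≤ t0}, ∀ q : R1 × R2 × R2, q ≤ (r, ρ, ρ') → ∃ q' : R1 × R2 × R2,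
      q' ≤ q ∧ (∃ t' ≤ s.1, ∃ a ξ ξ', ξ ≠ ξ' ∧ th (t', q'.1, q'.2.1) a ξ ∧
        th (t', q'.1, q'.2.2) a ξ') := by
    intro s q hq
    obtain ⟨t', ht', r', hr', ρ1, hρ1, ρ1', hρ1', a, ξ, ξ', h4, h5, h6⟩ :=
      split1 S hth hno s.2 (hq.1.trans hr) (hq.2.1.trans hρ) (hq.2.2.trans hρ')
    exact ⟨(r', ρ1, ρ1'), ⟨hr', hρ1, hρ1'⟩, t', ht', a, ξ, ξ', h4, h5, h6⟩
  obtain ⟨q, hq, h3⟩ := REC (h1.prod (h2.prod h2)) (J := {t // t ≤ t0})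
    (lt_of_le_of_lt ((mk_subtype_le _).trans hT) (Order.lt_succ τ)) _ (r, ρ, ρ') hop hd
  exact ⟨q.1, hq.1, q.2.1, hq.2.1, q.2.2, hq.2.2, fun t ht => h3 ⟨t, ht⟩⟩

end STP
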