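import Pool.Agent.STP.Rec
import Pool.Agent.STP.Cls

/-! # A binary tree of conditions (package S06)

(problem MP_e44aae_lc, project STP)

`I` is a well-order with `2 ^ #I ≤ τ`; `R1`, `R2` are `succ τ`-directed closed. `Sp r ρ σ` is a dense property of triples.
We want a binary tree of height `I`: for each node `(i, s)`, `s : {j // j < i} → Bool`, a triple `e i s` with `Sp`, such that for each
branch `f : I → Bool` there is `ρ f ∈ R2` below `(e i (f restricted to i)).2.1` if `f i = false` and below `(e i _).2.2` if `f i = true`, and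
a single `r` below all `(e i s).1`.

Proof. Let `X := R1 × ((I → Bool) → R2)`. `TR` on `I` with
`Rl j x y := y.1 ≤ x.1 ∧ ∀ f, y.2 f ≤ x.2 f`,
`G i y := y.1 ≤ r0 ∧ (∀ f, y.2 f ≤ ρ0) ∧ (∀ f g, (∀ j ≤ i, f j = g j) → y.2 f = y.2 g) ∧
  ∀ s : {j // j < i} → Bool, ∃ e, Sp e.1 e.2.1 e.2.2 ∧ y.1 ≤ e.1 ∧ ∀ f, (∀ j : {j // j < i}, f j = s j) →
    y.2 f ≤ if f i then e.2.2 else e.2.1`.
Step at `i`. Lower bound `(r', ρ')` of `x j`, `j < i`, and `(r0, ρ0)`, where `ρ' f` depends only on `f` restricted to `{j // j < i}`: the family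
`(fun j => (x j).2 f)_{j < i}` depends only on this restriction (by `G j`: `(x j).2 f` depends only on `f` restricted to `{a // a ≤ j}`),
so choose for each `s : {j // j < i} → Bool` a lower bound for one fixed extension of `s` (for instance by `false`) and put
`ρ' f :=` the lower bound for `s = f` restricted (`DC.lower`, `#{j // j < i} ≤ #I < succ τ`).
Then `REC` for the poset `R1 × ((({j // j < i} → Bool) × Bool) → R2)` (`DC (succ τ)`, `DC.prod`, `DC.pi`), below `(r', (s, b) ↦ ρ' of s)`, with the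
dense sets `D s (r, η) := ∃ e, Sp e.1 e.2.1 e.2.2 ∧ r ≤ e.1 ∧ η (s, false) ≤ e.2.1 ∧ η (s, true) ≤ e.2.2`,
`s ∈ ({j // j < i} → Bool)` (at most `2 ^ #I ≤ τ` many): open; dense by `hd` (only the coordinates `(s, false)`, `(s, true)` are changed,
`Function.update`). Put `y.1 := r`, `y.2 f := η (f restricted, f i)`.
At the end: `r` = lower bound of the `(x i).1` and `r0`, `ρ f` = lower bound of the `(x i).2 f` and `ρ0`; `e i s` from `G i (x i)` (choice). -/

universe u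

namespace STP

open Cardinal

/-- The extension of a function on an initial segment by `false`. -/
private noncomputable def ext0 {I : Type u} [LinearOrder I] {i : I} (s : {j : I // j < i} → Bool) :
    I → Bool :=
  open Classical in fun j => if h : j < i then s ⟨j, h⟩ else false

private theorem ext0_lt {I : Type u} [LinearOrder I] {i : I} (s : {j : I // j < i} → Bool)
    {j : I} (h : j < i) : ext0 s j = s ⟨j, h⟩ := by
  unfold ext0
  rw [dif_pos h]

/-- The property of the tree at the level `i`. -/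
private structure GG {I R1 R2 : Type u} [LinearOrder I] [Preorder R1] [Preorder R2]
    (r0 : R1) (ρ0 : R2) (Sp : R1 → R2 → R2 → Prop) (i : I) (y : R1 × ((I → Bool) → R2)) :
    Prop where
  le1 : y.1 ≤ r0
  le2 : ∀ f, y.2 f ≤ ρ0
  dep : ∀ f g : I → Bool, (∀ j ≤ i, f j = g j) → y.2 f = y.2 g
  ex : ∀ s : {j : I // j < i} → Bool, ∃ e : R1 × R2 × R2, Sp e.1 e.2.1 e.2.2 ∧ y.1 ≤ e.1 ∧
    ∀ f : I → Bool, (∀ j : {j : I // j < i}, f j.1 = s j) →
      y.2 f ≤ if f i then e.2.2 else e.2.1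

private theorem tree_step {I R1 R2 : Type u} [LinearOrder I] [Preorder R1] [Preorder R2]
    {τ : Cardinal.{u}} (hI : 2 ^ #I ≤ τ)
    (h1 : DC (Order.succ τ) R1) (h2 : DC (Order.succ τ) R2) (r0 : R1) (ρ0 : R2)
    (Sp : R1 → R2 → R2 → Prop)
    (hd : ∀ r ≤ r0, ∀ ρ ≤ ρ0, ∀ σ ≤ ρ0, ∃ r' ≤ r, ∃ ρ' ≤ ρ, ∃ σ' ≤ σ, Sp r' ρ' σ')
    (i : I) (x : I → R1 × ((I → Bool) → R2))
    (hx : ∀ j k, j < k → k < i → (x k).1 ≤ (x j).1 ∧ ∀ f, (x k).2 f ≤ (x j).2 f)
    (hG : ∀ j < i, GG r0 ρ0 Sp j (x j)) :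
    ∃ y : R1 × ((I → Bool) → R2), (∀ j < i, y.1 ≤ (x j).1 ∧ ∀ f, y.2 f ≤ (x j).2 f) ∧
      GG r0 ρ0 Sp i y := by
  classical
  have hcα : #{j : I // j < i} ≤ #I := Cardinal.mk_subtype_le _
  have hα : #{j : I // j < i} < Order.succ τ :=
    (hcα.trans ((Cardinal.cantor _).le.trans hI)).trans_lt (Order.lt_succ τ)
  have hJ : #({j : I // j < i} → Bool) < Order.succ τ := by
    have e1 : #({j : I // j < i} → Bool) = 2 ^ #{j : I // j < i} := by simp
    rw [e1]
    exact ((Cardinal.power_le_power_left (by norm_num) hcα).trans hI).trans_lt (Order.lt_succ τ)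
  -- lower bounds of the earlier stages
  obtain ⟨r', hr'0, hr'⟩ := h1.lower hα (fun j : {j : I // j < i} => (x j.1).1) (by
    intro j k hjk
    rcases hjk.lt_or_eq with h | h
    · exact (hx j.1 k.1 h k.2).1
    · rw [h]) r0 (fun j => (hG j.1 j.2).le1)
  have hlow : ∀ s : {j : I // j < i} → Bool, ∃ ρ' ≤ ρ0, ∀ j : {j : I // j < i},
      ρ' ≤ (x j.1).2 (ext0 s) := by
    intro s
    refine h2.lower hα (fun j : {j : I // j < i} => (x j.1).2 (ext0 s)) ?_ ρ0
      (fun j => (hG j.1 j.2).le2 _)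
    intro j k hjk
    rcases hjk.lt_or_eq with h | h
    · exact (hx j.1 k.1 h k.2).2 _
    · rw [h]
  choose ρ' hρ'0 hρ' using hlow
  -- the restriction
  have hρf : ∀ (f : I → Bool) (j : I), j < i → ρ' (fun a => f a.1) ≤ (x j).2 f := by
    intro f j hj
    have e1 := hρ' (fun a => f a.1) ⟨j, hj⟩
    have e2 : (x j).2 (ext0 fun a : {j : I // j < i} => f a.1) = (x j).2 f :=
      (hG j hj).dep _ _ fun a ha => ext0_lt _ (ha.trans_lt hj)
    rwa [e2] at e1
  -- the dense sets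
  have hdc : DC (Order.succ τ) (R1 × ((({j : I // j < i} → Bool) × Bool) → R2)) :=
    DC.prod h1 (DC.pi fun _ => h2)
  obtain ⟨⟨r, η⟩, hle, hD⟩ := REC hdc hJ
    (fun s y => ∃ e : R1 × R2 × R2, Sp e.1 e.2.1 e.2.2 ∧ y.1 ≤ e.1 ∧ y.2 (s, false) ≤ e.2.1 ∧
      y.2 (s, true) ≤ e.2.2) (r', fun p => ρ' p.1)
    (by
      rintro s q t hqt ⟨e, he, a1, a2, a3⟩
      exact ⟨e, he, hqt.1.trans a1, (hqt.2 _).trans a2, (hqt.2 _).trans a3⟩)
    (by
      rintro s ⟨q1, q2⟩ ⟨hq1, hq2⟩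
      obtain ⟨r2, hr2, ρ2, hρ2, σ2, hσ2, hS⟩ := hd q1 (hq1.trans hr'0) (q2 (s, false))
        ((hq2 (s, false)).trans (hρ'0 s)) (q2 (s, true)) ((hq2 (s, true)).trans (hρ'0 s))
      refine ⟨(r2, Function.update (Function.update q2 (s, false) ρ2) (s, true) σ2),
        ⟨hr2, fun p => ?_⟩, (r2, ρ2, σ2), hS, le_refl _, ?_, ?_⟩
      · change Function.update (Function.update q2 (s, false) ρ2) (s, true) σ2 p ≤ q2 p
        by_cases hp : p = (s, true)
        · rw [hp, Function.update_self]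
          exact hσ2
        · rw [Function.update_of_ne hp]
          by_cases hp' : p = (s, false)
          · rw [hp', Function.update_self]
            exact hρ2
          · rw [Function.update_of_ne hp']
      · change Function.update (Function.update q2 (s, false) ρ2) (s, true) σ2 (s, false) ≤ ρ2
        rw [Function.update_of_ne (by simp), Function.update_self]
      · change Function.update (Function.update q2 (s, false) ρ2) (s, true) σ2 (s, true) ≤ σ2
        rw [Function.update_self])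
  have hle1 : r ≤ r' := hle.1
  have hle2 : ∀ p, η p ≤ ρ' p.1 := hle.2
  refine ⟨(r, fun f => η (fun a => f a.1, f i)), fun j hj => ⟨hle1.trans (hr' ⟨j, hj⟩),
    fun f => (hle2 _).trans (hρf f j hj)⟩, hle1.trans hr'0, fun f => (hle2 _).trans (hρ'0 _),
    fun f g hfg => ?_, fun s => ?_⟩
  · have e1 : (fun a : {j : I // j < i} => f a.1) = fun a => g a.1 :=
      funext fun a => hfg a.1 a.2.le
    change η _ = η _
    rw [e1, hfg i le_rfl]
  · obtain ⟨e, he, a1, a2, a3⟩ := hD s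
    refine ⟨e, he, a1, fun f hf => ?_⟩
    have e1 : (fun a : {j : I // j < i} => f a.1) = s := funext hf
    change η (fun a => f a.1, f i) ≤ _
    rw [e1]
    cases h : f i
    · exact a2
    · exact a3

theorem tree {I R1 R2 : Type u} [LinearOrder I] [WellFoundedLT I] [Preorder R1] [Preorder R2]
    {τ : Cardinal.{u}} (hτ : ℵ₀ ≤ τ) (hI : 2 ^ #I ≤ τ)
    (h1 : DC (Order.succ τ) R1) (h2 : DC (Order.succ τ) R2) (r0 : R1) (ρ0 : R2)
    (Sp : R1 → R2 → R2 → Prop)
    (hd : ∀ r ≤ r0, ∀ ρ ≤ ρ0, ∀ σ ≤ ρ0, ∃ r' ≤ r, ∃ ρ' ≤ ρ, ∃ σ' ≤ σ, Sp r' ρ' σ') :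
    ∃ (e : ∀ i : I, ({j : I // j < i} → Bool) → R1 × R2 × R2) (r : R1) (ρ : (I → Bool) → R2),
      r ≤ r0 ∧ (∀ f, ρ f ≤ ρ0) ∧ (∀ i s, Sp (e i s).1 (e i s).2.1 (e i s).2.2) ∧
      (∀ i s, r ≤ (e i s).1) ∧
      ∀ (f : I → Bool) (i : I), ρ f ≤
        if f i then (e i fun j => f j.1).2.2 else (e i fun j => f j.1).2.1 := by
  classical
  have hcI : #I < Order.succ τ := ((Cardinal.cantor _).le.trans hI).trans_lt (Order.lt_succ τ)
  have : Nonempty (R1 × ((I → Bool) → R2)) := ⟨(r0, fun _ => ρ0)⟩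
  obtain ⟨x, hx, hG⟩ := TR (α := I) (X := R1 × ((I → Bool) → R2))
    (fun _ x y => y.1 ≤ x.1 ∧ ∀ f, y.2 f ≤ x.2 f) (fun i y => GG r0 ρ0 Sp i y)
    (fun i x hx hG => tree_step hI h1 h2 r0 ρ0 Sp hd i x hx hG)
  obtain ⟨r, hr0, hr⟩ := h1.lower hcI (fun i => (x i).1) (by
    intro j k hjk
    rcases hjk.lt_or_eq with h | h
    · exact (hx j k h).1
    · rw [h]) r0 (fun i => (hG i).le1)
  have hlow : ∀ f : I → Bool, ∃ ρ ≤ ρ0, ∀ i, ρ ≤ (x i).2 f := by
    intro f
    refine h2.lower hcI (fun i => (x i).2 f) ?_ ρ0 (fun i => (hG i).le2 f)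
    intro j k hjk
    rcases hjk.lt_or_eq with h | h
    · exact (hx j k h).2 f
    · rw [h]
  choose ρ hρ0 hρ using hlow
  choose e he1 he2 he3 using fun i => (hG i).ex
  exact ⟨e, r, ρ, hr0, hρ0, he1, fun i s => (hr i).trans (he2 i s),
    fun f i => (hρ f i).trans (he3 i _ f fun j => rfl)⟩

end STP
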