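import Pool.Agent.STP.Cov
import Pool.Agent.STP.Tree
import Pool.Agent.STP.Split

/-! # Closed forcing adds no threads (package S08)

(problem MP_e44aae_lc, project STP)

Text, section 5, Lemma 1: assembly. Assume by contradiction (`hno`) that there is no thread over `T × R1` below any `p ≤ (t0, r0)`.
`I := ν.ord.ToType`, `ν = #N` (well-order with `#I = ν`, `#{j // j < i} < ν`; `Cardinal.mk_ord_toType`, `Ordinal.mk_toType`, `Cardinal.mk_Iio_ord_toType`).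
`2 ^ ν ≤ τ`. `tree` with `Sp r ρ σ := ∀ t ≤ t0, ∃ t' ≤ t, ∃ a ξ ξ', ξ ≠ ξ' ∧ th (t', r, ρ) a ξ ∧ th (t', r, σ) a ξ'` (dense by `split2`) gives
`e`, `r1`, `ρ`.
`J := Σ i : I, ({j // j < i} → Bool)`; `#J ≤ ν` because `ν` is a strong limit: `#J ≤ ∑ i, 2 ^ #{j // j < i} ≤ ν * ν = ν` (`Cardinal.sum_le_...`).
`COV ν T` for `W (i,s) t a := ∃ ξ ξ', ξ ≠ ξ' ∧ th (t, (e i s).1, (e i s).2.1) a ξ ∧ th (t, (e i s).1, (e i s).2.2) a ξ'` gives `t1 ≤ t0` and `A : Set Λ`,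
`#A ≤ ν`. Let `a0` be an upper bound of `A` (`Dir`).
`E`: a subset of `I → Bool` (or a type with an injection into it) with `#E = succ ν` (`succ ν ≤ 2 ^ ν = #(I → Bool)`). `REC` for `R1 × (E → R2)`, `δ = succ τ`, below
`(r1, ρ restricted to E)`, index set `E × {t // t ≤ t1}` (`#E ≤ 2 ^ ν ≤ τ`, `#T ≤ τ`), `D (f,t) (r, η) := ∃ t' ≤ t, ∃ ξ, th (t', r, η f) a0 ξ` (dense by `hth.tot`,
`Function.update`): get `(r, η)` with: for all `f ∈ E`, `t ≤ t1` there are `t' ≤ t`, `ξ` with `th (t', r, η f) a0 ξ`.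
`no_collapse` (with `W f t ξ := th (t, r, η f) a0 ξ`): `t3 ≤ t1`, `f ≠ f'` in `E`, `ξ` with `th (t3, r, η f) a0 ξ`, `th (t3, r, η f') a0 ξ`.
Let `i` be the least index with `f i ≠ f' i`; then the restrictions of `f`, `f'` to `{j // j < i}` are equal, call it `s`. By symmetry
`f i = false`, `f' i = true`. `COV` at `(i, s)`: `t4 ≤ t3`, `a ∈ A`, `ξ1 ≠ ξ2` with `th (t4, (e i s).1, (e i s).2.1) a ξ1`, `th (t4, (e i s).1, (e i s).2.2) a ξ2`.
As `r ≤ (e i s).1`, `η f ≤ ρ f ≤ (e i s).2.1`, `η f' ≤ (e i s).2.2`, `mono` gives `th (t4, r, η f) a ξ1`, `th (t4, r, η f') a ξ2`. `hth.coh` with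
`a ≤ a0`: `S.rel (t4, r) a a0 ξ1 ξ`, `S.rel (t4, r) a a0 ξ2 ξ`; `S.fn`: `ξ1 = ξ2`, contradiction. -/

universe u

namespace STP

open Cardinal

theorem closed_thr {T R1 R2 Λ N : Type u} [Preorder T] [Preorder R1] [Preorder R2] [Preorder Λ]
    {ν τ : Cardinal.{u}} (hν : ℵ₀ ≤ ν) (hN : #N = ν) (hs : ∀ x < ν, 2 ^ x < ν)
    (hτ : 2 ^ ν ≤ τ) (hT : #T ≤ τ) (hc : COV ν T) (hΛ : Dir ν Λ)
    (h1 : DC (Order.succ τ) R1) (h2 : DC (Order.succ τ) R2)
    (S : Sys (T × R1) Λ N) {t0 : T} {r0 : R1} {ρ0 : R2} {th : T × R1 × R2 → Λ → N → Prop}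
    (hth : IsThr (fun p a b ξ ζ => S.rel (p.1, p.2.1) a b ξ ζ) (t0, r0, ρ0) th) :
    ∃ p ≤ (t0, r0), ∃ th', IsThr S.rel p th' := by
  classical
  by_contra hcon
  have hno : ∀ p ≤ (t0, r0), ∀ th', ¬ IsThr S.rel p th' := fun p hp th' h =>
    hcon ⟨p, hp, th', h⟩
  have hmono : ∀ {t t' : T} {r r' : R1} {ρ ρ' : R2} {a : Λ} {ξ : N}, t' ≤ t → r' ≤ r →
      ρ' ≤ ρ → th (t, r, ρ) a ξ → th (t', r', ρ') a ξ := by
    intro t t' r r' ρ ρ' a ξ ht hr hρ h
    exact hth.mono (p := (t, r, ρ)) (q := (t', r', ρ')) ⟨ht, hr, hρ⟩ h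
  have hντ : ν ≤ τ := (Cardinal.cantor ν).le.trans hτ
  have hτ0 : ℵ₀ ≤ τ := hν.trans hντ
  let I : Type u := ν.ord.ToType
  have hI : #I = ν := Cardinal.mk_ord_toType ν
  have hIio : ∀ i : I, #{j : I // j < i} < ν := by
    intro i
    have h3 := Cardinal.mk_Iio_lt i (by rw [hI]; exact (Ordinal.type_toType _).symm)
    rw [hI] at h3
    exact h3
  let Sp : R1 → R2 → R2 → Prop := fun r ρ σ => ∀ t ≤ t0, ∃ t' ≤ t, ∃ a ξ ξ', ξ ≠ ξ' ∧
    th (t', r, ρ) a ξ ∧ th (t', r, σ) a ξ'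
  obtain ⟨e, r1, ρ, hr1, hρ, hSp, hre, hbr⟩ := tree (I := I) hτ0 (by rw [hI]; exact hτ) h1 h2 r0 ρ0
    Sp (fun r hr ρ hρ σ hσ => split2 S hT h1 h2 hth hno hr hρ hσ)
  have hJ : #(Σ i : I, ({j : I // j < i} → Bool)) ≤ ν := by
    rw [Cardinal.mk_sigma]
    have h3 : Cardinal.sum (fun i : I => #({j : I // j < i} → Bool)) ≤
        Cardinal.sum (fun _ : I => ν) := by
      refine Cardinal.sum_le_sum _ _ fun i => ?_
      have h4 : #({j : I // j < i} → Bool) = 2 ^ #{j : I // j < i} := by simp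
      rw [h4]
      exact (hs _ (hIio i)).le
    refine h3.trans ?_
    rw [Cardinal.sum_const', hI, Cardinal.mul_eq_self hν]
  obtain ⟨t1, ht1, A, hA, hcov⟩ := hc (Σ i : I, ({j : I // j < i} → Bool)) Λ hJ
    (fun is t a => ∃ ξ ξ', ξ ≠ ξ' ∧ th (t, (e is.1 is.2).1, (e is.1 is.2).2.1) a ξ ∧
      th (t, (e is.1 is.2).1, (e is.1 is.2).2.2) a ξ')
    (by
      rintro is t t' a ht ⟨ξ, ξ', hne, h3, h4⟩
      exact ⟨ξ, ξ', hne, hmono ht le_rfl le_rfl h3, hmono ht le_rfl le_rfl h4⟩) t0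
    (by
      rintro ⟨i, s⟩ t ht
      obtain ⟨t', ht', a, ξ, ξ', hne, h3, h4⟩ := hSp i s t ht
      exact ⟨t', ht', a, ξ, ξ', hne, h3, h4⟩)
  obtain ⟨a0, ha0⟩ := hΛ A hA
  have hE : #(I → Bool) = 2 ^ ν := by simp [hI]
  have hP : DC (Order.succ τ) (R1 × ((I → Bool) → R2)) := DC.prod h1 (DC.pi fun _ => h2)
  have hJ' : #((I → Bool) × {t // t ≤ t1}) < Order.succ τ := by
    rw [Order.lt_succ_iff, Cardinal.mk_prod, Cardinal.lift_id, Cardinal.lift_id, hE]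
    have h3 : #{t // t ≤ t1} ≤ τ := (Cardinal.mk_subtype_le _).trans hT
    calc 2 ^ ν * #{t // t ≤ t1} ≤ τ * τ := mul_le_mul' hτ h3
      _ = τ := Cardinal.mul_eq_self hτ0
  obtain ⟨⟨r, η⟩, hrη, hD⟩ := REC hP hJ'
    (fun ft q => ∃ t' ≤ ft.2.1, ∃ ξ, th (t', q.1, q.2 ft.1) a0 ξ) (r1, ρ)
    (by
      rintro ⟨f, t⟩ q q' hq ⟨t', ht', ξ, h3⟩
      exact ⟨t', ht', ξ, hmono le_rfl hq.1 (hq.2 f) h3⟩)
    (by
      rintro ⟨f, t, ht⟩ ⟨q1, q2⟩ hq
      obtain ⟨⟨t', r', ρ'⟩, hle, ξ, h3⟩ := hth.tot a0 (t, q1, q2 f)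
        ⟨ht.trans ht1, hq.1.trans hr1, (hq.2 f).trans (hρ f)⟩
      refine ⟨(r', Function.update q2 f ρ'), ⟨hle.2.1, fun g => ?_⟩, t', hle.1, ξ, ?_⟩
      · by_cases hg : g = f
        · subst hg
          show Function.update q2 g ρ' g ≤ q2 g
          rw [Function.update_self]
          exact hle.2.2
        · show Function.update q2 f ρ' g ≤ q2 g
          rw [Function.update_of_ne hg]
      · show th (t', r', Function.update q2 f ρ' f) a0 ξ
        rw [Function.update_self]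
        exact h3)
  have hr1' : r ≤ r1 := hrη.1
  have hη : ∀ f, η f ≤ ρ f := hrη.2
  obtain ⟨t3, ht3, f, f', hne, ξ, h3, h4⟩ := no_collapse hc hN.le
    (show ν < #(I → Bool) by rw [hE]; exact Cardinal.cantor ν)
    (fun f t ξ => th (t, r, η f) a0 ξ)
    (fun f t t' ξ ht h => hmono ht le_rfl le_rfl h) t1
    (fun f t ht => by
      obtain ⟨t', ht', ξ, h3⟩ := hD (f, ⟨t, ht⟩)
      exact ⟨t', ht', ξ, h3⟩)
  have key : ∀ (f f' : I → Bool) (i : I), (∀ j < i, f j = f' j) → f i = false → f' i = true →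
      ∀ ξ, th (t3, r, η f) a0 ξ → th (t3, r, η f') a0 ξ → False := by
    intro f f' i hij hfi hfi' ξ h3 h4
    obtain ⟨t4, ht4, a, haA, ξ1, ξ2, hne12, h5, h6⟩ := hcov ⟨i, fun j => f j.1⟩ t3 ht3
    have hse : (fun j : {j : I // j < i} => f' j.1) = fun j => f j.1 := by
      funext j
      exact (hij j.1 j.2).symm
    have h7 : η f ≤ (e i fun j => f j.1).2.1 := by
      have h8 := hbr f i
      rw [hfi] at h8
      exact (hη f).trans h8
    have h8 : η f' ≤ (e i fun j => f j.1).2.2 := by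
      have h9 := hbr f' i
      rw [hfi', hse] at h9
      exact (hη f').trans h9
    have hre' : r ≤ (e i fun j => f j.1).1 := hr1'.trans (hre i _)
    have h9 : th (t4, r, η f) a ξ1 := hmono le_rfl hre' h7 h5
    have h10 : th (t4, r, η f') a ξ2 := hmono le_rfl hre' h8 h6
    have h11 : th (t4, r, η f) a0 ξ := hmono ht4 le_rfl le_rfl h3
    have h12 : th (t4, r, η f') a0 ξ := hmono ht4 le_rfl le_rfl h4
    have ht40 : t4 ≤ t0 := ht4.trans (ht3.trans ht1)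
    have h13 := hth.coh (p := (t4, r, η f))
      ⟨ht40, hr1'.trans hr1, (hη f).trans (hρ f)⟩ (ha0 a haA) h9 h11
    have h14 := hth.coh (p := (t4, r, η f'))
      ⟨ht40, hr1'.trans hr1, (hη f').trans (hρ f')⟩ (ha0 a haA) h10 h12
    exact hne12 (S.fn h13 h14)
  obtain ⟨i, hi, hmin⟩ := WellFounded.has_min (wellFounded_lt (α := I)) {i | f i ≠ f' i}
    (Function.ne_iff.1 hne)
  have hij : ∀ j < i, f j = f' j := by
    intro j hj
    by_contra hcj
    exact hmin j hcj hj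
  cases hfi : f i with
  | false =>
    have hfi' : f' i = true := by
      cases hx : f' i with
      | false => exact absurd (hfi.trans hx.symm) hi
      | true => rfl
    exact key f f' i hij hfi hfi' ξ h3 h4
  | true =>
    have hfi' : f' i = false := by
      cases hx : f' i with
      | false => rfl
      | true => exact absurd (hfi.trans hx.symm) hi
    exact key f' f i (fun j hj => (hij j hj).symm) hfi' hfi ξ h4 h3

end STP
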