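import Pool.Agent.STP.PD

/-! # The narrow system: colours (package S17)

(problem MP_e44aae_lc, project STP)

Text, section 6, (iii). `F u` is a disjoint family (index `E u`), total for almost all `u`. Each value `e : E u` has a colour `sc u e : S`, a set `cc u e ⊆ G × N` with fewer than `γ` elements,
contained in `G × (u ∩ N)`, and a node `zc u e`; `N = ⋃ i, Ni i`, `#S, #Γ, #G < κ`. Then below each `q` some `q'` decides `sc`, `cc` and an `i` with `zc ∈ Ni i`,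
for almost all `u`.

Proof. `U (fun u => ⨆ e, F u e) = ⊤`. For each `u`: `⨆ e, F u e ≤ ⨆ (p : S × Γ), ⨆ e, ⨆ _ : sc u e = p.1 ∧ zc u e ∈ Ni p.2, F u e`, so by `complete_sup` (`#(S × Γ) < κ`, `κ` infinite)
`⨆ p, U (fun u => ⨆ e, ⨆ _ : .., F u e) = ⊤`: some `q1 ≤ q` and `(s, i)` have `q1 ∈ U (fun u => ⨆ e, ⨆ _ : sc u e = s ∧ zc u e ∈ Ni i, F u e)` (`RO.mem_iSup`).
`PD` for `F' u e := ⨆ _ : (sc u e = s ∧ zc u e ∈ Ni i), F u e` (disjoint since `F' ≤ F`), below `q1`, with `G u e := iZ '' cc u e` (fewer than `γ` elements, `ℵ₀ ≤ γ < κ`): `q' ≤ q1` and `c' : Set Y` with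
`q' ∈ U (fun u => ⨆ e, ⨆ _ : iZ '' cc u e ∩ u = c', F' u e)`. Almost every `u` is closed under `x ↦ {iZ (g, x) | g : G}` for `x : N` with `iN x ∈ u` (`clos` with the set valued function
`y ↦ {iZ (g, x) | g, iN x = y}`, fewer than `κ` elements since `iN` is injective). For such `u`: `iZ '' cc u e ⊆ u`, so `iZ '' cc u e = c'` and `cc u e = iZ ⁻¹' c' =: c`. `#c < γ`: by `exists_mem` there is a
`u`, `e` with `cc u e = c` (or: `#c ≤ #c' < γ`). Conclude with `ae_mono`. -/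

universe u

namespace STP

open Cardinal

theorem colours {κ γ : Cardinal.{u}} {Y Q N S Γ G : Type u} [Preorder Q]
    {U : (Pk κ Y → RO Q) → RO Q} (hU : NormalU κ Y (RO Q) U) (hQ : DC κ Q) (hγ : ℵ₀ ≤ γ)
    (hγκ : γ < κ) (hS : #S < κ) (hΓ : #Γ < κ) (hG : #G < κ) (iN : N → Y) (iZ : G × N → Y)
    (hiN : Function.Injective iN) (hiZ : Function.Injective iZ)
    (Ni : Γ → Set N) (hNi : ∀ x, ∃ i, x ∈ Ni i)
    {E : Pk κ Y → Type u} (F : ∀ u, E u → RO Q) (sc : ∀ u, E u → S)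
    (cc : ∀ u, E u → Set (G × N)) (zc : ∀ u, E u → N)
    (hdis : ∀ u e e', e ≠ e' → F u e ⊓ F u e' = ⊥)
    (htot : U (fun u => ⨆ e, F u e) = ⊤) (hcc : ∀ u e, #(cc u e) < γ)
    (hcu : ∀ u e, ∀ x ∈ cc u e, iN x.2 ∈ u.1) (q : Q) :
    ∃ q' ≤ q, ∃ (s : S) (c : Set (G × N)) (i : Γ), #c < γ ∧
      q' ∈ U (fun u => ⨆ e, ⨆ _ : sc u e = s ∧ cc u e = c ∧ zc u e ∈ Ni i, F u e) := by
  have hκ : ℵ₀ ≤ κ := hγ.trans hγκ.le
  -- the first two colours
  have hSG : #(S × Γ) < κ := by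
    rw [mk_prod, lift_id, lift_id]
    exact mul_lt_of_lt hκ hS hΓ
  have h1 := hU.complete_sup hSG
    (fun p u => ⨆ e, ⨆ _ : sc u e = p.1 ∧ zc u e ∈ Ni p.2, F u e)
  have h2 : U (fun u => ⨆ p : S × Γ, ⨆ e, ⨆ _ : sc u e = p.1 ∧ zc u e ∈ Ni p.2, F u e) = ⊤ := by
    rw [eq_top_iff, ← htot]
    refine hU.mono fun u => iSup_le fun e => ?_
    obtain ⟨i, hi⟩ := hNi (zc u e)
    exact le_iSup_of_le (sc u e, i) (le_iSup_of_le e (le_iSup_of_le ⟨rfl, hi⟩ le_rfl))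
  rw [h2] at h1
  have h3 : q ∈ ⨆ p : S × Γ, U (fun u => ⨆ e, ⨆ _ : sc u e = p.1 ∧ zc u e ∈ Ni p.2, F u e) := by
    rw [← h1]
    exact RO.mem_top
  rw [RO.mem_iSup] at h3
  obtain ⟨q1, hq1, ⟨s, i⟩, h4⟩ := h3 q le_rfl
  -- the third colour
  obtain ⟨q', hq', c', hc', h5⟩ := PD hU hQ hγ hγκ
    (fun u e => ⨆ _ : sc u e = s ∧ zc u e ∈ Ni i, F u e)
    (by
      intro u e e' hne
      refine le_bot_iff.1 ?_
      rw [← hdis u e e' hne]
      exact inf_le_inf (iSup_le fun _ => le_rfl) (iSup_le fun _ => le_rfl))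
    q1 h4 (fun u e => iZ '' cc u e) (fun u e => mk_image_le.trans_lt (hcc u e))
  -- closure
  have h6 := hU.clos (fun y => {w | ∃ (g : G) (x : N), iN x = y ∧ iZ (g, x) = w}) (by
    intro y
    by_cases hy : ∃ x, iN x = y
    · obtain ⟨x, hx⟩ := hy
      refine lt_of_le_of_lt ?_ hG
      have h7 : {w | ∃ (g : G) (x : N), iN x = y ∧ iZ (g, x) = w} ⊆
          Set.range fun g : G => iZ (g, x) := by
        rintro w ⟨g, x', h8, h9⟩
        have h10 : x' = x := hiN (h8.trans hx.symm)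
        subst h10
        exact ⟨g, h9⟩
      exact (mk_le_mk_of_subset h7).trans mk_range_le
    · have h7 : {w | ∃ (g : G) (x : N), iN x = y ∧ iZ (g, x) = w} = ∅ := by
        rw [Set.eq_empty_iff_forall_notMem]
        rintro w ⟨g, x', h8, -⟩
        exact hy ⟨x', h8⟩
      rw [h7, mk_eq_zero]
      exact lt_of_lt_of_le aleph0_pos hκ)
  refine ⟨q', hq'.trans hq1, s, iZ ⁻¹' c', i,
    (mk_preimage_of_injective iZ c' hiZ).trans_lt hc', ?_⟩
  refine hU.ae_mono (hU.mem_inf.2 ⟨h5, hU.of_top h6⟩) ?_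
  rintro u q'' - ⟨h7, h8⟩
  have h9 := RO.mem_chi.1 h8
  refine RO.le_def.1 ?_ q'' h7
  refine iSup_le fun e => iSup_le fun h10 => iSup_le fun h11 => ?_
  refine le_iSup_of_le e (le_iSup_of_le ⟨h11.1, ?_, h11.2⟩ le_rfl)
  have h12 : iZ '' cc u e ⊆ u.1 := by
    rintro w ⟨x, hx, rfl⟩
    exact h9 (iN x.2) (hcu u e x hx) ⟨x.1, x.2, rfl, rfl⟩
  rw [Set.inter_eq_left.2 h12] at h10
  rw [← h10, Set.preimage_image_eq _ hiZ]

end STP
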