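import Pool.Agent.STP.Lang

/-! # Ineffable branches and ITP inside a structure `(N, E)`

(problem MP_e44aae_lc, project STP; definitions, no sorry in this file)

Every definition quantifies over the elements of `N` only. -/

universe v

namespace STP

section

variable {N : Type v} (E : N → N → Prop)

/-- `b ⊆ λ` is an ineffable branch of `d`: the set `{x ∈ P_κ(λ) | d_x = b ∩ x}` is stationary, i.e. it
meets every club of `P_κ(λ)` -/
def IsIneff (κ lam d b : N) : Prop :=
  Sub E b lam ∧ ∀ C, IsClub E κ lam C → ∃ x t, E x C ∧ Val E d x t ∧ IsInt E t b x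

/-- ITP at `κ`: for every `λ ≥ κ` every thin `P_κ(λ)`-list has an ineffable branch -/
def ITP (κ : N) : Prop :=
  ∀ lam d, IsOrd E lam → Sub E κ lam → IsList E κ lam d → IsThin E κ lam d →
    ∃ b, IsIneff E κ lam d b

/-- There is a good sequence `(g n)_{n ∈ ω}` (the `g n` are pairwise distinct infinite regular
cardinals with `g n < ℵ_{g n}`) such that the strong tree property and ITP hold at `ℵ_{g n + 1}` for
every `n ∈ ω`. -/
def GoodITP : Prop :=
  ∃ w g, IsOm E w ∧ IsFun E g w ∧
    (∀ n x, Val E g n x → IsRC E x) ∧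
    (∀ m n x, Val E g m x → Val E g n x → m = n) ∧
    (∀ n x, Val E g n x → ∃ c, IsAl E c x ∧ E x c) ∧
    ∀ n x, Val E g n x → ∃ s κ, IsSc E s x ∧ IsAl E κ s ∧ StrongTP E κ ∧ ITP E κ

end

end STP
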