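import Pool.Agent.STP.FLang
import Pool.Agent.STP.LangI

/-! # Formulas for the notions of set theory in `LangI.lean`

(problem MP_e44aae_lc, project STP; no sorry in this file) -/

universe v

namespace STP

open Fml

/-- `x_b` is an ineffable branch of `x_d` -/
def fIneff (k l d b : ℕ) : Fml :=
  an (fSub b l) (.all (.imp (fClub (k + 1) (l + 1) 0)
    (ex (ex (an (.mem 1 2) (an (fVal (d + 3) 1 0) (fInt 0 (b + 3) 1)))))))

/-- ITP at `x_k` -/
def fITP (k : ℕ) : Fml :=
  .all (.all (.imp (fOrd 1) (.imp (fSub (k + 2) 1) (.imp (fList (k + 2) 1 0)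
    (.imp (fThin (k + 2) 1 0) (ex (fIneff (k + 3) 2 1 0)))))))

section

variable {N : Type v} {E : N → N → Prop} {v : ℕ → N}

@[simp] theorem sat_fIneff {k l d b : ℕ} :
    sat E (fIneff k l d b) v ↔ IsIneff E (v k) (v l) (v d) (v b) := by
  simp [fIneff, IsIneff]

@[simp] theorem sat_fITP {k : ℕ} : sat E (fITP k) v ↔ ITP E (v k) := by
  simp [fITP, ITP]

end

end STP
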