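import Pool.Agent.STP.ZCho
import Pool.Agent.STP.FLang
import Pool.Agent.STP.RO

/-! # The forcing relation

(problem MP_e44aae_lc, project STP)

`Fo p φ v` : `p` forces `φ(v)`. It is equivalent to the truth of `φ(v)` in all quotients `NG G`,
`up p ∈ G` (`Fo.iff`). Bounded quantifiers over the canonical names `ck o` of ordinals range over
the names `ck a`, `a < o` (`Fo.ball`, `Fo.bex`). -/

universe u

namespace STP

open BSet

variable {P : Type u} [PartialOrder P]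

/-- `p` forces `φ(v)` -/
def Fo (p : P) (φ : Fml) (v : ℕ → BSet (RO P)) : Prop := p ∈ bval φ v

variable {p q : P} {φ ψ : Fml} {v : ℕ → BSet (RO P)}

theorem Fo.mono (hq : q ≤ p) (h : Fo p φ v) : Fo q φ v := (bval φ v).down hq h

theorem Fo.loc (h : ∀ q ≤ p, ∃ r ≤ q, Fo r φ v) : Fo p φ v := (bval φ v).locally h

/-- the valuation in `NG G` given by names -/
def ev (G : Ult (RO P)) (v : ℕ → BSet (RO P)) : ℕ → NG G := fun i => NG.mk G (v i)

theorem ev_cns (G : Ult (RO P)) (x : BSet (RO P)) (v : ℕ → BSet (RO P)) :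
    cns (NG.mk G x) (ev G v) = ev G (cns x v) := by
  funext i
  cases i <;> rfl

@[simp] theorem ev_apply (G : Ult (RO P)) (v : ℕ → BSet (RO P)) (i : ℕ) :
    ev G v i = NG.mk G (v i) := rfl

theorem los' (G : Ult (RO P)) (φ : Fml) (v : ℕ → BSet (RO P)) :
    sat (EG G) φ (ev G v) ↔ bval φ v ∈ G.s := los G φ v

theorem Fo.iff : Fo p φ v ↔ ∀ G : Ult (RO P), RO.up p ∈ G.s → sat (EG G) φ (ev G v) := by
  constructor
  · intro h G hG
    exact (los' G φ v).2 (G.up hG (RO.up_le.2 h))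
  · intro h
    exact RO.up_le.1 (Ult.mem_of_all fun G hG => (los' G φ v).1 (h G hG))

theorem Fo.tr (h : Fo p φ v) (G : Ult (RO P)) (hG : RO.up p ∈ G.s) :
    sat (EG G) φ (ev G v) := Fo.iff.1 h G hG

/-- semantic consequence -/
theorem Fo.of (h : ∀ G : Ult (RO P), RO.up p ∈ G.s → STP.sat (EG G) φ (ev G v)) : Fo p φ v :=
  Fo.iff.2 h

/-- a formula which is forced by all conditions is true in all quotients -/
theorem Fo.top (h : ∀ p : P, Fo p φ v) (G : Ult (RO P)) : STP.sat (EG G) φ (ev G v) := by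
  refine (los' G φ v).2 ?_
  have h1 : bval φ v = ⊤ := top_le_iff.1 (RO.le_def.2 fun p _ => h p)
  rw [h1]
  exact G.top

theorem Fo.of_top (h : ∀ G : Ult (RO P), STP.sat (EG G) φ (ev G v)) (p : P) : Fo p φ v :=
  Fo.of fun G _ => h G

theorem up_mem {G : Ult (RO P)} (h : q ≤ p) (hG : RO.up q ∈ G.s) : RO.up p ∈ G.s :=
  G.up hG (RO.up_le.2 (RO.mem_up.2 fun r hr => ⟨r, le_rfl, hr.trans h⟩))

theorem Fo.bot : ¬ Fo p .bot v := fun h => h

theorem Fo.imp : Fo p (.imp φ ψ) v ↔ ∀ q ≤ p, Fo q φ v → Fo q ψ v := by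
  constructor
  · intro h q hq h1
    exact RO.le_def.1 (himp_inf_le (a := bval φ v) (b := bval ψ v)) q ⟨Fo.mono hq h, h1⟩
  · intro h
    have h1 : RO.up p ≤ bval φ v ⇨ bval ψ v := by
      rw [le_himp_iff, RO.le_def]
      rintro q ⟨hq, hq'⟩
      refine Fo.loc (φ := ψ) fun r hr => ?_
      obtain ⟨t, ht, ht'⟩ := RO.mem_up.1 hq r hr
      exact ⟨t, ht, h t ht' ((bval φ v).down (ht.trans hr) hq')⟩
    exact RO.up_le.1 h1

theorem Fo.no : Fo p φ.no v ↔ ∀ q ≤ p, ¬ Fo q φ v := Fo.imp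

theorem Fo.all : Fo p (.all φ) v ↔ ∀ x, Fo p φ (cns x v) := RO.mem_iInf

theorem Fo.an : Fo p (φ.an ψ) v ↔ Fo p φ v ∧ Fo p ψ v := by
  have h : bval (φ.an ψ) v = bval φ v ⊓ bval ψ v := bval_an φ ψ v
  unfold Fo
  rw [h, RO.mem_inf]

theorem Fo.ex : Fo p φ.ex v ↔ ∃ x, Fo p φ (cns x v) := by
  have h : bval φ.ex v = ⨆ x, bval φ (cns x v) := bval_ex φ v
  obtain ⟨x, hx⟩ := full (bval_ext φ v)
  constructor
  · intro h1
    refine ⟨x, ?_⟩
    unfold Fo at h1 ⊢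
    rw [hx, ← h]
    exact h1
  · rintro ⟨y, hy⟩
    unfold Fo
    rw [h]
    exact RO.le_def.1 (le_iSup (fun x => bval φ (cns x v)) y) p hy

theorem Fo.dec (p : P) (φ : Fml) (v : ℕ → BSet (RO P)) : ∃ q ≤ p, Fo q φ v ∨ Fo q φ.no v := by
  by_cases h : ∃ q ≤ p, Fo q φ v
  · obtain ⟨q, hq, h1⟩ := h
    exact ⟨q, hq, Or.inl h1⟩
  · push Not at h
    exact ⟨p, le_rfl, Or.inr (Fo.no.2 h)⟩

theorem Fo.exists_no (h : ¬ Fo p φ v) : ∃ q ≤ p, Fo q φ.no v := by
  by_contra hcon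
  push Not at hcon
  refine h (Fo.loc fun q hq => ?_)
  by_contra h1
  push Not at h1
  exact hcon q hq (Fo.no.2 h1)

theorem Fo.ball {j : ℕ} {o : Ordinal.{u}} (hj : v j = ck o) :
    Fo p (fBall j φ) v ↔ ∀ a < o, Fo p φ (cns (ck a) v) := by
  unfold Fo
  rw [ball_ck φ v j o hj, RO.mem_iInf]
  exact ⟨fun h a ha => h ⟨a, ha⟩, fun h a => h a.1 a.2⟩

theorem Fo.bex {j : ℕ} {o : Ordinal.{u}} (hj : v j = ck o) :
    Fo p (fBex j φ) v ↔ ∀ q ≤ p, ∃ r ≤ q, ∃ a < o, Fo r φ (cns (ck a) v) := by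
  unfold Fo
  rw [bex_ck φ v j o hj, RO.mem_iSup]
  constructor
  · intro h q hq
    obtain ⟨r, hr, a, ha⟩ := h q hq
    exact ⟨r, hr, a.1, a.2, ha⟩
  · intro h q hq
    obtain ⟨r, hr, a, ha, h1⟩ := h q hq
    exact ⟨r, hr, ⟨a, ha⟩, h1⟩

@[simp] theorem sat_fBall {N : Type*} {E : N → N → Prop} {j : ℕ} {φ : Fml} {v : ℕ → N} :
    STP.sat E (fBall j φ) v ↔ ∀ x, E x (v j) → STP.sat E φ (cns x v) := by
  simp [fBall]

@[simp] theorem sat_fBex {N : Type*} {E : N → N → Prop} {j : ℕ} {φ : Fml} {v : ℕ → N} :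
    STP.sat E (fBex j φ) v ↔ ∃ x, E x (v j) ∧ STP.sat E φ (cns x v) := by
  simp [fBex]

/-- The valuation with the names `l`, all other variables are the empty set. -/
noncomputable def vl (l : List (BSet (RO P))) : ℕ → BSet (RO P) := fun i => l.getD i (ck 0)

@[simp] theorem cns_vl (x : BSet (RO P)) (l : List (BSet (RO P))) : cns x (vl l) = vl (x :: l) := by
  funext i
  cases i <;> rfl

@[simp] theorem vl_zero (x : BSet (RO P)) (l : List (BSet (RO P))) : vl (x :: l) 0 = x := rfl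

@[simp] theorem vl_one (x y : BSet (RO P)) (l : List (BSet (RO P))) :
    vl (x :: y :: l) 1 = y := rfl

@[simp] theorem vl_succ (x : BSet (RO P)) (l : List (BSet (RO P))) (n : ℕ) :
    vl (x :: l) (n + 1) = vl l n := rfl

end STP
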