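import Pool.Agent.STP.Nu
import Pool.Agent.STP.Nm

/-! # Generic surjections and the size of `u` (package S15)

(problem MP_e44aae_lc, project STP)

`Onto Q A B`: a `Q`-name of a partial function from `A` onto `B`.

* `col_onto`: for `Q = Col δ B`, `A = δ.out`: `g p x y := (x, y) ∈ p.s`; `onto`: `#p.s < δ = #(δ.out)`, so some `x` is not a first coordinate of an element of
  `p.s`; add `(x, y)` (`δ` infinite). `Onto.comap`: along projections (as `Sys.comap`). `Onto.dom`: replace `A` by an equivalent type.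
* `onto_card`: by `NormalU.ground` suppose `q ∈ U (fun u => chi (u ∉ Good))`. For `y : B` let `Φ x` be the regular open set generated by `{q | o.g q x y}` (`RO.cl`); by
  `exists_max` `z y : A → RO Q` is disjoint, `z y x ≤ Φ x`, `⨆ x, z y x = ⊤` (`onto`). For fixed `y`: `U (fun u => ⨆ x, ⨆ _ : iA x ∈ u, z y x) = ⊤`, because it is
  `≥ U (fun u => chi (iA x ∈ u) ⊓ z y x) = z y x` for all `x` (`fine`, `inf_const`). By normality (`normal_top`, for the family indexed by `w : Y`: the value for `y` if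
  `w = iB y`, otherwise `⊤`; `iB` is injective) `U (fun u => ⨅ y, ⨅ _ : iB y ∈ u, ⨆ x, ⨆ _ : iA x ∈ u, z y x) = ⊤`. So there are `u ∉ Good` and `q' ≤ q` in this value at
  `u` (`exists_mem`). `REC` (`Q` is `DC κ`, index set `{y // iB y ∈ u}`, fewer than `κ` elements) for `D y r := ∃ x, iA x ∈ u ∧ o.g r x y`: some `r ≤ q'` satisfies all `D y`.
  The choice `y ↦ x` is injective by `o.fn`, so `#{y // iB y ∈ u} ≤ #{x // iA x ∈ u}`: `u ∈ Good`.
* `init_card`: `K` is a well-order, each `{y // y < w}` injects into `A` by `j w`. By `clos2` almost every `u` is closed under `(w, y) ↦ iA (j w y)` for `y < w` (`G (iK w) (iK y) =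
  {iA (j w y)}` and `∅` for other arguments). For such `u` each proper initial segment of `W := {w // iK w ∈ u}` has at most `m := #{x // iA x ∈ u}` elements
  (`j w` is injective), so `#W ≤ succ m`: otherwise the order type of `W` is `> (succ m).ord`, and some element of `W` has an initial segment of order type
  `(succ m).ord` (`Ordinal.enum`), of cardinality `succ m > m`.
* `card_ae`: `Y := Λ ⊕ N ⊕ K ⊕ Tt ⊕ Tp ⊕ Z` with `K := (succ ν).ord.ToType`, `Tt := τ.out`, `Tp := (succ τ).ord.ToType`, `Z := G × N`. `#Λ_u ≤ #Tp_u` (`onto_card` for `o2`),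
  `#Tp_u ≤ succ #Tt_u` (`init_card`), `#Tt_u ≤ #K_u` (`o1`), `#K_u ≤ succ #N_u` (`init_card`, `#{y // y < w} ≤ ν = #N`); combine (`NormalU.inf`). -/

universe u

namespace STP

open Cardinal

/-- a `Q`-name of a partial function from `A` onto `B` -/
structure Onto (Q A B : Type u) [Preorder Q] : Type u where
  /-- `g q x y`: `q` forces that the value at `x` is `y` -/
  g : Q → A → B → Prop
  mono : ∀ {q q' x y}, q' ≤ q → g q x y → g q' x y
  fn : ∀ {q x y y'}, g q x y → g q x y' → y = y'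
  onto : ∀ y q, ∃ q' ≤ q, ∃ x, g q' x y

theorem col_onto {δ : Cardinal.{u}} (hδ : ℵ₀ ≤ δ) (B : Type u) :
    ∃ o : Onto (Col δ B) δ.out B, ∀ p x y, o.g p x y ↔ (x, y) ∈ p.s := by
  refine ⟨⟨fun p x y => (x, y) ∈ p.s, fun h1 h2 => h1 h2, ?_, ?_⟩, fun _ _ _ => Iff.rfl⟩
  · intro q x y y' h1 h2
    exact q.cl _ h1 _ h2 rfl
  · intro y q
    obtain ⟨x, hx⟩ : ∃ x : δ.out, x ∉ Prod.fst '' q.s := by
      by_contra hc
      push Not at hc
      have h1 : Prod.fst '' q.s = Set.univ := Set.eq_univ_of_forall hc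
      have h2 : #(Prod.fst '' q.s : Set δ.out) ≤ #q.s := mk_image_le
      rw [h1, mk_univ, mk_out] at h2
      exact absurd (h2.trans_lt q.card) (lt_irrefl _)
    refine ⟨⟨insert (x, y) q.s, ?_, ?_⟩, ?_, x, ?_⟩
    · exact (mk_insert_le).trans_lt (add_lt_of_lt hδ q.card (one_lt_aleph0.trans_le hδ))
    · rintro a (rfl | ha) b (rfl | hb)
      · exact fun _ => rfl
      · intro h1
        exact absurd ⟨b, hb, h1.symm⟩ hx
      · intro h1
        exact absurd ⟨a, ha, h1⟩ hx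
      · exact q.cl a ha b hb
    · exact Set.subset_insert _ _
    · exact Set.mem_insert _ _

theorem Onto.comap {Q Q' A B : Type u} [Preorder Q] [Preorder Q'] (o : Onto Q A B) (f : Q' → Q)
    (hf : ∀ p q, q ≤ p → f q ≤ f p) (hp : ∀ p', ∀ q ≤ f p', ∃ q' ≤ p', f q' ≤ q) :
    Nonempty (Onto Q' A B) := by
  refine ⟨⟨fun p x y => o.g (f p) x y, fun h1 h2 => o.mono (hf _ _ h1) h2,
    fun h1 h2 => o.fn h1 h2, ?_⟩⟩
  intro y q
  obtain ⟨q1, h1, x, hx⟩ := o.onto y (f q)
  obtain ⟨q', h2, h3⟩ := hp q q1 h1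
  exact ⟨q', h2, x, o.mono h3 hx⟩

private theorem gen_chi_mono {B : Type u} [CompleteLattice B] {p q : Prop} (h : p → q) :
    (chi p : B) ≤ chi q :=
  iSup_le fun hp => le_iSup_of_le (h hp) le_rfl

private theorem gen_chi_and {B : Type u} [CompleteLattice B] {p q : Prop} :
    (chi p : B) ⊓ chi q ≤ chi (p ∧ q) := by
  by_cases hp : p
  · by_cases hq : q
    · exact le_iSup_of_le (f := fun _ : p ∧ q => (⊤ : B)) ⟨hp, hq⟩ le_top
    · refine inf_le_right.trans ?_
      exact iSup_le fun h => absurd h hq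
  · refine inf_le_left.trans ?_
    exact iSup_le fun h => absurd h hp

private theorem gen_ae_mono {κ : Cardinal.{u}} {Y B : Type u} [CompleteBooleanAlgebra B]
    {U : (Pk κ Y → B) → B} (hU : NormalU κ Y B U) {P P' : Pk κ Y → Prop}
    (h : ∀ u, P u → P' u) (h1 : U (fun u => chi (P u)) = ⊤) :
    U (fun u => chi (P' u)) = ⊤ := by
  rw [eq_top_iff, ← h1]
  exact hU.mono fun u => gen_chi_mono (h u)

private theorem gen_ae_and {κ : Cardinal.{u}} {Y B : Type u} [CompleteBooleanAlgebra B]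
    {U : (Pk κ Y → B) → B} (hU : NormalU κ Y B U) {P P' : Pk κ Y → Prop}
    (h1 : U (fun u => chi (P u)) = ⊤) (h2 : U (fun u => chi (P' u)) = ⊤) :
    U (fun u => chi (P u ∧ P' u)) = ⊤ := by
  rw [eq_top_iff]
  calc (⊤ : B) = U (fun u => chi (P u)) ⊓ U (fun u => chi (P' u)) := by
        rw [h1, h2, inf_idem]
    _ = U (fun u => chi (P u) ⊓ chi (P' u)) := (hU.inf _ _).symm
    _ ≤ U (fun u => chi (P u ∧ P' u)) := hU.mono fun u => gen_chi_and

theorem onto_card {κ : Cardinal.{u}} {Y Q A B : Type u} [Preorder Q]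
    {U : (Pk κ Y → RO Q) → RO Q} (hU : NormalU κ Y (RO Q) U) (hQ : DC κ Q) (o : Onto Q A B)
    (iA : A → Y) (iB : B → Y) (hA : Function.Injective iA) (hB : Function.Injective iB) :
    U (fun u => chi (#{y : B // iB y ∈ u.1} ≤ #{x : A // iA x ∈ u.1})) = ⊤ := by
  classical
  refine hU.ground {u | #{y : B // iB y ∈ u.1} ≤ #{x : A // iA x ∈ u.1}} fun q hq => ?_
  let Φ : B → A → RO Q := fun y x => RO.cl {q | o.g q x y}
  have hΦ : ∀ {y x q}, q ∈ Φ y x ↔ ∀ r ≤ q, ∃ t ≤ r, o.g t x y := fun {y x q} =>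
    RO.mem_cl fun p q hqp hp => o.mono hqp hp
  have hΦtop : ∀ y, ⨆ x, Φ y x = ⊤ := by
    intro y
    rw [eq_top_iff]
    intro p _
    rw [RO.mem_iSup]
    intro q _
    obtain ⟨r, hr, x, hx⟩ := o.onto y q
    exact ⟨r, hr, x, hΦ.2 fun t ht => ⟨t, le_rfl, o.mono ht hx⟩⟩
  let S : B → Pk κ Y → RO Q := fun y u => ⨆ x, ⨆ _ : iA x ∈ u.1, Φ y x
  have hS : ∀ y, U (S y) = ⊤ := by
    intro y
    rw [eq_top_iff, ← hΦtop y]
    refine iSup_le fun x => ?_
    have h1 : U (fun u => chi (iA x ∈ u.1) ⊓ Φ y x) = Φ y x := by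
      rw [hU.inf_const, hU.fine, top_inf_eq]
    rw [← h1]
    refine hU.mono fun u => ?_
    by_cases hx : iA x ∈ u.1
    · exact inf_le_right.trans (le_iSup_of_le x (le_iSup_of_le hx le_rfl))
    · exact inf_le_left.trans (iSup_le fun h => absurd h hx)
  let Z : Y → Pk κ Y → RO Q := fun w =>
    if h : ∃ y, iB y = w then S h.choose else fun _ => ⊤
  have hZ : ∀ w, U (Z w) = ⊤ := by
    intro w
    by_cases h : ∃ y, iB y = w
    · have h1 : Z w = S h.choose := dif_pos h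
      rw [h1]
      exact hS _
    · have h1 : Z w = fun _ => ⊤ := dif_neg h
      rw [h1]
      exact hU.const ⊤
  have hZB : ∀ y, Z (iB y) = S y := by
    intro y
    have h : ∃ y', iB y' = iB y := ⟨y, rfl⟩
    have h1 : Z (iB y) = S h.choose := dif_pos h
    rw [h1, hB h.choose_spec]
  have h1 : q ∈ U (fun u => ⨅ w ∈ u.1, Z w u) := hU.of_top (hU.normal_top hZ)
  have h2 : q ∈ U (fun u => chi (u ∉ {u : Pk κ Y |
      #{y : B // iB y ∈ u.1} ≤ #{x : A // iA x ∈ u.1}}) ⊓ ⨅ w ∈ u.1, Z w u) :=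
    hU.mem_inf.2 ⟨hq, h1⟩
  obtain ⟨u, q', -, hq'⟩ := hU.exists_mem h2
  rw [RO.mem_inf] at hq'
  obtain ⟨h3, h4⟩ := hq'
  rw [RO.mem_chi] at h3
  apply h3
  have h5 : ∀ y, iB y ∈ u.1 → q' ∈ S y u := by
    intro y hy
    rw [RO.mem_iInf] at h4
    have h6 := h4 (iB y)
    rw [RO.mem_iInf] at h6
    have h7 := h6 hy
    rw [hZB] at h7
    exact h7
  have hJ : #{y : B // iB y ∈ u.1} < κ := by
    refine lt_of_le_of_lt ?_ u.2
    exact mk_le_of_injective (f := fun y : {y : B // iB y ∈ u.1} =>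
      (⟨iB y.1, y.2⟩ : u.1)) fun y y' h => Subtype.ext (hB (congrArg Subtype.val h))
  obtain ⟨r, -, hr⟩ := REC hQ hJ
    (fun (y : {y : B // iB y ∈ u.1}) r => ∃ x, iA x ∈ u.1 ∧ o.g r x y.1) q'
    (by
      rintro y q r hrq ⟨x, hx, hx'⟩
      exact ⟨x, hx, o.mono hrq hx'⟩)
    (by
      intro y r hr
      have h6 := (S y.1 u).down hr (h5 y.1 y.2)
      have h7 : r ∈ ⨆ x, ⨆ _ : iA x ∈ u.1, Φ y.1 x := h6
      rw [RO.mem_iSup] at h7
      obtain ⟨r1, hr1, x, h8⟩ := h7 r le_rfl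
      rw [RO.mem_iSup] at h8
      obtain ⟨r2, hr2, hx, h9⟩ := h8 r1 le_rfl
      obtain ⟨r3, hr3, h10⟩ := hΦ.1 h9 r2 le_rfl
      exact ⟨r3, hr3.trans (hr2.trans hr1), x, hx, h10⟩)
  choose x hx hx' using hr
  refine mk_le_of_injective (f := fun y : {y : B // iB y ∈ u.1} =>
    (⟨x y, hx y⟩ : {x : A // iA x ∈ u.1})) fun y y' h => ?_
  have h6 : x y = x y' := congrArg Subtype.val h
  have h7 := hx' y
  rw [h6] at h7
  exact Subtype.ext (o.fn h7 (hx' y'))

theorem init_card {κ : Cardinal.{u}} {Y B : Type u} [CompleteBooleanAlgebra B]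
    {U : (Pk κ Y → B) → B} (hU : NormalU κ Y B U) (hκ : ℵ₀ ≤ κ) {K A : Type u} [LinearOrder K]
    [WellFoundedLT K] (j : ∀ w : K, {y : K // y < w} → A) (hj : ∀ w, Function.Injective (j w))
    (iK : K → Y) (iA : A → Y) (hK : Function.Injective iK) (hA : Function.Injective iA) :
    U (fun u => chi (#{y : K // iK y ∈ u.1} ≤ Order.succ #{x : A // iA x ∈ u.1})) = ⊤ := by
  classical
  let G : Y → Y → Set Y := fun a b => {c | ∃ (w y : K) (h : y < w), iK w = a ∧ iK y = b ∧
    c = iA (j w ⟨y, h⟩)}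
  have hG : ∀ a b, #(G a b) < κ := by
    intro a b
    have h1 : (G a b).Subsingleton := by
      rintro c ⟨w, y, h, h1, h2, h3⟩ c' ⟨w', y', h', h1', h2', h3'⟩
      have e1 : w = w' := hK (h1.trans h1'.symm)
      have e2 : y = y' := hK (h2.trans h2'.symm)
      subst e1 e2
      rw [h3, h3']
    have h2 : Subsingleton (G a b) := h1.coe_sort
    have h3 : #(G a b) ≤ 1 := Cardinal.le_one_iff_subsingleton.2 h2
    exact h3.trans_lt (one_lt_aleph0.trans_le hκ)
  refine gen_ae_mono hU (fun u hu => ?_) (hU.clos2 G hG)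
  set m := #{x : A // iA x ∈ u.1} with hm
  -- initial segments are small
  have hseg : ∀ w : {y : K // iK y ∈ u.1},
      #{y : {y : K // iK y ∈ u.1} // y < w} ≤ m := by
    intro w
    refine mk_le_of_injective (f := fun y : {y : {y : K // iK y ∈ u.1} // y < w} =>
      (⟨j w.1 ⟨y.1.1, y.2⟩, hu _ w.2 _ y.1.2 ⟨w.1, y.1.1, y.2, rfl, rfl, rfl⟩⟩ :
        {x : A // iA x ∈ u.1})) fun y y' h => ?_
    have h1 : j w.1 ⟨y.1.1, y.2⟩ = j w.1 ⟨y'.1.1, y'.2⟩ := congrArg Subtype.val h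
    have h2 := congrArg Subtype.val (hj w.1 h1)
    exact Subtype.ext (Subtype.ext h2)
  by_contra hc
  rw [not_le] at hc
  let r : {y : K // iK y ∈ u.1} → {y : K // iK y ∈ u.1} → Prop := (· < ·)
  have h1 : (Order.succ m).ord < Ordinal.type r := by
    by_contra h2
    rw [not_lt] at h2
    have h3 := Ordinal.card_le_card h2
    rw [Ordinal.card_type, card_ord] at h3
    exact absurd hc (not_lt.2 h3)
  have h2 := Ordinal.typein_enum r h1
  have h3 := Ordinal.card_typein (r := r) (Ordinal.enum r ⟨(Order.succ m).ord, h1⟩)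
  rw [h2, card_ord] at h3
  have h4 := hseg (Ordinal.enum r ⟨(Order.succ m).ord, h1⟩)
  have h5 : Order.succ m ≤ m := h3.trans_le h4
  exact absurd (Order.lt_succ m) (not_lt.2 h5)

private theorem gen_seg {ν : Cardinal.{u}} {N : Type u} (hN : #N = ν)
    (w : (Order.succ ν).ord.ToType) :
    ∃ j : {y : (Order.succ ν).ord.ToType // y < w} → N, Function.Injective j := by
  have h1 : #{y : (Order.succ ν).ord.ToType // y < w} < Order.succ ν :=
    card_typein_toType_lt (Order.succ ν) w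
  have h2 : #{y : (Order.succ ν).ord.ToType // y < w} ≤ #N := by
    rw [hN]
    exact Order.lt_succ_iff.1 h1
  obtain ⟨e⟩ := Cardinal.le_def _ _ |>.1 h2
  exact ⟨e, e.injective⟩

theorem card_ae {κ ν τ : Cardinal.{u}} {Q Λ N G : Type u} [Preorder Q] (hκ : ℵ₀ ≤ κ)
    (hQ : DC κ Q) (hν : ℵ₀ ≤ ν) (hN : #N = ν) (hτ : ℵ₀ ≤ τ)
    (o1 : Onto Q (Order.succ ν).out τ.out) (o2 : Onto Q (Order.succ τ).out Λ) :
    ∃ (Y : Type u) (iΛ : Λ → Y) (iN : N → Y) (iZ : G × N → Y), Function.Injective iΛ ∧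
      Function.Injective iN ∧ Function.Injective iZ ∧
      ∀ U : (Pk κ Y → RO Q) → RO Q, NormalU κ Y (RO Q) U →
        U (fun u => chi (#{a : Λ // iΛ a ∈ u.1} ≤
          Order.succ (Order.succ #{x : N // iN x ∈ u.1}))) = ⊤ := by
  classical
  let K : Type u := (Order.succ ν).ord.ToType
  let Tt : Type u := τ.out
  let Tp : Type u := (Order.succ τ).ord.ToType
  obtain ⟨e1⟩ : Nonempty (K ≃ (Order.succ ν).out) :=
    Cardinal.eq.1 (by rw [mk_out]; exact mk_ord_toType _)
  obtain ⟨e2⟩ : Nonempty (Tp ≃ (Order.succ τ).out) :=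
    Cardinal.eq.1 (by rw [mk_out]; exact mk_ord_toType _)
  let Y : Type u := Λ ⊕ N ⊕ K ⊕ Tt ⊕ Tp ⊕ (G × N)
  let iΛ : Λ → Y := Sum.inl
  let iN : N → Y := fun x => Sum.inr (Sum.inl x)
  let iK : K → Y := fun x => Sum.inr (Sum.inr (Sum.inl x))
  let iT : Tt → Y := fun x => Sum.inr (Sum.inr (Sum.inr (Sum.inl x)))
  let iP : Tp → Y := fun x => Sum.inr (Sum.inr (Sum.inr (Sum.inr (Sum.inl x))))
  let iZ : G × N → Y := fun x => Sum.inr (Sum.inr (Sum.inr (Sum.inr (Sum.inr x))))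
  have hiΛ : Function.Injective iΛ := Sum.inl_injective
  have hiN : Function.Injective iN := Sum.inr_injective.comp Sum.inl_injective
  have hiK : Function.Injective iK :=
    Sum.inr_injective.comp (Sum.inr_injective.comp Sum.inl_injective)
  have hiT : Function.Injective iT :=
    Sum.inr_injective.comp (Sum.inr_injective.comp (Sum.inr_injective.comp Sum.inl_injective))
  have hiP : Function.Injective iP :=
    Sum.inr_injective.comp (Sum.inr_injective.comp (Sum.inr_injective.comp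
      (Sum.inr_injective.comp Sum.inl_injective)))
  have hiZ : Function.Injective iZ :=
    Sum.inr_injective.comp (Sum.inr_injective.comp (Sum.inr_injective.comp
      (Sum.inr_injective.comp Sum.inr_injective)))
  refine ⟨Y, iΛ, iN, iZ, hiΛ, hiN, hiZ, fun U hU => ?_⟩
  -- the four estimates
  have a1 := onto_card hU hQ o2 (iP ∘ e2.symm) iΛ (hiP.comp e2.symm.injective) hiΛ
  have a3 := onto_card hU hQ o1 (iK ∘ e1.symm) iT (hiK.comp e1.symm.injective) hiT
  have hjK : ∀ w : K, ∃ j : {y : K // y < w} → N, Function.Injective j := fun w =>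
    gen_seg hN w
  choose jK hjK using hjK
  have hjP : ∀ w : Tp, ∃ j : {y : Tp // y < w} → Tt, Function.Injective j := fun w =>
    gen_seg (mk_out τ) w
  choose jP hjP using hjP
  have a2 := init_card hU hκ jP hjP iP iT hiP hiT
  have a4 := init_card hU hκ jK hjK iK iN hiK hiN
  refine gen_ae_mono hU (fun u hu => ?_) (gen_ae_and hU (gen_ae_and hU a1 a2)
    (gen_ae_and hU a3 a4))
  obtain ⟨⟨b1, b2⟩, b3, b4⟩ := hu
  have c1 : #{x : (Order.succ τ).out // (iP ∘ e2.symm) x ∈ u.1} ≤ #{x : Tp // iP x ∈ u.1} :=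
    mk_le_of_injective (f := fun x => (⟨e2.symm x.1, x.2⟩ : {x : Tp // iP x ∈ u.1}))
      fun x x' h => Subtype.ext (e2.symm.injective (congrArg Subtype.val h))
  have c3 : #{x : (Order.succ ν).out // (iK ∘ e1.symm) x ∈ u.1} ≤ #{x : K // iK x ∈ u.1} :=
    mk_le_of_injective (f := fun x => (⟨e1.symm x.1, x.2⟩ : {x : K // iK x ∈ u.1}))
      fun x x' h => Subtype.ext (e1.symm.injective (congrArg Subtype.val h))
  refine b1.trans (c1.trans (b2.trans (Order.succ_le_succ ?_)))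
  exact b3.trans (c3.trans b4)

end STP
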