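import Pool.Agent.STP.Nu
import Pool.Agent.STP.Nm
import Pool.Agent.STP.Thr

/-! # Germs of names of functions `P_κ(Y) → C`: definitions (package S21)

(problem MP_e44aae_lc, project STP)

Text, section 7, proof of Prop 3. `C = Clq X r δ`, `iX : X → Y` an embedding, `U` a normal
ultrafilter in `V^{Q1}` on `P_κ(Y)`. A germ is `(q, F, c)`, `q ∈ Q1`, `F` a name of a function
`P_κ(Y) → C`, such that `q` forces `F u ∩ u = c` for almost all `u`. The order of germs is a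
preorder; membership lemmas for the truth values. -/

universe u

namespace STP

open Cardinal

variable {κ δ : Cardinal.{u}} {Q1 X Y L Λ N : Type u} [Preorder Q1] [Preorder L] [Preorder Λ]

private theorem mem_iSup_prop {P : Type u} [Preorder P] {p : Prop} {U : p → RO P} {t : P} :
    t ∈ ⨆ h : p, U h ↔ ∃ h : p, t ∈ U h := by
  constructor
  · intro h
    obtain ⟨_, _, hp, _⟩ := RO.mem_iSup.1 h t le_rfl
    rw [iSup_pos hp] at h
    exact ⟨hp, h⟩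
  · rintro ⟨hp, h⟩
    rw [iSup_pos hp]
    exact h

/-- The truth value of `F ∩ u = c`. -/
noncomputable def ptr {r : X → X → Prop} (iX : X → Y) (F : Nm (RO Q1) (Clq X r δ)) (u : Set Y)
    (c : Clq X r δ) : RO Q1 :=
  ⨆ e, ⨆ _ : {x | x ∈ e.s ∧ iX x ∈ u} = c.s, F.v e

/-- The truth value of `F' ≤ F`. -/
noncomputable def nle {r : X → X → Prop} (F' F : Nm (RO Q1) (Clq X r δ)) : RO Q1 :=
  ⨆ e', ⨆ e, ⨆ _ : e' ≤ e, F'.v e' ⊓ F.v e

theorem mem_ptr {r : X → X → Prop} {iX : X → Y} {F : Nm (RO Q1) (Clq X r δ)} {u : Set Y}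
    {c : Clq X r δ} {q : Q1} : q ∈ ptr iX F u c ↔
      ∀ q' ≤ q, ∃ t ≤ q', ∃ e, {x | x ∈ e.s ∧ iX x ∈ u} = c.s ∧ t ∈ F.v e := by
  unfold ptr
  rw [RO.mem_iSup]
  constructor
  · intro h q' hq'
    obtain ⟨t, ht, e, he⟩ := h q' hq'
    obtain ⟨h1, h2⟩ := mem_iSup_prop.1 he
    exact ⟨t, ht, e, h1, h2⟩
  · intro h q' hq'
    obtain ⟨t, ht, e, h1, h2⟩ := h q' hq'
    exact ⟨t, ht, e, mem_iSup_prop.2 ⟨h1, h2⟩⟩

theorem mem_nle {r : X → X → Prop} {F' F : Nm (RO Q1) (Clq X r δ)} {q : Q1} : q ∈ nle F' F ↔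
    ∀ q' ≤ q, ∃ t ≤ q', ∃ e' e, e' ≤ e ∧ t ∈ F'.v e' ∧ t ∈ F.v e := by
  unfold nle
  rw [RO.mem_iSup]
  constructor
  · intro h q' hq'
    obtain ⟨t, ht, e', he'⟩ := h q' hq'
    obtain ⟨t', ht', e, he⟩ := RO.mem_iSup.1 he' t le_rfl
    obtain ⟨h1, h2⟩ := mem_iSup_prop.1 he
    exact ⟨t', ht'.trans ht, e', e, h1, h2.1, h2.2⟩
  · intro h q' hq'
    obtain ⟨t, ht, e', e, h1, h2, h3⟩ := h q' hq'
    exact ⟨t, ht, e', RO.mem_iSup.2 fun s hs => ⟨s, le_rfl, e, mem_iSup_prop.2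
      ⟨h1, (F'.v e').down hs h2, (F.v e).down hs h3⟩⟩⟩

private theorem nle_self {r : X → X → Prop} (F : Nm (RO Q1) (Clq X r δ)) : nle F F = ⊤ := by
  refine RO.ext' fun q => ⟨fun _ => trivial, fun _ => mem_nle.2 fun q' _ => ?_⟩
  obtain ⟨t, ht, e, he⟩ := Nm.ex F q'
  exact ⟨t, ht, e, e, le_rfl, he, he⟩

private theorem nle_trans {r : X → X → Prop} {F'' F' F : Nm (RO Q1) (Clq X r δ)} {q : Q1}
    (h1 : q ∈ nle F'' F') (h2 : q ∈ nle F' F) : q ∈ nle F'' F := by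
  rw [mem_nle] at h1 h2 ⊢
  intro q' hq'
  obtain ⟨t, ht, e'', e', hle, ha, hb⟩ := h1 q' hq'
  obtain ⟨s, hs, e1, e, hle', hc, hd⟩ := h2 t (ht.trans hq')
  have he : e' = e1 := Nm.uniq F' ((F'.v e').down hs hb) hc
  subst he
  exact ⟨s, hs.trans ht, e'', e, hle.trans hle', (F''.v e'').down hs ha, hd⟩

/-- germs of names of functions `P_κ(Y) → Clq X r δ` -/
structure Germ {U : (Pk κ Y → RO Q1) → RO Q1} (hU : NormalU κ Y (RO Q1) U) (iX : X → Y)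
    (r : X → X → Prop) (δ : Cardinal.{u}) : Type u where
  /-- the condition in `Q1` -/
  q : Q1
  /-- the name of a function -/
  F : Pk κ Y → Nm (RO Q1) (Clq X r δ)
  /-- the trace -/
  c : Clq X r δ
  hc : q ∈ U (fun u => ptr iX (F u) u.1 c)

instance {U : (Pk κ Y → RO Q1) → RO Q1} (hU : NormalU κ Y (RO Q1) U) (iX : X → Y)
    (r : X → X → Prop) (δ : Cardinal.{u}) : Preorder (Germ hU iX r δ) where
  le g' g := g'.q ≤ g.q ∧ g'.c ≤ g.c ∧ g'.q ∈ U (fun u => nle (g'.F u) (g.F u))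
  le_refl g := by
    refine ⟨le_rfl, le_rfl, hU.of_top ?_⟩
    have h : (fun u => nle (g.F u) (g.F u)) = fun _ => (⊤ : RO Q1) :=
      funext fun u => nle_self (g.F u)
    rw [h]
    exact hU.const ⊤
  le_trans a b c := by
    rintro ⟨h1, h2, h3⟩ ⟨h4, h5, h6⟩
    refine ⟨h1.trans h4, h2.trans h5, ?_⟩
    have h7 := hU.mem_inf.2 ⟨h3, RO.down _ h1 h6⟩
    exact hU.ae_mono h7 fun u q' _ hq => nle_trans hq.1 hq.2

theorem Germ.le_def {U : (Pk κ Y → RO Q1) → RO Q1} {hU : NormalU κ Y (RO Q1) U} {iX : X → Y}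
    {r : X → X → Prop} {δ : Cardinal.{u}} {g' g : Germ hU iX r δ} : g' ≤ g ↔
      g'.q ≤ g.q ∧ g'.c ≤ g.c ∧ g'.q ∈ U (fun u => nle (g'.F u) (g.F u)) := Iff.rfl

/-- the projection of germs -/
def Germ.pr {U : (Pk κ Y → RO Q1) → RO Q1} {hU : NormalU κ Y (RO Q1) U} {iX : X → Y}
    {r : X → X → Prop} {δ : Cardinal.{u}} (g : Germ hU iX r δ) : Clq X r δ × Q1 := (g.c, g.q)

theorem Germ.pr_mono {U : (Pk κ Y → RO Q1) → RO Q1} {hU : NormalU κ Y (RO Q1) U} {iX : X → Y}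
    {r : X → X → Prop} {δ : Cardinal.{u}} :
    Monotone (Germ.pr : Germ hU iX r δ → Clq X r δ × Q1) := by
  intro g' g h
  exact ⟨h.2.1, h.1⟩

/-- the section `{q | ((c, q), l) ∈ V}` -/
def sec {C : Type u} [Preorder C] (V : RO ((C × Q1) × L)) (c : C) (l : L) : RO Q1 where
  carrier := {q | ((c, q), l) ∈ V}
  reg q := by
    constructor
    · intro h q' hq'
      exact ⟨q', le_rfl, RO.down V (show ((c, q'), l) ≤ ((c, q), l) from
        ⟨⟨le_rfl, hq'⟩, le_rfl⟩) h⟩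
    · intro h
      refine V.locally ?_
      rintro ⟨⟨c', q'⟩, l'⟩ ⟨⟨hc, hq⟩, hl⟩
      obtain ⟨s, hs, h1⟩ := h q' hq
      exact ⟨((c', s), l'), ⟨⟨le_rfl, hs⟩, le_rfl⟩, RO.down V
        (show ((c', s), l') ≤ ((c, s), l) from ⟨⟨hc, le_rfl⟩, hl⟩) h1⟩

theorem mem_sec {C : Type u} [Preorder C] {V : RO ((C × Q1) × L)} {c : C} {l : L} {q : Q1} :
    q ∈ sec V c l ↔ ((c, q), l) ∈ V := Iff.rfl

/-- the truth value (in `V^{Q1}`) of: `(F, l)` forces `V` -/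
noncomputable def frc {C : Type u} [Preorder C] (F : Nm (RO Q1) C) (l : L)
    (V : RO ((C × Q1) × L)) : RO Q1 := ⨆ e, F.v e ⊓ sec V e l

theorem mem_frc {C : Type u} [Preorder C] {F : Nm (RO Q1) C} {l : L} {V : RO ((C × Q1) × L)}
    {q : Q1} : q ∈ frc F l V ↔ ∀ q' ≤ q, ∃ t ≤ q', ∃ e, t ∈ F.v e ∧ ((e, t), l) ∈ V := by
  unfold frc
  rw [RO.mem_iSup]
  exact Iff.rfl

/-- the truth value of a relation of a system -/
def relRO {P : Type u} [Preorder P] (R : Rel P Λ N) (a b : Λ) (ξ ζ : N) : RO P where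
  carrier := {p | R.rel p a b ξ ζ}
  reg p := ⟨fun h q hq => ⟨q, le_rfl, R.mono hq h⟩, fun h => R.loc h⟩

theorem mem_relRO {P : Type u} [Preorder P] {R : Rel P Λ N} {a b : Λ} {ξ ζ : N} {p : P} :
    p ∈ relRO R a b ξ ζ ↔ R.rel p a b ξ ζ := Iff.rfl

/-- The truth value of: the node `ζ` at the generic index `n` projects to the node `ξ` at `a`. -/
noncomputable def Phi {P : Type u} [Preorder P] (n : Λ → RO P) (R : Rel P Λ N) (a : Λ)
    (ζ ξ : N) : RO P := ⨆ b, n b ⊓ relRO R a b ξ ζ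

theorem mem_Phi {P : Type u} [Preorder P] {n : Λ → RO P} {R : Rel P Λ N} {a : Λ} {ζ ξ : N}
    {p : P} : p ∈ Phi n R a ζ ξ ↔ ∀ p' ≤ p, ∃ t ≤ p', ∃ b, t ∈ n b ∧ R.rel t a b ξ ζ := by
  unfold Phi
  rw [RO.mem_iSup]
  exact Iff.rfl

/-- `(g, l)` decides that the generic partial thread with top node `ζ` has the node `ξ` at `a`. -/
def DecG {RR : Type u} {U : (Pk κ Y → RO Q1) → RO Q1} {hU : NormalU κ Y (RO Q1) U} {iX : X → Y}
    {r : X → X → Prop} {δ : Cardinal.{u}} (n : Pk κ Y → Λ → RO ((Clq X r δ × Q1) × L))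
    (R : RR → Rel ((Clq X r δ × Q1) × L) Λ N) (N0 : Set N) (g : Germ hU iX r δ) (l : L)
    (m : RR) (ζ : N0) (a : Λ) (ξ : N) : Prop :=
  ξ ∈ N0 ∧ g.q ∈ U (fun u => frc (g.F u) l (Phi (n u) (R m) a ζ.1 ξ))

theorem DecG.mono {RR : Type u} {U : (Pk κ Y → RO Q1) → RO Q1} {hU : NormalU κ Y (RO Q1) U}
    {iX : X → Y} {r : X → X → Prop} {δ : Cardinal.{u}}
    {n : Pk κ Y → Λ → RO ((Clq X r δ × Q1) × L)} {R : RR → Rel ((Clq X r δ × Q1) × L) Λ N}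
    {N0 : Set N} {g g' : Germ hU iX r δ} {l l' : L} {m : RR} {ζ : N0} {a : Λ} {ξ : N}
    (hg : g' ≤ g) (hl : l' ≤ l) (h : DecG n R N0 g l m ζ a ξ) : DecG n R N0 g' l' m ζ a ξ := by
  refine ⟨h.1, ?_⟩
  have h1 := hU.mem_inf.2 ⟨hg.2.2, RO.down _ hg.1 h.2⟩
  refine hU.ae_mono h1 fun u q' _ hq => ?_
  have h2 := mem_nle.1 hq.1
  have h3 := mem_frc.1 hq.2
  refine mem_frc.2 fun s hs => ?_
  obtain ⟨t, ht, e', e, hle, ha, hb⟩ := h2 s hs
  obtain ⟨t', ht', e1, hc, hd⟩ := h3 t (ht.trans hs)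
  have he : e = e1 := Nm.uniq (g.F u) (((g.F u).v e).down ht' hb) hc
  subst he
  exact ⟨t', ht'.trans ht, e', ((g'.F u).v e').down ht' ha, RO.down _
    (show ((e', t'), l') ≤ ((e, t'), l) from ⟨⟨hle, le_rfl⟩, hl⟩) hd⟩

end STP
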