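import Pool.Agent.STP.GermCL

/-! # Germs: coherence of the decided nodes (package S23)

(problem MP_e44aae_lc, project STP)

Text, section 7, (Dec-Coh). `P = (C × Q1) × L`, `C = Clq X r (succ (succ χ))`. `n u : Λ → RO P` is
a name of an index above all `a` with `iΛ a ∈ u`.

Let `V := relRO (R m) a a' ξ ξ' ∈ RO P`. For `u` with `iΛ a, iΛ a' ∈ u`: `Phi (n u) (R m) a ζ ξ ⊓
Phi (n u) (R m) a' ζ ξ' ≤ V`: below a condition in both, there are `t` and `b, b'` with `t ∈ n u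
b`, `rel t a b ξ ζ`, `t ∈ n u b'`, `rel t a' b' ξ' ζ` (`mem_Phi` twice); `b = b'` by disjointness
(`t ∈ n u b ⊓ n u b' = ⊥` is impossible), `a ≤ a' ≤ b` by `hnb`, so `rel t a a' ξ ξ'` by `can`;
`loc`. So `g.q ∈ U (fun u => frc (g.F u) l V)` (`ae_mono`: below `q' ≤ g.q` in both `frc` values
there are `t`, `e` with `t ∈ (g.F u).v e` and `((e, t), l)` in both `Phi`, using the uniqueness of
`e`). Claim: `((g.c, g.q), l) ∈ V`. By `RO.locally` let `((c', q'), l') ≤ ((g.c, g.q), l)`. `q'`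
is in the values at almost all `u` of: `frc (g.F u) l V`, `ptr iX (g.F u) u g.c`, `chi (iX '' c'.s
⊆ u)` (`small`), `loc_ae`. By `exists_mem` there are `u` and `q'' ≤ q'` in all of them, so `t ≤
q''` and `e` with `t ∈ (g.F u).v e`, `((e, t), l) ∈ V`, trace of `e` = `g.c.s ⊆ c'.s`. `clq_union`
(with `c'` and the one element family `e`, `D = PUnit`) gives the condition `s` with set `c'.s ∪
e.s`. `((s, t), l')` is `≤ ((c', q'), l')` and `≤ ((e, t), l) ∈ V`. -/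

universe u

namespace STP

open Cardinal

theorem germ_coh {κ χ : Cardinal.{u}} {Q1 X Y L Λ N RR : Type u} {r : X → X → Prop}
    [PartialOrder Q1] [Preorder L] [Preorder Λ] (hχ : ℵ₀ ≤ χ)
    (hχκ : Order.succ (Order.succ χ) < κ)
    (hr : ∀ x y, r x y → r y x) (hloc : ∀ x, #{y | ¬ r x y} < κ)
    {U : (Pk κ Y → RO Q1) → RO Q1} (hU : NormalU κ Y (RO Q1) U) (iX : X → Y)
    (hiX : Function.Injective iX) (iΛ : Λ → Y)
    (n : Pk κ Y → Λ → RO ((Clq X r (Order.succ (Order.succ χ)) × Q1) × L))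
    (hnd : ∀ u b b', b ≠ b' → n u b ⊓ n u b' = ⊥)
    (hnb : ∀ u b p, p ∈ n u b → ∀ a, iΛ a ∈ u.1 → a ≤ b)
    (R : RR → Rel ((Clq X r (Order.succ (Order.succ χ)) × Q1) × L) Λ N) (N0 : Set N)
    (g : Germ hU iX r (Order.succ (Order.succ χ))) (l : L) (m : RR) (ζ : N0) (a a' : Λ)
    (ξ ξ' : N) (haa : a ≤ a') (h1 : DecG n R N0 g l m ζ a ξ) (h2 : DecG n R N0 g l m ζ a' ξ') :
    (R m).rel (g.pr, l) a a' ξ ξ' := by
  let V : RO ((Clq X r (Order.succ (Order.succ χ)) × Q1) × L) := relRO (R m) a a' ξ ξ'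
  have hA : ∀ u : Pk κ Y, iΛ a' ∈ u.1 → ∀ p, p ∈ Phi (n u) (R m) a ζ.1 ξ →
      p ∈ Phi (n u) (R m) a' ζ.1 ξ' → p ∈ V := by
    intro u ha p hp hp'
    refine V.locally fun q hq => ?_
    obtain ⟨t, ht, b, hb, h3⟩ := mem_Phi.1 hp q hq
    obtain ⟨t', ht', b', hb', h4⟩ := mem_Phi.1 hp' t (ht.trans hq)
    have hbb : b = b' := by
      by_contra hne
      have h5 : t' ∈ n u b ⊓ n u b' := ⟨(n u b).down ht' hb, hb'⟩
      rw [hnd u b b' hne] at h5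
      exact RO.not_mem_bot h5
    subst hbb
    exact ⟨t', ht'.trans ht, (R m).can haa (hnb u b t' hb' a' ha) ((R m).mono ht' h3) h4⟩
  have h3 : g.q ∈ U (fun u => frc (g.F u) l V) := by
    have h4 : g.q ∈ U (fun u => (frc (g.F u) l (Phi (n u) (R m) a ζ.1 ξ) ⊓
        frc (g.F u) l (Phi (n u) (R m) a' ζ.1 ξ')) ⊓ chi (iΛ a' ∈ u.1)) := by
      rw [hU.mem_inf, hU.mem_inf]
      exact ⟨⟨h1.2, h2.2⟩, hU.of_top (hU.fine (iΛ a'))⟩
    refine hU.ae_mono h4 fun u q' hq' hq => ?_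
    obtain ⟨⟨h5, h6⟩, h7⟩ := hq
    have h8 : iΛ a' ∈ u.1 := RO.mem_chi.1 h7
    rw [mem_frc]
    intro q'' hq''
    obtain ⟨t, ht, e, he, h9⟩ := mem_frc.1 h5 q'' hq''
    obtain ⟨t', ht', e', he', h10⟩ := mem_frc.1 h6 t (ht.trans hq'')
    have hee : e = e' := (g.F u).uniq (((g.F u).v e).down ht' he) he'
    subst hee
    refine ⟨t', ht'.trans ht, e, he', hA u h8 _ ?_ h10⟩
    exact (Phi (n u) (R m) a ζ.1 ξ).down (p := ((e, t), l)) ⟨⟨le_rfl, ht'⟩, le_rfl⟩ h9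
  change (g.pr, l) ∈ V
  refine V.locally ?_
  rintro ⟨⟨c', q'⟩, l'⟩ hle
  have hc' : c' ≤ g.c := hle.1.1
  have hq' : q' ≤ g.q := hle.1.2
  have hl' : l' ≤ l := hle.2
  have hcs : #(iX '' c'.s) < κ := (Cardinal.mk_image_le.trans_lt c'.card).trans hχκ
  have h4 : q' ∈ U (fun u => ((frc (g.F u) l V ⊓ ptr iX (g.F u) u.1 g.c) ⊓
      chi (iX '' c'.s ⊆ u.1)) ⊓ chi (∀ y z, iX y ∈ u.1 → ¬ r y z → iX z ∈ u.1)) := by
    rw [hU.mem_inf, hU.mem_inf, hU.mem_inf]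
    exact ⟨⟨⟨RO.down _ hq' h3, RO.down _ hq' g.hc⟩, hU.of_top (hU.small hcs)⟩,
      hU.of_top (loc_ae hU iX hiX hloc)⟩
  obtain ⟨u, q'', hq'', ⟨⟨h5, h6⟩, h7⟩, h8⟩ := hU.exists_mem h4
  have h7' : iX '' c'.s ⊆ u.1 := RO.mem_chi.1 h7
  have h8' : ∀ y z, iX y ∈ u.1 → ¬ r y z → iX z ∈ u.1 := RO.mem_chi.1 h8
  obtain ⟨t, ht, e, he, h9⟩ := mem_ptr.1 h6 q'' le_rfl
  obtain ⟨t', ht', e', he', h10⟩ := mem_frc.1 h5 t ht
  have hee : e = e' := (g.F u).uniq (((g.F u).v e).down ht' h9) he'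
  subst hee
  have hD : #PUnit.{u + 1} ≤ Order.succ χ := by
    rw [Cardinal.mk_punit]
    exact Cardinal.one_le_aleph0.trans (hχ.trans (Order.le_succ χ))
  obtain ⟨s, hs, -⟩ := clq_union hχ hr iX u.1 h8' c'
    (fun x hx => h7' ⟨x, hx, rfl⟩) hD (fun _ => e)
    (fun _ x hx hxu => by
      have h11 : x ∈ {x | x ∈ e.s ∧ iX x ∈ u.1} := ⟨hx, hxu⟩
      rw [he] at h11
      exact Clq.le_def.1 hc' h11) (fun _ _ => ⟨PUnit.unit, le_rfl, le_rfl⟩)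
  refine ⟨((s, t'), l'), ⟨⟨?_, (ht'.trans ht).trans hq''⟩, le_rfl⟩,
    V.down (p := ((e, t'), l)) ⟨⟨?_, le_rfl⟩, hl'⟩ h10⟩
  · change s ≤ c'
    rw [Clq.le_def, hs]
    exact Set.subset_union_left
  · change s ≤ e
    rw [Clq.le_def, hs]
    exact fun x hx => Or.inr (Set.mem_iUnion.2 ⟨PUnit.unit, hx⟩)

end STP
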