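import Pool.Agent.STP.GermCL
import Pool.Agent.STP.PD

/-! # Germs: nodes are decided densely (package S24)

(problem MP_e44aae_lc, project STP)

Text, section 7, (Dense2). `P = (C × Q1) × L`, `C = Clq X r (succ (succ χ))`, `(g.pr, l) ≤ p0`, `(g.pr, l) ∈ I a`, `g = (q, F, c)`.

For `u : Pk κ Y` and `e' = (l', m, ζ, ξ, e1) ∈ E' := (L × RR × N0 × N0) × C` let `Φ u e'` be the regular open set generated by (`RO.cl`; it is already regular if one writes it as an infimum/supremum of regular sets; e.g.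
`Φ u e' := chi (l' ≤ l) ⊓ (⨆ e, ⨆ _ : e1 ≤ e, (F u).v e) ⊓ sec (Phi (n u) (R m) a ζ ξ) e1 l'`). `exists_max` gives `w u : E' → RO Q1`, disjoint, `w u e' ≤ Φ u e'`, `⨆ w u = ⨆ Φ u`.
(a) `q ∈ U (fun u => ⨆ e', w u e')`: for almost all `u` (`iΛ a ∈ u`, `ptr iX (F u) u c`), `ae_mono`: let `q' ≤ q` be in `ptr iX (F u) u c`. Below `q'` there are `t` and `e` with trace `c.s` (so `e ≤ c`) and `t ∈ (F u).v e`. `((e, t), l) ≤ ((c, q), l) ≤ p0` is in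
  `I a` and in `⨆ b, n u b` (`hnt`, `RO.down`), so some `p1 ≤ ((e, t), l)` is in `n u b ≤ I b`, `a ≤ b` (`hnb`), `p1 ∈ I a`, and `h2` gives `p' ≤ p1`, `m`, `ξ, ζ ∈ N0` with `(R m).rel p' a b ξ ζ`; `p' = ((e1, t1), l1)`: `p' ∈ Phi (n u) (R m) a ζ ξ`, so
  `t1 ∈ Φ u ((l1, m, ζ, ξ), e1)`, `t1 ≤ t ≤ q'`.
(b) `complete_sup` over `L × RR × N0 × N0` (at most `χ < κ` elements): `q1 ≤ q` and `(l', m, ζ, ξ)` with `q1 ∈ U (fun u => ⨆ e1, w u ((l', m, ζ, ξ), e1))`. `l' ≤ l` (`exists_mem`).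
(c) `PD` (`δ = succ (succ χ)`) for `E u := C`, `F u e1 := w u ((l', m, ζ, ξ), e1)`, `G u e := iX '' e.s`: `q2 ≤ q1`, `c' : Set Y` with `q2 ∈ U (fun u => ⨆ e1, ⨆ _ : iX '' e1.s ∩ u = c', w u (.., e1))`. By `exists_mem` there are `u1, e1` with `iX '' e1.s ∩ u1 = c'`,
  so `{x | iX x ∈ c'} ⊆ e1.s` is (the set of) a condition `c1`; and for all `u, e1` with `iX '' e1.s ∩ u = c'` the trace of `e1` is `c1.s` (`iX` injective).
(d) `F' u` := the name of `Nm.extend` for `e1 ↦ w u ((l', m, ζ, ξ), e1)`. `g' := (q2, F', c1)`. `hc`: by (c) and `w .. ≤ (F' u).v e1`. `c1 ≤ c`: by `exists_mem` with `ptr iX (F u) u c`: there are `u, t, e1, e` with `t ∈ w u (.., e1) ≤ Φ`, so (below `t`) `e1 ≤ e`,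
  trace of `e` = `c.s`, so `c.s ⊆` trace of `e1` = `c1.s`. `g' ≤ g`: `nle (F' u) (F u)` because `w u (.., e1) ≤ ⨆ e, ⨆ _ : e1 ≤ e, (F u).v e`. `DecG .. g' l' m ζ a ξ`: `w u (.., e1) ≤ (F' u).v e1 ⊓ sec (Phi ..) e1 l'`. -/

universe u

namespace STP

open Cardinal

theorem germ_D {κ χ : Cardinal.{u}} {Q1 X Y L Λ N RR : Type u} {r : X → X → Prop}
    [PartialOrder Q1] [Preorder L] [Preorder Λ] (hχ : ℵ₀ ≤ χ)
    (hχκ : Order.succ (Order.succ χ) < κ) (hL : #L ≤ χ) (hRR : #RR ≤ χ) (hQ : DC κ Q1)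
    {U : (Pk κ Y → RO Q1) → RO Q1} (hU : NormalU κ Y (RO Q1) U) (iX : X → Y)
    (hiX : Function.Injective iX) (iΛ : Λ → Y)
    (p0 : (Clq X r (Order.succ (Order.succ χ)) × Q1) × L)
    (I : Λ → RO ((Clq X r (Order.succ (Order.succ χ)) × Q1) × L))
    (n : Pk κ Y → Λ → RO ((Clq X r (Order.succ (Order.succ χ)) × Q1) × L))
    (hnI : ∀ u b, n u b ≤ I b) (hnt : ∀ u, p0 ∈ ⨆ b, n u b)
    (hnb : ∀ u b p, p ∈ n u b → ∀ a, iΛ a ∈ u.1 → a ≤ b)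
    (R : RR → Rel ((Clq X r (Order.succ (Order.succ χ)) × Q1) × L) Λ N) (N0 : Set N)
    (hN0 : #N0 ≤ χ)
    (h2 : ∀ a b, a ≤ b → ∀ p ≤ p0, p ∈ I a → p ∈ I b → ∃ p' ≤ p, ∃ m, ∃ ξ ∈ N0, ∃ ζ ∈ N0,
      (R m).rel p' a b ξ ζ)
    (g : Germ hU iX r (Order.succ (Order.succ χ))) (l : L) (a : Λ) (hg : (g.pr, l) ≤ p0)
    (ha : (g.pr, l) ∈ I a) :
    ∃ g' ≤ g, ∃ l' ≤ l, ∃ m ζ ξ, DecG n R N0 g' l' m ζ a ξ := by
  classical
  have hκ : χ < κ := (Order.lt_succ χ).trans ((Order.lt_succ _).trans hχκ)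
  -- the maximal disjoint refinement
  have hmax : ∀ u : Pk κ Y, ∃ w : (L × RR × N0 × N0) ×
      Clq X r (Order.succ (Order.succ χ)) → RO Q1,
      (∀ e, w e ≤ chi (e.1.1 ≤ l) ⊓ (⨆ e2, ⨆ _ : e.2 ≤ e2, (g.F u).v e2) ⊓
        sec (Phi (n u) (R e.1.2.1) a e.1.2.2.1.1 e.1.2.2.2.1) e.2 e.1.1) ∧
      (∀ e e', e ≠ e' → w e ⊓ w e' = ⊥) ∧ ⨆ e, w e = ⨆ e : (L × RR × N0 × N0) ×
      Clq X r (Order.succ (Order.succ χ)), chi (e.1.1 ≤ l) ⊓ (⨆ e2, ⨆ _ : e.2 ≤ e2, (g.F u).v e2) ⊓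
        sec (Phi (n u) (R e.1.2.1) a e.1.2.2.1.1 e.1.2.2.2.1) e.2 e.1.1 := fun u =>
    exists_max _
  choose w hw1 hw2 hw3 using hmax
  -- unfolding of membership
  have hwm : ∀ (u : Pk κ Y) (i : L × RR × N0 × N0) (e1 : Clq X r (Order.succ (Order.succ χ)))
      (t : Q1), t ∈ w u (i, e1) → i.1 ≤ l ∧
      (∀ t' ≤ t, ∃ t2 ≤ t', ∃ e2, e1 ≤ e2 ∧ t2 ∈ (g.F u).v e2) ∧
      ((e1, t), i.1) ∈ Phi (n u) (R i.2.1) a i.2.2.1.1 i.2.2.2.1 := by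
    intro u i e1 t ht
    have h1 := hw1 u (i, e1) t ht
    refine ⟨RO.mem_chi.1 h1.1.1, ?_, mem_sec.1 h1.2⟩
    intro t' ht'
    have h3 := RO.mem_iSup.1 h1.1.2 t' ht'
    obtain ⟨t2, ht2, e2, h4⟩ := h3
    obtain ⟨t3, ht3, h5, h6⟩ := RO.mem_iSup.1 h4 t2 le_rfl
    exact ⟨t3, ht3.trans ht2, e2, h5, h6⟩
  -- (a)
  have hA : g.q ∈ U (fun u => ⨆ e, w u e) := by
    have h0 : g.q ∈ U (fun u => chi (iΛ a ∈ u.1) ⊓ ptr iX (g.F u) u.1 g.c) :=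
      hU.mem_inf.2 ⟨hU.of_top (hU.fine _), g.hc⟩
    refine hU.ae_mono h0 ?_
    intro u q' hq' hq'2
    rw [hw3 u, RO.mem_iSup]
    intro q'' hq''
    have hau : iΛ a ∈ u.1 := RO.mem_chi.1 hq'2.1
    obtain ⟨t, ht, e, he, hte⟩ := mem_ptr.1 hq'2.2 q'' hq''
    have hec : e ≤ g.c := by
      rw [Clq.le_def, ← he]
      exact fun x hx => hx.1
    have hle : ((e, t), l) ≤ (g.pr, l) :=
      ⟨⟨hec, ht.trans (hq''.trans hq')⟩, le_rfl⟩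
    have h1 : ((e, t), l) ∈ ⨆ b, n u b := RO.down _ (hle.trans hg) (hnt u)
    obtain ⟨p1, hp1, b, hb⟩ := RO.mem_iSup.1 h1 _ le_rfl
    have hab : a ≤ b := hnb u b p1 hb a hau
    obtain ⟨p', hp', m, ξ, hξ, ζ, hζ, hR⟩ := h2 a b hab p1 (hp1.trans (hle.trans hg))
      (RO.down _ (hp1.trans hle) ha) (hnI u b p1 hb)
    have hle2 : p' ≤ ((e, t), l) := hp'.trans hp1
    refine ⟨p'.1.2, hle2.1.2.trans ht, ((p'.2, m, ⟨ζ, hζ⟩, ⟨ξ, hξ⟩), p'.1.1), ⟨?_, ?_⟩, ?_⟩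
    · exact RO.mem_chi.2 hle2.2
    · rw [RO.mem_iSup]
      intro s hs
      refine ⟨s, le_rfl, e, ?_⟩
      rw [RO.mem_iSup]
      intro s' hs'
      exact ⟨s', le_rfl, hle2.1.1, RO.down _ (hs'.trans (hs.trans hle2.1.2)) hte⟩
    · rw [mem_sec, mem_Phi]
      intro p'' hp''
      exact ⟨p'', le_rfl, b, RO.down _ (hp''.trans hp') hb, (R m).mono hp'' hR⟩
  -- (b)
  have hcard : #(L × RR × N0 × N0) < κ := by
    have h1 : #(L × RR × N0 × N0) ≤ χ := by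
      simp only [mk_prod, lift_id]
      have h3 : #N0 * #N0 ≤ χ := (mul_le_mul' hN0 hN0).trans (mul_eq_self hχ).le
      have h4 : #RR * (#N0 * #N0) ≤ χ := (mul_le_mul' hRR h3).trans (mul_eq_self hχ).le
      exact (mul_le_mul' hL h4).trans (mul_eq_self hχ).le
    exact h1.trans_lt hκ
  have hB : g.q ∈ ⨆ i, U (fun u => ⨆ e1, w u (i, e1)) := by
    rw [← hU.complete_sup hcard]
    refine hU.ae_mono hA ?_
    intro u q' _ h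
    rw [iSup_prod] at h
    exact h
  obtain ⟨q1, hq1, i, hi⟩ := RO.mem_iSup.1 hB _ le_rfl
  have hil : i.1 ≤ l := by
    obtain ⟨u, q', _, h⟩ := hU.exists_mem hi
    obtain ⟨t, _, e1, ht⟩ := RO.mem_iSup.1 h _ le_rfl
    exact (hwm u i e1 t ht).1
  -- (c)
  obtain ⟨q2, hq2, c', -, hc'⟩ := PD hU hQ
    (hχ.trans ((Order.le_succ χ).trans (Order.le_succ _))) hχκ
    (E := fun _ => Clq X r (Order.succ (Order.succ χ))) (fun u e1 => w u (i, e1))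
    (fun u e e' h => hw2 u _ _ fun h' => h (Prod.ext_iff.1 h').2) q1 hi
    (fun _ e => iX '' e.s) (fun _ e => mk_image_le.trans_lt e.card)
  have hunf : ∀ (u : Pk κ Y) (q' : Q1), q' ∈ (⨆ e1, ⨆ _ : iX '' e1.s ∩ u.1 = c', w u (i, e1)) →
      ∀ q'' ≤ q', ∃ t ≤ q'', ∃ e1 : Clq X r (Order.succ (Order.succ χ)),
        iX '' e1.s ∩ u.1 = c' ∧ t ∈ w u (i, e1) := by
    intro u q' h q'' hq''
    obtain ⟨t, ht, e1, h1⟩ := RO.mem_iSup.1 h q'' hq''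
    obtain ⟨t', ht', h3, h4⟩ := RO.mem_iSup.1 h1 t le_rfl
    exact ⟨t', ht'.trans ht, e1, h3, h4⟩
  have hc1 : ∃ c1 : Clq X r (Order.succ (Order.succ χ)), c1.s = {x | iX x ∈ c'} := by
    obtain ⟨u, q', _, h⟩ := hU.exists_mem hc'
    obtain ⟨t, _, e1, h1, _⟩ := hunf u q' h q' le_rfl
    have hsub : {x | iX x ∈ c'} ⊆ e1.s := by
      intro x hx
      have hx' : iX x ∈ iX '' e1.s ∩ u.1 := by
        rw [h1]
        exact hx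
      exact (hiX.mem_set_image).1 hx'.1
    exact ⟨⟨{x | iX x ∈ c'}, (mk_le_mk_of_subset hsub).trans_lt e1.card,
      fun x hx y hy => e1.cl x (hsub hx) y (hsub hy)⟩, rfl⟩
  obtain ⟨c1, hc1⟩ := hc1
  have htr : ∀ (u : Pk κ Y) (e1 : Clq X r (Order.succ (Order.succ χ))),
      iX '' e1.s ∩ u.1 = c' → {x | x ∈ e1.s ∧ iX x ∈ u.1} = c1.s := by
    intro u e1 h
    rw [hc1, ← h]
    ext x
    constructor
    · intro hx
      exact ⟨⟨x, hx.1, rfl⟩, hx.2⟩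
    · intro hx
      exact ⟨(hiX.mem_set_image).1 hx.1, hx.2⟩
  -- (d)
  have hext : ∀ u : Pk κ Y, ∃ F : Nm (RO Q1) (Clq X r (Order.succ (Order.succ χ))),
      ∀ e, w u (i, e) ≤ F.v e := fun u =>
    Nm.extend (fun e => w u (i, e)) (fun e e' h => hw2 u _ _ fun h' => h (Prod.ext_iff.1 h').2)
      g.c
  choose F' hF' using hext
  have hgc : q2 ∈ U (fun u => ptr iX (F' u) u.1 c1) := by
    refine hU.ae_mono hc' ?_
    intro u q' _ h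
    rw [mem_ptr]
    intro q'' hq''
    obtain ⟨t, ht, e1, h1, h3⟩ := hunf u q' h q'' hq''
    exact ⟨t, ht, e1, htr u e1 h1, hF' u e1 t h3⟩
  refine ⟨⟨q2, F', c1, hgc⟩, ?_, i.1, hil, i.2.1, i.2.2.1, i.2.2.2.1, i.2.2.2.2, ?_⟩
  · rw [Germ.le_def]
    refine ⟨hq2.trans hq1, ?_, ?_⟩
    · have h3 : q2 ∈ U (fun u => (⨆ e1, ⨆ _ : iX '' e1.s ∩ u.1 = c', w u (i, e1)) ⊓
          ptr iX (g.F u) u.1 g.c) :=
        hU.mem_inf.2 ⟨hc', RO.down _ (hq2.trans hq1) g.hc⟩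
      obtain ⟨u, q', _, h4⟩ := hU.exists_mem h3
      obtain ⟨t, ht, e1, h5, h6⟩ := hunf u q' h4.1 q' le_rfl
      obtain ⟨t2, ht2, e2, h7, h8⟩ := (hwm u i e1 t h6).2.1 t le_rfl
      obtain ⟨t3, ht3, e3, h9, h10⟩ := mem_ptr.1 h4.2 t2 (ht2.trans ht)
      have h11 : e2 = e3 := (g.F u).uniq (RO.down _ ht3 h8) h10
      change g.c.s ⊆ c1.s
      intro x hx
      rw [← h9] at hx
      rw [← htr u e1 h5]
      rw [← h11] at hx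
      exact ⟨h7 hx.1, hx.2⟩
    · refine hU.ae_mono hc' ?_
      intro u q' _ h
      rw [mem_nle]
      intro q'' hq''
      obtain ⟨t, ht, e1, h1, h3⟩ := hunf u q' h q'' hq''
      obtain ⟨t2, ht2, e2, h7, h8⟩ := (hwm u i e1 t h3).2.1 t le_rfl
      exact ⟨t2, ht2.trans ht, e1, e2, h7, RO.down _ ht2 (hF' u e1 t h3), h8⟩
  · refine hU.ae_mono hc' ?_
    intro u q' _ h
    rw [mem_frc]
    intro q'' hq''
    obtain ⟨t, ht, e1, h1, h3⟩ := hunf u q' h q'' hq''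
    exact ⟨t, ht, e1, hF' u e1 t h3, (hwm u i e1 t h3).2.2⟩

end STP
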