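import Pool.Agent.STP.GermCoh
import Pool.Agent.STP.GermD
import Pool.Agent.STP.ATL

/-! # A partial thread from a narrow system (package S25)

(problem MP_e44aae_lc, project STP)

Text, section 7, proof of Prop 3 from ATL: assembly. `Y := Λ ⊕ X`, `iΛ := Sum.inl`, `iX := Sum.inr`, `U` from `hU Y`. For `u : Pk κ Y` let `b_u` be an upper bound of `{a | inl a ∈ u}` (`#u < κ ≤ ν`, `Dir ν Λ`), and (`exists_max`) `n u : Λ → RO P` disjoint,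
`n u b ≤ Φ u b := chi (b_u ≤ b) ⊓ I b`, `⨆ b, n u b = ⨆ b, Φ u b ∋ p0` by `h1` (`RO.mem_iSup`: for `q ≤ p0`, `h1 b_u q`).
`ATL` with `Q := C × Q1` (`DC (succ (succ χ))`: `Clq.dc` for the regular cardinal `succ (succ χ)`, and `hQ`), `Gm := Germ hU iX r (succ (succ χ))`, `p := Germ.pr`, `hCL := germ_CL`, `ZZ := N0`, `Dec := DecG n R N0`, `hDec := DecG.mono`,
`In x l a := (x, l) ∈ I a`, `R`, `q0 := p0.1`, `l0 := p0.2`, `hg0` from `germ_CL` with the empty set `D`, `hcoh := germ_coh`, `hD1 := h1`, `hD2 := germ_D`, `Dir (succ χ) Λ` from `Dir ν Λ` (`succ χ < κ ≤ ν`). -/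

universe u

namespace STP

open Cardinal

theorem germ_main {κ ν χ : Cardinal.{u}} {Q1 X L Λ N RR : Type u} {r : X → X → Prop}
    [PartialOrder Q1] [Preorder L] [Preorder Λ] (hχ : ℵ₀ ≤ χ)
    (hχκ : Order.succ (Order.succ χ) < κ) (hκν : κ ≤ ν) (hL : #L ≤ χ) (hRR : #RR ≤ χ)
    (hr : ∀ x y, r x y → r y x) (hloc : ∀ x, #{y | ¬ r x y} < κ) (hQ : DC κ Q1)
    (hU : ∀ Y : Type u, ∃ U : (Pk κ Y → RO Q1) → RO Q1, NormalU κ Y (RO Q1) U)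
    (hΛ : Dir ν Λ) (N0 : Set N) (hN0 : #N0 ≤ χ)
    (R : RR → Rel ((Clq X r (Order.succ (Order.succ χ)) × Q1) × L) Λ N)
    (p0 : (Clq X r (Order.succ (Order.succ χ)) × Q1) × L)
    (I : Λ → RO ((Clq X r (Order.succ (Order.succ χ)) × Q1) × L))
    (h1 : ∀ a, ∀ p ≤ p0, ∃ p' ≤ p, ∃ a', a ≤ a' ∧ p' ∈ I a')
    (h2 : ∀ a b, a ≤ b → ∀ p ≤ p0, p ∈ I a → p ∈ I b → ∃ p' ≤ p, ∃ m, ∃ ξ ∈ N0, ∃ ζ ∈ N0,
      (R m).rel p' a b ξ ζ) :
    ∃ m, ∃ p ≤ p0, ∃ th, IsPThr (R m).rel p th := by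
  classical
  obtain ⟨U, hU'⟩ := hU (Λ ⊕ X)
  have hχν : Order.succ χ ≤ ν :=
    (Order.lt_succ (Order.succ χ)).le.trans (hχκ.le.trans hκν)
  have hreg : (Order.succ (Order.succ χ)).IsRegular :=
    Cardinal.isRegular_succ (hχ.trans (Order.le_succ χ))
  have hb : ∀ u : Pk κ (Λ ⊕ X), ∃ b, ∀ a, Sum.inl a ∈ u.1 → a ≤ b := by
    intro u
    have hc : #{a : Λ | Sum.inl a ∈ u.1} ≤ ν := by
      refine le_trans ?_ (u.2.le.trans hκν)
      exact Cardinal.mk_le_of_injective (f := fun a : {a : Λ | Sum.inl a ∈ u.1} =>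
        (⟨Sum.inl a.1, a.2⟩ : u.1)) fun a b hab =>
          Subtype.ext (Sum.inl_injective (congrArg (fun t => t.1) hab))
    obtain ⟨b, hb⟩ := hΛ {a : Λ | Sum.inl a ∈ u.1} hc
    exact ⟨b, fun a ha => hb a ha⟩
  choose bu hbu using hb
  have hn : ∀ u : Pk κ (Λ ⊕ X), ∃ m : Λ → RO ((Clq X r (Order.succ (Order.succ χ)) × Q1) × L),
      (∀ e, m e ≤ chi (bu u ≤ e) ⊓ I e) ∧ (∀ e e', e ≠ e' → m e ⊓ m e' = ⊥) ∧
        ⨆ e, m e = ⨆ e, chi (bu u ≤ e) ⊓ I e := fun u => exists_max _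
  choose n hn1 hn2 hn3 using hn
  have hnI : ∀ u b, n u b ≤ I b := fun u b => (hn1 u b).trans inf_le_right
  have hnt : ∀ u, p0 ∈ ⨆ b, n u b := by
    intro u
    rw [hn3 u, RO.mem_iSup]
    intro q hq
    obtain ⟨p', hp', a', ha', hI⟩ := h1 (bu u) q hq
    exact ⟨p', hp', a', RO.mem_chi.2 ha', hI⟩
  have hnb : ∀ u b p, p ∈ n u b → ∀ a, Sum.inl a ∈ u.1 → a ≤ b := by
    intro u b p hp a ha
    exact (hbu u a ha).trans (RO.mem_chi.1 (hn1 u b p hp).1)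
  have hg0 : ∃ g : Germ hU' Sum.inr r (Order.succ (Order.succ χ)), g.pr = p0.1 := by
    obtain ⟨g, -, hg⟩ := germ_CL hχ hχκ hr hloc hQ hU' Sum.inr Sum.inr_injective ∅
      (fun a ha => (Set.notMem_empty a ha).elim) (by
        rw [Cardinal.mk_eq_zero]
        exact hreg.pos) p0.1 (fun d hd => (Set.notMem_empty d hd).elim)
    exact ⟨g, hg⟩
  exact ATL hχ hL hRR hN0 N0 hN0 (DC.prod (Clq.dc hreg) (DC.mono hχκ.le hQ))
    (Germ.pr : Germ hU' Sum.inr r (Order.succ (Order.succ χ)) → _) Germ.pr_mono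
    (fun D hD hDc x hx => germ_CL hχ hχκ hr hloc hQ hU' Sum.inr Sum.inr_injective D hD hDc x hx)
    (fun g l m ζ a ξ => DecG n R N0 g l m ζ a ξ)
    (fun g g' l l' m ζ a ξ hg hl h => DecG.mono hg hl h)
    (fun g l m ζ a ξ h => h.1)
    (fun x l a => (x, l) ∈ I a)
    (fun q q' l l' a hq hl h => (I a).down (show (q', l') ≤ (q, l) from ⟨hq, hl⟩) h)
    R (fun A hA => hΛ A (hA.trans hχν)) (q0 := p0.1) (l0 := p0.2) hg0
    (fun g l m ζ a b ξ ξ' _ _ hab hd hd' =>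
      germ_coh hχ hχκ hr hloc hU' Sum.inr Sum.inr_injective Sum.inl n hn2 hnb R N0 g l m ζ a b
        ξ ξ' hab hd hd')
    (fun q hq l hl a => by
      obtain ⟨p', hp', a', ha', hI⟩ := h1 a (q, l) ⟨hq, hl⟩
      exact ⟨p'.1, hp'.1, p'.2, hp'.2, a', ha', hI⟩)
    (fun g l a hg hl ha =>
      germ_D hχ hχκ hL hRR hQ hU' Sum.inr Sum.inr_injective Sum.inl p0 I n hnI hnt hnb R N0 hN0
        h2 g l a ⟨hg, hl⟩ ha)

end STP
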