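import Pool.Agent.STP.RO

/-! # Normal ultrafilters: Boolean calculus (package S09)

(problem MP_e44aae_lc, project STP)

`U : (Pk κ X → B) → B` is a `B`-valued normal ultrafilter (`NormalU`). All facts are formal consequences:

* `mono`: `Z ≤ Z'` gives `Z = Z ⊓ Z'`, so `U Z = U Z ⊓ U Z'` (`inf`). `sup`: de Morgan (`compl`, `inf`). `le_sup`: `Z u ≤ b := ⨆ u, Z u`, so
  `U Z ≤ U (const b) = b`. `inf_const`: `inf` and `const`.
* `complete_inf`: `≤` by `mono` and `le_iInf`, `≥` is the axiom. `complete_sup`: de Morgan.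
* `small`: for `c : Set X` with `#c < κ`: `⨅ x : c, chi (x ∈ u) = chi (c ⊆ u)`, completeness and fineness.
* `normal_top`: if `U (Z x) = ⊤` for all `x`, then `U (fun u => ⨅ x ∈ u, Z x u) = ⊤`. `normal_sup`: de Morgan form of normality.
* `clos`: if `G : X → Set X`, `#(G x) < κ`, then almost every `u` is closed under `G` (`small` and `normal_top`). `clos2`: the same for
  `G : X → X → Set X` (apply `normal_top` twice: for fixed `x` the set of `u` with `∀ y ∈ u, G x y ⊆ u` has measure `⊤`).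
* `card_ge`: if `i : N → X` is injective and `lam < κ`, `lam ≤ #N`, then almost every `u` has at least `lam` elements in the range of `i`
  (`small` for the image of a subset of `N` with `lam` elements). -/

universe u

namespace STP

open Cardinal

namespace NormalU

variable {κ : Cardinal.{u}} {X B : Type u} [CompleteBooleanAlgebra B] {U : (Pk κ X → B) → B}

private theorem chi_t {B : Type u} [CompleteBooleanAlgebra B] {p : Prop} (h : p) :
    (chi p : B) = ⊤ := by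
  unfold chi
  exact iSup_pos h

private theorem chi_f {B : Type u} [CompleteBooleanAlgebra B] {p : Prop} (h : ¬ p) :
    (chi p : B) = ⊥ := by
  unfold chi
  exact iSup_neg h

private theorem chi_mono {B : Type u} [CompleteBooleanAlgebra B] {p q : Prop} (h : p → q) :
    (chi p : B) ≤ chi q := by
  by_cases hp : p
  · rw [chi_t (h hp)]
    exact le_top
  · rw [chi_f hp]
    exact bot_le

private theorem chi_iInf {B : Type u} [CompleteBooleanAlgebra B] {ι : Sort*} (p : ι → Prop) :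
    (⨅ i, chi (p i) : B) = chi (∀ i, p i) := by
  by_cases h : ∀ i, p i
  · rw [chi_t h]
    exact iInf_eq_top.2 fun i => chi_t (h i)
  · rw [chi_f h, eq_bot_iff]
    obtain ⟨i, hi⟩ := not_forall.1 h
    exact (iInf_le _ i).trans (chi_f hi).le

private theorem chi_not {B : Type u} [CompleteBooleanAlgebra B] (p : Prop) :
    (chi (¬ p) : B)ᶜ = chi p := by
  by_cases h : p
  · rw [chi_t h, chi_f (not_not.2 h), compl_bot]
  · rw [chi_f h, chi_t h, compl_top]

theorem mono (hU : NormalU κ X B U) {Z Z' : Pk κ X → B} (h : ∀ u, Z u ≤ Z' u) : U Z ≤ U Z' := by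
  have h1 : (fun u => Z u ⊓ Z' u) = Z := funext fun u => inf_eq_left.2 (h u)
  have h2 := hU.inf Z Z'
  rw [h1] at h2
  exact inf_eq_left.1 h2.symm

theorem sup (hU : NormalU κ X B U) (Z Z' : Pk κ X → B) :
    U (fun u => Z u ⊔ Z' u) = U Z ⊔ U Z' := by
  have h1 : (fun u => Z u ⊔ Z' u) = fun u => ((Z u)ᶜ ⊓ (Z' u)ᶜ)ᶜ := by
    funext u
    rw [compl_inf, compl_compl, compl_compl]
  rw [h1, hU.compl (fun u => (Z u)ᶜ ⊓ (Z' u)ᶜ), hU.inf (fun u => (Z u)ᶜ) (fun u => (Z' u)ᶜ),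
    hU.compl, hU.compl, compl_inf, compl_compl, compl_compl]

theorem le_sup (hU : NormalU κ X B U) (Z : Pk κ X → B) : U Z ≤ ⨆ u, Z u := by
  have h := hU.mono (Z := Z) (Z' := fun _ => ⨆ u, Z u) (fun u => le_iSup Z u)
  rwa [hU.const] at h

theorem inf_const (hU : NormalU κ X B U) (Z : Pk κ X → B) (b : B) :
    U (fun u => Z u ⊓ b) = U Z ⊓ b := by
  have h := hU.inf Z (fun _ => b)
  rwa [hU.const] at h

theorem complete_inf (hU : NormalU κ X B U) {I : Type u} (hI : #I < κ) (Z : I → Pk κ X → B) :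
    U (fun u => ⨅ i, Z i u) = ⨅ i, U (Z i) :=
  le_antisymm (le_iInf fun i => hU.mono fun u => iInf_le (fun i => Z i u) i)
    (hU.complete I Z hI)

theorem complete_sup (hU : NormalU κ X B U) {I : Type u} (hI : #I < κ) (Z : I → Pk κ X → B) :
    U (fun u => ⨆ i, Z i u) = ⨆ i, U (Z i) := by
  have h1 : (fun u => ⨆ i, Z i u) = fun u => (⨅ i, (Z i u)ᶜ)ᶜ := by
    funext u
    rw [compl_iInf]
    simp only [compl_compl]
  rw [h1, hU.compl (fun u => ⨅ i, (Z i u)ᶜ), hU.complete_inf hI (fun i u => (Z i u)ᶜ), compl_iInf]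
  refine iSup_congr fun i => ?_
  rw [hU.compl (Z i), compl_compl]

theorem small (hU : NormalU κ X B U) {c : Set X} (hc : #c < κ) :
    U (fun u => chi (c ⊆ u.1)) = ⊤ := by
  have h1 : (fun u : Pk κ X => (chi (c ⊆ u.1) : B)) = fun u => ⨅ x : c, chi (x.1 ∈ u.1) := by
    funext u
    rw [chi_iInf]
    congr 1
    exact propext ⟨fun h x => h x.2, fun h x hx => h ⟨x, hx⟩⟩
  rw [h1, hU.complete_inf hc (fun (x : c) (u : Pk κ X) => (chi (x.1 ∈ u.1) : B))]
  exact iInf_eq_top.2 fun x => hU.fine x.1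

theorem normal_top (hU : NormalU κ X B U) {Z : X → Pk κ X → B} (h : ∀ x, U (Z x) = ⊤) :
    U (fun u => ⨅ x ∈ u.1, Z x u) = ⊤ := by
  refine top_le_iff.1 (le_trans ?_ (hU.normal Z))
  exact (iInf_eq_top.2 h).ge

theorem normal_sup (hU : NormalU κ X B U) (Z : X → Pk κ X → B) :
    U (fun u => ⨆ x ∈ u.1, Z x u) ≤ ⨆ x, U (Z x) := by
  have h1 : (fun u : Pk κ X => ⨆ x ∈ u.1, Z x u) = fun u => (⨅ x ∈ u.1, (Z x u)ᶜ)ᶜ := by
    funext u
    simp only [compl_iInf, compl_compl]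
  have h2 : ⨆ x, U (Z x) = (⨅ x, U (fun u => (Z x u)ᶜ))ᶜ := by
    rw [compl_iInf]
    refine iSup_congr fun x => ?_
    rw [hU.compl (Z x), compl_compl]
  rw [h1, h2, hU.compl (fun u => ⨅ x ∈ u.1, (Z x u)ᶜ)]
  exact compl_le_compl (hU.normal fun x u => (Z x u)ᶜ)

theorem clos (hU : NormalU κ X B U) (G : X → Set X) (hG : ∀ x, #(G x) < κ) :
    U (fun u => chi (∀ x ∈ u.1, G x ⊆ u.1)) = ⊤ := by
  have h := hU.normal_top (Z := fun x u => chi (G x ⊆ u.1)) fun x => hU.small (hG x)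
  rw [← h]
  congr 1
  funext u
  simp only [chi_iInf]

theorem clos2 (hU : NormalU κ X B U) (G : X → X → Set X) (hG : ∀ x y, #(G x y) < κ) :
    U (fun u => chi (∀ x ∈ u.1, ∀ y ∈ u.1, G x y ⊆ u.1)) = ⊤ := by
  have h := hU.normal_top (Z := fun x u => chi (∀ y ∈ u.1, G x y ⊆ u.1)) fun x =>
    hU.clos (G x) (hG x)
  rw [← h]
  congr 1
  funext u
  simp only [chi_iInf]

theorem card_ge (hU : NormalU κ X B U) {N : Type u} (i : N → X) (hi : Function.Injective i)
    {lam : Cardinal.{u}} (h1 : lam < κ) (h2 : lam ≤ #N) :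
    U (fun u => chi (lam ≤ #{x : N // i x ∈ u.1})) = ⊤ := by
  obtain ⟨S, hS⟩ := Cardinal.le_mk_iff_exists_set.1 h2
  have h3 : #(i '' S : Set X) < κ := lt_of_le_of_lt (Cardinal.mk_image_le.trans hS.le) h1
  refine top_le_iff.1 ((hU.small h3).ge.trans (hU.mono fun u => chi_mono fun h => ?_))
  rw [← hS]
  exact Cardinal.mk_le_of_injective (f := fun x : S => (⟨x.1, h ⟨x.1, x.2, rfl⟩⟩ :
    {x : N // i x ∈ u.1})) fun a b hab => Subtype.ext (congrArg (fun t => t.1) hab)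

/-! Forms used for `B = RO Q`. -/

variable {Q : Type u} [Preorder Q] {V : (Pk κ X → RO Q) → RO Q}

/-- almost everywhere monotonicity below a condition -/
theorem ae_mono (hV : NormalU κ X (RO Q) V) {q : Q} {Z Z' : Pk κ X → RO Q} (hZ : q ∈ V Z)
    (h : ∀ u, ∀ q' ≤ q, q' ∈ Z u → q' ∈ Z' u) : q ∈ V Z' := by
  have h1 : V (fun u => Z u ⊓ RO.up q) ≤ V Z' := by
    refine hV.mono fun u p hp => ?_
    refine (Z' u).locally fun r hr => ?_
    obtain ⟨t, ht, h2⟩ := RO.mem_up.1 hp.2 r hr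
    exact ⟨t, ht, h u t h2 ((Z u).down (ht.trans hr) hp.1)⟩
  rw [hV.inf_const] at h1
  exact h1 q ⟨hZ, RO.self_mem_up q⟩

/-- a set of positive measure is inhabited -/
theorem exists_mem (hV : NormalU κ X (RO Q) V) {q : Q} {Z : Pk κ X → RO Q} (hZ : q ∈ V Z) :
    ∃ u, ∃ q' ≤ q, q' ∈ Z u := by
  obtain ⟨r, hr, u, hu⟩ := RO.mem_iSup.1 (hV.le_sup Z q hZ) q le_rfl
  exact ⟨u, r, hr, hu⟩

theorem mem_inf (hV : NormalU κ X (RO Q) V) {q : Q} {Z Z' : Pk κ X → RO Q} :
    q ∈ V (fun u => Z u ⊓ Z' u) ↔ q ∈ V Z ∧ q ∈ V Z' := by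
  rw [hV.inf]
  exact Iff.rfl

theorem of_top (hV : NormalU κ X (RO Q) V) {q : Q} {Z : Pk κ X → RO Q} (h : V Z = ⊤) :
    q ∈ V Z := by
  rw [h]
  trivial

/-- two-valued measure of a ground model set of `u` -/
theorem ground (hV : NormalU κ X (RO Q) V) (A : Set (Pk κ X))
    (h : ∀ q : Q, q ∈ V (fun u => chi (u ∉ A)) → False) :
    V (fun u => chi (u ∈ A)) = ⊤ := by
  have h1 : V (fun u => chi (u ∉ A)) = ⊥ := RO.ext' fun p => ⟨fun hp => (h p hp).elim,
    fun hp => (RO.not_mem_bot hp).elim⟩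
  have h2 : (fun u : Pk κ X => (chi (u ∈ A) : RO Q)) = fun u => (chi (u ∉ A) : RO Q)ᶜ :=
    funext fun u => (chi_not (u ∈ A)).symm
  rw [h2, hV.compl (fun u => (chi (u ∉ A) : RO Q)), h1, compl_bot]

end NormalU

end STP
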