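import Pool.Agent.STP.BlkB
import Pool.Agent.STP.Thr

/-! # One closed condition for all `μ` (package S28)

(problem MP_e44aae_lc, project STP)

Text, section 8, first paragraph. `Bad m h`: a statement about an index `m` and a condition `h ∈ HQ` that is dense and open in `h`; then there is one `h` with `Bad m h` for all `m`. This is `REC` for `HQ`
(index set `Mi`), written for the data needed here.

`unif`: for each `m` and `h : HQ` there are `R, Λ, S, t, h' ≤ h, r` such that there is no thread of `S` below any `p ≤ (t, h', r)`. Then there is ONE `h` such that for all `m` there are `R, Λ, S, t, r` without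
threads below any `p ≤ (t, h, r)`. Proof: `D m h :=` (there are `R : Type u`, a partial order on it, `DC δ R`, `Λ`, ..., such that no `p ≤ (t, h, r)` has a thread) is open (if `h1 ≤ h` then `(t, h1, r) ≤ (t, h, r)`) and dense by hypothesis; `REC` with
`#Mi < δ'`. -/

universe u

namespace STP

open Cardinal

/-- for the forcing `T × (HQ × R)` there is a system without threads below `(t, h, r)` -/
def BadAt (δ ν : Cardinal.{u}) (T HQ N : Type u) [PartialOrder T] [PartialOrder HQ] (h : HQ) :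
    Prop :=
  ∃ (R : Type u) (_ : PartialOrder R) (Λ : Type u) (_ : Preorder Λ) (S : Sys (T × (HQ × R)) Λ N)
    (t : T) (r : R), DC δ R ∧ Dir ν Λ ∧ ∀ p ≤ (t, h, r), ∀ th, ¬ IsThr S.rel p th

theorem unif {δ δ' ν : Cardinal.{u}} {HQ N Mi : Type u} [PartialOrder HQ] (hHQ : DC δ' HQ)
    (hMi : #Mi < δ') (T : Mi → Type u) [∀ m, PartialOrder (T m)]
    (hbad : ∀ m, ∀ h : HQ, ∃ h' ≤ h, BadAt δ ν (T m) HQ N h') :
    ∃ h : HQ, ∀ m, BadAt δ ν (T m) HQ N h := by
  obtain ⟨p, -⟩ := hHQ ∅ (fun x hx => hx.elim) (by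
    rw [Cardinal.mk_eq_zero]
    exact lt_of_le_of_lt zero_le hMi)
  obtain ⟨h, -, h1⟩ := REC hHQ hMi (fun m h => BadAt δ ν (T m) HQ N h) p (by
    rintro m q r hr ⟨R, iR, Λ, iΛ, S, t, r0, h1, h2, h3⟩
    refine ⟨R, iR, Λ, iΛ, S, t, r0, h1, h2, fun p hp th => h3 p (hp.trans ?_) th⟩
    exact Prod.mk_le_mk.2 ⟨le_rfl, Prod.mk_le_mk.2 ⟨hr, le_rfl⟩⟩)
    fun m q _ => hbad m q
  exact ⟨h, h1⟩

/-- the product of preorders in which sets of at most `ν` elements are bounded -/
theorem Dir.pi {ν : Cardinal.{u}} {ι : Type u} {Λ : ι → Type u} [∀ i, Preorder (Λ i)]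
    (h : ∀ i, Dir ν (Λ i)) : Dir ν (∀ i, Λ i) := by
  intro A hA
  have h1 : ∀ i, ∃ b : Λ i, ∀ a ∈ (fun f : ∀ i, Λ i => f i) '' A, a ≤ b := fun i =>
    h i _ (Cardinal.mk_image_le.trans hA)
  choose b hb using h1
  exact ⟨b, fun a ha i => hb i _ ⟨a, ha, rfl⟩⟩

end STP
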