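import Pool.Agent.STP.IIwa
import Pool.Agent.STP.Unif
import Pool.Agent.STP.Nu

/-! # Clubs (package I2)

(problem MP_e44aae_lc, project STP, ITP extension, text `/team-store/ITPinf.md`, 1.2 and 8.3)

* `Club.inter`: cofinal: given `a`, `a_0 = a`; for each `n` and `j : J` choose `b_{n,j} ∈ D j` above `a_n` (`cof`), `a_{n+1}` := an upper bound of `a_n` and all `b_{n,j}` (`Dir`, `#J + 1 ≤ ν`). The chain `{a_n | n ≥ 0}` (monotone sequence) has a lub `e` (`ChSup`); for each `j` the sequence `n ↦ b_{n,j}` is monotone (`b_{n,j} ≤ a_{n+1} ≤ b_{n+1,j}`),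
  contained in `D j`, and `e` is a lub of its range (same upper bounds), so `e ∈ D j`; `a ≤ e`. Closed: clear.
* `Club.eval`: in a product `∀ i, Λ i` of nonempty preorders the set `{a | a i ∈ D}` is a club, if `D` is a club in `Λ i`. Cofinal: `Function.update a i b`. Closed: if `d` is a lub of the chain `s`, then `d i` is a lub of the chain `{a i | a ∈ s}` (`isLUB_pi` needs partial orders or use `Function.update d i y`: if `y` is an upper bound of the `a i`, then
  `Function.update d i y` is an upper bound of `s`, so `d i ≤ y`), nonempty, at most `ν` elements (`mk_image_le`).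
* `ChSup.pi`: coordinatewise lubs (images of chains under evaluation are chains).
* `Sys.Cnt.eval`: continuity of the system read through the evaluation `a ↦ a i` (`Sys.index`): lubs are evaluated to lubs (previous item).
* `Cnt.comap`, `Top.comap`: systems pulled back along a projection `f : P' → P` as in `Sys.comap`: `rel` is read at `f p`. (For `Cnt`: let `p' ≤ p` in `P'`. The hypothesis for `f p`: given `x ≤ f p`, by `hp` some `q' ≤ p` has `f q' ≤ x`; the hypothesis at `q'` gives `q ≤ q'`, `ξ`; `f q ≤ x`. Conclusion at `f p' ≤ f p`: `x ≤ f p'`, `η`; again `hp`: `q ≤ p'` with `f q ≤ x`, mono.)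
* `ae_dir`: for a normal ultrafilter (with values in any complete Boolean algebra) almost every `u` has `{a | iΛ a ∈ u}` nonempty and directed: `Λ` is nonempty (`Dir` for the empty set), `fine`, and `clos2` for the set valued function `G x y := {iΛ (ub a b) | iΛ a = x, iΛ b = y}` (`ub a b` a chosen upper bound; at most one element, since `iΛ` is injective).
* `ae_club`: for a club `D` almost every `u` satisfies: every lub of `{a | iΛ a ∈ u}` is in `D`. Choose `g a ∈ D` above `a` (`cof`), and for `a, b` an element `ub a b ∈ D` above `a`, `b`. Almost every `u` is closed under `g` and `ub` (`clos`, `clos2`), and `{a | iΛ a ∈ u}` is nonempty. For such `u` the set `s = {a ∈ D | iΛ a ∈ u}` is nonempty, directed, `#s ≤ #u < κ ≤ ν`,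
  and cofinal in `{a | iΛ a ∈ u}`, so both sets have the same upper bounds and lubs; `cld_dir`. Combine with `NormalU.mono`, `inf`, membership of `chi` (for a general complete Boolean algebra: `chi p` is `⊤` or `⊥`; see the private lemmas in `Nu.lean`). -/

universe u

namespace STP

open Cardinal

private theorem chi_t {B : Type u} [CompleteBooleanAlgebra B] {p : Prop} (h : p) :
    (chi p : B) = ⊤ := by
  unfold chi
  exact iSup_pos h

private theorem chi_f {B : Type u} [CompleteBooleanAlgebra B] {p : Prop} (h : ¬ p) :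
    (chi p : B) = ⊥ := by
  unfold chi
  exact iSup_neg h

private theorem ae_and {κ : Cardinal.{u}} {Y B : Type u} [CompleteBooleanAlgebra B]
    {U : (Pk κ Y → B) → B} (hU : NormalU κ Y B U) {p q r : Pk κ Y → Prop}
    (hp : U (fun u => chi (p u)) = ⊤) (hq : U (fun u => chi (q u)) = ⊤)
    (h : ∀ u, p u → q u → r u) : U (fun u => chi (r u)) = ⊤ := by
  have h1 := hU.inf (fun u => chi (p u)) (fun u => chi (q u))
  rw [hp, hq, inf_top_eq] at h1
  refine top_le_iff.1 (h1.ge.trans (hU.mono fun u => ?_))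
  by_cases h2 : p u
  · by_cases h3 : q u
    · rw [chi_t (h u h2 h3)]
      exact le_top
    · rw [chi_f h3, inf_bot_eq]
      exact bot_le
  · rw [chi_f h2, bot_inf_eq]
    exact bot_le

private theorem isLUB_ev {ι : Type u} {Λ : ι → Type u} [∀ i, Preorder (Λ i)] (i : ι)
    {s : Set (∀ i, Λ i)} {d : ∀ i, Λ i} (h : IsLUB s d) :
    IsLUB ((fun a : ∀ i, Λ i => a i) '' s) (d i) := by
  classical
  constructor
  · rintro _ ⟨a, ha, rfl⟩
    exact h.1 ha i
  · intro y hy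
    have h1 : d ≤ Function.update d i y := by
      refine h.2 fun a ha k => ?_
      by_cases hk : k = i
      · subst hk
        rw [Function.update_self]
        exact hy ⟨a, ha, rfl⟩
      · rw [Function.update_of_ne hk]
        exact h.1 ha k
    have h2 := h1 i
    rwa [Function.update_self] at h2

private theorem chain_ev {ι : Type u} {Λ : ι → Type u} [∀ i, Preorder (Λ i)] (i : ι)
    {s : Set (∀ i, Λ i)} (h : IsChain (· ≤ ·) s) :
    IsChain (· ≤ ·) ((fun a : ∀ i, Λ i => a i) '' s) := by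
  rintro _ ⟨a, ha, rfl⟩ _ ⟨b, hb, rfl⟩ hne
  have h1 : a ≠ b := fun h => hne (by rw [h])
  rcases h ha hb h1 with h2 | h2
  · exact Or.inl (h2 i)
  · exact Or.inr (h2 i)

theorem Club.inter {ν : Cardinal.{u}} (hν : ℵ₀ ≤ ν) {Λ : Type u} [Preorder Λ] (hΛ : Dir ν Λ)
    (hS : ChSup ν Λ) {J : Type u} (hJ : #J ≤ ν) (D : J → Set Λ) (h : ∀ j, Club ν (D j)) :
    Club ν (⋂ j, D j) := by
  constructor
  · intro a
    have hb : ∀ (x : Λ) (j : J), ∃ b ∈ D j, x ≤ b := fun x j => (h j).cof x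
    choose b hb1 hb2 using hb
    have hub : ∀ x : Λ, ∃ y, x ≤ y ∧ ∀ j, b x j ≤ y := by
      intro x
      have hc : #(insert x (Set.range (b x)) : Set Λ) ≤ ν := by
        refine (Cardinal.mk_insert_le).trans ?_
        refine Cardinal.add_le_of_le hν (Cardinal.mk_range_le.trans hJ) ?_
        exact (Cardinal.one_le_aleph0).trans hν
      obtain ⟨y, hy⟩ := hΛ _ hc
      exact ⟨y, hy x (Set.mem_insert _ _), fun j => hy _ (Set.mem_insert_of_mem _ ⟨j, rfl⟩)⟩
    choose st hst1 hst2 using hub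
    let sq : ℕ → Λ := fun n => st^[n] a
    have hsq : ∀ n, sq (n + 1) = st (sq n) := fun n => Function.iterate_succ_apply' st n a
    have hmono : Monotone sq := monotone_nat_of_le_succ fun n => by
      rw [hsq]
      exact hst1 _
    have hcard : ∀ f : ℕ → Λ, #(Set.range f) ≤ ν := by
      intro f
      have hcnt : (Set.range f).Countable := Set.countable_range f
      exact (Cardinal.le_aleph0_iff_set_countable.2 hcnt).trans hν
    obtain ⟨e, he⟩ := hS (Set.range sq) ⟨sq 0, 0, rfl⟩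
      (hmono.isChain_range) (hcard sq)
    refine ⟨e, Set.mem_iInter.2 fun j => ?_, he.1 ⟨0, rfl⟩⟩
    have hm2 : Monotone fun n => b (sq n) j := monotone_nat_of_le_succ fun n => by
      have h1 : b (sq n) j ≤ sq (n + 1) := by
        rw [hsq]
        exact hst2 _ j
      exact h1.trans (hb2 _ j)
    refine (h j).cld (Set.range fun n => b (sq n) j) ?_ ⟨_, 0, rfl⟩ hm2.isChain_range
      (hcard _) e ⟨?_, ?_⟩
    · rintro _ ⟨n, rfl⟩
      exact hb1 _ j
    · rintro _ ⟨n, rfl⟩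
      have h1 : b (sq n) j ≤ sq (n + 1) := by
        rw [hsq]
        exact hst2 _ j
      exact h1.trans (he.1 ⟨n + 1, rfl⟩)
    · intro y hy
      refine he.2 ?_
      rintro _ ⟨n, rfl⟩
      exact (hb2 _ j).trans (hy ⟨n, rfl⟩)
  · intro s hs hne hch hc d hd
    exact Set.mem_iInter.2 fun j =>
      (h j).cld s (fun x hx => Set.mem_iInter.1 (hs hx) j) hne hch hc d hd

theorem Club.eval {ν : Cardinal.{u}} {ι : Type u} {Λ : ι → Type u} [∀ i, Preorder (Λ i)]
    (i : ι) {D : Set (Λ i)} (h : Club ν D) : Club ν {a : ∀ i, Λ i | a i ∈ D} := by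
  classical
  constructor
  · intro a
    obtain ⟨b, hb, hab⟩ := h.cof (a i)
    refine ⟨Function.update a i b, ?_, fun k => ?_⟩
    · change Function.update a i b i ∈ D
      rwa [Function.update_self]
    · by_cases hk : k = i
      · subst hk
        rw [Function.update_self]
        exact hab
      · rw [Function.update_of_ne hk]
  · intro s hs hne hch hc d hd
    refine h.cld ((fun a : ∀ i, Λ i => a i) '' s) ?_ (hne.image _) (chain_ev i hch)
      (Cardinal.mk_image_le.trans hc) (d i) (isLUB_ev i hd)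
    rintro _ ⟨a, ha, rfl⟩
    exact hs ha

theorem ChSup.pi {ν : Cardinal.{u}} {ι : Type u} {Λ : ι → Type u} [∀ i, Preorder (Λ i)]
    (h : ∀ i, ChSup ν (Λ i)) : ChSup ν (∀ i, Λ i) := by
  intro s hne hch hc
  have h1 : ∀ i, ∃ d : Λ i, IsLUB ((fun a : ∀ i, Λ i => a i) '' s) d := fun i =>
    h i _ (hne.image _) (chain_ev i hch) (Cardinal.mk_image_le.trans hc)
  choose d hd using h1
  refine ⟨d, fun a ha i => (hd i).1 ⟨a, ha, rfl⟩, fun y hy i => (hd i).2 ?_⟩
  rintro _ ⟨a, ha, rfl⟩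
  exact hy ha i

theorem Cnt.eval {ν : Cardinal.{u}} {P N ι : Type u} [Preorder P] {Λ : ι → Type u}
    [∀ i, Preorder (Λ i)] (i : ι) (S : Sys P (Λ i) N) (h : S.Cnt ν) :
    (S.index (fun a : ∀ i, Λ i => a i) (fun a b (hab : a ≤ b) => hab i)).Cnt ν := by
  intro s hne hch hc d hd p ζ ζ' H
  refine h ((fun a : ∀ i, Λ i => a i) '' s) (hne.image _) (chain_ev i hch)
    (Cardinal.mk_image_le.trans hc) (d i) (isLUB_ev i hd) p ζ ζ' ?_
  rintro _ ⟨a, ha, rfl⟩
  exact H a ha

theorem Cnt.comap {ν : Cardinal.{u}} {P P' Λ N : Type u} [Preorder P] [Preorder P'] [Preorder Λ]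
    (S : Sys P Λ N) (f : P' → P) (hf : ∀ p q, q ≤ p → f q ≤ f p)
    (hp : ∀ p', ∀ q ≤ f p', ∃ q' ≤ p', f q' ≤ q) (h : S.Cnt ν) : (S.comap f hf hp).Cnt ν := by
  intro s hne hch hc d hd p ζ ζ' H p' hp'
  have h1 := h s hne hch hc d hd (f p) ζ ζ' (by
    intro a ha x hx
    obtain ⟨q', hq', h2⟩ := hp p x hx
    obtain ⟨q, hq, ξ, h3, h4⟩ := H a ha q' hq'
    exact ⟨f q, (hf _ _ hq).trans h2, ξ, h3, h4⟩) (f p') (hf _ _ hp')
  obtain ⟨x, hx, η, h2, h3⟩ := h1
  obtain ⟨q, hq, h4⟩ := hp p' x hx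
  exact ⟨q, hq, η, S.mono h4 h2, S.mono h4 h3⟩

private theorem ae_ub {κ : Cardinal.{u}} {Y Λ B : Type u} [CompleteBooleanAlgebra B]
    {U : (Pk κ Y → B) → B} (hU : NormalU κ Y B U) (hκ : ℵ₀ ≤ κ) (iΛ : Λ → Y)
    (hi : Function.Injective iΛ) (g : Λ → Λ → Λ) :
    U (fun u => chi (∀ a b, iΛ a ∈ u.1 → iΛ b ∈ u.1 → iΛ (g a b) ∈ u.1)) = ⊤ := by
  have h1 := hU.clos2 (fun x y => {z | ∃ a b, iΛ a = x ∧ iΛ b = y ∧ z = iΛ (g a b)}) (by
    intro x y
    have hs : {z | ∃ a b, iΛ a = x ∧ iΛ b = y ∧ z = iΛ (g a b)}.Subsingleton := by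
      rintro z ⟨a, b, ha, hb, rfl⟩ z' ⟨a', b', ha', hb', rfl⟩
      rw [hi (ha.trans ha'.symm), hi (hb.trans hb'.symm)]
    have h2 : #({z | ∃ a b, iΛ a = x ∧ iΛ b = y ∧ z = iΛ (g a b)} : Set Y) ≤ 1 :=
      Cardinal.mk_le_one_iff_set_subsingleton.2 hs
    exact lt_of_le_of_lt h2 (Cardinal.one_lt_aleph0.trans_le hκ))
  exact ae_and hU h1 h1 fun u h2 _ a b ha hb => h2 _ ha _ hb ⟨a, b, rfl, rfl, rfl⟩

theorem ae_dir {κ ν : Cardinal.{u}} {Y Λ B : Type u} [CompleteBooleanAlgebra B] [Preorder Λ]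
    {U : (Pk κ Y → B) → B} (hU : NormalU κ Y B U) (hκ : ℵ₀ ≤ κ) (hν : ℵ₀ ≤ ν) (hΛ : Dir ν Λ)
    (iΛ : Λ → Y) (hi : Function.Injective iΛ) :
    U (fun u => chi ({a | iΛ a ∈ u.1}.Nonempty ∧ DirectedOn (· ≤ ·) {a | iΛ a ∈ u.1})) = ⊤ := by
  obtain ⟨a0, -⟩ := hΛ ∅ (by simp)
  have hub : ∀ a b : Λ, ∃ c, a ≤ c ∧ b ≤ c := by
    intro a b
    obtain ⟨c, hc⟩ := hΛ {a, b} (by
      have h1 : ({a, b} : Set Λ).Countable := (Set.toFinite _).countable
      exact (Cardinal.le_aleph0_iff_set_countable.2 h1).trans hν)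
    exact ⟨c, hc a (by simp), hc b (by simp)⟩
  choose g hg1 hg2 using hub
  refine ae_and hU (hU.fine (iΛ a0)) (ae_ub hU hκ iΛ hi g) fun u h1 h2 => ⟨⟨a0, h1⟩, ?_⟩
  intro a ha b hb
  exact ⟨g a b, h2 a b ha hb, hg1 a b, hg2 a b⟩

theorem ae_club {κ ν : Cardinal.{u}} {Y Λ B : Type u} [CompleteBooleanAlgebra B] [Preorder Λ]
    {U : (Pk κ Y → B) → B} (hU : NormalU κ Y B U) (hκ : ℵ₀ ≤ κ) (hν : ℵ₀ ≤ ν) (hκν : κ ≤ ν)
    (hΛ : Dir ν Λ) (hS : ChSup ν Λ) (iΛ : Λ → Y) (hi : Function.Injective iΛ) {D : Set Λ}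
    (hD : Club ν D) : U (fun u => chi (∀ d, IsLUB {a | iΛ a ∈ u.1} d → d ∈ D)) = ⊤ := by
  obtain ⟨a0, -⟩ := hΛ ∅ (by simp)
  have hub : ∀ a b : Λ, ∃ c ∈ D, a ≤ c ∧ b ≤ c := by
    intro a b
    obtain ⟨c, hc⟩ := hΛ {a, b} (by
      have h1 : ({a, b} : Set Λ).Countable := (Set.toFinite _).countable
      exact (Cardinal.le_aleph0_iff_set_countable.2 h1).trans hν)
    obtain ⟨c', hc', h2⟩ := hD.cof c
    exact ⟨c', hc', (hc a (by simp)).trans h2, (hc b (by simp)).trans h2⟩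
  choose g hg hg1 hg2 using hub
  refine ae_and hU (hU.fine (iΛ a0)) (ae_ub hU hκ iΛ hi g) fun u h1 h2 d hd => ?_
  have hsub : {a | a ∈ D ∧ iΛ a ∈ u.1} ⊆ D := fun a ha => ha.1
  refine cld_dir hν hS hD.cld hsub ⟨g a0 a0, hg _ _, h2 _ _ h1 h1⟩ ?_ ?_ d ⟨?_, ?_⟩
  · intro a ha b hb
    exact ⟨g a b, ⟨hg _ _, h2 a b ha.2 hb.2⟩, hg1 a b, hg2 a b⟩
  · have h3 : #{a | a ∈ D ∧ iΛ a ∈ u.1} ≤ #u.1 :=
      Cardinal.mk_le_of_injective (f := fun x : {a | a ∈ D ∧ iΛ a ∈ u.1} =>
        (⟨iΛ x.1, x.2.2⟩ : u.1)) fun x y hxy => Subtype.ext (hi (congrArg (fun t => t.1) hxy))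
    exact h3.trans (u.2.le.trans hκν)
  · intro a ha
    exact hd.1 ha.2
  · intro y hy
    refine hd.2 fun a ha => ?_
    exact (hg1 a a).trans (hy ⟨hg a a, h2 a a ha ha⟩)

end STP
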