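import Pool.Agent.STP.IDef
import Pool.Agent.STP.Cov
import Pool.Agent.STP.Tree
import Pool.Agent.STP.Cls
import Pool.Agent.STP.Rec
import Pool.Agent.STP.Thr

/-! # Closed forcing adds no threads, strong form (package I3)

(problem MP_e44aae_lc, project STP, ITP extension, text `/team-store/ITPinf.md`, section 5')

Copy of `Split.lean` and `Closed.lean` with the stronger conclusion: the new thread `th` over `T × R1 × R2` agrees, below some `p`, with a thread `th'` over `T × R1`. In the proof by contradiction the hypothesis `hno` becomes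
`∀ p ≤ (t0, r0, ρ0), ∀ th', IsThr S.rel (p.1, p.2.1) th' → ¬ ∀ q ≤ p, ∀ a ξ, th q a ξ → th' (q.1, q.2.1) a ξ`. It is used only in `split1`: there the thread `th1 p a ξ := p ≤ (t, r) ∧ ∃ ρ1 ≤ ρ', th (p.1, p.2, ρ1) a ξ` below `(t, r)` satisfies, for `q ≤ (t, r, ρ')`: `th q a ξ → th1 (q.1, q.2.1) a ξ` (take `ρ1 = q.2.2`), so it contradicts
`hno (t, r, ρ')`. Everything else is unchanged (`split2`, `tree`, `COV`, `no_collapse`, ...). Make private copies of the lemmas of `Split.lean`, `Closed.lean` in this file. -/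

universe u

namespace STP

open Cardinal

section

variable {T R1 R2 Λ N : Type u} [Preorder T] [Preorder R1] [Preorder R2] [Preorder Λ]

private theorem isplit1 (S : Sys (T × R1) Λ N) {t0 : T} {r0 : R1} {ρ0 : R2}
    {th : T × R1 × R2 → Λ → N → Prop}
    (hth : IsThr (fun p a b ξ ζ => S.rel (p.1, p.2.1) a b ξ ζ) (t0, r0, ρ0) th)
    (hno : ∀ p ≤ (t0, r0, ρ0), ∀ th', IsThr S.rel (p.1, p.2.1) th' →
      ¬ ∀ q ≤ p, ∀ a ξ, th q a ξ → th' (q.1, q.2.1) a ξ)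
    {t : T} {r : R1} {ρ ρ' : R2} (ht : t ≤ t0) (hr : r ≤ r0) (hρ : ρ ≤ ρ0) (hρ' : ρ' ≤ ρ0) :
    ∃ t' ≤ t, ∃ r' ≤ r, ∃ ρ1 ≤ ρ, ∃ ρ1' ≤ ρ', ∃ a ξ ξ', ξ ≠ ξ' ∧
      th (t', r', ρ1) a ξ ∧ th (t', r', ρ1') a ξ' := by
  by_contra hcon
  push Not at hcon
  have key : ∀ t' ≤ t, ∀ r' ≤ r, ∀ ρ1 ≤ ρ, ∀ ρ1' ≤ ρ', ∀ a ξ ξ', th (t', r', ρ1) a ξ →
      th (t', r', ρ1') a ξ' → ξ = ξ' := by
    intro t' ht' r' hr' ρ1 hρ1 ρ1' hρ1' a ξ ξ' h1 h2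
    by_contra h3
    exact hcon t' ht' r' hr' ρ1 hρ1 ρ1' hρ1' a ξ ξ' h3 h1 h2
  refine hno (t, r, ρ') ⟨ht, hr, hρ'⟩
    (fun p a ξ => p ≤ (t, r) ∧ ∃ ρ1 ≤ ρ', th (p.1, p.2, ρ1) a ξ) ⟨?_, ?_, ?_⟩
    (fun q hq a ξ h => ⟨⟨hq.1, hq.2.1⟩, q.2.2, hq.2.2, h⟩)
  · rintro p q a ξ hq ⟨hp, ρ1, hρ1, h1⟩
    exact ⟨hq.trans hp, ρ1, hρ1, hth.mono (p := (p.1, p.2, ρ1)) ⟨hq.1, hq.2, le_rfl⟩ h1⟩
  · intro a p hp
    obtain ⟨q, hq, ξ, h1⟩ := hth.tot a (p.1, p.2, ρ') ⟨hp.1.trans ht, hp.2.trans hr, hρ'⟩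
    exact ⟨(q.1, q.2.1), ⟨hq.1, hq.2.1⟩, ξ, ⟨hq.1.trans hp.1, hq.2.1.trans hp.2⟩, q.2.2,
      hq.2.2, h1⟩
  · rintro p a b ξ ζ hp hab ⟨_, ρ1, hρ1, h1⟩ ⟨_, ρ2, hρ2, h2⟩
    refine S.loc fun q hq => ?_
    have hq0 : ((q.1, q.2, ρ) : T × R1 × R2) ≤ (t0, r0, ρ0) :=
      ⟨(hq.1.trans hp.1).trans ht, (hq.2.trans hp.2).trans hr, hρ⟩
    obtain ⟨s1, hs1, ξa, h3⟩ := hth.tot a _ hq0
    obtain ⟨s2, hs2, ξb, h4⟩ := hth.tot b s1 (hs1.trans hq0)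
    have h3' := hth.mono hs2 h3
    have hs := hs2.trans hs1
    have e1 : ξa = ξ := key s2.1 (hs.1.trans (hq.1.trans hp.1)) s2.2.1
      (hs.2.1.trans (hq.2.trans hp.2)) s2.2.2 hs.2.2 ρ1 hρ1 a ξa ξ h3'
      (hth.mono (p := (p.1, p.2, ρ1)) ⟨hs.1.trans hq.1, hs.2.1.trans hq.2, le_rfl⟩ h1)
    have e2 : ξb = ζ := key s2.1 (hs.1.trans (hq.1.trans hp.1)) s2.2.1
      (hs.2.1.trans (hq.2.trans hp.2)) s2.2.2 hs.2.2 ρ2 hρ2 b ξb ζ h4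
      (hth.mono (p := (p.1, p.2, ρ2)) ⟨hs.1.trans hq.1, hs.2.1.trans hq.2, le_rfl⟩ h2)
    refine ⟨(s2.1, s2.2.1), ⟨hs.1, hs.2.1⟩, ?_⟩
    have h5 := hth.coh (hs.trans hq0) hab h3' h4
    rw [← e1, ← e2]
    exact h5

private theorem isplit2 (S : Sys (T × R1) Λ N) {τ : Cardinal.{u}} (hT : #T ≤ τ)
    (h1 : DC (Order.succ τ) R1) (h2 : DC (Order.succ τ) R2) {t0 : T} {r0 : R1} {ρ0 : R2}
    {th : T × R1 × R2 → Λ → N → Prop}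
    (hth : IsThr (fun p a b ξ ζ => S.rel (p.1, p.2.1) a b ξ ζ) (t0, r0, ρ0) th)
    (hno : ∀ p ≤ (t0, r0, ρ0), ∀ th', IsThr S.rel (p.1, p.2.1) th' →
      ¬ ∀ q ≤ p, ∀ a ξ, th q a ξ → th' (q.1, q.2.1) a ξ)
    {r : R1} {ρ ρ' : R2} (hr : r ≤ r0) (hρ : ρ ≤ ρ0) (hρ' : ρ' ≤ ρ0) :
    ∃ r' ≤ r, ∃ ρ1 ≤ ρ, ∃ ρ1' ≤ ρ', ∀ t ≤ t0, ∃ t' ≤ t, ∃ a ξ ξ', ξ ≠ ξ' ∧
      th (t', r', ρ1) a ξ ∧ th (t', r', ρ1') a ξ' := by
  have hop : ∀ (s : {t // t ≤ t0}) (q q' : R1 × R2 × R2), q' ≤ q →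
      (∃ t' ≤ s.1, ∃ a ξ ξ', ξ ≠ ξ' ∧ th (t', q.1, q.2.1) a ξ ∧ th (t', q.1, q.2.2) a ξ') →
      (∃ t' ≤ s.1, ∃ a ξ ξ', ξ ≠ ξ' ∧ th (t', q'.1, q'.2.1) a ξ ∧
        th (t', q'.1, q'.2.2) a ξ') := by
    rintro s q q' hq ⟨t', ht', a, ξ, ξ', h4, h5, h6⟩
    exact ⟨t', ht', a, ξ, ξ', h4, hth.mono (p := (t', q.1, q.2.1)) ⟨le_rfl, hq.1, hq.2.1⟩ h5,
      hth.mono (p := (t', q.1, q.2.2)) ⟨le_rfl, hq.1, hq.2.2⟩ h6⟩
  have hd : ∀ s : {t // t ≤ t0}, ∀ q : R1 × R2 × R2, q ≤ (r, ρ, ρ') → ∃ q' : R1 × R2 × R2,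
      q' ≤ q ∧ (∃ t' ≤ s.1, ∃ a ξ ξ', ξ ≠ ξ' ∧ th (t', q'.1, q'.2.1) a ξ ∧
        th (t', q'.1, q'.2.2) a ξ') := by
    intro s q hq
    obtain ⟨t', ht', r', hr', ρ1, hρ1, ρ1', hρ1', a, ξ, ξ', h4, h5, h6⟩ :=
      isplit1 S hth hno s.2 (hq.1.trans hr) (hq.2.1.trans hρ) (hq.2.2.trans hρ')
    exact ⟨(r', ρ1, ρ1'), ⟨hr', hρ1, hρ1'⟩, t', ht', a, ξ, ξ', h4, h5, h6⟩
  obtain ⟨q, hq, h3⟩ := REC (h1.prod (h2.prod h2)) (J := {t // t ≤ t0})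
    (lt_of_le_of_lt ((mk_subtype_le _).trans hT) (Order.lt_succ τ)) _ (r, ρ, ρ') hop hd
  exact ⟨q.1, hq.1, q.2.1, hq.2.1, q.2.2, hq.2.2, fun t ht => h3 ⟨t, ht⟩⟩

end

theorem closed_thr' {T R1 R2 Λ N : Type u} [Preorder T] [Preorder R1] [Preorder R2] [Preorder Λ]
    {ν τ : Cardinal.{u}} (hν : ℵ₀ ≤ ν) (hN : #N = ν) (hs : ∀ x < ν, 2 ^ x < ν)
    (hτ : 2 ^ ν ≤ τ) (hT : #T ≤ τ) (hc : COV ν T) (hΛ : Dir ν Λ)
    (h1 : DC (Order.succ τ) R1) (h2 : DC (Order.succ τ) R2)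
    (S : Sys (T × R1) Λ N) {t0 : T} {r0 : R1} {ρ0 : R2} {th : T × R1 × R2 → Λ → N → Prop}
    (hth : IsThr (fun p a b ξ ζ => S.rel (p.1, p.2.1) a b ξ ζ) (t0, r0, ρ0) th) :
    ∃ p ≤ (t0, r0, ρ0), ∃ th', IsThr S.rel (p.1, p.2.1) th' ∧
      ∀ q ≤ p, ∀ a ξ, th q a ξ → th' (q.1, q.2.1) a ξ := by
  classical
  by_contra hcon
  have hno : ∀ p ≤ (t0, r0, ρ0), ∀ th', IsThr S.rel (p.1, p.2.1) th' →
      ¬ ∀ q ≤ p, ∀ a ξ, th q a ξ → th' (q.1, q.2.1) a ξ := fun p hp th' h h' =>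
    hcon ⟨p, hp, th', h, h'⟩
  have hmono : ∀ {t t' : T} {r r' : R1} {ρ ρ' : R2} {a : Λ} {ξ : N}, t' ≤ t → r' ≤ r →
      ρ' ≤ ρ → th (t, r, ρ) a ξ → th (t', r', ρ') a ξ := by
    intro t t' r r' ρ ρ' a ξ ht hr hρ h
    exact hth.mono (p := (t, r, ρ)) (q := (t', r', ρ')) ⟨ht, hr, hρ⟩ h
  have hντ : ν ≤ τ := (Cardinal.cantor ν).le.trans hτ
  have hτ0 : ℵ₀ ≤ τ := hν.trans hντ
  let I : Type u := ν.ord.ToType
  have hI : #I = ν := Cardinal.mk_ord_toType ν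
  have hIio : ∀ i : I, #{j : I // j < i} < ν := by
    intro i
    have h3 := Cardinal.mk_Iio_lt i (by rw [hI]; exact (Ordinal.type_toType _).symm)
    rw [hI] at h3
    exact h3
  let Sp : R1 → R2 → R2 → Prop := fun r ρ σ => ∀ t ≤ t0, ∃ t' ≤ t, ∃ a ξ ξ', ξ ≠ ξ' ∧
    th (t', r, ρ) a ξ ∧ th (t', r, σ) a ξ'
  obtain ⟨e, r1, ρ, hr1, hρ, hSp, hre, hbr⟩ := tree (I := I) hτ0 (by rw [hI]; exact hτ) h1 h2 r0 ρ0
    Sp (fun r hr ρ hρ σ hσ => isplit2 S hT h1 h2 hth hno hr hρ hσ)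
  have hJ : #(Σ i : I, ({j : I // j < i} → Bool)) ≤ ν := by
    rw [Cardinal.mk_sigma]
    have h3 : Cardinal.sum (fun i : I => #({j : I // j < i} → Bool)) ≤
        Cardinal.sum (fun _ : I => ν) := by
      refine Cardinal.sum_le_sum _ _ fun i => ?_
      have h4 : #({j : I // j < i} → Bool) = 2 ^ #{j : I // j < i} := by simp
      rw [h4]
      exact (hs _ (hIio i)).le
    refine h3.trans ?_
    rw [Cardinal.sum_const', hI, Cardinal.mul_eq_self hν]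
  obtain ⟨t1, ht1, A, hA, hcov⟩ := hc (Σ i : I, ({j : I // j < i} → Bool)) Λ hJ
    (fun is t a => ∃ ξ ξ', ξ ≠ ξ' ∧ th (t, (e is.1 is.2).1, (e is.1 is.2).2.1) a ξ ∧
      th (t, (e is.1 is.2).1, (e is.1 is.2).2.2) a ξ')
    (by
      rintro is t t' a ht ⟨ξ, ξ', hne, h3, h4⟩
      exact ⟨ξ, ξ', hne, hmono ht le_rfl le_rfl h3, hmono ht le_rfl le_rfl h4⟩) t0
    (by
      rintro ⟨i, s⟩ t ht
      obtain ⟨t', ht', a, ξ, ξ', hne, h3, h4⟩ := hSp i s t ht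
      exact ⟨t', ht', a, ξ, ξ', hne, h3, h4⟩)
  obtain ⟨a0, ha0⟩ := hΛ A hA
  have hE : #(I → Bool) = 2 ^ ν := by simp [hI]
  have hP : DC (Order.succ τ) (R1 × ((I → Bool) → R2)) := DC.prod h1 (DC.pi fun _ => h2)
  have hJ' : #((I → Bool) × {t // t ≤ t1}) < Order.succ τ := by
    rw [Order.lt_succ_iff, Cardinal.mk_prod, Cardinal.lift_id, Cardinal.lift_id, hE]
    have h3 : #{t // t ≤ t1} ≤ τ := (Cardinal.mk_subtype_le _).trans hT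
    calc 2 ^ ν * #{t // t ≤ t1} ≤ τ * τ := mul_le_mul' hτ h3
      _ = τ := Cardinal.mul_eq_self hτ0
  obtain ⟨⟨r, η⟩, hrη, hD⟩ := REC hP hJ'
    (fun ft q => ∃ t' ≤ ft.2.1, ∃ ξ, th (t', q.1, q.2 ft.1) a0 ξ) (r1, ρ)
    (by
      rintro ⟨f, t⟩ q q' hq ⟨t', ht', ξ, h3⟩
      exact ⟨t', ht', ξ, hmono le_rfl hq.1 (hq.2 f) h3⟩)
    (by
      rintro ⟨f, t, ht⟩ ⟨q1, q2⟩ hq
      obtain ⟨⟨t', r', ρ'⟩, hle, ξ, h3⟩ := hth.tot a0 (t, q1, q2 f)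
        ⟨ht.trans ht1, hq.1.trans hr1, (hq.2 f).trans (hρ f)⟩
      refine ⟨(r', Function.update q2 f ρ'), ⟨hle.2.1, fun g => ?_⟩, t', hle.1, ξ, ?_⟩
      · by_cases hg : g = f
        · subst hg
          show Function.update q2 g ρ' g ≤ q2 g
          rw [Function.update_self]
          exact hle.2.2
        · show Function.update q2 f ρ' g ≤ q2 g
          rw [Function.update_of_ne hg]
      · show th (t', r', Function.update q2 f ρ' f) a0 ξ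
        rw [Function.update_self]
        exact h3)
  have hr1' : r ≤ r1 := hrη.1
  have hη : ∀ f, η f ≤ ρ f := hrη.2
  obtain ⟨t3, ht3, f, f', hne, ξ, h3, h4⟩ := no_collapse hc hN.le
    (show ν < #(I → Bool) by rw [hE]; exact Cardinal.cantor ν)
    (fun f t ξ => th (t, r, η f) a0 ξ)
    (fun f t t' ξ ht h => hmono ht le_rfl le_rfl h) t1
    (fun f t ht => by
      obtain ⟨t', ht', ξ, h3⟩ := hD (f, ⟨t, ht⟩)
      exact ⟨t', ht', ξ, h3⟩)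
  have key : ∀ (f f' : I → Bool) (i : I), (∀ j < i, f j = f' j) → f i = false → f' i = true →
      ∀ ξ, th (t3, r, η f) a0 ξ → th (t3, r, η f') a0 ξ → False := by
    intro f f' i hij hfi hfi' ξ h3 h4
    obtain ⟨t4, ht4, a, haA, ξ1, ξ2, hne12, h5, h6⟩ := hcov ⟨i, fun j => f j.1⟩ t3 ht3
    have hse : (fun j : {j : I // j < i} => f' j.1) = fun j => f j.1 := by
      funext j
      exact (hij j.1 j.2).symm
    have h7 : η f ≤ (e i fun j => f j.1).2.1 := by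
      have h8 := hbr f i
      rw [hfi] at h8
      exact (hη f).trans h8
    have h8 : η f' ≤ (e i fun j => f j.1).2.2 := by
      have h9 := hbr f' i
      rw [hfi', hse] at h9
      exact (hη f').trans h9
    have hre' : r ≤ (e i fun j => f j.1).1 := hr1'.trans (hre i _)
    have h9 : th (t4, r, η f) a ξ1 := hmono le_rfl hre' h7 h5
    have h10 : th (t4, r, η f') a ξ2 := hmono le_rfl hre' h8 h6
    have h11 : th (t4, r, η f) a0 ξ := hmono ht4 le_rfl le_rfl h3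
    have h12 : th (t4, r, η f') a0 ξ := hmono ht4 le_rfl le_rfl h4
    have ht40 : t4 ≤ t0 := ht4.trans (ht3.trans ht1)
    have h13 := hth.coh (p := (t4, r, η f))
      ⟨ht40, hr1'.trans hr1, (hη f).trans (hρ f)⟩ (ha0 a haA) h9 h11
    have h14 := hth.coh (p := (t4, r, η f'))
      ⟨ht40, hr1'.trans hr1, (hη f').trans (hρ f')⟩ (ha0 a haA) h10 h12
    exact hne12 (S.fn h13 h14)
  obtain ⟨i, hi, hmin⟩ := WellFounded.has_min (wellFounded_lt (α := I)) {i | f i ≠ f' i}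
    (Function.ne_iff.1 hne)
  have hij : ∀ j < i, f j = f' j := by
    intro j hj
    by_contra hcj
    exact hmin j hcj hj
  cases hfi : f i with
  | false =>
    have hfi' : f' i = true := by
      cases hx : f' i with
      | false => exact absurd (hfi.trans hx.symm) hi
      | true => rfl
    exact key f f' i hij hfi hfi' ξ h3 h4
  | true =>
    have hfi' : f' i = false := by
      cases hx : f' i with
      | false => rfl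
      | true => exact absurd (hfi.trans hx.symm) hi
    exact key f' f i (fun j hj => (hij j hj).symm) hfi' hfi ξ h4 h3


end STP
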