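import Pool.Agent.STP.Cls
import Pool.Agent.STP.Rec
import Pool.Agent.STP.Thr

/-! # The abstract cover lemma (package I8)

(problem MP_e44aae_lc, project STP, ITP extension, text `/team-store/ITPinf.md`, 7', Steps 1-4, COVER abstract; compare `ATL.lean`, `ATLa.lean`, whose proofs are very similar)

`Gm` is a preorder with a monotone projection `p : Gm → Q` and lifting of directed sets (`hCL`), `S k` a total system over `Q × Lk k`; `Dec k g l a ξ`: `(g, l)` decides that the generic thread with index `k` has the node `ξ` at `a`.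
Preliminaries: `hCL1`: for `q ≤ p g` there is `g' ≤ g` with `p g' = q`. `Gm` is `DC (succ (succ χ))` (lower bound of the projections by `hQ`, then `hCL`). `Dec` is single valued for `g ≤ g0`: `hcoh` (`a = b`) and `(S k).fn`.
`Sep k g1 g2 l a := ∀ l' ≤ l, ∀ g1' ≤ g1, ∀ g2' ≤ g2, p g1' = p g2' → ∀ ξ, ¬ (Dec k g1' l' a ξ ∧ Dec k g2' l' a ξ)`. It is monotone in `g1, g2, l` and, for `g1, g2 ≤ g0`, in `a`: if `a ≤ a'` and `Dec k g1' l' a' ξ'`, `Dec k g2' l' a' ξ'`, `p g1' = p g2'`, then `(S k).tot` gives `(q, l'') ≤ (p g1', l')` and `ξ` with `rel (q, l'') a a' ξ ξ'`; lift `g1'`, `g2'` to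
projection `q`; `hdown` gives `Dec .. a ξ` for both.
`Good k l g := ∀ g1 ≤ g, ∀ g2 ≤ g, p g1 = p g2 → ∀ l' ≤ l, ∀ a, ¬ Sep k g1 g2 l' a`: monotone in `g` and `l`.
Step 1. `REC` for `Gm`, index set `Σ k, Lk k` (at most `χ` elements), open dense sets `{g | (∃ l' ≤ l, Good k l' g) ∨ ∀ g' ≤ g, ∀ l' ≤ l, ¬ Good k l' g'}`: `g1 ≤ g0`. Call `(k, l)` hopeless if `∀ g' ≤ g1, ∀ l' ≤ l, ¬ Good k l' g'`; otherwise some `l' ≤ l` is good at `g1`.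
Step 2. `Gd k := {l | Good k l g1}`, `th k l x a ξ := ∃ g' ≤ g1, x.1 ≤ p g' ∧ Dec k g' x.2 a ξ`. Thread of `S k` below `(q1, l)` for every `q1 ≤ p g1`: `mono`; `tot` at `x ≤ (q1, l)`: lift `g1` to `g'` with `p g' = x.1`; `¬ Sep k g' g' x.2 a` gives `l' ≤ x.2`, `h1, h2 ≤ g'`, `ξ` with `Dec k h1 l' a ξ`; the condition `(p h1, l')`.
`coh`: `th x a ξ` by `g'`, `th x b ζ` by `g''`, `a ≤ b`. By `loc` let `y ≤ x`; lift `g'`, `g''` to the projection `y.1`; `¬ Sep .. y.2 b`: `l' ≤ y.2`, `h1 ≤ g'`, `h2 ≤ g''`, `p h1 = p h2`, `η` with `Dec k h1 l' b η`, `Dec k h2 l' b η`; `Dec k h2 l' b ζ`, so `η = ζ`; `hcoh` for `h1`: `rel (p h1, l') a b ξ ζ`.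
Step 3. `(k, l)` hopeless, `g', g'' ≤ g1`, `p g' = p g''`, `l0 ≤ l`: there are `h' ≤ g'`, `h'' ≤ g''` with `p h' = p h''`, `l' ≤ l0`, `a` with `Sep k h' h'' l' a`. Otherwise (all such pairs are not separated): `¬ Good k l0 g'` gives `g11, g12 ≤ g'`, `p g11 = p g12`, `l2 ≤ l0`, `a` with `Sep k g11 g12 l2 a`. Lift `g''` to `p g11`: the pair `(g11, g''_)` is not
separated at `(l2, a)`: `l3`, `h1 ≤ g11`, `h2 ≤ g''_`, same projection, `ξ`. Lift `g12` to `p h1`: the pair `(g12_, h2)` is not separated at `(l3, a)`: `l4 ≤ l3`, `f1 ≤ g12_`, `f2 ≤ h2`, `ξ'`; `Dec k f2 l4 a ξ` and `Dec k f2 l4 a ξ'`, so `ξ = ξ'`. Lift `h1` to `p f1`: `Dec k h1_ l4 a ξ`, `Dec k f1 l4 a ξ` contradict `Sep k g11 g12 l2 a`.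
Step 4. `E`, `#E = succ χ`, `EE := {x : Q × (E → Gm) // ∀ f, p (x.2 f) = x.1}` as in `ATL.lean` (`DC (succ (succ χ))`). `REC` below the constant family at `g1`, index set `{(f, f') // f ≠ f'} × {(k, l) hopeless}`: `x1`, and for each index `l' ≤ l` and `a` with `Sep k (x1.2 f) (x1.2 f') l' a`. `a0` := an upper bound of all these `a`, `q1 := x1.1`.
COVER. Suppose `a0 ≤ a`, `q ≤ q1` and for every `g ≤ g1` with `p g ≤ q` there are `g' ≤ g`, `k, l`, `ξ ∈ N0` with `Dec k g' l a ξ` and no `l1 ∈ Gd k`, `l1 ≤ l`, `q' ≤ p g'` with `th k l1 (q', l1) a ξ`. Move `x1` to the projection `q`, `REC` with index set `E`: `x3` and `k f, l f, ξ f` for all `f` (`x3.2 f ≤ x1.2 f ≤ g1`). Pigeonhole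
(`#(Σ k, Lk k × N0) ≤ χ < #E`): `f ≠ f'` with the same `k, l, ξ`. If `(k, l)` is hopeless: `Sep k (x1.2 f) (x1.2 f') l' a0'` with `a0' ≤ a0 ≤ a`, `l' ≤ l`, and both `x3.2 f`, `x3.2 f'` decide `ξ` at `a`: contradiction. Otherwise `l1 ≤ l`, `l1 ∈ Gd k`, and `th k l1 (x3.1, l1) a ξ` by `x3.2 f`: contradiction. -/

universe u

namespace STP

open Cardinal

section One

variable {L Q Gm Λ N : Type u} [Preorder L] [Preorder Q] [Preorder Gm] [Preorder Λ]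

/-- `a` separates the pair `(g1, g2)` at `l` -/
private def SepI (p : Gm → Q) (Dec : Gm → L → Λ → N → Prop) (g1 g2 : Gm) (l : L) (a : Λ) : Prop :=
  ∀ l' ≤ l, ∀ g1' ≤ g1, ∀ g2' ≤ g2, p g1' = p g2' → ∀ ξ, ¬ (Dec g1' l' a ξ ∧ Dec g2' l' a ξ)

private theorem SepI.mono {p : Gm → Q} {Dec : Gm → L → Λ → N → Prop} {g1 g2 g1' g2' : Gm}
    {l l' : L} {a : Λ} (h : SepI p Dec g1 g2 l a) (h1 : g1' ≤ g1) (h2 : g2' ≤ g2) (hl : l' ≤ l) :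
    SepI p Dec g1' g2' l' a := fun l'' hl'' g1'' hg1 g2'' hg2 hpp ξ =>
  h l'' (hl''.trans hl) g1'' (hg1.trans h1) g2'' (hg2.trans h2) hpp ξ

private theorem SepI.not {p : Gm → Q} {Dec : Gm → L → Λ → N → Prop} {g1 g2 : Gm} {l : L} {a : Λ}
    (h : ¬ SepI p Dec g1 g2 l a) : ∃ l' ≤ l, ∃ h1 ≤ g1, ∃ h2 ≤ g2, p h1 = p h2 ∧ ∃ ξ,
      Dec h1 l' a ξ ∧ Dec h2 l' a ξ := by
  by_contra hc
  exact h fun l' hl' g1' hg1 g2' hg2 hpp ξ hd => hc ⟨l', hl', g1', hg1, g2', hg2, hpp, ξ, hd⟩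

/-- no pair below `g` is separated below `l` -/
private def GoodI (p : Gm → Q) (Dec : Gm → L → Λ → N → Prop) (l : L) (g : Gm) : Prop :=
  ∀ g1 ≤ g, ∀ g2 ≤ g, p g1 = p g2 → ∀ l' ≤ l, ∀ a, ¬ SepI p Dec g1 g2 l' a

private theorem GoodI.mono {p : Gm → Q} {Dec : Gm → L → Λ → N → Prop} {l : L} {g g' : Gm}
    (h : GoodI p Dec l g) (hg : g' ≤ g) : GoodI p Dec l g' := fun g1 h1 g2 h2 hpp l' hl' a =>
  h g1 (h1.trans hg) g2 (h2.trans hg) hpp l' hl' a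

variable (p : Gm → Q) (hp : Monotone p) (hCL1 : ∀ g, ∀ q ≤ p g, ∃ g' ≤ g, p g' = q)
  (Dec : Gm → L → Λ → N → Prop)
  (hDec : ∀ g g' l l' a ξ, g' ≤ g → l' ≤ l → Dec g l a ξ → Dec g' l' a ξ)
  (S : Sys (Q × L) Λ N) (g0 : Gm)
  (hcoh : ∀ g l a b ξ ζ, g ≤ g0 → a ≤ b → Dec g l a ξ → Dec g l b ζ → S.rel (p g, l) a b ξ ζ)
  (hdown : ∀ g l a b ξ ζ, g ≤ g0 → a ≤ b → Dec g l b ζ → S.rel (p g, l) a b ξ ζ → Dec g l a ξ)

include hcoh in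
private theorem singleI {g : Gm} (hg : g ≤ g0) {l : L} {a : Λ} {ξ ξ' : N} (h : Dec g l a ξ)
    (h' : Dec g l a ξ') : ξ = ξ' :=
  S.fn (hcoh g l a a ξ ξ' hg le_rfl h h') (hcoh g l a a ξ' ξ' hg le_rfl h' h')

include hCL1 hDec hdown in
private theorem sepI_up {g1 g2 : Gm} (hg1 : g1 ≤ g0) (hg2 : g2 ≤ g0) {l : L} {a a' : Λ}
    (ha : a ≤ a') (h : SepI p Dec g1 g2 l a) : SepI p Dec g1 g2 l a' := by
  rintro l' hl' g1' hg1' g2' hg2' hpp ξ' ⟨d1, d2⟩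
  obtain ⟨⟨q, l''⟩, hq, ξ, hr⟩ := S.tot ha (p g1', l') ξ'
  have hq1 : q ≤ p g1' := hq.1
  have hl'' : l'' ≤ l' := hq.2
  obtain ⟨h1, hh1, hp1⟩ := hCL1 g1' q hq1
  obtain ⟨h2, hh2, hp2⟩ := hCL1 g2' q (hpp ▸ hq1)
  have e1 : Dec h1 l'' a ξ := by
    refine hdown h1 l'' a a' ξ ξ' ((hh1.trans hg1').trans hg1) ha
      (hDec _ _ _ _ _ _ hh1 hl'' d1) ?_
    rw [hp1]
    exact hr
  have e2 : Dec h2 l'' a ξ := by
    refine hdown h2 l'' a a' ξ ξ' ((hh2.trans hg2').trans hg2) ha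
      (hDec _ _ _ _ _ _ hh2 hl'' d2) ?_
    rw [hp2]
    exact hr
  exact h l'' (hl''.trans hl') h1 (hh1.trans hg1') h2 (hh2.trans hg2') (hp1.trans hp2.symm) ξ
    ⟨e1, e2⟩

include hp hCL1 hDec hcoh in
private theorem thrI {g1 : Gm} (hg1 : g1 ≤ g0) {q1 : Q} (hq1 : q1 ≤ p g1) {l : L}
    (hG : GoodI p Dec l g1) :
    IsThr S.rel (q1, l) (fun x a ξ => ∃ g' ≤ g1, x.1 ≤ p g' ∧ Dec g' x.2 a ξ) := by
  refine ⟨?_, ?_, ?_⟩
  · rintro x y a ξ hyx ⟨g', hg', hx, d⟩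
    exact ⟨g', hg', hyx.1.trans hx, hDec _ _ _ _ _ _ le_rfl hyx.2 d⟩
  · intro a x hx
    obtain ⟨g', hg', hpg'⟩ := hCL1 g1 x.1 (hx.1.trans hq1)
    obtain ⟨l', hl', h1, hh1, h2, hh2, hpp, ξ, d1, d2⟩ :=
      SepI.not (hG g' hg' g' hg' rfl x.2 hx.2 a)
    exact ⟨(p h1, l'), ⟨(hp hh1).trans_eq hpg', hl'⟩, ξ, h1, hh1.trans hg', le_rfl, d1⟩
  · rintro x a b ξ ζ hx hab ⟨g', hg', hxg', d'⟩ ⟨g'', hg'', hxg'', d''⟩
    apply S.loc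
    intro y hy
    obtain ⟨k1, hk1, hpk1⟩ := hCL1 g' y.1 (hy.1.trans hxg')
    obtain ⟨k2, hk2, hpk2⟩ := hCL1 g'' y.1 (hy.1.trans hxg'')
    obtain ⟨l', hl', h1, hh1, h2, hh2, hpp, η, e1, e2⟩ :=
      SepI.not (hG k1 (hk1.trans hg') k2 (hk2.trans hg'') (hpk1.trans hpk2.symm) y.2
        (hy.2.trans hx.2) b)
    have hlx : l' ≤ x.2 := hl'.trans hy.2
    have v2 : Dec h2 l' b ζ := hDec _ _ _ _ _ _ (hh2.trans hk2) hlx d''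
    have hηζ : η = ζ := singleI p Dec S g0 hcoh
      ((((hh2.trans hk2)).trans hg'').trans hg1) e2 v2
    have v1 : Dec h1 l' a ξ := hDec _ _ _ _ _ _ (hh1.trans hk1) hlx d'
    have w := hcoh h1 l' a b ξ η (((hh1.trans hk1).trans hg').trans hg1) hab v1 e1
    rw [hηζ] at w
    exact ⟨(p h1, l'), ⟨(hp hh1).trans_eq hpk1, hl'⟩, w⟩

include hp hCL1 hDec hcoh in
private theorem hopeI {g1 : Gm} (hg1 : g1 ≤ g0) {l : L}
    (hH : ∀ g' ≤ g1, ∀ l' ≤ l, ¬ GoodI p Dec l' g') {g' g'' : Gm} (hg' : g' ≤ g1)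
    (hg'' : g'' ≤ g1) (hpp : p g' = p g'') {l0 : L} (hl0 : l0 ≤ l) :
    ∃ h1 ≤ g', ∃ h2 ≤ g'', p h1 = p h2 ∧ ∃ l' ≤ l0, ∃ a, SepI p Dec h1 h2 l' a := by
  by_contra hcon
  have hns : ∀ h1 ≤ g', ∀ h2 ≤ g'', p h1 = p h2 → ∀ l' ≤ l0, ∀ a, ¬ SepI p Dec h1 h2 l' a :=
    fun h1 hh1 h2 hh2 hpp l' hl' a hs => hcon ⟨h1, hh1, h2, hh2, hpp, l', hl', a, hs⟩
  apply hH g' hg' l0 hl0
  intro g11 h11 g12 h12 hpp1 l2 hl2 a hS
  obtain ⟨k, hk, hpk⟩ := hCL1 g'' (p g11) (hpp ▸ hp h11)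
  obtain ⟨l3, hl3, h1, hh1, h2, hh2, hp12, ξ, d1, d2⟩ :=
    SepI.not (hns g11 h11 k hk hpk.symm l2 hl2 a)
  obtain ⟨m, hm, hpm⟩ := hCL1 g12 (p h1) (hpp1 ▸ hp hh1)
  obtain ⟨l4, hl4, f1, hf1, f2, hf2, hpf, ξ', e1, e2⟩ :=
    SepI.not (hns m (hm.trans h12) h2 (hh2.trans hk) (hpm.trans hp12) l3 (hl3.trans hl2) a)
  have v2 : Dec f2 l4 a ξ := hDec _ _ _ _ _ _ hf2 hl4 d2
  have hf20 : f2 ≤ g0 := (((hf2.trans hh2).trans hk).trans hg'').trans hg1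
  have hξ : ξ' = ξ := singleI p Dec S g0 hcoh hf20 e2 v2
  rw [hξ] at e1
  obtain ⟨h1', hh1', hph1'⟩ := hCL1 h1 (p f1) ((hp hf1).trans_eq hpm)
  exact hS l4 (hl4.trans hl3) h1' (hh1'.trans hh1) f1 (hf1.trans hm) hph1' ξ
    ⟨hDec _ _ _ _ _ _ hh1' hl4 d1, e1⟩

end One

/-- The conditions of the quotient forcing with `E` copies of the generic. -/
private abbrev EEi {Q Gm : Type u} (p : Gm → Q) (E : Type u) : Type u :=
  {x : Q × (E → Gm) // ∀ f, p (x.2 f) = x.1}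

private theorem EEi.dc {Q Gm : Type u} [Preorder Q] [Preorder Gm] {δ : Cardinal.{u}}
    (hQ : DC δ Q) (p : Gm → Q)
    (hCL : ∀ D : Set Gm, DirectedOn (· ≥ ·) D → #D < δ →
      ∀ q, (∀ d ∈ D, q ≤ p d) → ∃ g, (∀ d ∈ D, g ≤ d) ∧ p g = q) (E : Type u) :
    DC δ (EEi p E) := by
  intro D hD hc
  obtain ⟨q, hq⟩ := hQ ((fun x : EEi p E => x.1.1) '' D) (by
    rintro _ ⟨x, hx, rfl⟩ _ ⟨y, hy, rfl⟩
    obtain ⟨z, hz, h1, h2⟩ := hD x hx y hy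
    exact ⟨z.1.1, ⟨z, hz, rfl⟩, h1.1, h2.1⟩) (mk_image_le.trans_lt hc)
  have h1 : ∀ f : E, ∃ g, (∀ d ∈ (fun x : EEi p E => x.1.2 f) '' D, g ≤ d) ∧ p g = q := by
    intro f
    refine hCL _ ?_ (mk_image_le.trans_lt hc) q ?_
    · rintro _ ⟨x, hx, rfl⟩ _ ⟨y, hy, rfl⟩
      obtain ⟨z, hz, h1, h2⟩ := hD x hx y hy
      exact ⟨z.1.2 f, ⟨z, hz, rfl⟩, h1.2 f, h2.2 f⟩
    · rintro _ ⟨x, hx, rfl⟩
      have h2 := hq _ ⟨x, hx, rfl⟩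
      change q ≤ p (x.1.2 f)
      rw [x.2 f]
      exact h2
  choose g hg hgq using h1
  exact ⟨⟨(q, g), hgq⟩, fun d hd => ⟨hq _ ⟨d, hd, rfl⟩, fun f => hg f _ ⟨d, hd, rfl⟩⟩⟩

private theorem EEi.move {Q Gm : Type u} [Preorder Q] [Preorder Gm] {p : Gm → Q} {E : Type u}
    (x : EEi p E) (q : Q) (hq : q ≤ x.1.1) (P : E → Gm → Prop)
    (hP : ∀ f, ∃ g, g ≤ x.1.2 f ∧ p g = q ∧ P f g) :
    ∃ y : EEi p E, y ≤ x ∧ y.1.1 = q ∧ ∀ f, P f (y.1.2 f) := by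
  choose g hg hgq hgP using hP
  exact ⟨⟨(q, g), hgq⟩, ⟨hq, fun f => hg f⟩, rfl, hgP⟩

private theorem dcI {Q Gm : Type u} [Preorder Q] [Preorder Gm] {δ : Cardinal.{u}}
    (hQ : DC δ Q) (p : Gm → Q) (hp : Monotone p)
    (hCL : ∀ D : Set Gm, DirectedOn (· ≥ ·) D → #D < δ →
      ∀ q, (∀ d ∈ D, q ≤ p d) → ∃ g, (∀ d ∈ D, g ≤ d) ∧ p g = q) : DC δ Gm := by
  intro D hD hc
  obtain ⟨q, hq⟩ := hQ (p '' D) (by
    rintro _ ⟨x, hx, rfl⟩ _ ⟨y, hy, rfl⟩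
    obtain ⟨z, hz, h1, h2⟩ := hD x hx y hy
    exact ⟨p z, ⟨z, hz, rfl⟩, hp h1, hp h2⟩) (mk_image_le.trans_lt hc)
  obtain ⟨g, hg, -⟩ := hCL D hD hc q (fun d hd => hq _ ⟨d, hd, rfl⟩)
  exact ⟨g, hg⟩

theorem icover {Q Gm Λ N K : Type u} {Lk : K → Type u} [Preorder Q] [Preorder Gm] [Preorder Λ]
    [∀ k, Preorder (Lk k)] {χ : Cardinal.{u}} (hχ : ℵ₀ ≤ χ) (hK : #K ≤ χ)
    (hLk : ∀ k, #(Lk k) ≤ χ) (N0 : Set N) (hN0 : #N0 ≤ χ)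
    (hQ : DC (Order.succ (Order.succ χ)) Q) (p : Gm → Q) (hp : Monotone p)
    (hCL : ∀ D : Set Gm, DirectedOn (· ≥ ·) D → #D < Order.succ (Order.succ χ) →
      ∀ q, (∀ d ∈ D, q ≤ p d) → ∃ g, (∀ d ∈ D, g ≤ d) ∧ p g = q)
    (Dec : ∀ k, Gm → Lk k → Λ → N → Prop)
    (hDec : ∀ k g g' l l' a ξ, g' ≤ g → l' ≤ l → Dec k g l a ξ → Dec k g' l' a ξ)
    (S : ∀ k, Sys (Q × Lk k) Λ N) (hΛ : Dir (Order.succ χ) Λ) (g0 : Gm)
    (hcoh : ∀ k g l a b ξ ζ, g ≤ g0 → a ≤ b → Dec k g l a ξ → Dec k g l b ζ →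
      (S k).rel (p g, l) a b ξ ζ)
    (hdown : ∀ k g l a b ξ ζ, g ≤ g0 → a ≤ b → Dec k g l b ζ → (S k).rel (p g, l) a b ξ ζ →
      Dec k g l a ξ) :
    ∃ g1 ≤ g0, ∃ q1 ≤ p g1, ∃ (a0 : Λ) (Gd : ∀ k, Set (Lk k))
      (th : ∀ k, Lk k → Q × Lk k → Λ → N → Prop),
      (∀ k, ∀ l ∈ Gd k, IsThr (S k).rel (q1, l) (th k l)) ∧
      ∀ a, a0 ≤ a → ∀ q ≤ q1, ∃ g ≤ g1, p g ≤ q ∧ ∀ g' ≤ g, ∀ k l, ∀ ξ ∈ N0,
        Dec k g' l a ξ → ∃ l1 ∈ Gd k, l1 ≤ l ∧ ∃ q' ≤ p g', th k l1 (q', l1) a ξ := by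
  classical
  -- cardinals
  have hsχ : ℵ₀ ≤ Order.succ χ := hχ.trans (Order.le_succ χ)
  have hlt : Order.succ χ < Order.succ (Order.succ χ) := Order.lt_succ _
  have hCL1 : ∀ g, ∀ q ≤ p g, ∃ g' ≤ g, p g' = q := by
    intro g q hq
    obtain ⟨g', h1, h2⟩ := hCL {g} (by
      intro a ha b hb
      rw [Set.mem_singleton_iff] at ha hb
      exact ⟨g, rfl, ha.ge, hb.ge⟩) (by
      rw [mk_singleton]
      exact (one_lt_aleph0.trans_le hsχ).trans hlt) q (by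
      rintro d rfl
      exact hq)
    exact ⟨g', h1 g rfl, h2⟩
  have hKL : #(Σ k, Lk k) ≤ χ := by
    rw [mk_sigma]
    refine (sum_le_sum _ (fun _ : K => χ) hLk).trans ?_
    rw [sum_const']
    exact (mul_le_mul' hK le_rfl).trans (mul_eq_self hχ).le
  -- step 1
  obtain ⟨g1, hg1, hst1⟩ := REC (dcI hQ p hp hCL) (J := Σ k, Lk k)
    ((hKL.trans (Order.le_succ χ)).trans_lt hlt)
    (fun s g => (∃ l' ≤ s.2, GoodI p (Dec s.1) l' g) ∨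
      ∀ g' ≤ g, ∀ l' ≤ s.2, ¬ GoodI p (Dec s.1) l' g') g0 (by
    rintro s g g' hg (⟨l', hl', h⟩ | h)
    · exact Or.inl ⟨l', hl', h.mono hg⟩
    · exact Or.inr fun g'' hg'' => h g'' (hg''.trans hg)) (by
    intro s g _
    by_cases h : ∃ g' ≤ g, ∃ l' ≤ s.2, GoodI p (Dec s.1) l' g'
    · obtain ⟨g', hg', h⟩ := h
      exact ⟨g', hg', Or.inl h⟩
    · exact ⟨g, le_rfl, Or.inr fun g' hg' l' hl' h' => h ⟨g', hg', l', hl', h'⟩⟩)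
  -- step 4
  let E : Type u := (Order.succ χ).out
  have hE : #E = Order.succ χ := mk_out _
  have hEE : DC (Order.succ (Order.succ χ)) (EEi p E) := EEi.dc hQ p hCL E
  let x0 : EEi p E := ⟨(p g1, fun _ => g1), fun _ => rfl⟩
  let J2 : Type u := {z : E × E // z.1 ≠ z.2} ×
    {s : Σ k, Lk k // ∀ g' ≤ g1, ∀ l' ≤ s.2, ¬ GoodI p (Dec s.1) l' g'}
  have hJ2 : #J2 ≤ Order.succ χ := by
    have h1 : #{z : E × E // z.1 ≠ z.2} ≤ Order.succ χ := by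
      refine (mk_subtype_le _).trans ?_
      rw [mk_prod, lift_id, hE, mul_eq_self hsχ]
    have h2 : #{s : Σ k, Lk k // ∀ g' ≤ g1, ∀ l' ≤ s.2, ¬ GoodI p (Dec s.1) l' g'} ≤
        Order.succ χ := (mk_subtype_le _).trans (hKL.trans (Order.le_succ χ))
    change #({z : E × E // z.1 ≠ z.2} ×
      {s : Σ k, Lk k // ∀ g' ≤ g1, ∀ l' ≤ s.2, ¬ GoodI p (Dec s.1) l' g'}) ≤ _
    rw [mk_prod, lift_id, lift_id]
    exact (mul_le_mul' h1 h2).trans (mul_eq_self hsχ).le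
  obtain ⟨x1, hx1, hx1S⟩ := REC hEE (hJ2.trans_lt hlt)
    (fun (s : J2) (x : EEi p E) => ∃ l' ≤ s.2.1.2, ∃ a,
      SepI p (Dec s.2.1.1) (x.1.2 s.1.1.1) (x.1.2 s.1.1.2) l' a)
    x0 (by
    rintro s x y hyx ⟨l', hl', a, h⟩
    exact ⟨l', hl', a, h.mono (hyx.2 _) (hyx.2 _) le_rfl⟩) (by
    rintro ⟨⟨⟨f, f'⟩, hff⟩, ⟨⟨k, l⟩, hH⟩⟩ x hx
    obtain ⟨g1', h1, g2', h2, h12, l', hl', a, hS⟩ := hopeI p hp hCL1 (Dec k)
      (fun g g' l l' a ξ h h' h'' => hDec k g g' l l' a ξ h h' h'') (S k) g0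
      (fun g l a b ξ ζ h h' h'' h''' => hcoh k g l a b ξ ζ h h' h'' h''') hg1 (l := l) hH
      (g' := x.1.2 f) (g'' := x.1.2 f') (hx.2 f) (hx.2 f') ((x.2 f).trans (x.2 f').symm)
      (l0 := l) le_rfl
    have hq1 : p g1' ≤ x.1.1 := by
      have h3 := hp h1
      rwa [x.2 f] at h3
    obtain ⟨y, hy, -, hyP⟩ := EEi.move x (p g1') hq1
      (fun e g => (e = f → g = g1') ∧ (e = f' → g = g2')) (by
      intro e
      by_cases he : e = f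
      · subst he
        exact ⟨g1', h1, rfl, fun _ => rfl, fun h => (hff h).elim⟩
      by_cases he' : e = f'
      · subst he'
        exact ⟨g2', h2, h12.symm, fun h => (he h).elim, fun _ => rfl⟩
      obtain ⟨g', hg', hg''⟩ := hCL1 (x.1.2 e) (p g1') (by
        rw [x.2 e]
        exact hq1)
      exact ⟨g', hg', hg'', fun h => (he h).elim, fun h => (he' h).elim⟩)
    refine ⟨y, hy, l', hl', a, ?_⟩
    change SepI p (Dec k) (y.1.2 f) (y.1.2 f') l' a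
    rw [(hyP f).1 rfl, (hyP f').2 rfl]
    exact hS)
  choose ls hls av hSep using hx1S
  obtain ⟨a0, ha0⟩ := hΛ (Set.range av) (mk_range_le.trans hJ2)
  have hx1g : ∀ f, x1.1.2 f ≤ g1 := fun f => hx1.2 f
  refine ⟨g1, hg1, x1.1.1, hx1.1, a0, fun k => {l | GoodI p (Dec k) l g1},
    fun k _ x a ξ => ∃ g' ≤ g1, x.1 ≤ p g' ∧ Dec k g' x.2 a ξ, ?_, ?_⟩
  · intro k l hl
    exact thrI p hp hCL1 (Dec k)
      (fun g g' l l' a ξ h h' h'' => hDec k g g' l l' a ξ h h' h'') (S k) g0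
      (fun g l a b ξ ζ h h' h'' h''' => hcoh k g l a b ξ ζ h h' h'' h''') hg1 hx1.1 hl
  -- COVER
  intro a ha q hq
  by_contra hcon
  have hbad : ∀ g ≤ g1, p g ≤ q → ∃ g' ≤ g, ∃ s : (Σ k, Lk k), ∃ ξ ∈ N0,
      Dec s.1 g' s.2 a ξ ∧ ∀ l1, GoodI p (Dec s.1) l1 g1 → l1 ≤ s.2 → ∀ q' ≤ p g',
        ¬ ∃ g'' ≤ g1, q' ≤ p g'' ∧ Dec s.1 g'' l1 a ξ := by
    intro g hg hgq
    by_contra hc
    apply hcon
    refine ⟨g, hg, hgq, fun g' hg' k l ξ hξ hd => ?_⟩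
    by_contra hc'
    apply hc
    refine ⟨g', hg', ⟨k, l⟩, ξ, hξ, hd, fun l1 hl1 hl q' hq' hth => ?_⟩
    exact hc' ⟨l1, hl1, hl, q', hq', hth⟩
  obtain ⟨x2, hx2, hx2q, -⟩ := EEi.move x1 q hq (fun _ _ => True) (by
    intro e
    obtain ⟨g', hg', hg''⟩ := hCL1 (x1.1.2 e) q (by
      rw [x1.2 e]
      exact hq)
    exact ⟨g', hg', hg'', trivial⟩)
  obtain ⟨x3, hx3, hx3D⟩ := REC hEE (hE.trans_lt hlt)
    (fun (f : E) (x : EEi p E) => ∃ s : (Σ k, Lk k), ∃ ξ ∈ N0,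
      Dec s.1 (x.1.2 f) s.2 a ξ ∧ ∀ l1, GoodI p (Dec s.1) l1 g1 → l1 ≤ s.2 →
        ∀ q' ≤ p (x.1.2 f), ¬ ∃ g'' ≤ g1, q' ≤ p g'' ∧ Dec s.1 g'' l1 a ξ) x2 (by
    rintro f x y hyx ⟨s, ξ, hξ, hd, h⟩
    exact ⟨s, ξ, hξ, hDec _ _ _ _ _ _ _ (hyx.2 f) le_rfl hd, fun l1 hl1 hl q' hq' =>
      h l1 hl1 hl q' (hq'.trans (hp (hyx.2 f)))⟩) (by
    intro f x hx
    have hxq : p (x.1.2 f) ≤ q := by
      rw [x.2 f, ← hx2q]
      exact hx.1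
    obtain ⟨g', hg', s, ξ, hξ, hd, h⟩ := hbad (x.1.2 f)
      (((hx.2 f).trans (hx2.2 f)).trans (hx1g f)) hxq
    have hqg : p g' ≤ x.1.1 := by
      have h3 := hp hg'
      rwa [x.2 f] at h3
    obtain ⟨y, hy, -, hyP⟩ := EEi.move x (p g') hqg (fun e g => e = f → g = g') (by
      intro e
      by_cases he : e = f
      · subst he
        exact ⟨g', hg', rfl, fun _ => rfl⟩
      obtain ⟨g'', h1, h2⟩ := hCL1 (x.1.2 e) (p g') (by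
        rw [x.2 e]
        exact hqg)
      exact ⟨g'', h1, h2, fun h => (he h).elim⟩)
    refine ⟨y, hy, s, ξ, hξ, ?_⟩
    rw [hyP f rfl]
    exact ⟨hd, h⟩)
  choose sf ξf hξf hDf hnf using hx3D
  have hx3g : ∀ f, x3.1.2 f ≤ x1.1.2 f := fun f => (hx3.2 f).trans (hx2.2 f)
  -- pigeonhole
  let F : E → (Σ k, Lk k) × N0 := fun f => (sf f, ⟨ξf f, hξf f⟩)
  have hcard : #((Σ k, Lk k) × N0) ≤ χ := by
    rw [mk_prod, lift_id, lift_id]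
    exact (mul_le_mul' hKL hN0).trans (mul_eq_self hχ).le
  have hninj : ¬ Function.Injective F := by
    intro h
    have h1 := (mk_le_of_injective h).trans hcard
    rw [hE] at h1
    exact absurd h1 (not_le.2 (Order.lt_succ χ))
  obtain ⟨f, f', hFf, hff⟩ : ∃ f f', F f = F f' ∧ f ≠ f' := by
    unfold Function.Injective at hninj
    push Not at hninj
    exact hninj
  have e1 : sf f = sf f' := congrArg Prod.fst hFf
  have e2 : ξf f = ξf f' := congrArg (fun x => (x.2 : N)) hFf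
  rcases hst1 (sf f) with ⟨l1, hl1, hG⟩ | hH
  · exact hnf f l1 hG hl1 x3.1.1 (x3.2 f).ge ⟨x3.1.2 f, (hx3g f).trans (hx1g f), (x3.2 f).ge,
      hDec _ _ _ _ _ _ _ le_rfl hl1 (hDf f)⟩
  · let s : J2 := (⟨(f, f'), hff⟩, ⟨sf f, hH⟩)
    have hs : SepI p (Dec (sf f).1) (x1.1.2 f) (x1.1.2 f') (ls s) (av s) := hSep s
    have has : av s ≤ a := _root_.le_trans (ha0 _ ⟨s, rfl⟩) ha
    have hs' := sepI_up p hCL1 (Dec (sf f).1)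
      (fun g g' l l' a ξ h h' h'' => hDec _ g g' l l' a ξ h h' h'') (S (sf f).1) g0
      (fun g l a b ξ ζ h h' h'' h''' => hdown _ g l a b ξ ζ h h' h'' h''')
      ((hx1g f).trans hg1) ((hx1g f').trans hg1) has hs
    have hls' : ls s ≤ (sf f).2 := hls s
    have hd' := hDf f'
    rw [← e1, ← e2] at hd'
    exact hs' (ls s) le_rfl (x3.1.2 f) (hx3g f) (x3.1.2 f') (hx3g f')
      ((x3.2 f).trans (x3.2 f').symm) (ξf f)
      ⟨hDec _ _ _ _ _ _ _ le_rfl hls' (hDf f), hDec _ _ _ _ _ _ _ le_rfl hls' hd'⟩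

end STP
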