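import Pool.Agent.STP.IGer
import Pool.Agent.STP.ICov
import Pool.Agent.STP.IDef
import Pool.Agent.STP.IClb

/-! # The concrete cover lemma (package I10)

(problem MP_e44aae_lc, project STP, ITP extension, text `/team-store/ITPinf.md`, 7', COVER
concrete; assembly, compare `GermM.lean`)

`C := Clq X r (succ (succ χ))`, `P := (C × Q1) × L`. `Y := Λ ⊕ X`, `iΛ' := Sum.inl`, `iX :=
Sum.inr`, `U` from `hU Y` (values in `RO Q1`). For `u : Pk κ Y` let `b_u` be an upper bound of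
`{a | inl a ∈ u}` and `n u : Λ → RO P` disjoint with `n u b ≤ chi (b_u ≤ b) ⊓ I b`, `I b := U0
(TopD.Z F A b)`, `p0 ∈ ⨆ b, n u b` (`exists_max`, `hcof`; see `GermM.lean`).
`K := Σ m : Mi, {t : T m // t ≤ tm m} × N0` (top node `z ∈ N0`), `k = (m, r, z)`. `Lk k := {t :
T m // t ≤ r} × L`. The system `S' k : Sys ((C × Q1) × Lk k) Λ N` is `(Sm m).comap (fun y =>
(y.2.1.1, (y.1, y.2.2)))` (projection property: if `q ≤ (t, x)` then `q.1 ≤ t ≤ r`, so `q.1` is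
an element of `{t // t ≤ r}`). `n' k u b : RO ((C × Q1) × Lk k)` is the pullback of `n u b`
along
`(x, (t, l)) ↦ (x, l)` (regular open by the same projection property); it is disjoint and above
`u`. `Dec k g l̂ a ξ := DecG (n' k) (fun _ : PUnit => the Rel of S' k) Set.univ g l̂ ⟨⟩ ⟨z,
trivial⟩ a ξ`.
`icover` with `Q := C × Q1`, `Gm := Germ hU Sum.inr r (succ (succ χ))`, `p := Germ.pr`, `hCL :=
germ_CL`, `Lk`, `Dec`, `hDec := DecG.mono`, `S'`, `hcoh := germ_coh` (for `L := Lk k`, `RR :=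
PUnit`, `N0 := Set.univ`), `hdown := germ_down`, `g0` with `g0.pr = p0.1` (`germ_CL` for the
empty set), `#(Lk k) ≤ χ`, `#K ≤ χ`: `g1 ≤ g0`, `q1 ≤ p g1`, `a0`, `Gd`, `th`, and COVER.
The family: `B m := Σ rz : {t : T m // t ≤ tm m} × N0, Gd (m, rz)` (`B m` has at most `χ`
elements), for `b = ((r, z), (t, l))` put `tb m b := t.1`, `lb m b := l`, `th' m b (t', (q, l'))
a ξ := ∃ h : t' ≤ r, th k (t, l) (q, (⟨t', h⟩, l')) a ξ`. `IsThr (Sm m).rel (t, (q1, l)) (th' m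
b)`: transport of `IsThr (S' k).rel (q1, (t, l))`.
Claim: if `a0 ≤ a` and `x ≤ (q1, p0.2)` then `x ∉ U0 (TopD.TT F A m ρ z a (XX tb lb th' a))`.
Suppose `x = (q, l)` is in it. COVER for `a`, `q` gives `g ≤ g1` with `p g ≤ q`. Apply `germ_DX`
with `RR := Σ m, {t : T m // t ≤ tm m}`, `R (m, t) := (Sm m).fix t`, `V := U0 (TT ..)`, `W (m,
t) ξ := XX tb lb th' a m t ξ`, to `g`, `l` (`(g.pr, l) ≤ x`, so `(g.pr, l) ∈ V` and `≤ p0`).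
Its hypothesis `h2` for `b ≥ a`: let `y ≤ p0` be in `V = U0 (TT ..)` and in `I b = U0 (Z b)`.
`mem_inf`, `exists_mem`: some `u` and `y1 ≤ y` in both values; by `RO.mem_iSup` (several times)
`y2 ≤ y1`, `e`, `A u e a`, `t ≤ ρ u e`, `y2 ∈ F u e ⊓ XX .. (m u) t (z u e a)`, and `e'` with `A
u e' b`, `y2 ∈ F u e'`; `e = e'` by `dis`. `TopD.top`: `rel (ρ u e, y2) a (d u) (z u e a) o`,
`rel (ρ u e, y2) b (d u) (z u e b) o`,
so by `Sys.can` (`b ≤ d u`: `mem` and `lub`; the hypothesis `hlub` says that `d u` is an upper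
bound of `{a | iΛ a ∈ u}` for almost all `u`: intersect with this value before using
`exists_mem`) and mono `rel (t, y2) a b (z u e a) (z u e b)`, i.e. `(R (m u, t)).rel y2 a b (z u
e a) (z u e b)`, both nodes in `N0` (`nar`).
Result: `g' ≤ g`, `l' ≤ l`, `(m, t)`, `ζ ∈ N0`, `ξ` with `DecG n R N0 g' l' (m, t) ζ a ξ` and
`(g'.pr, l') ∈ XX tb lb th' a m t ξ`. Put `k := (m, (t, ζ))`, `l̂ := (⟨t, le_rfl⟩, l')`: `Dec k
g' l̂ a ξ` (`frc`, `Phi` over `Lk k`: `mem_frc`, `mem_Phi`: an extension of `((e, q), (t, l'))`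
is `((e', q'), (t', l''))`, use the witness for `((e', q'), l'')` and mono in `t'`). `ξ ∈ N0` by
the definition of `DecG`. COVER: `l1 = (t1, l1') ∈ Gd k`, `l1 ≤ l̂`,
`q' ≤ p g'`, `th k l1 (q', l1) a ξ`. So for `b = ((t, ζ), l1) : B m`: `th' m b (t1, (q', l1')) a
ξ` with `t1 ≤ t`, `t1 ≤ tb`, `(q', l1') ≤ (g'.pr, l')`, `l1' ≤ lb`: contradiction to `mem_XX`.-/

universe u

namespace STP

open Cardinal

private theorem con_iSup_prop {P : Type u} [Preorder P] {p : Prop} {U : p → RO P} {t : P} :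
    t ∈ ⨆ h : p, U h ↔ ∃ h : p, t ∈ U h := by
  constructor
  · intro h
    obtain ⟨_, _, hp, _⟩ := RO.mem_iSup.1 h t le_rfl
    rw [iSup_pos hp] at h
    exact ⟨hp, h⟩
  · rintro ⟨hp, h⟩
    rw [iSup_pos hp]
    exact h

private theorem con_sig {χ : Cardinal.{u}} (hχ : ℵ₀ ≤ χ) {I : Type u} {f : I → Type u}
    (hI : #I ≤ χ) (hf : ∀ i, #(f i) ≤ χ) : #(Σ i, f i) ≤ χ := by
  rw [Cardinal.mk_sigma]
  refine (Cardinal.sum_le_sum _ (fun _ => χ) hf).trans ?_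
  rw [Cardinal.sum_const']
  exact (mul_le_mul' hI le_rfl).trans (Cardinal.mul_eq_self hχ).le

private theorem con_prod {χ : Cardinal.{u}} (hχ : ℵ₀ ≤ χ) {A B : Type u} (hA : #A ≤ χ)
    (hB : #B ≤ χ) : #(A × B) ≤ χ := by
  rw [← Cardinal.mul_def]
  exact (mul_le_mul' hA hB).trans (Cardinal.mul_eq_self hχ).le

private theorem con_sub {χ : Cardinal.{u}} {A : Type u} (hA : #A ≤ χ) (p : A → Prop) :
    #{a : A // p a} ≤ χ := (Cardinal.mk_subtype_le p).trans hA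

/-- the pull back of a regular open set along a projection -/
private def con_pull {P P' : Type u} [Preorder P] [Preorder P'] (f : P' → P)
    (hf : ∀ p q, q ≤ p → f q ≤ f p) (hp : ∀ p', ∀ q ≤ f p', ∃ q' ≤ p', f q' ≤ q)
    (V : RO P) : RO P' where
  carrier := {y | f y ∈ V}
  reg := by
    intro y
    constructor
    · intro h q hq
      exact ⟨q, le_rfl, RO.down V (hf _ _ hq) h⟩
    · intro h
      refine V.locally fun q hq => ?_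
      obtain ⟨q', hq', h1⟩ := hp y q hq
      obtain ⟨r, hr, h2⟩ := h q' hq'
      exact ⟨f r, (hf _ _ hr).trans h1, h2⟩

private theorem con_pull_bot {P P' : Type u} [Preorder P] [Preorder P'] {f : P' → P}
    {hf : ∀ p q, q ≤ p → f q ≤ f p} {hp : ∀ p', ∀ q ≤ f p', ∃ q' ≤ p', f q' ≤ q}
    {V V' : RO P} (h : V ⊓ V' = ⊥) : con_pull f hf hp V ⊓ con_pull f hf hp V' = ⊥ := by
  refine RO.ext' fun p => ⟨fun hp' => ?_, fun hp' => (RO.not_mem_bot hp').elim⟩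
  have h1 : f p ∈ V ⊓ V' := ⟨hp'.1, hp'.2⟩
  rw [h] at h1
  exact (RO.not_mem_bot h1).elim

/-- a system as a relation -/
private def con_rel {P Λ N : Type u} [Preorder P] [Preorder Λ] (S : Sys P Λ N) : Rel P Λ N where
  rel := S.rel
  mono := S.mono
  loc := S.loc
  can := S.can

section proj

variable {T C L : Type u} [PartialOrder T] [Preorder C] [Preorder L]

/-- the projection to `T × (C × L)` -/
private def con_f (r : T) (y : C × ({t : T // t ≤ r} × L)) : T × (C × L) :=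
  (y.2.1.1, (y.1, y.2.2))

private theorem con_f_mono (r : T) (p q : C × ({t : T // t ≤ r} × L)) (h : q ≤ p) :
    con_f r q ≤ con_f r p := ⟨h.2.1, ⟨h.1, h.2.2⟩⟩

private theorem con_f_proj (r : T) (p : C × ({t : T // t ≤ r} × L)) (q : T × (C × L))
    (h : q ≤ con_f r p) : ∃ q' ≤ p, con_f r q' ≤ q :=
  ⟨(q.2.1, (⟨q.1, le_trans h.1 p.2.1.2⟩, q.2.2)), ⟨h.2.1, ⟨h.1, h.2.2⟩⟩, le_rfl⟩

/-- the projection to `C × L` -/
private def con_g (r : T) (y : C × ({t : T // t ≤ r} × L)) : C × L := (y.1, y.2.2)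

private theorem con_g_mono (r : T) (p q : C × ({t : T // t ≤ r} × L)) (h : q ≤ p) :
    con_g r q ≤ con_g r p := ⟨h.1, h.2.2⟩

private theorem con_g_proj (r : T) (p : C × ({t : T // t ≤ r} × L)) (q : C × L)
    (h : q ≤ con_g r p) : ∃ q' ≤ p, con_g r q' ≤ q :=
  ⟨(q.1, (p.2.1, q.2)), ⟨h.1, ⟨le_rfl, h.2⟩⟩, le_rfl⟩

/-- the system over `C × ({t // t ≤ r} × L)` -/
private def con_S {Λ N : Type u} [Preorder Λ] (S : Sys (T × (C × L)) Λ N) (r : T) :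
    Sys (C × ({t : T // t ≤ r} × L)) Λ N :=
  S.comap (con_f r) (con_f_mono r) (con_f_proj r)

end proj

private theorem con_TT {κ : Cardinal.{u}} {P Λ N Mi Y : Type u} [Preorder P] {T : Mi → Type u}
    [∀ m, Preorder (T m)] {E : Pk κ Y → Type u} {F : ∀ u, E u → RO P}
    {A : ∀ u, E u → Λ → Prop} {m : Pk κ Y → Mi} {ρ : ∀ u, E u → T (m u)}
    {z : ∀ u, E u → Λ → N} {a : Λ} {X : ∀ m, T m → N → RO P} {u : Pk κ Y} {p : P}
    (h : p ∈ TopD.TT F A m ρ z a X u) :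
    ∃ q ≤ p, ∃ e, A u e a ∧ ∃ t ≤ ρ u e, q ∈ F u e ∧ q ∈ X (m u) t (z u e a) := by
  unfold TopD.TT at h
  obtain ⟨q, hq, e, h1⟩ := RO.mem_iSup.1 h p le_rfl
  obtain ⟨hA, h2⟩ := con_iSup_prop.1 h1
  obtain ⟨q', hq', t, h3⟩ := RO.mem_iSup.1 h2 q le_rfl
  obtain ⟨ht, h4⟩ := con_iSup_prop.1 h3
  exact ⟨q', hq'.trans hq, e, hA, t, ht, h4.1, h4.2⟩

private theorem con_Z {κ : Cardinal.{u}} {P Λ Y : Type u} [Preorder P] {E : Pk κ Y → Type u}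
    {F : ∀ u, E u → RO P} {A : ∀ u, E u → Λ → Prop} {a : Λ} {u : Pk κ Y} {p : P}
    (h : p ∈ TopD.Z F A a u) : ∃ q ≤ p, ∃ e, A u e a ∧ q ∈ F u e := by
  unfold TopD.Z at h
  obtain ⟨q, hq, e, h1⟩ := RO.mem_iSup.1 h p le_rfl
  obtain ⟨hA, h2⟩ := con_iSup_prop.1 h1
  exact ⟨q, hq, e, hA, h2⟩

private theorem con_step {κ0 : Cardinal.{u}} {P Λ N Mi Y0 : Type u} [Preorder P] [Preorder Λ]
    {T : Mi → Type u} [∀ m, PartialOrder (T m)] {Sm : ∀ m, Sys (T m × P) Λ N} {o : Mi → N}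
    {tm : ∀ m, T m} {N0 : Set N} {U0 : (Pk κ0 Y0 → RO P) → RO P}
    (hU0 : NormalU κ0 Y0 (RO P) U0) {iΛ : Λ → Y0} {E : Pk κ0 Y0 → Type u}
    {F : ∀ u, E u → RO P} {A : ∀ u, E u → Λ → Prop} {m : Pk κ0 Y0 → Mi}
    {ρ : ∀ u, E u → T (m u)} {z : ∀ u, E u → Λ → N} {d : Pk κ0 Y0 → Λ}
    (hD : TopD iΛ Sm o tm N0 E F A m ρ z d)
    (hlub : U0 (fun u => chi (∃ b, IsLUB {a | iΛ a ∈ u.1} b)) = ⊤) {a b : Λ} (hab : a ≤ b)
    {X : ∀ m, T m → N → RO P} {y : P} (hT : y ∈ U0 (TopD.TT F A m ρ z a X))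
    (hZ : y ∈ U0 (TopD.Z F A b)) :
    ∃ y' ≤ y, ∃ (M : Mi) (t : T M), t ≤ tm M ∧ ∃ ξ ∈ N0, ∃ ζ ∈ N0,
      (Sm M).rel (t, y') a b ξ ζ ∧ y' ∈ X M t ξ := by
  have h1 : y ∈ U0 (fun u => (TopD.TT F A m ρ z a X u ⊓ TopD.Z F A b u) ⊓
      chi (∃ b, IsLUB {a | iΛ a ∈ u.1} b)) := by
    rw [hU0.mem_inf, hU0.mem_inf]
    exact ⟨⟨hT, hZ⟩, hU0.of_top hlub⟩
  obtain ⟨u, y1, hy1, ⟨h2, h3⟩, h4⟩ := hU0.exists_mem h1
  have h5 := hD.lub u (RO.mem_chi.1 h4)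
  obtain ⟨y2, hy2, e, hA, t, ht, hF, hX⟩ := con_TT h2
  obtain ⟨y3, hy3, e', hA', hF'⟩ := con_Z (RO.down _ hy2 h3)
  have he : e = e' := by
    by_contra hne
    have h6 : y3 ∈ F u e ⊓ F u e' := ⟨RO.down _ hy3 hF, hF'⟩
    rw [hD.dis u e e' hne] at h6
    exact RO.not_mem_bot h6
  subst he
  have h7 := hD.top u e a hA y3 hF'
  have h8 := hD.top u e b hA' y3 hF'
  have h9 := (Sm (m u)).can hab (h5.1 (hD.mem u e b hA')) h7 h8
  exact ⟨y3, hy3.trans (hy2.trans hy1), m u, t, ht.trans (hD.le u e), z u e a,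
    hD.nar u e a hA, z u e b, hD.nar u e b hA',
    (Sm (m u)).mono (p := (ρ u e, y3)) (q := (t, y3)) ⟨ht, le_rfl⟩ h9, RO.down _ hy3 hX⟩

section dec

set_option linter.unusedSectionVars false

variable {κ χ : Cardinal.{u}} {Q1 X Y L Λ N T : Type u} {r : X → X → Prop} [PartialOrder Q1]
  [PartialOrder L] [PartialOrder T] [Preorder Λ]

/-- the name of the generic index over the restricted poset -/
private def con_n {C : Type u} [Preorder C] (n : Pk κ Y → Λ → RO (C × L)) (r0 : T)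
    (u : Pk κ Y) (b : Λ) : RO (C × ({t : T // t ≤ r0} × L)) :=
  con_pull (con_g r0) (con_g_mono r0) (con_g_proj r0) (n u b)

private theorem con_mem_n {C : Type u} [Preorder C] {n : Pk κ Y → Λ → RO (C × L)} {r0 : T}
    {u : Pk κ Y} {b : Λ} {p : C × ({t : T // t ≤ r0} × L)} :
    p ∈ con_n n r0 u b ↔ (p.1, p.2.2) ∈ n u b := Iff.rfl

/-- the decided node for the restricted poset -/
private def con_Dec {U : (Pk κ Y → RO Q1) → RO Q1} {hU : NormalU κ Y (RO Q1) U} {iX : X → Y}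
    (n : Pk κ Y → Λ → RO ((Clq X r (Order.succ (Order.succ χ)) × Q1) × L))
    (S : Sys (T × ((Clq X r (Order.succ (Order.succ χ)) × Q1) × L)) Λ N) (r0 : T) (z : N)
    (g : Germ hU iX r (Order.succ (Order.succ χ))) (l : {t : T // t ≤ r0} × L) (a : Λ)
    (ξ : N) : Prop :=
  DecG (con_n n r0) (fun _ : PUnit.{u + 1} => con_rel (con_S S r0)) Set.univ g l ⟨⟩
    ⟨z, trivial⟩ a ξ

private theorem con_Dec_mono {U : (Pk κ Y → RO Q1) → RO Q1} {hU : NormalU κ Y (RO Q1) U}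
    {iX : X → Y} {n : Pk κ Y → Λ → RO ((Clq X r (Order.succ (Order.succ χ)) × Q1) × L)}
    {S : Sys (T × ((Clq X r (Order.succ (Order.succ χ)) × Q1) × L)) Λ N} {r0 : T} {z : N}
    {g g' : Germ hU iX r (Order.succ (Order.succ χ))} {l l' : {t : T // t ≤ r0} × L} {a : Λ}
    {ξ : N} (hg : g' ≤ g) (hl : l' ≤ l) (h : con_Dec n S r0 z g l a ξ) :
    con_Dec n S r0 z g' l' a ξ := DecG.mono hg hl h

private theorem con_Dec_coh (hχ : ℵ₀ ≤ χ) (hχκ : Order.succ (Order.succ χ) < κ)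
    (hr : ∀ x y, r x y → r y x) (hloc : ∀ x, #{y | ¬ r x y} < κ)
    {U : (Pk κ Y → RO Q1) → RO Q1} {hU : NormalU κ Y (RO Q1) U} {iX : X → Y}
    (hiX : Function.Injective iX) (iΛ : Λ → Y)
    {n : Pk κ Y → Λ → RO ((Clq X r (Order.succ (Order.succ χ)) × Q1) × L)}
    (hnd : ∀ u b b', b ≠ b' → n u b ⊓ n u b' = ⊥)
    (hnb : ∀ u b p, p ∈ n u b → ∀ a, iΛ a ∈ u.1 → a ≤ b)
    {S : Sys (T × ((Clq X r (Order.succ (Order.succ χ)) × Q1) × L)) Λ N} {r0 : T} {z : N}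
    {g : Germ hU iX r (Order.succ (Order.succ χ))} {l : {t : T // t ≤ r0} × L} {a b : Λ}
    {ξ ζ : N} (hab : a ≤ b) (h : con_Dec n S r0 z g l a ξ) (h' : con_Dec n S r0 z g l b ζ) :
    (con_S S r0).rel (g.pr, l) a b ξ ζ :=
  germ_coh hχ hχκ hr hloc hU iX hiX iΛ (con_n n r0)
    (fun u b b' hne => con_pull_bot (hnd u b b' hne))
    (fun u b p hp a ha => hnb u b (p.1, p.2.2) hp a ha)
    (fun _ : PUnit.{u + 1} => con_rel (con_S S r0)) Set.univ g l ⟨⟩ ⟨z, trivial⟩ a b ξ ζ hab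
    h h'

private theorem con_Dec_down {U : (Pk κ Y → RO Q1) → RO Q1} {hU : NormalU κ Y (RO Q1) U}
    {iX : X → Y} (iΛ : Λ → Y)
    {n : Pk κ Y → Λ → RO ((Clq X r (Order.succ (Order.succ χ)) × Q1) × L)}
    (hnb : ∀ u b p, p ∈ n u b → ∀ a, iΛ a ∈ u.1 → a ≤ b)
    {S : Sys (T × ((Clq X r (Order.succ (Order.succ χ)) × Q1) × L)) Λ N} {r0 : T} {z : N}
    {g : Germ hU iX r (Order.succ (Order.succ χ))} {l : {t : T // t ≤ r0} × L} {a b : Λ}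
    {ξ ζ : N} (hab : a ≤ b) (h : con_Dec n S r0 z g l b ζ)
    (h' : (con_S S r0).rel (g.pr, l) a b ξ ζ) : con_Dec n S r0 z g l a ξ :=
  germ_down hU iX iΛ (con_n n r0) (fun u b p hp a ha => hnb u b (p.1, p.2.2) hp a ha)
    (con_S S r0) (fun _ : PUnit.{u + 1} => con_rel (con_S S r0)) (fun _ _ _ _ _ => Iff.rfl)
    g l ⟨z, trivial⟩ a b ξ ζ hab h h'

private theorem con_Dec_of {U : (Pk κ Y → RO Q1) → RO Q1} {hU : NormalU κ Y (RO Q1) U}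
    {iX : X → Y} {n : Pk κ Y → Λ → RO ((Clq X r (Order.succ (Order.succ χ)) × Q1) × L)}
    {S : Sys (T × ((Clq X r (Order.succ (Order.succ χ)) × Q1) × L)) Λ N} {r0 : T} {z : N}
    {g : Germ hU iX r (Order.succ (Order.succ χ))} {l : L} {a : Λ} {ξ : N}
    (h : g.q ∈ U (fun u => frc (g.F u) l (Phi (n u) (S.fix r0) a z ξ))) :
    con_Dec n S r0 z g (⟨r0, le_rfl⟩, l) a ξ := by
  refine ⟨trivial, hU.ae_mono h fun u s _ hs => ?_⟩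
  refine mem_frc.2 fun s' hs' => ?_
  obtain ⟨v, hv, e, he, h1⟩ := mem_frc.1 hs s' hs'
  refine ⟨v, hv, e, he, mem_Phi.2 fun p' hp' => ?_⟩
  obtain ⟨w, hw, b, hb1, hb2⟩ := mem_Phi.1 h1 (p'.1, p'.2.2) ⟨hp'.1, hp'.2.2⟩
  refine ⟨(w.1, (p'.2.1, w.2)), ⟨hw.1, ⟨le_rfl, hw.2⟩⟩, b, con_mem_n.2 hb1, ?_⟩
  exact S.mono (p := (r0, w)) (q := (p'.2.1.1, w)) ⟨p'.2.1.2, le_rfl⟩ hb2

end dec

theorem cover {κ0 κ ν χ : Cardinal.{u}} {Q1 X L Λ N Mi Y0 : Type u} {r : X → X → Prop}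
    {T : Mi → Type u} [PartialOrder Q1] [PartialOrder L] [∀ m, PartialOrder (T m)] [Preorder Λ]
    (hχ : ℵ₀ ≤ χ) (hχκ : Order.succ (Order.succ χ) < κ) (hκν : κ ≤ ν) (hL : #L ≤ χ)
    (hMi : #Mi ≤ χ) (hT : ∀ m, #(T m) ≤ χ) (hr : ∀ x y, r x y → r y x)
    (hloc : ∀ x, #{y | ¬ r x y} < κ) (hQ : DC κ Q1)
    (hU : ∀ Y : Type u, ∃ U : (Pk κ Y → RO Q1) → RO Q1, NormalU κ Y (RO Q1) U)
    (hΛ : Dir ν Λ)
    (Sm : ∀ m, Sys (T m × ((Clq X r (Order.succ (Order.succ χ)) × Q1) × L)) Λ N) (o : Mi → N)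
    (tm : ∀ m, T m) (N0 : Set N) (hN0 : #N0 ≤ χ)
    {U0 : (Pk κ0 Y0 → RO ((Clq X r (Order.succ (Order.succ χ)) × Q1) × L)) →
      RO ((Clq X r (Order.succ (Order.succ χ)) × Q1) × L)}
    (hU0 : NormalU κ0 Y0 (RO ((Clq X r (Order.succ (Order.succ χ)) × Q1) × L)) U0)
    (iΛ : Λ → Y0) {E : Pk κ0 Y0 → Type u}
    {F : ∀ u, E u → RO ((Clq X r (Order.succ (Order.succ χ)) × Q1) × L)}
    {A : ∀ u, E u → Λ → Prop} {m : Pk κ0 Y0 → Mi} {ρ : ∀ u, E u → T (m u)}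
    {z : ∀ u, E u → Λ → N} {d : Pk κ0 Y0 → Λ} (hD : TopD iΛ Sm o tm N0 E F A m ρ z d)
    (hlub : U0 (fun u => chi (∃ b, IsLUB {a | iΛ a ∈ u.1} b)) = ⊤)
    (p0 : (Clq X r (Order.succ (Order.succ χ)) × Q1) × L)
    (hcof : ∀ a, ∀ q ≤ p0, ∃ q' ≤ q, ∃ a', a ≤ a' ∧ q' ∈ U0 (TopD.Z F A a')) :
    ∃ q1 ≤ p0.1, ∃ (a0 : Λ) (B : Mi → Type u) (tb : ∀ m, B m → T m) (lb : ∀ m, B m → L)
      (th : ∀ m, B m → T m × ((Clq X r (Order.succ (Order.succ χ)) × Q1) × L) → Λ → N → Prop),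
      (∀ m, #(B m) ≤ χ) ∧ (∀ m b, tb m b ≤ tm m) ∧
      (∀ m b, IsThr (Sm m).rel (tb m b, (q1, lb m b)) (th m b)) ∧
      ∀ a, a0 ≤ a → ∀ x ≤ (q1, p0.2),
        x ∉ U0 (TopD.TT F A m ρ z a (fun m t ξ => XX tb lb th a m t ξ)) := by
  classical
  obtain ⟨U, hU'⟩ := hU (Λ ⊕ X)
  have hχν : Order.succ χ ≤ ν :=
    (Order.lt_succ (Order.succ χ)).le.trans (hχκ.le.trans hκν)
  have hreg : (Order.succ (Order.succ χ)).IsRegular :=
    Cardinal.isRegular_succ (hχ.trans (Order.le_succ χ))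
  have hb : ∀ u : Pk κ (Λ ⊕ X), ∃ b, ∀ a, Sum.inl a ∈ u.1 → a ≤ b := by
    intro u
    have hc : #{a : Λ | Sum.inl a ∈ u.1} ≤ ν := by
      refine le_trans ?_ (u.2.le.trans hκν)
      exact Cardinal.mk_le_of_injective (f := fun a : {a : Λ | Sum.inl a ∈ u.1} =>
        (⟨Sum.inl a.1, a.2⟩ : u.1)) fun a b hab =>
          Subtype.ext (Sum.inl_injective (congrArg (fun t => t.1) hab))
    obtain ⟨b, hb⟩ := hΛ {a : Λ | Sum.inl a ∈ u.1} hc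
    exact ⟨b, fun a ha => hb a ha⟩
  choose bu hbu using hb
  have hn : ∀ u : Pk κ (Λ ⊕ X), ∃ m : Λ → RO ((Clq X r (Order.succ (Order.succ χ)) × Q1) × L),
      (∀ e, m e ≤ chi (bu u ≤ e) ⊓ U0 (TopD.Z F A e)) ∧ (∀ e e', e ≠ e' → m e ⊓ m e' = ⊥) ∧
        ⨆ e, m e = ⨆ e, chi (bu u ≤ e) ⊓ U0 (TopD.Z F A e) := fun u => exists_max _
  choose n hn1 hn2 hn3 using hn
  have hnI : ∀ u b, n u b ≤ U0 (TopD.Z F A b) := fun u b => (hn1 u b).trans inf_le_right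
  have hnt : ∀ u, p0 ∈ ⨆ b, n u b := by
    intro u
    rw [hn3 u, RO.mem_iSup]
    intro q hq
    obtain ⟨p', hp', a', ha', hI⟩ := hcof (bu u) q hq
    exact ⟨p', hp', a', RO.mem_chi.2 ha', hI⟩
  have hnb : ∀ u b p, p ∈ n u b → ∀ a, Sum.inl a ∈ u.1 → a ≤ b := by
    intro u b p hp a ha
    exact (hbu u a ha).trans (RO.mem_chi.1 (hn1 u b p hp).1)
  obtain ⟨g0, hg0⟩ : ∃ g : Germ hU' Sum.inr r (Order.succ (Order.succ χ)), g.pr = p0.1 := by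
    obtain ⟨g, -, hg⟩ := germ_CL hχ hχκ hr hloc hQ hU' Sum.inr Sum.inr_injective ∅
      (fun a ha => (Set.notMem_empty a ha).elim) (by
        rw [Cardinal.mk_eq_zero]
        exact hreg.pos) p0.1 (fun d hd => (Set.notMem_empty d hd).elim)
    exact ⟨g, hg⟩
  -- the abstract cover lemma
  have hK : #(Σ m : Mi, {t : T m // t ≤ tm m} × N0) ≤ χ :=
    con_sig hχ hMi fun m => con_prod hχ (con_sub (hT m) _) hN0
  have hLk : ∀ k : (Σ m : Mi, {t : T m // t ≤ tm m} × N0),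
      #({t : T k.1 // t ≤ k.2.1.1} × L) ≤ χ := fun k => con_prod hχ (con_sub (hT k.1) _) hL
  obtain ⟨g1, hg1, q1, hq1, a0, Gd, th, hth, hcov⟩ := icover
    (Q := Clq X r (Order.succ (Order.succ χ)) × Q1)
    (Gm := Germ hU' Sum.inr r (Order.succ (Order.succ χ)))
    (K := Σ m : Mi, {t : T m // t ≤ tm m} × N0)
    (Lk := fun k => {t : T k.1 // t ≤ k.2.1.1} × L) hχ hK hLk N0 hN0
    (DC.prod (Clq.dc hreg) (DC.mono hχκ.le hQ)) Germ.pr Germ.pr_mono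
    (fun D hD hDc x hx => germ_CL hχ hχκ hr hloc hQ hU' Sum.inr Sum.inr_injective D hD hDc x hx)
    (fun k g l a ξ => con_Dec n (Sm k.1) k.2.1.1 k.2.2.1 g l a ξ)
    (fun k g g' l l' a ξ hg hl h => con_Dec_mono hg hl h)
    (fun k => con_S (Sm k.1) k.2.1.1) (fun A hA => hΛ A (hA.trans hχν)) g0
    (fun k g l a b ξ ζ _ hab h h' =>
      con_Dec_coh hχ hχκ hr hloc Sum.inr_injective Sum.inl hn2 hnb hab h h')
    (fun k g l a b ξ ζ _ hab h h' => con_Dec_down Sum.inl hnb hab h h')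
  have hq1' : q1 ≤ p0.1 := hg0 ▸ (hq1.trans (Germ.pr_mono hg1))
  obtain ⟨B, tb, lb, th', hB, htb, hthr, hag⟩ : ∃ (B : Mi → Type u) (tb : ∀ m, B m → T m)
      (lb : ∀ m, B m → L)
      (th' : ∀ m, B m → T m × ((Clq X r (Order.succ (Order.succ χ)) × Q1) × L) → Λ → N → Prop),
      (∀ m, #(B m) ≤ χ) ∧ (∀ m b, tb m b ≤ tm m) ∧
      (∀ m b, IsThr (Sm m).rel (tb m b, (q1, lb m b)) (th' m b)) ∧
      ∀ (M : Mi) (rz : {t : T M // t ≤ tm M} × N0), ∀ l1 ∈ Gd ⟨M, rz⟩, ∀ q' a ξ,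
        th ⟨M, rz⟩ l1 (q', l1) a ξ → ∃ b : B M, tb M b = l1.1.1 ∧ lb M b = l1.2 ∧
          th' M b (l1.1.1, (q', l1.2)) a ξ := by
    refine ⟨fun m => Σ rz : {t : T m // t ≤ tm m} × N0, Gd ⟨m, rz⟩,
      fun m b => b.2.1.1.1, fun m b => b.2.1.2,
      fun m b p a ξ => ∃ h : p.1 ≤ b.1.1.1, th ⟨m, b.1⟩ b.2.1 (p.2.1, (⟨p.1, h⟩, p.2.2)) a ξ,
      fun m => con_sig hχ (con_prod hχ (con_sub (hT m) _) hN0) fun rz =>
        (Cardinal.mk_set_le _).trans (hLk ⟨m, rz⟩),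
      fun m b => b.2.1.1.2.trans b.1.1.2, ?_, ?_⟩
    · intro m b
      have h1 := hth ⟨m, b.1⟩ b.2.1 b.2.2
      refine ⟨?_, ?_, ?_⟩
      · rintro p q a ξ hqp ⟨h, h2⟩
        exact ⟨hqp.1.trans h, h1.mono ⟨hqp.2.1, ⟨hqp.1, hqp.2.2⟩⟩ h2⟩
      · intro a p hp
        obtain ⟨q, hq, ξ, h2⟩ := h1.tot a (p.2.1, (⟨p.1, hp.1.trans b.2.1.1.2⟩, p.2.2))
          ⟨hp.2.1, ⟨hp.1, hp.2.2⟩⟩
        exact ⟨(q.2.1.1, (q.1, q.2.2)), ⟨hq.2.1, ⟨hq.1, hq.2.2⟩⟩, ξ, q.2.1.2, h2⟩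
      · rintro p a c ξ ζ hp hac ⟨h, h2⟩ ⟨h', h3⟩
        exact h1.coh (p := (p.2.1, (⟨p.1, h⟩, p.2.2))) ⟨hp.2.1, ⟨hp.1, hp.2.2⟩⟩ hac h2 h3
    · intro M rz l1 hl1 q' a ξ h
      exact ⟨⟨rz, ⟨l1, hl1⟩⟩, rfl, rfl, l1.1.2, h⟩
  refine ⟨q1, hq1', a0, B, tb, lb, th', hB, htb, hthr, ?_⟩
  intro a ha x hx hxV
  obtain ⟨g, hg, hgq, hcov'⟩ := hcov a ha x.1 hx.1
  have hgp : (g.pr, x.2) ≤ p0 := ⟨hgq.trans (hx.1.trans hq1'), hx.2⟩
  have hRR : #(Σ m : Mi, {t : T m // t ≤ tm m}) ≤ χ :=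
    con_sig hχ hMi fun m => con_sub (hT m) _
  obtain ⟨g', hg', l', hl', k, ζ, ξ, hdec, hW⟩ := germ_DX hχ hχκ hL hRR hr hloc hQ hU' Sum.inr
    Sum.inr_injective Sum.inl p0 (fun b => U0 (TopD.Z F A b)) n hnI hnt hnb
    (fun k : (Σ m : Mi, {t : T m // t ≤ tm m}) => (Sm k.1).fix k.2.1) N0 hN0 a
    (U0 (TopD.TT F A m ρ z a (fun m t ξ => XX tb lb th' a m t ξ)))
    (fun k ξ => XX tb lb th' a k.1 k.2.1 ξ)
    (by
      intro b hab y _ hy hyb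
      obtain ⟨y', hy', M, t, ht, ξ, hξ, ζ, hζ, h1, h2⟩ := con_step hU0 hD hlub hab hy hyb
      exact ⟨y', hy', ⟨M, ⟨t, ht⟩⟩, ξ, hξ, ζ, hζ, h1, h2⟩)
    g x.2 hgp (RO.down _ (show (g.pr, x.2) ≤ x from ⟨hgq, le_rfl⟩) hxV)
  obtain ⟨M, t, ht⟩ := k
  obtain ⟨l1, hl1, hl1', q', hq', h3⟩ := hcov' g' hg' ⟨M, (⟨t, ht⟩, ζ)⟩ (⟨t, le_rfl⟩, l') ξ
    hdec.1 (con_Dec_of hdec.2)
  obtain ⟨b, hb1, hb2, hb3⟩ := hag M (⟨t, ht⟩, ζ) l1 hl1 q' a ξ h3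
  exact (mem_XX (tb := tb) (lb := lb) (th := th') (a := a) (ξ := ξ)
    (fun m b p q a ξ hqp h => (hthr m b).mono hqp h)).1 hW b l1.1.1 l1.1.2
    hb1.ge (q', l1.2) ⟨hq', hl1'.2⟩ hb2.ge hb3

end STP
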