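import Pool.Agent.STP.IDef
import Pool.Agent.STP.IClb
import Pool.Agent.STP.Rec
import Pool.Agent.STP.Cls

/-! # The final contradiction (package I11)

(problem MP_e44aae_lc, project STP, ITP extension, text `/team-store/ITPinf.md`, 8.2 and 8.3)

`P = Q × L`, `Q` is `DC (succ χ)`, `L`, `T m`, `Mi`, `B m` have at most `χ` elements, `χ ≤ ν`. `th m b` are threads of `S m` below `(tb m b, (q1, lb m b))`; no thread of `S m` below a condition `≤ (tm m, p0)` is ineffable in the strong sense `hbad`; `hcov`: the cover property.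
(For members `b, b'` of the family with the same index `m`.) Write `AgA m b b' t l q := ∀ y ≤ (t, (q, l)), ∀ a ξ ξ', th m b y a ξ → th m b' y a ξ' → ξ = ξ'` and `AgB m b b' a t l q := ∀ y ≤ (t, (q, l)), ∀ ξ, ¬ (th m b y a ξ ∧ th m b' y a ξ)`.
(8.2) `REC` for `Q` below `q1`, twice (index sets of at most `χ` elements: `Σ m, B m × (T m × L)` and `Σ m, (B m × B m) × (T m × L)`): `q2 ≤ q1` such that
 (i) for all `m`, `b`, `t ≤ tb m b`, `l ≤ lb m b` with `l ≤ p0.2`: `∃ t' ≤ t, ∃ l' ≤ l, ∃ D, Club ν D ∧ ∀ y ≤ (t', (q2, l')), ∀ a ∈ D, ¬ th m b y a (o m)`. Dense: for `q ≤ q1` apply `hbad` to the thread `th m b` below `(t, (q, l))` (`IsThr.below`; `(t, (q, l)) ≤ (tm m, p0)`): `p' = (t', (q', l'))`. Open: clear.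
 (ii) for all `m`, `b`, `b'`, `t`, `l`: `AgA m b b' t l q2 ∨ ∃ t' ≤ t, ∃ l' ≤ l, ∃ a, AgB m b b' a t' l' q2`... dense because: if `q` does not satisfy `AgA` (and no extension of it does) there are `y ≤ (t, (q, l))`, `a`, `ξ ≠ ξ'` with `th m b y a ξ`, `th m b' y a ξ'`; then `AgB m b b' a y.1 y.2.2 y.2.1`: if `y' ≤ y` and both `th m b y' a η`, `th m b' y' a η`, then by mono and single valuedness
 (`IsThr.single`) `ξ = η = ξ'`. Single valuedness of `th m b` at `y` needs `y ≤ (tb m b, (q1, lb m b))`: therefore state (ii) only for `t ≤ tb m b, tb m b'`, `l ≤ lb m b, lb m b'`. Open: clear.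
 Choose the clubs `D (m, b, t, l)` of (i) and the elements `a (m, b, b', t, l)` of (ii). `Dst := ⋂ D` is a club (`Club.inter`), `c0` := an upper bound of `a0` and all the `a (..)`. `hcof`: `x3 ≤ (q2, p0.2)` and `c ≥ c0` with `x3 ∈ U0 (TopD.Z F A c)`.
(8.3) The following values at `u` contain `x3` almost everywhere (membership `x3 ∈ U0 (..)`):
 (α) `chi` of: `{a | iΛ a ∈ u}` is nonempty and directed (`ae_dir`); every lub of it is in `Dst` (`ae_club`).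
 (β) `⨅ a, ⨅ _ : iΛ a ∈ u, ⨆ a', ⨆ _ : iΛ a' ∈ u ∧ a ≤ a', TopD.Z F A a' u`: by normality it is enough that for every `a`: `x3 ∈ U0 (fun u => ⨆ a', ⨆ _ : iΛ a' ∈ u ∧ a ≤ a', Z a' u)`. `RO.locally`: below `y ≤ x3` take `y' ≤ y`, `a' ≥ a` with `y' ∈ U0 (Z a')` (`hcof`); `Z a' u ≤ chi (iΛ a' ∈ u) ⊓ Z a' u` (`mem`), mono. (Normality is stated for `Y0`: use the function on `Y0` which is this value
  at `iΛ a` and `⊤` outside the range of `iΛ`, `iΛ` injective; as in `Nu.lean`, `normal`.)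
 (γ) `⨅ a, ⨅ _ : iΛ a ∈ u ∧ a0 ≤ a, (Z a u)ᶜ ⊔ W a u`, where `W a u := ⨆ e, ⨆ _ : A u e a, F u e ⊓ ⨅ t, ⨅ _ : t ≤ ρ u e, (XX tb lb th a (m u) t (z u e a))ᶜ`. By normality it is enough that `x3 ∈ U0 (fun u => (Z a u)ᶜ ⊔ W a u)` for `a ≥ a0`. The complement of `(Z a u)ᶜ ⊔ W a u` is `≤ TT a XX u` (`q ∈ Z a u`, `q ∉ W a u` hereditarily: below `q` some `F u e ∋ q'` with `A u e a`;
  as `q'` is in no `W a u` below, some `q'' ≤ q'` and `t ≤ ρ u e` have `q'' ∈ XX ..`), so `x3 ∈ (U0 (..))ᶜ` would give, below `x3`, an element of `U0 (TT ..)`, contradicting `hcov`.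
 (δ) `Z c u` (choice of `x3`).
 `mem_inf`, `exists_mem`: one `u` and `x ≤ x3` in all of them; by (δ) extend `x` to be in `F u e` with `A u e c`. Write `ρ = ρ u e`, `μ = m u`, `z a = z u e a`, `δ = d u`, which is a lub of `{a | iΛ a ∈ u}` (`dir_sup` with (α), `#u < κ0 ≤ ν`; `lub`), `δ ∈ Dst`. For `a` with `A u e a` and `q ≤ x`: `rel (ρ, q) a δ (z a) o` (`top`). By disjointness of `F u`:
 (β') for every `a` with `iΛ a ∈ u` there is `a' ≥ a` with `A u e a'`. (γ') if `A u e a`, `a0 ≤ a`, `t ≤ ρ`, `y ≤ x` then there are `b : B μ`, `t' ≤ t`, `t' ≤ tb μ b`, `y' ≤ y`, `y'.2 ≤ lb μ b` with `th μ b (t', y') a (z a)` (`mem_XX`, `RO.mem_compl`).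
 (γ') for `a = c`, `t = ρ`, `y = x`: `b1`, `(t1, x1) ≤ (ρ, x)` with `th μ b1 (t1, x1) c (z c)`.
 (a) if `A u e a`, `c ≤ a`, `(t, y) ≤ (t1, x1)`, `th μ b1 (t, y) a ξ`, then `ξ = z a`: (γ') for `a`, `t`, `y`: `b2`, `(t2, y2) ≤ (t, y)`, `th μ b2 (t2, y2) a (z a)`. `IsThr.tot` at `c`: `(t3, y3) ≤ (t2, y2)`, `th μ b2 (t3, y3) c η`; `coh`: `rel (t3, y3) c a η (z a)`; and `rel (t3, y3) c a (z c) (z a)` by `can` and `top`; `fn`: `η = z c`. By (ii) for `b1, b2, t3, y3.2` either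
  `AgA` (at `q2 ≥ y3.1`): `ξ = z a`; or `AgB` at some `t' ≤ t3`, `l' ≤ y3.2`, `a_B ≤ c`: at `(t', (y3.1, l'))` decide `th μ b1` at `a_B` (value `ξ1`), then `th μ b2` at `a_B` (value `ξ2`); `coh` with `c`: `rel .. a_B c ξ1 (z c)`, `rel .. a_B c ξ2 (z c)`, so `ξ1 = ξ2` (`fn`), contradiction to `AgB`.
 (b) decide `th μ b1` at `δ`: `(t4, x4) ≤ (t1, x1)`, `η`. `Cnt.dir` for `{a | iΛ a ∈ u}`, `δ`, `ζ = η`, `ζ' = o μ`, `p = (t4, x4)`: for `iΛ a ∈ u` and `y ≤ (t4, x4)` take `c'` with `iΛ c' ∈ u` above `a`, `c` (directed; `iΛ c ∈ u` by `mem`), `a' ≥ c'` with `A u e a'`; decide `th μ b1` at `a'`: the value is `z a'` by (a); `coh`: `rel y a' δ (z a') η`; `top`: `rel y a' δ (z a') o`; `S.tot` for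
  `a ≤ a'` and `z a'`: `rel y' a a' ξ (z a')`; `comp` twice. Conclusion: `y ≤ (t4, x4)`, `θ` with `rel y δ δ θ η`, `rel y δ δ θ (o μ)`. `htop`: `rel y δ δ o o`, so `θ = o`; `coh` of `th μ b1` at `δ, δ`: `rel y δ δ η η`, so `θ = η`. So `th μ b1 y δ (o μ)`.
 (c) (i) for `b1`, `t = y.1`, `l = y.2.2`: `t' ≤ t`, `l' ≤ l`, and no condition below `(t', (q2, l'))` has `th μ b1 _ δ (o μ)`, `δ ∈ Dst`. But `(t', (y.2.1, l'))` has it (mono). Contradiction. -/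

universe u

namespace STP

open Cardinal

private theorem if_card {χ : Cardinal.{u}} (hχ : ℵ₀ ≤ χ) {Mi : Type u} (hMi : #Mi ≤ χ)
    (f : Mi → Type u) (hf : ∀ m, #(f m) ≤ χ) : #(Σ m, f m) ≤ χ := by
  rw [Cardinal.mk_sigma]
  refine (Cardinal.sum_le_sum _ (fun _ => χ) hf).trans ?_
  rw [Cardinal.sum_const']
  exact Cardinal.mul_le_of_le hχ hMi le_rfl

private theorem if_prod {χ : Cardinal.{u}} (hχ : ℵ₀ ≤ χ) {X Y : Type u} (hX : #X ≤ χ)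
    (hY : #Y ≤ χ) : #(X × Y) ≤ χ := by
  rw [Cardinal.mk_prod, Cardinal.lift_id, Cardinal.lift_id]
  exact Cardinal.mul_le_of_le hχ hX hY

private theorem if_normal {κ0 : Cardinal.{u}} {P Λ Y0 : Type u} [Preorder P]
    {U0 : (Pk κ0 Y0 → RO P) → RO P} (hU0 : NormalU κ0 Y0 (RO P) U0)
    {iΛ : Λ → Y0} (hiΛ : Function.Injective iΛ) {x : P} (Z : Λ → Pk κ0 Y0 → RO P)
    (h : ∀ a, x ∈ U0 (Z a)) : x ∈ U0 (fun u => ⨅ a, ⨅ _ : iΛ a ∈ u.1, Z a u) := by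
  have h1 : ∀ y, x ∈ U0 (fun u => ⨅ a, ⨅ _ : iΛ a = y, Z a u) := by
    intro y
    by_cases hy : ∃ a, iΛ a = y
    · obtain ⟨a, rfl⟩ := hy
      refine hU0.mono (fun u => ?_) x (h a)
      refine le_iInf₂ fun a' ha' => ?_
      rw [hiΛ ha']
    · refine hU0.mono (Z := fun _ => ⊤)
        (fun u => le_iInf₂ fun a' ha' => absurd ⟨a', ha'⟩ hy) x ?_
      rw [hU0.const]
      exact RO.mem_top
  refine hU0.mono (fun u => ?_) x (hU0.normal _ x (RO.mem_iInf.2 h1))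
  refine le_iInf₂ fun a ha => ?_
  exact (iInf₂_le (iΛ a) ha).trans
    (iInf₂_le (f := fun a' (_ : iΛ a' = iΛ a) => Z a' u) a rfl)

/-- (8.2) -/
private theorem if_one {ν χ : Cardinal.{u}} {Q L Λ N Mi : Type u} {T : Mi → Type u}
    {B : Mi → Type u} [PartialOrder Q] [PartialOrder L] [∀ m, PartialOrder (T m)] [Preorder Λ]
    (hχ : ℵ₀ ≤ χ) (hχν : χ ≤ ν) (hL : #L ≤ χ) (hMi : #Mi ≤ χ)
    (hT : ∀ m, #(T m) ≤ χ) (hB : ∀ m, #(B m) ≤ χ) (hQ : DC (Order.succ χ) Q) (hΛ : Dir ν Λ)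
    (hS : ChSup ν Λ) (S : ∀ m, Sys (T m × (Q × L)) Λ N) (o : Mi → N)
    (tm : ∀ m, T m) (p0 : Q × L)
    (q1 : Q) (hq1 : q1 ≤ p0.1) (a0 : Λ) (tb : ∀ m, B m → T m) (lb : ∀ m, B m → L)
    (th : ∀ m, B m → T m × (Q × L) → Λ → N → Prop) (htb : ∀ m b, tb m b ≤ tm m)
    (hth : ∀ m b, IsThr (S m).rel (tb m b, (q1, lb m b)) (th m b))
    (hbad : ∀ m, ∀ p ≤ (tm m, p0), ∀ th, IsThr (S m).rel p th →
      ∃ p' ≤ p, ∃ D : Set Λ, Club ν D ∧ ∀ q ≤ p', ∀ a ∈ D, ¬ th q a (o m)) :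
    ∃ q2 ≤ q1, ∃ (Dst : Set Λ) (c0 : Λ), Club ν Dst ∧ a0 ≤ c0 ∧
      (∀ m (b : B m) (t : T m) (l : L), t ≤ tb m b → l ≤ lb m b → l ≤ p0.2 →
        ∃ t' ≤ t, ∃ l' ≤ l, ∀ y ≤ (t', (q2, l')), ∀ a ∈ Dst, ¬ th m b y a (o m)) ∧
      (∀ m (b b' : B m) (t : T m) (l : L), t ≤ tb m b → t ≤ tb m b' → l ≤ lb m b → l ≤ lb m b' →
        (∀ y ≤ (t, (q2, l)), ∀ a ξ ξ', th m b y a ξ → th m b' y a ξ' → ξ = ξ') ∨
        ∃ t' ≤ t, ∃ l' ≤ l, ∃ a ≤ c0, ∀ y ≤ (t', (q2, l')), ∀ ξ,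
          ¬ (th m b y a ξ ∧ th m b' y a ξ)) := by
  classical
  have hν : ℵ₀ ≤ ν := hχ.trans hχν
  have hJ1 : #(Σ m, B m × (T m × L)) ≤ χ :=
    if_card hχ hMi _ fun m => if_prod hχ (hB m) (if_prod hχ (hT m) hL)
  have hJ2 : #(Σ m, (B m × B m) × (T m × L)) ≤ χ :=
    if_card hχ hMi _ fun m => if_prod hχ (if_prod hχ (hB m) (hB m)) (if_prod hχ (hT m) hL)
  obtain ⟨q2', hq2', h1'⟩ := REC hQ (Order.lt_succ_of_le hJ1)
    (fun (j : Σ m, B m × (T m × L)) q =>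
      j.2.2.1 ≤ tb j.1 j.2.1 → j.2.2.2 ≤ lb j.1 j.2.1 → j.2.2.2 ≤ p0.2 →
        ∃ t' ≤ j.2.2.1, ∃ l' ≤ j.2.2.2, ∃ D : Set Λ, Club ν D ∧
          ∀ y ≤ (t', (q, l')), ∀ a ∈ D, ¬ th j.1 j.2.1 y a (o j.1)) q1
    (by
      rintro ⟨m, b, t, l⟩ q r hr h g1 g2 g3
      obtain ⟨t', ht', l', hl', D, hD, h2⟩ := h g1 g2 g3
      exact ⟨t', ht', l', hl', D, hD, fun y hy => h2 y
        (hy.trans (Prod.mk_le_mk.2 ⟨le_rfl, Prod.mk_le_mk.2 ⟨hr, le_rfl⟩⟩))⟩)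
    (by
      rintro ⟨m, b, t, l⟩ q hq
      by_cases g : t ≤ tb m b ∧ l ≤ lb m b ∧ l ≤ p0.2
      · obtain ⟨g1, g2, g3⟩ := g
        have e1 : (t, (q, l)) ≤ (tm m, p0) := ⟨g1.trans (htb m b), hq.trans hq1, g3⟩
        have e2 : (t, (q, l)) ≤ (tb m b, (q1, lb m b)) := ⟨g1, hq, g2⟩
        obtain ⟨⟨t', q', l'⟩, hp', D, hD, h3⟩ := hbad m _ e1 (th m b) ((hth m b).below e2)
        exact ⟨q', hp'.2.1, fun _ _ _ => ⟨t', hp'.1, l', hp'.2.2, D, hD, h3⟩⟩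
      · exact ⟨q, le_rfl, fun g1 g2 g3 => absurd ⟨g1, g2, g3⟩ g⟩)
  obtain ⟨q2, hq2, h2⟩ := REC hQ (Order.lt_succ_of_le hJ2)
    (fun (j : Σ m, (B m × B m) × (T m × L)) q =>
      j.2.2.1 ≤ tb j.1 j.2.1.1 → j.2.2.1 ≤ tb j.1 j.2.1.2 → j.2.2.2 ≤ lb j.1 j.2.1.1 →
        j.2.2.2 ≤ lb j.1 j.2.1.2 →
        (∀ y ≤ (j.2.2.1, (q, j.2.2.2)), ∀ a ξ ξ', th j.1 j.2.1.1 y a ξ →
          th j.1 j.2.1.2 y a ξ' → ξ = ξ') ∨
        ∃ t' ≤ j.2.2.1, ∃ l' ≤ j.2.2.2, ∃ a, ∀ y ≤ (t', (q, l')), ∀ ξ,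
          ¬ (th j.1 j.2.1.1 y a ξ ∧ th j.1 j.2.1.2 y a ξ)) q2'
    (by
      rintro ⟨m, ⟨b, b'⟩, t, l⟩ q r hr h g1 g2 g3 g4
      rcases h g1 g2 g3 g4 with h3 | ⟨t', ht', l', hl', a, h3⟩
      · exact Or.inl fun y hy => h3 y
          (hy.trans (Prod.mk_le_mk.2 ⟨le_rfl, Prod.mk_le_mk.2 ⟨hr, le_rfl⟩⟩))
      · exact Or.inr ⟨t', ht', l', hl', a, fun y hy => h3 y
          (hy.trans (Prod.mk_le_mk.2 ⟨le_rfl, Prod.mk_le_mk.2 ⟨hr, le_rfl⟩⟩))⟩)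
    (by
      rintro ⟨m, ⟨b, b'⟩, t, l⟩ q hq
      by_cases g : t ≤ tb m b ∧ t ≤ tb m b' ∧ l ≤ lb m b ∧ l ≤ lb m b'
      · obtain ⟨g1, g2, g3, g4⟩ := g
        by_cases hA : ∀ y ≤ (t, (q, l)), ∀ a ξ ξ', th m b y a ξ → th m b' y a ξ' → ξ = ξ'
        · exact ⟨q, le_rfl, fun _ _ _ _ => Or.inl hA⟩
        · push Not at hA
          obtain ⟨⟨t', q', l'⟩, hy, a, ξ, ξ', e1, e2, hne⟩ := hA
          refine ⟨q', hy.2.1, fun _ _ _ _ => Or.inr ⟨t', hy.1, l', hy.2.2, a, ?_⟩⟩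
          rintro y' hy' η ⟨e3, e4⟩
          have hq' : q' ≤ q1 := hy.2.1.trans (hq.trans hq2')
          have f1 : y' ≤ (tb m b, (q1, lb m b)) :=
            hy'.trans ⟨le_trans hy.1 g1, hq', le_trans hy.2.2 g3⟩
          have f2 : y' ≤ (tb m b', (q1, lb m b')) :=
            hy'.trans ⟨le_trans hy.1 g2, hq', le_trans hy.2.2 g4⟩
          have f3 := (hth m b).single f1 ((hth m b).mono hy' e1) e3
          have f4 := (hth m b').single f2 ((hth m b').mono hy' e2) e4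
          exact hne (f3.trans f4.symm)
      · exact ⟨q, le_rfl, fun g1 g2 g3 g4 => absurd ⟨g1, g2, g3, g4⟩ g⟩)
  -- the clubs
  have hc1 : ∀ j : (Σ m, B m × (T m × L)), ∃ D : Set Λ, Club ν D ∧
      (j.2.2.1 ≤ tb j.1 j.2.1 → j.2.2.2 ≤ lb j.1 j.2.1 → j.2.2.2 ≤ p0.2 →
        ∃ t' ≤ j.2.2.1, ∃ l' ≤ j.2.2.2,
          ∀ y ≤ (t', (q2, l')), ∀ a ∈ D, ¬ th j.1 j.2.1 y a (o j.1)) := by
    rintro ⟨m, b, t, l⟩
    by_cases g : t ≤ tb m b ∧ l ≤ lb m b ∧ l ≤ p0.2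
    · obtain ⟨g1, g2, g3⟩ := g
      obtain ⟨t', ht', l', hl', D, hD, h3⟩ := h1' ⟨m, b, t, l⟩ g1 g2 g3
      exact ⟨D, hD, fun _ _ _ => ⟨t', ht', l', hl', fun y hy => h3 y
        (hy.trans (Prod.mk_le_mk.2 ⟨le_rfl, Prod.mk_le_mk.2 ⟨hq2, le_rfl⟩⟩))⟩⟩
    · exact ⟨Set.univ, ⟨fun a => ⟨a, trivial, le_rfl⟩, fun _ _ _ _ _ _ _ => trivial⟩,
        fun g1 g2 g3 => absurd ⟨g1, g2, g3⟩ g⟩
  choose Dj hDj hDj2 using hc1
  have hc2 : ∀ j : (Σ m, (B m × B m) × (T m × L)), ∃ a : Λ,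
      (j.2.2.1 ≤ tb j.1 j.2.1.1 → j.2.2.1 ≤ tb j.1 j.2.1.2 → j.2.2.2 ≤ lb j.1 j.2.1.1 →
        j.2.2.2 ≤ lb j.1 j.2.1.2 →
        (∀ y ≤ (j.2.2.1, (q2, j.2.2.2)), ∀ a ξ ξ', th j.1 j.2.1.1 y a ξ →
          th j.1 j.2.1.2 y a ξ' → ξ = ξ') ∨
        ∃ t' ≤ j.2.2.1, ∃ l' ≤ j.2.2.2, ∀ y ≤ (t', (q2, l')), ∀ ξ,
          ¬ (th j.1 j.2.1.1 y a ξ ∧ th j.1 j.2.1.2 y a ξ)) := by
    rintro ⟨m, ⟨b, b'⟩, t, l⟩
    by_cases g : t ≤ tb m b ∧ t ≤ tb m b' ∧ l ≤ lb m b ∧ l ≤ lb m b'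
    · obtain ⟨g1, g2, g3, g4⟩ := g
      rcases h2 ⟨m, ⟨b, b'⟩, t, l⟩ g1 g2 g3 g4 with h3 | ⟨t', ht', l', hl', a, h3⟩
      · exact ⟨a0, fun _ _ _ _ => Or.inl h3⟩
      · exact ⟨a, fun _ _ _ _ => Or.inr ⟨t', ht', l', hl', h3⟩⟩
    · exact ⟨a0, fun g1 g2 g3 g4 => absurd ⟨g1, g2, g3, g4⟩ g⟩
  choose aB haB using hc2
  obtain ⟨c0, hc0⟩ := hΛ (Set.range fun j : Option (Σ m, (B m × B m) × (T m × L)) =>
    j.elim a0 aB) (Cardinal.mk_range_le.trans (by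
      rw [Cardinal.mk_option]
      exact Cardinal.add_le_of_le hν (hJ2.trans hχν) (Cardinal.one_le_aleph0.trans hν)))
  refine ⟨q2, hq2.trans hq2', ⋂ j, Dj j, c0,
    Club.inter hν hΛ hS (hJ1.trans hχν) Dj hDj, hc0 _ ⟨none, rfl⟩, ?_, ?_⟩
  · intro m b t l g1 g2 g3
    obtain ⟨t', ht', l', hl', h3⟩ := hDj2 ⟨m, b, t, l⟩ g1 g2 g3
    exact ⟨t', ht', l', hl', fun y hy a ha => h3 y hy a (Set.mem_iInter.1 ha _)⟩
  · intro m b b' t l g1 g2 g3 g4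
    rcases haB ⟨m, ⟨b, b'⟩, t, l⟩ g1 g2 g3 g4 with h3 | ⟨t', ht', l', hl', h3⟩
    · exact Or.inl h3
    · exact Or.inr ⟨t', ht', l', hl', _, hc0 _ ⟨some ⟨m, ⟨b, b'⟩, t, l⟩, rfl⟩, h3⟩

/-- (8.3), the choice of `u`. -/
private theorem if_two {κ0 ν : Cardinal.{u}} {Q L Λ N Mi Y0 : Type u} {T : Mi → Type u}
    {B : Mi → Type u} [PartialOrder Q] [PartialOrder L] [∀ m, PartialOrder (T m)] [Preorder Λ]
    (hκ0 : ℵ₀ ≤ κ0) (hκ0ν : κ0 ≤ ν) (hΛ : Dir ν Λ)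
    (hS : ChSup ν Λ) (S : ∀ m, Sys (T m × (Q × L)) Λ N) (o : Mi → N)
    (tm : ∀ m, T m) (N0 : Set N)
    {U0 : (Pk κ0 Y0 → RO (Q × L)) → RO (Q × L)} (hU0 : NormalU κ0 Y0 (RO (Q × L)) U0)
    (iΛ : Λ → Y0) (hiΛ : Function.Injective iΛ) {E : Pk κ0 Y0 → Type u}
    {F : ∀ u, E u → RO (Q × L)} {A : ∀ u, E u → Λ → Prop} {m : Pk κ0 Y0 → Mi}
    {ρ : ∀ u, E u → T (m u)} {z : ∀ u, E u → Λ → N} {d : Pk κ0 Y0 → Λ}
    (hD : TopD iΛ S o tm N0 E F A m ρ z d) (p0 : Q × L)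
    (hcof : ∀ a, ∀ q ≤ p0, ∃ q' ≤ q, ∃ a', a ≤ a' ∧ q' ∈ U0 (TopD.Z F A a'))
    (q1 : Q) (hq1 : q1 ≤ p0.1) (a0 : Λ) (tb : ∀ m, B m → T m) (lb : ∀ m, B m → L)
    (th : ∀ m, B m → T m × (Q × L) → Λ → N → Prop)
    (hmono : ∀ m b p q a ξ, q ≤ p → th m b p a ξ → th m b q a ξ)
    (hcov : ∀ a, a0 ≤ a → ∀ x ≤ (q1, p0.2),
      x ∉ U0 (TopD.TT F A m ρ z a (fun m t ξ => XX tb lb th a m t ξ)))
    {Dst : Set Λ} (hDst : Club ν Dst) (c : Λ) {x3 : Q × L} (hx3 : x3 ≤ (q1, p0.2))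
    (hx3c : x3 ∈ U0 (TopD.Z F A c)) :
    ∃ (u : Pk κ0 Y0) (e : E u) (x : Q × L), x ≤ x3 ∧ x ∈ F u e ∧ A u e c ∧
      {a | iΛ a ∈ u.1}.Nonempty ∧ DirectedOn (· ≤ ·) {a | iΛ a ∈ u.1} ∧
      (∀ d, IsLUB {a | iΛ a ∈ u.1} d → d ∈ Dst) ∧
      (∀ a, iΛ a ∈ u.1 → ∃ a', a ≤ a' ∧ A u e a') ∧
      (∀ a, A u e a → a0 ≤ a → ∀ t ≤ ρ u e, ∀ y ≤ x, ∃ b : B (m u), ∃ t' ≤ t, t' ≤ tb (m u) b ∧
        ∃ y' ≤ y, y'.2 ≤ lb (m u) b ∧ th (m u) b (t', y') a (z u e a)) := by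
  classical
  have hν : ℵ₀ ≤ ν := hκ0.trans hκ0ν
  have hFZ : ∀ u e a, A u e a → F u e ≤ TopD.Z F A a u := fun u e a h =>
    le_iSup₂_of_le (f := fun e (_ : A u e a) => F u e) e h le_rfl
  -- (β)
  have hβ : x3 ∈ U0 (fun u => ⨅ a, ⨅ _ : iΛ a ∈ u.1,
      ⨆ a', ⨆ _ : iΛ a' ∈ u.1 ∧ a ≤ a', TopD.Z F A a' u) := by
    refine if_normal hU0 hiΛ (fun a u => ⨆ a', ⨆ _ : iΛ a' ∈ u.1 ∧ a ≤ a', TopD.Z F A a' u)
      fun a => ?_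
    refine RO.locally _ fun y hy => ?_
    obtain ⟨y', hy', a', haa', h1⟩ := hcof a y (hy.trans (hx3.trans ⟨hq1, le_rfl⟩))
    refine ⟨y', hy', hU0.mono (fun u => ?_) y' h1⟩
    refine iSup₂_le fun e he => ?_
    exact (hFZ u e a' he).trans (le_iSup₂_of_le
      (f := fun a' (_ : iΛ a' ∈ u.1 ∧ a ≤ a') => TopD.Z F A a' u) a' ⟨hD.mem u e a' he, haa'⟩
      le_rfl)
  -- (γ)
  obtain ⟨W, hW⟩ : ∃ W : Λ → Pk κ0 Y0 → RO (Q × L), W = fun a u => ⨆ e, ⨆ _ : A u e a,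
      F u e ⊓ ⨅ t, ⨅ _ : t ≤ ρ u e, (XX tb lb th a (m u) t (z u e a))ᶜ := ⟨_, rfl⟩
  have hγ : x3 ∈ U0 (fun u => ⨅ a, ⨅ _ : iΛ a ∈ u.1, ⨅ _ : a0 ≤ a,
      (TopD.Z F A a u)ᶜ ⊔ W a u) := by
    refine if_normal hU0 hiΛ (fun a u => ⨅ _ : a0 ≤ a, (TopD.Z F A a u)ᶜ ⊔ W a u)
      fun a => ?_
    by_cases ha : a0 ≤ a
    · have h1 : x3 ∈ U0 (fun u => (TopD.Z F A a u)ᶜ ⊔ W a u) := by
        refine RO.locally _ fun y hy => ?_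
        by_contra hcon
        push Not at hcon
        have h2 : y ∈ (U0 (fun u => (TopD.Z F A a u)ᶜ ⊔ W a u))ᶜ := RO.mem_compl.2 hcon
        rw [← hU0.compl (fun u => (TopD.Z F A a u)ᶜ ⊔ W a u)] at h2
        refine hcov a ha y (hy.trans hx3) (hU0.mono (fun u q hq => ?_) y h2)
        rw [compl_sup, compl_compl] at hq
        obtain ⟨hq1, hq2⟩ := RO.mem_inf.1 hq
        unfold TopD.Z at hq1
        unfold TopD.TT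
        rw [RO.mem_iSup]
        intro q' hq'
        obtain ⟨r, hr, e, h3⟩ := RO.mem_iSup.1 hq1 q' hq'
        obtain ⟨r', hr', he, h4⟩ := RO.mem_iSup.1 h3 r le_rfl
        have h5 : r' ∉ W a u := RO.mem_compl.1 hq2 r' (hr'.trans (hr.trans hq'))
        by_cases h6 : ∃ t, ∃ _ : t ≤ ρ u e, ∃ s ≤ r', s ∈ XX tb lb th a (m u) t (z u e a)
        · obtain ⟨t, ht, s, hs, h7⟩ := h6
          refine ⟨s, hs.trans (hr'.trans hr), e, ?_⟩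
          have h8 : s ∈ F u e ⊓ XX tb lb th a (m u) t (z u e a) :=
            RO.mem_inf.2 ⟨(F u e).down hs h4, h7⟩
          have h9 : (F u e ⊓ XX tb lb th a (m u) t (z u e a)) ≤
              ⨆ _ : A u e a, ⨆ t, ⨆ _ : t ≤ ρ u e, F u e ⊓ XX tb lb th a (m u) t (z u e a) := by
            refine le_iSup_of_le he ?_
            exact le_iSup₂_of_le (f := fun t (_ : t ≤ ρ u e) =>
              F u e ⊓ XX tb lb th a (m u) t (z u e a)) t ht le_rfl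
          exact h9 s h8
        · exfalso
          push Not at h6
          apply h5
          rw [hW]
          have h8 : r' ∈ F u e ⊓ ⨅ t, ⨅ _ : t ≤ ρ u e, (XX tb lb th a (m u) t (z u e a))ᶜ := by
            refine RO.mem_inf.2 ⟨h4, ?_⟩
            rw [RO.mem_iInf]
            intro t
            rw [RO.mem_iInf]
            intro ht
            exact RO.mem_compl.2 fun s hs => h6 t ht s hs
          exact le_iSup₂_of_le (f := fun e (_ : A u e a) =>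
            F u e ⊓ ⨅ t, ⨅ _ : t ≤ ρ u e, (XX tb lb th a (m u) t (z u e a))ᶜ) e he le_rfl r' h8
      exact hU0.mono (fun u => le_iInf fun _ => le_rfl) x3 h1
    · refine hU0.mono (Z := fun _ => ⊤) (fun u => le_iInf fun h => absurd h ha) x3 ?_
      rw [hU0.const]
      exact RO.mem_top
  have hα1 : x3 ∈ U0 (fun u => chi ({a | iΛ a ∈ u.1}.Nonempty ∧
      DirectedOn (· ≤ ·) {a | iΛ a ∈ u.1})) := hU0.of_top (ae_dir hU0 hκ0 hν hΛ iΛ hiΛ)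
  have hα2 : x3 ∈ U0 (fun u => chi (∀ d, IsLUB {a | iΛ a ∈ u.1} d → d ∈ Dst)) :=
    hU0.of_top (ae_club hU0 hκ0 hν hκ0ν hΛ hS iΛ hiΛ hDst)
  obtain ⟨u, x, hx, hxu⟩ := hU0.exists_mem
    (hU0.mem_inf.2 ⟨hα1, hU0.mem_inf.2 ⟨hα2, hU0.mem_inf.2 ⟨hβ, hU0.mem_inf.2 ⟨hγ, hx3c⟩⟩⟩⟩)
  obtain ⟨x1, x2, x4, x5, x6⟩ := hxu
  obtain ⟨hne, hdir⟩ := RO.mem_chi.1 x1
  have hlub := RO.mem_chi.1 x2
  unfold TopD.Z at x6
  obtain ⟨r, hr, e, h3⟩ := RO.mem_iSup.1 x6 x le_rfl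
  obtain ⟨r', hr', he, h4⟩ := RO.mem_iSup.1 h3 r le_rfl
  have hr'x : r' ≤ x := hr'.trans hr
  have hdis : ∀ e' y, y ≤ r' → y ∈ F u e' → e' = e := by
    intro e' y hy hy'
    by_contra hne
    have h5 : y ∈ F u e' ⊓ F u e := RO.mem_inf.2 ⟨hy', (F u e).down hy h4⟩
    rw [hD.dis u e' e hne] at h5
    exact RO.not_mem_bot h5
  refine ⟨u, e, r', hr'x.trans hx, h4, he, hne, hdir, hlub, ?_, ?_⟩
  · intro a ha
    have h5 := RO.mem_iInf.1 (RO.mem_iInf.1 x4 a) ha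
    obtain ⟨y1, hy1, a', h6⟩ := RO.mem_iSup.1 h5 r' hr'x
    obtain ⟨y2, hy2, haa, h7⟩ := RO.mem_iSup.1 h6 y1 le_rfl
    unfold TopD.Z at h7
    obtain ⟨y3, hy3, e', h8⟩ := RO.mem_iSup.1 h7 y2 le_rfl
    obtain ⟨y4, hy4, he', h9⟩ := RO.mem_iSup.1 h8 y3 le_rfl
    have h10 : e' = e := hdis e' y4 (hy4.trans (hy3.trans (hy2.trans hy1))) h9
    exact ⟨a', haa.2, h10 ▸ he'⟩
  · intro a hAa ha0 t ht y hy
    have h5 := RO.mem_iInf.1 (RO.mem_iInf.1 (RO.mem_iInf.1 x5 a) (hD.mem u e a hAa)) ha0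
    obtain ⟨y1, hy1, h6⟩ := RO.mem_sup.1 h5 y (hy.trans hr'x)
    have hy1F : y1 ∈ F u e := (F u e).down (hy1.trans hy) h4
    rcases h6 with h6 | h6
    · exact absurd (hFZ u e a hAa y1 hy1F) (RO.mem_compl.1 h6 y1 le_rfl)
    · rw [hW] at h6
      obtain ⟨y2, hy2, e', h7⟩ := RO.mem_iSup.1 h6 y1 le_rfl
      obtain ⟨y3, hy3, he', h8⟩ := RO.mem_iSup.1 h7 y2 le_rfl
      obtain ⟨h9, h10⟩ := RO.mem_inf.1 h8
      have h11 : e' = e := hdis e' y3 (hy3.trans (hy2.trans (hy1.trans hy))) h9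
      subst h11
      have h12 := RO.mem_compl.1 (RO.mem_iInf.1 (RO.mem_iInf.1 h10 t) ht) y3 le_rfl
      rw [mem_XX hmono] at h12
      push Not at h12
      obtain ⟨b, t', ht', htb', y', hy', hl, hth⟩ := h12
      exact ⟨b, t', ht', htb', y', hy'.trans (hy3.trans (hy2.trans hy1)), hl, hth⟩

theorem ifinal {κ0 ν χ : Cardinal.{u}} {Q L Λ N Mi Y0 : Type u} {T : Mi → Type u}
    {B : Mi → Type u} [PartialOrder Q] [PartialOrder L] [∀ m, PartialOrder (T m)] [Preorder Λ]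
    (hκ0 : ℵ₀ ≤ κ0) (hκ0ν : κ0 ≤ ν) (hχ : ℵ₀ ≤ χ) (hχν : χ ≤ ν) (hL : #L ≤ χ) (hMi : #Mi ≤ χ)
    (hT : ∀ m, #(T m) ≤ χ) (hB : ∀ m, #(B m) ≤ χ) (hQ : DC (Order.succ χ) Q) (hΛ : Dir ν Λ)
    (hS : ChSup ν Λ) (S : ∀ m, Sys (T m × (Q × L)) Λ N) (o : Mi → N)
    (htop : ∀ m, (S m).Top (o m)) (hcnt : ∀ m, (S m).Cnt ν) (tm : ∀ m, T m) (N0 : Set N)
    {U0 : (Pk κ0 Y0 → RO (Q × L)) → RO (Q × L)} (hU0 : NormalU κ0 Y0 (RO (Q × L)) U0)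
    (iΛ : Λ → Y0) (hiΛ : Function.Injective iΛ) {E : Pk κ0 Y0 → Type u}
    {F : ∀ u, E u → RO (Q × L)} {A : ∀ u, E u → Λ → Prop} {m : Pk κ0 Y0 → Mi}
    {ρ : ∀ u, E u → T (m u)} {z : ∀ u, E u → Λ → N} {d : Pk κ0 Y0 → Λ}
    (hD : TopD iΛ S o tm N0 E F A m ρ z d) (p0 : Q × L)
    (hcof : ∀ a, ∀ q ≤ p0, ∃ q' ≤ q, ∃ a', a ≤ a' ∧ q' ∈ U0 (TopD.Z F A a'))
    (q1 : Q) (hq1 : q1 ≤ p0.1) (a0 : Λ) (tb : ∀ m, B m → T m) (lb : ∀ m, B m → L)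
    (th : ∀ m, B m → T m × (Q × L) → Λ → N → Prop) (htb : ∀ m b, tb m b ≤ tm m)
    (hth : ∀ m b, IsThr (S m).rel (tb m b, (q1, lb m b)) (th m b))
    (hcov : ∀ a, a0 ≤ a → ∀ x ≤ (q1, p0.2),
      x ∉ U0 (TopD.TT F A m ρ z a (fun m t ξ => XX tb lb th a m t ξ)))
    (hbad : ∀ m, ∀ p ≤ (tm m, p0), ∀ th, IsThr (S m).rel p th →
      ∃ p' ≤ p, ∃ D : Set Λ, Club ν D ∧ ∀ q ≤ p', ∀ a ∈ D, ¬ th q a (o m)) : False := by
  classical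
  have hν : ℵ₀ ≤ ν := hχ.trans hχν
  have hmono : ∀ m b p q a ξ, q ≤ p → th m b p a ξ → th m b q a ξ :=
    fun m b p q a ξ hq h => (hth m b).mono hq h
  obtain ⟨q2, hq2, Dst, c0, hDst, hc0, H1, H2⟩ := if_one hχ hχν hL hMi hT hB hQ hΛ hS S o tm p0
    q1 hq1 a0 tb lb th htb hth hbad
  obtain ⟨x3, hx3, c, hc, hx3c⟩ := hcof c0 (q2, p0.2) ⟨hq2.trans hq1, le_rfl⟩
  have hx31 : x3.1 ≤ q2 := hx3.1
  have hx32 : x3.2 ≤ p0.2 := hx3.2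
  obtain ⟨u, e, x, hx, hxF, hAc, hne, hdir, hlub, hβ, hγ⟩ := if_two hκ0 hκ0ν hΛ hS S o tm N0 hU0
    iΛ hiΛ hD p0 hcof q1 hq1 a0 tb lb th hmono hcov hDst c (hx3.trans ⟨hq2, le_rfl⟩) hx3c
  have hxq : x.1 ≤ q2 := hx.1.trans hx31
  have hxl : x.2 ≤ p0.2 := hx.2.trans hx32
  have hcard : #{a | iΛ a ∈ u.1} ≤ ν :=
    (Cardinal.mk_preimage_of_injective iΛ u.1 hiΛ).trans (u.2.le.trans hκ0ν)
  have hLub : IsLUB {a | iΛ a ∈ u.1} (d u) := hD.lub u (dir_sup hν hS hne hdir hcard)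
  have hδ : d u ∈ Dst := hlub _ hLub
  have hle : ∀ a, A u e a → a ≤ d u := fun a ha => hLub.1 (hD.mem u e a ha)
  have htop' : ∀ a, A u e a → ∀ p : T (m u) × (Q × L), p ≤ (ρ u e, x) →
      (S (m u)).rel p a (d u) (z u e a) (o (m u)) := by
    rintro a ha ⟨t, q⟩ ⟨h1, h2⟩
    exact (S (m u)).mono (Prod.mk_le_mk.2 ⟨h1, le_rfl⟩)
      (hD.top u e a ha q ((F u e).down h2 hxF))
  obtain ⟨b1, t1, ht1, ht1b, x1, hx1, hx1l, hth1⟩ := hγ c hAc (hc0.trans hc) (ρ u e) le_rfl x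
    le_rfl
  have hx1q : x1.1 ≤ q2 := hx1.1.trans hxq
  have hx1p : x1.2 ≤ p0.2 := hx1.2.trans hxl
  have hp1 : ((t1, x1) : T (m u) × (Q × L)) ≤ (tb (m u) b1, (q1, lb (m u) b1)) :=
    ⟨ht1b, hx1q.trans hq2, hx1l⟩
  -- (a)
  have ha : ∀ a, A u e a → c ≤ a → ∀ (t : T (m u)) (y : Q × L), t ≤ t1 → y ≤ x1 → ∀ ξ,
      th (m u) b1 (t, y) a ξ → ξ = z u e a := by
    intro a hAa hca t y ht hy ξ hξ
    obtain ⟨b2, t2, ht2, ht2b, y2, hy2, hy2l, hth2⟩ := hγ a hAa (hc0.trans (hc.trans hca)) t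
      (ht.trans ht1) y (hy.trans hx1)
    have hy2q : y2.1 ≤ q2 := (hy2.1.trans hy.1).trans hx1q
    have hp2 : ((t2, y2) : T (m u) × (Q × L)) ≤ (tb (m u) b2, (q1, lb (m u) b2)) :=
      ⟨ht2b, hy2q.trans hq2, hy2l⟩
    obtain ⟨⟨t3, y3⟩, h3, η, hη⟩ := (hth (m u) b2).tot c (t2, y2) hp2
    have h3t : t3 ≤ t2 := h3.1
    have h3y : y3 ≤ y2 := h3.2
    have h31 : ((t3, y3) : T (m u) × (Q × L)) ≤ (t1, x1) :=
      ⟨h3t.trans (ht2.trans ht), h3y.trans (hy2.trans hy)⟩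
    have h3ρ : ((t3, y3) : T (m u) × (Q × L)) ≤ (ρ u e, x) := h31.trans ⟨ht1, hx1⟩
    have h4 := (hth (m u) b2).coh (h3.trans hp2) hca hη ((hth (m u) b2).mono h3 hth2)
    have h5 := (S (m u)).can hca (hle a hAa) (htop' c hAc _ h3ρ) (htop' a hAa _ h3ρ)
    have h6 : η = z u e c := (S (m u)).fn h4 h5
    subst h6
    have hξ3 : th (m u) b1 (t3, y3) a ξ := (hth (m u) b1).mono
      (show (t3, y3) ≤ (t, y) from ⟨h3t.trans ht2, h3y.trans hy2⟩) hξ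
    have hz3 : th (m u) b2 (t3, y3) a (z u e a) := (hth (m u) b2).mono h3 hth2
    have hc1 : th (m u) b1 (t3, y3) c (z u e c) := (hth (m u) b1).mono h31 hth1
    have hy3q : y3.1 ≤ q2 := h3y.1.trans hy2q
    rcases H2 (m u) b1 b2 t3 y3.2 (h31.1.trans ht1b) (h3t.trans ht2b) (h31.2.2.trans hx1l)
      (h3y.2.trans hy2l) with hA | ⟨t', ht', l', hl', aB, haB, hB'⟩
    · exact hA (t3, y3) ⟨le_rfl, hy3q, le_rfl⟩ a ξ _ hξ3 hz3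
    · exfalso
      have h7 : ((t', (y3.1, l')) : T (m u) × (Q × L)) ≤ (t3, y3) := ⟨ht', le_rfl, hl'⟩
      obtain ⟨y4, hy4, ξ1, hξ1⟩ := (hth (m u) b1).tot aB (t', (y3.1, l'))
        (h7.trans (h31.trans hp1))
      obtain ⟨y5, hy5, ξ2, hξ2⟩ := (hth (m u) b2).tot aB y4
        (hy4.trans (h7.trans (h3.trans hp2)))
      have h8 : y5 ≤ (t3, y3) := hy5.trans (hy4.trans h7)
      have h9 := (hth (m u) b1).coh (h8.trans (h31.trans hp1)) (haB.trans hc)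
        ((hth (m u) b1).mono hy5 hξ1) ((hth (m u) b1).mono h8 hc1)
      have h10 := (hth (m u) b2).coh (h8.trans (h3.trans hp2)) (haB.trans hc)
        hξ2 ((hth (m u) b2).mono h8 hη)
      have h11 : ξ1 = ξ2 := (S (m u)).fn h9 h10
      subst h11
      exact hB' y5 (hy5.trans (hy4.trans ⟨le_rfl, hy3q, le_rfl⟩)) ξ1
        ⟨(hth (m u) b1).mono hy5 hξ1, hξ2⟩
  -- (b)
  obtain ⟨⟨t4, x4⟩, h4, η, hη⟩ := (hth (m u) b1).tot (d u) (t1, x1) hp1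
  have h4t : t4 ≤ t1 := h4.1
  have h4x : x4 ≤ x1 := h4.2
  obtain ⟨⟨ty, y⟩, hy, θ, hθ1, hθ2⟩ := Cnt.dir hν hS (S (m u)) (hcnt (m u)) hne hdir hcard hLub
    (t4, x4) η (o (m u)) (by
      rintro a has ⟨t', y'⟩ hy'
      have ht' : t' ≤ t4 := hy'.1
      have hyy' : y' ≤ x4 := hy'.2
      obtain ⟨c', hc's, hac', hcc'⟩ := hdir a has c (hD.mem u e c hAc)
      obtain ⟨a', hca', hAa'⟩ := hβ c' hc's
      have h5 : ((t', y') : T (m u) × (Q × L)) ≤ (t1, x1) := hy'.trans h4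
      obtain ⟨⟨t5, y5⟩, h6, ξ', hξ'⟩ := (hth (m u) b1).tot a' (t', y') (h5.trans hp1)
      have h7 : ((t5, y5) : T (m u) × (Q × L)) ≤ (t1, x1) := h6.trans h5
      have h8 : ξ' = z u e a' := ha a' hAa' (hcc'.trans hca') t5 y5 h7.1 h7.2 ξ' hξ'
      subst h8
      have h9 := (hth (m u) b1).coh (h7.trans hp1) (hle a' hAa') hξ'
        ((hth (m u) b1).mono (h6.trans hy') hη)
      have h10 := htop' a' hAa' (t5, y5) (h7.trans ⟨ht1, hx1⟩)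
      obtain ⟨q6, hq6, ξ, hξ⟩ := (S (m u)).tot (hac'.trans hca') (t5, y5) (z u e a')
      exact ⟨q6, hq6.trans h6, ξ,
        (S (m u)).comp (hac'.trans hca') (hle a' hAa') hξ ((S (m u)).mono hq6 h9),
        (S (m u)).comp (hac'.trans hca') (hle a' hAa') hξ ((S (m u)).mono hq6 h10)⟩)
    (t4, x4) le_rfl
  have hyt : ty ≤ t4 := hy.1
  have hyx : y ≤ x4 := hy.2
  have hθo : θ = o (m u) := (S (m u)).fn hθ2 (htop (m u) (ty, y) (d u))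
  have hηy : th (m u) b1 (ty, y) (d u) η := (hth (m u) b1).mono hy hη
  have hθη : θ = η := (S (m u)).fn hθ1
    ((hth (m u) b1).coh (hy.trans (h4.trans hp1)) le_rfl hηy hηy)
  rw [← hθη, hθo] at hηy
  -- (c)
  obtain ⟨t', ht', l', hl', h5⟩ := H1 (m u) b1 ty y.2 (hyt.trans (h4t.trans ht1b))
    ((hyx.2.trans h4x.2).trans hx1l) ((hyx.2.trans h4x.2).trans hx1p)
  refine h5 (t', (y.1, l')) ⟨le_rfl, (hyx.1.trans h4x.1).trans hx1q, le_rfl⟩ (d u) hδ ?_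
  exact (hth (m u) b1).mono (show (t', (y.1, l')) ≤ (ty, y) from ⟨ht', le_rfl, hl'⟩) hηy

end STP
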