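import Pool.Agent.STP.IDef
import Pool.Agent.STP.Nu

/-! # Transport along an isomorphism of posets (package I7)

(problem MP_e44aae_lc, project STP, ITP extension)

`e : Q ≃o P`. `roE e : RO Q ≃o RO P` (`x ∈ roE e V ↔ e.symm x ∈ V`); it preserves `⊓`, complements, arbitrary suprema and infima (`OrderIso.map_iSup`, `map_iInf`, `map_compl`, `map_inf`, `map_bot`, `map_top`), and `chi`.
* `NormalU.tr`: `U' Z := roE e (U (fun u => (roE e).symm (Z u)))` is normal: every axiom is transported (`(roE e).symm` of `⊓`, `ᶜ`, `⨅`, `chi p` is the same operation).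
* `mem_tr`: `x ∈ U' (fun u => roE e (Z u)) ↔ e.symm x ∈ U Z`.
* `TopD.tr`: the data for systems over `T m × Q` become data for the systems over `T m × P` pulled back along `(t, x) ↦ (t, e.symm x)` (`Sys.comap`; its relation is `S.rel (t, e.symm x)`), with `F' u e' := roE e (F u e')` and the same `E, A, m, ρ, z, d`. -/

universe u

namespace STP

open Cardinal

variable {P Q : Type u} [Preorder P] [Preorder Q]

/-- the isomorphism of the regular open algebras -/
def roE (e : Q ≃o P) : RO Q ≃o RO P where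
  toFun V :=
    { carrier := {x | e.symm x ∈ V}
      reg := fun p => by
        constructor
        · intro h q hq
          exact ⟨q, le_rfl, V.down (e.symm.monotone hq) h⟩
        · intro h
          refine V.locally fun q hq => ?_
          obtain ⟨r, hr, h1⟩ := h (e q) (e.le_symm_apply.1 hq)
          refine ⟨e.symm r, ?_, h1⟩
          have h2 := e.symm.monotone hr
          rwa [e.symm_apply_apply] at h2 }
  invFun V :=
    { carrier := {x | e x ∈ V}
      reg := fun p => by
        constructor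
        · intro h q hq
          exact ⟨q, le_rfl, V.down (e.monotone hq) h⟩
        · intro h
          refine V.locally fun q hq => ?_
          obtain ⟨r, hr, h1⟩ := h (e.symm q) (e.symm_apply_le.2 hq)
          refine ⟨e r, ?_, h1⟩
          have h2 := e.monotone hr
          rwa [e.apply_symm_apply] at h2 }
  left_inv V := RO.ext' fun x => by
    change e.symm (e x) ∈ V ↔ x ∈ V
    rw [e.symm_apply_apply]
  right_inv V := RO.ext' fun x => by
    change e (e.symm x) ∈ V ↔ x ∈ V
    rw [e.apply_symm_apply]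
  map_rel_iff' := by
    intro V W
    constructor
    · intro h x hx
      have h1 := h (e x) (by
        change e.symm (e x) ∈ V
        rwa [e.symm_apply_apply])
      change e.symm (e x) ∈ W at h1
      rwa [e.symm_apply_apply] at h1
    · intro h x hx
      exact h (e.symm x) hx

theorem mem_roE (e : Q ≃o P) (V : RO Q) (x : P) : x ∈ roE e V ↔ e.symm x ∈ V := Iff.rfl

/-- the transported ultrafilter -/
def trU {κ : Cardinal.{u}} {Y : Type u} (e : Q ≃o P) (U : (Pk κ Y → RO Q) → RO Q) :
    (Pk κ Y → RO P) → RO P := fun Z => roE e (U fun u => (roE e).symm (Z u))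

private theorem chi_symm (e : Q ≃o P) (p : Prop) :
    (roE e).symm (chi p : RO P) = (chi p : RO Q) := by
  unfold chi
  rw [OrderIso.map_iSup]
  exact iSup_congr fun _ => OrderIso.map_top _

theorem NormalU.tr {κ : Cardinal.{u}} {Y : Type u} (e : Q ≃o P) {U : (Pk κ Y → RO Q) → RO Q}
    (hU : NormalU κ Y (RO Q) U) : NormalU κ Y (RO P) (trU e U) := by
  have hE : ∀ Z : Pk κ Y → RO P, trU e U Z = roE e (U fun u => (roE e).symm (Z u)) :=
    fun _ => rfl
  refine ⟨fun b => ?_, fun Z Z' => ?_, fun Z => ?_, fun I Z hI => ?_, fun x => ?_, fun Z => ?_⟩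
  · rw [hE, hU.const, OrderIso.apply_symm_apply]
  · have h1 : (fun u => (roE e).symm (Z u ⊓ Z' u)) =
        fun u => (roE e).symm (Z u) ⊓ (roE e).symm (Z' u) :=
      funext fun u => OrderIso.map_inf _ _ _
    rw [hE, hE, hE, ← OrderIso.map_inf, ← hU.inf, h1]
  · have h1 : (fun u => (roE e).symm (Z u)ᶜ) = fun u => ((roE e).symm (Z u))ᶜ :=
      funext fun u => map_compl' (roE e).symm (Z u)
    rw [hE, hE, h1, hU.compl]
    exact map_compl' (roE e) _
  · have h1 : (fun u => (roE e).symm (⨅ i, Z i u)) = fun u => ⨅ i, (roE e).symm (Z i u) :=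
      funext fun u => OrderIso.map_iInf _ _
    have h2 := (roE e).monotone (hU.complete I (fun i u => (roE e).symm (Z i u)) hI)
    rw [OrderIso.map_iInf] at h2
    rw [hE, h1]
    exact h2
  · have h1 : (fun u : Pk κ Y => (roE e).symm (chi (x ∈ u.1))) = fun u => chi (x ∈ u.1) :=
      funext fun u => chi_symm e _
    rw [hE, h1, hU.fine, OrderIso.map_top]
  · have h1 : (fun u : Pk κ Y => (roE e).symm (⨅ x ∈ u.1, Z x u)) =
        fun u => ⨅ x ∈ u.1, (roE e).symm (Z x u) := by
      funext u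
      rw [OrderIso.map_iInf]
      exact iInf_congr fun x => OrderIso.map_iInf _ _
    have h2 := (roE e).monotone (hU.normal (fun x u => (roE e).symm (Z x u)))
    rw [OrderIso.map_iInf] at h2
    rw [hE, h1]
    exact h2

theorem mem_trU {κ : Cardinal.{u}} {Y : Type u} (e : Q ≃o P) (U : (Pk κ Y → RO Q) → RO Q)
    (Z : Pk κ Y → RO Q) (x : P) : x ∈ trU e U (fun u => roE e (Z u)) ↔ e.symm x ∈ U Z := by
  have h1 : (fun u => (roE e).symm (roE e (Z u))) = Z :=
    funext fun u => OrderIso.symm_apply_apply _ _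
  unfold trU
  rw [mem_roE, h1]

theorem trZ {κ : Cardinal.{u}} {Y Λ : Type u} (e : Q ≃o P) {E : Pk κ Y → Type u}
    (F : ∀ u, E u → RO Q) (A : ∀ u, E u → Λ → Prop) (a : Λ) (u : Pk κ Y) :
    TopD.Z (fun u e' => roE e (F u e')) A a u = roE e (TopD.Z F A a u) := by
  unfold TopD.Z
  rw [OrderIso.map_iSup]
  exact iSup_congr fun x => (OrderIso.map_iSup _ _).symm

/-- the transported system -/
def Sys.tr {T Λ N : Type u} [Preorder T] [Preorder Λ] (e : Q ≃o P) (S : Sys (T × Q) Λ N) :
    Sys (T × P) Λ N :=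
  S.comap (fun x => (x.1, e.symm x.2)) (fun _ _ h => ⟨h.1, e.symm.monotone h.2⟩)
    (fun x q hq => ⟨(q.1, e q.2), ⟨hq.1, e.le_symm_apply.1 hq.2⟩, by
      refine ⟨le_rfl, ?_⟩
      change e.symm (e q.2) ≤ q.2
      rw [e.symm_apply_apply]⟩)

theorem Sys.tr_rel {T Λ N : Type u} [Preorder T] [Preorder Λ] (e : Q ≃o P)
    (S : Sys (T × Q) Λ N) (x : T × P) (a b : Λ) (ξ ζ : N) :
    (S.tr e).rel x a b ξ ζ ↔ S.rel (x.1, e.symm x.2) a b ξ ζ := Iff.rfl

theorem TopD.tr {κ : Cardinal.{u}} {Λ N Mi Y : Type u} [Preorder Λ] {T : Mi → Type u}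
    [∀ m, Preorder (T m)] (e : Q ≃o P) {iΛ : Λ → Y} {S : ∀ m, Sys (T m × Q) Λ N} {o : Mi → N}
    {tm : ∀ m, T m} {N0 : Set N} {E : Pk κ Y → Type u} {F : ∀ u, E u → RO Q}
    {A : ∀ u, E u → Λ → Prop} {m : Pk κ Y → Mi} {ρ : ∀ u, E u → T (m u)}
    {z : ∀ u, E u → Λ → N} {d : Pk κ Y → Λ} (h : TopD iΛ S o tm N0 E F A m ρ z d) :
    TopD iΛ (fun m => (S m).tr e) o tm N0 E (fun u e' => roE e (F u e')) A m ρ z d where
  dis u x x' hx := by
    rw [← OrderIso.map_inf, h.dis u x x' hx, OrderIso.map_bot]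
  mem := h.mem
  lub := h.lub
  le := h.le
  nar := h.nar
  top u x a hA q hq := (Sys.tr_rel e _ _ _ _ _ _).2 (h.top u x a hA (e.symm q) hq)

end STP
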