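import Pool.Agent.STP.Blk

/-! # Factoring the product at an index (package S26)

(problem MP_e44aae_lc, project STP)

`j` is the successor of `i` in `Γ`. `(∀ a, C a) × R0` times `R` is isomorphic to `((C j) × Q1) × L` with `L = ∏_{a ≤ i} C a` and `Q1 = (∏_{j < a} C a) × (R0 × R)`: every `a : Γ` satisfies exactly one of `a ≤ i`, `a = j`, `j < a`.
`toFun x := ((x.1.1 j, (fun a => x.1.1 a, (x.1.2, x.2))), fun a => x.1.1 a)`, the inverse by cases (`if h : a ≤ i then .. else if h : a = j then h ▸ .. else ..`), orders are pointwise. -/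

universe u

namespace STP

open Cardinal

theorem split_iso {Γ : Type u} [LinearOrder Γ] (C : Γ → Type u) [∀ a, PartialOrder (C a)]
    (R0 R : Type u) [PartialOrder R0] [PartialOrder R] {i j : Γ} (hij : i < j)
    (hj : ∀ l, l < j → l ≤ i) :
    Nonempty ((((∀ a, C a) × R0) × R) ≃o
      ((C j × ((∀ a : {a : Γ // j < a}, C a.1) × (R0 × R))) × (∀ a : {a : Γ // a ≤ i}, C a.1))) := by
  have hlt : ∀ a, ¬ a ≤ i → ¬ a = j → j < a := by
    intro a h1 h2
    rcases lt_trichotomy a j with h | h | h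
    · exact absurd (hj a h) h1
    · exact absurd h h2
    · exact h
  have hji : ¬ j ≤ i := not_le.2 hij
  refine ⟨⟨⟨fun x => ((x.1.1 j, ((fun a => x.1.1 a.1), (x.1.2, x.2))), fun a => x.1.1 a.1),
    fun y => ((fun a => if h : a ≤ i then y.2 ⟨a, h⟩ else
      if h' : a = j then cast (congrArg C h').symm y.1.1 else y.1.2.1 ⟨a, hlt a h h'⟩,
      y.1.2.2.1), y.1.2.2.2), ?_, ?_⟩, ?_⟩⟩
  · rintro ⟨⟨f, r0⟩, r⟩
    simp only [Prod.mk.injEq, and_true]
    funext a
    by_cases h : a ≤ i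
    · rw [dif_pos h]
    · rw [dif_neg h]
      by_cases h' : a = j
      · subst h'
        rw [dif_pos rfl]
        rfl
      · rw [dif_neg h']
  · rintro ⟨⟨c, ⟨g, ⟨r0, r⟩⟩⟩, f⟩
    simp only [Prod.mk.injEq, and_true]
    refine ⟨⟨?_, ?_⟩, ?_⟩
    · rw [dif_neg hji, dif_pos trivial]
      rfl
    · funext a
      have h1 : ¬ a.1 ≤ i := fun h => absurd (a.2.le.trans h) hji
      rw [dif_neg h1, dif_neg a.2.ne']
    · funext a
      rw [dif_pos a.2]
  · rintro ⟨⟨f, r0⟩, r⟩ ⟨⟨f', r0'⟩, r'⟩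
    constructor
    · rintro ⟨⟨h1, h2, h3, h4⟩, h5⟩
      refine ⟨⟨fun a => ?_, h3⟩, h4⟩
      by_cases h : a ≤ i
      · exact h5 ⟨a, h⟩
      · by_cases h' : a = j
        · subst h'
          exact h1
        · exact h2 ⟨a, hlt a h h'⟩
    · rintro ⟨⟨h1, h2⟩, h3⟩
      exact ⟨⟨h1 j, fun a => h1 a.1, h2, h3⟩, fun a => h1 a.1⟩

end STP
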