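import Pool.Agent.STP.ICon
import Pool.Agent.STP.IFin
import Pool.Agent.STP.ITrf
import Pool.Agent.STP.SplitIso
import Pool.Agent.STP.BlkB

/-! # The contradiction for a block (package I12)

(problem MP_e44aae_lc, project STP, ITP extension, text `/team-store/ITPinf.md`, 8.2, 8.3; assembly of `cover` and `ifinal`, compare `propC` in `PropC.lean`)

Let `j` be the successor of `i` (`Block.exists_succ`), `χ := k i`, `κ := k j`, `ν := nu k`; `dl kb k j = succ (succ (k i))` (`Block.dl_succ`). `e := split_iso (CC kb k) (R0 k) R hij hj : HR kb k × R ≃o (C × Q1) × L` with `C = CC kb k j = Clq (LevX ..) (levr ..) (dl kb k j)`, `Q1 := (∏_{j < a} CC a) × (R0 k × R)` (`DC (k j)`), `L := ∏_{a ≤ i} CC a`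
(`#L ≤ k i`); see the proof of `propC` for all hypotheses (`hQ`, `hkj`, `hL`, `hloc`, `hr`, `LI (k j)` for `Q1`). As there, `cover` is stated for `succ (succ χ)`; generalize `δ = dl kb k j` with the equation first (a private variant of `cover` with `hδ : δ = succ (succ χ)`, proof `subst`).
Transport (`ITrf.lean`): `U' := trU e U` (`NormalU.tr`), `Sm' m := (Sm m).tr e`, `F' u e' := roE e (F u e')`, `TopD.tr`; `Top` and `Cnt` of `Sm' m` (`Cnt.comap`; `Top`: clear); `p0 := e q0`; `hcof` by `trZ`, `mem_trU` (in the direction: `e.symm` of a condition `≤ e q0` is `≤ q0`). `hlub`: `ae_dir` for `U'` and `dir_sup` (`#{a | iΛ a ∈ u} ≤ #u < kb ≤ ν`).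
`hbad'`: a thread `th` of `(Sm m).tr e` below `p ≤ (tm m, e q0)` gives the thread `fun y => th (y.1, e y.2)` of `Sm m` below `(p.1, e.symm p.2) ≤ (tm m, q0)`; `hbad` gives `p'`, `D`; use `(p'.1, e p'.2)`.
`#(TT S γ kb (mu m)) ≤ kb ≤ k i` (`Block.card_TT`, `Block.kbk`), `#Mi ≤ kb ≤ k i`. `cover` gives `q1, a0, B, tb, lb, th, ..`; `ifinal` (`DC (succ χ)` for `C × Q1`: `Clq.dc` for the regular cardinal `dl kb k j ≥ succ (k i)` (`Block.dl_reg`, `Block.lt_dl`), `DC.mono`). -/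

universe u

namespace STP

open Cardinal

private theorem cover' {κ0 κ ν χ δ : Cardinal.{u}} {Q1 X L Λ N Mi Y0 : Type u} {r : X → X → Prop}
    {T : Mi → Type u} [PartialOrder Q1] [PartialOrder L] [∀ m, PartialOrder (T m)] [Preorder Λ]
    (hχ : ℵ₀ ≤ χ) (hδ : δ = Order.succ (Order.succ χ)) (hχκ : δ < κ) (hκν : κ ≤ ν) (hL : #L ≤ χ)
    (hMi : #Mi ≤ χ) (hT : ∀ m, #(T m) ≤ χ) (hr : ∀ x y, r x y → r y x)
    (hloc : ∀ x, #{y | ¬ r x y} < κ) (hQ : DC κ Q1)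
    (hU : ∀ Y : Type u, ∃ U : (Pk κ Y → RO Q1) → RO Q1, NormalU κ Y (RO Q1) U)
    (hΛ : Dir ν Λ)
    (Sm : ∀ m, Sys (T m × ((Clq X r δ × Q1) × L)) Λ N) (o : Mi → N)
    (tm : ∀ m, T m) (N0 : Set N) (hN0 : #N0 ≤ χ)
    {U0 : (Pk κ0 Y0 → RO ((Clq X r δ × Q1) × L)) →
      RO ((Clq X r δ × Q1) × L)}
    (hU0 : NormalU κ0 Y0 (RO ((Clq X r δ × Q1) × L)) U0)
    (iΛ : Λ → Y0) {E : Pk κ0 Y0 → Type u}
    {F : ∀ u, E u → RO ((Clq X r δ × Q1) × L)}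
    {A : ∀ u, E u → Λ → Prop} {m : Pk κ0 Y0 → Mi} {ρ : ∀ u, E u → T (m u)}
    {z : ∀ u, E u → Λ → N} {d : Pk κ0 Y0 → Λ} (hD : TopD iΛ Sm o tm N0 E F A m ρ z d)
    (hlub : U0 (fun u => chi (∃ b, IsLUB {a | iΛ a ∈ u.1} b)) = ⊤)
    (p0 : (Clq X r δ × Q1) × L)
    (hcof : ∀ a, ∀ q ≤ p0, ∃ q' ≤ q, ∃ a', a ≤ a' ∧ q' ∈ U0 (TopD.Z F A a')) :
    ∃ q1 ≤ p0.1, ∃ (a0 : Λ) (B : Mi → Type u) (tb : ∀ m, B m → T m) (lb : ∀ m, B m → L)
      (th : ∀ m, B m → T m × ((Clq X r δ × Q1) × L) → Λ → N → Prop),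
      (∀ m, #(B m) ≤ χ) ∧ (∀ m b, tb m b ≤ tm m) ∧
      (∀ m b, IsThr (Sm m).rel (tb m b, (q1, lb m b)) (th m b)) ∧
      ∀ a, a0 ≤ a → ∀ x ≤ (q1, p0.2),
        x ∉ U0 (TopD.TT F A m ρ z a (fun m t ξ => XX tb lb th a m t ξ)) := by
  subst hδ
  exact cover hχ hχκ hκν hL hMi hT hr hloc hQ hU hΛ Sm o tm N0 hN0 hU0 iΛ hD hlub p0 hcof

private theorem ic_chi {B : Type u} [CompleteBooleanAlgebra B] {p q : Prop} (h : p → q) :
    (chi p : B) ≤ chi q :=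
  iSup_le fun hp => le_iSup (fun _ : q => (⊤ : B)) (h hp)

private theorem ic_thr {T P Q Λ N : Type u} [Preorder T] [Preorder P] [Preorder Q] [Preorder Λ]
    (e : Q ≃o P) (S : Sys (T × Q) Λ N) {p : T × P} {th : T × P → Λ → N → Prop}
    (h : IsThr (S.tr e).rel p th) :
    IsThr S.rel (p.1, e.symm p.2) (fun y => th (y.1, e y.2)) := by
  refine ⟨?_, ?_, ?_⟩
  · intro y y' a ξ hy h1
    exact h.mono (p := (y.1, e y.2)) (q := (y'.1, e y'.2)) ⟨hy.1, e.monotone hy.2⟩ h1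
  · intro a y hy
    have h1 : ((y.1, e y.2) : T × P) ≤ p := ⟨hy.1, e.le_symm_apply.1 hy.2⟩
    obtain ⟨q, hq, ξ, h2⟩ := h.tot a (y.1, e y.2) h1
    refine ⟨(q.1, e.symm q.2), ⟨hq.1, e.symm_apply_le.2 hq.2⟩, ξ, ?_⟩
    change th (q.1, e (e.symm q.2)) a ξ
    rw [e.apply_symm_apply]
    exact h2
  · intro y a b ξ ζ hy hab h1 h2
    have h3 : ((y.1, e y.2) : T × P) ≤ p := ⟨hy.1, e.le_symm_apply.1 hy.2⟩
    have h4 : S.rel (y.1, e.symm (e y.2)) a b ξ ζ := h.coh h3 hab h1 h2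
    rw [e.symm_apply_apply] at h4
    exact h4

theorem icore {Γ : Type u} [LinearOrder Γ] {γ kb : Cardinal.{u}} {k : Γ → Cardinal.{u}}
    (h : Block Γ γ kb k) {S R Λ N Mi Y : Type u} [PartialOrder S] [PartialOrder R] [Preorder Λ]
    (hS : #S < kb) (hR : DC (Order.succ (2 ^ nu k)) R) (hΛ : Dir (nu k) Λ)
    (hSup : ChSup (nu k) Λ) (mu : Mi → Cardinal.{u}) (hmu : ∀ m, mu m < kb) (hMi : #Mi ≤ kb)
    (Sm : ∀ m, Sys (TT S γ kb (mu m) × (HR kb k × R)) Λ N) (o : Mi → N)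
    (htop : ∀ m, (Sm m).Top (o m)) (hcnt : ∀ m, (Sm m).Cnt (nu k))
    (tm : ∀ m, TT S γ kb (mu m)) (i : Γ) (N0 : Set N) (hN0 : #N0 ≤ k i)
    {U : (Pk kb Y → RO (HR kb k × R)) → RO (HR kb k × R)}
    (hU : NormalU kb Y (RO (HR kb k × R)) U) (iΛ : Λ → Y) (hiΛ : Function.Injective iΛ)
    {E : Pk kb Y → Type u} {F : ∀ u, E u → RO (HR kb k × R)} {A : ∀ u, E u → Λ → Prop}
    {m : Pk kb Y → Mi} {ρ : ∀ u, E u → TT S γ kb (mu (m u))} {z : ∀ u, E u → Λ → N}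
    {d : Pk kb Y → Λ} (hD : TopD iΛ Sm o tm N0 E F A m ρ z d) (q0 : HR kb k × R)
    (hcof : ∀ a, ∀ q ≤ q0, ∃ q' ≤ q, ∃ a', a ≤ a' ∧ q' ∈ U (TopD.Z F A a'))
    (hbad : ∀ m, ∀ p ≤ (tm m, q0), ∀ th, IsThr (Sm m).rel p th →
      ∃ p' ≤ p, ∃ D : Set Λ, Club (nu k) D ∧ ∀ q ≤ p', ∀ a ∈ D, ¬ th q a (o m)) : False := by
  obtain ⟨j, hij, hj⟩ := h.exists_succ i
  have hdl := h.dl_succ hij hj
  obtain ⟨e⟩ := split_iso (CC kb k) (R0 k) R hij hj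
  have hkj : k j ≤ nu k := (h.lt_nu j).le
  have hQ : DC (k j) ((∀ a : {a : Γ // j < a}, CC kb k a.1) × (R0 k × R)) := by
    refine DC.prod ((h.dc_high j).mono (Order.le_succ _)) (DC.prod (h.dc_R0.mono ?_)
      (hR.mono ?_))
    · exact hkj.trans (Order.le_succ _)
    · exact hkj.trans ((cantor (nu k)).le.trans (Order.le_succ _))
  have hkbi : kb ≤ k i := (h.kbk i).le
  have hMi' : #Mi ≤ k i := hMi.trans hkbi
  have hT : ∀ m, #(TT S γ kb (mu m)) ≤ k i := fun m => (h.card_TT hS (hmu m)).trans hkbi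
  have hU' := hU.tr e
  have htop' : ∀ m, ((Sm m).tr e).Top (o m) := fun m p a => htop m _ a
  have hcnt' : ∀ m, ((Sm m).tr e).Cnt (nu k) := fun m => Cnt.comap _ _ _ _ (hcnt m)
  have hD' := hD.tr e
  have hcof' : ∀ a, ∀ q ≤ e q0, ∃ q' ≤ q, ∃ a', a ≤ a' ∧
      q' ∈ trU e U (TopD.Z (fun u e' => roE e (F u e')) A a') := by
    intro a q hq
    obtain ⟨q', hq', a', ha, h1⟩ := hcof a (e.symm q) (e.symm_apply_le.2 hq)
    refine ⟨e q', e.le_symm_apply.1 hq', a', ha, ?_⟩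
    have h2 : TopD.Z (fun u e' => roE e (F u e')) A a' = fun u => roE e (TopD.Z F A a' u) :=
      funext fun u => trZ e F A a' u
    rw [h2, mem_trU, e.symm_apply_apply]
    exact h1
  have hlub : trU e U (fun u => chi (∃ b, IsLUB {a | iΛ a ∈ u.1} b)) = ⊤ := by
    refine top_le_iff.1 ?_
    rw [← ae_dir hU' h.aleph0_lt_kb.le h.aleph0_le_nu hΛ iΛ hiΛ]
    refine hU'.mono fun u => ic_chi ?_
    rintro ⟨h1, h2⟩
    refine dir_sup h.aleph0_le_nu hSup h1 h2 ?_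
    have h3 : #{a | iΛ a ∈ u.1} ≤ #u.1 :=
      Cardinal.mk_le_of_injective (f := fun x : {a | iΛ a ∈ u.1} => (⟨iΛ x.1, x.2⟩ : u.1))
        fun a b hab => Subtype.ext (hiΛ (congrArg (fun t => t.1) hab))
    exact h3.trans (u.2.le.trans h.kb_lt_nu.le)
  obtain ⟨q1, hq1, a0, B, tb, lb, th, hB, htb, hth, hcov⟩ := cover' (κ0 := kb) (κ := k j)
    (ν := nu k) (χ := k i) (h.aleph0_lt_k i).le hdl (h.dl_lt j) hkj (h.card_low i) hMi' hT
    (fun x y h1 h2 => (h1 h2.symm).symm) (fun x => levr_small (h.aleph0_lt_k j).le x) hQ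
    (fun Y => (h.LIk j).2 _ hQ Y) hΛ (fun m => (Sm m).tr e) o tm N0 hN0 hU' iΛ hD' hlub
    (e q0) hcof'
  refine ifinal (κ0 := kb) (ν := nu k) (χ := k i) h.aleph0_lt_kb.le h.kb_lt_nu.le
    (h.aleph0_lt_k i).le (h.lt_nu i).le (h.card_low i) hMi' hT hB ?_ hΛ hSup
    (fun m => (Sm m).tr e) o htop' hcnt' tm N0 hU' iΛ hiΛ hD' (e q0) hcof' q1 hq1 a0 tb lb th
    htb hth hcov ?_
  · exact DC.prod ((h.dc_CC j).mono (h.lt_dl hij)) (hQ.mono (Order.succ_le_of_lt (h.mono i j hij)))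
  · intro m p hp th hth
    obtain ⟨p', hp', D, hDc, h1⟩ := hbad m (p.1, e.symm p.2) ⟨hp.1, e.symm_apply_le.2 hp.2⟩ _
      (ic_thr e (Sm m) hth)
    refine ⟨(p'.1, e p'.2), ⟨hp'.1, e.le_symm_apply.1 hp'.2⟩, D, hDc, ?_⟩
    intro q hq a ha h2
    refine h1 (q.1, e.symm q.2) ⟨hq.1, e.symm_apply_le.2 hq.2⟩ a ha ?_
    change th (q.1, e (e.symm q.2)) a (o m)
    rw [e.apply_symm_apply]
    exact h2

end STP
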