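import Pool.Agent.STP.GermCoh
import Pool.Agent.STP.GermD

/-! # Germs: further facts (package I9)

(problem MP_e44aae_lc, project STP, ITP extension, text `/team-store/ITPinf.md`, 7')

* `germ_dec` (KEY FACT): this is the second half of the proof of `germ_coh` (`GermCoh.lean`, from `change (g.pr, l) ∈ V` on) for an arbitrary `V : RO P`; copy it.
* `germ_down`: `DecG` at `b` and `rel (g.pr, l) a b ξ ζ`, `a ≤ b`, for a system `S` (with `comp`), give `DecG` at `a` (`N0 = Set.univ`). For almost all `u`: `iΛ b ∈ u`, `ptr iX (g.F u) u g.c`, and the value of `frc (g.F u) l (Phi (n u) S b z ζ)`. Below a condition in these values there are `t`, `e` with trace of `e` = `g.c.s`, so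
  `e ≤ g.c`, and `((e, t), l) ∈ Phi .. b z ζ`, `((e, t), l) ≤ (g.pr, l)`; below any extension there are `t'`, `c` with `t' ∈ n u c`, `rel t' b c ζ z`, `b ≤ c` (`hnb`), and `rel t' a b ξ ζ` (mono), so `rel t' a c ξ z` (`comp`): `((e, t), l) ∈ Phi .. a z ξ`.
* `germ_DX`: copy of `germ_D` with the additional regular open sets `X m ξ` (and `V` in place of `I a`): in the proof take
  `Φ u e' := chi (l' ≤ l) ⊓ (⨆ e, ⨆ _ : e1 ≤ e, (F u).v e) ⊓ sec (Phi (n u) (R m) a ζ ξ) e1 l' ⊓ sec (X m ξ) e1 l'`. At the end `g'.q ∈ U (fun u => frc (g'.F u) l' (X m ξ))` in the same way as for `Phi`, and `germ_dec` gives `(g'.pr, l') ∈ X m ξ`. -/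

universe u

namespace STP

open Cardinal

theorem germ_dec {κ χ : Cardinal.{u}} {Q1 X Y L : Type u} {r : X → X → Prop}
    [PartialOrder Q1] [Preorder L] (hχ : ℵ₀ ≤ χ) (hχκ : Order.succ (Order.succ χ) < κ)
    (hr : ∀ x y, r x y → r y x) (hloc : ∀ x, #{y | ¬ r x y} < κ)
    {U : (Pk κ Y → RO Q1) → RO Q1} (hU : NormalU κ Y (RO Q1) U) (iX : X → Y)
    (hiX : Function.Injective iX) (g : Germ hU iX r (Order.succ (Order.succ χ))) (l : L)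
    (V : RO ((Clq X r (Order.succ (Order.succ χ)) × Q1) × L))
    (h : g.q ∈ U (fun u => frc (g.F u) l V)) : (g.pr, l) ∈ V := by
  refine V.locally ?_
  rintro ⟨⟨c', q'⟩, l'⟩ hle
  have hc' : c' ≤ g.c := hle.1.1
  have hq' : q' ≤ g.q := hle.1.2
  have hl' : l' ≤ l := hle.2
  have hcs : #(iX '' c'.s) < κ := (Cardinal.mk_image_le.trans_lt c'.card).trans hχκ
  have h4 : q' ∈ U (fun u => ((frc (g.F u) l V ⊓ ptr iX (g.F u) u.1 g.c) ⊓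
      chi (iX '' c'.s ⊆ u.1)) ⊓ chi (∀ y z, iX y ∈ u.1 → ¬ r y z → iX z ∈ u.1)) := by
    rw [hU.mem_inf, hU.mem_inf, hU.mem_inf]
    exact ⟨⟨⟨RO.down _ hq' h, RO.down _ hq' g.hc⟩, hU.of_top (hU.small hcs)⟩,
      hU.of_top (loc_ae hU iX hiX hloc)⟩
  obtain ⟨u, q'', hq'', ⟨⟨h5, h6⟩, h7⟩, h8⟩ := hU.exists_mem h4
  have h7' : iX '' c'.s ⊆ u.1 := RO.mem_chi.1 h7
  have h8' : ∀ y z, iX y ∈ u.1 → ¬ r y z → iX z ∈ u.1 := RO.mem_chi.1 h8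
  obtain ⟨t, ht, e, he, h9⟩ := mem_ptr.1 h6 q'' le_rfl
  obtain ⟨t', ht', e', he', h10⟩ := mem_frc.1 h5 t ht
  have hee : e = e' := (g.F u).uniq (((g.F u).v e).down ht' h9) he'
  subst hee
  have hD : #PUnit.{u + 1} ≤ Order.succ χ := by
    rw [Cardinal.mk_punit]
    exact Cardinal.one_le_aleph0.trans (hχ.trans (Order.le_succ χ))
  obtain ⟨s, hs, -⟩ := clq_union hχ hr iX u.1 h8' c'
    (fun x hx => h7' ⟨x, hx, rfl⟩) hD (fun _ => e)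
    (fun _ x hx hxu => by
      have h11 : x ∈ {x | x ∈ e.s ∧ iX x ∈ u.1} := ⟨hx, hxu⟩
      rw [he] at h11
      exact Clq.le_def.1 hc' h11) (fun _ _ => ⟨PUnit.unit, le_rfl, le_rfl⟩)
  refine ⟨((s, t'), l'), ⟨⟨?_, (ht'.trans ht).trans hq''⟩, le_rfl⟩,
    V.down (p := ((e, t'), l)) ⟨⟨?_, le_rfl⟩, hl'⟩ h10⟩
  · change s ≤ c'
    rw [Clq.le_def, hs]
    exact Set.subset_union_left
  · change s ≤ e
    rw [Clq.le_def, hs]
    exact fun x hx => Or.inr (Set.mem_iUnion.2 ⟨PUnit.unit, hx⟩)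

theorem germ_down {κ χ : Cardinal.{u}} {Q1 X Y L Λ N : Type u} {r : X → X → Prop}
    [PartialOrder Q1] [Preorder L] [Preorder Λ]
    {U : (Pk κ Y → RO Q1) → RO Q1} (hU : NormalU κ Y (RO Q1) U) (iX : X → Y) (iΛ : Λ → Y)
    (n : Pk κ Y → Λ → RO ((Clq X r (Order.succ (Order.succ χ)) × Q1) × L))
    (hnb : ∀ u b p, p ∈ n u b → ∀ a, iΛ a ∈ u.1 → a ≤ b)
    (S : Sys ((Clq X r (Order.succ (Order.succ χ)) × Q1) × L) Λ N)
    (R : PUnit.{u + 1} → Rel ((Clq X r (Order.succ (Order.succ χ)) × Q1) × L) Λ N)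
    (hR : ∀ x a b ξ ζ, (R ⟨⟩).rel x a b ξ ζ ↔ S.rel x a b ξ ζ)
    (g : Germ hU iX r (Order.succ (Order.succ χ))) (l : L) (z : (Set.univ : Set N)) (a b : Λ)
    (ξ ζ : N) (hab : a ≤ b) (h1 : DecG n R Set.univ g l ⟨⟩ z b ζ)
    (h2 : S.rel (g.pr, l) a b ξ ζ) : DecG n R Set.univ g l ⟨⟩ z a ξ := by
  refine ⟨Set.mem_univ _, ?_⟩
  have h3 : g.q ∈ U (fun u => (frc (g.F u) l (Phi (n u) (R ⟨⟩) b z.1 ζ) ⊓
      ptr iX (g.F u) u.1 g.c) ⊓ chi (iΛ b ∈ u.1)) := by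
    rw [hU.mem_inf, hU.mem_inf]
    exact ⟨⟨h1.2, g.hc⟩, hU.of_top (hU.fine (iΛ b))⟩
  refine hU.ae_mono h3 fun u q' hq' hq => ?_
  obtain ⟨⟨h5, h6⟩, h7⟩ := hq
  have h8 : iΛ b ∈ u.1 := RO.mem_chi.1 h7
  rw [mem_frc]
  intro q'' hq''
  obtain ⟨t, ht, e, he, h9⟩ := mem_ptr.1 h6 q'' hq''
  obtain ⟨t', ht', e', he', h10⟩ := mem_frc.1 h5 t (ht.trans hq'')
  have hee : e = e' := (g.F u).uniq (((g.F u).v e).down ht' h9) he'
  subst hee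
  have hec : e ≤ g.c := by
    rw [Clq.le_def, ← he]
    exact fun x hx => hx.1
  have hle : ((e, t'), l) ≤ (g.pr, l) :=
    ⟨⟨hec, ht'.trans (ht.trans (hq''.trans hq'))⟩, le_rfl⟩
  refine ⟨t', ht'.trans ht, e, he', mem_Phi.2 fun p' hp' => ?_⟩
  obtain ⟨p2, hp2, c, hc, hR2⟩ := mem_Phi.1 h10 p' hp'
  have hbc : b ≤ c := hnb u c p2 hc b h8
  exact ⟨p2, hp2, c, hc, (hR _ _ _ _ _).2 (S.comp hab hbc
    (S.mono ((hp2.trans hp').trans hle) h2) ((hR _ _ _ _ _).1 hR2))⟩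

theorem germ_DX {κ χ : Cardinal.{u}} {Q1 X Y L Λ N RR : Type u} {r : X → X → Prop}
    [PartialOrder Q1] [Preorder L] [Preorder Λ] (hχ : ℵ₀ ≤ χ)
    (hχκ : Order.succ (Order.succ χ) < κ) (hL : #L ≤ χ) (hRR : #RR ≤ χ)
    (hr : ∀ x y, r x y → r y x) (hloc : ∀ x, #{y | ¬ r x y} < κ) (hQ : DC κ Q1)
    {U : (Pk κ Y → RO Q1) → RO Q1} (hU : NormalU κ Y (RO Q1) U) (iX : X → Y)
    (hiX : Function.Injective iX) (iΛ : Λ → Y)
    (p0 : (Clq X r (Order.succ (Order.succ χ)) × Q1) × L)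
    (I : Λ → RO ((Clq X r (Order.succ (Order.succ χ)) × Q1) × L))
    (n : Pk κ Y → Λ → RO ((Clq X r (Order.succ (Order.succ χ)) × Q1) × L))
    (hnI : ∀ u b, n u b ≤ I b) (hnt : ∀ u, p0 ∈ ⨆ b, n u b)
    (hnb : ∀ u b p, p ∈ n u b → ∀ a, iΛ a ∈ u.1 → a ≤ b)
    (R : RR → Rel ((Clq X r (Order.succ (Order.succ χ)) × Q1) × L) Λ N) (N0 : Set N)
    (hN0 : #N0 ≤ χ) (a : Λ) (V : RO ((Clq X r (Order.succ (Order.succ χ)) × Q1) × L))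
    (W : RR → N → RO ((Clq X r (Order.succ (Order.succ χ)) × Q1) × L))
    (h2 : ∀ b, a ≤ b → ∀ p ≤ p0, p ∈ V → p ∈ I b → ∃ p' ≤ p, ∃ m, ∃ ξ ∈ N0, ∃ ζ ∈ N0,
      (R m).rel p' a b ξ ζ ∧ p' ∈ W m ξ)
    (g : Germ hU iX r (Order.succ (Order.succ χ))) (l : L) (hg : (g.pr, l) ≤ p0)
    (ha : (g.pr, l) ∈ V) :
    ∃ g' ≤ g, ∃ l' ≤ l, ∃ m ζ ξ, DecG n R N0 g' l' m ζ a ξ ∧ (g'.pr, l') ∈ W m ξ := by
  classical
  have hκ : χ < κ := (Order.lt_succ χ).trans ((Order.lt_succ _).trans hχκ)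
  -- the maximal disjoint refinement
  have hmax : ∀ u : Pk κ Y, ∃ w : (L × RR × N0 × N0) ×
      Clq X r (Order.succ (Order.succ χ)) → RO Q1,
      (∀ e, w e ≤ (chi (e.1.1 ≤ l) ⊓ (⨆ e2, ⨆ _ : e.2 ≤ e2, (g.F u).v e2) ⊓
        sec (Phi (n u) (R e.1.2.1) a e.1.2.2.1.1 e.1.2.2.2.1) e.2 e.1.1) ⊓
        sec (W e.1.2.1 e.1.2.2.2.1) e.2 e.1.1) ∧
      (∀ e e', e ≠ e' → w e ⊓ w e' = ⊥) ∧ ⨆ e, w e = ⨆ e : (L × RR × N0 × N0) ×
      Clq X r (Order.succ (Order.succ χ)), (chi (e.1.1 ≤ l) ⊓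
        (⨆ e2, ⨆ _ : e.2 ≤ e2, (g.F u).v e2) ⊓
        sec (Phi (n u) (R e.1.2.1) a e.1.2.2.1.1 e.1.2.2.2.1) e.2 e.1.1) ⊓
        sec (W e.1.2.1 e.1.2.2.2.1) e.2 e.1.1 := fun u =>
    exists_max _
  choose w hw1 hw2 hw3 using hmax
  -- unfolding of membership
  have hwm : ∀ (u : Pk κ Y) (i : L × RR × N0 × N0) (e1 : Clq X r (Order.succ (Order.succ χ)))
      (t : Q1), t ∈ w u (i, e1) → i.1 ≤ l ∧
      (∀ t' ≤ t, ∃ t2 ≤ t', ∃ e2, e1 ≤ e2 ∧ t2 ∈ (g.F u).v e2) ∧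
      ((e1, t), i.1) ∈ Phi (n u) (R i.2.1) a i.2.2.1.1 i.2.2.2.1 ∧
      ((e1, t), i.1) ∈ W i.2.1 i.2.2.2.1 := by
    intro u i e1 t ht
    have h1 := hw1 u (i, e1) t ht
    refine ⟨RO.mem_chi.1 h1.1.1.1, ?_, mem_sec.1 h1.1.2, mem_sec.1 h1.2⟩
    intro t' ht'
    have h3 := RO.mem_iSup.1 h1.1.1.2 t' ht'
    obtain ⟨t2, ht2, e2, h4⟩ := h3
    obtain ⟨t3, ht3, h5, h6⟩ := RO.mem_iSup.1 h4 t2 le_rfl
    exact ⟨t3, ht3.trans ht2, e2, h5, h6⟩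
  -- (a)
  have hA : g.q ∈ U (fun u => ⨆ e, w u e) := by
    have h0 : g.q ∈ U (fun u => chi (iΛ a ∈ u.1) ⊓ ptr iX (g.F u) u.1 g.c) :=
      hU.mem_inf.2 ⟨hU.of_top (hU.fine _), g.hc⟩
    refine hU.ae_mono h0 ?_
    intro u q' hq' hq'2
    rw [hw3 u, RO.mem_iSup]
    intro q'' hq''
    have hau : iΛ a ∈ u.1 := RO.mem_chi.1 hq'2.1
    obtain ⟨t, ht, e, he, hte⟩ := mem_ptr.1 hq'2.2 q'' hq''
    have hec : e ≤ g.c := by
      rw [Clq.le_def, ← he]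
      exact fun x hx => hx.1
    have hle : ((e, t), l) ≤ (g.pr, l) :=
      ⟨⟨hec, ht.trans (hq''.trans hq')⟩, le_rfl⟩
    have h1 : ((e, t), l) ∈ ⨆ b, n u b := RO.down _ (hle.trans hg) (hnt u)
    obtain ⟨p1, hp1, b, hb⟩ := RO.mem_iSup.1 h1 _ le_rfl
    have hab : a ≤ b := hnb u b p1 hb a hau
    obtain ⟨p', hp', m, ξ, hξ, ζ, hζ, hR, hWp⟩ := h2 b hab p1 (hp1.trans (hle.trans hg))
      (RO.down _ (hp1.trans hle) ha) (hnI u b p1 hb)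
    have hle2 : p' ≤ ((e, t), l) := hp'.trans hp1
    refine ⟨p'.1.2, hle2.1.2.trans ht, ((p'.2, m, ⟨ζ, hζ⟩, ⟨ξ, hξ⟩), p'.1.1),
      ⟨⟨?_, ?_⟩, ?_⟩, mem_sec.2 hWp⟩
    · exact RO.mem_chi.2 hle2.2
    · rw [RO.mem_iSup]
      intro s hs
      refine ⟨s, le_rfl, e, ?_⟩
      rw [RO.mem_iSup]
      intro s' hs'
      exact ⟨s', le_rfl, hle2.1.1, RO.down _ (hs'.trans (hs.trans hle2.1.2)) hte⟩
    · rw [mem_sec, mem_Phi]
      intro p'' hp''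
      exact ⟨p'', le_rfl, b, RO.down _ (hp''.trans hp') hb, (R m).mono hp'' hR⟩
  -- (b)
  have hcard : #(L × RR × N0 × N0) < κ := by
    have h1 : #(L × RR × N0 × N0) ≤ χ := by
      simp only [mk_prod, lift_id]
      have h3 : #N0 * #N0 ≤ χ := (mul_le_mul' hN0 hN0).trans (mul_eq_self hχ).le
      have h4 : #RR * (#N0 * #N0) ≤ χ := (mul_le_mul' hRR h3).trans (mul_eq_self hχ).le
      exact (mul_le_mul' hL h4).trans (mul_eq_self hχ).le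
    exact h1.trans_lt hκ
  have hB : g.q ∈ ⨆ i, U (fun u => ⨆ e1, w u (i, e1)) := by
    rw [← hU.complete_sup hcard]
    refine hU.ae_mono hA ?_
    intro u q' _ h
    rw [iSup_prod] at h
    exact h
  obtain ⟨q1, hq1, i, hi⟩ := RO.mem_iSup.1 hB _ le_rfl
  have hil : i.1 ≤ l := by
    obtain ⟨u, q', _, h⟩ := hU.exists_mem hi
    obtain ⟨t, _, e1, ht⟩ := RO.mem_iSup.1 h _ le_rfl
    exact (hwm u i e1 t ht).1
  -- (c)
  obtain ⟨q2, hq2, c', -, hc'⟩ := PD hU hQ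
    (hχ.trans ((Order.le_succ χ).trans (Order.le_succ _))) hχκ
    (E := fun _ => Clq X r (Order.succ (Order.succ χ))) (fun u e1 => w u (i, e1))
    (fun u e e' h => hw2 u _ _ fun h' => h (Prod.ext_iff.1 h').2) q1 hi
    (fun _ e => iX '' e.s) (fun _ e => mk_image_le.trans_lt e.card)
  have hunf : ∀ (u : Pk κ Y) (q' : Q1), q' ∈ (⨆ e1, ⨆ _ : iX '' e1.s ∩ u.1 = c', w u (i, e1)) →
      ∀ q'' ≤ q', ∃ t ≤ q'', ∃ e1 : Clq X r (Order.succ (Order.succ χ)),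
        iX '' e1.s ∩ u.1 = c' ∧ t ∈ w u (i, e1) := by
    intro u q' h q'' hq''
    obtain ⟨t, ht, e1, h1⟩ := RO.mem_iSup.1 h q'' hq''
    obtain ⟨t', ht', h3, h4⟩ := RO.mem_iSup.1 h1 t le_rfl
    exact ⟨t', ht'.trans ht, e1, h3, h4⟩
  have hc1 : ∃ c1 : Clq X r (Order.succ (Order.succ χ)), c1.s = {x | iX x ∈ c'} := by
    obtain ⟨u, q', _, h⟩ := hU.exists_mem hc'
    obtain ⟨t, _, e1, h1, _⟩ := hunf u q' h q' le_rfl
    have hsub : {x | iX x ∈ c'} ⊆ e1.s := by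
      intro x hx
      have hx' : iX x ∈ iX '' e1.s ∩ u.1 := by
        rw [h1]
        exact hx
      exact (hiX.mem_set_image).1 hx'.1
    exact ⟨⟨{x | iX x ∈ c'}, (mk_le_mk_of_subset hsub).trans_lt e1.card,
      fun x hx y hy => e1.cl x (hsub hx) y (hsub hy)⟩, rfl⟩
  obtain ⟨c1, hc1⟩ := hc1
  have htr : ∀ (u : Pk κ Y) (e1 : Clq X r (Order.succ (Order.succ χ))),
      iX '' e1.s ∩ u.1 = c' → {x | x ∈ e1.s ∧ iX x ∈ u.1} = c1.s := by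
    intro u e1 h
    rw [hc1, ← h]
    ext x
    constructor
    · intro hx
      exact ⟨⟨x, hx.1, rfl⟩, hx.2⟩
    · intro hx
      exact ⟨(hiX.mem_set_image).1 hx.1, hx.2⟩
  -- (d)
  have hext : ∀ u : Pk κ Y, ∃ F : Nm (RO Q1) (Clq X r (Order.succ (Order.succ χ))),
      ∀ e, w u (i, e) ≤ F.v e := fun u =>
    Nm.extend (fun e => w u (i, e)) (fun e e' h => hw2 u _ _ fun h' => h (Prod.ext_iff.1 h').2)
      g.c
  choose F' hF' using hext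
  have hgc : q2 ∈ U (fun u => ptr iX (F' u) u.1 c1) := by
    refine hU.ae_mono hc' ?_
    intro u q' _ h
    rw [mem_ptr]
    intro q'' hq''
    obtain ⟨t, ht, e1, h1, h3⟩ := hunf u q' h q'' hq''
    exact ⟨t, ht, e1, htr u e1 h1, hF' u e1 t h3⟩
  refine ⟨⟨q2, F', c1, hgc⟩, ?_, i.1, hil, i.2.1, i.2.2.1, i.2.2.2.1, ⟨i.2.2.2.2, ?_⟩, ?_⟩
  · rw [Germ.le_def]
    refine ⟨hq2.trans hq1, ?_, ?_⟩
    · have h3 : q2 ∈ U (fun u => (⨆ e1, ⨆ _ : iX '' e1.s ∩ u.1 = c', w u (i, e1)) ⊓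
          ptr iX (g.F u) u.1 g.c) :=
        hU.mem_inf.2 ⟨hc', RO.down _ (hq2.trans hq1) g.hc⟩
      obtain ⟨u, q', _, h4⟩ := hU.exists_mem h3
      obtain ⟨t, ht, e1, h5, h6⟩ := hunf u q' h4.1 q' le_rfl
      obtain ⟨t2, ht2, e2, h7, h8⟩ := (hwm u i e1 t h6).2.1 t le_rfl
      obtain ⟨t3, ht3, e3, h9, h10⟩ := mem_ptr.1 h4.2 t2 (ht2.trans ht)
      have h11 : e2 = e3 := (g.F u).uniq (RO.down _ ht3 h8) h10
      change g.c.s ⊆ c1.s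
      intro x hx
      rw [← h9] at hx
      rw [← htr u e1 h5]
      rw [← h11] at hx
      exact ⟨h7 hx.1, hx.2⟩
    · refine hU.ae_mono hc' ?_
      intro u q' _ h
      rw [mem_nle]
      intro q'' hq''
      obtain ⟨t, ht, e1, h1, h3⟩ := hunf u q' h q'' hq''
      obtain ⟨t2, ht2, e2, h7, h8⟩ := (hwm u i e1 t h3).2.1 t le_rfl
      exact ⟨t2, ht2.trans ht, e1, e2, h7, RO.down _ ht2 (hF' u e1 t h3), h8⟩
  · refine hU.ae_mono hc' ?_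
    intro u q' _ h
    rw [mem_frc]
    intro q'' hq''
    obtain ⟨t, ht, e1, h1, h3⟩ := hunf u q' h q'' hq''
    exact ⟨t, ht, e1, hF' u e1 t h3, (hwm u i e1 t h3).2.2.1⟩
  · refine germ_dec hχ hχκ hr hloc hU iX hiX _ i.1 _ ?_
    refine hU.ae_mono hc' ?_
    intro u q' _ h
    rw [mem_frc]
    intro q'' hq''
    obtain ⟨t, ht, e1, h1, h3⟩ := hunf u q' h q'' hq''
    exact ⟨t, ht, e1, hF' u e1 t h3, (hwm u i e1 t h3).2.2.2⟩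

end STP
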