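import Pool.Agent.STP.IDef

/-! # Chains and directed sets (package I1)

(problem MP_e44aae_lc, project STP, ITP extension, text `/team-store/ITPinf.md`, 1.1; Mathlib only)

* `cld_dir` (Iwamura). For every cardinal `θ ≤ ν` by strong induction: for all nonempty directed `s` with `#s = θ`: `s` has a least upper bound, and if `s ⊆ D`, `D` closed (`Cld`), every least upper bound of `s` is in `D`. It is enough to prove: for every nonempty directed `s`, `#s ≤ ν`, there is a nonempty chain `c`,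
  `#c ≤ ν`, of the following kind: (finite or countable case) `c ⊆ s` is cofinal in `s`, so `IsLUB s d ↔ IsLUB c d`; (uncountable case) `c` consists of least upper bounds of smaller directed subsets whose union is `s`.
  Finite or countable `s` (`#s ≤ ℵ₀`): enumerate `s = {x n | n : ℕ}` (surjection `ℕ → s`), `y 0 = x 0`, `y (n+1) ∈ s` above `y n` and `x (n+1)`; `c = Set.range y` is a chain (`y` monotone), upper bounds of `c` and `s` are the same. `hΛ` gives a lub `d` of `c`; if `s ⊆ D` then `c ⊆ D`, so every lub is in `D`.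
  Uncountable `θ = #s`: `I := θ.ord.ToType`, `x : I → s` a bijection (`#I = θ`), `f : Λ → Λ → Λ` with `f a b ∈ s` above `a`, `b` for `a, b ∈ s`. `s_i` = the smallest subset of `Λ` containing `x j`, `j ≤ i`, and closed under `f` (inductive predicate or intersection of all such sets). `s_i ⊆ s`, nonempty, directed (`f`), increasing in `i`,
  `⋃ s_i = s`, `#s_i ≤ max ℵ₀ #{j // j ≤ i} < θ` (`s_i` is the image of the set of finite binary trees / terms over `{j // j ≤ i}`; e.g. an inductive type `W` of terms: `leaf j`, `node w w'`; `Cardinal.mk_...`: the type of terms has cardinality at most `max ℵ₀ #leaves`, for instance as the union over `n` of the sets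
  `A_0 = {x j | j ≤ i}`, `A_{n+1} = A_n ∪ f '' (A_n × A_n)`, each of cardinality at most `max ℵ₀ #{j // j ≤ i}` by induction). By the induction hypothesis every `s_i` has a lub `δ_i` (choose it), `δ_i ∈ D` if `s ⊆ D`. `c = {δ_i | i : I}` is a chain (`s_i ⊆ s_j` for `i ≤ j` gives `δ_i ≤ δ_j`), `#c ≤ θ ≤ ν`.
  `IsLUB s d ↔ IsLUB c d` (same upper bounds). Conclude as before.
* `dir_sup`: `cld_dir` with `D = Set.univ`.
* `Cnt.dir` (text 1.3). Fix `d`, `p`, `ζ`, `ζ'`. `D := {a | a ≤ d → ∀ p' ≤ p, ∃ q ≤ p', ∃ ξ, S.rel q a d ξ ζ ∧ S.rel q a d ξ ζ'}` is closed: let `c ⊆ D` be a chain, `a'` a lub of `c`, `a' ≤ d`, `p' ≤ p`. `S.tot` twice: `q1 ≤ p'`, `ζ1`, `ζ1'` with `S.rel q1 a' d ζ1 ζ`, `S.rel q1 a' d ζ1' ζ'`. For `a ∈ c` (`a ≤ a' ≤ d`) and `q' ≤ q1` there are `q ≤ q'`, `ξ` with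
  `S.rel q a d ξ ζ`, `S.rel q a d ξ ζ'`, so `S.rel q a a' ξ ζ1`, `S.rel q a a' ξ ζ1'` (`Sys.can`). `hc` at `a'` for `ζ1`, `ζ1'` below `q1`: `q ≤ q1`, `η` with `S.rel q a' a' η ζ1`, `S.rel q a' a' η ζ1'`; `S.comp`: `S.rel q a' d η ζ`, `S.rel q a' d η ζ'`. So `a' ∈ D`. Now `s ⊆ D` and `cld_dir` give `d ∈ D`; apply with `le_rfl`. -/

universe u

namespace STP

open Cardinal

/-- the stages of the closure under an operation -/
private def stg {Λ : Type u} (f : Λ → Λ → Λ) (A : Set Λ) : ℕ → Set Λ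
  | 0 => A
  | n + 1 => stg f A n ∪ Set.image2 f (stg f A n) (stg f A n)

private theorem stg_card {Λ : Type u} (f : Λ → Λ → Λ) (A : Set Λ) {c : Cardinal.{u}}
    (hc : ℵ₀ ≤ c) (hA : #A ≤ c) (n : ℕ) : #(stg f A n) ≤ c := by
  induction n with
  | zero => exact hA
  | succ n ih =>
    refine (mk_union_le _ _).trans (add_le_of_le hc ih ?_)
    exact mk_image2_le.trans (mul_le_of_le hc ih ih)

private theorem stg_mono {Λ : Type u} (f : Λ → Λ → Λ) (A : Set Λ) : Monotone (stg f A) :=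
  monotone_nat_of_le_succ fun _ => Set.subset_union_left

private theorem stg_sub {Λ : Type u} (f : Λ → Λ → Λ) {A s : Set Λ} (hA : A ⊆ s)
    (hf : ∀ a ∈ s, ∀ b ∈ s, f a b ∈ s) (n : ℕ) : stg f A n ⊆ s := by
  induction n with
  | zero => exact hA
  | succ n ih =>
    refine Set.union_subset ih ?_
    rintro _ ⟨a, ha, b, hb, rfl⟩
    exact hf a (ih ha) b (ih hb)

private theorem stg_inc {Λ : Type u} (f : Λ → Λ → Λ) {A B : Set Λ} (hA : A ⊆ B) (n : ℕ) :
    stg f A n ⊆ stg f B n := by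
  induction n with
  | zero => exact hA
  | succ n ih => exact Set.union_subset_union ih (Set.image2_subset ih ih)

/-- the closure under an operation -/
private def clo {Λ : Type u} (f : Λ → Λ → Λ) (A : Set Λ) : Set Λ := ⋃ n : ULift.{u} ℕ, stg f A n.down

private theorem clo_card {Λ : Type u} (f : Λ → Λ → Λ) (A : Set Λ) {c : Cardinal.{u}}
    (hc : ℵ₀ ≤ c) (hA : #A ≤ c) : #(clo f A) ≤ c := by
  refine (mk_iUnion_le _).trans (mul_le_of_le hc ?_ ?_)
  · simpa using hc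
  · exact ciSup_le' fun n => stg_card f A hc hA n.down

private theorem clo_sub {Λ : Type u} (f : Λ → Λ → Λ) {A s : Set Λ} (hA : A ⊆ s)
    (hf : ∀ a ∈ s, ∀ b ∈ s, f a b ∈ s) : clo f A ⊆ s :=
  Set.iUnion_subset fun n => stg_sub f hA hf n.down

private theorem clo_inc {Λ : Type u} (f : Λ → Λ → Λ) {A B : Set Λ} (hA : A ⊆ B) :
    clo f A ⊆ clo f B :=
  Set.iUnion_mono fun n => stg_inc f hA n.down

private theorem sub_clo {Λ : Type u} (f : Λ → Λ → Λ) (A : Set Λ) : A ⊆ clo f A :=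
  fun _ hx => Set.mem_iUnion.2 ⟨⟨0⟩, hx⟩

private theorem clo_op {Λ : Type u} (f : Λ → Λ → Λ) (A : Set Λ) {a b : Λ} (ha : a ∈ clo f A)
    (hb : b ∈ clo f A) : f a b ∈ clo f A := by
  obtain ⟨m, hm⟩ := Set.mem_iUnion.1 ha
  obtain ⟨n, hn⟩ := Set.mem_iUnion.1 hb
  refine Set.mem_iUnion.2 ⟨⟨max m.down n.down + 1⟩, Or.inr ⟨a, ?_, b, ?_, rfl⟩⟩
  · exact stg_mono f A (le_max_left _ _) hm
  · exact stg_mono f A (le_max_right _ _) hn

private theorem iwa {ν : Cardinal.{u}} (hν : ℵ₀ ≤ ν) {Λ : Type u} [Preorder Λ]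
    (hΛ : ChSup ν Λ) (θ : Cardinal.{u}) : ∀ s : Set Λ, #s = θ → s.Nonempty →
      DirectedOn (· ≤ ·) s → #s ≤ ν →
      (∃ d, IsLUB s d) ∧ ∀ D : Set Λ, Cld ν D → s ⊆ D → ∀ d, IsLUB s d → d ∈ D := by
  induction θ using WellFoundedLT.induction with
  | ind θ ih =>
  intro s hθ hne hdir hs
  -- it is enough to find a chain
  suffices h : ∃ c : Set Λ, c.Nonempty ∧ IsChain (· ≤ ·) c ∧ #c ≤ ν ∧
      upperBounds c = upperBounds s ∧ ∀ D : Set Λ, Cld ν D → s ⊆ D → c ⊆ D by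
    obtain ⟨c, h1, h2, h3, h4, h5⟩ := h
    have hl : ∀ d, IsLUB s d ↔ IsLUB c d := fun d => by rw [IsLUB, IsLUB, h4]
    constructor
    · obtain ⟨d, hd⟩ := hΛ c h1 h2 h3
      exact ⟨d, (hl d).2 hd⟩
    · intro D hD hsD d hd
      exact hD c (h5 D hD hsD) h1 h2 h3 d ((hl d).1 hd)
  by_cases hcount : #s ≤ ℵ₀
  · -- countable case
    have : Countable s := Cardinal.mk_le_aleph0_iff.1 hcount
    have : Encodable s := Encodable.ofCountable s
    have : Inhabited s := ⟨⟨hne.some, hne.some_mem⟩⟩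
    have hd : Directed (· ≤ ·) (fun x : s => (x : Λ)) := hdir.directed_val
    refine ⟨Set.range (fun n => ((hd.sequence _ n : s) : Λ)), Set.range_nonempty _, ?_, ?_, ?_, ?_⟩
    · have hm : Monotone (fun n => ((hd.sequence _ n : s) : Λ)) := hd.sequence_mono
      rintro _ ⟨m, rfl⟩ _ ⟨n, rfl⟩ _
      rcases le_total m n with h | h
      · exact Or.inl (hm h)
      · exact Or.inr (hm h)
    · refine le_trans ?_ hν
      exact Cardinal.mk_le_aleph0_iff.2 (Set.countable_range _).to_subtype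
    · apply Set.Subset.antisymm
      · intro x hx a ha
        exact (hd.le_sequence ⟨a, ha⟩).trans (hx ⟨_, rfl⟩)
      · rintro x hx _ ⟨n, rfl⟩
        exact hx (Subtype.prop _)
    · rintro D _ hsD _ ⟨n, rfl⟩
      exact hsD (Subtype.prop _)
  · -- uncountable case
    push Not at hcount
    have hθ0 : ℵ₀ < θ := hθ ▸ hcount
    classical
    have hI : #(θ.ord.ToType) = #s := by rw [mk_ord_toType, hθ]
    obtain ⟨x⟩ := Cardinal.eq.1 hI
    have hch : ∀ a ∈ s, ∀ b ∈ s, ∃ c ∈ s, a ≤ c ∧ b ≤ c := hdir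
    let f : Λ → Λ → Λ := fun a b =>
      if h : a ∈ s ∧ b ∈ s then (hch a h.1 b h.2).choose else a
    have hf1 : ∀ a ∈ s, ∀ b ∈ s, f a b ∈ s := by
      intro a ha b hb
      have : f a b = (hch a ha b hb).choose := dif_pos ⟨ha, hb⟩
      rw [this]
      exact (hch a ha b hb).choose_spec.1
    have hf2 : ∀ a ∈ s, ∀ b ∈ s, a ≤ f a b ∧ b ≤ f a b := by
      intro a ha b hb
      have : f a b = (hch a ha b hb).choose := dif_pos ⟨ha, hb⟩
      rw [this]
      exact (hch a ha b hb).choose_spec.2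
    let g : θ.ord.ToType → Set Λ := fun i => clo f ((fun j => ((x j : s) : Λ)) '' Set.Iic i)
    have hgs : ∀ i, g i ⊆ s := fun i => clo_sub f (by
      rintro _ ⟨j, _, rfl⟩
      exact (x j).2) hf1
    have hgm : ∀ i j, i ≤ j → g i ⊆ g j := fun i j hij =>
      clo_inc f (Set.image_mono (Set.Iic_subset_Iic.2 hij))
    have hgi : ∀ i, ((x i : s) : Λ) ∈ g i := fun i =>
      sub_clo f _ ⟨i, Set.self_mem_Iic, rfl⟩
    have hgn : ∀ i, (g i).Nonempty := fun i => ⟨_, hgi i⟩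
    have hgd : ∀ i, DirectedOn (· ≤ ·) (g i) := fun i a ha b hb =>
      ⟨f a b, clo_op f _ ha hb, hf2 a (hgs i ha) b (hgs i hb)⟩
    have hcard : ∀ i, #(g i) < θ := by
      intro i
      have h1 : #(Set.Iic i) < θ := by
        have := mk_Iic_lt (α := θ.ord.ToType) i (by simp) (by
          rw [mk_ord_toType]; exact hθ0.le)
        rwa [mk_ord_toType] at this
      have h2 : #(g i) ≤ max ℵ₀ #(Set.Iic i) :=
        clo_card f _ (le_max_left _ _) (mk_image_le.trans (le_max_right _ _))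
      exact h2.trans_lt (max_lt hθ0 h1)
    have hgν : ∀ i, #(g i) ≤ ν := fun i => (hcard i).le.trans (hθ ▸ hs)
    choose δ hδ using fun i => (ih _ (hcard i) (g i) rfl (hgn i) (hgd i) (hgν i)).1
    have : Nonempty θ.ord.ToType := by
      obtain ⟨a, ha⟩ := hne
      exact ⟨x.symm ⟨a, ha⟩⟩
    refine ⟨Set.range δ, Set.range_nonempty _, ?_, ?_, ?_, ?_⟩
    · have hm : ∀ i j, i ≤ j → δ i ≤ δ j := fun i j hij =>
        (hδ i).2 fun a ha => (hδ j).1 (hgm i j hij ha)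
      rintro _ ⟨m, rfl⟩ _ ⟨n, rfl⟩ _
      rcases le_total m n with h | h
      · exact Or.inl (hm _ _ h)
      · exact Or.inr (hm _ _ h)
    · refine mk_range_le.trans ?_
      rw [hI]
      exact hs
    · apply Set.Subset.antisymm
      · intro y hy a ha
        have h1 : a ∈ g (x.symm ⟨a, ha⟩) := by
          have := hgi (x.symm ⟨a, ha⟩)
          simpa using this
        exact ((hδ _).1 h1).trans (hy ⟨_, rfl⟩)
      · rintro y hy _ ⟨i, rfl⟩
        exact (hδ i).2 fun a ha => hy (hgs i ha)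
    · rintro D hD hsD _ ⟨i, rfl⟩
      exact (ih _ (hcard i) (g i) rfl (hgn i) (hgd i) (hgν i)).2 D hD
        ((hgs i).trans hsD) _ (hδ i)

theorem cld_dir {ν : Cardinal.{u}} (hν : ℵ₀ ≤ ν) {Λ : Type u} [Preorder Λ] (hΛ : ChSup ν Λ)
    {D : Set Λ} (hD : Cld ν D) {s : Set Λ} (hs : s ⊆ D) (hne : s.Nonempty)
    (hdir : DirectedOn (· ≤ ·) s) (hc : #s ≤ ν) : ∀ d, IsLUB s d → d ∈ D := by
  exact (iwa hν hΛ _ s rfl hne hdir hc).2 D hD hs

theorem dir_sup {ν : Cardinal.{u}} (hν : ℵ₀ ≤ ν) {Λ : Type u} [Preorder Λ] (hΛ : ChSup ν Λ)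
    {s : Set Λ} (hne : s.Nonempty) (hdir : DirectedOn (· ≤ ·) s) (hc : #s ≤ ν) :
    ∃ d, IsLUB s d := by
  exact (iwa hν hΛ _ s rfl hne hdir hc).1

theorem Cnt.dir {P Λ N : Type u} [Preorder P] [Preorder Λ] {ν : Cardinal.{u}} (hν : ℵ₀ ≤ ν)
    (hΛ : ChSup ν Λ) (S : Sys P Λ N) (h : S.Cnt ν) {s : Set Λ} (hne : s.Nonempty)
    (hdir : DirectedOn (· ≤ ·) s) (hc : #s ≤ ν) {d : Λ} (hd : IsLUB s d) (p : P) (ζ ζ' : N)
    (h1 : ∀ a ∈ s, ∀ p' ≤ p, ∃ q ≤ p', ∃ ξ, S.rel q a d ξ ζ ∧ S.rel q a d ξ ζ') :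
    ∀ p' ≤ p, ∃ q ≤ p', ∃ η, S.rel q d d η ζ ∧ S.rel q d d η ζ' := by
  have hD : Cld ν {a : Λ | a ≤ d → ∀ p' ≤ p, ∃ q ≤ p', ∃ ξ, S.rel q a d ξ ζ ∧ S.rel q a d ξ ζ'} := by
    intro c hcD hcne hch hcν a' ha' had p' hp'
    obtain ⟨q0, hq0, ζ1, hζ1⟩ := S.tot had p' ζ
    obtain ⟨q1, hq1, ζ1', hζ1'⟩ := S.tot had q0 ζ'
    have hζ1q := S.mono hq1 hζ1
    have key := h c hcne hch hcν a' ha' q1 ζ1 ζ1' (by
      intro a ha q' hq'
      have haa : a ≤ a' := ha'.1 ha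
      have hq'p : q' ≤ p := hq'.trans (hq1.trans (hq0.trans hp'))
      obtain ⟨q, hq, ξ, h3, h4⟩ := hcD ha (haa.trans had) q' hq'p
      refine ⟨q, hq, ξ, ?_, ?_⟩
      · exact S.can haa had h3 (S.mono (hq.trans hq') hζ1q)
      · exact S.can haa had h4 (S.mono (hq.trans hq') hζ1'))
    obtain ⟨q, hq, η, h5, h6⟩ := key q1 le_rfl
    refine ⟨q, hq.trans (hq1.trans hq0), η, ?_, ?_⟩
    · exact S.comp le_rfl had h5 (S.mono hq hζ1q)
    · exact S.comp le_rfl had h6 (S.mono hq hζ1')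
  exact cld_dir hν hΛ hD (fun a ha _ => h1 a ha) hne hdir hc d hd le_rfl

end STP
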