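import Pool.Agent.STP.Nar
import Pool.Agent.STP.IDef

/-! # The narrow system with top nodes: data at one `u` (package I5)

(problem MP_e44aae_lc, project STP, ITP extension, text `/team-store/ITPinf.md`, 6')

Variant of `data` in `Nar.lean` (copy `data1`, `data` and change them). Changes: the upper bound `d u` of `D_u = {a | iΛ a ∈ u}` is a least upper bound, if `D_u` has one; the node at `d u` is `o (m u)` (for the system `Sm (m u)`); and the last clause gives the relation with the top node at the condition `rc u e s c ≤ tm (m u)` which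
depends on `u`, `e` and the colours only: `E u = Bc × (D_u → (S × Col γ (mu (m u)).out) × N)`, `e = (b, f)`; `rc u e s c := ((f a).1, b)` for some `a ∈ D_u` with `sc u e a = s`, `cc u e a = c`, if there is one (it does not depend on `a`: `(f a).1` is determined by `s` and `c`, because `e_u` is injective, as in the last clause of `data1`), and
`rc u e s c := tm (m u)` otherwise. For `F u e ≤ Φ u e` the condition `b ≤ (tm (m u)).2`, `(f a).1 ≤ (tm (m u)).1` is part of `Φ` only for `q ∈ Φ u e`; if `Φ u e = ⊥` the inequality may fail, therefore define `rc u e s c := tm (m u)` also if `¬ (b ≤ (tm (m u)).2 ∧ ∀ a, (f a).1 ≤ (tm (m u)).1)`. -/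

universe u

namespace STP

open Cardinal

/-- the data at one good `u` -/
private theorem inar1 {κ γ lb μ : Cardinal.{u}} {Q Λ N S Y : Type u} [Preorder Q] [Preorder Λ]
    [PartialOrder S] (hκs : ∀ x < κ, 2 ^ x < κ) (hγ : ℵ₀ ≤ γ) (hlb : γ ≤ lb)
    (hQ : DC κ Q) (o : N) (s0 : S)
    (Sm : Sys (TT S γ κ μ × Q) Λ N) (tm : TT S γ κ μ)
    (iΛ : Λ → Y) (iN : N → Y) (hiN : Function.Injective iN)
    (u : Pk κ Y) (hμ : μ = #{x : N // iN x ∈ u.1}) (h1 : lb ≤ μ)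
    (h2 : #{a : Λ // iΛ a ∈ u.1} ≤ Order.succ (Order.succ μ))
    (d : Λ) (hd : ∀ a ∈ {a | iΛ a ∈ u.1}, a ≤ d) :
    ∃ (E : Type u) (F : E → RO Q) (sc : E → Λ → S)
      (cc : E → Λ → Set (γ.out × N)) (zc : E → Λ → N)
      (rc : E → S → Set (γ.out × N) → TT S γ κ μ),
      (∀ e e', e ≠ e' → F e ⊓ F e' = ⊥) ∧ ⨆ e, F e = ⊤ ∧
      (∀ e a, #(cc e a) < γ) ∧
      (∀ e a, ∀ x ∈ cc e a, iN x.2 ∈ u.1) ∧
      (∀ e s c, rc e s c ≤ tm) ∧
      ∀ e a q, iΛ a ∈ u.1 → q ∈ F e →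
        Sm.rel (rc e (sc e a) (cc e a), q) a d (zc e a) o := by
  classical
  have hμκ : μ < κ := by
    rw [hμ]
    refine lt_of_le_of_lt ?_ u.2
    exact mk_le_of_injective (f := fun x : {x : N // iN x ∈ u.1} => (⟨iN x.1, x.2⟩ : u.1))
      fun x y h => Subtype.ext (hiN (congrArg Subtype.val h))
  have hsucc : ∀ x < κ, Order.succ x < κ := fun x hx =>
    lt_of_le_of_lt (Order.succ_le_of_lt (cantor x)) (hκs x hx)
  have h3 : Order.succ (Order.succ (Order.succ μ)) ≤ κ := (hsucc _ (hsucc _ (hsucc _ hμκ))).le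
  have hμ0 : ℵ₀ ≤ μ := hγ.trans (hlb.trans h1)
  have hreg : (Order.succ (Order.succ (Order.succ μ))).IsRegular :=
    isRegular_succ (hμ0.trans ((Order.le_succ _).trans (Order.le_succ _)))
  have hΦ : ∃ Φ : Col (Order.succ (Order.succ (Order.succ μ))) κ.out ×
      ({a | iΛ a ∈ u.1} → (S × Col γ μ.out) × N) → RO Q, ∀ e q, q ∈ Φ e ↔ e.1 ≤ tm.2 ∧
        ∀ a : {a | iΛ a ∈ u.1}, (e.2 a).1 ≤ tm.1 ∧
          Sm.rel (((e.2 a).1, e.1), q) a.1 d (e.2 a).2 o := by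
    refine ⟨fun e => ⟨{q | e.1 ≤ tm.2 ∧ ∀ a : {a | iΛ a ∈ u.1}, (e.2 a).1 ≤ tm.1 ∧
      Sm.rel (((e.2 a).1, e.1), q) a.1 d (e.2 a).2 o}, fun p => ⟨?_, ?_⟩⟩, fun e q => Iff.rfl⟩
    · rintro ⟨h4, h5⟩ q hq
      exact ⟨q, le_rfl, h4, fun a => ⟨(h5 a).1,
        Sm.mono (p := (((e.2 a).1, e.1), p)) ⟨le_rfl, hq⟩ (h5 a).2⟩⟩
    · intro h
      obtain ⟨r, -, h4, h5⟩ := h p le_rfl
      refine ⟨h4, fun a => ⟨(h5 a).1, Sm.loc fun q hq => ?_⟩⟩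
      obtain ⟨r', hr', -, h6⟩ := h q.2 hq.2
      exact ⟨(q.1, r'), ⟨le_rfl, hr'⟩,
        Sm.mono (p := (((e.2 a).1, e.1), r')) ⟨hq.1, le_rfl⟩ (h6 a).2⟩
  obtain ⟨Φ, hΦ⟩ := hΦ
  obtain ⟨F, hF1, hF2, hF3⟩ := exists_max Φ
  obtain ⟨eu⟩ : Nonempty (μ.out ≃ {x : N // iN x ∈ u.1}) :=
    Cardinal.eq.1 (by rw [mk_out]; exact hμ)
  set g : γ.out × μ.out → γ.out × N := fun x => (x.1, (eu x.2).1) with hgdef
  have hg : Function.Injective g := by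
    intro x y h
    simp only [hgdef, Prod.mk.injEq] at h
    exact Prod.ext h.1 (eu.injective (Subtype.ext h.2))
  refine ⟨_, F, fun e a => if h : iΛ a ∈ u.1 then (e.2 ⟨a, h⟩).1.1 else s0,
    fun e a => if h : iΛ a ∈ u.1 then g '' (e.2 ⟨a, h⟩).1.2.s else ∅,
    fun e a => if h : iΛ a ∈ u.1 then (e.2 ⟨a, h⟩).2 else o,
    fun e s c => if h : ∃ a : {a | iΛ a ∈ u.1}, (e.2 a).1.1 = s ∧ g '' (e.2 a).1.2.s = c ∧
      (e.2 a).1 ≤ tm.1 ∧ e.1 ≤ tm.2 then ((e.2 h.choose).1, e.1) else tm,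
    hF2, ?_, ?_, ?_, ?_, ?_⟩
  · rw [hF3, eq_top_iff]
    intro p _
    refine RO.mem_iSup.2 fun q _ => ?_
    obtain ⟨q', hq', b, hb, f, hf⟩ := good (Clq.dc hreg) (hQ.mono h3) Sm {a | iΛ a ∈ u.1}
      (Order.lt_succ_of_le h2) d hd o tm q
    exact ⟨q', hq', (b, f), (hΦ _ _).2 ⟨hb, hf⟩⟩
  · intro e a
    dsimp only
    split_ifs with h
    · exact mk_image_le.trans_lt (e.2 ⟨a, h⟩).1.2.card
    · rw [mk_eq_zero]
      exact lt_of_lt_of_le aleph0_pos hγ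
  · intro e a x hx
    dsimp only at hx
    split_ifs at hx with h
    · obtain ⟨y, -, rfl⟩ := hx
      exact (eu y.2).2
    · exact absurd hx (Set.notMem_empty x)
  · intro e s c
    dsimp only
    split_ifs with h
    · exact ⟨h.choose_spec.2.2.1, h.choose_spec.2.2.2⟩
    · exact le_rfl
  · intro e a q ha hq
    obtain ⟨h4, h5⟩ := (hΦ e q).1 (hF1 e q hq)
    simp only [dif_pos ha]
    have h : ∃ a' : {a | iΛ a ∈ u.1}, (e.2 a').1.1 = (e.2 ⟨a, ha⟩).1.1 ∧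
        g '' (e.2 a').1.2.s = g '' (e.2 ⟨a, ha⟩).1.2.s ∧
        (e.2 a').1 ≤ tm.1 ∧ e.1 ≤ tm.2 := ⟨⟨a, ha⟩, rfl, rfl, (h5 ⟨a, ha⟩).1, h4⟩
    rw [dif_pos h]
    have h6 : (e.2 h.choose).1 = (e.2 ⟨a, ha⟩).1 :=
      Prod.ext h.choose_spec.1 (Clq.ext (hg.image_injective h.choose_spec.2.1))
    rw [h6]
    exact (h5 ⟨a, ha⟩).2

theorem data' {κ γ lb ν : Cardinal.{u}} {Q Λ N S Y Mi : Type u} [Preorder Q] [Preorder Λ]
    [PartialOrder S] (hκr : κ.IsRegular) (hκs : ∀ x < κ, 2 ^ x < κ) (hγ : ℵ₀ ≤ γ) (hlb : γ ≤ lb)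
    (hlbκ : lb < κ) (hQ : DC κ Q) (hΛ : Dir ν Λ) (hκν : κ ≤ ν) (o : Mi → N)
    (hS : Nonempty S)
    (mu : Mi → Cardinal.{u}) (hmu : ∀ x, lb ≤ x → x < κ → ∃ m, mu m = x)
    (Sm : ∀ m, Sys (TT S γ κ (mu m) × Q) Λ N) (tm : ∀ m, TT S γ κ (mu m))
    (iΛ : Λ → Y) (iN : N → Y) (hiΛ : Function.Injective iΛ) (hiN : Function.Injective iN) :
    ∃ (E : Pk κ Y → Type u) (F : ∀ u, E u → RO Q) (m : Pk κ Y → Mi) (d : Pk κ Y → Λ)
      (sc : ∀ u, E u → Λ → S) (cc : ∀ u, E u → Λ → Set (γ.out × N)) (zc : ∀ u, E u → Λ → N)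
      (rc : ∀ u, E u → S → Set (γ.out × N) → TT S γ κ (mu (m u))),
      (∀ u e e', e ≠ e' → F u e ⊓ F u e' = ⊥) ∧
      (∀ u, lb ≤ #{x : N // iN x ∈ u.1} →
        #{a : Λ // iΛ a ∈ u.1} ≤ Order.succ (Order.succ #{x : N // iN x ∈ u.1}) →
        ⨆ e, F u e = ⊤) ∧
      (∀ u e a, #(cc u e a) < γ) ∧
      (∀ u e a, ∀ x ∈ cc u e a, iN x.2 ∈ u.1) ∧
      (∀ u, (∃ b, IsLUB {a | iΛ a ∈ u.1} b) → IsLUB {a | iΛ a ∈ u.1} (d u)) ∧
      (∀ u e s c, rc u e s c ≤ tm (m u)) ∧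
      ∀ u e a q, iΛ a ∈ u.1 → q ∈ F u e →
        (Sm (m u)).rel (rc u e (sc u e a) (cc u e a), q) a (d u) (zc u e a) (o (m u)) := by
  obtain ⟨s0⟩ := hS
  have key : ∀ u : Pk κ Y, ∃ (E : Type u) (F : E → RO Q) (m : Mi) (d : Λ) (sc : E → Λ → S)
      (cc : E → Λ → Set (γ.out × N)) (zc : E → Λ → N)
      (rc : E → S → Set (γ.out × N) → TT S γ κ (mu m)),
      (∀ e e', e ≠ e' → F e ⊓ F e' = ⊥) ∧
      (lb ≤ #{x : N // iN x ∈ u.1} →
        #{a : Λ // iΛ a ∈ u.1} ≤ Order.succ (Order.succ #{x : N // iN x ∈ u.1}) →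
        ⨆ e, F e = ⊤) ∧
      (∀ e a, #(cc e a) < γ) ∧
      (∀ e a, ∀ x ∈ cc e a, iN x.2 ∈ u.1) ∧
      ((∃ b, IsLUB {a | iΛ a ∈ u.1} b) → IsLUB {a | iΛ a ∈ u.1} d) ∧
      (∀ e s c, rc e s c ≤ tm m) ∧
      ∀ e a q, iΛ a ∈ u.1 → q ∈ F e →
        (Sm m).rel (rc e (sc e a) (cc e a), q) a d (zc e a) (o m) := by
    intro u
    have hDκ : #{a : Λ // iΛ a ∈ u.1} < κ := by
      refine lt_of_le_of_lt ?_ u.2
      exact mk_le_of_injective (f := fun x : {x : Λ // iΛ x ∈ u.1} => (⟨iΛ x.1, x.2⟩ : u.1))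
        fun x y h => Subtype.ext (hiΛ (congrArg Subtype.val h))
    obtain ⟨d, hd, hlub⟩ : ∃ d : Λ, (∀ a ∈ {a | iΛ a ∈ u.1}, a ≤ d) ∧
        ((∃ b, IsLUB {a | iΛ a ∈ u.1} b) → IsLUB {a | iΛ a ∈ u.1} d) := by
      by_cases hb : ∃ b, IsLUB {a | iΛ a ∈ u.1} b
      · obtain ⟨b, hb⟩ := hb
        exact ⟨b, fun a ha => hb.1 ha, fun _ => hb⟩
      · obtain ⟨d, hd⟩ := hΛ {a | iΛ a ∈ u.1} (hDκ.le.trans hκν)
        exact ⟨d, hd, fun h => absurd h hb⟩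
    by_cases h : lb ≤ #{x : N // iN x ∈ u.1} ∧
        #{a : Λ // iΛ a ∈ u.1} ≤ Order.succ (Order.succ #{x : N // iN x ∈ u.1})
    · obtain ⟨h1, h2⟩ := h
      have hμκ : #{x : N // iN x ∈ u.1} < κ := by
        refine lt_of_le_of_lt ?_ u.2
        exact mk_le_of_injective (f := fun x : {x : N // iN x ∈ u.1} => (⟨iN x.1, x.2⟩ : u.1))
          fun x y h => Subtype.ext (hiN (congrArg Subtype.val h))
      obtain ⟨m, hm⟩ := hmu _ h1 hμκ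
      obtain ⟨E, F, sc, cc, zc, rc, h3, h4, h5, h6, h7, h8⟩ := inar1 hκs hγ hlb hQ (o m) s0
        (Sm m) (tm m) iΛ iN hiN u hm (by rw [hm]; exact h1) (by rw [hm]; exact h2) d hd
      exact ⟨E, F, m, d, sc, cc, zc, rc, h3, fun _ _ => h4, h5, h6, hlub, h7, h8⟩
    · obtain ⟨m, -⟩ := hmu lb le_rfl hlbκ
      exact ⟨PEmpty, fun e => e.elim, m, d, fun e => e.elim, fun e => e.elim, fun e => e.elim,
        fun e => e.elim, fun e => e.elim, fun h1 h2 => absurd ⟨h1, h2⟩ h, fun e => e.elim,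
        fun e => e.elim, hlub, fun e => e.elim, fun e => e.elim⟩
  choose E F m d sc cc zc rc h1 h2 h3 h4 h5 h6 h7 using key
  exact ⟨E, F, m, d, sc, cc, zc, rc, h1, h2, h3, h4, h5, h6, h7⟩

end STP
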