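import Pool.Agent.STP.IClo
import Pool.Agent.STP.IClb

/-! # Threads in the product of all bad forcings are not ineffable (package I4)

(problem MP_e44aae_lc, project STP, ITP extension, text `/team-store/ITPinf.md`, 8.1)

* `peel'`: copy of `peel` in `ThmB.lean` with `closed_thr'` instead of `closed_thr`. The map `F` there (`(T × H) × R m × (others × C) → T × (H × ((∀ i, R i) × C))`) is an order isomorphism (`cmb_eta`, `cmb_self`, `cmb_ne`), so every `q ≤ F p` is `F q'` with `q' ≤ p` and the agreement of `closed_thr'` is the agreement claimed here; the thread `th'` on `(T × H) × R m` is read on `T × (H × R m)`.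
* `bad_prod`: `S' := S.index (fun a => a m)`. `th` is a thread of `S'` (through the projection) below `(t, (h, (ρ, c)))`. `peel'` gives `p ≤ (t, (h, (ρ, c)))` and a thread `th'` of `S'` over `T × (H × R m)` below `(p.1, (p.2.1, p.2.2.1 m))` which agrees with `th` below `p`. `thr_index` (evaluation is surjective since all `Λ i` are nonempty by `Dir`)
  gives a thread of `S` below the same condition; here one needs the relation with `th'`: redo its proof or use: `th3 x b ξ := ∃ a, a m = b ∧ th' x a ξ` (this is the thread of the proof of `thr_index`: it is a thread of `S` below the condition by the same argument; coherence: for `a m ≤ b m` take `c ≥ a, b`, decide `th' c`, and `can`). By `hno` it is not ineffable: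
  there are a club `D` of `Λ m` and `x ≤ (p.1, (p.2.1, p.2.2.1 m))` such that no `y ≤ x`, `b ∈ D` have `th3 y b o`. Let `p' := (x.1, (x.2.1, (Function.update p.2.2.1 m x.2.2, p.2.2.2))) ≤ p`. If `q ≤ p'`, `a m ∈ D` and `th q a o`, then `th' (q.1, (q.2.1, q.2.2.1 m)) a o` (agreement), so `th3 .. (a m) o` at a condition below `x`: contradiction. -/

universe u

namespace STP

open Cardinal

open Classical in
/-- replace all the coordinates of `ρ` -/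
private noncomputable def cmb {ι : Type u} {R : ι → Type u} (m : ι) (ρ : ∀ i, R i) (x : R m)
    (g : ∀ j : {j : ι // j ≠ m}, R j.1) : ∀ i, R i :=
  Function.update (fun i => if hi : i = m then ρ i else g ⟨i, hi⟩) m x

private theorem cmb_self {ι : Type u} {R : ι → Type u} (m : ι) (ρ : ∀ i, R i) (x : R m)
    (g : ∀ j : {j : ι // j ≠ m}, R j.1) : cmb m ρ x g m = x := by
  classical
  unfold cmb
  exact Function.update_self _ _ _

private theorem cmb_ne {ι : Type u} {R : ι → Type u} (m : ι) (ρ : ∀ i, R i) (x : R m)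
    (g : ∀ j : {j : ι // j ≠ m}, R j.1) (j : {j : ι // j ≠ m}) : cmb m ρ x g j.1 = g j := by
  classical
  unfold cmb
  rw [Function.update_of_ne j.2]
  exact dif_neg j.2

private theorem cmb_eta {ι : Type u} {R : ι → Type u} (m : ι) (ρ f : ∀ i, R i) :
    cmb m ρ (f m) (fun j => f j.1) = f := by
  funext i
  by_cases hi : i = m
  · subst hi
    exact cmb_self i ρ _ _
  · exact cmb_ne m ρ _ _ ⟨i, hi⟩

private theorem cmb_mono {ι : Type u} {R : ι → Type u} [∀ i, Preorder (R i)] (m : ι)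
    (ρ : ∀ i, R i) {x x' : R m} {g g' : ∀ j : {j : ι // j ≠ m}, R j.1} (hx : x' ≤ x)
    (hg : g' ≤ g) : cmb m ρ x' g' ≤ cmb m ρ x g := by
  intro i
  by_cases hi : i = m
  · subst hi
    rw [cmb_self, cmb_self]
    exact hx
  · have h1 := hg ⟨i, hi⟩
    rw [← cmb_ne m ρ x' g' ⟨i, hi⟩, ← cmb_ne m ρ x g ⟨i, hi⟩] at h1
    exact h1

theorem peel' {T H C N Λ ι : Type u} {R : ι → Type u} [Preorder T] [Preorder H]
    [Preorder C] [∀ i, Preorder (R i)] [Preorder Λ] {ν τ : Cardinal.{u}} (hν : ℵ₀ ≤ ν)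
    (hN : #N = ν) (hs : ∀ x < ν, 2 ^ x < ν) (hτ : 2 ^ ν ≤ τ) (hT : #(T × H) ≤ τ)
    (hc : COV ν (T × H)) (hΛ : Dir ν Λ) (hR : ∀ i, DC (Order.succ τ) (R i))
    (hC : DC (Order.succ τ) C) (m : ι) (S : Sys (T × (H × R m)) Λ N) {t : T} {h : H}
    {ρ : ∀ i, R i} {c : C} {th : T × (H × ((∀ i, R i) × C)) → Λ → N → Prop}
    (hth : IsThr (fun p a b ξ ζ => S.rel (p.1, (p.2.1, p.2.2.1 m)) a b ξ ζ) (t, (h, (ρ, c)))
      th) : ∃ p ≤ (t, (h, (ρ, c))), ∃ th', IsThr S.rel (p.1, (p.2.1, p.2.2.1 m)) th' ∧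
        ∀ q ≤ p, ∀ a ξ, th q a ξ → th' (q.1, (q.2.1, q.2.2.1 m)) a ξ := by
  classical
  let S' : Sys ((T × H) × R m) Λ N := S.comap (fun p => (p.1.1, (p.1.2, p.2)))
    (fun p q hq => ⟨hq.1.1, hq.1.2, hq.2⟩)
    (fun p' q hq => ⟨((q.1, q.2.1), q.2.2), ⟨⟨hq.1, hq.2.1⟩, hq.2.2⟩, le_rfl⟩)
  let F : (T × H) × R m × ((∀ j : {j : ι // j ≠ m}, R j.1) × C) →
      T × (H × ((∀ i, R i) × C)) := fun p =>
    (p.1.1, (p.1.2, (cmb m ρ p.2.1 p.2.2.1, p.2.2.2)))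
  have hF : ∀ p q, q ≤ p → F q ≤ F p := fun p q hq =>
    ⟨hq.1.1, hq.1.2, cmb_mono m ρ hq.2.1 hq.2.2.1, hq.2.2.2⟩
  have hF0 : F ((t, h), ρ m, ((fun j => ρ j.1), c)) = (t, (h, (ρ, c))) := by
    show (t, (h, (cmb m ρ (ρ m) (fun j => ρ j.1), c))) = (t, (h, (ρ, c)))
    rw [cmb_eta]
  let G : T × (H × ((∀ i, R i) × C)) →
      (T × H) × R m × ((∀ j : {j : ι // j ≠ m}, R j.1) × C) := fun q =>
    ((q.1, q.2.1), (q.2.2.1 m, ((fun j => q.2.2.1 j.1), q.2.2.2)))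
  have hFG : ∀ q, F (G q) = q := by
    intro q
    show (q.1, (q.2.1, (cmb m ρ (q.2.2.1 m) (fun j => q.2.2.1 j.1), q.2.2.2))) = q
    rw [cmb_eta]
  have hG : ∀ p q, q ≤ F p → G q ≤ p := by
    intro p q hq
    refine ⟨⟨hq.1, hq.2.1⟩, ?_, ?_, hq.2.2.2⟩
    · have h3 := hq.2.2.1 m
      rw [show (F p).2.2.1 m = p.2.1 from cmb_self m ρ _ _] at h3
      exact h3
    · intro j
      have h3 := hq.2.2.1 j.1
      rw [show (F p).2.2.1 j.1 = p.2.2.1 j from cmb_ne m ρ _ _ j] at h3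
      exact h3
  have hth' : IsThr (fun p a b ξ ζ => S'.rel (p.1, p.2.1) a b ξ ζ)
      ((t, h), ρ m, ((fun j : {j : ι // j ≠ m} => ρ j.1), c)) (fun p a ξ => th (F p) a ξ) := by
    refine ⟨fun hq h1 => hth.mono (hF _ _ hq) h1, ?_, ?_⟩
    · intro a p hp
      have h1 := hF _ _ hp
      rw [hF0] at h1
      obtain ⟨q, hq, ξ, h2⟩ := hth.tot a (F p) h1
      refine ⟨G q, hG p q hq, ξ, ?_⟩
      show th (F (G q)) a ξ
      rw [hFG]
      exact h2
    · intro p a b ξ ζ hp hab h2 h3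
      have h1 := hF _ _ hp
      rw [hF0] at h1
      have h4 : S.rel (p.1.1, (p.1.2, cmb m ρ p.2.1 p.2.2.1 m)) a b ξ ζ := hth.coh h1 hab h2 h3
      rw [cmb_self] at h4
      exact h4
  obtain ⟨p, hp, th', h1, hag⟩ := closed_thr' hν hN hs hτ hT hc hΛ (hR m)
    (DC.prod (DC.pi fun j : {j : ι // j ≠ m} => hR j.1) hC) S' hth'
  have hpp := hF _ _ hp
  rw [hF0] at hpp
  refine ⟨F p, hpp, fun q a ξ => th' ((q.1, q.2.1), q.2.2) a ξ, ⟨?_, ?_, ?_⟩, ?_⟩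
  · intro q r a ξ hr h2
    exact h1.mono (p := ((q.1, q.2.1), q.2.2)) (q := ((r.1, r.2.1), r.2.2))
      ⟨⟨hr.1, hr.2.1⟩, hr.2.2⟩ h2
  · intro a q hq
    have hq3 : q.2.2 ≤ p.2.1 := by
      have h3 := hq.2.2
      rw [show (F p).2.2.1 m = p.2.1 from cmb_self m ρ _ _] at h3
      exact h3
    obtain ⟨r, hr, ξ, h2⟩ := h1.tot a ((q.1, q.2.1), q.2.2) ⟨⟨hq.1, hq.2.1⟩, hq3⟩
    exact ⟨(r.1.1, (r.1.2, r.2)), ⟨hr.1.1, hr.1.2, hr.2⟩, ξ, h2⟩
  · intro q a b ξ ζ hq hab h2 h3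
    have hq3 : q.2.2 ≤ p.2.1 := by
      have h3 := hq.2.2
      rw [show (F p).2.2.1 m = p.2.1 from cmb_self m ρ _ _] at h3
      exact h3
    exact h1.coh (p := ((q.1, q.2.1), q.2.2)) ⟨⟨hq.1, hq.2.1⟩, hq3⟩ hab h2 h3
  · intro q hq a ξ h2
    refine hag (G q) (hG p q hq) a ξ ?_
    show th (F (G q)) a ξ
    rw [hFG]
    exact h2

theorem bad_prod {T H C N ι : Type u} {R Λ : ι → Type u} [Preorder T] [Preorder H]
    [Preorder C] [∀ i, Preorder (R i)] [∀ i, Preorder (Λ i)] {ν τ : Cardinal.{u}} (hν : ℵ₀ ≤ ν)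
    (hN : #N = ν) (hs : ∀ x < ν, 2 ^ x < ν) (hτ : 2 ^ ν ≤ τ) (hT : #(T × H) ≤ τ)
    (hc : COV ν (T × H)) (hΛ : ∀ i, Dir ν (Λ i)) (hR : ∀ i, DC (Order.succ τ) (R i))
    (hC : DC (Order.succ τ) C) (m : ι) (S : Sys (T × (H × R m)) (Λ m) N) (o : N)
    {t0 : T} {h0 : H} {ρ0 : ∀ i, R i}
    (hno : ∀ p ≤ (t0, (h0, ρ0 m)), ∀ th, IsThr S.rel p th → ¬ Inef ν p th o)
    {p : T × (H × ((∀ i, R i) × C))} (hp1 : p.1 ≤ t0) (hp2 : p.2.1 ≤ h0) (hp3 : p.2.2.1 ≤ ρ0)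
    {th : T × (H × ((∀ i, R i) × C)) → (∀ i, Λ i) → N → Prop}
    (hth : IsThr (fun p a b ξ ζ => S.rel (p.1, (p.2.1, p.2.2.1 m)) (a m) (b m) ξ ζ) p th) :
    ∃ p' ≤ p, ∃ D : Set (Λ m), Club ν D ∧ ∀ q ≤ p', ∀ a : ∀ i, Λ i, a m ∈ D → ¬ th q a o := by
  classical
  have hd : Dir ν (∀ i, Λ i) := Dir.pi hΛ
  have hd2 : ∀ a b : (∀ i, Λ i), ∃ c, a ≤ c ∧ b ≤ c := by
    intro a b
    obtain ⟨c, hc⟩ := hd {a, b} ((Set.toFinite {a, b}).lt_aleph0.le.trans hν)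
    exact ⟨c, hc a (Set.mem_insert _ _), hc b (Set.mem_insert_of_mem _ rfl)⟩
  have hne : ∀ i, Nonempty (Λ i) := fun i => by
    obtain ⟨b, -⟩ := hΛ i ∅ (by rw [mk_eq_zero]; exact zero_le)
    exact ⟨b⟩
  let S' : Sys (T × (H × R m)) (∀ i, Λ i) N :=
    S.index (fun a => a m) (fun a b hab => hab m)
  obtain ⟨p1, hp, th', h1, hag⟩ := peel' hν hN hs hτ hT hc hd hR hC m S' (t := p.1)
    (h := p.2.1) (ρ := p.2.2.1) (c := p.2.2.2) hth
  let y : T × (H × R m) := (p1.1, (p1.2.1, p1.2.2.1 m))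
  have h3 : IsThr S.rel y (fun x b ξ => ∃ a : ∀ i, Λ i, a m = b ∧ th' x a ξ) := by
    refine ⟨?_, ?_, ?_⟩
    · rintro p q a ξ hq ⟨a', ha, h⟩
      exact ⟨a', ha, h1.mono hq h⟩
    · intro a q hq
      obtain ⟨r, hr, ξ, h⟩ := h1.tot (Function.update (fun i => (hne i).some) m a) q hq
      exact ⟨r, hr, ξ, _, Function.update_self _ _ _, h⟩
    · rintro p a b ξ ζ hp hab ⟨a', rfl, h2⟩ ⟨b', rfl, h3⟩
      refine S.loc fun q hq => ?_
      obtain ⟨c, hac, hbc⟩ := hd2 a' b'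
      obtain ⟨r, hr, η, h4⟩ := h1.tot c q (hq.trans hp)
      have hrp : r ≤ p := hr.trans hq
      have h5 := h1.coh (hrp.trans hp) hac (h1.mono hrp h2) h4
      have h6 := h1.coh (hrp.trans hp) hbc (h1.mono hrp h3) h4
      exact ⟨r, hr, S.can hab (hbc m) h5 h6⟩
  have hy : y ≤ (t0, (h0, ρ0 m)) :=
    ⟨hp.1.trans hp1, hp.2.1.trans hp2, (hp.2.2.1 m).trans (hp3 m)⟩
  have h4 := hno y hy _ h3
  unfold Inef at h4
  push Not at h4
  obtain ⟨D, hD, x, hx, h5⟩ := h4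
  have hle : ((x.1, (x.2.1, (Function.update p1.2.2.1 m x.2.2, p1.2.2.2))) :
      T × (H × ((∀ i, R i) × C))) ≤ p1 := by
    refine ⟨hx.1, hx.2.1, ?_, le_rfl⟩
    intro i
    by_cases hi : i = m
    · subst hi
      show Function.update p1.2.2.1 i x.2.2 i ≤ p1.2.2.1 i
      rw [Function.update_self]
      exact hx.2.2
    · show Function.update p1.2.2.1 m x.2.2 i ≤ p1.2.2.1 i
      rw [Function.update_of_ne hi]
  refine ⟨(x.1, (x.2.1, (Function.update p1.2.2.1 m x.2.2, p1.2.2.2))), hle.trans hp, D, hD, ?_⟩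
  intro q hq a ha h6
  refine h5 (q.1, (q.2.1, q.2.2.1 m)) ⟨hq.1, hq.2.1, ?_⟩ (a m) ha a rfl
    (hag q (hq.trans hle) a o h6)
  have h7 : q.2.2.1 m ≤ Function.update p1.2.2.1 m x.2.2 m := hq.2.2.1 m
  rw [Function.update_self] at h7
  exact h7

end STP
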