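import Pool.Agent.STP.Nar
import Pool.Agent.STP.Colr
import Pool.Agent.STP.Cov

/-! # The narrow system (package S18)

(problem MP_e44aae_lc, project STP)

Text, section 6, Prop 2, (iv) and (v): assembly. Take `E, F, m, sc, cc, zc` from `data` (`lb`). The set of `u` with `lb ≤ #N_u` has measure `⊤` (`NormalU.card_ge` for `iN`, `lb < κ`,
`lb ≤ κ ≤ ν = #N`), the set of `u` with `#Λ_u ≤ succ (succ #N_u)` has measure `⊤` (`hcard`), so `U (fun u => ⨆ e, F u e) = ⊤`.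
`K := S × {c : Set (γ.out × N) // #c < γ} × Γ`, `#K ≤ ν` (`hK`). For `a : Λ` and `k = (s, c, i)` let
`I k a := U (fun u => ⨆ e, ⨆ _ : iΛ a ∈ u.1 ∧ sc u e a = s ∧ cc u e a = c ∧ zc u e a ∈ Ni i, F u e)`.
By `colours` (for `sc u e := sc u e a`, ...) and since almost every `u` contains `iΛ a`: for all `a`, `q` there are `q' ≤ q` and `k` with `q' ∈ I k a`.
Pigeonhole: there are `q0 ≤ qs` and `k` such that for all `a` and `q ≤ q0` there are `q' ≤ q`, `a' ≥ a` with `q' ∈ I k a'`. Suppose not. Let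
`W k q a := ∀ q' ≤ q, ∀ a', a ≤ a' → q' ∉ I k a'`. It is open; for each `k` and `q ≤ qs` there are `a`, `q'' ≤ q` with `W k q'' a`. `COV ν Q` (index set `K`): `q1 ≤ qs`, `A : Set Λ`, `#A ≤ ν`, such that for all `k`, `q ≤ q1`
there are `q' ≤ q`, `a ∈ A` with `W k q' a`. Let `a0` be an upper bound of `A` (`Dir`), `q2 ≤ q1` and `k` with `q2 ∈ I k a0`; `q3 ≤ q2`, `a ∈ A` with `W k q3 a`: `q3 ∈ I k a0` (`RO.down`), contradiction.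
Let `I a := I k a`, `k = (s, c, i)`. (2): let `a ≤ b`, `q ≤ q0`, `q ∈ I a`, `q ∈ I b`. `NormalU.mem_inf`, `exists_mem`: `u` and `q1 ≤ q` in both values at `u`; by `RO.mem_iSup` (twice) there are `q2 ≤ q1`, `e`, `e'` with `q2 ∈ F u e`, the
conditions for `a` and `e`, `q2 ∈ F u e'`, the conditions for `b` and `e'`; `e = e'` by disjointness. The last clause of `data` gives `r ≤ tm (m u)` and
`(Sm (m u)).rel (r, q2) a b (zc u e a) (zc u e b)`, both nodes in `Ni i`. -/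

universe u

namespace STP

open Cardinal

theorem propB {κ γ lb ν : Cardinal.{u}} {Q Λ N S Y Mi Γ : Type u} [Preorder Q] [Preorder Λ]
    [PartialOrder S] (hκr : κ.IsRegular) (hκs : ∀ x < κ, 2 ^ x < κ) (hγ : ℵ₀ ≤ γ) (hlb : γ ≤ lb)
    (hlbκ : lb < κ) (hQ : DC κ Q) (hcQ : COV ν Q) (hΛ : Dir ν Λ) (hκν : κ ≤ ν) (hN : #N = ν)
    (hS : Nonempty S) (hSκ : #S < κ) (hΓκ : #Γ < κ)
    (hK : #(S × {c : Set (γ.out × N) // #c < γ} × Γ) ≤ ν)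
    (mu : Mi → Cardinal.{u}) (hmu : ∀ x, lb ≤ x → x < κ → ∃ m, mu m = x)
    (Sm : ∀ m, Sys (TT S γ κ (mu m) × Q) Λ N) (tm : ∀ m, TT S γ κ (mu m))
    (iΛ : Λ → Y) (iN : N → Y) (iZ : γ.out × N → Y) (hiΛ : Function.Injective iΛ)
    (hiN : Function.Injective iN) (hiZ : Function.Injective iZ)
    {U : (Pk κ Y → RO Q) → RO Q} (hU : NormalU κ Y (RO Q) U)
    (hcard : U (fun u => chi (#{a : Λ // iΛ a ∈ u.1} ≤
      Order.succ (Order.succ #{x : N // iN x ∈ u.1}))) = ⊤)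
    (Ni : Γ → Set N) (hNi : ∀ x, ∃ i, x ∈ Ni i) (qs : Q) :
    ∃ q0 ≤ qs, ∃ (i : Γ) (I : Λ → RO Q),
      (∀ a, ∀ q ≤ q0, ∃ q' ≤ q, ∃ a', a ≤ a' ∧ q' ∈ I a') ∧
      ∀ a b, a ≤ b → ∀ q ≤ q0, q ∈ I a → q ∈ I b → ∃ q' ≤ q, ∃ m, ∃ r ≤ tm m,
        ∃ ξ ∈ Ni i, ∃ ζ ∈ Ni i, (Sm m).rel (r, q') a b ξ ζ := by
  classical
  have hγκ : γ < κ := hlb.trans_lt hlbκ
  have hκ0 : ℵ₀ ≤ κ := hκr.aleph0_le
  have hN0 : Nonempty N := by
    rw [← Cardinal.mk_ne_zero_iff, hN]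
    exact (aleph0_pos.trans_le (hκ0.trans hκν)).ne'
  obtain ⟨E, F, m, sc, cc, zc, hdis, hsup, hcc, hcu, hlast⟩ :=
    data hκr hκs hγ hlb hlbκ hQ hΛ hκν hN0 hS mu hmu Sm tm iΛ iN hiΛ hiN
  -- the family is total almost everywhere
  have htot : U (fun u => ⨆ e, F u e) = ⊤ := by
    have h1 : U (fun u => chi (lb ≤ #{x : N // iN x ∈ u.1})) = ⊤ :=
      hU.card_ge iN hiN hlbκ (hlbκ.le.trans (hκν.trans hN.ge))
    have h2 : U (fun u => chi (lb ≤ #{x : N // iN x ∈ u.1}) ⊓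
        chi (#{a : Λ // iΛ a ∈ u.1} ≤ Order.succ (Order.succ #{x : N // iN x ∈ u.1}))) = ⊤ := by
      rw [hU.inf, h1, hcard, top_inf_eq]
    refine top_le_iff.1 (h2.symm.trans_le (hU.mono fun u q hq => ?_))
    have h3 := RO.mem_chi.1 hq.1
    have h4 := RO.mem_chi.1 hq.2
    rw [hsup u h3 h4]
    exact RO.mem_top
  obtain ⟨K, hKd⟩ : ∃ K : Type u, K = (S × {c : Set (γ.out × N) // #c < γ} × Γ) := ⟨_, rfl⟩
  subst hKd
  -- the values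
  let Z : S × {c : Set (γ.out × N) // #c < γ} × Γ → Λ → Pk κ Y → RO Q := fun k a u =>
    ⨆ e, ⨆ _ : iΛ a ∈ u.1 ∧ sc u e a = k.1 ∧ cc u e a = k.2.1.1 ∧ zc u e a ∈ Ni k.2.2, F u e
  have hden : ∀ (a : Λ) (q : Q), ∃ q' ≤ q, ∃ k, q' ∈ U (Z k a) := by
    intro a q
    obtain ⟨q', hq', s, c, i, hc, h1⟩ := colours hU hQ hγ hγκ hSκ hΓκ
      (by rw [Cardinal.mk_out]; exact hγκ) iN iZ hiN hiZ Ni hNi F (fun u e => sc u e a)
      (fun u e => cc u e a) (fun u e => zc u e a) hdis htot (fun u e => hcc u e a)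
      (fun u e => hcu u e a) q
    refine ⟨q', hq', (s, ⟨c, hc⟩, i), ?_⟩
    have h2 : q' ∈ U (fun u => chi (iΛ a ∈ u.1)) := NormalU.of_top hU (hU.fine (iΛ a))
    have h3 := (NormalU.mem_inf hU).2 ⟨h2, h1⟩
    refine hU.mono (fun u q hq => ?_) q' h3
    have h4 := RO.mem_chi.1 hq.1
    have h5 : (⨆ e, ⨆ _ : sc u e a = s ∧ cc u e a = c ∧ zc u e a ∈ Ni i, F u e) ≤
        Z (s, ⟨c, hc⟩, i) a u := by
      refine iSup_mono fun e => iSup_le fun h => ?_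
      exact le_iSup (fun _ : iΛ a ∈ u.1 ∧ sc u e a = s ∧ cc u e a = c ∧ zc u e a ∈ Ni i => F u e)
        ⟨h4, h⟩
    exact h5 q hq.2
  -- pigeonhole
  have hpig : ∃ q0 ≤ qs, ∃ k, ∀ a, ∀ q ≤ q0, ∃ q' ≤ q, ∃ a', a ≤ a' ∧ q' ∈ U (Z k a') := by
    by_contra hcon
    push Not at hcon
    obtain ⟨q1, hq1, A, hA, h1⟩ := hcQ _ Λ hK
      (fun k q a => ∀ q' ≤ q, ∀ a', a ≤ a' → q' ∉ U (Z k a'))
      (fun k q q' a hq h q'' hq'' a' ha' => h q'' (hq''.trans hq) a' ha') qs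
      (fun k q hq => by
        obtain ⟨a, q', hq', h⟩ := hcon q hq k
        exact ⟨q', hq', a, h⟩)
    obtain ⟨a0, ha0⟩ := hΛ A hA
    obtain ⟨q2, hq2, k, h2⟩ := hden a0 q1
    obtain ⟨q3, hq3, a, ha, h3⟩ := h1 k q2 hq2
    exact h3 q3 le_rfl a0 (ha0 a ha) ((U (Z k a0)).down hq3 h2)
  obtain ⟨q0, hq0, k, hk⟩ := hpig
  refine ⟨q0, hq0, k.2.2, fun a => U (Z k a), hk, ?_⟩
  intro a b hab q _ hqa hqb
  obtain ⟨u, q1, hq1, h1⟩ := NormalU.exists_mem hU ((NormalU.mem_inf hU).2 ⟨hqa, hqb⟩)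
  obtain ⟨q2, hq2, e, h2⟩ := RO.mem_iSup.1 h1.1 q1 le_rfl
  obtain ⟨q3, hq3, ⟨ha1, ha2, ha3, ha4⟩, h3⟩ := RO.mem_iSup.1 h2 q2 le_rfl
  obtain ⟨q4, hq4, e', h4⟩ := RO.mem_iSup.1 h1.2 q3 (hq3.trans hq2)
  obtain ⟨q5, hq5, ⟨hb1, hb2, hb3, hb4⟩, h5⟩ := RO.mem_iSup.1 h4 q4 le_rfl
  have he : e = e' := by
    by_contra hne
    have h6 : q5 ∈ F u e ⊓ F u e' := ⟨(F u e).down (hq5.trans hq4) h3, h5⟩
    rw [hdis u e e' hne] at h6
    exact RO.not_mem_bot h6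
  subst he
  obtain ⟨r, hr, h7⟩ := hlast u e a b q5 ha1 hb1 hab h5 (ha2.trans hb2.symm) (ha3.trans hb3.symm)
  exact ⟨q5, hq5.trans (hq4.trans (hq3.trans (hq2.trans hq1))), m u, r, hr, _, ha4, _, hb4, h7⟩

end STP
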