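import Pool.Agent.STP.INar
import Pool.Agent.STP.Colr
import Pool.Agent.STP.Cov
import Pool.Agent.STP.PropB

/-! # The narrow system with top nodes (package I6)

(problem MP_e44aae_lc, project STP, ITP extension, text `/team-store/ITPinf.md`, 6')

Variant of `propB` in `PropB.lean` (copy its proof up to the pigeonhole step) with `data'` instead of `data`: for the colour `k = (s, c, i)` found there put `A u e a := iΛ a ∈ u.1 ∧ sc u e a = s ∧ cc u e a = c ∧ zc u e a ∈ Ni i`, `ρ u e := rc u e s c`, `z := zc`. Then `TopD` is clear from `data'`, and `U (TopD.Z F A a)` is the value `U (Z k a)` of `propB`,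
which is cofinal below `q0`. -/

universe u

namespace STP

open Cardinal

theorem propB' {κ γ lb ν : Cardinal.{u}} {Q Λ N S Y Mi Γ : Type u} [Preorder Q] [Preorder Λ]
    [PartialOrder S] (hκr : κ.IsRegular) (hκs : ∀ x < κ, 2 ^ x < κ) (hγ : ℵ₀ ≤ γ) (hlb : γ ≤ lb)
    (hlbκ : lb < κ) (hQ : DC κ Q) (hcQ : COV ν Q) (hΛ : Dir ν Λ) (hκν : κ ≤ ν) (hN : #N = ν)
    (hS : Nonempty S) (hSκ : #S < κ) (hΓκ : #Γ < κ)
    (hK : #(S × {c : Set (γ.out × N) // #c < γ} × Γ) ≤ ν)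
    (mu : Mi → Cardinal.{u}) (hmu : ∀ x, lb ≤ x → x < κ → ∃ m, mu m = x)
    (Sm : ∀ m, Sys (TT S γ κ (mu m) × Q) Λ N) (o : Mi → N) (tm : ∀ m, TT S γ κ (mu m))
    (iΛ : Λ → Y) (iN : N → Y) (iZ : γ.out × N → Y) (hiΛ : Function.Injective iΛ)
    (hiN : Function.Injective iN) (hiZ : Function.Injective iZ)
    {U : (Pk κ Y → RO Q) → RO Q} (hU : NormalU κ Y (RO Q) U)
    (hcard : U (fun u => chi (#{a : Λ // iΛ a ∈ u.1} ≤
      Order.succ (Order.succ #{x : N // iN x ∈ u.1}))) = ⊤)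
    (Ni : Γ → Set N) (hNi : ∀ x, ∃ i, x ∈ Ni i) (qs : Q) :
    ∃ q0 ≤ qs, ∃ (i : Γ) (E : Pk κ Y → Type u) (F : ∀ u, E u → RO Q)
      (A : ∀ u, E u → Λ → Prop) (m : Pk κ Y → Mi) (ρ : ∀ u, E u → TT S γ κ (mu (m u)))
      (z : ∀ u, E u → Λ → N) (d : Pk κ Y → Λ),
      TopD iΛ Sm o tm (Ni i) E F A m ρ z d ∧
      ∀ a, ∀ q ≤ q0, ∃ q' ≤ q, ∃ a', a ≤ a' ∧ q' ∈ U (TopD.Z F A a') := by
  classical
  have hγκ : γ < κ := hlb.trans_lt hlbκ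
  have hκ0 : ℵ₀ ≤ κ := hκr.aleph0_le
  obtain ⟨E, F, m, d, sc, cc, zc, rc, hdis, hsup, hcc, hcu, hlub, hle, hlast⟩ :=
    data' hκr hκs hγ hlb hlbκ hQ hΛ hκν o hS mu hmu Sm tm iΛ iN hiΛ hiN
  -- the family is total almost everywhere
  have htot : U (fun u => ⨆ e, F u e) = ⊤ := by
    have h1 : U (fun u => chi (lb ≤ #{x : N // iN x ∈ u.1})) = ⊤ :=
      hU.card_ge iN hiN hlbκ (hlbκ.le.trans (hκν.trans hN.ge))
    have h2 : U (fun u => chi (lb ≤ #{x : N // iN x ∈ u.1}) ⊓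
        chi (#{a : Λ // iΛ a ∈ u.1} ≤ Order.succ (Order.succ #{x : N // iN x ∈ u.1}))) = ⊤ := by
      rw [hU.inf, h1, hcard, top_inf_eq]
    refine top_le_iff.1 (h2.symm.trans_le (hU.mono fun u q hq => ?_))
    have h3 := RO.mem_chi.1 hq.1
    have h4 := RO.mem_chi.1 hq.2
    rw [hsup u h3 h4]
    exact RO.mem_top
  obtain ⟨K, hKd⟩ : ∃ K : Type u, K = (S × {c : Set (γ.out × N) // #c < γ} × Γ) := ⟨_, rfl⟩
  subst hKd
  -- the values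
  let Z : S × {c : Set (γ.out × N) // #c < γ} × Γ → Λ → Pk κ Y → RO Q := fun k a u =>
    ⨆ e, ⨆ _ : iΛ a ∈ u.1 ∧ sc u e a = k.1 ∧ cc u e a = k.2.1.1 ∧ zc u e a ∈ Ni k.2.2, F u e
  have hden : ∀ (a : Λ) (q : Q), ∃ q' ≤ q, ∃ k, q' ∈ U (Z k a) := by
    intro a q
    obtain ⟨q', hq', s, c, i, hc, h1⟩ := colours hU hQ hγ hγκ hSκ hΓκ
      (by rw [Cardinal.mk_out]; exact hγκ) iN iZ hiN hiZ Ni hNi F (fun u e => sc u e a)
      (fun u e => cc u e a) (fun u e => zc u e a) hdis htot (fun u e => hcc u e a)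
      (fun u e => hcu u e a) q
    refine ⟨q', hq', (s, ⟨c, hc⟩, i), ?_⟩
    have h2 : q' ∈ U (fun u => chi (iΛ a ∈ u.1)) := NormalU.of_top hU (hU.fine (iΛ a))
    have h3 := (NormalU.mem_inf hU).2 ⟨h2, h1⟩
    refine hU.mono (fun u q hq => ?_) q' h3
    have h4 := RO.mem_chi.1 hq.1
    have h5 : (⨆ e, ⨆ _ : sc u e a = s ∧ cc u e a = c ∧ zc u e a ∈ Ni i, F u e) ≤
        Z (s, ⟨c, hc⟩, i) a u := by
      refine iSup_mono fun e => iSup_le fun h => ?_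
      exact le_iSup (fun _ : iΛ a ∈ u.1 ∧ sc u e a = s ∧ cc u e a = c ∧ zc u e a ∈ Ni i => F u e)
        ⟨h4, h⟩
    exact h5 q hq.2
  -- pigeonhole
  have hpig : ∃ q0 ≤ qs, ∃ k, ∀ a, ∀ q ≤ q0, ∃ q' ≤ q, ∃ a', a ≤ a' ∧ q' ∈ U (Z k a') := by
    by_contra hcon
    push Not at hcon
    obtain ⟨q1, hq1, A, hA, h1⟩ := hcQ _ Λ hK
      (fun k q a => ∀ q' ≤ q, ∀ a', a ≤ a' → q' ∉ U (Z k a'))
      (fun k q q' a hq h q'' hq'' a' ha' => h q'' (hq''.trans hq) a' ha') qs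
      (fun k q hq => by
        obtain ⟨a, q', hq', h⟩ := hcon q hq k
        exact ⟨q', hq', a, h⟩)
    obtain ⟨a0, ha0⟩ := hΛ A hA
    obtain ⟨q2, hq2, k, h2⟩ := hden a0 q1
    obtain ⟨q3, hq3, a, ha, h3⟩ := h1 k q2 hq2
    exact h3 q3 le_rfl a0 (ha0 a ha) ((U (Z k a0)).down hq3 h2)
  obtain ⟨q0, hq0, k, hk⟩ := hpig
  refine ⟨q0, hq0, k.2.2, E, F, fun u e a => iΛ a ∈ u.1 ∧ sc u e a = k.1 ∧
    cc u e a = k.2.1.1 ∧ zc u e a ∈ Ni k.2.2, m, fun u e => rc u e k.1 k.2.1.1, zc, d,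
    ⟨hdis, fun u e a h => h.1, hlub, fun u e => hle u e _ _, fun u e a h => h.2.2.2, ?_⟩, hk⟩
  intro u e a h q hq
  have h1 := hlast u e a q h.1 hq
  rw [h.2.1, h.2.2.1] at h1
  exact h1

end STP
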