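import Pool.Agent.STP.SplitIso
import Pool.Agent.STP.BlkB
import Pool.Agent.STP.GermM

/-! # From the narrow system to a partial thread (package S27)

(problem MP_e44aae_lc, project STP)

Text, section 7: Prop 3 for a block. Let `j` be the successor of `i` (`Block.exists_succ`), `χ := k i`, `κ := k j`; `dl kb k j = succ (succ (k i))` (`Block.dl_succ`), so `CC kb k j = Levy (succ (succ (k i))) (k j) =
Clq (LevX ..) (levr ..) (succ (succ (k i)))` (rewrite `dl_succ`, or `subst`/generalize `dl kb k j` with an equation first).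
`e := split_iso (CC kb k) (R0 k) R`. `Q1 := (∏_{j < a} CC a) × (R0 k × R)` is `DC (k j)` (`Block.dc_high`, `Block.dc_R0`, `hR`, `DC.mono`, `DC.prod`; `k j < nu k < succ (nu k)`, `k j ≤ 2 ^ nu k`), a partial order; `LI (k j)` gives `U` for all `Y`.
`L := ∏_{a ≤ i} CC a`, `#L ≤ k i` (`Block.card_low`). `RR := Σ m : Mi, {r : TT S γ kb (mu m) // r ≤ tm m}`, `#RR ≤ kb * kb ≤ k i` (`hMi`, `Block.card_TT`; `mu m < kb`).
`R' (m, r) : Rel P Λ N`, `P := (C × Q1) × L`: `rel p a b ξ ζ := (Sm m).rel (r, e.symm p) a b ξ ζ` (`Sys.fix` and transport along `e`). `I' a : RO P`: `p ∈ I' a ↔ e.symm p ∈ I a`. `p0 := e q0`. `hr`: `levr` is symmetric; `hloc`: `levr_small`.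
`succ (succ (k i)) < k j`: `Block.dl_lt`. `ν := nu k`.
`germ_main` gives `(m, r)`, `p ≤ p0` and a partial thread of `R' (m, r)` below `p`; transport back: a partial thread of `(Sm m).fix r` below `e.symm p ≤ q0`; `pthr_fix` gives a partial thread of `Sm m` below `(r, e.symm p)`. -/

universe u

namespace STP

open Cardinal

/-- transport of a regular open set along an order isomorphism -/
private def roIso {P Q : Type u} [Preorder P] [Preorder Q] (e : Q ≃o P) (U : RO Q) : RO P where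
  carrier := {p | e.symm p ∈ U}
  reg p := by
    constructor
    · intro h q hq
      exact ⟨q, le_rfl, U.down (e.symm.monotone hq) h⟩
    · intro h
      refine U.locally fun q hq => ?_
      obtain ⟨r, hr, h1⟩ := h (e q) (e.le_symm_apply.1 hq)
      refine ⟨e.symm r, ?_, h1⟩
      have h2 := e.symm.monotone hr
      rwa [e.symm_apply_apply] at h2

/-- transport of a relation along an order isomorphism -/
private def relIso {P Q Λ N : Type u} [Preorder P] [Preorder Q] [Preorder Λ] (e : Q ≃o P)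
    (R : Rel Q Λ N) : Rel P Λ N where
  rel p a b ξ ζ := R.rel (e.symm p) a b ξ ζ
  mono := fun hq h => R.mono (e.symm.monotone hq) h
  loc := by
    intro p a b ξ ζ h
    refine R.loc fun q hq => ?_
    obtain ⟨r, hr, h1⟩ := h (e q) (e.le_symm_apply.1 hq)
    refine ⟨e.symm r, ?_, h1⟩
    have h2 := e.symm.monotone hr
    rwa [e.symm_apply_apply] at h2
  can := fun hab hbc h h' => R.can hab hbc h h'

private theorem pthrIso {P Q Λ N : Type u} [Preorder P] [Preorder Q] [Preorder Λ] (e : Q ≃o P)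
    (R : Rel Q Λ N) {p : P} {th : P → Λ → N → Prop} (h : IsPThr (relIso e R).rel p th) :
    IsPThr R.rel (e.symm p) (fun q => th (e q)) := by
  refine ⟨?_, ?_, ?_⟩
  · intro q q' a ξ hq h1
    exact h.mono (e.monotone hq) h1
  · intro a q hq
    obtain ⟨r, hr, b, hb, ξ, h1⟩ := h.cof a (e q) (e.le_symm_apply.1 hq)
    refine ⟨e.symm r, e.symm_apply_le.2 hr, b, hb, ξ, ?_⟩
    rwa [e.apply_symm_apply]
  · intro q a b ξ ζ hq hab h1 h2
    have h3 : R.rel (e.symm (e q)) a b ξ ζ := h.coh (e.le_symm_apply.1 hq) hab h1 h2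
    rwa [e.symm_apply_apply] at h3

private theorem germ_main' {κ ν χ δ : Cardinal.{u}} {Q1 X L Λ N RR : Type u} {r : X → X → Prop}
    [PartialOrder Q1] [Preorder L] [Preorder Λ] (hχ : ℵ₀ ≤ χ)
    (hδ : δ = Order.succ (Order.succ χ))
    (hχκ : δ < κ) (hκν : κ ≤ ν) (hL : #L ≤ χ) (hRR : #RR ≤ χ)
    (hr : ∀ x y, r x y → r y x) (hloc : ∀ x, #{y | ¬ r x y} < κ) (hQ : DC κ Q1)
    (hU : ∀ Y : Type u, ∃ U : (Pk κ Y → RO Q1) → RO Q1, NormalU κ Y (RO Q1) U)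
    (hΛ : Dir ν Λ) (N0 : Set N) (hN0 : #N0 ≤ χ)
    (R : RR → Rel ((Clq X r δ × Q1) × L) Λ N)
    (p0 : (Clq X r δ × Q1) × L)
    (I : Λ → RO ((Clq X r δ × Q1) × L))
    (h1 : ∀ a, ∀ p ≤ p0, ∃ p' ≤ p, ∃ a', a ≤ a' ∧ p' ∈ I a')
    (h2 : ∀ a b, a ≤ b → ∀ p ≤ p0, p ∈ I a → p ∈ I b → ∃ p' ≤ p, ∃ m, ∃ ξ ∈ N0, ∃ ζ ∈ N0,
      (R m).rel p' a b ξ ζ) :
    ∃ m, ∃ p ≤ p0, ∃ th, IsPThr (R m).rel p th := by
  subst hδ
  exact germ_main hχ hχκ hκν hL hRR hr hloc hQ hU hΛ N0 hN0 R p0 I h1 h2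

theorem propC {Γ : Type u} [LinearOrder Γ] {γ kb : Cardinal.{u}} {k : Γ → Cardinal.{u}}
    (h : Block Γ γ kb k) {S R Λ N Mi : Type u} [PartialOrder S] [PartialOrder R] [Preorder Λ]
    (hS : #S < kb) (hR : DC (Order.succ (2 ^ nu k)) R) (hΛ : Dir (nu k) Λ)
    (mu : Mi → Cardinal.{u}) (hmu : ∀ m, mu m < kb) (hMi : #Mi ≤ kb)
    (Sm : ∀ m, Sys (TT S γ kb (mu m) × (HR kb k × R)) Λ N) (tm : ∀ m, TT S γ kb (mu m))
    (Ni : Γ → Set N) (hNi : ∀ i, #(Ni i) ≤ k i) (i : Γ) (q0 : HR kb k × R)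
    (I : Λ → RO (HR kb k × R))
    (h1 : ∀ a, ∀ q ≤ q0, ∃ q' ≤ q, ∃ a', a ≤ a' ∧ q' ∈ I a')
    (h2 : ∀ a b, a ≤ b → ∀ q ≤ q0, q ∈ I a → q ∈ I b → ∃ q' ≤ q, ∃ m, ∃ r ≤ tm m,
      ∃ ξ ∈ Ni i, ∃ ζ ∈ Ni i, (Sm m).rel (r, q') a b ξ ζ) :
    ∃ m, ∃ r ≤ tm m, ∃ q ≤ q0, ∃ th, IsPThr (Sm m).rel (r, q) th := by
  obtain ⟨j, hij, hj⟩ := h.exists_succ i
  have hdl := h.dl_succ hij hj
  obtain ⟨e⟩ := split_iso (CC kb k) (R0 k) R hij hj
  have hkj : k j ≤ nu k := (h.lt_nu j).le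
  have hQ : DC (k j) ((∀ a : {a : Γ // j < a}, CC kb k a.1) × (R0 k × R)) := by
    refine DC.prod ((h.dc_high j).mono (Order.le_succ _)) (DC.prod (h.dc_R0.mono ?_)
      (hR.mono ?_))
    · exact hkj.trans (Order.le_succ _)
    · exact hkj.trans ((cantor (nu k)).le.trans (Order.le_succ _))
  have hkbi : kb ≤ k i := (h.kbk i).le
  have hRR : #(Σ m : Mi, {r : TT S γ kb (mu m) // r ≤ tm m}) ≤ k i := by
    rw [mk_sigma]
    refine (sum_le_sum _ (fun _ : Mi => kb) fun m =>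
      (mk_subtype_le _).trans (h.card_TT hS (hmu m))).trans ?_
    rw [sum_const']
    exact (mul_le_mul' hMi le_rfl).trans ((mul_eq_self h.aleph0_lt_kb.le).le.trans hkbi)
  have g1 : ∀ a, ∀ p ≤ e q0, ∃ p' ≤ p, ∃ a', a ≤ a' ∧ p' ∈ roIso e (I a') := by
    intro a p hp
    obtain ⟨q', hq', a', ha, h3⟩ := h1 a (e.symm p) (e.symm_apply_le.2 hp)
    refine ⟨e q', e.le_symm_apply.1 hq', a', ha, ?_⟩
    change e.symm (e q') ∈ I a'
    rwa [e.symm_apply_apply]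
  have g2 : ∀ a b, a ≤ b → ∀ p ≤ e q0, p ∈ roIso e (I a) → p ∈ roIso e (I b) → ∃ p' ≤ p,
      ∃ mr : (Σ m : Mi, {r : TT S γ kb (mu m) // r ≤ tm m}), ∃ ξ ∈ Ni i, ∃ ζ ∈ Ni i,
      (relIso e ((Sm mr.1).fix mr.2.1)).rel p' a b ξ ζ := by
    intro a b hab p hp ha hb
    obtain ⟨q', hq', m, r, hr, ξ, hξ, ζ, hζ, h3⟩ :=
      h2 a b hab (e.symm p) (e.symm_apply_le.2 hp) ha hb
    refine ⟨e q', e.le_symm_apply.1 hq', ⟨m, r, hr⟩, ξ, hξ, ζ, hζ, ?_⟩
    change (Sm m).rel (r, e.symm (e q')) a b ξ ζ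
    rwa [e.symm_apply_apply]
  obtain ⟨⟨m, r, hr⟩, p, hp, th, hth⟩ := germ_main' (κ := k j) (ν := nu k) (χ := k i)
    (h.aleph0_lt_k i).le hdl (h.dl_lt j) hkj (h.card_low i) hRR
    (fun x y h1 h2 => (h1 h2.symm).symm) (fun x => levr_small (h.aleph0_lt_k j).le x) hQ
    (fun Y => (h.LIk j).2 _ hQ Y) hΛ (Ni i) (hNi i)
    (fun mr : (Σ m : Mi, {r : TT S γ kb (mu m) // r ≤ tm m}) => relIso e ((Sm mr.1).fix mr.2.1))
    (e q0) (fun a => roIso e (I a)) g1 g2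
  obtain ⟨th', h3⟩ := pthr_fix (Sm m) r (pthrIso e _ hth)
  exact ⟨m, r, hr, e.symm p, e.symm_apply_le.2 hp, th', h3⟩

end STP
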