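import Pool.Agent.STP.PropB
import Pool.Agent.STP.PropC
import Pool.Agent.STP.Unif
import Pool.Agent.STP.Closed

/-! # The uniform block theorem (package S29)

(problem MP_e44aae_lc, project STP)

Text, section 8: assembly. `ν := nu k`, `τ := 2 ^ ν`, `lb := max γ #S`, `Mi := {m : kb.ord.ToType // lb ≤ #{y // y < m}}`, `mu m := #{y // y < m}` (`< kb`); every cardinal `x` with `lb ≤ x < kb` is some `mu m`
(`x.ord < kb.ord`, take the element of rank `x.ord`); `#Mi ≤ kb`. Suppose the theorem fails: for all `m : Mi` and `h : HR kb k` there is `h' ≤ h` with `BadAt (succ τ) ν (TT S γ kb (mu m)) (HR kb k) N h'` (the negation of the conclusion for `μ = mu m` and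
`h` gives `R, Λ, S, t, h' ≤ h, r` such that no `p ≤ (t, h', r)` has a thread; here `t, h', r` are arbitrary conditions of the three factors).
`unif` (`Block.dc_HR`, `#Mi ≤ kb < succ (succ kb)`): one `h0 : HR kb k` and for all `m`: `Rm m, Λm m, Sm m, t m, r m`.
`Λ := ∀ m, Λm m` (`Dir.pi`), `R2 := Col (succ τ) Λ`, `R := (∀ m, Rm m) × R2`: `DC (succ τ)` (`DC.pi`, `DC.prod`, `Clq.dc`), a partial order. `Sm' m := ((Sm m).index (fun a => a m)).comap (fun p => (p.1, p.2.1, p.2.2.1 m))`, a system over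
`TT .. × (HR × R)` on `Λ` (the projection property: `Function.update`, for the types `Rm m`).
`card_ae` for `Q := HR × R`, `κ := kb`, `G := γ.out`: `o1` from `col_onto` for `R0 k = Col (succ ν) τ.out` and `Onto.comap`, `o2` from `col_onto` for `R2` and `Onto.comap`. `LI kb` (`Q` is `DC kb`, a partial order) gives `U` on `Pk kb Y`.
`propB` (`κ := kb`, `COV` from `Block.cov_Q`, `Ni` with `#(Ni i) ≤ k i`, `⋃ Ni = univ` from `Block.decomp` applied to `N`; `hK`: `Block.small_sets`, `#S < kb < ν`, `#Γ = γ < ν`, `#(γ.out × N) ≤ ν`) with `qs := (h0, (fun m => r m, ∅))` and `tm := t`: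
`q0 ≤ qs`, `i`, `I`. `propC`: `m`, `r' ≤ t m`, `q ≤ q0` and a partial thread of `Sm' m` below `(r', q)`. `pthr_thr`: a thread of `Sm' m` below `(r', q)`.
`closed_thr`: `T := TT .. × HR`, `R1 := Rm m`, `R2' := (∀ m' : {m' // m' ≠ m}, Rm m') × R2` (`DC (succ τ)`), the system `(Sm m).index (fun a => a m)` over `T × R1` (after reassociation `((t, h), r1) ↦ (t, (h, r1))`, `Sys.comap`), the thread transported along
`TT × (HR × ((∀ m, Rm m) × R2)) ≃ (TT × HR) × Rm m × ((∀ m' ≠ m, Rm m') × R2)`. `#T ≤ kb * τ = τ`, `COV` from `Block.cov`, `nu_strong`. Result: a thread of `(Sm m).index ..` below some `p ≤ (t m, h0, r m)`; `thr_index` (evaluation at `m` is surjective since all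
`Λm m'` are nonempty by `Dir`): a thread of `Sm m` below `p`. This contradicts `BadAt`. -/

universe u

namespace STP

open Cardinal

/-- projection to one coordinate of a product -/
private theorem proj_hp {T H C ι : Type u} {R : ι → Type u} [Preorder T] [Preorder H]
    [Preorder C] [∀ i, Preorder (R i)] (m : ι) (p' : T × (H × ((∀ i, R i) × C)))
    (q : T × (H × R m)) (hq : q ≤ (p'.1, (p'.2.1, p'.2.2.1 m))) :
    ∃ q' ≤ p', ((q'.1, (q'.2.1, q'.2.2.1 m)) : T × (H × R m)) ≤ q := by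
  classical
  refine ⟨(q.1, (q.2.1, (Function.update p'.2.2.1 m q.2.2, p'.2.2.2))), ?_, ?_⟩
  · refine ⟨hq.1, hq.2.1, ?_, le_rfl⟩
    intro i
    by_cases hi : i = m
    · subst hi
      show Function.update p'.2.2.1 i q.2.2 i ≤ p'.2.2.1 i
      rw [Function.update_self]
      exact hq.2.2
    · show Function.update p'.2.2.1 m q.2.2 i ≤ p'.2.2.1 i
      rw [Function.update_of_ne hi]
  · refine ⟨le_rfl, le_rfl, ?_⟩
    show Function.update p'.2.2.1 m q.2.2 m ≤ q.2.2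
    rw [Function.update_self]

open Classical in
/-- replace all the coordinates of `ρ` -/
private noncomputable def cmb {ι : Type u} {R : ι → Type u} (m : ι) (ρ : ∀ i, R i) (x : R m)
    (g : ∀ j : {j : ι // j ≠ m}, R j.1) : ∀ i, R i :=
  Function.update (fun i => if hi : i = m then ρ i else g ⟨i, hi⟩) m x

private theorem cmb_self {ι : Type u} {R : ι → Type u} (m : ι) (ρ : ∀ i, R i) (x : R m)
    (g : ∀ j : {j : ι // j ≠ m}, R j.1) : cmb m ρ x g m = x := by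
  classical
  unfold cmb
  exact Function.update_self _ _ _

private theorem cmb_ne {ι : Type u} {R : ι → Type u} (m : ι) (ρ : ∀ i, R i) (x : R m)
    (g : ∀ j : {j : ι // j ≠ m}, R j.1) (j : {j : ι // j ≠ m}) : cmb m ρ x g j.1 = g j := by
  classical
  unfold cmb
  rw [Function.update_of_ne j.2]
  exact dif_neg j.2

private theorem cmb_eta {ι : Type u} {R : ι → Type u} (m : ι) (ρ f : ∀ i, R i) :
    cmb m ρ (f m) (fun j => f j.1) = f := by
  funext i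
  by_cases hi : i = m
  · subst hi
    exact cmb_self i ρ _ _
  · exact cmb_ne m ρ _ _ ⟨i, hi⟩

private theorem cmb_mono {ι : Type u} {R : ι → Type u} [∀ i, Preorder (R i)] (m : ι)
    (ρ : ∀ i, R i) {x x' : R m} {g g' : ∀ j : {j : ι // j ≠ m}, R j.1} (hx : x' ≤ x)
    (hg : g' ≤ g) : cmb m ρ x' g' ≤ cmb m ρ x g := by
  intro i
  by_cases hi : i = m
  · subst hi
    rw [cmb_self, cmb_self]
    exact hx
  · have h1 := hg ⟨i, hi⟩
    rw [← cmb_ne m ρ x' g' ⟨i, hi⟩, ← cmb_ne m ρ x g ⟨i, hi⟩] at h1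
    exact h1

/-- a thread for the product gives a thread for one factor -/
private theorem peel {T H C N Λ ι : Type u} {R : ι → Type u} [Preorder T] [Preorder H]
    [Preorder C] [∀ i, Preorder (R i)] [Preorder Λ] {ν τ : Cardinal.{u}} (hν : ℵ₀ ≤ ν)
    (hN : #N = ν) (hs : ∀ x < ν, 2 ^ x < ν) (hτ : 2 ^ ν ≤ τ) (hT : #(T × H) ≤ τ)
    (hc : COV ν (T × H)) (hΛ : Dir ν Λ) (hR : ∀ i, DC (Order.succ τ) (R i))
    (hC : DC (Order.succ τ) C) (m : ι) (S : Sys (T × (H × R m)) Λ N) {t : T} {h : H}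
    {ρ : ∀ i, R i} {c : C} {th : T × (H × ((∀ i, R i) × C)) → Λ → N → Prop}
    (hth : IsThr (fun p a b ξ ζ => S.rel (p.1, (p.2.1, p.2.2.1 m)) a b ξ ζ) (t, (h, (ρ, c)))
      th) : ∃ p ≤ (t, (h, ρ m)), ∃ th', IsThr S.rel p th' := by
  classical
  let S' : Sys ((T × H) × R m) Λ N := S.comap (fun p => (p.1.1, (p.1.2, p.2)))
    (fun p q hq => ⟨hq.1.1, hq.1.2, hq.2⟩)
    (fun p' q hq => ⟨((q.1, q.2.1), q.2.2), ⟨⟨hq.1, hq.2.1⟩, hq.2.2⟩, le_rfl⟩)
  let F : (T × H) × R m × ((∀ j : {j : ι // j ≠ m}, R j.1) × C) →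
      T × (H × ((∀ i, R i) × C)) := fun p =>
    (p.1.1, (p.1.2, (cmb m ρ p.2.1 p.2.2.1, p.2.2.2)))
  have hF : ∀ p q, q ≤ p → F q ≤ F p := fun p q hq =>
    ⟨hq.1.1, hq.1.2, cmb_mono m ρ hq.2.1 hq.2.2.1, hq.2.2.2⟩
  have hF0 : F ((t, h), ρ m, ((fun j => ρ j.1), c)) = (t, (h, (ρ, c))) := by
    show (t, (h, (cmb m ρ (ρ m) (fun j => ρ j.1), c))) = (t, (h, (ρ, c)))
    rw [cmb_eta]
  have hth' : IsThr (fun p a b ξ ζ => S'.rel (p.1, p.2.1) a b ξ ζ)
      ((t, h), ρ m, ((fun j : {j : ι // j ≠ m} => ρ j.1), c)) (fun p a ξ => th (F p) a ξ) := by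
    refine ⟨fun hq h1 => hth.mono (hF _ _ hq) h1, ?_, ?_⟩
    · intro a p hp
      have h1 := hF _ _ hp
      rw [hF0] at h1
      obtain ⟨q, hq, ξ, h2⟩ := hth.tot a (F p) h1
      refine ⟨((q.1, q.2.1), (q.2.2.1 m, ((fun j => q.2.2.1 j.1), q.2.2.2))), ?_, ξ, ?_⟩
      · refine ⟨⟨hq.1, hq.2.1⟩, ?_, ?_, hq.2.2.2⟩
        · have h3 := hq.2.2.1 m
          rw [show (F p).2.2.1 m = p.2.1 from cmb_self m ρ _ _] at h3
          exact h3
        · intro j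
          have h3 := hq.2.2.1 j.1
          rw [show (F p).2.2.1 j.1 = p.2.2.1 j from cmb_ne m ρ _ _ j] at h3
          exact h3
      · show th (q.1, (q.2.1, (cmb m ρ (q.2.2.1 m) (fun j => q.2.2.1 j.1), q.2.2.2))) a ξ
        rw [cmb_eta]
        exact h2
    · intro p a b ξ ζ hp hab h2 h3
      have h1 := hF _ _ hp
      rw [hF0] at h1
      have h4 : S.rel (p.1.1, (p.1.2, cmb m ρ p.2.1 p.2.2.1 m)) a b ξ ζ := hth.coh h1 hab h2 h3
      rw [cmb_self] at h4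
      exact h4
  obtain ⟨p, hp, th', h1⟩ := closed_thr hν hN hs hτ hT hc hΛ (hR m)
    (DC.prod (DC.pi fun j : {j : ι // j ≠ m} => hR j.1) hC) S' hth'
  refine ⟨(p.1.1, (p.1.2, p.2)), ⟨hp.1.1, hp.1.2, hp.2⟩,
    fun q a ξ => th' ((q.1, q.2.1), q.2.2) a ξ, ?_, ?_, ?_⟩
  · intro q r a ξ hr h2
    exact h1.mono (p := ((q.1, q.2.1), q.2.2)) (q := ((r.1, r.2.1), r.2.2))
      ⟨⟨hr.1, hr.2.1⟩, hr.2.2⟩ h2
  · intro a q hq
    obtain ⟨r, hr, ξ, h2⟩ := h1.tot a ((q.1, q.2.1), q.2.2) ⟨⟨hq.1, hq.2.1⟩, hq.2.2⟩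
    exact ⟨(r.1.1, (r.1.2, r.2)), ⟨hr.1.1, hr.1.2, hr.2⟩, ξ, h2⟩
  · intro q a b ξ ζ hq hab h2 h3
    exact h1.coh (p := ((q.1, q.2.1), q.2.2)) ⟨⟨hq.1, hq.2.1⟩, hq.2.2⟩ hab h2 h3

/-- the contradiction from one closed condition that is bad for all `μ` -/
private theorem core {Γ : Type u} [LinearOrder Γ] {γ kb : Cardinal.{u}} {k : Γ → Cardinal.{u}}
    (h : Block Γ γ kb k) {S N Mi : Type u} [PartialOrder S] [Nonempty S] (hS : #S < kb)
    (hN : #N = nu k) (mu : Mi → Cardinal.{u}) (hMi : #Mi ≤ kb) (hmk : ∀ m, mu m < kb)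
    (hsur : ∀ x, max γ #S ≤ x → x < kb → ∃ m, mu m = x)
    (Rm : Mi → Type u) [∀ m, PartialOrder (Rm m)] (Lm : Mi → Type u) [∀ m, Preorder (Lm m)]
    (Sm : ∀ m, Sys (TT S γ kb (mu m) × (HR kb k × Rm m)) (Lm m) N)
    (tm : ∀ m, TT S γ kb (mu m)) (rm : ∀ m, Rm m) (h0 : HR kb k)
    (hDC : ∀ m, DC (Order.succ (2 ^ nu k)) (Rm m)) (hDir : ∀ m, Dir (nu k) (Lm m))
    (hno : ∀ m, ∀ p ≤ (tm m, (h0, rm m)), ∀ th, ¬ IsThr (Sm m).rel p th) : False := by
  classical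
  have hν : ℵ₀ ≤ nu k := h.aleph0_le_nu
  have hντ : nu k ≤ 2 ^ nu k := (cantor (nu k)).le
  have hτ0 : ℵ₀ ≤ 2 ^ nu k := hν.trans hντ
  have hκ0 : ℵ₀ ≤ kb := h.aleph0_lt_kb.le
  have hκν : kb ≤ nu k := h.kb_lt_nu.le
  have hκτ : kb ≤ Order.succ (2 ^ nu k) := (hκν.trans hντ).trans (Order.le_succ _)
  have hΛ : Dir (nu k) (∀ m, Lm m) := Dir.pi hDir
  have hΛ2 : ∀ a b : (∀ m, Lm m), ∃ c, a ≤ c ∧ b ≤ c := by
    intro a b
    obtain ⟨c, hc⟩ := hΛ {a, b} ((Set.toFinite {a, b}).lt_aleph0.le.trans hν)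
    exact ⟨c, hc a (Set.mem_insert _ _), hc b (Set.mem_insert_of_mem _ rfl)⟩
  let R2 : Type u := Col (Order.succ (2 ^ nu k)) (∀ m, Lm m)
  have hR2 : DC (Order.succ (2 ^ nu k)) R2 := Clq.dc (isRegular_succ hτ0)
  have hRm : DC (Order.succ (2 ^ nu k)) (∀ m, Rm m) := DC.pi hDC
  have hR : DC (Order.succ (2 ^ nu k)) ((∀ m, Rm m) × R2) := DC.prod hRm hR2
  have hQ : DC kb (HR kb k × ((∀ m, Rm m) × R2)) :=
    DC.prod (h.dc_HR.mono ((Order.le_succ _).trans (Order.le_succ _))) (hR.mono hκτ)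
  let Sx : ∀ m, Sys (TT S γ kb (mu m) × (HR kb k × Rm m)) (∀ m, Lm m) N := fun m =>
    (Sm m).index (fun a => a m) (fun a b hab => hab m)
  let Sm' : ∀ m, Sys (TT S γ kb (mu m) × (HR kb k × ((∀ m, Rm m) × R2))) (∀ m, Lm m) N :=
    fun m => (Sx m).comap (fun p => (p.1, (p.2.1, p.2.2.1 m)))
      (fun p q hq => ⟨hq.1, hq.2.1, hq.2.2.1 m⟩) (fun p' q hq => proj_hp m p' q hq)
  obtain ⟨c1, -⟩ := col_onto (δ := Order.succ (nu k)) (hν.trans (Order.le_succ _))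
    ((2 : Cardinal.{u}) ^ nu k).out
  let f1 : HR kb k × ((∀ m, Rm m) × R2) → R0 k := fun q => q.1.2
  have hf1 : ∀ p q, q ≤ p → f1 q ≤ f1 p := fun p q hq => hq.1.2
  have hp1 : ∀ p', ∀ q ≤ f1 p', ∃ q' ≤ p', f1 q' ≤ q := fun p' q hq =>
    ⟨((p'.1.1, q), p'.2), ⟨⟨le_rfl, hq⟩, le_rfl⟩, le_rfl⟩
  obtain ⟨o1⟩ := c1.comap f1 hf1 hp1
  obtain ⟨c2, -⟩ := col_onto (δ := Order.succ (2 ^ nu k)) (hτ0.trans (Order.le_succ _))
    (∀ m, Lm m)
  let f2 : HR kb k × ((∀ m, Rm m) × R2) → R2 := fun q => q.2.2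
  have hf2 : ∀ p q, q ≤ p → f2 q ≤ f2 p := fun p q hq => hq.2.2
  have hp2 : ∀ p', ∀ q ≤ f2 p', ∃ q' ≤ p', f2 q' ≤ q := fun p' q hq =>
    ⟨(p'.1, (p'.2.1, q)), ⟨le_rfl, le_rfl, hq⟩, le_rfl⟩
  obtain ⟨o2⟩ := c2.comap f2 hf2 hp2
  obtain ⟨Y, iL, iN, iZ, hiL, hiN, hiZ, hY⟩ := card_ae (G := γ.out) hκ0 hQ hν hN hτ0 o1 o2
  obtain ⟨U, hU⟩ := h.LIb.2 (HR kb k × ((∀ m, Rm m) × R2)) hQ Y
  obtain ⟨Ni, hNi1, hNi2⟩ := h.decomp N hN.le
  have hK : #(S × {c : Set (γ.out × N) // #c < γ} × Γ) ≤ nu k := by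
    rw [mk_prod, lift_id, lift_id, mk_prod, lift_id, lift_id]
    have h1 : #(γ.out × N) ≤ nu k := by
      rw [mk_prod, lift_id, lift_id, hN, mk_out]
      exact mul_le_of_le hν h.gamma_lt_nu.le le_rfl
    refine mul_le_of_le hν (hS.le.trans hκν) (mul_le_of_le hν (h.small_sets h1) ?_)
    rw [h.card]
    exact h.gamma_lt_nu.le
  have hΓ : #Γ < kb := by
    rw [h.card]
    exact h.gkb
  let e0 : R2 := ⟨∅, by
    rw [mk_eq_zero]
    exact lt_of_lt_of_le aleph0_pos (hτ0.trans (Order.le_succ _)), fun x hx => hx.elim⟩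
  obtain ⟨q0, hq0, i, I, hI1, hI2⟩ := propB (κ := kb) (γ := γ) (lb := max γ #S) (ν := nu k)
    h.LIb.reg h.LIb.strong h.reg.1 (le_max_left _ _) (max_lt h.gkb hS) hQ (h.cov_Q hR) hΛ
    hκν hN inferInstance hS hΓ hK mu hsur Sm' tm iL iN iZ hiL hiN hiZ hU (hY U hU) Ni hNi2
    (h0, (rm, e0))
  obtain ⟨m, r, hr, q, hq, th, hth⟩ := propC h hS hR hΛ mu hmk hMi Sm' tm Ni hNi1 i q0 I hI1 hI2
  obtain ⟨th1, hth1⟩ := pthr_thr hΛ2 (Sm' m) hth
  have hT : #(TT S γ kb (mu m) × HR kb k) ≤ 2 ^ nu k := by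
    rw [mk_prod, lift_id, lift_id]
    exact mul_le_of_le hτ0 ((h.card_TT hS (hmk m)).trans (hκν.trans hντ)) h.card_HR
  obtain ⟨p, hp, th2, hth2⟩ := peel hν hN h.nu_strong le_rfl hT (h.cov (h.card_TT hS (hmk m)))
    hΛ hDC hR2 m (Sx m) (t := r) (h := q.1) (ρ := q.2.1) (c := q.2.2) hth1
  obtain ⟨th3, hth3⟩ := thr_index (Sm m) (fun a : (∀ m, Lm m) => a m) (by
    intro a
    have h1 : ∀ m, Nonempty (Lm m) := fun m => by
      obtain ⟨b, -⟩ := hDir m ∅ (by rw [mk_eq_zero]; exact zero_le)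
      exact ⟨b⟩
    exact ⟨Function.update (fun m => (h1 m).some) m a, Function.update_self _ _ _⟩) hΛ2
    (fun a b hab => hab m) hth2
  have hqq := hq.trans hq0
  exact hno m p (hp.trans ⟨hr, hqq.1, hqq.2.1 m⟩) th3 hth3

theorem thmB {Γ : Type u} [LinearOrder Γ] {γ kb : Cardinal.{u}} {k : Γ → Cardinal.{u}}
    (h : Block Γ γ kb k) {S N : Type u} [PartialOrder S] [Nonempty S] (hS : #S < kb)
    (hN : #N = nu k) :
    ∃ (μ : Cardinal.{u}) (h0 : HR kb k), γ ≤ μ ∧ #S ≤ μ ∧ μ < kb ∧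
      ∀ (R : Type u) [PartialOrder R], DC (Order.succ (2 ^ nu k)) R →
        ∀ (t : TT S γ kb μ) (r : R), Threads (TT S γ kb μ × (HR kb k × R)) N (t, h0, r) := by
  classical
  by_contra hcon
  have hIio : ∀ i : kb.ord.ToType, #{j : kb.ord.ToType // j < i} < kb := by
    intro i
    have h3 := Cardinal.mk_Iio_lt i (by
      rw [Cardinal.mk_ord_toType]
      exact (Ordinal.type_toType _).symm)
    rw [Cardinal.mk_ord_toType] at h3
    exact h3
  let Mi : Type u := {m : kb.ord.ToType // max γ #S ≤ #{y : kb.ord.ToType // y < m}}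
  let mu : Mi → Cardinal.{u} := fun m => #{y : kb.ord.ToType // y < m.1}
  have hMi : #Mi ≤ kb := (mk_subtype_le _).trans (Cardinal.mk_ord_toType kb).le
  have hmk : ∀ m, mu m < kb := fun m => hIio m.1
  have hsur : ∀ x, max γ #S ≤ x → x < kb → ∃ m : Mi, mu m = x := by
    intro x hx hxk
    have h1 : x.ord < Ordinal.type (fun a b : kb.ord.ToType => a < b) := by
      rw [Ordinal.type_toType]
      exact Cardinal.ord_lt_ord.2 hxk
    have h2 : #{y : kb.ord.ToType // y < Ordinal.enum (fun a b : kb.ord.ToType => a < b)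
        ⟨x.ord, h1⟩} = x := by
      have h3 := Ordinal.card_typein (r := fun a b : kb.ord.ToType => a < b)
        (Ordinal.enum (fun a b : kb.ord.ToType => a < b) ⟨x.ord, h1⟩)
      rw [Ordinal.typein_enum, Cardinal.card_ord] at h3
      exact h3.symm
    exact ⟨⟨_, by rw [h2]; exact hx⟩, h2⟩
  have hbad : ∀ m : Mi, ∀ h1 : HR kb k, ∃ h' ≤ h1,
      BadAt (Order.succ (2 ^ nu k)) (nu k) (TT S γ kb (mu m)) (HR kb k) N h' := by
    intro m h1
    by_contra hc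
    refine hcon ⟨mu m, h1, (le_max_left _ _).trans m.2, (le_max_right _ _).trans m.2, hmk m, ?_⟩
    intro R _ hR t r Λ _ hΛ S' p0 hp0
    by_contra hc2
    refine hc ⟨p0.2.1, hp0.2.1, R, inferInstance, Λ, inferInstance, S', p0.1, p0.2.2, hR, ?_, ?_⟩
    · rw [hN] at hΛ
      exact hΛ
    · intro p hp th hth
      exact hc2 ⟨p, hp, th, hth⟩
  obtain ⟨h0, hall⟩ := unif h.dc_HR (hMi.trans_lt ((Order.lt_succ kb).trans (Order.lt_succ _)))
    (fun m => TT S γ kb (mu m)) hbad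
  choose Rm iR Lm iL Sm tm rm hDC hDir hno using hall
  exact core h hS hN mu hMi hmk hsur Rm Lm Sm tm rm h0 hDC hDir hno

end STP
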