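import Pool.Agent.STP.ICor
import Pool.Agent.STP.IPrB
import Pool.Agent.STP.IPeel
import Pool.Agent.STP.ThmB

/-! # The uniform block theorem for ineffable threads (package I13)

(problem MP_e44aae_lc, project STP, ITP extension, text `/team-store/ITPinf.md`, 8'; assembly, compare `ThmB.lean`)

* `IThreads.iso`: as `Threads.iso` in `Thr.lean`: pull the system back along `e` (`Sys.comap`), `Cnt.comap`, `Top`; the thread and `Inef` are transported (`e`, `e.symm`).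
* `unif'`: as `unif` in `Unif.lean`.
* `core'`: as `core` in `ThmB.lean`: the same product `Λ = ∀ m, Lm m` (`Dir.pi`, `ChSup.pi`), `R2 = Col (succ (2 ^ nu k)) Λ`, `Sx m = (Sm m).index ..` (`Cnt.eval`), `Sm' m = (Sx m).comap ..` (`Cnt.comap`), `o1`, `o2`, `card_ae`, `U` from `LI kb`, `propB'` instead of `propB`, and then `icore` instead of `propC` and the rest, with `N0 := Ni i`,
 `hbad` from `bad_prod` (`T := TT .. (mu m)`, `H := HR kb k`, `C := R2`, `t0 := tm m`, `h0`, `ρ0 := rm`; `hT`, `COV`: as in `core`; a condition `≤ (tm m, q0)` with `q0 ≤ (h0, (rm, e0))` satisfies `hp1, hp2, hp3`; the club of `Λ` is `{a | a m ∈ D}` (`Club.eval`)).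
* `thmB'`: as `thmB`: by contradiction, `Mi`, `mu` as there; the failure for `μ = mu m` and `h1` gives `BadAt'` for some `h' ≤ h1` (the failure of `IThreads (TT .. × (HR × R)) N (t, h1, r)`: `Λ, S, o, ..` and `p0 ≤ (t, h1, r)` such that no `p ≤ p0` has an ineffable thread `th` below `p`; `h' := p0.2.1`). `unif'`, `choose`, `core'`. -/

universe u

namespace STP

open Cardinal

/-- projection to one coordinate of a product -/
private theorem proj_hp {T H C ι : Type u} {R : ι → Type u} [Preorder T] [Preorder H]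
    [Preorder C] [∀ i, Preorder (R i)] (m : ι) (p' : T × (H × ((∀ i, R i) × C)))
    (q : T × (H × R m)) (hq : q ≤ (p'.1, (p'.2.1, p'.2.2.1 m))) :
    ∃ q' ≤ p', ((q'.1, (q'.2.1, q'.2.2.1 m)) : T × (H × R m)) ≤ q := by
  classical
  refine ⟨(q.1, (q.2.1, (Function.update p'.2.2.1 m q.2.2, p'.2.2.2))), ?_, ?_⟩
  · refine ⟨hq.1, hq.2.1, ?_, le_rfl⟩
    intro i
    by_cases hi : i = m
    · subst hi
      show Function.update p'.2.2.1 i q.2.2 i ≤ p'.2.2.1 i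
      rw [Function.update_self]
      exact hq.2.2
    · show Function.update p'.2.2.1 m q.2.2 i ≤ p'.2.2.1 i
      rw [Function.update_of_ne hi]
  · refine ⟨le_rfl, le_rfl, ?_⟩
    show Function.update p'.2.2.1 m q.2.2 m ≤ q.2.2
    rw [Function.update_self]

theorem IThreads.iso {P P' : Type u} [Preorder P] [Preorder P'] (e : P ≃o P') (N : Type u)
    {p : P} (h : IThreads P N p) : IThreads P' N (e p) := by
  intro Λ _ hΛ hSup S o htop hcnt p0 hp0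
  have hf : ∀ p q : P, q ≤ p → e q ≤ e p := fun p q hq => e.monotone hq
  have hp' : ∀ p' : P, ∀ q ≤ e p', ∃ q' ≤ p', e q' ≤ q := fun p' q hq =>
    ⟨e.symm q, e.symm_apply_le.2 hq, by rw [e.apply_symm_apply]⟩
  obtain ⟨p1, hp1, th, h1, h2⟩ := h Λ hΛ hSup (S.comap e hf hp') o (fun p a => htop (e p) a)
    (Cnt.comap S e hf hp' hcnt) (e.symm p0) (e.symm_apply_le.2 hp0)
  refine ⟨e p1, e.le_symm_apply.1 hp1, fun q a ξ => th (e.symm q) a ξ, ⟨?_, ?_, ?_⟩, ?_⟩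
  · intro q r a ξ hr h3
    exact h1.mono (e.symm.monotone hr) h3
  · intro a q hq
    obtain ⟨r, hr, ξ, h3⟩ := h1.tot a (e.symm q) (e.symm_apply_le.2 hq)
    refine ⟨e r, e.le_symm_apply.1 hr, ξ, ?_⟩
    rw [e.symm_apply_apply]
    exact h3
  · intro q a b ξ ζ hq hab h3 h4
    have h5 : S.rel (e (e.symm q)) a b ξ ζ := h1.coh (e.symm_apply_le.2 hq) hab h3 h4
    rwa [e.apply_symm_apply] at h5
  · intro D hD q hq
    obtain ⟨r, hr, a, ha, h3⟩ := h2 D hD (e.symm q) (e.symm_apply_le.2 hq)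
    refine ⟨e r, e.le_symm_apply.1 hr, a, ha, ?_⟩
    change th (e.symm (e r)) a o
    rw [e.symm_apply_apply]
    exact h3

/-- for the forcing `T × (HQ × R)` there is a continuous system with top nodes without ineffable threads below `(t, h, r)` -/
def BadAt' (δ ν : Cardinal.{u}) (T HQ N : Type u) [PartialOrder T] [PartialOrder HQ] (h : HQ) :
    Prop :=
  ∃ (R : Type u) (_ : PartialOrder R) (Λ : Type u) (_ : Preorder Λ) (S : Sys (T × (HQ × R)) Λ N)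
    (o : N) (t : T) (r : R), DC δ R ∧ Dir ν Λ ∧ ChSup ν Λ ∧ S.Top o ∧ S.Cnt ν ∧
      ∀ p ≤ (t, h, r), ∀ th, IsThr S.rel p th → ¬ Inef ν p th o

theorem unif' {δ δ' ν : Cardinal.{u}} {HQ N Mi : Type u} [PartialOrder HQ] (hHQ : DC δ' HQ)
    (hMi : #Mi < δ') (T : Mi → Type u) [∀ m, PartialOrder (T m)]
    (hbad : ∀ m, ∀ h : HQ, ∃ h' ≤ h, BadAt' δ ν (T m) HQ N h') :
    ∃ h : HQ, ∀ m, BadAt' δ ν (T m) HQ N h := by
  obtain ⟨p, -⟩ := hHQ ∅ (fun x hx => hx.elim) (by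
    rw [Cardinal.mk_eq_zero]
    exact lt_of_le_of_lt zero_le hMi)
  obtain ⟨h, -, h1⟩ := REC hHQ hMi (fun m h => BadAt' δ ν (T m) HQ N h) p (by
    rintro m q r hr ⟨R, iR, Λ, iΛ, S, o, t, r0, h1, h2, h3, h4, h5, h6⟩
    refine ⟨R, iR, Λ, iΛ, S, o, t, r0, h1, h2, h3, h4, h5, fun p hp th => h6 p (hp.trans ?_) th⟩
    exact Prod.mk_le_mk.2 ⟨le_rfl, Prod.mk_le_mk.2 ⟨hr, le_rfl⟩⟩)
    fun m q _ => hbad m q
  exact ⟨h, h1⟩

theorem core' {Γ : Type u} [LinearOrder Γ] {γ kb : Cardinal.{u}} {k : Γ → Cardinal.{u}}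
    (h : Block Γ γ kb k) {S N Mi : Type u} [PartialOrder S] [Nonempty S] (hS : #S < kb)
    (hN : #N = nu k) (mu : Mi → Cardinal.{u}) (hMi : #Mi ≤ kb) (hmk : ∀ m, mu m < kb)
    (hsur : ∀ x, max γ #S ≤ x → x < kb → ∃ m, mu m = x)
    (Rm : Mi → Type u) [∀ m, PartialOrder (Rm m)] (Lm : Mi → Type u) [∀ m, Preorder (Lm m)]
    (Sm : ∀ m, Sys (TT S γ kb (mu m) × (HR kb k × Rm m)) (Lm m) N) (o : Mi → N)
    (tm : ∀ m, TT S γ kb (mu m)) (rm : ∀ m, Rm m) (h0 : HR kb k)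
    (hDC : ∀ m, DC (Order.succ (2 ^ nu k)) (Rm m)) (hDir : ∀ m, Dir (nu k) (Lm m))
    (hSup : ∀ m, ChSup (nu k) (Lm m)) (htop : ∀ m, (Sm m).Top (o m))
    (hcnt : ∀ m, (Sm m).Cnt (nu k))
    (hno : ∀ m, ∀ p ≤ (tm m, (h0, rm m)), ∀ th, IsThr (Sm m).rel p th →
      ¬ Inef (nu k) p th (o m)) : False := by
  classical
  have hν : ℵ₀ ≤ nu k := h.aleph0_le_nu
  have hντ : nu k ≤ 2 ^ nu k := (cantor (nu k)).le
  have hτ0 : ℵ₀ ≤ 2 ^ nu k := hν.trans hντ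
  have hκ0 : ℵ₀ ≤ kb := h.aleph0_lt_kb.le
  have hκν : kb ≤ nu k := h.kb_lt_nu.le
  have hκτ : kb ≤ Order.succ (2 ^ nu k) := (hκν.trans hντ).trans (Order.le_succ _)
  have hΛ : Dir (nu k) (∀ m, Lm m) := Dir.pi hDir
  have hΛ2 : ∀ a b : (∀ m, Lm m), ∃ c, a ≤ c ∧ b ≤ c := by
    intro a b
    obtain ⟨c, hc⟩ := hΛ {a, b} ((Set.toFinite {a, b}).lt_aleph0.le.trans hν)
    exact ⟨c, hc a (Set.mem_insert _ _), hc b (Set.mem_insert_of_mem _ rfl)⟩
  let R2 : Type u := Col (Order.succ (2 ^ nu k)) (∀ m, Lm m)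
  have hR2 : DC (Order.succ (2 ^ nu k)) R2 := Clq.dc (isRegular_succ hτ0)
  have hRm : DC (Order.succ (2 ^ nu k)) (∀ m, Rm m) := DC.pi hDC
  have hR : DC (Order.succ (2 ^ nu k)) ((∀ m, Rm m) × R2) := DC.prod hRm hR2
  have hQ : DC kb (HR kb k × ((∀ m, Rm m) × R2)) :=
    DC.prod (h.dc_HR.mono ((Order.le_succ _).trans (Order.le_succ _))) (hR.mono hκτ)
  let Sx : ∀ m, Sys (TT S γ kb (mu m) × (HR kb k × Rm m)) (∀ m, Lm m) N := fun m =>
    (Sm m).index (fun a => a m) (fun a b hab => hab m)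
  let Sm' : ∀ m, Sys (TT S γ kb (mu m) × (HR kb k × ((∀ m, Rm m) × R2))) (∀ m, Lm m) N :=
    fun m => (Sx m).comap (fun p => (p.1, (p.2.1, p.2.2.1 m)))
      (fun p q hq => ⟨hq.1, hq.2.1, hq.2.2.1 m⟩) (fun p' q hq => proj_hp m p' q hq)
  obtain ⟨c1, -⟩ := col_onto (δ := Order.succ (nu k)) (hν.trans (Order.le_succ _))
    ((2 : Cardinal.{u}) ^ nu k).out
  let f1 : HR kb k × ((∀ m, Rm m) × R2) → R0 k := fun q => q.1.2
  have hf1 : ∀ p q, q ≤ p → f1 q ≤ f1 p := fun p q hq => hq.1.2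
  have hp1 : ∀ p', ∀ q ≤ f1 p', ∃ q' ≤ p', f1 q' ≤ q := fun p' q hq =>
    ⟨((p'.1.1, q), p'.2), ⟨⟨le_rfl, hq⟩, le_rfl⟩, le_rfl⟩
  obtain ⟨o1⟩ := c1.comap f1 hf1 hp1
  obtain ⟨c2, -⟩ := col_onto (δ := Order.succ (2 ^ nu k)) (hτ0.trans (Order.le_succ _))
    (∀ m, Lm m)
  let f2 : HR kb k × ((∀ m, Rm m) × R2) → R2 := fun q => q.2.2
  have hf2 : ∀ p q, q ≤ p → f2 q ≤ f2 p := fun p q hq => hq.2.2
  have hp2 : ∀ p', ∀ q ≤ f2 p', ∃ q' ≤ p', f2 q' ≤ q := fun p' q hq =>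
    ⟨(p'.1, (p'.2.1, q)), ⟨le_rfl, le_rfl, hq⟩, le_rfl⟩
  obtain ⟨o2⟩ := c2.comap f2 hf2 hp2
  obtain ⟨Y, iL, iN, iZ, hiL, hiN, hiZ, hY⟩ := card_ae (G := γ.out) hκ0 hQ hν hN hτ0 o1 o2
  obtain ⟨U, hU⟩ := h.LIb.2 (HR kb k × ((∀ m, Rm m) × R2)) hQ Y
  obtain ⟨Ni, hNi1, hNi2⟩ := h.decomp N hN.le
  have hK : #(S × {c : Set (γ.out × N) // #c < γ} × Γ) ≤ nu k := by
    rw [mk_prod, lift_id, lift_id, mk_prod, lift_id, lift_id]
    have h1 : #(γ.out × N) ≤ nu k := by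
      rw [mk_prod, lift_id, lift_id, hN, mk_out]
      exact mul_le_of_le hν h.gamma_lt_nu.le le_rfl
    refine mul_le_of_le hν (hS.le.trans hκν) (mul_le_of_le hν (h.small_sets h1) ?_)
    rw [h.card]
    exact h.gamma_lt_nu.le
  have hΓ : #Γ < kb := by
    rw [h.card]
    exact h.gkb
  let e0 : R2 := ⟨∅, by
    rw [mk_eq_zero]
    exact lt_of_lt_of_le aleph0_pos (hτ0.trans (Order.le_succ _)), fun x hx => hx.elim⟩
  have hΛS : ChSup (nu k) (∀ m, Lm m) := ChSup.pi hSup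
  obtain ⟨q0, hq0, i, E, F, A, m, ρ, z, d, hD, hcof⟩ := propB' (κ := kb) (γ := γ)
    (lb := max γ #S) (ν := nu k) h.LIb.reg h.LIb.strong h.reg.1 (le_max_left _ _)
    (max_lt h.gkb hS) hQ (h.cov_Q hR) hΛ hκν hN inferInstance hS hΓ hK mu hsur Sm' o tm iL iN iZ
    hiL hiN hiZ hU (hY U hU) Ni hNi2 (h0, (rm, e0))
  refine icore h hS hR hΛ hΛS mu hmk hMi Sm' o (fun m p a => htop m _ _)
    (fun m => Cnt.comap (Sx m) _ _ _ (Cnt.eval m (Sm m) (hcnt m))) tm i (Ni i) (hNi1 i) hU iL hiL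
    hD q0 hcof ?_
  intro m p hp th hth
  have hT : #(TT S γ kb (mu m) × HR kb k) ≤ 2 ^ nu k := by
    rw [mk_prod, lift_id, lift_id]
    exact mul_le_of_le hτ0 ((h.card_TT hS (hmk m)).trans (hκν.trans hντ)) h.card_HR
  have hqq := hp.2.trans hq0
  obtain ⟨p', hp', D, hD', h1⟩ := bad_prod hν hN h.nu_strong le_rfl hT
    (h.cov (h.card_TT hS (hmk m))) hDir hDC hR2 m (Sm m) (o m) (hno m) hp.1 hqq.1 hqq.2.1 hth
  exact ⟨p', hp', {a | a m ∈ D}, Club.eval m hD', fun q hq a ha => h1 q hq a ha⟩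

theorem thmB' {Γ : Type u} [LinearOrder Γ] {γ kb : Cardinal.{u}} {k : Γ → Cardinal.{u}}
    (h : Block Γ γ kb k) {S N : Type u} [PartialOrder S] [Nonempty S] (hS : #S < kb)
    (hN : #N = nu k) :
    ∃ (μ : Cardinal.{u}) (h0 : HR kb k), γ ≤ μ ∧ #S ≤ μ ∧ μ < kb ∧
      ∀ (R : Type u) [PartialOrder R], DC (Order.succ (2 ^ nu k)) R →
        ∀ (t : TT S γ kb μ) (r : R), IThreads (TT S γ kb μ × (HR kb k × R)) N (t, h0, r) := by
  classical
  by_contra hcon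
  have hIio : ∀ i : kb.ord.ToType, #{j : kb.ord.ToType // j < i} < kb := by
    intro i
    have h3 := Cardinal.mk_Iio_lt i (by
      rw [Cardinal.mk_ord_toType]
      exact (Ordinal.type_toType _).symm)
    rw [Cardinal.mk_ord_toType] at h3
    exact h3
  let Mi : Type u := {m : kb.ord.ToType // max γ #S ≤ #{y : kb.ord.ToType // y < m}}
  let mu : Mi → Cardinal.{u} := fun m => #{y : kb.ord.ToType // y < m.1}
  have hMi : #Mi ≤ kb := (mk_subtype_le _).trans (Cardinal.mk_ord_toType kb).le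
  have hmk : ∀ m, mu m < kb := fun m => hIio m.1
  have hsur : ∀ x, max γ #S ≤ x → x < kb → ∃ m : Mi, mu m = x := by
    intro x hx hxk
    have h1 : x.ord < Ordinal.type (fun a b : kb.ord.ToType => a < b) := by
      rw [Ordinal.type_toType]
      exact Cardinal.ord_lt_ord.2 hxk
    have h2 : #{y : kb.ord.ToType // y < Ordinal.enum (fun a b : kb.ord.ToType => a < b)
        ⟨x.ord, h1⟩} = x := by
      have h3 := Ordinal.card_typein (r := fun a b : kb.ord.ToType => a < b)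
        (Ordinal.enum (fun a b : kb.ord.ToType => a < b) ⟨x.ord, h1⟩)
      rw [Ordinal.typein_enum, Cardinal.card_ord] at h3
      exact h3.symm
    exact ⟨⟨_, by rw [h2]; exact hx⟩, h2⟩
  have hbad : ∀ m : Mi, ∀ h1 : HR kb k, ∃ h' ≤ h1,
      BadAt' (Order.succ (2 ^ nu k)) (nu k) (TT S γ kb (mu m)) (HR kb k) N h' := by
    intro m h1
    by_contra hc
    refine hcon ⟨mu m, h1, (le_max_left _ _).trans m.2, (le_max_right _ _).trans m.2, hmk m, ?_⟩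
    intro R _ hR t r Λ _ hΛ hSup S' o htop hcnt p0 hp0
    by_contra hc2
    rw [hN] at hΛ hSup hcnt hc2
    refine hc ⟨p0.2.1, hp0.2.1, R, inferInstance, Λ, inferInstance, S', o, p0.1, p0.2.2, hR, hΛ,
      hSup, htop, hcnt, ?_⟩
    intro p hp th hth hin
    exact hc2 ⟨p, hp, th, hth, hin⟩
  obtain ⟨h0, hall⟩ := unif' h.dc_HR (hMi.trans_lt ((Order.lt_succ kb).trans (Order.lt_succ _)))
    (fun m => TT S γ kb (mu m)) hbad
  choose Rm iR Lm iL Sm om tm rm hDC hDir hSup htop hcnt hno using hall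
  exact core' h hS hN mu hMi hmk hsur Rm Lm Sm om tm rm h0 hDC hDir hSup htop hcnt hno

end STP
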