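import Pool.Agent.STP.BlkB
import Pool.Agent.STP.Bdd

/-! # The supercompact cardinals of a block stay regular (package X5)

(problem MP_e44aae_lc, project STP, X-half)

* `Block.card_lows`: `#(∏_{j < i} C_j) < k i`. Every factor has at most `k j ≤ ρ_i` elements (`Block.card_CC`; `k j ≤ ⨆ ≤ rho kb k i`), there are at most `γ ≤ kb ≤ ρ_i` indices, so the product has at most `ρ_i ^ ρ_i ≤ 2 ^ ρ_i` elements (`mk_pi`, `prod_le_prod`, `prod_const`, `power_self_eq`),
  `ρ_i < k i` (`Block.rho_lt`) and `LI.strong`.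
* `split3`: the product over a linear order is the product over `j < i`, the factor `i`, the product over `j > i` (case distinction; compare `split_iso` in `SplitIso.lean`).
* `Block.bdd_k`: `BddP (L × (HR kb k × R)) (k i)` for `#L ≤ kb`, `R` `DC (succ (nu k))`. Isomorphism of `L × ((HH × R0) × R)` with `((L × ∏_{j<i} C_j) × C_i) × ((∏_{j>i} C_j × R0) × R)` (from `split3`). `bdd_cc` with `T = (L × ∏_{j<i} C_j) × C_i`, `c = k i`: `CCP` by `ccp_prod` (`#(L × ∏) < k i` by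
  `mul_lt_of_lt`, `kb < k i`) and `ccp_clq` (`Levy (dl i) (k i)`: `dl_lt`, `levr` is symmetric, `levr_small`), `#T ≤ k i` (`card_CC`), the rest is `DC (succ (k i))`: `Block.dc_high`, `dc_R0` (`k i < nu k`), `hR`; `DC.prod`, `DC.mono`. Then `BddP.iso` with the inverse isomorphism. -/

universe u

namespace STP

open Cardinal

namespace Block

variable {Γ : Type u} [LinearOrder Γ] {γ kb : Cardinal.{u}} {k : Γ → Cardinal.{u}}

theorem card_lows (h : Block Γ γ kb k) (i : Γ) :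
    #(∀ j : {j : Γ // j < i}, CC kb k j.1) < k i := by
  have h0 : ℵ₀ ≤ rho kb k i := h.LIb.1.le.trans (le_max_left _ _)
  have h1 : ∀ j : {j : Γ // j < i}, #(CC kb k j.1) ≤ rho kb k i := fun j =>
    (h.card_CC j.1).trans (le_max_of_le_right (le_ciSup
      (f := fun l : {l : Γ // l < i} => k l.1) Cardinal.bddAbove_of_small j))
  have h2 : #{j : Γ // j < i} ≤ rho kb k i := by
    refine le_trans ?_ ((((h.init i).trans h.gkb).le).trans (le_max_left _ _))
    exact Cardinal.mk_subtype_mono fun j hj => le_of_lt hj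
  rw [Cardinal.mk_pi]
  calc Cardinal.prod (fun j : {j : Γ // j < i} => #(CC kb k j.1))
      ≤ Cardinal.prod (fun _ : {j : Γ // j < i} => rho kb k i) :=
        Cardinal.prod_le_prod _ _ h1
    _ = rho kb k i ^ #{j : Γ // j < i} := by rw [Cardinal.prod_const']
    _ ≤ rho kb k i ^ rho kb k i := by
        apply Cardinal.power_le_power_left
        · exact (lt_of_lt_of_le Cardinal.aleph0_pos h0).ne'
        · exact h2
    _ = 2 ^ rho kb k i := Cardinal.power_self_eq h0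
    _ < k i := (h.LIk i).strong _ (h.rho_lt i)

end Block

theorem split3 {Γ : Type u} [LinearOrder Γ] (C : Γ → Type u) [∀ a, PartialOrder (C a)] (i : Γ) :
    Nonempty ((∀ a, C a) ≃o
      ((∀ a : {a : Γ // a < i}, C a.1) × C i) × (∀ a : {a : Γ // i < a}, C a.1)) := by
  have hlt : ∀ a, ¬ a < i → ¬ a = i → i < a := by
    intro a h1 h2
    rcases lt_trichotomy a i with h | h | h
    · exact absurd h h1
    · exact absurd h h2
    · exact h
  refine ⟨⟨⟨fun x => (((fun a => x a.1), x i), fun a => x a.1),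
    fun y a => if h : a < i then y.1.1 ⟨a, h⟩ else
      if h' : a = i then cast (congrArg C h').symm y.1.2 else y.2 ⟨a, hlt a h h'⟩, ?_, ?_⟩, ?_⟩⟩
  · intro f
    funext a
    by_cases h : a < i
    · exact dif_pos h
    · by_cases h' : a = i
      · subst h'
        exact (dif_neg h).trans (dif_pos rfl)
      · exact (dif_neg h).trans (dif_neg h')
  · rintro ⟨⟨f, c⟩, g⟩
    simp only [Prod.mk.injEq]
    refine ⟨⟨?_, ?_⟩, ?_⟩
    · funext a
      rw [dif_pos a.2]
    · rw [dif_neg (lt_irrefl i), dif_pos trivial]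
      rfl
    · funext a
      rw [dif_neg (not_lt.2 a.2.le), dif_neg a.2.ne']
  · intro f f'
    constructor
    · rintro ⟨⟨h1, h2⟩, h3⟩ a
      by_cases h : a < i
      · exact h1 ⟨a, h⟩
      · by_cases h' : a = i
        · subst h'
          exact h2
        · exact h3 ⟨a, hlt a h h'⟩
    · intro h1
      exact ⟨⟨fun a => h1 a.1, h1 i⟩, fun a => h1 a.1⟩

theorem Block.bdd_k {Γ : Type u} [LinearOrder Γ] {γ kb : Cardinal.{u}} {k : Γ → Cardinal.{u}}
    (h : Block Γ γ kb k) {L R : Type u} [PartialOrder L] [PartialOrder R] (hL : #L ≤ kb)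
    (hR : DC (Order.succ (nu k)) R) (i : Γ) : BddP (L × (HR kb k × R)) (k i) := by
  have hreg := (h.LIk i).reg
  have hsucc : Order.succ (k i) ≤ Order.succ (nu k) := Order.succ_le_succ (h.lt_nu i).le
  have h1 : CCP (k i) (CC kb k i) :=
    ccp_clq (h.LIk i) (h.dl_reg i).aleph0_le (h.dl_lt i)
      (fun x y hxy hyx => (hxy hyx.symm).symm) (levr_small hreg.aleph0_le)
  have h2 : #(L × (∀ j : {j : Γ // j < i}, CC kb k j.1)) < k i := by
    rw [Cardinal.mk_prod, Cardinal.lift_id, Cardinal.lift_id]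
    exact Cardinal.mul_lt_of_lt hreg.aleph0_le (hL.trans_lt (h.kbk i)) (h.card_lows i)
  have h3 : CCP (k i) ((L × (∀ j : {j : Γ // j < i}, CC kb k j.1)) × CC kb k i) :=
    ccp_prod hreg h2 h1
  have h4 : #((L × (∀ j : {j : Γ // j < i}, CC kb k j.1)) × CC kb k i) ≤ k i := by
    rw [Cardinal.mk_prod, Cardinal.lift_id, Cardinal.lift_id]
    exact Cardinal.mul_le_of_le hreg.aleph0_le h2.le (h.card_CC i)
  have h5 : DC (Order.succ (k i)) (((∀ j : {j : Γ // i < j}, CC kb k j.1) × R0 k) × R) :=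
    DC.prod (DC.prod (h.dc_high i) (DC.mono hsucc h.dc_R0)) (DC.mono hsucc hR)
  have h6 := bdd_cc hreg h3 h4 h5
  obtain ⟨e⟩ := split3 (CC kb k) i
  let E : ((L × (∀ j : {j : Γ // j < i}, CC kb k j.1)) × CC kb k i) ×
      (((∀ j : {j : Γ // i < j}, CC kb k j.1) × R0 k) × R) ≃o L × (HR kb k × R) :=
    { toFun := fun x => (x.1.1.1, ((e.symm ((x.1.1.2, x.1.2), x.2.1.1), x.2.1.2), x.2.2))
      invFun := fun y => (((y.1, (e y.2.1.1).1.1), (e y.2.1.1).1.2),
        (((e y.2.1.1).2, y.2.1.2), y.2.2))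
      left_inv := by
        rintro ⟨⟨⟨l, f⟩, c⟩, ⟨⟨g, r0⟩, r⟩⟩
        simp only [e.apply_symm_apply]
      right_inv := by
        rintro ⟨l, ⟨⟨f, r0⟩, r⟩⟩
        simp only [Prod.mk.eta, e.symm_apply_apply]
      map_rel_iff' := by
        rintro ⟨⟨⟨l, f⟩, c⟩, ⟨⟨g, r0⟩, r⟩⟩ ⟨⟨⟨l', f'⟩, c'⟩, ⟨⟨g', r0'⟩, r'⟩⟩
        constructor
        · rintro ⟨a1, ⟨a2, a3⟩, a4⟩
          obtain ⟨⟨b1, b2⟩, b3⟩ := (e.symm.le_iff_le (x := ((f, c), g))
            (y := ((f', c'), g'))).1 a2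
          exact ⟨⟨⟨a1, b1⟩, b2⟩, ⟨b3, a3⟩, a4⟩
        · rintro ⟨⟨⟨a1, b1⟩, b2⟩, ⟨b3, a3⟩, a4⟩
          exact ⟨a1, ⟨(e.symm.le_iff_le (x := ((f, c), g))
            (y := ((f', c'), g'))).2 ⟨⟨b1, b2⟩, b3⟩, a3⟩, a4⟩ }
  exact BddP.iso E h6

end STP
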