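import Pool.Agent.STP.XStg
import Pool.Agent.STP.BlkA

/-! # The candidates for cardinals of the extension (package X6)

(problem MP_e44aae_lc, project STP, X-half)

Pure cardinal arithmetic. `cset γ μ kb k` is the set of the infinite cardinals `c < nu k` such that `c ≤ γ`, or `μ < c ≤ μ⁺⁺⁺`, or `c` is one of `ρ_i, ρ_i⁺, ρ_i⁺⁺ = dl i, k i` for some `i`.

* `not_cset`: let `ℵ₀ ≤ c < nu k` be not in `cset`. `¬ c ≤ γ`, so `γ < c`; if `c ≤ μ`: first alternative. Otherwise `μ < c`, hence `μ⁺⁺⁺ < c`; if `c ≤ kb`: second alternative. Otherwise `kb < c`. Some `i` has `c ≤ k i` (`c < nu k = ⨆ k`: `exists_lt_of_lt_ciSup`); take the least one (`Block.wf`). `c ≠ k i`, so `c < k i`.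
  For `j < i` we have `k j < c`, so `rho kb k i = max kb (⨆ j, k j) ≤ c` (`ciSup_le'`), and `c ≠ ρ_i, ρ_i⁺, ρ_i⁺⁺`, so `dl kb k i < c` (`Order.succ_le_iff`): third alternative.
* `cset_small`: `c < nu k`, so `c < k j` for some `j`. A member `d < c` of `cset` is `≤ γ`, or one of `μ⁺, μ⁺⁺, μ⁺⁺⁺` (`μ < d ≤ μ⁺⁺⁺`: `Order.succ_le_iff`, `Order.lt_succ_iff`, three cases), or one of `ρ_i, ρ_i⁺, ρ_i⁺⁺, k i` with `i ≤ j` (if `j < i` then `k j ≤ ρ_i ≤ d`, contradiction with `d < c < k j`).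
  So all members `d < c` are in the range of a function from `A ⊕ (ULift (Fin 3) ⊕ ({i // i ≤ j} × ULift (Fin 4)))` (`A` from `Few γ`), which has fewer than `γ` elements (`Block.init`, `γ` infinite, `add_lt_of_lt`, `mul_lt_of_lt`, `nat_lt_aleph0`). Choose a preimage of every member: an injection. -/

universe u

namespace STP

open Cardinal

/-- the candidates for the cardinals of the extension below `nu k` -/
def cset {Γ : Type u} [LinearOrder Γ] (γ μ kb : Cardinal.{u}) (k : Γ → Cardinal.{u}) :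
    Set Cardinal.{u} :=
  {c | ℵ₀ ≤ c ∧ (c ≤ γ ∨ (μ < c ∧ c ≤ s3 μ) ∨
    ∃ i, c = rho kb k i ∨ c = Order.succ (rho kb k i) ∨ c = dl kb k i ∨ c = k i)}

theorem not_cset {Γ : Type u} [LinearOrder Γ] {γ kb : Cardinal.{u}} {k : Γ → Cardinal.{u}}
    (h : Block Γ γ kb k) (μ : Cardinal.{u}) {c : Cardinal.{u}} (hc : ℵ₀ ≤ c) (hc' : c < nu k)
    (hn : c ∉ cset γ μ kb k) :
    (γ < c ∧ c ≤ μ) ∨ (s3 μ < c ∧ c ≤ kb) ∨ ∃ i, dl kb k i < c ∧ c < k i := by
  have hn' : ¬ (c ≤ γ ∨ (μ < c ∧ c ≤ s3 μ) ∨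
      ∃ i, c = rho kb k i ∨ c = Order.succ (rho kb k i) ∨ c = dl kb k i ∨ c = k i) :=
    fun hh => hn ⟨hc, hh⟩
  push Not at hn'
  obtain ⟨h1, h2, h3⟩ := hn'
  by_cases hμ : c ≤ μ
  · exact Or.inl ⟨h1, hμ⟩
  have hμ2 := h2 (not_le.mp hμ)
  by_cases hkb : c ≤ kb
  · exact Or.inr (Or.inl ⟨hμ2, hkb⟩)
  have hkb' := not_le.mp hkb
  obtain ⟨i0, hi0⟩ := exists_lt_of_lt_ciSup' hc'
  have := h.wf
  have hP : ({i | c ≤ k i} : Set Γ).Nonempty := ⟨i0, hi0.le⟩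
  obtain ⟨i, hi, hmin⟩ : ∃ i, c ≤ k i ∧ ∀ j, j < i → k j < c := by
    refine ⟨WellFounded.min wellFounded_lt _ hP, WellFounded.min_mem wellFounded_lt _ hP, ?_⟩
    intro j hj
    by_contra hcon
    exact WellFounded.not_lt_min wellFounded_lt {i | c ≤ k i} (not_lt.mp hcon) hj
  have hci : c < k i := lt_of_le_of_ne hi (h3 i).2.2.2
  have hrho : rho kb k i ≤ c := max_le hkb'.le (ciSup_le' fun j => (hmin j.1 j.2).le)
  have e1 : rho kb k i < c := lt_of_le_of_ne hrho (Ne.symm (h3 i).1)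
  have e2 : Order.succ (rho kb k i) < c :=
    lt_of_le_of_ne (Order.succ_le_of_lt e1) (Ne.symm (h3 i).2.1)
  have e3 : dl kb k i < c := lt_of_le_of_ne (Order.succ_le_of_lt e2) (Ne.symm (h3 i).2.2.1)
  exact Or.inr (Or.inr ⟨i, e3, hci⟩)

theorem cset_small {Γ : Type u} [LinearOrder Γ] {γ kb : Cardinal.{u}} {k : Γ → Cardinal.{u}}
    (h : Block Γ γ kb k) (hf : Few γ) (μ : Cardinal.{u}) {c : Cardinal.{u}} (hc : c < nu k) :
    ∃ A : Type u, #A < γ ∧ Nonempty ({d // d ∈ cset γ μ kb k ∧ d < c} ↪ A) := by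
  obtain ⟨j, hj⟩ := exists_lt_of_lt_ciSup' hc
  obtain ⟨A, f, hA, hf⟩ := hf
  have hγ : ℵ₀ ≤ γ := h.reg.aleph0_le
  let g : A ⊕ (ULift.{u} (Fin 3) ⊕ ({i // i ≤ j} × ULift.{u} (Fin 4))) → Cardinal.{u} :=
    Sum.elim f (Sum.elim (fun n => ![Order.succ μ, Order.succ (Order.succ μ), s3 μ] n.down)
      fun q => ![rho kb k q.1.1, Order.succ (rho kb k q.1.1), dl kb k q.1.1, k q.1.1] q.2.down)
  have key : ∀ d, d ∈ cset γ μ kb k → d < c → ∃ a, g a = d := by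
    intro d hd hdc
    obtain ⟨hd0, hd1 | ⟨hd1, hd2⟩ | ⟨i, hi⟩⟩ := hd
    · obtain ⟨a, ha⟩ := hf d hd0 hd1
      exact ⟨Sum.inl a, ha⟩
    · rcases (Order.succ_le_of_lt hd1).eq_or_lt with h1 | h1
      · exact ⟨Sum.inr (Sum.inl ⟨0⟩), h1⟩
      rcases (Order.succ_le_of_lt h1).eq_or_lt with h2 | h2
      · exact ⟨Sum.inr (Sum.inl ⟨1⟩), h2⟩
      · exact ⟨Sum.inr (Sum.inl ⟨2⟩), le_antisymm (Order.succ_le_of_lt h2) hd2⟩
    · have hij : i ≤ j := by
        by_contra hcon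
        have hji : j < i := not_le.mp hcon
        have r1 : k j ≤ rho kb k i :=
          (le_ciSup (f := fun j : {j : Γ // j < i} => k j.1) Cardinal.bddAbove_of_small
            ⟨j, hji⟩).trans (le_max_right _ _)
        have r2 : rho kb k i ≤ Order.succ (rho kb k i) := Order.le_succ _
        have r3 : Order.succ (rho kb k i) ≤ dl kb k i := Order.le_succ _
        have r4 : k j ≤ d := by
          rcases hi with e | e | e | e
          · rw [e]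
            exact r1
          · rw [e]
            exact r1.trans r2
          · rw [e]
            exact r1.trans (r2.trans r3)
          · rw [e]
            exact (h.mono _ _ hji).le
        exact absurd (r4.trans_lt (hdc.trans hj)) (lt_irrefl _)
      rcases hi with e | e | e | e
      · exact ⟨Sum.inr (Sum.inr (⟨i, hij⟩, ⟨0⟩)), e.symm⟩
      · exact ⟨Sum.inr (Sum.inr (⟨i, hij⟩, ⟨1⟩)), e.symm⟩
      · exact ⟨Sum.inr (Sum.inr (⟨i, hij⟩, ⟨2⟩)), e.symm⟩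
      · exact ⟨Sum.inr (Sum.inr (⟨i, hij⟩, ⟨3⟩)), e.symm⟩
  refine ⟨A ⊕ (ULift.{u} (Fin 3) ⊕ ({i // i ≤ j} × ULift.{u} (Fin 4))), ?_, ?_⟩
  · have n3 : #(ULift.{u} (Fin 3)) < γ := (Cardinal.lt_aleph0_of_finite _).trans_le hγ
    have n4 : #(ULift.{u} (Fin 4)) < γ := (Cardinal.lt_aleph0_of_finite _).trans_le hγ
    rw [← Cardinal.add_def, ← Cardinal.add_def, ← Cardinal.mul_def]
    exact Cardinal.add_lt_of_lt hγ hA
      (Cardinal.add_lt_of_lt hγ n3 (Cardinal.mul_lt_of_lt hγ (h.init j) n4))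
  · choose φ hφ using key
    refine ⟨⟨fun d => φ d.1 d.2.1 d.2.2, ?_⟩⟩
    intro d d' hdd
    have e1 := hφ d.1 d.2.1 d.2.2
    have e2 := hφ d'.1 d'.2.1 d'.2.2
    have e3 : g (φ d.1 d.2.1 d.2.2) = g (φ d'.1 d'.2.1 d'.2.2) := congrArg g hdd
    exact Subtype.ext (by rw [← e1, e3, e2])

end STP
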