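import Pool.Agent.STP.BF
import Pool.Agent.STP.Gen

/-! # Names of surjections (package X4)

(problem MP_e44aae_lc, project STP, X-half)

`OntoN P p0 A B` (`BF.lean`): a name of a partial function from `A` onto `B` below `p0`.

* `OntoN.mono`: compose with a ground model injection `g : C → B` (`#C ≤ #B`): `W' p x y := W p x (g y)`.
* `OntoN.comap`: pull back along a projection `f : P → Q` (monotone, every `q ≤ f p` is above some `f p'`, `p' ≤ p`): `W' p := W (f p)`.
* `Onto.name`: the structure `Onto` of `Gen.lean` gives `OntoN` (below every condition).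
* `col_ontoN`: `col_onto` for `Col δ B`.
* `levy_ontoN`: the Levy collapse `Levy δ lam` adds, for every `c < lam` (infinite or not), a surjection from `δ` onto `c`: let `β : lam.ord.ToType` be the element of rank `c.ord` (`< lam.ord`), so `#{y // y < β} = c` (`Ordinal.ToType`, `enum`, `card_typein`, `card_ord`; compare the
  treatment of `Mi` in `ThmB.lean`). `W p x y := ∃ h, (⟨((x, β), y.1), h⟩ : LevX δ lam) ∈ p.s` for `x : δ.out`, `y : {y // y < β}`. Functional: `p.cl` and `levr`. Onto: given `y` and `p`, the first coordinates of the members of `p.s` do not exhaust `δ.out × {β}` (`#p.s < δ`), add the triple `((x, β), y)` for a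
  new `x`; it is compatible with all members of `p` (`Clq.exists_union` with a one point condition; `δ` infinite; compare the proof of `col_onto` in `Gen.lean`). Then `OntoN.mono`. -/

universe u

namespace STP

open Cardinal

theorem OntoN.mono {P : Type u} [Preorder P] {p0 : P} {A B C : Type u} (h : OntoN P p0 A B)
    (hC : #C ≤ #B) : OntoN P p0 A C := by
  obtain ⟨W, h1, h2, h3⟩ := h
  obtain ⟨g⟩ := Cardinal.le_def _ _ |>.1 hC
  refine ⟨fun p x y => W p x (g y), fun p p' x y hp hw => h1 p p' x _ hp hw,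
    fun p x y y' hy hy' => g.injective (h2 p x _ _ hy hy'), fun y p hp => h3 (g y) p hp⟩

theorem OntoN.comap {P Q : Type u} [Preorder P] [Preorder Q] (f : P → Q)
    (hf : ∀ p q, q ≤ p → f q ≤ f p) (hp : ∀ p, ∀ q ≤ f p, ∃ p' ≤ p, f p' ≤ q) {p0 : P}
    {A B : Type u} (h : OntoN Q (f p0) A B) : OntoN P p0 A B := by
  obtain ⟨W, h1, h2, h3⟩ := h
  refine ⟨fun p x y => W (f p) x y, fun p p' x y hpp hw => h1 _ _ x y (hf _ _ hpp) hw,
    fun p x y y' hy hy' => h2 _ x _ _ hy hy', fun y p hpp => ?_⟩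
  obtain ⟨q, hq, x, hx⟩ := h3 y (f p) (hf _ _ hpp)
  obtain ⟨p', hp', hpq⟩ := hp p q hq
  exact ⟨p', hp', x, h1 _ _ x y hpq hx⟩

theorem Onto.name {Q A B : Type u} [Preorder Q] (o : Onto Q A B) (q0 : Q) :
    OntoN Q q0 A B :=
  ⟨o.g, fun _ _ _ _ h1 h2 => o.mono h1 h2, fun _ _ _ _ h1 h2 => o.fn h1 h2,
    fun y p _ => o.onto y p⟩

theorem col_ontoN {δ : Cardinal.{u}} (hδ : ℵ₀ ≤ δ) (B : Type u) (p0 : Col δ B) :
    OntoN (Col δ B) p0 δ.out B := by
  obtain ⟨o, -⟩ := col_onto hδ B
  exact o.name p0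

theorem levy_ontoN {δ lam : Cardinal.{u}} (hδ : ℵ₀ ≤ δ) {c : Cardinal.{u}} (hc : c < lam)
    (p0 : Levy δ lam) : OntoN (Levy δ lam) p0 δ.out c.out := by
  classical
  have h1 : c.ord < Ordinal.type (fun a b : lam.ord.ToType => a < b) := by
    rw [Ordinal.type_toType]
    exact ord_lt_ord.2 hc
  set β : lam.ord.ToType := Ordinal.enum (fun a b : lam.ord.ToType => a < b) ⟨c.ord, h1⟩ with hβ
  have h2 : #{y : lam.ord.ToType // y < β} = c := by
    have h3 := Ordinal.card_typein (r := fun a b : lam.ord.ToType => a < b) β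
    rw [hβ, Ordinal.typein_enum, card_ord] at h3
    rw [hβ]
    exact h3.symm
  refine OntoN.mono (B := {y : lam.ord.ToType // y < β}) ?_ (by rw [h2, mk_out])
  refine ⟨fun p x y => (⟨((x, β), y.1), y.2⟩ : LevX δ lam) ∈ p.s, fun p p' x y hp hw => hp hw,
    fun p x y y' hy hy' => Subtype.ext (p.cl _ hy _ hy' rfl), fun y q _ => ?_⟩
  obtain ⟨x, hx⟩ : ∃ x : δ.out, x ∉ (fun z : LevX δ lam => z.1.1.1) '' q.s := by
    by_contra hcon
    push Not at hcon
    have h1 : (fun z : LevX δ lam => z.1.1.1) '' q.s = Set.univ := Set.eq_univ_of_forall hcon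
    have h2 : #((fun z : LevX δ lam => z.1.1.1) '' q.s : Set δ.out) ≤ #q.s := mk_image_le
    rw [h1, mk_univ, mk_out] at h2
    exact absurd (h2.trans_lt q.card) (lt_irrefl _)
  refine ⟨⟨insert (⟨((x, β), y.1), y.2⟩ : LevX δ lam) q.s, ?_, ?_⟩, ?_, x, ?_⟩
  · exact (mk_insert_le).trans_lt (add_lt_of_lt hδ q.card (one_lt_aleph0.trans_le hδ))
  · rintro a (rfl | ha) b (rfl | hb)
    · exact fun _ => rfl
    · intro h1
      exact absurd ⟨b, hb, (congrArg Prod.fst h1).symm⟩ hx
    · intro h1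
      exact absurd ⟨a, ha, congrArg Prod.fst h1⟩ hx
    · exact q.cl a ha b hb
  · exact Set.subset_insert _ _
  · exact Set.mem_insert _ _

end STP
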