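import Pool.Agent.STP.XCard
import Pool.Agent.STP.XOnt
import Pool.Agent.STP.XBdk
import Pool.Agent.STP.XCand

/-! # The facts about one block (package X7)

(problem MP_e44aae_lc, project STP, X-half; assembly)

* `BF.iso`: transport along an isomorphism: `BddP.iso`, `Threads.iso`, `OntoN.comap` with `e.symm` (a projection).
* `bf_block`: `P = TT S γ kb μ × (HR kb k × R)`, `σ : Stg`, `c : Ch σ`, `R` is `DC (succ (2 ^ nu k))`.
  `inf`: `σ.reg.aleph0_le`. `lt`: `Block.gamma_lt_nu`. `bdd`: if `γ = ℵ₀`: `bdd_aleph0`; otherwise `#S < γ` (`σ.sm`): `P ≃o S × ((Col γ μ × Col (s3 μ) kb) × (HR × R))` (write out the isomorphism), `bdd_small` (`σ.reg`; `DC γ` of the second factor: `Clq.dc`, `DC.prod`, `DC.mono`, `Block.dc_HR`, `γ < 2 ^ nu`), `BddP.iso`.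
  `bddS`: `bdd_cov` with `Block.cov_R` (`#TT ≤ kb`: `Block.card_TT` with `c.hS`, `c.μk`). `seq`: `c.k`; `mono`, `aleph0_lt_k`, `lt_nu`, `exists_lt_of_lt_ciSup`, `Block.bdd_k` (`L = TT`, `DC (succ (nu k)) R` by `DC.mono`, `nu ≤ 2 ^ nu` (`cantor`)).
  `cand`: `D = cset γ μ kb k`; `not_cset` gives three cases: (1) `γ < c ≤ μ`: `a = γ`, `col_ontoN` for `Col γ μ.out`, `OntoN.mono`, `OntoN.comap` with the projection `p ↦ p.1.1.2`; (2) `s3 μ < c ≤ kb`: `a = s3 μ`, `Col (s3 μ) kb.out`, the projection `p ↦ p.1.2`; (3) `dl i < c < k i`: `a = dl i`, `levy_ontoN`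
  (`dl_reg`), the projection `p ↦ p.2.1.1 i` (`Function.update` for the projection property, as in `ThmB.lean`, `proj_hp`). `cset_small` with `σ.few`.
  `thr`: `c.thr`. -/

universe u

namespace STP

open Cardinal

theorem BF.iso {P P' : Type u} [PartialOrder P] [PartialOrder P'] (e : P ≃o P') {p : P}
    {γ ν : Cardinal.{u}} (h : BF P p γ ν) : BF P' (e p) γ ν := by
  refine ⟨h.inf, h.lt, BddP.iso e h.bdd, BddP.iso e h.bddS, ?_, ?_, h.thr.iso e _⟩
  · obtain ⟨k, h1, h2, h3, h4, h5⟩ := h.seq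
    exact ⟨k, h1, h2, h3, h4, fun i => BddP.iso e (h5 i)⟩
  · obtain ⟨D, h1, h2⟩ := h.cand
    refine ⟨D, fun c a1 a2 a3 => ?_, h2⟩
    obtain ⟨a, ha, h3⟩ := h1 c a1 a2 a3
    refine ⟨a, ha, OntoN.comap (Q := P) (fun q => e.symm q) (fun x y hxy => e.symm.monotone hxy)
      (fun x q hq => ⟨e q, e.le_symm_apply.1 hq, ?_⟩) ?_⟩
    · rw [e.symm_apply_apply]
    · rw [e.symm_apply_apply]
      exact h3

/-- the projection to one coordinate of the product -/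
private theorem upd_hp {Γ : Type u} [DecidableEq Γ] {C : Γ → Type u} [∀ i, PartialOrder (C i)]
    (i : Γ) (f : ∀ i, C i) (q : C i) (hq : q ≤ f i) : Function.update f i q ≤ f := by
  intro j
  by_cases hj : j = i
  · subst hj
    rw [Function.update_self]
    exact hq
  · rw [Function.update_of_ne hj]

theorem bf_block (σ : Stg.{u}) (c : Ch σ) (R : Type u) [PartialOrder R]
    (hR : DC (Order.succ (2 ^ nu c.k)) R) (t : TT σ.S σ.γ c.kb c.μ) (r : R) :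
    BF (TT σ.S σ.γ c.kb c.μ × (HR c.kb c.k × R)) (t, c.h0, r) σ.γ (nu c.k) := by
  classical
  have b := c.blk
  have hν := b.aleph0_le_nu
  have hcan : nu c.k ≤ 2 ^ nu c.k := (Cardinal.cantor _).le
  have hTT : #(TT σ.S σ.γ c.kb c.μ) ≤ c.kb := b.card_TT c.hS c.μk
  have hRnu : DC (Order.succ (nu c.k)) R := DC.mono (Order.succ_le_succ hcan) hR
  have h0 : ℵ₀ ≤ c.μ := σ.reg.aleph0_le.trans c.γμ
  have h1 : ℵ₀ ≤ Order.succ (Order.succ c.μ) :=
    (h0.trans (Order.le_succ _)).trans (Order.le_succ _)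
  refine ⟨σ.reg.aleph0_le, b.gamma_lt_nu, ?_, bdd_cov hν (b.cov_R hTT hR), ?_, ?_,
    c.thr R hR t r⟩
  · -- `γ`
    rcases σ.sm with hγ | hS
    · have h2 : ∀ c : Cardinal.{u}, c = ℵ₀ → ∀ (P : Type u) [Preorder P], BddP P c := by
        rintro _ rfl P _
        exact bdd_aleph0 P
      exact h2 _ hγ _
    · have h3 : σ.γ ≤ s3 c.μ :=
        ((c.γμ.trans (Order.le_succ _)).trans (Order.le_succ _)).trans (Order.le_succ _)
      have h4 : σ.γ ≤ Order.succ (Order.succ c.kb) :=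
        (b.gkb.le.trans (Order.le_succ _)).trans (Order.le_succ _)
      have h5 : σ.γ ≤ Order.succ (2 ^ nu c.k) :=
        (b.gamma_lt_nu.le.trans hcan).trans (Order.le_succ _)
      have h6 : DC σ.γ ((Col σ.γ c.μ.out × Col (s3 c.μ) c.kb.out) × (HR c.kb c.k × R)) :=
        DC.prod (DC.prod (Clq.dc σ.reg) (DC.mono h3 (Clq.dc (Cardinal.isRegular_succ h1))))
          (DC.prod (DC.mono h4 b.dc_HR) (DC.mono h5 hR))
      have h7 := bdd_small σ.reg hS h6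
      let E : σ.S × ((Col σ.γ c.μ.out × Col (s3 c.μ) c.kb.out) × (HR c.kb c.k × R)) ≃o
          TT σ.S σ.γ c.kb c.μ × (HR c.kb c.k × R) :=
        { toFun := fun x => (((x.1, x.2.1.1), x.2.1.2), x.2.2)
          invFun := fun y => (y.1.1.1, ((y.1.1.2, y.1.2), y.2))
          left_inv := fun _ => rfl
          right_inv := fun _ => rfl
          map_rel_iff' := by
            rintro ⟨s, ⟨⟨a, d⟩, x⟩⟩ ⟨s', ⟨⟨a', d'⟩, x'⟩⟩
            simp only [Equiv.coe_fn_mk, Prod.mk_le_mk]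
            tauto }
      exact BddP.iso E h7
  · -- the sequence
    refine ⟨c.k, b.mono, fun i => (b.aleph0_lt_k i).le, b.lt_nu, fun d hd => ?_,
      fun i => b.bdd_k hTT hRnu i⟩
    exact exists_lt_of_lt_ciSup' hd
  · -- the candidates
    refine ⟨cset σ.γ c.μ c.kb c.k, fun d hd1 hd2 hd3 => ?_, fun d hd => cset_small b σ.few c.μ hd⟩
    rcases not_cset b c.μ hd1 hd2 hd3 with ⟨a1, a2⟩ | ⟨a1, a2⟩ | ⟨i, a1, a2⟩
    · refine ⟨σ.γ, a1, ?_⟩
      have m1 : ∀ x y : TT σ.S σ.γ c.kb c.μ × (HR c.kb c.k × R), y ≤ x → y.1.1.2 ≤ x.1.1.2 :=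
        fun x y hxy => hxy.1.1.2
      have m2 : ∀ (x : TT σ.S σ.γ c.kb c.μ × (HR c.kb c.k × R)), ∀ q ≤ x.1.1.2,
          ∃ x' ≤ x, x'.1.1.2 ≤ q := fun x q hq => ⟨(((x.1.1.1, q), x.1.2), x.2),
          ⟨⟨⟨le_rfl, hq⟩, le_rfl⟩, le_rfl⟩, le_rfl⟩
      refine OntoN.comap _ m1 m2 ((col_ontoN σ.reg.aleph0_le _ _).mono ?_)
      rw [mk_out, mk_out]
      exact a2
    · refine ⟨s3 c.μ, a1, ?_⟩
      have m1 : ∀ x y : TT σ.S σ.γ c.kb c.μ × (HR c.kb c.k × R), y ≤ x → y.1.2 ≤ x.1.2 :=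
        fun x y hxy => hxy.1.2
      have m2 : ∀ (x : TT σ.S σ.γ c.kb c.μ × (HR c.kb c.k × R)), ∀ q ≤ x.1.2,
          ∃ x' ≤ x, x'.1.2 ≤ q := fun x q hq => ⟨((x.1.1, q), x.2),
          ⟨⟨le_rfl, hq⟩, le_rfl⟩, le_rfl⟩
      refine OntoN.comap _ m1 m2 ((col_ontoN (h1.trans (Order.le_succ _)) _ _).mono ?_)
      rw [mk_out, mk_out]
      exact a2
    · refine ⟨dl c.kb c.k i, a1, ?_⟩
      have m1 : ∀ x y : TT σ.S σ.γ c.kb c.μ × (HR c.kb c.k × R), y ≤ x →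
          y.2.1.1 i ≤ x.2.1.1 i := fun x y hxy => hxy.2.1.1 i
      have m2 : ∀ (x : TT σ.S σ.γ c.kb c.μ × (HR c.kb c.k × R)), ∀ q ≤ x.2.1.1 i,
          ∃ x' ≤ x, x'.2.1.1 i ≤ q := fun x q hq =>
          ⟨(x.1, ((Function.update x.2.1.1 i q, x.2.1.2), x.2.2)),
            ⟨le_rfl, ⟨upd_hp i _ q hq, le_rfl⟩, le_rfl⟩, by
              show Function.update x.2.1.1 i q i ≤ q
              rw [Function.update_self]⟩
      exact OntoN.comap _ m1 m2 (levy_ontoN (b.dl_reg i).aleph0_le a2 _)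

end STP
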