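import Pool.Agent.STP.XSeq
import Pool.Agent.STP.XBF

/-! # The full product (package X8)

(problem MP_e44aae_lc, project STP, X-half; assembly)

`pk` from `exists_ch`. `P = ∀ n, PN pk n`, `pstar n = pst (stg pk n) (pk (stg pk n))`, `gam n = (stg pk n).γ`, `nu' n = nuN pk n`.

* `gam_lt`: `gam n < nuN n < gam (n + 1)` (`Block.gamma_lt_nu`; `gam (n + 1) = succ (2 ^ nuN n)` by definition, `cantor`), hence `gam` is strictly increasing (`strictMono_nat_of_lt_succ`) and injective.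
* the tail `∀ m : {m // n < m}, PN pk m.1` is `DC (succ (2 ^ nuN n))`: `DC.piN`, `PB.dc`, `DC.mono` with `gam (n + 1) ≤ gam m`.
* `pi_main` with `S n = (stg pk n).S`: `h0`: `PUnit`; `hs`: `(stg pk (n + 1)).S = (stg pk n).S × PN pk n` by definition (`OrderIso.refl`). Composition with `asc` gives an isomorphism `e` of `P` with `TT .. × (HR × tail)` with `(e pstar).2.1 = h0`. `bf_block` and `BF.iso e.symm`. -/

universe u

namespace STP

open Cardinal

theorem stg_lt (pk : ∀ σ : Stg.{u}, Ch σ) (n : ℕ) :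
    (stg pk n).γ < nuN pk n ∧ nuN pk n < (stg pk (n + 1)).γ := by
  refine ⟨(pk (stg pk n)).blk.gamma_lt_nu, ?_⟩
  show nuN pk n < Order.succ (2 ^ nuN pk n)
  exact (cantor _).trans (Order.lt_succ _)

private theorem stg_mono (pk : ∀ σ : Stg.{u}, Ch σ) : StrictMono fun n => (stg pk n).γ :=
  strictMono_nat_of_lt_succ fun n => (stg_lt pk n).1.trans (stg_lt pk n).2

theorem tail_dc (pk : ∀ σ : Stg.{u}, Ch σ) (n : ℕ) :
    DC (Order.succ (2 ^ nuN pk n)) (∀ m : {m // n < m}, PN pk m.1) := by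
  refine DC.piN fun m => DC.mono ?_ (PB.dc (stg pk m.1) (pk (stg pk m.1)))
  exact (stg_mono pk).monotone (Nat.succ_le_of_lt m.2)

theorem bf_all (pk : ∀ σ : Stg.{u}, Ch σ) (n : ℕ) :
    BF (∀ n, PN pk n) (fun n => pst (stg pk n) (pk (stg pk n))) (stg pk n).γ (nuN pk n) := by
  have h0 : Nonempty (Unique ((stg pk 0).S)) := ⟨show Unique PUnit from inferInstance⟩
  have hs : ∀ n, Nonempty ((stg pk (n + 1)).S ≃o (stg pk n).S × PN pk n) :=
    fun n => ⟨OrderIso.refl _⟩
  obtain ⟨e, he⟩ := pi_main (fun m => PN pk m) (fun m => (stg pk m).S) h0 hs n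
  set c := pk (stg pk n) with hc
  set ps : ∀ n, PN pk n := fun n => pst (stg pk n) (pk (stg pk n)) with hps
  let f : (∀ m, PN pk m) ≃o TT (stg pk n).S (stg pk n).γ c.kb c.μ ×
      (HR c.kb c.k × (∀ m : {m // n < m}, PN pk m.1)) :=
    e.trans (asc (stg pk n).S (Col (stg pk n).γ c.μ.out) (Col (s3 c.μ) c.kb.out)
      (HR c.kb c.k) (∀ m : {m // n < m}, PN pk m.1))
  have h1 := bf_block (stg pk n) c (∀ m : {m // n < m}, PN pk m.1) (tail_dc pk n)
    (f ps).1 (f ps).2.2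
  have h2 : (f ps).2.1 = c.h0 := by
    have h3 : (e ps).1.2 = ps n := he ps
    show (e ps).1.2.2 = c.h0
    rw [h3]
    rfl
  have h4 : ((f ps).1, c.h0, (f ps).2.2) = f ps := by
    rw [← h2]
  rw [h4] at h1
  have h5 := BF.iso f.symm h1
  rwa [OrderIso.symm_apply_apply] at h5

theorem exists_BF (h : ∀ c : Cardinal.{u}, ∃ κ, c < κ ∧ LI κ) :
    ∃ (P : Type u) (_ : PartialOrder P) (pstar : P) (gam nu' : ℕ → Cardinal.{u}),
      (∀ m n, gam m = gam n → m = n) ∧ ∀ n, BF P pstar (gam n) (nu' n) := by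
  let pk : ∀ σ : Stg.{u}, Ch σ := fun σ => (exists_ch h σ).some
  exact ⟨∀ n, PN pk n, inferInstance, fun n => pst (stg pk n) (pk (stg pk n)),
    fun n => (stg pk n).γ, fun n => nuN pk n, fun m n hmn => (stg_mono pk).injective hmn,
    fun n => bf_all pk n⟩

end STP
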