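import Pool.Agent.STP.JStg
import Pool.Agent.STP.BFI
import Pool.Agent.STP.XFin

/-! # The poset of the model of ITP

(problem MP_e44aae_lc, project STP, ITP extension, architect helper69)

Copy of the files `XCard`, `XBlk`, `XBF`, `XSeq`, `XFin` (authors: helper58, helper72, helper42, helper66) with `IThreads` in place of `Threads`. -/

universe u

namespace STP.J

open Cardinal

theorem PB.dc (σ : Stg.{u}) (c : Ch σ) : DC σ.γ (PB σ c) := by
  have h0 : ℵ₀ ≤ c.μ := σ.reg.aleph0_le.trans c.γμ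
  have h1 : ℵ₀ ≤ Order.succ c.μ := h0.trans (Order.le_succ _)
  have h2 : ℵ₀ ≤ Order.succ (Order.succ c.μ) := h1.trans (Order.le_succ _)
  have h3 : σ.γ ≤ s3 c.μ :=
    ((c.γμ.trans (Order.le_succ _)).trans (Order.le_succ _)).trans (Order.le_succ _)
  have h4 : σ.γ ≤ Order.succ (Order.succ c.kb) :=
    (c.blk.gkb.le.trans (Order.le_succ _)).trans (Order.le_succ _)
  refine DC.prod (DC.prod (Clq.dc σ.reg) (DC.mono h3 (Clq.dc ?_))) (DC.mono h4 c.blk.dc_HR)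
  exact Cardinal.isRegular_succ h2

theorem Ch.card_next {σ : Stg.{u}} (c : Ch σ) :
    #(σ.S × PB σ c) < Order.succ (2 ^ nu c.k) := by
  have h0 := c.blk.aleph0_le_nu
  have hpow : ℵ₀ ≤ (2 : Cardinal.{u}) ^ nu c.k := h0.trans (Cardinal.cantor _).le
  have e : σ.S × PB σ c ≃ TT σ.S σ.γ c.kb c.μ × HR c.kb c.k :=
    { toFun := fun x => (((x.1, x.2.1.1), x.2.1.2), x.2.2)
      invFun := fun y => (y.1.1.1, ((y.1.1.2, y.1.2), y.2))
      left_inv := fun _ => rfl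
      right_inv := fun _ => rfl }
  rw [Cardinal.mk_congr e, Order.lt_succ_iff, Cardinal.mk_prod, Cardinal.lift_id,
    Cardinal.lift_id]
  refine (mul_le_mul' (((c.blk.card_TT c.hS c.μk).trans c.blk.kb_lt_nu.le).trans
    (Cardinal.cantor _).le) c.blk.card_HR).trans ?_
  rw [Cardinal.mul_eq_self hpow]

theorem exists_ch (hLI : ∀ c : Cardinal.{u}, ∃ κ, c < κ ∧ LI κ) (σ : Stg.{u}) :
    Nonempty (Ch σ) := by
  obtain ⟨kb, k, hS, hB⟩ := exists_block hLI σ.reg #σ.S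
  obtain ⟨μ, h0, h1, h2, h3, h4⟩ := thmB' hB (N := (nu k).ord.ToType) hS (Cardinal.mk_ord_toType _)
  exact ⟨⟨kb, k, hB, hS, μ, h0, h1, h2, h3, h4⟩⟩

theorem bfi_iso {P P' : Type u} [PartialOrder P] [PartialOrder P'] (e : P ≃o P') {p : P}
    {γ ν : Cardinal.{u}} (h : BFI P p γ ν) : BFI P' (e p) γ ν := by
  refine ⟨h.inf, h.lt, BddP.iso e h.bdd, BddP.iso e h.bddS, ?_, ?_, h.thr.iso e _⟩
  · obtain ⟨k, h1, h2, h3, h4, h5⟩ := h.seq
    exact ⟨k, h1, h2, h3, h4, fun i => BddP.iso e (h5 i)⟩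
  · obtain ⟨D, h1, h2⟩ := h.cand
    refine ⟨D, fun c a1 a2 a3 => ?_, h2⟩
    obtain ⟨a, ha, h3⟩ := h1 c a1 a2 a3
    refine ⟨a, ha, OntoN.comap (Q := P) (fun q => e.symm q) (fun x y hxy => e.symm.monotone hxy)
      (fun x q hq => ⟨e q, e.le_symm_apply.1 hq, ?_⟩) ?_⟩
    · rw [e.symm_apply_apply]
    · rw [e.symm_apply_apply]
      exact h3

/-- the projection to one coordinate of the product -/
private theorem upd_hp {Γ : Type u} [DecidableEq Γ] {C : Γ → Type u} [∀ i, PartialOrder (C i)]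
    (i : Γ) (f : ∀ i, C i) (q : C i) (hq : q ≤ f i) : Function.update f i q ≤ f := by
  intro j
  by_cases hj : j = i
  · subst hj
    rw [Function.update_self]
    exact hq
  · rw [Function.update_of_ne hj]

theorem bf_block (σ : Stg.{u}) (c : Ch σ) (R : Type u) [PartialOrder R]
    (hR : DC (Order.succ (2 ^ nu c.k)) R) (t : TT σ.S σ.γ c.kb c.μ) (r : R) :
    BFI (TT σ.S σ.γ c.kb c.μ × (HR c.kb c.k × R)) (t, c.h0, r) σ.γ (nu c.k) := by
  classical
  have b := c.blk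
  have hν := b.aleph0_le_nu
  have hcan : nu c.k ≤ 2 ^ nu c.k := (Cardinal.cantor _).le
  have hTT : #(TT σ.S σ.γ c.kb c.μ) ≤ c.kb := b.card_TT c.hS c.μk
  have hRnu : DC (Order.succ (nu c.k)) R := DC.mono (Order.succ_le_succ hcan) hR
  have h0 : ℵ₀ ≤ c.μ := σ.reg.aleph0_le.trans c.γμ
  have h1 : ℵ₀ ≤ Order.succ (Order.succ c.μ) :=
    (h0.trans (Order.le_succ _)).trans (Order.le_succ _)
  refine ⟨σ.reg.aleph0_le, b.gamma_lt_nu, ?_, bdd_cov hν (b.cov_R hTT hR), ?_, ?_,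
    c.thr R hR t r⟩
  · -- `γ`
    rcases σ.sm with hγ | hS
    · have h2 : ∀ c : Cardinal.{u}, c = ℵ₀ → ∀ (P : Type u) [Preorder P], BddP P c := by
        rintro _ rfl P _
        exact bdd_aleph0 P
      exact h2 _ hγ _
    · have h3 : σ.γ ≤ s3 c.μ :=
        ((c.γμ.trans (Order.le_succ _)).trans (Order.le_succ _)).trans (Order.le_succ _)
      have h4 : σ.γ ≤ Order.succ (Order.succ c.kb) :=
        (b.gkb.le.trans (Order.le_succ _)).trans (Order.le_succ _)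
      have h5 : σ.γ ≤ Order.succ (2 ^ nu c.k) :=
        (b.gamma_lt_nu.le.trans hcan).trans (Order.le_succ _)
      have h6 : DC σ.γ ((Col σ.γ c.μ.out × Col (s3 c.μ) c.kb.out) × (HR c.kb c.k × R)) :=
        DC.prod (DC.prod (Clq.dc σ.reg) (DC.mono h3 (Clq.dc (Cardinal.isRegular_succ h1))))
          (DC.prod (DC.mono h4 b.dc_HR) (DC.mono h5 hR))
      have h7 := bdd_small σ.reg hS h6
      let E : σ.S × ((Col σ.γ c.μ.out × Col (s3 c.μ) c.kb.out) × (HR c.kb c.k × R)) ≃o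
          TT σ.S σ.γ c.kb c.μ × (HR c.kb c.k × R) :=
        { toFun := fun x => (((x.1, x.2.1.1), x.2.1.2), x.2.2)
          invFun := fun y => (y.1.1.1, ((y.1.1.2, y.1.2), y.2))
          left_inv := fun _ => rfl
          right_inv := fun _ => rfl
          map_rel_iff' := by
            rintro ⟨s, ⟨⟨a, d⟩, x⟩⟩ ⟨s', ⟨⟨a', d'⟩, x'⟩⟩
            simp only [Equiv.coe_fn_mk, Prod.mk_le_mk]
            tauto }
      exact BddP.iso E h7
  · -- the sequence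
    refine ⟨c.k, b.mono, fun i => (b.aleph0_lt_k i).le, b.lt_nu, fun d hd => ?_,
      fun i => b.bdd_k hTT hRnu i⟩
    exact exists_lt_of_lt_ciSup' hd
  · -- the candidates
    refine ⟨cset σ.γ c.μ c.kb c.k, fun d hd1 hd2 hd3 => ?_, fun d hd => cset_small b σ.few c.μ hd⟩
    rcases not_cset b c.μ hd1 hd2 hd3 with ⟨a1, a2⟩ | ⟨a1, a2⟩ | ⟨i, a1, a2⟩
    · refine ⟨σ.γ, a1, ?_⟩
      have m1 : ∀ x y : TT σ.S σ.γ c.kb c.μ × (HR c.kb c.k × R), y ≤ x → y.1.1.2 ≤ x.1.1.2 :=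
        fun x y hxy => hxy.1.1.2
      have m2 : ∀ (x : TT σ.S σ.γ c.kb c.μ × (HR c.kb c.k × R)), ∀ q ≤ x.1.1.2,
          ∃ x' ≤ x, x'.1.1.2 ≤ q := fun x q hq => ⟨(((x.1.1.1, q), x.1.2), x.2),
          ⟨⟨⟨le_rfl, hq⟩, le_rfl⟩, le_rfl⟩, le_rfl⟩
      refine OntoN.comap _ m1 m2 ((col_ontoN σ.reg.aleph0_le _ _).mono ?_)
      rw [mk_out, mk_out]
      exact a2
    · refine ⟨s3 c.μ, a1, ?_⟩
      have m1 : ∀ x y : TT σ.S σ.γ c.kb c.μ × (HR c.kb c.k × R), y ≤ x → y.1.2 ≤ x.1.2 :=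
        fun x y hxy => hxy.1.2
      have m2 : ∀ (x : TT σ.S σ.γ c.kb c.μ × (HR c.kb c.k × R)), ∀ q ≤ x.1.2,
          ∃ x' ≤ x, x'.1.2 ≤ q := fun x q hq => ⟨((x.1.1, q), x.2),
          ⟨⟨le_rfl, hq⟩, le_rfl⟩, le_rfl⟩
      refine OntoN.comap _ m1 m2 ((col_ontoN (h1.trans (Order.le_succ _)) _ _).mono ?_)
      rw [mk_out, mk_out]
      exact a2
    · refine ⟨dl c.kb c.k i, a1, ?_⟩
      have m1 : ∀ x y : TT σ.S σ.γ c.kb c.μ × (HR c.kb c.k × R), y ≤ x →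
          y.2.1.1 i ≤ x.2.1.1 i := fun x y hxy => hxy.2.1.1 i
      have m2 : ∀ (x : TT σ.S σ.γ c.kb c.μ × (HR c.kb c.k × R)), ∀ q ≤ x.2.1.1 i,
          ∃ x' ≤ x, x'.2.1.1 i ≤ q := fun x q hq =>
          ⟨(x.1, ((Function.update x.2.1.1 i q, x.2.1.2), x.2.2)),
            ⟨le_rfl, ⟨upd_hp i _ q hq, le_rfl⟩, le_rfl⟩, by
              show Function.update x.2.1.1 i q i ≤ q
              rw [Function.update_self]⟩
      exact OntoN.comap _ m1 m2 (levy_ontoN (b.dl_reg i).aleph0_le a2 _)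

/-- the next stage -/
noncomputable def nxt (σ : Stg.{u}) (c : Ch σ) : Stg.{u} where
  S := σ.S × PB σ c
  γ := Order.succ (2 ^ nu c.k)
  reg := isRegular_succ (c.blk.aleph0_le_nu.trans (cantor _).le)
  few := few_succ (c.blk.aleph0_le_nu.trans (cantor _).le)
  sm := Or.inr c.card_next

/-- the sequence of stages -/
noncomputable def stg (pk : ∀ σ : Stg.{u}, Ch σ) : ℕ → Stg.{u}
  | 0 => stg0
  | n + 1 => nxt (stg pk n) (pk (stg pk n))

/-- the forcing of the block `n` -/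
abbrev PN (pk : ∀ σ : Stg.{u}, Ch σ) (n : ℕ) : Type u := PB (stg pk n) (pk (stg pk n))

/-- the cardinal `ν_n` -/
noncomputable def nuN (pk : ∀ σ : Stg.{u}, Ch σ) (n : ℕ) : Cardinal.{u} :=
  nu (pk (stg pk n)).k

theorem stg_lt (pk : ∀ σ : Stg.{u}, Ch σ) (n : ℕ) :
    (stg pk n).γ < nuN pk n ∧ nuN pk n < (stg pk (n + 1)).γ := by
  refine ⟨(pk (stg pk n)).blk.gamma_lt_nu, ?_⟩
  show nuN pk n < Order.succ (2 ^ nuN pk n)
  exact (cantor _).trans (Order.lt_succ _)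

private theorem stg_mono (pk : ∀ σ : Stg.{u}, Ch σ) : StrictMono fun n => (stg pk n).γ :=
  strictMono_nat_of_lt_succ fun n => (stg_lt pk n).1.trans (stg_lt pk n).2

theorem tail_dc (pk : ∀ σ : Stg.{u}, Ch σ) (n : ℕ) :
    DC (Order.succ (2 ^ nuN pk n)) (∀ m : {m // n < m}, PN pk m.1) := by
  refine DC.piN fun m => DC.mono ?_ (PB.dc (stg pk m.1) (pk (stg pk m.1)))
  exact (stg_mono pk).monotone (Nat.succ_le_of_lt m.2)

theorem bf_all (pk : ∀ σ : Stg.{u}, Ch σ) (n : ℕ) :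
    BFI (∀ n, PN pk n) (fun n => pst (stg pk n) (pk (stg pk n))) (stg pk n).γ (nuN pk n) := by
  have h0 : Nonempty (Unique ((stg pk 0).S)) := ⟨show Unique PUnit from inferInstance⟩
  have hs : ∀ n, Nonempty ((stg pk (n + 1)).S ≃o (stg pk n).S × PN pk n) :=
    fun n => ⟨OrderIso.refl _⟩
  obtain ⟨e, he⟩ := pi_main (fun m => PN pk m) (fun m => (stg pk m).S) h0 hs n
  set c := pk (stg pk n) with hc
  set ps : ∀ n, PN pk n := fun n => pst (stg pk n) (pk (stg pk n)) with hps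
  let f : (∀ m, PN pk m) ≃o TT (stg pk n).S (stg pk n).γ c.kb c.μ ×
      (HR c.kb c.k × (∀ m : {m // n < m}, PN pk m.1)) :=
    e.trans (asc (stg pk n).S (Col (stg pk n).γ c.μ.out) (Col (s3 c.μ) c.kb.out)
      (HR c.kb c.k) (∀ m : {m // n < m}, PN pk m.1))
  have h1 := bf_block (stg pk n) c (∀ m : {m // n < m}, PN pk m.1) (tail_dc pk n)
    (f ps).1 (f ps).2.2
  have h2 : (f ps).2.1 = c.h0 := by
    have h3 : (e ps).1.2 = ps n := he ps
    show (e ps).1.2.2 = c.h0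
    rw [h3]
    rfl
  have h4 : ((f ps).1, c.h0, (f ps).2.2) = f ps := by
    rw [← h2]
  rw [h4] at h1
  have h5 := bfi_iso f.symm h1
  rwa [OrderIso.symm_apply_apply] at h5

theorem exists_BFI (h : ∀ c : Cardinal.{u}, ∃ κ, c < κ ∧ LI κ) :
    ∃ (P : Type u) (_ : PartialOrder P) (pstar : P) (gam nu' : ℕ → Cardinal.{u}),
      (∀ m n, gam m = gam n → m = n) ∧ ∀ n, BFI P pstar (gam n) (nu' n) := by
  let pk : ∀ σ : Stg.{u}, Ch σ := fun σ => (exists_ch h σ).some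
  exact ⟨∀ n, PN pk n, inferInstance, fun n => pst (stg pk n) (pk (stg pk n)),
    fun n => (stg pk n).γ, fun n => nuN pk n, fun m n hmn => (stg_mono pk).injective hmn,
    fun n => bf_all pk n⟩

end STP.J
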