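import Pool.Agent.STP.JFin

/-! # The poset of the model of ITP, the form used by the bridge

(problem MP_e44aae_lc, project STP, ITP extension, architect helper69)

`exists_BFI` (file `JFin`) restated with `BF0` and `IThreads`, as used by `good_of_I`. -/

universe u

namespace STP

open Cardinal

theorem BFI.bf0 {P : Type u} [PartialOrder P] {pstar : P} {γ ν : Cardinal.{u}}
    (h : BFI P pstar γ ν) : BF0 P pstar γ ν :=
  ⟨h.inf, h.lt, h.bdd, h.bddS, h.seq, h.cand⟩

theorem exists_BF0I (h : ∀ c : Cardinal.{u}, ∃ κ, c < κ ∧ LI κ) :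
    ∃ (P : Type u) (_ : PartialOrder P) (pstar : P) (γ ν : ℕ → Cardinal.{u}),
      (∀ m n, γ m = γ n → m = n) ∧ (∀ n, BF0 P pstar (γ n) (ν n)) ∧
      ∀ n, IThreads P (ν n).ord.ToType pstar := by
  obtain ⟨P, hP, pstar, γ, ν, h1, h2⟩ := J.exists_BFI h
  exact ⟨P, hP, pstar, γ, ν, h1, fun n => (h2 n).bf0, fun n => (h2 n).thr⟩

end STP
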