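import Pool.Agent.STP.XStg
import Pool.Agent.STP.IThB

/-! # Blocks with ineffable threads: definitions

(problem MP_e44aae_lc, project STP, ITP extension, architect helper69; copy of `XStg.lean` with `IThreads` in place of `Threads`; no sorry in this file) -/

universe u

namespace STP.J

open Cardinal

/-- the choice of a block over a stage -/
structure Ch (σ : Stg.{u}) : Type (u + 1) where
  /-- the first supercompact cardinal -/
  kb : Cardinal.{u}
  /-- the other supercompact cardinals -/
  k : σ.γ.ord.ToType → Cardinal.{u}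
  blk : Block σ.γ.ord.ToType σ.γ kb k
  hS : #σ.S < kb
  /-- the parameter `μ` -/
  μ : Cardinal.{u}
  /-- the condition -/
  h0 : HR kb k
  γμ : σ.γ ≤ μ
  Sμ : #σ.S ≤ μ
  μk : μ < kb
  thr : ∀ (R : Type u) [PartialOrder R], DC (Order.succ (2 ^ nu k)) R →
    ∀ (t : TT σ.S σ.γ kb μ) (r : R),
      IThreads (TT σ.S σ.γ kb μ × (HR kb k × R)) (nu k).ord.ToType (t, h0, r)

/-- the forcing of a block -/
abbrev PB (σ : Stg.{u}) (c : Ch σ) : Type u :=
  (Col σ.γ c.μ.out × Col (s3 c.μ) c.kb.out) × HR c.kb c.k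

/-- the distinguished condition of a block -/
noncomputable def pst (σ : Stg.{u}) (c : Ch σ) : PB σ c :=
  ((Clq.emp (aleph0_pos.trans_le σ.reg.aleph0_le), Clq.emp (zero_le.trans_lt (Order.lt_succ _))), c.h0)

instance (σ : Stg.{u}) (c : Ch σ) : Nonempty (PB σ c) := ⟨pst σ c⟩

end STP.J
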