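import Pool.Agent.STP.Defs

/-! # Systems below a condition (package Y09)

(problem MP_e44aae_lc, project STP)

`Threads P N pstar` is about systems `Sys P Λ N`, whose axioms hold for all conditions. Here the axioms are required only below `p0`. Given such an `R` define
`rel p a b ξ ζ := a ≤ b ∧ ∀ q ≤ p, (q ≤ p0 → R q a b ξ ζ) ∧ ((∀ r ≤ q, ¬ r ≤ p0) → ξ = ζ)`.
* `mono`: clear. `loc`: let `q ≤ p`. If `q ≤ p0`: by `loc` of `R` it is enough that densely many `r' ≤ q` satisfy `R r'`; some `r ≤ q' ≤ q` has `rel r`, so `R r` (`r ≤ p0`). If no `r ≤ q` is `≤ p0`: some `r ≤ q` has `rel r`, so `ξ = ζ`.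
* `tot`: `a ≤ b`, `p`, `ζ`: if some `q ≤ p` is `≤ p0` then `tot` of `R` gives `q' ≤ q`, `ξ` with `R q' a b ξ ζ`, so `rel q' a b ξ ζ` (`mono`; no extension of `q'` is as in the second alternative, take it itself). Otherwise `q := p`, `ξ := ζ` (the first alternative never occurs).
* `fn`, `comp`: if some `q ≤ p` is `≤ p0` use `R q` (`fn` directly); for `comp` check both alternatives for each `q ≤ p` (`comp` of `R` for `q ≤ p0`; equality is transitive).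
* A thread of `rel` below `p ≤ p0` is a thread of `R` below `p`: `coh`: `rel q a b ξ ζ` for `q ≤ p ≤ p0` gives `R q a b ξ ζ`. -/

universe u

namespace STP

open Cardinal

theorem Threads.belowR {P N : Type u} [Preorder P] {pstar : P} (h : Threads P N pstar)
    {Λ : Type u} [Preorder Λ] (hΛ : Dir #N Λ) {p0 : P} (hp0 : p0 ≤ pstar)
    (R : P → Λ → Λ → N → N → Prop)
    (mono : ∀ {p q : P} {a b : Λ} {ξ ζ : N}, q ≤ p → p ≤ p0 → R p a b ξ ζ → R q a b ξ ζ)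
    (loc : ∀ {p : P} {a b : Λ} {ξ ζ : N}, p ≤ p0 → (∀ q ≤ p, ∃ r ≤ q, R r a b ξ ζ) →
      R p a b ξ ζ)
    (tot : ∀ {a b : Λ}, a ≤ b → ∀ p ≤ p0, ∀ ζ : N, ∃ q ≤ p, ∃ ξ, R q a b ξ ζ)
    (fn : ∀ {p : P} {a b : Λ} {ξ ξ' ζ : N}, p ≤ p0 → a ≤ b → R p a b ξ ζ → R p a b ξ' ζ →
      ξ = ξ')
    (comp : ∀ {p : P} {a b c : Λ} {ξ ζ η : N}, p ≤ p0 → a ≤ b → b ≤ c → R p a b ξ ζ →
      R p b c ζ η → R p a c ξ η) :
    ∃ p ≤ p0, ∃ th, IsThr R p th := by
  classical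
  let S : Sys P Λ N :=
    { rel := fun p a b ξ ζ => a ≤ b ∧ ∀ q ≤ p, (q ≤ p0 → R q a b ξ ζ) ∧
        ((∀ r ≤ q, ¬ r ≤ p0) → ξ = ζ)
      mono := fun hqp h => ⟨h.1, fun r hr => h.2 r (hr.trans hqp)⟩
      loc := by
        intro p a b ξ ζ h
        refine ⟨?_, fun q hq => ⟨fun hq0 => ?_, fun hq0 => ?_⟩⟩
        · obtain ⟨r, -, hr⟩ := h p le_rfl
          exact hr.1
        · refine loc hq0 fun r hr => ?_
          obtain ⟨r', hr', h'⟩ := h r (hr.trans hq)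
          exact ⟨r', hr', (h'.2 r' le_rfl).1 ((hr'.trans hr).trans hq0)⟩
        · obtain ⟨r', hr', h'⟩ := h q hq
          exact (h'.2 r' le_rfl).2 fun r hr => hq0 r (hr.trans hr')
      tot := by
        intro a b hab p ζ
        by_cases hp : ∃ q ≤ p, q ≤ p0
        · obtain ⟨q, hq, hq0⟩ := hp
          obtain ⟨q', hq', ξ, hξ⟩ := tot hab q hq0 ζ
          refine ⟨q', hq'.trans hq, ξ, hab, fun r hr => ⟨fun _ => ?_, fun h0 => ?_⟩⟩
          · exact mono hr (hq'.trans hq0) hξ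
          · exact absurd (hr.trans (hq'.trans hq0)) (h0 r le_rfl)
        · refine ⟨p, le_rfl, ζ, hab, fun r hr => ⟨fun h0 => ?_, fun _ => rfl⟩⟩
          exact absurd ⟨r, hr, h0⟩ hp
      fn := by
        intro p a b ξ ξ' ζ h h'
        by_cases hp : ∃ q ≤ p, q ≤ p0
        · obtain ⟨q, hq, hq0⟩ := hp
          exact fn hq0 h.1 ((h.2 q hq).1 hq0) ((h'.2 q hq).1 hq0)
        · have h0 : ∀ r ≤ p, ¬ r ≤ p0 := fun r hr hr0 => hp ⟨r, hr, hr0⟩
          exact ((h.2 p le_rfl).2 h0).trans ((h'.2 p le_rfl).2 h0).symm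
      comp := by
        intro p a b c ξ ζ η hab hbc h h'
        refine ⟨hab.trans hbc, fun q hq => ⟨fun hq0 => ?_, fun hq0 => ?_⟩⟩
        · exact comp hq0 hab hbc ((h.2 q hq).1 hq0) ((h'.2 q hq).1 hq0)
        · exact ((h.2 q hq).2 hq0).trans ((h'.2 q hq).2 hq0) }
  obtain ⟨p, hp, th, hth⟩ := h Λ hΛ S p0 hp0
  refine ⟨p, hp, th, hth.mono, hth.tot, fun {p' a b ξ ζ} hp' hab h1 h2 => ?_⟩
  exact ((hth.coh hp' hab h1 h2).2 p' le_rfl).1 (hp'.trans hp)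

end STP
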