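import Pool.Agent.STP.IDef
import Pool.Agent.STP.YThr

/-! # Continuous systems below a condition (package K03)

(problem MP_e44aae_lc, project STP, ITP, bridge)

As `Threads.belowR` (file YThr, copy the definition of `rel` and the proofs of the axioms of
`Sys`): `rel p a b ξ ζ := a ≤ b ∧ ∀ q ≤ p, (q ≤ p0 → R q a b ξ ζ) ∧ ((∀ r ≤ q, ¬ r ≤ p0) → ξ =
ζ)`.
* `Top`: `rel p a a o o` by `top`.
* `Cnt`: let `s`, `d`, `p`, `ζ`, `ζ'` be as in the definition, `p' ≤ p`. If some `q ≤ p'` is `≤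
  p0`: apply `cnt` to `q` (for `a ∈ s`, `q' ≤ q` the hypothesis gives `q'' ≤ q'`, `ξ` with `rel
  q'' a d ξ ζ`, so `R q'' a d ξ ζ`, since `q'' ≤ p0`); the result `R r d d η ζ`, `R r d d η ζ'`,
  `r ≤ q`, gives `rel r` by `mono` (no extension of `r` is incompatible with `p0`).
  Otherwise take `a ∈ s` (`s` is not empty): for some `q ≤ p'`, `ξ`: `rel q a d ξ ζ`, `rel q a d ξ
ζ'`, so `ξ = ζ` and `ξ = ζ'` (no extension of `q` is `≤ p0`), and `rel q d d ζ ζ` holds.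
* A thread of `rel` below `p ≤ p0` is a thread of `R`. -/

universe u

namespace STP

open Cardinal

theorem IThreads.belowR {P N : Type u} [Preorder P] {pstar : P} (h : IThreads P N pstar)
    {Λ : Type u} [Preorder Λ] (hΛ : Dir #N Λ) (hc : ChSup #N Λ) {p0 : P} (hp0 : p0 ≤ pstar)
    (R : P → Λ → Λ → N → N → Prop) (o : N)
    (mono : ∀ {p q : P} {a b : Λ} {ξ ζ : N}, q ≤ p → p ≤ p0 → R p a b ξ ζ → R q a b ξ ζ)
    (loc : ∀ {p : P} {a b : Λ} {ξ ζ : N}, p ≤ p0 → (∀ q ≤ p, ∃ r ≤ q, R r a b ξ ζ) →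
      R p a b ξ ζ)
    (tot : ∀ {a b : Λ}, a ≤ b → ∀ p ≤ p0, ∀ ζ : N, ∃ q ≤ p, ∃ ξ, R q a b ξ ζ)
    (fn : ∀ {p : P} {a b : Λ} {ξ ξ' ζ : N}, p ≤ p0 → a ≤ b → R p a b ξ ζ → R p a b ξ' ζ →
      ξ = ξ')
    (comp : ∀ {p : P} {a b c : Λ} {ξ ζ η : N}, p ≤ p0 → a ≤ b → b ≤ c → R p a b ξ ζ →
      R p b c ζ η → R p a c ξ η)
    (top : ∀ p ≤ p0, ∀ a, R p a a o o)
    (cnt : ∀ s : Set Λ, s.Nonempty → IsChain (· ≤ ·) s → #s ≤ #N → ∀ d, IsLUB s d →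
      ∀ p ≤ p0, ∀ ζ ζ' : N,
        (∀ a ∈ s, ∀ p' ≤ p, ∃ q ≤ p', ∃ ξ, R q a d ξ ζ ∧ R q a d ξ ζ') →
        ∀ p' ≤ p, ∃ q ≤ p', ∃ η, R q d d η ζ ∧ R q d d η ζ') :
    ∃ p ≤ p0, ∃ th, IsThr R p th ∧ Inef #N p th o := by
  classical
  let S : Sys P Λ N :=
    { rel := fun p a b ξ ζ => a ≤ b ∧ ∀ q ≤ p, (q ≤ p0 → R q a b ξ ζ) ∧
        ((∀ r ≤ q, ¬ r ≤ p0) → ξ = ζ)
      mono := fun hqp h => ⟨h.1, fun r hr => h.2 r (hr.trans hqp)⟩
      loc := by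
        intro p a b ξ ζ h
        refine ⟨?_, fun q hq => ⟨fun hq0 => ?_, fun hq0 => ?_⟩⟩
        · obtain ⟨r, -, hr⟩ := h p le_rfl
          exact hr.1
        · refine loc hq0 fun r hr => ?_
          obtain ⟨r', hr', h'⟩ := h r (hr.trans hq)
          exact ⟨r', hr', (h'.2 r' le_rfl).1 ((hr'.trans hr).trans hq0)⟩
        · obtain ⟨r', hr', h'⟩ := h q hq
          exact (h'.2 r' le_rfl).2 fun r hr => hq0 r (hr.trans hr')
      tot := by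
        intro a b hab p ζ
        by_cases hp : ∃ q ≤ p, q ≤ p0
        · obtain ⟨q, hq, hq0⟩ := hp
          obtain ⟨q', hq', ξ, hξ⟩ := tot hab q hq0 ζ
          refine ⟨q', hq'.trans hq, ξ, hab, fun r hr => ⟨fun _ => ?_, fun h0 => ?_⟩⟩
          · exact mono hr (hq'.trans hq0) hξ
          · exact absurd (hr.trans (hq'.trans hq0)) (h0 r le_rfl)
        · refine ⟨p, le_rfl, ζ, hab, fun r hr => ⟨fun h0 => ?_, fun _ => rfl⟩⟩
          exact absurd ⟨r, hr, h0⟩ hp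
      fn := by
        intro p a b ξ ξ' ζ h h'
        by_cases hp : ∃ q ≤ p, q ≤ p0
        · obtain ⟨q, hq, hq0⟩ := hp
          exact fn hq0 h.1 ((h.2 q hq).1 hq0) ((h'.2 q hq).1 hq0)
        · have h0 : ∀ r ≤ p, ¬ r ≤ p0 := fun r hr hr0 => hp ⟨r, hr, hr0⟩
          exact ((h.2 p le_rfl).2 h0).trans ((h'.2 p le_rfl).2 h0).symm
      comp := by
        intro p a b c ξ ζ η hab hbc h h'
        refine ⟨hab.trans hbc, fun q hq => ⟨fun hq0 => ?_, fun hq0 => ?_⟩⟩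
        · exact comp hq0 hab hbc ((h.2 q hq).1 hq0) ((h'.2 q hq).1 hq0)
        · exact ((h.2 q hq).2 hq0).trans ((h'.2 q hq).2 hq0) }
  have hT : S.Top o := fun p a =>
    ⟨le_rfl, fun q _ => ⟨fun hq0 => top q hq0 a, fun _ => rfl⟩⟩
  have hC : S.Cnt #N := by
    intro s hs hch hcd d hd p ζ ζ' H p' hp'
    by_cases hp : ∃ q ≤ p', q ≤ p0
    · obtain ⟨q, hq, hq0⟩ := hp
      obtain ⟨r, hr, η, h1, h2⟩ := cnt s hs hch hcd d hd q hq0 ζ ζ'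
        (fun a ha q' hq' => by
          obtain ⟨r, hr, ξ, h1, h2⟩ := H a ha q' ((hq'.trans hq).trans hp')
          have hr0 : r ≤ p0 := (hr.trans hq').trans hq0
          exact ⟨r, hr, ξ, (h1.2 r le_rfl).1 hr0, (h2.2 r le_rfl).1 hr0⟩) q le_rfl
      have hr0 : r ≤ p0 := hr.trans hq0
      have key : ∀ ζ : N, R r d d η ζ → S.rel r d d η ζ := fun ζ h =>
        ⟨le_rfl, fun r' hr' => ⟨fun _ => mono hr' hr0 h,
          fun h0 => absurd (hr'.trans hr0) (h0 r' le_rfl)⟩⟩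
      exact ⟨r, hr.trans hq, η, key ζ h1, key ζ' h2⟩
    · obtain ⟨a, ha⟩ := hs
      obtain ⟨q, hq, ξ, h1, h2⟩ := H a ha p' hp'
      have h0 : ∀ r ≤ q, ¬ r ≤ p0 := fun r hr hr0 => hp ⟨r, hr.trans hq, hr0⟩
      have e1 : ξ = ζ := (h1.2 q le_rfl).2 h0
      have e2 : ξ = ζ' := (h2.2 q le_rfl).2 h0
      have key : S.rel q d d ξ ξ :=
        ⟨le_rfl, fun r hr => ⟨fun hr0 => absurd hr0 (h0 r hr), fun _ => rfl⟩⟩
      refine ⟨q, hq, ξ, ?_, ?_⟩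
      · rw [← e1]
        exact key
      · rw [← e2]
        exact key
  obtain ⟨p, hp, th, hth, hin⟩ := h Λ hΛ hc S o hT hC p0 hp0
  refine ⟨p, hp, th, ⟨hth.mono, hth.tot, fun {p' a b ξ ζ} hp' hab h1 h2 => ?_⟩, hin⟩
  exact ((hth.coh hp' hab h1 h2).2 p' le_rfl).1 (hp'.trans hp)

end STP
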