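import Pool.Agent.STP.KSys

/-! # Names of clubs give clubs of the preorder of names (package K05)

(problem MP_e44aae_lc, project STP, ITP, bridge)

`κ = ck (succ ν).ord`, `L` has the preorder `preL p0 nm`, `p ≤ p0` forces that `Z` is a club of `P_κ(lam)`. Then `{m | p forces nm m ∈ Z}` is a club of `L`.
* `cld`: let `s` be a nonempty chain of at most `ν` elements `m` with `Fo p (nm m ∈ Z)`, `e` a lub. `club_chain` at `p` for `Z` (the family `fun a : s => nm a.1`; the chain condition holds at `p0`, so at `p`, `Fo.mono`) gives `Fo p (unJ .. ∈ Z)`; `k_lub` and `Fo.mono`: `nm e = unJ ..`.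
* `cof`: let `a : L`. Construct names `y n`, `z n` (`n : ℕ`) with `y 0 = nm a`, `Fo p (y n ∈ C)`, `Fo p (z n ∈ Z)`, `Fo p (y n ⊆ z n)`, `Fo p (z n ⊆ y (n+1))`: given `y n`, which is forced to be in `C`, so in `P_κ(lam)` (`fClub`, first clause), the second clause of `fClub` for `Z` and `Fo.ex` give `z n`; the same for `C` gives `y (n+1)` (recursion on the subtype of names forced by `p` to be in `C`; `Classical.choose`).
  Let `J := ULift ℕ`, `u := unJ (fun n => y n.down)`, `u' := unJ (fun n => z n.down)`. By `club_chain` (`#J = ℵ₀ ≤ ν`; the chain conditions hold because `y m ⊆ y n`, `z m ⊆ z n` for `m ≤ n`) `p` forces `u ∈ C`, `u' ∈ Z`, and `u = u'` (`unJ_sub`, `unJ_least` in both directions; extensionality). `nm a ⊆ u`.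
  `p0` forces `∃ t, t ∈ C ∧ nm a ⊆ t ∧ (u ∈ C ∧ nm a ⊆ u → t = u)` (in `NG G`: take `t = u` if `u ∈ C` and `nm a ⊆ u`, otherwise `t = nm a`, which is in `C`); let `t` be a name (`Fo.ex`), `m : L` with `Fo p0 (nm m = t)` (`TrD.all`). Then `a ≤ m`, and `p` forces `nm m = t = u = u' ∈ Z`. -/

universe u

namespace STP

open BSet Cardinal Fml

variable {P : Type u} [PartialOrder P] {ν : Cardinal.{u}} {p0 : P} {lam d C : BSet (RO P)}
  {L : Type u} {nm T : L → BSet (RO P)} {w : L → Ordinal.{u} → BSet (RO P)}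

private theorem sub_tr {p : P} {x y z : BSet (RO P)} (h : Fo p (fSub 0 1) (vl [x, y]))
    (h' : Fo p (fSub 0 1) (vl [y, z])) : Fo p (fSub 0 1) (vl [x, z]) := by
  refine Fo.of fun G hG => ?_
  have h1 := h.tr G hG
  have h2 := h'.tr G hG
  simp only [sat_fSub, ev_apply, vl_zero, vl_one] at h1 h2 ⊢
  exact fun t ht => h2 t (h1 t ht)

private theorem sub_rfl {p : P} (x : BSet (RO P)) : Fo p (fSub 0 1) (vl [x, x]) := by
  refine Fo.of fun G hG => ?_
  simp only [sat_fSub, ev_apply, vl_zero, vl_one]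
  exact fun t ht => ht

private theorem eq_of_sub {p : P} {x y : BSet (RO P)} (h : Fo p (fSub 0 1) (vl [x, y]))
    (h' : Fo p (fSub 0 1) (vl [y, x])) : Fo p (.eq 0 1) (vl [x, y]) := by
  refine Fo.of fun G hG => ?_
  have h1 := h.tr G hG
  have h2 := h'.tr G hG
  simp only [sat_fSub, sat_eq, ev_apply, vl_zero, vl_one] at h1 h2 ⊢
  exact NG_ext G _ _ fun z => ⟨h1 z, h2 z⟩

/-- An element of a club is contained in an element of another club. -/
private theorem club_next {p : P} {κ lam C C' : BSet (RO P)}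
    (hC : Fo p (fClub 0 1 2) (vl [κ, lam, C])) (hC' : Fo p (fClub 0 1 2) (vl [κ, lam, C']))
    {y : BSet (RO P)} (hy : Fo p (.mem 0 1) (vl [y, C])) :
    ∃ z, Fo p (.mem 0 1) (vl [z, C']) ∧ Fo p (fSub 0 1) (vl [y, z]) := by
  have h1 : Fo p (ex (an (.mem 0 2) (fSub 1 0))) (vl [y, C']) := by
    refine Fo.of fun G hG => ?_
    have e1 := hC.tr G hG
    have e2 := hC'.tr G hG
    have e3 := hy.tr G hG
    simp only [sat_fClub, sat_mem, ev_apply, vl_zero, vl_one] at e1 e2 e3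
    obtain ⟨z, hz, hz'⟩ := e2.2.1 _ (e1.1 _ e3)
    rw [sat_ex]
    refine ⟨z, ?_⟩
    rw [sat_an, sat_mem, sat_fSub]
    exact ⟨hz, hz'⟩
  obtain ⟨z, hz⟩ := Fo.ex.1 h1
  obtain ⟨hz1, hz2⟩ := Fo.an.1 hz
  rw [cns_vl] at hz1 hz2
  exact ⟨z, Fo.cg hz1 fun G _ h => h, Fo.cg hz2 fun G _ h => by
    rw [sat_fSub] at h ⊢
    exact h⟩

theorem k_cld (hν : ℵ₀ ≤ ν) (D : TrD p0 (ck (Order.succ ν).ord) lam d C ν.ord L nm T w)
    {p : P} (hp : p ≤ p0) {Z : BSet (RO P)}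
    (hZ : Fo p (fClub 0 1 2) (vl [ck (Order.succ ν).ord, lam, Z])) :
    letI := preL p0 nm
    Cld ν {m : L | Fo p (.mem 0 1) (vl [nm m, Z])} := by
  let := preL p0 nm
  intro s hs hne hch hcard e he
  have h1 := k_lub hν D s hne hch hcard e he
  have : Nonempty s := hne.to_subtype
  have h2 := club_chain hν hZ (J := s) hcard (fun a : s => nm a.1) (fun j => hs j.2)
    (fun j j' => by
      have h3 : Fo p0 (fSub 0 1) (vl [nm j.1, nm j'.1]) ∨
          Fo p0 (fSub 0 1) (vl [nm j'.1, nm j.1]) := hch.total j.2 j'.2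
      exact h3.imp (Fo.mono hp) (Fo.mono hp))
  change Fo p (.mem 0 1) (vl [nm e, Z])
  refine Fo.of fun G hG => ?_
  have e1 := (h1.mono hp).tr G hG
  have e2 := h2.tr G hG
  simp only [sat_eq, sat_mem, ev_apply, vl_zero, vl_one] at e1 e2 ⊢
  rw [e1]
  exact e2

theorem k_cof (hν : ℵ₀ ≤ ν) (D : TrD p0 (ck (Order.succ ν).ord) lam d C ν.ord L nm T w)
    {p : P} (hp : p ≤ p0) {Z : BSet (RO P)}
    (hZ : Fo p (fClub 0 1 2) (vl [ck (Order.succ ν).ord, lam, Z])) (a : L) :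
    ∃ m, Fo p0 (fSub 0 1) (vl [nm a, nm m]) ∧ Fo p (.mem 0 1) (vl [nm m, Z]) := by
  have hCp := D.club.mono hp
  choose zf hz1 hz2 using fun y : {y : BSet (RO P) // Fo p (.mem 0 1) (vl [y, C])} =>
    club_next hCp hZ y.2
  choose yf hy1 hy2 using fun z : {z : BSet (RO P) // Fo p (.mem 0 1) (vl [z, Z])} =>
    club_next hZ hCp z.2
  obtain ⟨Y, hY0, hYs⟩ : ∃ Y : ℕ → {y : BSet (RO P) // Fo p (.mem 0 1) (vl [y, C])},
      (Y 0).1 = nm a ∧ ∀ n, Y (n + 1) = ⟨yf ⟨zf (Y n), hz1 (Y n)⟩, hy1 _⟩ :=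
    ⟨fun n => Nat.rec ⟨nm a, (D.inC a).mono hp⟩
      (fun _ y => ⟨yf ⟨zf y, hz1 y⟩, hy1 _⟩) n, rfl, fun _ => rfl⟩
  have hyz : ∀ n, Fo p (fSub 0 1) (vl [(Y n).1, zf (Y n)]) := fun n => hz2 (Y n)
  have hzy : ∀ n, Fo p (fSub 0 1) (vl [zf (Y n), (Y (n + 1)).1]) := fun n => by
    rw [hYs n]
    exact hy2 ⟨zf (Y n), hz1 (Y n)⟩
  have hYY : ∀ m n, m ≤ n → Fo p (fSub 0 1) (vl [(Y m).1, (Y n).1]) := by
    intro m n hmn
    induction n, hmn using Nat.le_induction with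
    | base => exact sub_rfl _
    | succ n _ ih => exact sub_tr ih (sub_tr (hyz n) (hzy n))
  have hZZ : ∀ m n, m ≤ n → Fo p (fSub 0 1) (vl [zf (Y m), zf (Y n)]) := by
    intro m n hmn
    induction n, hmn using Nat.le_induction with
    | base => exact sub_rfl _
    | succ n _ ih => exact sub_tr ih (sub_tr (hzy n) (hyz (n + 1)))
  have hJ : #(ULift.{u} ℕ) ≤ ν := by
    rw [Cardinal.mk_uLift, Cardinal.mk_nat, Cardinal.lift_aleph0]
    exact hν
  obtain ⟨u, hu⟩ : ∃ u, u = unJ fun n : ULift.{u} ℕ => (Y n.down).1 := ⟨_, rfl⟩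
  obtain ⟨u', hu'⟩ : ∃ u', u' = unJ fun n : ULift.{u} ℕ => zf (Y n.down) := ⟨_, rfl⟩
  have huC : Fo p (.mem 0 1) (vl [u, C]) := by
    rw [hu]
    refine club_chain hν hCp hJ _ (fun j => (Y j.down).2) fun j j' => ?_
    rcases le_total j.down j'.down with h | h
    · exact Or.inl (hYY _ _ h)
    · exact Or.inr (hYY _ _ h)
  have huZ : Fo p (.mem 0 1) (vl [u', Z]) := by
    rw [hu']
    refine club_chain hν hZ hJ _ (fun j => hz1 _) fun j j' => ?_
    rcases le_total j.down j'.down with h | h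
    · exact Or.inl (hZZ _ _ h)
    · exact Or.inr (hZZ _ _ h)
  have huu : Fo p (.eq 0 1) (vl [u, u']) := by
    refine eq_of_sub ?_ ?_
    · rw [hu]
      refine unJ_least _ fun j => sub_tr (hyz j.down) ?_
      rw [hu']
      exact unJ_sub (fun n : ULift.{u} ℕ => zf (Y n.down)) j p
    · rw [hu']
      refine unJ_least _ fun j => sub_tr (hzy j.down) ?_
      rw [hu]
      exact unJ_sub (fun n : ULift.{u} ℕ => (Y n.down).1) ⟨j.down + 1⟩ p
  have hau : Fo p (fSub 0 1) (vl [nm a, u]) := by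
    rw [← hY0, hu]
    exact unJ_sub (fun n : ULift.{u} ℕ => (Y n.down).1) ⟨0⟩ p
  have hex : Fo p0 (ex (an (.mem 0 1) (an (fSub 2 0) (.imp (an (.mem 3 1) (fSub 2 3))
      (.eq 0 3))))) (vl [C, nm a, u]) := by
    refine Fo.of fun G hG => ?_
    have e1 := (D.inC a).tr G hG
    rw [sat_mem] at e1
    rw [sat_ex]
    by_cases h : EG G (NG.mk G u) (NG.mk G C) ∧ Sub (EG G) (NG.mk G (nm a)) (NG.mk G u)
    · refine ⟨NG.mk G u, ?_⟩
      rw [sat_an, sat_an, sat_imp, sat_mem, sat_fSub, sat_eq]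
      exact ⟨h.1, h.2, fun _ => rfl⟩
    · refine ⟨NG.mk G (nm a), ?_⟩
      rw [sat_an, sat_an, sat_imp, sat_mem, sat_fSub, sat_eq, sat_an, sat_mem, sat_fSub]
      exact ⟨e1, fun _ h' => h', fun h' => absurd h' h⟩
  obtain ⟨t, ht⟩ := Fo.ex.1 hex
  rw [cns_vl] at ht
  obtain ⟨ht1, ht2⟩ := Fo.an.1 ht
  obtain ⟨m, hm⟩ := D.all t (Fo.cg ht1 fun G _ h => h)
  refine ⟨m, Fo.of fun G hG => ?_, Fo.of fun G hG => ?_⟩
  · have e1 := ht2.tr G hG
    have e2 := hm.tr G hG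
    rw [sat_an, sat_fSub] at e1
    rw [sat_eq] at e2
    rw [sat_fSub]
    have e3 : NG.mk G (nm m) = NG.mk G t := e2
    change Sub (EG G) (NG.mk G (nm a)) (NG.mk G (nm m))
    rw [e3]
    exact e1.1
  · have e1 := (ht2.mono hp).tr G hG
    have e2 := (hm.mono hp).tr G hG
    have e3 := huC.tr G hG
    have e4 := hau.tr G hG
    have e5 := huu.tr G hG
    have e6 := huZ.tr G hG
    rw [sat_an, sat_imp, sat_an, sat_fSub, sat_fSub, sat_mem, sat_eq] at e1
    rw [sat_eq] at e2 e5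
    rw [sat_mem] at e3 e6 ⊢
    rw [sat_fSub] at e4
    have f1 : NG.mk G (nm m) = NG.mk G t := e2
    have f2 : NG.mk G t = NG.mk G u := e1.2 ⟨e3, e4⟩
    have f3 : NG.mk G u = NG.mk G u' := e5
    change EG G (NG.mk G (nm m)) (NG.mk G Z)
    rw [f1, f2, f3]
    exact e6

theorem k_club (hν : ℵ₀ ≤ ν) (D : TrD p0 (ck (Order.succ ν).ord) lam d C ν.ord L nm T w)
    {p : P} (hp : p ≤ p0) {Z : BSet (RO P)}
    (hZ : Fo p (fClub 0 1 2) (vl [ck (Order.succ ν).ord, lam, Z])) :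
    letI := preL p0 nm
    Club ν {m : L | Fo p (.mem 0 1) (vl [nm m, Z])} := by
  letI := preL p0 nm
  exact ⟨fun a => by
    obtain ⟨m, h1, h2⟩ := k_cof hν D hp hZ a
    exact ⟨m, h2, h1⟩, k_cld hν D hp hZ⟩

end STP
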