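import Pool.Agent.STP.YBr

/-! # The strong tree property in the extension (package Y12)

(problem MP_e44aae_lc, project STP)

`κ := ck (succ ν).ord`. By `Fo.iff` it suffices that `pstar` forces `fSTP 0` (`vl [κ]`, all formulas by `sat_fSTP`). Unfold `fSTP` with `Fo.all` (names `lam`, `d`) and `Fo.imp` (four times, `Fo.mono`): `q ≤ pstar` forces `IsOrd lam`, `κ ⊆ lam`, `IsList κ lam d`, `IsThin κ lam d`; to show: `q` forces `∃ b, IsBr κ lam d b`.
`Fo.loc`: let `p0 ≤ q`. `p0` forces `IsThin`: by `Fo.ex` a name `C` such that `p0` forces `IsClub κ lam C ∧ ∀ y ∈ C, ∃ T, IsTrace κ lam d y T ∧ Sm T κ` (change between valuations with `Fo.iff` and `simp`: e.g. `Fo p φ v → Fo p ψ v'` whenever `sat (EG G) φ (ev G v) → sat (EG G) ψ (ev G v')` for all `G` with `up p ∈ G.s`).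
`small_names C p0`: `L`, `nm`. `L` is not empty: `p0` forces that `C` has an element (`fClub`, second clause, for the empty set: in `NG G` the set `ck 0` is in `P_κ(lam)`: it is empty (`ck_zero`), and `Sm (ck 0) κ` by `ck 0 ∈ κ` and the function `seqN 0 _`, `seqN_fun`), so `Fo.ex` gives a name and `small_names` an element of `L`.
For `m : L`: `p0` forces `nm m ∈ C`, so there is a name `T m` such that `p0` forces `IsTrace κ lam d (nm m) (T m)` and `Sm (T m) κ`. `T m` is not empty: in `NG G`, `up p0 ∈ G`: `nm m ∈ P_κ(lam)` (`fClub`), so `d` has a value `s` at `nm m` (`fList`), and `s ∩ nm m` (separation) is a trace. `enum_of_sm`, `Enum.inside`: `w m` with `Enum p0 (T m) ν.ord (w m)`, `Fo p0 (w m ξ ∈ T m)`.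
So `TrD p0 κ lam d C ν.ord L nm T w`; `exists_thr` gives `p ≤ p0` and a thread; `exists_br`: `Fo p (fBr 0 1 2 3) (vl [κ, lam, d, b])`, so `p` forces `∃ b, IsBr`. -/

universe u

namespace STP

open BSet Cardinal Fml

variable {P : Type u} [PartialOrder P]

/-- change of formula and valuation -/
theorem Fo.cg {p : P} {φ ψ : Fml} {v v' : ℕ → BSet (RO P)} (h : Fo p φ v)
    (h' : ∀ G : Ult (RO P), RO.up p ∈ G.s → sat (EG G) φ (ev G v) → sat (EG G) ψ (ev G v')) :
    Fo p ψ v' := Fo.of fun G hG => h' G hG (h.tr G hG)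

theorem strongTP_of {ν : Cardinal.{u}} (hν : ℵ₀ ≤ ν) {pstar : P}
    (h : Threads P ν.ord.ToType pstar) (G : Ult (RO P)) (hG : RO.up pstar ∈ G.s) :
    StrongTP (EG G) (NG.mk G (ck (Order.succ ν).ord)) := by
  have main : Fo pstar (fSTP 0) (vl [ck (Order.succ ν).ord]) := by
    unfold fSTP
    rw [Fo.all]
    intro lam
    rw [Fo.all]
    intro d
    rw [cns_vl, cns_vl, Fo.imp]
    intro q1 hq1 _
    rw [Fo.imp]
    intro q2 hq2 _
    rw [Fo.imp]
    intro q3 hq3 hList
    rw [Fo.imp]
    intro q4 hq4 hThin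
    refine Fo.loc fun p0 hp0 => ?_
    have hps : p0 ≤ pstar := hp0.trans (hq4.trans (hq3.trans (hq2.trans hq1)))
    -- the data at `p0`
    have hlist : Fo p0 (fList 0 1 2) (vl [ck (Order.succ ν).ord, lam, d]) :=
      Fo.cg (hList.mono (hp0.trans hq4)) fun G _ h1 => by simpa using h1
    have hthin := hThin.mono hp0
    unfold fThin at hthin
    rw [Fo.ex] at hthin
    obtain ⟨C, hC⟩ := hthin
    rw [cns_vl, Fo.an] at hC
    obtain ⟨hC1, hC2⟩ := hC
    have hclub : Fo p0 (fClub 0 1 2) (vl [ck (Order.succ ν).ord, lam, C]) :=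
      Fo.cg hC1 fun G _ h1 => by simpa using h1
    obtain ⟨L, nm, hin, hall⟩ := small_names C p0
    -- `L` is not empty
    have hL : Nonempty L := by
      have h1 : Fo p0 (ex (.mem 0 1)) (vl [C]) := by
        refine Fo.of fun G hG => ?_
        have h2 : IsClub (EG G) (NG.mk G (ck (Order.succ ν).ord)) (NG.mk G lam)
            (NG.mk G C) := by simpa using hclub.tr G hG
        have h3 : IsP (EG G) (NG.mk G (ck (Order.succ ν).ord)) (NG.mk G lam)
            (NG.mk G (ck 0)) := by
          refine ⟨fun z hz => absurd hz (ck_zero G z), NG.mk G (ck 0), ?_,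
            NG.mk G (seqN 0 fun _ => ck 0), seqN_fun 0 _ G,
            fun y hy => absurd hy (ck_zero G y)⟩
          rw [ck_mem_iff]
          have h4 : (0 : Ordinal.{u}) < ν.ord := by
            refine lt_of_lt_of_le Ordinal.omega0_pos ?_
            rw [← ord_aleph0]
            exact ord_le_ord.2 hν
          exact h4.trans (ord_lt_ord.2 (Order.lt_succ ν))
        obtain ⟨y, hy, -⟩ := h2.2.1 _ h3
        rw [sat_ex]
        exact ⟨y, hy⟩
      rw [Fo.ex] at h1
      obtain ⟨y, hy⟩ := h1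
      rw [cns_vl] at hy
      exact ⟨(hall y hy).choose⟩
    -- the traces
    have hT : ∀ m : L, ∃ Tm : BSet (RO P),
        Fo p0 (fTrace 0 1 2 3 4) (vl [ck (Order.succ ν).ord, lam, d, nm m, Tm]) ∧
        Fo p0 (fSm 0 1) (vl [Tm, ck (Order.succ ν).ord]) := by
      intro m
      have h1 := (Fo.all.1 hC2) (nm m)
      rw [cns_vl, Fo.imp] at h1
      have h2 := h1 p0 le_rfl (Fo.cg (hin m) fun G _ h1 => by simpa using h1)
      rw [Fo.ex] at h2
      obtain ⟨Tm, hTm⟩ := h2
      rw [cns_vl, Fo.an] at hTm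
      exact ⟨Tm, Fo.cg hTm.1 fun G _ h1 => by simpa using h1,
        Fo.cg hTm.2 fun G _ h1 => by simpa using h1⟩
    choose T hT1 hT2 using hT
    have hw : ∀ m : L, ∃ w' : Ordinal.{u} → BSet (RO P), Enum p0 (T m) ν.ord w' ∧
        ∀ ξ, Fo p0 (.mem 0 1) (vl [w' ξ, T m]) := by
      intro m
      obtain ⟨w0, hw0⟩ := enum_of_sm hν (hT2 m)
      refine hw0.inside ?_
      refine Fo.of fun G hG => ?_
      have h1 : IsClub (EG G) (NG.mk G (ck (Order.succ ν).ord)) (NG.mk G lam)
            (NG.mk G C) := by simpa using hclub.tr G hG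
      have h2 : EG G (NG.mk G (nm m)) (NG.mk G C) := by simpa using (hin m).tr G hG
      have h3 := h1.1 _ h2
      have h4 : IsList (EG G) (NG.mk G (ck (Order.succ ν).ord)) (NG.mk G lam)
            (NG.mk G d) := by simpa using hlist.tr G hG
      obtain ⟨t, ht⟩ := h4.2.1 _ h3
      have h5 := h4.2.2.2 _ _ ht
      have h6 : IsTrace (EG G) (NG.mk G (ck (Order.succ ν).ord)) (NG.mk G lam)
            (NG.mk G d) (NG.mk G (nm m)) (NG.mk G (T m)) := by simpa using (hT1 m).tr G hG
      rw [sat_ex]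
      refine ⟨t, (h6 t).2 ⟨NG.mk G (nm m), t, h3, fun z hz => hz, ht, fun z => ?_⟩⟩
      exact ⟨fun hz => ⟨hz, h5 z hz⟩, fun hz => hz.1⟩
    choose w hw1 hw2 using hw
    have D : TrD p0 (ck (Order.succ ν).ord) lam d C ν.ord L nm T w :=
      { list := hlist
        club := hclub
        inC := hin
        all := hall
        tr := hT1
        inT := hw2
        enu := hw1 }
    obtain ⟨hdir, p, hp, th, hmono, htot, hcoh⟩ := exists_thr hν h hps D
    obtain ⟨b, hb⟩ := exists_br D hL hdir hp hmono htot hcoh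
    refine ⟨p, hp, ?_⟩
    rw [Fo.ex]
    refine ⟨b, ?_⟩
    rw [cns_vl]
    exact Fo.cg hb fun G _ h1 => by simpa using h1
  exact sat_fSTP.1 (main.tr G hG)

end STP
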