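import Pool.Agent.STP.YUni
import Pool.Agent.STP.YSTP

/-! # The data of the system of traces, with top nodes (package K02)

(problem MP_e44aae_lc, project STP, ITP, bridge)

`κ = ck (succ ν).ord`. `TrI` is `TrD` together with: `w m 0` is the value of the list `d` at `nm m`.

* `Enum.zero`: let `w'' η := t` if `η = 0` and `w'' η := w (η - 1)` otherwise (ordinal subtraction; `1 + ξ - 1 = ξ`, `1 + ξ ≠ 0`, and `1 + ξ < ν.ord` for `ξ < ν.ord`, because `ν.ord` is a limit ordinal: if `ξ` is infinite `1 + ξ = ξ`, if `ξ` is finite it is finite; `Ordinal.one_add_of_omega0_le`). If `q ≤ p` forces `y ∈ x` then some `r ≤ q` and `ξ < ν.ord` with `Fo r (y = w ξ)`; take `1 + ξ`.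
* `exists_TrI`: as in the proof of `strongTP_of` (file YSTP): `small_names C p0`: `L`, `nm`; `L` is not empty. For `m : L`: a name `T m` with `IsTrace κ lam d (nm m) (T m)`, `Sm (T m) κ`; a name `t m` such that `p0` forces `Val d (nm m) (t m)` (`nm m ∈ P_κ(lam)`; `fList`); `t m ∈ T m` is forced: `t m = t m ∩ nm m` since `t m ⊆ nm m` (`fList`, last clause), `x := nm m`. `enum_of_sm`, `Enum.inside`, `Enum.zero` (all values of
  the new `w m` are forced to be in `T m`). -/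

universe u

namespace STP

open BSet Cardinal Fml

variable {P : Type u} [PartialOrder P]

/-- the data of the system of traces with top nodes -/
structure TrI (p0 : P) (κ lam d C : BSet (RO P)) (o : Ordinal.{u}) (L : Type u)
    (nm T : L → BSet (RO P)) (w : L → Ordinal.{u} → BSet (RO P)) : Prop
    extends TrD p0 κ lam d C o L nm T w where
  top : ∀ m, Fo p0 (fVal 0 1 2) (vl [d, nm m, w m 0])

theorem Enum.zero {ν : Cardinal.{u}} (hν : ℵ₀ ≤ ν) {p : P} {x t : BSet (RO P)}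
    {w : Ordinal.{u} → BSet (RO P)} (h : Enum p x ν.ord w)
    (hw : ∀ ξ, Fo p (.mem 0 1) (vl [w ξ, x])) (ht : Fo p (.mem 0 1) (vl [t, x])) :
    ∃ w' : Ordinal.{u} → BSet (RO P), Enum p x ν.ord w' ∧
      (∀ ξ, Fo p (.mem 0 1) (vl [w' ξ, x])) ∧ w' 0 = t := by
  classical
  have hin : ∀ ξ, Fo p (.mem 0 1)
      (vl [(fun η : Ordinal.{u} => if η = 0 then t else w (η - 1)) ξ, x]) := by
    intro ξ
    by_cases hξ : ξ = 0
    · simpa only [if_pos hξ] using ht
    · simpa only [if_neg hξ] using hw (ξ - 1)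
  refine ⟨fun η => if η = 0 then t else w (η - 1), fun q hq y hy => ?_, hin, if_pos rfl⟩
  obtain ⟨r, hr, ξ, hξ, h1⟩ := h q hq y hy
  have h2 : (1 : Ordinal.{u}) < ν.ord := by
    refine lt_of_lt_of_le Ordinal.one_lt_omega0 ?_
    rw [← ord_aleph0]
    exact ord_le_ord.2 hν
  have h3 : 1 + ξ < ν.ord := Ordinal.isPrincipal_add_ord hν h2 hξ
  have h4 : (1 + ξ : Ordinal.{u}) ≠ 0 := by
    intro h5
    have h6 : (1 : Ordinal.{u}) ≤ 1 + ξ := le_add_right le_rfl
    rw [h5] at h6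
    exact absurd h6 (not_le.2 zero_lt_one)
  refine ⟨r, hr, 1 + ξ, h3, ?_⟩
  simp only [if_neg h4, Ordinal.add_sub_cancel]
  exact h1

theorem exists_TrI {ν : Cardinal.{u}} (hν : ℵ₀ ≤ ν) {p0 : P} {lam d C : BSet (RO P)}
    (hl : Fo p0 (fList 0 1 2) (vl [ck (Order.succ ν).ord, lam, d]))
    (hC : Fo p0 (fClub 0 1 2) (vl [ck (Order.succ ν).ord, lam, C]))
    (hT : Fo p0 (fBall 3 (ex (an (fTrace 2 3 4 1 0) (fSm 0 2))))
      (vl [ck (Order.succ ν).ord, lam, d, C])) :
    ∃ (L : Type u) (nm T : L → BSet (RO P)) (w : L → Ordinal.{u} → BSet (RO P)),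
      Nonempty L ∧ TrI p0 (ck (Order.succ ν).ord) lam d C ν.ord L nm T w := by
  obtain ⟨L, nm, hin, hall⟩ := small_names C p0
  -- `L` is not empty
  have hL : Nonempty L := by
    have h1 : Fo p0 (ex (.mem 0 1)) (vl [C]) := by
      refine Fo.of fun G hG => ?_
      have h2 : IsClub (EG G) (NG.mk G (ck (Order.succ ν).ord)) (NG.mk G lam)
          (NG.mk G C) := by simpa using hC.tr G hG
      have h3 : IsP (EG G) (NG.mk G (ck (Order.succ ν).ord)) (NG.mk G lam)
          (NG.mk G (ck 0)) := by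
        refine ⟨fun z hz => absurd hz (ck_zero G z), NG.mk G (ck 0), ?_,
          NG.mk G (seqN 0 fun _ => ck 0), seqN_fun 0 _ G,
          fun y hy => absurd hy (ck_zero G y)⟩
        rw [ck_mem_iff]
        have h4 : (0 : Ordinal.{u}) < ν.ord := by
          refine lt_of_lt_of_le Ordinal.omega0_pos ?_
          rw [← ord_aleph0]
          exact ord_le_ord.2 hν
        exact h4.trans (ord_lt_ord.2 (Order.lt_succ ν))
      obtain ⟨y, hy, -⟩ := h2.2.1 _ h3
      rw [sat_ex]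
      exact ⟨y, hy⟩
    rw [Fo.ex] at h1
    obtain ⟨y, hy⟩ := h1
    rw [cns_vl] at hy
    exact ⟨(hall y hy).choose⟩
  -- the traces
  have hTr : ∀ m : L, ∃ Tm : BSet (RO P),
      Fo p0 (fTrace 0 1 2 3 4) (vl [ck (Order.succ ν).ord, lam, d, nm m, Tm]) ∧
      Fo p0 (fSm 0 1) (vl [Tm, ck (Order.succ ν).ord]) := by
    intro m
    have h1 := (Fo.all.1 hT) (nm m)
    rw [cns_vl, Fo.imp] at h1
    have h2 := h1 p0 le_rfl (Fo.cg (hin m) fun G _ h1 => by simpa using h1)
    rw [Fo.ex] at h2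
    obtain ⟨Tm, hTm⟩ := h2
    rw [cns_vl, Fo.an] at hTm
    exact ⟨Tm, Fo.cg hTm.1 fun G _ h1 => by simpa using h1,
      Fo.cg hTm.2 fun G _ h1 => by simpa using h1⟩
  choose T hT1 hT2 using hTr
  have hP : ∀ (m : L) (G : Ult (RO P)), RO.up p0 ∈ G.s →
      IsP (EG G) (NG.mk G (ck (Order.succ ν).ord)) (NG.mk G lam) (NG.mk G (nm m)) := by
    intro m G hG
    have h1 : IsClub (EG G) (NG.mk G (ck (Order.succ ν).ord)) (NG.mk G lam)
          (NG.mk G C) := by simpa using hC.tr G hG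
    have h2 : EG G (NG.mk G (nm m)) (NG.mk G C) := by simpa using (hin m).tr G hG
    exact h1.1 _ h2
  have hLi : ∀ G : Ult (RO P), RO.up p0 ∈ G.s →
      IsList (EG G) (NG.mk G (ck (Order.succ ν).ord)) (NG.mk G lam) (NG.mk G d) := by
    intro G hG
    simpa using hl.tr G hG
  -- the top nodes
  have ht : ∀ m : L, ∃ t : BSet (RO P), Fo p0 (fVal 0 1 2) (vl [d, nm m, t]) := by
    intro m
    have h1 : Fo p0 (ex (fVal 1 2 0)) (vl [d, nm m]) := by
      refine Fo.of fun G hG => ?_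
      obtain ⟨t, ht⟩ := (hLi G hG).2.1 _ (hP m G hG)
      exact sat_ex.2 ⟨t, sat_fVal.2 ht⟩
    obtain ⟨t, ht⟩ := Fo.ex.1 h1
    exact ⟨t, Fo.cg ht fun G _ h2 => by simpa using h2⟩
  choose t ht using ht
  have htT : ∀ m : L, Fo p0 (.mem 0 1) (vl [t m, T m]) := by
    intro m
    refine Fo.of fun G hG => ?_
    have h1 : Val (EG G) (NG.mk G d) (NG.mk G (nm m)) (NG.mk G (t m)) := by
      simpa using (ht m).tr G hG
    have h5 := (hLi G hG).2.2.2 _ _ h1
    have h6 : IsTrace (EG G) (NG.mk G (ck (Order.succ ν).ord)) (NG.mk G lam)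
          (NG.mk G d) (NG.mk G (nm m)) (NG.mk G (T m)) := by simpa using (hT1 m).tr G hG
    have h7 : EG G (NG.mk G (t m)) (NG.mk G (T m)) :=
      (h6 _).2 ⟨NG.mk G (nm m), _, hP m G hG, fun z hz => hz, h1,
        fun z => ⟨fun hz => ⟨hz, h5 z hz⟩, fun hz => hz.1⟩⟩
    simpa using h7
  have hw : ∀ m : L, ∃ w' : Ordinal.{u} → BSet (RO P), Enum p0 (T m) ν.ord w' ∧
      (∀ ξ, Fo p0 (.mem 0 1) (vl [w' ξ, T m])) ∧ w' 0 = t m := by
    intro m
    obtain ⟨w0, hw0⟩ := enum_of_sm hν (hT2 m)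
    have h1 : Fo p0 (ex (.mem 0 1)) (vl [T m]) := by
      rw [Fo.ex]
      refine ⟨t m, ?_⟩
      rw [cns_vl]
      exact htT m
    obtain ⟨w1, hw1, hw2⟩ := hw0.inside h1
    exact hw1.zero hν hw2 (htT m)
  choose w hw1 hw2 hw3 using hw
  refine ⟨L, nm, T, w, hL, ?_⟩
  exact
    { list := hl
      club := hC
      inC := hin
      all := hall
      tr := hT1
      inT := hw2
      enu := hw1
      top := fun m => by rw [hw3 m]; exact ht m }

end STP
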