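import Pool.Agent.STP.YMat

/-! # Alephs (package Y06)

(problem MP_e44aae_lc, project STP)

* `isAl_of`: `F := seqN o w`, a function with domain `ck o` (`seqN_fun`). The three clauses of `IsAl` are forced by `p`; they are bounded quantifiers over `ck o` and `ck c` (`Fo.ball`, then `Fo.all`, `Fo.imp`; `Fo.iff` to pass to `G`). (1) for `x ∈ ck o` (`x = ck i`), every `y` with `Val F x y` is `w i` (`seqN_val`, the third part of `seqN_fun`), so `y ∈ ck c`, `IsIC y` by `h1`.
  (Every `x` with `Val F x y` is in `ck o`: `seqN_fun`, first part, and `IsOP.inj` with `NG_zfc`.) (2) for `d ∈ ck c`, `d = ck α`: `Fo q (fIC 0)` implies, by `Fo.loc` and `h2`, `∃ i, Val F i d`. (3) for `i, j ∈ ck o`, `i = ck i'`, `j = ck j'`: if `i ∈ j` then `i' < j'` (`ck_mem_iff`), and `w i' ∈ w j'` by `h3`. `IsOrd (ck o)`: `ck_ord`.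
* `isIC_nu`: `isIC_sup` with `BF.seq` (for `c < ν` take `k i`) and `isRC_of_bdd`. `isIC_succ`: `isRC_of_bdd` with `BF.bddS` (`ℵ₀ ≤ succ ν`).
* `isAl_nu`: `al_names` and `isAl_of` with `o := γ.ord`, `c := ν.ord`, `p := pstar`. (`h1` from the first clause by `Fo.loc`: `q` with `w i = ck α ∈ ck ν.ord`.)
* `isAl_succ`: `o := succ γ.ord`, `c := (succ ν).ord`, `w' i := w i` for `i < γ.ord` and `w' γ.ord := ck ν.ord`. `h1`: `ck ν.ord ⊆ ck (succ ν).ord`, `ν.ord < (succ ν).ord`; `IsIC` by `isIC_nu`. `h2`: `α < (succ ν).ord`. If `α < ν.ord`: second clause of `al_names`. If `α = ν.ord`: `i := γ.ord`. If `ν.ord < α`: `α.card = ν`, so `α ≠ α.card.ord` and `not_cd_ne` contradicts `Fo q (fIC 0)` (some `G` contains `up q`).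
  `h3`: `i < j = γ.ord`: `w i ∈ ck ν.ord`. -/

universe u

namespace STP

open BSet Cardinal

variable {P : Type u} [PartialOrder P]

/-- a value of the function `seqN o w` -/
private theorem val_seqN {o : Ordinal.{u}} {w : Ordinal.{u} → BSet (RO P)} {G : Ult (RO P)}
    {a : Ordinal.{u}} (ha : a < o) {x : NG G}
    (h : Val (EG G) (NG.mk G (seqN o w)) (NG.mk G (ck a)) x) : x = NG.mk G (w a) :=
  (seqN_fun o w G).2.2 _ _ _ h (seqN_val o w ha G)

/-- the arguments of `seqN o w` are in `ck o` -/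
private theorem dom_seqN {o : Ordinal.{u}} {w : Ordinal.{u} → BSet (RO P)} {G : Ult (RO P)}
    {i x : NG G} (h : Val (EG G) (NG.mk G (seqN o w)) i x) : EG G i (NG.mk G (ck o)) := by
  obtain ⟨z, hz, hz'⟩ := h
  obtain ⟨x', y', hx', hop⟩ := (seqN_fun o w G).1 z hz
  have h1 := (IsOP.inj (NG_zfc G) hz' hop).1
  rw [h1]
  exact hx'

theorem isAl_of {o c : Ordinal.{u}} {p : P} (w : Ordinal.{u} → BSet (RO P))
    (hc : Fo p (fIC 0) (vl [ck c]))
    (h1 : ∀ i < o, Fo p (.mem 0 1) (vl [w i, ck c]) ∧ Fo p (fIC 0) (vl [w i]))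
    (h2 : ∀ α < c, ∀ q ≤ p, Fo q (fIC 0) (vl [ck α]) →
      ∃ r ≤ q, ∃ i < o, Fo r (.eq 0 1) (vl [w i, ck α]))
    (h3 : ∀ i j, i < j → j < o → Fo p (.mem 0 1) (vl [w i, w j]))
    (G : Ult (RO P)) (hG : RO.up p ∈ G.s) :
    IsAl (EG G) (NG.mk G (ck c)) (NG.mk G (ck o)) := by
  have c1 : Fo p (fBall 1 (.all (.imp (fVal 2 1 0) (.an (.mem 0 4) (fIC 0)))))
      (vl [seqN o w, ck o, ck c]) := by
    refine (Fo.ball (o := o) rfl).2 fun a ha => Fo.of fun G' hG' => ?_
    intro x hx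
    have hx' : x = NG.mk G' (w a) := val_seqN ha (by simpa using hx)
    have e1 := (h1 a ha).1.tr G' hG'
    have e2 := (h1 a ha).2.tr G' hG'
    simp only [sat_mem, sat_fIC, ev_apply] at e1 e2
    simp only [sat_an, sat_mem, sat_fIC]
    rw [hx']
    exact ⟨e1, e2⟩
  have c2 : Fo p (fBall 1 (.imp (fIC 0) (.ex (fVal 2 0 1)))) (vl [seqN o w, ck c]) := by
    refine (Fo.ball (o := c) rfl).2 fun α hα => Fo.imp.2 fun q hq hic => ?_
    refine Fo.loc fun q' hq' => ?_
    have hic' : Fo q' (fIC 0) (vl [ck α]) := by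
      refine Fo.of fun G' hG' => ?_
      have e := (hic.mono hq').tr G' hG'
      simpa using e
    obtain ⟨r, hr, i, hi, hri⟩ := h2 α hα q' (hq'.trans hq) hic'
    refine ⟨r, hr, Fo.of fun G' hG' => ?_⟩
    have e := hri.tr G' hG'
    simp only [sat_eq, ev_apply] at e
    have hv := seqN_val o w hi G'
    simp only [sat_ex, sat_fVal]
    refine ⟨NG.mk G' (ck i), ?_⟩
    have e' : NG.mk G' (w i) = NG.mk G' (ck α) := e
    rw [e'] at hv
    exact hv
  have c3 : Fo p (fBall 1 (fBall 2 (.all (.all (.imp (fVal 4 3 1) (.imp (fVal 4 2 0)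
      (.imp (.mem 3 2) (.mem 1 0)))))))) (vl [seqN o w, ck o]) := by
    refine (Fo.ball (o := o) rfl).2 fun a ha => (Fo.ball (o := o) rfl).2 fun b hb =>
      Fo.of fun G' hG' => ?_
    intro x y hx hy hab
    have hx' : x = NG.mk G' (w a) := val_seqN ha (by simpa using hx)
    have hy' : y = NG.mk G' (w b) := val_seqN hb (by simpa using hy)
    have hab' : EG G' (NG.mk G' (ck a)) (NG.mk G' (ck b)) := hab
    have e := (h3 a b ((ck_mem_iff G').1 hab') hb).tr G' hG'
    have e' : EG G' (NG.mk G' (w a)) (NG.mk G' (w b)) := e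
    rw [← hx', ← hy'] at e'
    exact e'
  have s0 : IsIC (EG G) (NG.mk G (ck c)) := by simpa using hc.tr G hG
  have s1 := c1.tr G hG
  have s2 := c2.tr G hG
  have s3 := c3.tr G hG
  refine ⟨s0, ck_ord G o, NG.mk G (seqN o w), seqN_fun o w G, ?_, ?_, ?_⟩
  · intro i x hv
    have := sat_fBall.1 s1 i (dom_seqN hv) x
    simpa using this (by simpa using hv)
  · intro d hd hic
    have := sat_fBall.1 s2 d hd
    simpa using this (by simpa using hic)
  · intro i j x y hi hj hij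
    have := sat_fBall.1 (sat_fBall.1 s3 i (dom_seqN hi)) j (dom_seqN hj) x y
    exact this (by simpa using hi) (by simpa using hj) hij

theorem isIC_nu {pstar : P} {γ ν : Cardinal.{u}} (h : BF0 P pstar γ ν) (G : Ult (RO P)) :
    IsIC (EG G) (NG.mk G (ck ν.ord)) := by
  obtain ⟨k, -, hk2, hk3, hk4, hk5⟩ := h.seq
  refine isIC_sup (h.inf.trans h.lt.le) (fun c hc => ?_) G
  obtain ⟨i, hi⟩ := hk4 c hc
  exact ⟨k i, hi, (hk3 i).le, fun G' => isRC_of_bdd (hk2 i) (hk5 i) G'⟩

theorem isIC_succ {pstar : P} {γ ν : Cardinal.{u}} (h : BF0 P pstar γ ν) (G : Ult (RO P)) :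
    IsIC (EG G) (NG.mk G (ck (Order.succ ν).ord)) :=
  (isRC_of_bdd ((h.inf.trans h.lt.le).trans (Order.le_succ ν)) h.bddS G).1

/-- the values of the names of `al_names` -/
private theorem al_h1 {pstar : P} {γ ν : Cardinal.{u}} {w : Ordinal.{u} → BSet (RO P)}
    (hw : ∀ i < γ.ord, ∀ p ≤ pstar, ∃ q ≤ p, ∃ α < ν.ord,
        Fo q (.eq 0 1) (vl [w i, ck α]) ∧ Fo q (fIC 0) (vl [ck α]))
    {i : Ordinal.{u}} (hi : i < γ.ord) :
    Fo pstar (.mem 0 1) (vl [w i, ck ν.ord]) ∧ Fo pstar (fIC 0) (vl [w i]) := by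
  constructor
  · refine Fo.loc fun p hp => ?_
    obtain ⟨q, hq, α, hα, h1, -⟩ := hw i hi p hp
    refine ⟨q, hq, Fo.of fun G hG => ?_⟩
    have e : NG.mk G (w i) = NG.mk G (ck α) := h1.tr G hG
    have : EG G (NG.mk G (w i)) (NG.mk G (ck ν.ord)) := by
      rw [e]
      exact (ck_mem_iff G).2 hα
    exact this
  · refine Fo.loc fun p hp => ?_
    obtain ⟨q, hq, α, hα, h1, h2⟩ := hw i hi p hp
    refine ⟨q, hq, Fo.of fun G hG => ?_⟩
    have e : NG.mk G (w i) = NG.mk G (ck α) := h1.tr G hG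
    have e2 : IsIC (EG G) (NG.mk G (ck α)) := by simpa using h2.tr G hG
    rw [← e] at e2
    simpa using e2

theorem isAl_nu {pstar : P} {γ ν : Cardinal.{u}} (h : BF0 P pstar γ ν) (G : Ult (RO P))
    (hG : RO.up pstar ∈ G.s) :
    IsAl (EG G) (NG.mk G (ck ν.ord)) (NG.mk G (ck γ.ord)) := by
  obtain ⟨w, hw1, hw2, hw3⟩ := al_names h
  refine isAl_of w (Fo.of fun G' _ => ?_) (fun i hi => al_h1 hw1 hi) hw2 hw3 G hG
  simpa using isIC_nu h G'

theorem isAl_succ {pstar : P} {γ ν : Cardinal.{u}} (h : BF0 P pstar γ ν) (G : Ult (RO P))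
    (hG : RO.up pstar ∈ G.s) :
    IsAl (EG G) (NG.mk G (ck (Order.succ ν).ord)) (NG.mk G (ck (Order.succ γ.ord))) := by
  classical
  obtain ⟨w, hw1, hw2, hw3⟩ := al_names h
  have hlt : ν.ord < (Order.succ ν).ord := Cardinal.ord_lt_ord.2 (Order.lt_succ ν)
  refine isAl_of (fun i => if i < γ.ord then w i else ck ν.ord) (Fo.of fun G' _ => ?_) ?_ ?_ ?_
    G hG
  · simpa using isIC_succ h G'
  · intro i hi
    by_cases hi' : i < γ.ord
    · have e := al_h1 hw1 hi'
      simp only [hi', if_true]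
      refine ⟨Fo.of fun G' hG' => ?_, e.2⟩
      have e1 : EG G' (NG.mk G' (w i)) (NG.mk G' (ck ν.ord)) := e.1.tr G' hG'
      exact ck_sub G' hlt.le _ e1
    · simp only [hi', if_false]
      refine ⟨Fo.of fun G' _ => ?_, Fo.of fun G' _ => ?_⟩
      · have : EG G' (NG.mk G' (ck ν.ord)) (NG.mk G' (ck (Order.succ ν).ord)) :=
          (ck_mem_iff G').2 hlt
        exact this
      · simpa using isIC_nu h G'
  · intro α hα q hq hic
    rcases lt_trichotomy α ν.ord with h1 | h1 | h1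
    · obtain ⟨r, hr, i, hi, hri⟩ := hw2 α h1 q hq hic
      refine ⟨r, hr, i, hi.trans (Order.lt_succ _), ?_⟩
      simp only [hi, if_true]
      exact hri
    · refine ⟨q, le_rfl, γ.ord, Order.lt_succ _, Fo.of fun G' _ => ?_⟩
      simp [h1]
    · exfalso
      have h2 : α.card = ν := by
        refine le_antisymm ?_ (Cardinal.ord_le.1 h1.le)
        exact Order.lt_succ_iff.1 (Cardinal.lt_ord.1 hα)
      have h3 : α ≠ α.card.ord := by
        rw [h2]
        exact h1.ne'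
      have hne : RO.up q ≠ ⊥ := by
        intro h4
        have := RO.self_mem_up q
        rw [h4] at this
        exact this
      obtain ⟨G', hG'⟩ := Ult.exists_mem hne
      have e : IsIC (EG G') (NG.mk G' (ck α)) := by simpa using hic.tr G' hG'
      exact not_cd_ne h3 G' e.1
  · intro i j hij hj
    have hi : i < γ.ord := lt_of_lt_of_le hij (Order.lt_succ_iff.1 hj)
    by_cases hj' : j < γ.ord
    · simp only [hi, hj', if_true]
      exact hw3 i j hij hj'
    · simp only [hi, hj', if_true, if_false]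
      exact (al_h1 hw1 hi).1

end STP
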