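import Pool.Agent.STP.KClub
import Pool.Agent.STP.FLangI

/-! # ITP and the strong tree property from ineffable threads (package K06)

(problem MP_e44aae_lc, project STP, ITP, bridge; assembly)

`κ = ck (succ ν).ord`.
* `k_ineff`: `b` from `br_int` (file YBr; `D.toTrD`): `Fo p (b ⊆ lam)` and `Fo q (w m ξ = b ∩ nm m)` if `q ≤ p`, `th q m ξ`. To show: for every name `Z` and `q ≤ p` forcing that `Z` is a club (formula `fClub`; `Fo.all`, `Fo.imp`), `q` forces `∃ x t, x ∈ Z ∧ (x, t) ∈ d ∧ t = b ∩ x`. `Fo.loc`: let `p' ≤ q`. By `k_club` (at `p'`) and `hin` there are `r ≤ p'` and `m` with `Fo p' (nm m ∈ Z)`, `th r m 0`. So `r` forces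
  `nm m ∈ Z`, `(nm m, w m 0) ∈ d` (`TrI.top`), `w m 0 = b ∩ nm m`. (`Fo.of`/`Fo.cg` and `simp` to assemble; `fIneff 0 1 2 3` by `sat_fIneff`.)
* `itp_of`: as `strongTP_of` (file YSTP) for both formulas `fSTP 0` and `fITP 0`: it suffices that `pstar` forces them (`Fo.iff`, `sat_fSTP`, `sat_fITP`); with `Fo.all`, `Fo.imp`, `Fo.loc` reduce to: names `lam`, `d`, `p0 ≤ pstar` forcing `IsOrd lam`, `κ ⊆ lam`, `IsList`, `IsThin`; find `p ≤ p0` with `Fo p (∃ b, IsBr)` and `p' ≤ p0` with `Fo p' (∃ b, IsIneff)` (the same `p` for both). `Fo.ex` for `IsThin` gives a name `C`; `exists_TrI`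
  gives `L, nm, T, w`; `exists_thrI` gives `p ≤ p0` and `th`; `exists_br` (with `D.toTrD`) and `k_ineff`. -/

universe u

namespace STP

open BSet Cardinal Fml

variable {P : Type u} [PartialOrder P] {ν : Cardinal.{u}} {p0 : P} {lam d C : BSet (RO P)}
  {L : Type u} {nm T : L → BSet (RO P)} {w : L → Ordinal.{u} → BSet (RO P)}

theorem k_ineff (hν : ℵ₀ ≤ ν) (D : TrI p0 (ck (Order.succ ν).ord) lam d C ν.ord L nm T w)
    (hdir : ∀ a b : L, ∃ c : L, Fo p0 (fSub 0 1) (vl [nm a, nm c]) ∧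
      Fo p0 (fSub 0 1) (vl [nm b, nm c])) {p : P} (hp : p ≤ p0)
    {th : P → L → Ordinal.{u} → Prop} (hmono : ∀ q r a ξ, r ≤ q → th q a ξ → th r a ξ)
    (htot : ∀ a, ∀ q ≤ p, ∃ r ≤ q, ∃ ξ, th r a ξ)
    (hcoh : ∀ q a b ξ ζ, q ≤ p → Fo p0 (fSub 0 1) (vl [nm a, nm b]) → th q a ξ → th q b ζ →
      trR nm w q a b ξ ζ)
    (hin : letI := preL p0 nm
      ∀ A : Set L, Club ν A → ∀ p' ≤ p, ∃ q ≤ p', ∃ a ∈ A, th q a 0) :
    ∃ b : BSet (RO P), Fo p (fIneff 0 1 2 3) (vl [ck (Order.succ ν).ord, lam, d, b]) := by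
  obtain ⟨b, hb1, hb2⟩ := br_int D.toTrD hdir hp hmono htot hcoh
  refine ⟨b, Fo.an.2 ⟨?_, Fo.all.2 fun Z => Fo.imp.2 fun q hq hZ => Fo.loc fun p' hp' => ?_⟩⟩
  · refine Fo.of fun G hG => ?_
    have e1 := hb1.tr G hG
    simp only [sat_fSub, ev_apply] at e1 ⊢
    exact e1
  · have hpp : p' ≤ p := hp'.trans hq
    have hZ' : Fo p' (fClub 0 1 2) (vl [ck (Order.succ ν).ord, lam, Z]) :=
      Fo.cg (hZ.mono hp') fun G _ h1 => by simpa using h1
    obtain ⟨r, hr, m, hm, hth⟩ := hin _ (k_club hν D.toTrD (hpp.trans hp) hZ') p' hpp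
    have h4 := hb2 m 0 r (hr.trans hpp) hth
    have hm' : Fo p' (.mem 0 1) (vl [nm m, Z]) := hm
    refine ⟨r, hr, Fo.of fun G hG => ?_⟩
    have e1 := (D.top m).tr G (up_mem ((hr.trans hpp).trans hp) hG)
    have e2 := h4.tr G hG
    have e3 := hm'.tr G (up_mem hr hG)
    simp only [sat_ex, sat_an, sat_mem, sat_fVal, sat_fInt] at e1 e2 e3 ⊢
    exact ⟨NG.mk G (nm m), NG.mk G (w m 0), e3, e1, e2⟩

private theorem both_of (hν : ℵ₀ ≤ ν) {pstar : P} (h : IThreads P ν.ord.ToType pstar)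
    (hps : p0 ≤ pstar)
    (hlist : Fo p0 (fList 0 1 2) (vl [ck (Order.succ ν).ord, lam, d]))
    (hthin : Fo p0 (fThin 0 1 2) (vl [ck (Order.succ ν).ord, lam, d])) :
    ∃ p ≤ p0, (∃ b, Fo p (fBr 0 1 2 3) (vl [ck (Order.succ ν).ord, lam, d, b])) ∧
      ∃ b, Fo p (fIneff 0 1 2 3) (vl [ck (Order.succ ν).ord, lam, d, b]) := by
  unfold fThin at hthin
  rw [Fo.ex] at hthin
  obtain ⟨C, hC⟩ := hthin
  rw [cns_vl, Fo.an] at hC
  obtain ⟨hC1, hC2⟩ := hC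
  have hclub : Fo p0 (fClub 0 1 2) (vl [ck (Order.succ ν).ord, lam, C]) :=
    Fo.cg hC1 fun G _ h1 => by simpa using h1
  have hT : Fo p0 (fBall 3 (ex (an (fTrace 2 3 4 1 0) (fSm 0 2))))
      (vl [ck (Order.succ ν).ord, lam, d, C]) :=
    Fo.cg hC2 fun G _ h1 => by simpa using h1
  obtain ⟨L, nm, T, w, hL, D⟩ := exists_TrI hν hlist hclub hT
  obtain ⟨hdir, p, hp, th, hmono, htot, hcoh, hin⟩ := exists_thrI hν h hps D
  exact ⟨p, hp, exists_br D.toTrD hL hdir hp hmono htot hcoh,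
    k_ineff hν D hdir hp hmono htot hcoh hin⟩

theorem itp_of (hν : ℵ₀ ≤ ν) {pstar : P} (h : IThreads P ν.ord.ToType pstar) (G : Ult (RO P))
    (hG : RO.up pstar ∈ G.s) :
    StrongTP (EG G) (NG.mk G (ck (Order.succ ν).ord)) ∧
      ITP (EG G) (NG.mk G (ck (Order.succ ν).ord)) := by
  have main : ∀ φ ψ : Fml, (∀ (p0 : P) (lam d : BSet (RO P)),
      (∃ b, Fo p0 ψ (vl [ck (Order.succ ν).ord, lam, d, b])) →
        Fo p0 φ (vl [d, lam, ck (Order.succ ν).ord])) →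
      (∀ (p0 : P), p0 ≤ pstar → ∀ (lam d : BSet (RO P)),
        Fo p0 (fList 0 1 2) (vl [ck (Order.succ ν).ord, lam, d]) →
        Fo p0 (fThin 0 1 2) (vl [ck (Order.succ ν).ord, lam, d]) →
        ∃ p ≤ p0, ∃ b, Fo p ψ (vl [ck (Order.succ ν).ord, lam, d, b])) →
      Fo pstar (.all (.all (.imp (fOrd 1) (.imp (fSub 2 1) (.imp (fList 2 1 0)
        (.imp (fThin 2 1 0) φ)))))) (vl [ck (Order.succ ν).ord]) := by
    intro φ ψ hφ hψ
    rw [Fo.all]
    intro lam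
    rw [Fo.all]
    intro d
    rw [cns_vl, cns_vl, Fo.imp]
    intro q1 hq1 _
    rw [Fo.imp]
    intro q2 hq2 _
    rw [Fo.imp]
    intro q3 hq3 hList
    rw [Fo.imp]
    intro q4 hq4 hThin
    refine Fo.loc fun p0 hp0 => ?_
    have hps : p0 ≤ pstar := hp0.trans (hq4.trans (hq3.trans (hq2.trans hq1)))
    obtain ⟨p, hp, hb⟩ := hψ p0 hps lam d
      (Fo.cg (hList.mono (hp0.trans hq4)) fun G _ h1 => by simpa using h1)
      (Fo.cg (hThin.mono hp0) fun G _ h1 => by simpa using h1)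
    exact ⟨p, hp, hφ p lam d hb⟩
  constructor
  · have h1 : Fo pstar (fSTP 0) (vl [ck (Order.succ ν).ord]) := by
      refine main _ (fBr 0 1 2 3) (fun p0 lam d hb => ?_) fun p0 hp0 lam d hl ht => ?_
      · obtain ⟨b, hb⟩ := hb
        rw [Fo.ex]
        refine ⟨b, ?_⟩
        rw [cns_vl]
        exact Fo.cg hb fun G _ h1 => by simpa using h1
      · obtain ⟨p, hp, hb, -⟩ := both_of hν h hp0 hl ht
        exact ⟨p, hp, hb⟩
    exact sat_fSTP.1 (h1.tr G hG)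
  · have h1 : Fo pstar (fITP 0) (vl [ck (Order.succ ν).ord]) := by
      refine main _ (fIneff 0 1 2 3) (fun p0 lam d hb => ?_) fun p0 hp0 lam d hl ht => ?_
      · obtain ⟨b, hb⟩ := hb
        rw [Fo.ex]
        refine ⟨b, ?_⟩
        rw [cns_vl]
        exact Fo.cg hb fun G _ h1 => by simpa using h1
      · obtain ⟨p, hp, -, hb⟩ := both_of hν h hp0 hl ht
        exact ⟨p, hp, hb⟩
    exact sat_fITP.1 (h1.tr G hG)

end STP
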