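import Pool.Agent.STP.KUn
import Pool.Agent.STP.KEnum
import Pool.Agent.STP.KBel

/-! # The system of traces is continuous (package K04)

(problem MP_e44aae_lc, project STP, ITP, bridge)

`L` has the preorder `preL p0 nm` (`a ≤ b` iff `Fo p0 (fSub 0 1) (vl [nm a, nm b])`).
* `k_union`: let `s` be a nonempty chain of at most `ν` elements. `club_chain` for `J := s`, `m a := nm a.1` gives `Fo p0 (unJ m ∈ C)`, and `TrD.all` an element `e : L` with `Fo p0 (nm e = unJ m)`. `e` is a least upper bound of `s`: `unJ_sub`, `unJ_least` (transport along the equality with `Fo.cg`).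
* `k_lub`: if `IsLUB s d` then `d ≤ e` and `e ≤ d` for the `e` above, so `nm d = nm e = unJ m` is forced (extensionality `NG_ext` and `Sub` in both directions).
* `k_cnt`: `R q a b ξ ζ := trR nm w q a b ξ ζ`. Let `d` be a lub of `s`, `p ≤ p0`, and for every `a ∈ s` densely below `p` there is `ξ` with `trR q a d ξ ζ`, `trR q a d ξ ζ'`. Then `p` forces `w d ζ = w d ζ'`: in `NG G`, `up p ∈ G` (or by `Fo` over names `z`): both sets are subsets of `nm d = ⋃ nm a` (`w d ζ ∈ T d` is a trace `s' ∩ nm d`), and for every `a ∈ s` it is forced that `w d ζ ∩ nm a = w d ζ' ∩ nm a` (`Fo.loc`: both are equal to `w a ξ`). So for every name `z` and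
  `q ≤ p` forcing `z ∈ w d ζ`: densely below `q` there is `a ∈ s` with `z ∈ nm a` (`unJ_mem`), so `z ∈ w d ζ'`. Conclusion: by `trR_tot` (`a = b = d`) some `r ≤ q` and `η` with `trR r d d η ζ`, and `trR r d d η ζ'` since `w d ζ = w d ζ'` (`Fo.cg`).
* `k_top`: `trR q a a 0 0` for `q ≤ p0`: `w a 0 = w a 0 ∩ nm a`, because `w a 0 ⊆ nm a` (it is the value of `d` at `nm a`: `fList`, last clause, with `TrI.top`; or it is a trace). No `ξ' < 0`.
* `exists_thrI`: as `exists_thr` (file YSys), with `IThreads.belowR` instead of `Threads.belowR`; nodes `ν.ord.ToType`, `o := Ordinal.ToType.mk ⟨0, _⟩` (`0 < ν.ord`); `ChSup #N L` by `k_union`; `#ν.ord.ToType = ν`. `th' q a ξ := ∃ h : ξ < ν.ord, th q a (Ordinal.ToType.mk ⟨ξ, h⟩)`. -/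

universe u

namespace STP

open BSet Cardinal Fml

variable {P : Type u} [PartialOrder P] {ν : Cardinal.{u}} {p0 : P} {lam d C : BSet (RO P)}
  {L : Type u} {nm T : L → BSet (RO P)} {w : L → Ordinal.{u} → BSet (RO P)}

private theorem ks_sub {p : P} {x y : BSet (RO P)} : Fo p (fSub 0 1) (vl [x, y]) ↔
    ∀ G : Ult (RO P), RO.up p ∈ G.s → Sub (EG G) (NG.mk G x) (NG.mk G y) := by
  rw [Fo.iff]
  simp only [sat_fSub]
  exact Iff.rfl

private theorem ks_eq {p : P} {x y : BSet (RO P)} : Fo p (.eq 0 1) (vl [x, y]) ↔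
    ∀ G : Ult (RO P), RO.up p ∈ G.s → NG.mk G x = NG.mk G y := by
  rw [Fo.iff]
  exact Iff.rfl

private theorem ks_mem {p : P} {x y : BSet (RO P)} : Fo p (.mem 0 1) (vl [x, y]) ↔
    ∀ G : Ult (RO P), RO.up p ∈ G.s → EG G (NG.mk G x) (NG.mk G y) := by
  rw [Fo.iff]
  exact Iff.rfl

theorem k_union (hν : ℵ₀ ≤ ν) (D : TrD p0 (ck (Order.succ ν).ord) lam d C ν.ord L nm T w) :
    letI := preL p0 nm
    ∀ s : Set L, s.Nonempty → IsChain (· ≤ ·) s → #s ≤ ν →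
      ∃ e, IsLUB s e ∧ Fo p0 (.eq 0 1) (vl [nm e, unJ fun a : s => nm a.1]) := by
  let _ : Preorder L := preL p0 nm
  intro s hne hch hs
  have hle : ∀ a b : L, a ≤ b ↔ Fo p0 (fSub 0 1) (vl [nm a, nm b]) := fun a b => Iff.rfl
  have hJ : Nonempty s := hne.to_subtype
  have h1 : Fo p0 (.mem 0 1) (vl [unJ fun a : s => nm a.1, C]) := by
    refine club_chain hν D.club hs (fun a : s => nm a.1) (fun j => D.inC j.1) fun j j' => ?_
    exact hch.total j.2 j'.2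
  obtain ⟨e, he⟩ := D.all _ h1
  refine ⟨e, ⟨fun a ha => ?_, fun b hb => ?_⟩, he⟩
  · rw [hle, ks_sub]
    intro G hG
    rw [ks_eq.1 he G hG]
    exact ks_sub.1 (unJ_sub (fun a : s => nm a.1) ⟨a, ha⟩ p0) G hG
  · rw [hle, ks_sub]
    intro G hG
    rw [ks_eq.1 he G hG]
    exact ks_sub.1 (unJ_least (fun a : s => nm a.1) fun j => (hle _ _).1 (hb j.2)) G hG

theorem k_lub (hν : ℵ₀ ≤ ν) (D : TrD p0 (ck (Order.succ ν).ord) lam d C ν.ord L nm T w) :
    letI := preL p0 nm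
    ∀ s : Set L, s.Nonempty → IsChain (· ≤ ·) s → #s ≤ ν → ∀ e, IsLUB s e →
      Fo p0 (.eq 0 1) (vl [nm e, unJ fun a : s => nm a.1]) := by
  let _ : Preorder L := preL p0 nm
  intro s hne hch hs e he
  have hle : ∀ a b : L, a ≤ b ↔ Fo p0 (fSub 0 1) (vl [nm a, nm b]) := fun a b => Iff.rfl
  obtain ⟨e', he', h1⟩ := k_union hν D s hne hch hs
  have h2 : e ≤ e' := he.2 he'.1
  have h3 : e' ≤ e := he'.2 he.1
  rw [hle, ks_sub] at h2 h3
  rw [ks_eq] at h1 ⊢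
  intro G hG
  rw [← h1 G hG]
  exact NG_ext G _ _ fun z => ⟨h2 G hG z, h3 G hG z⟩

/-- the values are subsets of the level -/
private theorem ks_in (D : TrD p0 (ck (Order.succ ν).ord) lam d C ν.ord L nm T w) (a : L)
    (ζ : Ordinal.{u}) : Fo p0 (fSub 0 1) (vl [w a ζ, nm a]) := by
  rw [ks_sub]
  intro G hG
  have e1 := (D.inT a ζ).tr G hG
  have e2 := (D.tr a).tr G hG
  simp only [sat_fTrace, sat_mem, ev_apply, vl_zero, vl_succ] at e1 e2
  obtain ⟨x, t, -, -, -, hint⟩ := (e2 _).1 e1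
  exact fun z hz => ((hint z).1 hz).2

/-- one inclusion of `k_cnt` -/
private theorem ks_half (hν : ℵ₀ ≤ ν)
    (D : TrD p0 (ck (Order.succ ν).ord) lam d C ν.ord L nm T w) :
    letI := preL p0 nm
    ∀ s : Set L, s.Nonempty → IsChain (· ≤ ·) s → #s ≤ ν → ∀ e, IsLUB s e →
      ∀ p ≤ p0, ∀ ζ ζ' : Ordinal.{u},
        (∀ a ∈ s, ∀ p' ≤ p, ∃ q ≤ p', ∃ ξ, trR nm w q a e ξ ζ ∧ trR nm w q a e ξ ζ') →
        Fo p (fSub 0 1) (vl [w e ζ, w e ζ']) := by
  let _ : Preorder L := preL p0 nm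
  intro s hne hch hs e he p hp ζ ζ' h
  have hU := k_lub hν D s hne hch hs e he
  have hin := ks_in D e ζ
  -- the restrictions to the elements of `s` are equal
  have h2 : ∀ a ∈ s, ∀ G : Ult (RO P), RO.up p ∈ G.s → ∀ z, EG G z (NG.mk G (nm a)) →
      EG G z (NG.mk G (w e ζ)) → EG G z (NG.mk G (w e ζ')) := by
    intro a ha
    have h3 : Fo p (.all (.imp (.mem 0 1) (.imp (.mem 0 2) (.mem 0 3))))
        (vl [nm a, w e ζ, w e ζ']) := by
      refine Fo.loc fun q hq => ?_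
      obtain ⟨r, hr, ξ, h4, h5⟩ := h a ha q hq
      refine ⟨r, hr, Fo.of fun G hG => ?_⟩
      have e4 := h4.1.tr G hG
      have e5 := h5.1.tr G hG
      simp only [sat_fInt, ev_apply, vl_zero, vl_succ] at e4 e5
      intro z hz1 hz2
      exact ((e5 z).1 ((e4 z).2 ⟨hz2, hz1⟩)).1
    intro G hG z hz1 hz2
    exact h3.tr G hG z hz1 hz2
  refine Fo.all.2 fun y => Fo.imp.2 fun q hq hy => Fo.loc fun q' hq' => ?_
  rw [cns_vl] at hy
  have hy1 : Fo q' (.mem 0 1) (vl [y, w e ζ]) := by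
    rw [ks_mem]
    intro G hG
    exact (hy.mono hq').tr G hG
  have hq0 : q' ≤ p0 := hq'.trans (hq.trans hp)
  have hy2 : Fo q' (.mem 0 1) (vl [y, unJ fun a : s => nm a.1]) := by
    rw [ks_mem]
    intro G hG
    have hG0 : RO.up p0 ∈ G.s := up_mem hq0 hG
    rw [← ks_eq.1 hU G hG0]
    exact ks_sub.1 hin G hG0 _ (ks_mem.1 hy1 G hG)
  obtain ⟨r, hr, j, hj⟩ := (unJ_mem _).1 hy2 q' le_rfl
  refine ⟨r, hr, Fo.of fun G hG => ?_⟩
  have hGp : RO.up p ∈ G.s := up_mem (hr.trans (hq'.trans hq)) hG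
  exact h2 j.1 j.2 G hGp _ (ks_mem.1 hj G hG) (ks_mem.1 (hy1.mono hr) G hG)

theorem k_cnt (hν : ℵ₀ ≤ ν) (D : TrD p0 (ck (Order.succ ν).ord) lam d C ν.ord L nm T w) :
    letI := preL p0 nm
    ∀ s : Set L, s.Nonempty → IsChain (· ≤ ·) s → #s ≤ ν → ∀ e, IsLUB s e →
      ∀ p ≤ p0, ∀ ζ ζ' : Ordinal.{u},
        (∀ a ∈ s, ∀ p' ≤ p, ∃ q ≤ p', ∃ ξ, trR nm w q a e ξ ζ ∧ trR nm w q a e ξ ζ') →
        ∀ p' ≤ p, ∃ q ≤ p', ∃ η < ν.ord, trR nm w q e e η ζ ∧ trR nm w q e e η ζ' := by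
  let _ : Preorder L := preL p0 nm
  intro s hne hch hs e he p hp ζ ζ' h p' hp'
  have h1 := ks_half hν D s hne hch hs e he p hp ζ ζ' h
  have h2 := ks_half hν D s hne hch hs e he p hp ζ' ζ fun a ha q hq => by
    obtain ⟨r, hr, ξ, h3, h4⟩ := h a ha q hq
    exact ⟨r, hr, ξ, h4, h3⟩
  rw [ks_sub] at h1 h2
  have heq : ∀ G : Ult (RO P), RO.up p ∈ G.s → NG.mk G (w e ζ) = NG.mk G (w e ζ') :=
    fun G hG => NG_ext G _ _ fun z => ⟨h1 G hG z, h2 G hG z⟩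
  have href : Fo p0 (fSub 0 1) (vl [nm e, nm e]) := ks_sub.2 fun G _ z hz => hz
  obtain ⟨r, hr, η, hη, h3⟩ := trR_tot D href (hp'.trans hp) ζ
  refine ⟨r, hr, η, hη, h3, ?_, fun η' hη' => ?_⟩
  · refine Fo.cg h3.1 fun G hG h4 => ?_
    have e1 := heq G (up_mem (hr.trans hp') hG)
    simp only [sat_fInt, ev_apply, vl_zero, vl_succ] at h4 ⊢
    rw [← e1]
    exact h4
  · refine Fo.cg (h3.2 η' hη') fun G hG h4 => ?_
    have e1 := heq G (up_mem (hr.trans hp') hG)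
    simp only [sat_no, sat_fInt, ev_apply, vl_zero, vl_succ] at h4 ⊢
    rw [← e1]
    exact h4

private theorem ks_inI {κ : BSet (RO P)} {o : Ordinal.{u}} (D : TrI p0 κ lam d C o L nm T w)
    (a : L) (ζ : Ordinal.{u}) (G : Ult (RO P)) (hG : RO.up p0 ∈ G.s) :
    Sub (EG G) (NG.mk G (w a ζ)) (NG.mk G (nm a)) := by
  have e1 := (D.inT a ζ).tr G hG
  have e2 := (D.tr a).tr G hG
  simp only [sat_fTrace, sat_mem, ev_apply, vl_zero, vl_succ] at e1 e2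
  obtain ⟨x, t, -, -, -, hint⟩ := (e2 _).1 e1
  exact fun z hz => ((hint z).1 hz).2

theorem k_top {κ : BSet (RO P)} {o : Ordinal.{u}} (D : TrI p0 κ lam d C o L nm T w) {q : P}
    (hq : q ≤ p0) (a : L) : trR nm w q a a 0 0 := by
  refine ⟨Fo.of fun G hG => ?_, fun ξ' hξ' => absurd hξ' not_lt_zero⟩
  have h1 := ks_inI D a 0 G (up_mem hq hG)
  simp only [sat_fInt, ev_apply, vl_zero, vl_succ]
  exact fun z => ⟨fun hz => ⟨hz, h1 z hz⟩, fun hz => hz.1⟩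

theorem exists_thrI (hν : ℵ₀ ≤ ν) {pstar : P} (h : IThreads P ν.ord.ToType pstar)
    (hp0 : p0 ≤ pstar) (D : TrI p0 (ck (Order.succ ν).ord) lam d C ν.ord L nm T w) :
    (∀ a b : L, ∃ c : L, Fo p0 (fSub 0 1) (vl [nm a, nm c]) ∧
      Fo p0 (fSub 0 1) (vl [nm b, nm c])) ∧
    ∃ p ≤ p0, ∃ th : P → L → Ordinal.{u} → Prop,
      (∀ q r a ξ, r ≤ q → th q a ξ → th r a ξ) ∧
      (∀ a, ∀ q ≤ p, ∃ r ≤ q, ∃ ξ, th r a ξ) ∧
      (∀ q a b ξ ζ, q ≤ p → Fo p0 (fSub 0 1) (vl [nm a, nm b]) → th q a ξ → th q b ζ →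
        trR nm w q a b ξ ζ) ∧
      letI := preL p0 nm
      ∀ A : Set L, Club ν A → ∀ p' ≤ p, ∃ q ≤ p', ∃ a ∈ A, th q a 0 := by
  have DD := D.toTrD
  have hdir : ∀ A : Set L, #A ≤ ν → ∃ m, ∀ s ∈ A, Fo p0 (fSub 0 1) (vl [nm s, nm m]) := by
    intro A hA
    obtain ⟨y, hy, hy2⟩ := club_dir hν DD.club (J := A) hA (fun s => nm s.1)
      (fun s => DD.inC s.1)
    obtain ⟨m, hm⟩ := DD.all y hy
    refine ⟨m, fun s hs => ?_⟩
    rw [ks_sub]
    intro G hG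
    rw [ks_eq.1 hm G hG]
    exact ks_sub.1 (hy2 ⟨s, hs⟩) G hG
  refine ⟨fun a b => ?_, ?_⟩
  · obtain ⟨m, hm⟩ := hdir {a, b} ((Cardinal.mk_le_aleph0 (α := ({a, b} : Set L))).trans hν)
    exact ⟨m, hm a (by simp), hm b (by simp)⟩
  · let _ : Preorder L := preL p0 nm
    have hN : #ν.ord.ToType = ν := Cardinal.mk_ord_toType ν
    have h0 : (0 : Ordinal.{u}) < ν.ord := by
      refine lt_of_lt_of_le Ordinal.omega0_pos ?_
      rw [← ord_aleph0]
      exact ord_le_ord.2 hν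
    have hD : Dir #ν.ord.ToType L := by
      intro A hA
      rw [hN] at hA
      exact hdir A hA
    have hS : ChSup #ν.ord.ToType L := by
      intro s hne hch hs
      rw [hN] at hs
      obtain ⟨e, he, -⟩ := k_union hν DD s hne hch hs
      exact ⟨e, he⟩
    obtain ⟨p, hp, th, hth, hin⟩ := h.belowR hD hS hp0
      (fun q a b ξ ζ => trR nm w q a b (Ordinal.ToType.toOrd ξ).1 (Ordinal.ToType.toOrd ζ).1)
      (Ordinal.ToType.mk ⟨0, h0⟩)
      (fun hq _ h1 => ⟨h1.1.mono hq, fun ξ' h' => (h1.2 ξ' h').mono hq⟩)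
      (fun _ h1 => ⟨Fo.loc fun q hq => (h1 q hq).imp fun r hr => ⟨hr.1, hr.2.1⟩,
        fun ξ' h' => Fo.loc fun q hq => (h1 q hq).imp fun r hr => ⟨hr.1, hr.2.2 ξ' h'⟩⟩)
      (fun {a b} hab q hq ζ => by
        obtain ⟨r, hr, ξ, hξ, h1⟩ := trR_tot DD hab hq (Ordinal.ToType.toOrd ζ).1
        refine ⟨r, hr, Ordinal.ToType.mk ⟨ξ, hξ⟩, ?_⟩
        simpa using h1)
      (fun _ _ h1 h2 => by
        have h3 := trR_fn h1 h2
        exact Ordinal.ToType.mk.symm.injective (Subtype.ext h3))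
      (fun hq hab _ h1 h2 => trR_comp hab hq h1 h2)
      (fun q hq a => by simpa using k_top D hq a)
      (fun s hne hch hs e he q hq ζ ζ' h1 q' hq' => by
        rw [hN] at hs
        obtain ⟨r, hr, η, hη, h2, h3⟩ := k_cnt hν DD s hne hch hs e he q hq
          (Ordinal.ToType.toOrd ζ).1 (Ordinal.ToType.toOrd ζ').1 (fun a ha t ht => by
            obtain ⟨r, hr, ξ, h2, h3⟩ := h1 a ha t ht
            exact ⟨r, hr, _, h2, h3⟩) q' hq'
        refine ⟨r, hr, Ordinal.ToType.mk ⟨η, hη⟩, ?_⟩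
        simpa using ⟨h2, h3⟩)
    refine ⟨p, hp, fun q a ξ => ∃ hξ : ξ < ν.ord, th q a (Ordinal.ToType.mk ⟨ξ, hξ⟩),
      ?_, ?_, ?_, ?_⟩
    · rintro q r a ξ hr ⟨hξ, h1⟩
      exact ⟨hξ, hth.mono hr h1⟩
    · intro a q hq
      obtain ⟨r, hr, ξ, h1⟩ := hth.tot a q hq
      refine ⟨r, hr, (Ordinal.ToType.toOrd ξ).1, (Ordinal.ToType.toOrd ξ).2, ?_⟩
      simpa using h1
    · rintro q a b ξ ζ hq hab ⟨hξ, h1⟩ ⟨hζ, h2⟩
      have h3 := hth.coh hq hab h1 h2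
      simpa using h3
    · intro A hA p' hp'
      have hA' : Club #ν.ord.ToType A := by
        rw [hN]
        exact hA
      obtain ⟨q, hq, a, ha, h1⟩ := hin A hA' p' hp'
      exact ⟨q, hq, a, ha, h0, h1⟩

end STP
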