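import Pool.Agent.STP.YUni

/-! # Unions of chains of names of elements of a club (package K01)

(problem MP_e44aae_lc, project STP, ITP, bridge)

`κ = ck (succ ν).ord`. `unJ m` is the name of the union of the sets `m j`, `j : J`.

* `unJ_mem`: `mem y (unJ m) = ⨆ j, mem y (m j)`: `mem_unN`, and the bounded quantifier over the name `BSet.mk J m fun _ => ⊤` (`iSup_mem` with `mem_congr_right`); so `Fo p (y ∈ unJ m)` iff for all `q ≤ p` there are `r ≤ q` and `j` with `Fo r (y ∈ m j)` (`RO.mem_iSup`).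
* `unJ_sub`: `m j ⊆ unJ m`. `unJ_least`: if `p` forces `m j ⊆ x` for all `j` then `p` forces `unJ m ⊆ x` (`Fo.all`, `Fo.imp`, `Fo.loc`).
* `club_chain`: let `S := BSet.mk J m fun _ => ⊤`. `p` forces: `S ⊆ C`, `S` is not empty (`J` nonempty, `vl_le_mem`), `S` is a chain, `|S| < κ`, `unJ m` is the union of `S`; so `unJ m ∈ C` by the third clause of `fClub`. Elements of `S`: `Fo q (y ∈ S)` iff densely below `q` there is `j` with `Fo r (y = m j)` (`mem_mk`, `RO.mem_iSup`). Chain: for `y, y' ∈ S`: densely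
  `y = m j`, `y' = m j'`, and one of `m j ⊆ m j'`, `m j' ⊆ m j` is forced by `p` (`hc`). `|S| < κ`: `sm_of_enum` with `w ξ := m (e ξ)`, `e` a surjection from the ordinals `< ν.ord` onto `J` (`#J ≤ ν`, `J` nonempty, `#ν.ord.ToType = ν`; `Ordinal.ToType`), extended arbitrarily. Union: `mem_unN` is the Boolean value of: `∃ w ∈ S, y ∈ w`; so for every `G`: `IsUn (EG G) (unJ m) S` (as in `NG_union`). -/

universe u

namespace STP

open BSet Cardinal Fml

variable {P : Type u} [PartialOrder P]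

/-- the name of the union of the sets `m j` -/
def unJ {J : Type u} (m : J → BSet (RO P)) : BSet (RO P) := unN (BSet.mk J m fun _ => ⊤)

theorem unJ_mem {J : Type u} (m : J → BSet (RO P)) {p : P} {y : BSet (RO P)} :
    Fo p (.mem 0 1) (vl [y, unJ m]) ↔
      ∀ q ≤ p, ∃ r ≤ q, ∃ j, Fo r (.mem 0 1) (vl [y, m j]) := by
  have h1 : mem y (unN (BSet.mk J m fun _ => ⊤)) = ⨆ s : J, mem y (m s) := by
    have hΦ : Ext fun w : BSet (RO P) => mem y w := fun w w' => mem_congr_right w w' y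
    rw [mem_unN, iSup_mem hΦ]
    refine iSup_congr fun s => ?_
    exact top_inf_eq _
  have h2 : Fo p (.mem 0 1) (vl [y, unJ m]) ↔
      p ∈ mem y (unN (BSet.mk J m fun _ => ⊤)) := Iff.rfl
  rw [h2, h1, RO.mem_iSup]
  exact Iff.rfl

theorem unJ_sub {J : Type u} (m : J → BSet (RO P)) (j : J) (p : P) :
    Fo p (fSub 0 1) (vl [m j, unJ m]) := by
  refine Fo.all.2 fun y => Fo.imp.2 fun q _ hq => ?_
  exact (unJ_mem m).2 fun q' hq' => ⟨q', le_rfl, j, Fo.mono hq' hq⟩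

theorem unJ_least {J : Type u} (m : J → BSet (RO P)) {p : P} {x : BSet (RO P)}
    (h : ∀ j, Fo p (fSub 0 1) (vl [m j, x])) : Fo p (fSub 0 1) (vl [unJ m, x]) := by
  refine Fo.all.2 fun y => Fo.imp.2 fun q hq h1 => Fo.loc fun q' hq' => ?_
  obtain ⟨r, hr, j, hj⟩ := (unJ_mem m).1 h1 q' hq'
  exact ⟨r, hr, Fo.imp.1 (Fo.all.1 (h j) y) r (hr.trans (hq'.trans hq)) hj⟩

/-- the elements of the name of the set of the `m j` -/
private theorem ku_mem {J : Type u} (m : J → BSet (RO P)) {p : P} {y : BSet (RO P)} :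
    Fo p (.mem 0 1) (vl [y, BSet.mk J m fun _ => ⊤]) ↔
      ∀ q ≤ p, ∃ r ≤ q, ∃ j, Fo r (.eq 0 1) (vl [y, m j]) := by
  have h1 : mem y (BSet.mk J m fun _ => (⊤ : RO P)) = ⨆ s : J, BSet.eq y (m s) := by
    rw [mem_mk]
    refine iSup_congr fun s => ?_
    exact top_inf_eq _
  have h2 : Fo p (.mem 0 1) (vl [y, BSet.mk J m fun _ => ⊤]) ↔
      p ∈ mem y (BSet.mk J m fun _ => (⊤ : RO P)) := Iff.rfl
  rw [h2, h1, RO.mem_iSup]
  exact Iff.rfl

/-- every `m j` is forced to be an element -/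
private theorem ku_self {J : Type u} (m : J → BSet (RO P)) (j : J) (p : P) :
    Fo p (.mem 0 1) (vl [m j, BSet.mk J m fun _ => ⊤]) :=
  (ku_mem m).2 fun q _ => ⟨q, le_rfl, j, Fo.of fun _ _ => rfl⟩

private theorem ku_enum {ν : Cardinal.{u}} (hν : ℵ₀ ≤ ν) {J : Type u} (hJ : #J ≤ ν)
    [Nonempty J] {X : Type*} [Nonempty X] (w : J → X) :
    ∃ W : Ordinal.{u} → X, ∀ s, ∃ ξ < ν.ord, W ξ = w s := by
  classical
  have hA : #ν.ord.ToType = ν := Cardinal.mk_ord_toType ν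
  have hne : Nonempty ν.ord.ToType := by
    rw [← Cardinal.mk_ne_zero_iff, hA]
    exact (lt_of_lt_of_le Cardinal.aleph0_pos hν).ne'
  have hle : #J ≤ #ν.ord.ToType := by
    rw [hA]
    exact hJ
  obtain ⟨f, hf⟩ := hle
  have hinv : ∀ x, Function.invFun f (f x) = x := Function.leftInverse_invFun hf
  refine ⟨fun ξ => if hξ : ξ < ν.ord then
    w (Function.invFun f ((Ordinal.ToType.mk (o := ν.ord)) ⟨ξ, hξ⟩))
    else Classical.arbitrary X, fun s => ?_⟩
  have h5 : (Ordinal.ToType.toOrd (f s)).1 < ν.ord := (Ordinal.ToType.toOrd (f s)).2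
  refine ⟨_, h5, ?_⟩
  have h3 : (Ordinal.ToType.mk (o := ν.ord)) (Ordinal.ToType.toOrd (f s)) = f s :=
    (Ordinal.ToType.mk (o := ν.ord)).apply_symm_apply _
  beta_reduce
  rw [dif_pos h5]
  have h6 : (⟨(Ordinal.ToType.toOrd (f s)).1, h5⟩ : Set.Iio ν.ord) =
      Ordinal.ToType.toOrd (f s) := rfl
  rw [h6, h3, hinv]

/-- the name of the union is the union -/
private theorem ku_un (x : BSet (RO P)) (G : Ult (RO P)) :
    IsUn (EG G) (NG.mk G (unN x)) (NG.mk G x) := by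
  intro z
  obtain ⟨z, rfl⟩ := NG.exists_rep z
  have h1 := los G (Fml.ex (Fml.an (Fml.mem 0 1) (Fml.mem 2 0))) (cns x fun _ => z)
  rw [bval_ex, sat_ex] at h1
  simp only [bval_an, sat_an] at h1
  rw [EG_mk, mem_unN]
  exact h1.symm

theorem club_chain {ν : Cardinal.{u}} (hν : ℵ₀ ≤ ν) {p : P} {lam C : BSet (RO P)}
    (hC : Fo p (fClub 0 1 2) (vl [ck (Order.succ ν).ord, lam, C])) {J : Type u} [Nonempty J]
    (hJ : #J ≤ ν) (m : J → BSet (RO P)) (h : ∀ j, Fo p (.mem 0 1) (vl [m j, C]))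
    (hc : ∀ j j', Fo p (fSub 0 1) (vl [m j, m j']) ∨ Fo p (fSub 0 1) (vl [m j', m j])) :
    Fo p (.mem 0 1) (vl [unJ m, C]) := by
  classical
  -- `S ⊆ C`
  have hsub : Fo p (fSub 0 1) (vl [BSet.mk J m fun _ => ⊤, C]) := by
    refine Fo.all.2 fun y => Fo.imp.2 fun q hq h1 => Fo.loc fun q' hq' => ?_
    obtain ⟨r, hr, j, hj⟩ := (ku_mem m).1 h1 q' hq'
    refine ⟨r, hr, Fo.of fun G hG => ?_⟩
    have h2 : NG.mk G y = NG.mk G (m j) := hj.tr G hG
    have h3 : EG G (NG.mk G (m j)) (NG.mk G C) :=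
      (h j).tr G (up_mem (hr.trans (hq'.trans hq)) hG)
    change EG G (NG.mk G y) (NG.mk G C)
    rw [h2]
    exact h3
  -- `S` is a chain
  have hch : Fo p (.all (.all (.imp (.mem 1 2) (.imp (.mem 0 2)
      (or (fSub 1 0) (fSub 0 1)))))) (vl [BSet.mk J m fun _ => ⊤]) := by
    refine Fo.all.2 fun y => Fo.all.2 fun y' => Fo.imp.2 fun q hq h1 => Fo.imp.2 fun q₁ hq₁ h2 =>
      Fo.loc fun q₂ hq₂ => ?_
    have h1' : Fo q (.mem 0 1) (vl [y, BSet.mk J m fun _ => ⊤]) := h1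
    have h2' : Fo q₁ (.mem 0 1) (vl [y', BSet.mk J m fun _ => ⊤]) := h2
    obtain ⟨r, hr, j, hj⟩ := (ku_mem m).1 h1' q₂ (hq₂.trans hq₁)
    obtain ⟨r', hr', j', hj'⟩ := (ku_mem m).1 h2' r (hr.trans hq₂)
    refine ⟨r', hr'.trans hr, Fo.of fun G hG => ?_⟩
    have hGp : RO.up p ∈ G.s :=
      up_mem (hr'.trans (hr.trans (hq₂.trans (hq₁.trans hq)))) hG
    have e1 : NG.mk G y = NG.mk G (m j) := hj.tr G (up_mem hr' hG)
    have e2 : NG.mk G y' = NG.mk G (m j') := hj'.tr G hG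
    rw [sat_or, sat_fSub, sat_fSub]
    change Sub (EG G) (NG.mk G y) (NG.mk G y') ∨ Sub (EG G) (NG.mk G y') (NG.mk G y)
    rw [e1, e2]
    rcases hc j j' with h3 | h3
    · left
      exact sat_fSub.1 (h3.tr G hGp)
    · right
      exact sat_fSub.1 (h3.tr G hGp)
  -- `|S| < κ`
  have hX : Nonempty (BSet (RO P)) := ⟨ck 0⟩
  obtain ⟨W, hW⟩ := ku_enum hν hJ m
  have hsm : Fo p (fSm 0 1) (vl [BSet.mk J m fun _ => ⊤, ck (Order.succ ν).ord]) := by
    refine sm_of_enum hν (w := W) fun q _ y hy => ?_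
    obtain ⟨r, hr, j, hj⟩ := (ku_mem m).1 hy q le_rfl
    obtain ⟨ξ, hξ, h3⟩ := hW j
    refine ⟨r, hr, ξ, hξ, ?_⟩
    rw [h3]
    exact hj
  refine Fo.of fun G hG => ?_
  have hcl := hC.tr G hG
  rw [sat_fClub] at hcl
  refine hcl.2.2 (NG.mk G (BSet.mk J m fun _ => ⊤)) (NG.mk G (unJ m)) ?_ ?_ ?_ ?_ ?_
  · exact sat_fSub.1 (hsub.tr G hG)
  · exact ⟨NG.mk G (m (Classical.arbitrary J)), (ku_self m (Classical.arbitrary J) p).tr G hG⟩
  · intro x y hx hy
    have h1 := hch.tr G hG x y hx hy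
    rw [sat_or, sat_fSub, sat_fSub] at h1
    exact h1
  · exact sat_fSm.1 (hsm.tr G hG)
  · exact ku_un _ G

end STP
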