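import Pool.Agent.STP.Fml

/-! # Set theory inside a structure `(N, E)`: cardinals, lists, the strong tree property

(problem MP_e44aae_lc, project STP; definitions, no sorry in this file)

Every definition quantifies over the elements of `N` only. -/

universe v

namespace STP

section

variable {N : Type v} (E : N → N → Prop)

/-- `x ⊆ y` -/
def Sub (x y : N) : Prop := ∀ z, E z x → E z y

/-- `p = {x, y}` -/
def IsUP (p x y : N) : Prop := ∀ z, E z p ↔ z = x ∨ z = y

/-- `p = (x, y) = {{x}, {x, y}}` -/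
def IsOP (p x y : N) : Prop := ∀ z, E z p ↔ IsUP E z x x ∨ IsUP E z x y

/-- `(x, y) ∈ f` -/
def Val (f x y : N) : Prop := ∃ p, E p f ∧ IsOP E p x y

/-- `f` is a function with domain `a` (a set of ordered pairs) -/
def IsFun (f a : N) : Prop :=
  (∀ p, E p f → ∃ x y, E x a ∧ IsOP E p x y) ∧
  (∀ x, E x a → ∃ y, Val E f x y) ∧
  ∀ x y z, Val E f x y → Val E f x z → y = z

/-- `x` is transitive -/
def IsTr (x : N) : Prop := ∀ y, E y x → Sub E y x

/-- `x` is a (von Neumann) ordinal -/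
def IsOrd (x : N) : Prop := IsTr E x ∧ ∀ y, E y x → IsTr E y

/-- `s = x ∪ {x}` -/
def IsSc (s x : N) : Prop := ∀ z, E z s ↔ E z x ∨ z = x

/-- `w` is the set of natural numbers: the least nonzero limit ordinal -/
def IsOm (w : N) : Prop :=
  IsOrd E w ∧ (∃ z, E z w) ∧ (∀ x, E x w → ∃ s, E s w ∧ IsSc E s x) ∧
  ∀ x, E x w → (∃ z, E z x) → ∃ y, IsSc E x y

/-- `|x| < κ`: some function whose domain is an element of `κ` takes all elements of `x` as values -/
def Sm (x κ : N) : Prop :=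
  ∃ a, E a κ ∧ ∃ f, IsFun E f a ∧ ∀ y, E y x → ∃ z, E z a ∧ Val E f z y

/-- `c` is a cardinal: an ordinal with `|c| ≥ c` -/
def IsCd (c : N) : Prop := IsOrd E c ∧ ¬ Sm E c c

/-- `c` is an infinite cardinal -/
def IsIC (c : N) : Prop := IsCd E c ∧ ∃ w, IsOm E w ∧ Sub E w c

/-- `c` is an infinite regular cardinal: no function from an element of `c` to `c` is cofinal -/
def IsRC (c : N) : Prop :=
  IsIC E c ∧ ∀ a f, E a c → IsFun E f a → (∀ x y, Val E f x y → E y c) →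
    ∃ b, E b c ∧ ∀ x y, Val E f x y → E y b

/-- `c = ℵ_g`: `c` is an infinite cardinal, and `g` is order isomorphic to the set of infinite
cardinals below `c` (ordered by `∈`) -/
def IsAl (c g : N) : Prop :=
  IsIC E c ∧ IsOrd E g ∧ ∃ f, IsFun E f g ∧
    (∀ i x, Val E f i x → E x c ∧ IsIC E x) ∧
    (∀ d, E d c → IsIC E d → ∃ i, Val E f i d) ∧
    ∀ i j x y, Val E f i x → Val E f j y → E i j → E x y

/-- `x ∈ P_κ(λ)` -/
def IsP (κ lam x : N) : Prop := Sub E x lam ∧ Sm E x κ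

/-- `d` is a `P_κ(λ)`-list: a function with domain `P_κ(λ)` and `d_x ⊆ x` -/
def IsList (κ lam d : N) : Prop :=
  (∀ p, E p d → ∃ x t, IsP E κ lam x ∧ IsOP E p x t) ∧
  (∀ x, IsP E κ lam x → ∃ t, Val E d x t) ∧
  (∀ x t t', Val E d x t → Val E d x t' → t = t') ∧
  ∀ x t, Val E d x t → Sub E t x

/-- `u` is the union of the elements of `s` -/
def IsUn (u s : N) : Prop := ∀ z, E z u ↔ ∃ y, E y s ∧ E z y

/-- `C` is a club in `P_κ(λ)`: cofinal, and closed under unions of nonempty chains of fewer than `κ`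
elements -/
def IsClub (κ lam C : N) : Prop :=
  (∀ x, E x C → IsP E κ lam x) ∧
  (∀ x, IsP E κ lam x → ∃ y, E y C ∧ Sub E x y) ∧
  ∀ s u, Sub E s C → (∃ x, E x s) → (∀ x y, E x s → E y s → Sub E x y ∨ Sub E y x) →
    Sm E s κ → IsUn E u s → E u C

/-- `t = s ∩ y` -/
def IsInt (t s y : N) : Prop := ∀ z, E z t ↔ E z s ∧ E z y

/-- `T = {d_x ∩ y | y ⊆ x ∈ P_κ(λ)}` -/
def IsTrace (κ lam d y T : N) : Prop :=
  ∀ t, E t T ↔ ∃ x s, IsP E κ lam x ∧ Sub E y x ∧ Val E d x s ∧ IsInt E t s y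

/-- the list `d` is thin: there is a club `C` such that for every `y ∈ C` the set
`{d_x ∩ y | y ⊆ x ∈ P_κ(λ)}` has size `< κ` -/
def IsThin (κ lam d : N) : Prop :=
  ∃ C, IsClub E κ lam C ∧ ∀ y, E y C → ∃ T, IsTrace E κ lam d y T ∧ Sm E T κ

/-- `b ⊆ λ` is a cofinal branch of `d`: for every `x ∈ P_κ(λ)` there is `z ⊇ x` in `P_κ(λ)` with
`d_z ∩ x = b ∩ x` -/
def IsBr (κ lam d b : N) : Prop :=
  Sub E b lam ∧ ∀ x, IsP E κ lam x → ∃ z s t, IsP E κ lam z ∧ Sub E x z ∧ Val E d z s ∧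
    IsInt E t s x ∧ IsInt E t b x

/-- the strong tree property at `κ`: for every `λ ≥ κ` every thin `P_κ(λ)`-list has a cofinal
branch -/
def StrongTP (κ : N) : Prop :=
  ∀ lam d, IsOrd E lam → Sub E κ lam → IsList E κ lam d → IsThin E κ lam d →
    ∃ b, IsBr E κ lam d b

/-- There is a good sequence `(g n)_{n ∈ ω}` (the `g n` are pairwise distinct infinite regular
cardinals with `g n < ℵ_{g n}`) such that the strong tree property holds at `ℵ_{g n + 1}` for every
`n ∈ ω`. -/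
def GoodSTP : Prop :=
  ∃ w g, IsOm E w ∧ IsFun E g w ∧
    (∀ n x, Val E g n x → IsRC E x) ∧
    (∀ m n x, Val E g m x → Val E g n x → m = n) ∧
    (∀ n x, Val E g n x → ∃ c, IsAl E c x ∧ E x c) ∧
    ∀ n x, Val E g n x → ∃ s κ, IsSc E s x ∧ IsAl E κ s ∧ StrongTP E κ

end

end STP
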