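import Pool.Agent.STP.YSTP
import Pool.Agent.STP.YAl

/-! # The model has the strong tree property at infinitely many successors of singulars (package Y13)

(problem MP_e44aae_lc, project STP)

`w := ck ω`, `g := seqN ω (fun a => ck (γ n).ord)` where `n` is the natural number with `a = n` (`a < ω`; e.g. `n := Ordinal.toNat'`, or `Classical.choose`; define `nat a := if h : ∃ n : ℕ, a = n then h.choose else 0`, `nat (n : Ordinal) = n` by injectivity of the cast). `IsOm w` by `ck_om`, `IsFun g w` by `seqN_fun`.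
All other clauses are about `n x` with `Val g n x`; then `n ∈ ck ω` (`seqN_fun`, first part, `IsOP.inj` with `NG_zfc`), so they are bounded quantifiers over `ck ω`, which are forced by `pstar` if they are forced for all `ck n`, `n < ω` (`Fo.ball`, `Fo.all`, `Fo.imp`), and then `x = ck (γ n).ord` (`seqN_val`, third part of `seqN_fun`); `Fo.iff` to pass to `G`.
1. `IsRC (ck (γ n).ord)`: `isRC_of_bdd` (`BF.inf`, `BF.bdd`).
2. `Val g m x`, `Val g n x`: `m = ck a`, `n = ck b`; `x = ck (γ a).ord = ck (γ b).ord`, so `(γ a).ord = (γ b).ord` (`ck_eq_iff`), `γ a = γ b` (`Cardinal.ord_injective`), `a = b`.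
3. `c := ck (ν n).ord`: `isAl_nu`, and `(γ n).ord < (ν n).ord`.
4. `s := ck (succ (γ n).ord)`, `κ := ck (succ (ν n)).ord`: `ck_sc`, `isAl_succ`, `strongTP_of` (`BF.thr`).
(The statements 1, 3, 4 for `ck n` are formulas `fRC 0`, `ex (an (fAl 0 1) (.mem 1 0))`, `ex (ex (an (fSc 1 2) (an (fAl 0 1) (fSTP 0))))` at the value; check the indices. They hold in every `NG G'` with `up pstar ∈ G'.s`.) -/

universe u

namespace STP

open BSet Cardinal Fml

variable {P : Type u} [PartialOrder P]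

private noncomputable def natOf (a : Ordinal.{u}) : ℕ :=
  open Classical in if h : ∃ n : ℕ, a = n then h.choose else 0

private theorem natOf_cast (n : ℕ) : natOf (n : Ordinal.{u}) = n := by
  unfold natOf
  have h : ∃ m : ℕ, (n : Ordinal.{u}) = m := ⟨n, rfl⟩
  rw [dif_pos h]
  exact (Nat.cast_injective h.choose_spec).symm

/-- the name of the sequence -/
private noncomputable def wN (P : Type u) [PartialOrder P] (γ : ℕ → Cardinal.{u}) :
    Ordinal.{u} → BSet (RO P) := fun a => ck (γ (natOf a)).ord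

private theorem key {p : P} (γ : ℕ → Cardinal.{u}) (L : List (BSet (RO P))) (φ : Fml)
    (R : ∀ G : Ult (RO P), NG G → NG G → Prop)
    (hφ : ∀ (G : Ult (RO P)) (x m : NG G), sat (EG G) φ
      (cns x (cns m (ev G (vl (seqN Ordinal.omega0 (wN P γ) :: ck Ordinal.omega0 :: L))))) ↔
        R G m x)
    (hR : ∀ G : Ult (RO P), RO.up p ∈ G.s → ∀ n : ℕ,
      R G (NG.mk G (ck (n : Ordinal.{u}))) (NG.mk G (ck (γ n).ord)))
    (G : Ult (RO P)) (hG : RO.up p ∈ G.s) (m x : NG G)
    (h : Val (EG G) (NG.mk G (seqN Ordinal.omega0 (wN P γ))) m x) : R G m x := by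
  have h1 : Fo p (fBall 1 (.all (.imp (fVal 2 1 0) φ)))
      (vl (seqN Ordinal.omega0 (wN P γ) :: ck Ordinal.omega0 :: L)) := by
    refine (Fo.ball (o := Ordinal.omega0) rfl).2 fun a ha => ?_
    obtain ⟨n, rfl⟩ := Ordinal.lt_omega0.1 ha
    refine Fo.of fun G' hG' => ?_
    rw [sat_all]
    intro y
    rw [← ev_cns, sat_imp, sat_fVal, hφ]
    intro hy
    have h2 := (seqN_fun Ordinal.omega0 (wN P γ) G').2.2 (NG.mk G' (ck (n : Ordinal.{u}))) y
      (NG.mk G' (wN P γ n)) hy (seqN_val Ordinal.omega0 (wN P γ) ha G')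
    rw [h2]
    unfold wN
    rw [natOf_cast]
    exact hR G' hG' n
  have h2 := h1.tr G hG
  rw [sat_fBall] at h2
  have h3 : EG G m (NG.mk G (ck Ordinal.omega0)) := by
    obtain ⟨q, hq, hqm⟩ := h
    obtain ⟨x', y', hx', hq'⟩ := (seqN_fun Ordinal.omega0 (wN P γ) G).1 q hq
    obtain ⟨h4, -⟩ := IsOP.inj (NG_zfc G) hqm hq'
    rw [h4]
    exact hx'
  have h4 := h2 m h3
  rw [sat_all] at h4
  have h5 := h4 x
  rw [sat_imp, sat_fVal, hφ] at h5
  exact h5 h

theorem good_of {pstar : P} {γ ν : ℕ → Cardinal.{u}} (hinj : ∀ m n, γ m = γ n → m = n)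
    (h : ∀ n, BF P pstar (γ n) (ν n)) (G : Ult (RO P)) (hG : RO.up pstar ∈ G.s) :
    GoodSTP (EG G) := by
  refine ⟨NG.mk G (ck Ordinal.omega0), NG.mk G (seqN Ordinal.omega0 (wN P γ)), ck_om G,
    seqN_fun _ _ G, ?_, ?_, ?_, ?_⟩
  · refine key γ [] (fRC 0) (fun G _ x => IsRC (EG G) x) (fun G x m => ?_)
      (fun G hG n => isRC_of_bdd (h n).inf (h n).bdd G) G hG
    rw [sat_fRC, cns_zero]
  · have hq : ∀ G : Ult (RO P), RO.up pstar ∈ G.s → ∀ m x : NG G,
        Val (EG G) (NG.mk G (seqN Ordinal.omega0 (wN P γ))) m x →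
        ∀ n, Val (EG G) (NG.mk G (seqN Ordinal.omega0 (wN P γ))) n x → m = n := by
      intro G hG m x hm
      refine key γ [] (.all (.imp (fVal 3 0 1) (.eq 2 0))) (fun G m x =>
        ∀ n, Val (EG G) (NG.mk G (seqN Ordinal.omega0 (wN P γ))) n x → m = n)
        (fun G x m => ?_) (fun G hG n => ?_) G hG m x hm
      · rw [sat_all]
        refine forall_congr' fun n => ?_
        rw [sat_imp, sat_fVal, sat_eq]
        rfl
      · intro m' hm'
        refine key γ [ck (n : Ordinal.{u}), ck (γ n).ord] (.imp (.eq 0 5) (.eq 4 1))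
          (fun G m x => x = NG.mk G (ck (γ n).ord) → NG.mk G (ck (n : Ordinal.{u})) = m)
          (fun G x m => ?_) (fun G hG n' => ?_) G hG m' _ hm' rfl
        · rw [sat_imp, sat_eq, sat_eq]
          rfl
        · intro h1
          rw [ck_eq_iff] at h1
          rw [hinj _ _ (Cardinal.ord_injective h1)]
    exact fun m n x hm hn => hq G hG m x hm n hn
  · refine key γ [] (ex (an (fAl 0 1) (.mem 1 0))) (fun G _ x => ∃ c, IsAl (EG G) c x ∧ EG G x c)
      (fun G x m => ?_) (fun G hG n => ?_) G hG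
    · rw [sat_ex]
      refine exists_congr fun c => ?_
      rw [sat_an, sat_fAl, sat_mem]
      rfl
    · exact ⟨_, isAl_nu (h n).bf0 G hG, (ck_mem_iff G).2 (Cardinal.ord_lt_ord.2 (h n).lt)⟩
  · refine key γ [] (ex (ex (an (fSc 1 2) (an (fAl 0 1) (fSTP 0))))) (fun G _ x =>
      ∃ s κ, IsSc (EG G) s x ∧ IsAl (EG G) κ s ∧ StrongTP (EG G) κ)
      (fun G x m => ?_) (fun G hG n => ?_) G hG
    · rw [sat_ex]
      refine exists_congr fun s => ?_
      rw [sat_ex]
      refine exists_congr fun κ => ?_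
      rw [sat_an, sat_an, sat_fSc, sat_fAl, sat_fSTP]
      rfl
    · exact ⟨_, _, ck_sc G _, isAl_succ (h n).bf0 G hG,
        strongTP_of ((h n).inf.trans (h n).lt.le) (h n).thr G hG⟩

end STP
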