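import Pool.Agent.STP.XFin
import Pool.Agent.STP.YGood

/-! # The strong tree property at successors of singular cardinals of infinitely many cofinalities

(problem MP_e44aae_lc, project STP; final assembly) -/

universe u

namespace STP

open Cardinal

theorem up_ne_bot {P : Type u} [PartialOrder P] (p : P) : (RO.up p : RO P) ≠ ⊥ := by
  intro h
  have h1 : p ∈ RO.up p := RO.self_mem_up p
  rw [h] at h1
  exact RO.not_mem_bot h1

theorem main (h : ∀ c : Cardinal.{u}, ∃ κ, c < κ ∧ LI κ) :
    ∃ (N : Type (u + 1)) (E : N → N → Prop), ZFC E ∧ GoodSTP E := by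
  obtain ⟨P, _, pstar, γ, ν, hinj, hBF⟩ := exists_BF h
  obtain ⟨G, hG⟩ := Ult.exists_mem (up_ne_bot pstar)
  exact ⟨NG G, EG G, NG_zfc G, good_of hinj hBF G hG⟩

end STP
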