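import Pool.Agent.STP.JOut
import Pool.Agent.STP.KGood
import Pool.Agent.STP.Main

/-! # ITP and the strong tree property at successors of singular cardinals of infinitely many cofinalities

(problem MP_e44aae_lc, project STP; final assembly) -/

universe u

namespace STP

open Cardinal

theorem mainI (h : ∀ c : Cardinal.{u}, ∃ κ, c < κ ∧ LI κ) :
    ∃ (N : Type (u + 1)) (E : N → N → Prop), ZFC E ∧ GoodITP E := by
  obtain ⟨P, _, pstar, γ, ν, hinj, h0, hi⟩ := exists_BF0I h
  obtain ⟨G, hG⟩ := Ult.exists_mem (up_ne_bot pstar)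
  exact ⟨NG G, EG G, NG_zfc G, good_of_I hinj h0 hi G hG⟩

end STP
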