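import Pool.Agent.STP.Gen
import Pool.Agent.STP.Thr
import Pool.Agent.STP.PD
import Pool.Agent.STP.Blk

/-! # The narrow system: data at one `u` (package S16)

(problem MP_e44aae_lc, project STP)

Text, section 6, (ii) and (v). (The hypothesis `hlbκ : lb < κ` of `data` makes `Mi` nonempty.)

* `good`: `REC` for `Bc × Q` (`DC.prod`), index set `D` (fewer than `δ` elements), below `(t.2, q)`, with
  `D a (b, q) := b ≤ t.2 → ∃ s ≤ t.1, ∃ ζ, S.rel ((s, b), q) a d ζ o` (open by `S.mono`; dense by `S.tot (hd a) ((t.1, b), q) o`, whose result is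
  `((s, b'), q') ≤ ((t.1, b), q)`). Choose `s`, `ζ`.
* `data`: for `u` call `u` good if `lb ≤ μ_u`, `μ_u < κ` and `#{a // iΛ a ∈ u} ≤ succ (succ μ_u)`, where `μ_u := #{x : N // iN x ∈ u}`. For good `u` let `m u` be
  an index with `mu (m u) = μ_u` (`hmu`), `e_u : (mu (m u)).out ≃ {x : N // iN x ∈ u}` a bijection, `D_u := {a // iΛ a ∈ u}` (fewer than `κ ≤ ν` elements), `d_u` an upper bound
  of `D_u` (`Dir`), `o : N` fixed. `E u := Bc × (D_u → (S × Col γ (mu (m u)).out) × N)` with `Bc := Col (succ³ (mu (m u))) κ.out`,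
  `Φ (b, f) := {q | b ≤ (tm (m u)).2 ∧ ∀ a, (f a).1 ≤ (tm (m u)).1 ∧ (Sm (m u)).rel (((f a).1, b), q) a d_u (f a).2 o}` (regular open by `mono`, `loc`), `F u` from
  `exists_max`. `⨆ e, F u e = ⨆ Φ = ⊤` by `good` (`Bc` is `DC (succ³ μ)`, `Q` is `DC κ`, `succ³ μ ≤ κ`; `#D_u ≤ succ (succ μ) < succ³ μ`).
  For `u` that are not good: `E u := PEmpty`.
  `sc u e a := (f a).1.1` if `a ∈ D_u`, else a default; `cc u e a :=` the image of `((f a).1.2).s ⊆ γ.out × (mu (m u)).out` under `id × e_u`, or `∅` if `a ∉ D_u`; `zc u e a := (f a).2`.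
  Last clause: `(f a).1 = (f b).1` because `sc` agree and the images `cc` agree (`e_u` injective); `r := ((f a).1, b)`; `Sys.can` for `a ≤ b ≤ d_u`. -/

universe u

namespace STP

open Cardinal

theorem good {A Bc Q Λ N : Type u} [Preorder A] [Preorder Bc] [Preorder Q] [Preorder Λ]
    {δ : Cardinal.{u}} (hB : DC δ Bc) (hQ : DC δ Q) (S : Sys ((A × Bc) × Q) Λ N) (D : Set Λ)
    (hD : #D < δ) (d : Λ) (hd : ∀ a ∈ D, a ≤ d) (o : N) (t : A × Bc) (q : Q) :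
    ∃ q' ≤ q, ∃ b ≤ t.2, ∃ f : D → A × N, ∀ a : D, (f a).1 ≤ t.1 ∧
      S.rel (((f a).1, b), q') a.1 d (f a).2 o := by
  obtain ⟨r, hr, h⟩ := REC (hB.prod hQ) (J := D) hD
    (fun a x => ∃ s ≤ t.1, ∃ ζ, S.rel ((s, x.1), x.2) a.1 d ζ o) (t.2, q)
    (by
      rintro a x y hyx ⟨s, hs, ζ, hz⟩
      exact ⟨s, hs, ζ, S.mono (p := ((s, x.1), x.2)) ⟨⟨le_rfl, hyx.1⟩, hyx.2⟩ hz⟩)
    (by
      intro a x hx
      obtain ⟨p, hp, ξ, h1⟩ := S.tot (hd a.1 a.2) ((t.1, x.1), x.2) o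
      exact ⟨(p.1.2, p.2), ⟨hp.1.2, hp.2⟩, p.1.1, hp.1.1, ξ, h1⟩)
  choose s hs ζ hz using h
  exact ⟨r.2, hr.2, r.1, hr.1, fun a => (s a, ζ a), fun a => ⟨hs a, hz a⟩⟩

/-- the data at one good `u` -/
private theorem data1 {κ γ lb ν μ : Cardinal.{u}} {Q Λ N S Y : Type u} [Preorder Q] [Preorder Λ]
    [PartialOrder S] (hκs : ∀ x < κ, 2 ^ x < κ) (hγ : ℵ₀ ≤ γ) (hlb : γ ≤ lb)
    (hQ : DC κ Q) (hΛ : Dir ν Λ) (hκν : κ ≤ ν) (o : N) (s0 : S)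
    (Sm : Sys (TT S γ κ μ × Q) Λ N) (tm : TT S γ κ μ)
    (iΛ : Λ → Y) (iN : N → Y) (hiΛ : Function.Injective iΛ) (hiN : Function.Injective iN)
    (u : Pk κ Y) (hμ : μ = #{x : N // iN x ∈ u.1}) (h1 : lb ≤ μ)
    (h2 : #{a : Λ // iΛ a ∈ u.1} ≤ Order.succ (Order.succ μ)) :
    ∃ (E : Type u) (F : E → RO Q) (sc : E → Λ → S)
      (cc : E → Λ → Set (γ.out × N)) (zc : E → Λ → N),
      (∀ e e', e ≠ e' → F e ⊓ F e' = ⊥) ∧ ⨆ e, F e = ⊤ ∧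
      (∀ e a, #(cc e a) < γ) ∧
      (∀ e a, ∀ x ∈ cc e a, iN x.2 ∈ u.1) ∧
      ∀ e a b q, iΛ a ∈ u.1 → iΛ b ∈ u.1 → a ≤ b → q ∈ F e → sc e a = sc e b →
        cc e a = cc e b → ∃ r ≤ tm, Sm.rel (r, q) a b (zc e a) (zc e b) := by
  classical
  have hμκ : μ < κ := by
    rw [hμ]
    refine lt_of_le_of_lt ?_ u.2
    exact mk_le_of_injective (f := fun x : {x : N // iN x ∈ u.1} => (⟨iN x.1, x.2⟩ : u.1))
      fun x y h => Subtype.ext (hiN (congrArg Subtype.val h))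
  have hDκ : #{a : Λ // iΛ a ∈ u.1} < κ := by
    refine lt_of_le_of_lt ?_ u.2
    exact mk_le_of_injective (f := fun x : {x : Λ // iΛ x ∈ u.1} => (⟨iΛ x.1, x.2⟩ : u.1))
      fun x y h => Subtype.ext (hiΛ (congrArg Subtype.val h))
  have hsucc : ∀ x < κ, Order.succ x < κ := fun x hx =>
    lt_of_le_of_lt (Order.succ_le_of_lt (cantor x)) (hκs x hx)
  have h3 : Order.succ (Order.succ (Order.succ μ)) ≤ κ := (hsucc _ (hsucc _ (hsucc _ hμκ))).le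
  have hμ0 : ℵ₀ ≤ μ := hγ.trans (hlb.trans h1)
  have hreg : (Order.succ (Order.succ (Order.succ μ))).IsRegular :=
    isRegular_succ (hμ0.trans ((Order.le_succ _).trans (Order.le_succ _)))
  obtain ⟨d, hd⟩ := hΛ {a | iΛ a ∈ u.1} (hDκ.le.trans hκν)
  have hΦ : ∃ Φ : Col (Order.succ (Order.succ (Order.succ μ))) κ.out ×
      ({a | iΛ a ∈ u.1} → (S × Col γ μ.out) × N) → RO Q, ∀ e q, q ∈ Φ e ↔ e.1 ≤ tm.2 ∧
        ∀ a : {a | iΛ a ∈ u.1}, (e.2 a).1 ≤ tm.1 ∧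
          Sm.rel (((e.2 a).1, e.1), q) a.1 d (e.2 a).2 o := by
    refine ⟨fun e => ⟨{q | e.1 ≤ tm.2 ∧ ∀ a : {a | iΛ a ∈ u.1}, (e.2 a).1 ≤ tm.1 ∧
      Sm.rel (((e.2 a).1, e.1), q) a.1 d (e.2 a).2 o}, fun p => ⟨?_, ?_⟩⟩, fun e q => Iff.rfl⟩
    · rintro ⟨h4, h5⟩ q hq
      exact ⟨q, le_rfl, h4, fun a => ⟨(h5 a).1,
        Sm.mono (p := (((e.2 a).1, e.1), p)) ⟨le_rfl, hq⟩ (h5 a).2⟩⟩
    · intro h
      obtain ⟨r, -, h4, h5⟩ := h p le_rfl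
      refine ⟨h4, fun a => ⟨(h5 a).1, Sm.loc fun q hq => ?_⟩⟩
      obtain ⟨r', hr', -, h6⟩ := h q.2 hq.2
      exact ⟨(q.1, r'), ⟨le_rfl, hr'⟩,
        Sm.mono (p := (((e.2 a).1, e.1), r')) ⟨hq.1, le_rfl⟩ (h6 a).2⟩
  obtain ⟨Φ, hΦ⟩ := hΦ
  obtain ⟨F, hF1, hF2, hF3⟩ := exists_max Φ
  obtain ⟨eu⟩ : Nonempty (μ.out ≃ {x : N // iN x ∈ u.1}) :=
    Cardinal.eq.1 (by rw [mk_out]; exact hμ)
  have hg : Function.Injective fun x : γ.out × μ.out => (x.1, (eu x.2).1) := by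
    intro x y h
    simp only [Prod.mk.injEq] at h
    exact Prod.ext h.1 (eu.injective (Subtype.ext h.2))
  refine ⟨_, F, fun e a => if h : iΛ a ∈ u.1 then (e.2 ⟨a, h⟩).1.1 else s0,
    fun e a => if h : iΛ a ∈ u.1 then
      (fun x : γ.out × μ.out => (x.1, (eu x.2).1)) '' (e.2 ⟨a, h⟩).1.2.s else ∅,
    fun e a => if h : iΛ a ∈ u.1 then (e.2 ⟨a, h⟩).2 else o, hF2, ?_, ?_, ?_, ?_⟩
  · rw [hF3, eq_top_iff]
    intro p _
    refine RO.mem_iSup.2 fun q _ => ?_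
    obtain ⟨q', hq', b, hb, f, hf⟩ := good (Clq.dc hreg) (hQ.mono h3) Sm {a | iΛ a ∈ u.1}
      (Order.lt_succ_of_le h2) d hd o tm q
    exact ⟨q', hq', (b, f), (hΦ _ _).2 ⟨hb, hf⟩⟩
  · intro e a
    dsimp only
    split_ifs with h
    · exact mk_image_le.trans_lt (e.2 ⟨a, h⟩).1.2.card
    · rw [mk_eq_zero]
      exact lt_of_lt_of_le aleph0_pos hγ
  · intro e a x hx
    dsimp only at hx
    split_ifs at hx with h
    · obtain ⟨y, -, rfl⟩ := hx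
      exact (eu y.2).2
    · exact absurd hx (Set.notMem_empty x)
  · intro e a b q ha hb hab hq hs hc
    obtain ⟨h4, h5⟩ := (hΦ e q).1 (hF1 e q hq)
    simp only [dif_pos ha, dif_pos hb] at hs hc ⊢
    have h6 : (e.2 ⟨a, ha⟩).1 = (e.2 ⟨b, hb⟩).1 :=
      Prod.ext hs (Clq.ext (hg.image_injective hc))
    have h7 := (h5 ⟨a, ha⟩).2
    have h8 := (h5 ⟨b, hb⟩).2
    rw [← h6] at h8
    exact ⟨((e.2 ⟨a, ha⟩).1, e.1), ⟨(h5 ⟨a, ha⟩).1, h4⟩,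
      Sm.can hab (hd b hb) h7 h8⟩

theorem data {κ γ lb ν : Cardinal.{u}} {Q Λ N S Y Mi : Type u} [Preorder Q] [Preorder Λ]
    [PartialOrder S] (hκr : κ.IsRegular) (hκs : ∀ x < κ, 2 ^ x < κ) (hγ : ℵ₀ ≤ γ) (hlb : γ ≤ lb)
    (hlbκ : lb < κ) (hQ : DC κ Q) (hΛ : Dir ν Λ) (hκν : κ ≤ ν) (hN : Nonempty N)
    (hS : Nonempty S)
    (mu : Mi → Cardinal.{u}) (hmu : ∀ x, lb ≤ x → x < κ → ∃ m, mu m = x)
    (Sm : ∀ m, Sys (TT S γ κ (mu m) × Q) Λ N) (tm : ∀ m, TT S γ κ (mu m))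
    (iΛ : Λ → Y) (iN : N → Y) (hiΛ : Function.Injective iΛ) (hiN : Function.Injective iN) :
    ∃ (E : Pk κ Y → Type u) (F : ∀ u, E u → RO Q) (m : Pk κ Y → Mi) (sc : ∀ u, E u → Λ → S)
      (cc : ∀ u, E u → Λ → Set (γ.out × N)) (zc : ∀ u, E u → Λ → N),
      (∀ u e e', e ≠ e' → F u e ⊓ F u e' = ⊥) ∧
      (∀ u, lb ≤ #{x : N // iN x ∈ u.1} →
        #{a : Λ // iΛ a ∈ u.1} ≤ Order.succ (Order.succ #{x : N // iN x ∈ u.1}) →
        ⨆ e, F u e = ⊤) ∧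
      (∀ u e a, #(cc u e a) < γ) ∧
      (∀ u e a, ∀ x ∈ cc u e a, iN x.2 ∈ u.1) ∧
      ∀ u e a b q, iΛ a ∈ u.1 → iΛ b ∈ u.1 → a ≤ b → q ∈ F u e → sc u e a = sc u e b →
        cc u e a = cc u e b → ∃ r ≤ tm (m u), (Sm (m u)).rel (r, q) a b (zc u e a) (zc u e b) := by
  obtain ⟨o⟩ := hN
  obtain ⟨s0⟩ := hS
  have key : ∀ u : Pk κ Y, ∃ (E : Type u) (F : E → RO Q) (m : Mi) (sc : E → Λ → S)
      (cc : E → Λ → Set (γ.out × N)) (zc : E → Λ → N),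
      (∀ e e', e ≠ e' → F e ⊓ F e' = ⊥) ∧
      (lb ≤ #{x : N // iN x ∈ u.1} →
        #{a : Λ // iΛ a ∈ u.1} ≤ Order.succ (Order.succ #{x : N // iN x ∈ u.1}) →
        ⨆ e, F e = ⊤) ∧
      (∀ e a, #(cc e a) < γ) ∧
      (∀ e a, ∀ x ∈ cc e a, iN x.2 ∈ u.1) ∧
      ∀ e a b q, iΛ a ∈ u.1 → iΛ b ∈ u.1 → a ≤ b → q ∈ F e → sc e a = sc e b →
        cc e a = cc e b → ∃ r ≤ tm m, (Sm m).rel (r, q) a b (zc e a) (zc e b) := by
    intro u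
    by_cases h : lb ≤ #{x : N // iN x ∈ u.1} ∧
        #{a : Λ // iΛ a ∈ u.1} ≤ Order.succ (Order.succ #{x : N // iN x ∈ u.1})
    · obtain ⟨h1, h2⟩ := h
      have hμκ : #{x : N // iN x ∈ u.1} < κ := by
        refine lt_of_le_of_lt ?_ u.2
        exact mk_le_of_injective (f := fun x : {x : N // iN x ∈ u.1} => (⟨iN x.1, x.2⟩ : u.1))
          fun x y h => Subtype.ext (hiN (congrArg Subtype.val h))
      obtain ⟨m, hm⟩ := hmu _ h1 hμκ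
      obtain ⟨E, F, sc, cc, zc, h3, h4, h5, h6, h7⟩ := data1 hκs hγ hlb hQ hΛ hκν o s0 (Sm m)
        (tm m) iΛ iN hiΛ hiN u hm (by rw [hm]; exact h1) (by rw [hm]; exact h2)
      exact ⟨E, F, m, sc, cc, zc, h3, fun _ _ => h4, h5, h6, h7⟩
    · obtain ⟨m, -⟩ := hmu lb le_rfl hlbκ
      exact ⟨PEmpty, fun e => e.elim, m, fun e => e.elim, fun e => e.elim, fun e => e.elim,
        fun e => e.elim, fun h1 h2 => absurd ⟨h1, h2⟩ h, fun e => e.elim, fun e => e.elim,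
        fun e => e.elim⟩
  choose E F m sc cc zc h1 h2 h3 h4 h5 using key
  exact ⟨E, F, m, sc, cc, zc, h1, h2, h3, h4, h5⟩

end STP
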