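import Pool.Agent.STP.RO

/-! # The order type of a Boolean valued set of ordinals (package X02)

(problem MP_e44aae_lc, project STP)

`z α` is the truth value of `α ∈ Z`, `Z` a set of ordinals `< lam`. `D` is a set of ordinals containing `Z` (`z α = ⊥` for `α ∉ D`), such that each proper initial segment of `D` has order type less than `γ.ord` (fewer than `γ` elements, `γ` infinite), and `Z` contains (with value `⊤`) a strictly increasing sequence
`s : γ.ord.ToType → Ordinal` of ordinals `< lam`. Then `Z` has the order type `γ.ord`, i.e. there is a Boolean valued order isomorphism `f i α` (`i < γ.ord`, `α < lam`).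

Proof. Define by well-founded recursion on `α`: `ge α i := ⨅ i' < i, ⨆ β < α, z β ⊓ ge β i'` (the truth value of: `Z ∩ α` has order type at least `i`). Let `X α i := ⨆ β < α, z β ⊓ ge β i`. Facts:
(1) `ge` is antitone in `i`, monotone in `α`; `ge α 0 = ⊤`; `ge α (succ i) = X α i` (`X` is antitone in `i`); `ge α i = ⨅ i' < i, ge α (succ i')`.
(2) `ge α i = ⊥` unless `i ≤` the order type of `D ∩ α`; hence `ge α γ.ord = ⊥` for `α < lam` (induction on `α`: if `ge α i ≠ ⊥` then for each `i' < i` there is `β < α`, `β ∈ D`, with `ge β i' ≠ ⊥`; so the order type of `D ∩ α` is at least `i`; a set of order type `γ.ord` has `γ` elements).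
(3) for `β < α`: `z β ⊓ ge β i ≤ ge α (succ i)`.
(4) `ge (s i) i = ⊤` (induction on `i`: for `i' < i`, `s i' < s i`, `z (s i') = ⊤`, `ge (s i') i' = ⊤`).
(5) `⨆ i < γ.ord, ge α i ⊓ (ge α (succ i))ᶜ = ⊤` for `α < lam`: otherwise let `b := ` its complement; by induction on `i ≤ γ.ord`, `b ≤ ge α i` (`i = 0`; successor: `b ⊓ ge α i ≤ ge α (succ i)`; limit: (1)); so `b ≤ ge α γ.ord = ⊥`.
`f i α := z α ⊓ ge α i ⊓ (ge α (succ i))ᶜ`.
`f_z`: `f i α ≤ z α`. `f_onto`: `z α ≤ ⨆ i, f i α` by (5). `f_order`: for `i < j`: `f i α ⊓ f j β = ⊥` unless `α < β`: if `α = β`: `ge α j ≤ ge α (succ i)`; if `β < α`: `z β ⊓ ge β j ≤ ge α (succ j) ≤ ge α (succ i)`. `f_uniq`: `f i α ⊓ f i β = ⊥` for `α ≠ β`: say `β < α`: `z β ⊓ ge β i ≤ ge α (succ i)`.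
`f_total`: `⨆ α < lam, f i α = ⊤` for `i < γ.ord`: let `y α := z α ⊓ ge α i`; `y (s i) = ⊤` by (4); `⨆ α, y α ≤ ⨆ α, (y α ⊓ ⨅ β < α, (y β)ᶜ)` (least element principle, well-founded induction), and `⨅ β < α, (y β)ᶜ ≤ (X α i)ᶜ = (ge α (succ i))ᶜ`. -/

universe u

namespace STP

open Cardinal

section

variable {B : Type u} [CompleteBooleanAlgebra B]

/-- the truth value of: `Z ∩ α` has order type at least `i` -/
private noncomputable def ge (z : Ordinal.{u} → B) (α : Ordinal.{u}) : Ordinal.{u} → B :=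
  fun i => ⨅ i' : Set.Iio i, ⨆ β : Set.Iio α, z β.1 ⊓ ge z β.1 i'.1
termination_by α
decreasing_by exact β.2

private theorem ge_eq (z : Ordinal.{u} → B) (α i : Ordinal.{u}) :
    ge z α i = ⨅ i' : Set.Iio i, ⨆ β : Set.Iio α, z β.1 ⊓ ge z β.1 i'.1 := by
  rw [ge]

private theorem ge_anti (z : Ordinal.{u} → B) (α : Ordinal.{u}) {i j : Ordinal.{u}} (h : i ≤ j) :
    ge z α j ≤ ge z α i := by
  rw [ge_eq, ge_eq]
  exact le_iInf fun i' => iInf_le_of_le ⟨i'.1, lt_of_lt_of_le i'.2 h⟩ le_rfl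

private theorem ge_succ (z : Ordinal.{u} → B) (α i : Ordinal.{u}) :
    ge z α (Order.succ i) = ⨆ β : Set.Iio α, z β.1 ⊓ ge z β.1 i := by
  rw [ge_eq]
  apply le_antisymm
  · exact iInf_le (fun i' : Set.Iio (Order.succ i) => ⨆ β : Set.Iio α, z β.1 ⊓ ge z β.1 i'.1)
      ⟨i, Order.lt_succ i⟩
  · refine le_iInf fun i' => iSup_mono fun β => ?_
    exact inf_le_inf le_rfl (ge_anti z _ (Order.lt_succ_iff.1 i'.2))

private theorem ge_eq' (z : Ordinal.{u} → B) (α i : Ordinal.{u}) :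
    ge z α i = ⨅ i' : Set.Iio i, ge z α (Order.succ i'.1) := by
  rw [ge_eq]
  exact iInf_congr fun i' => (ge_succ z α i'.1).symm

private theorem le_ge_succ (z : Ordinal.{u} → B) {α β : Ordinal.{u}} (h : β < α)
    (i : Ordinal.{u}) : z β ⊓ ge z β i ≤ ge z α (Order.succ i) := by
  rw [ge_succ]
  exact le_iSup (fun β : Set.Iio α => z β.1 ⊓ ge z β.1 i) ⟨β, h⟩

/-- the enumeration of `D` -/
private noncomputable def en (D : Set Ordinal.{u}) (i : Ordinal.{u}) : Ordinal.{u} :=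
  sInf {β | β ∈ D ∧ ∀ i' : Set.Iio i, en D i'.1 < β}
termination_by i
decreasing_by exact i'.2

private theorem en_eq (D : Set Ordinal.{u}) (i : Ordinal.{u}) :
    en D i = sInf {β | β ∈ D ∧ ∀ i' : Set.Iio i, en D i'.1 < β} := by
  rw [en]

private theorem en_of_ge (lam : Ordinal.{u}) (z : Ordinal.{u} → B) (D : Set Ordinal.{u})
    (hD : ∀ α < lam, α ∉ D → z α = ⊥) (α : Ordinal.{u}) :
    α < lam → ∀ i, ge z α i ≠ ⊥ → ∀ i' < i, en D i' < α ∧ en D i' ∈ D ∧
      ∀ i'' < i', en D i'' < en D i' := by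
  induction α using WellFoundedLT.induction with
  | ind α ih =>
    intro hα i hne i' hi'
    have h1 : ge z α (Order.succ i') ≠ ⊥ := by
      intro h
      apply hne
      rw [eq_bot_iff, ← h]
      exact ge_anti z α (Order.succ_le_of_lt hi')
    rw [ge_succ] at h1
    obtain ⟨β, hβ⟩ : ∃ β : Set.Iio α, z β.1 ⊓ ge z β.1 i' ≠ ⊥ := by
      by_contra hc
      push Not at hc
      exact h1 (by simp only [hc, iSup_bot])
    have hβα : β.1 < α := β.2
    have hβD : β.1 ∈ D := by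
      by_contra hc
      rw [hD β.1 (hβα.trans hα) hc, bot_inf_eq] at hβ
      exact hβ rfl
    have h2 : ge z β.1 i' ≠ ⊥ := by
      intro h
      rw [h, inf_bot_eq] at hβ
      exact hβ rfl
    have h3 := ih β.1 hβα (hβα.trans hα) i' h2
    have h4 : β.1 ∈ {β | β ∈ D ∧ ∀ i'' : Set.Iio i', en D i''.1 < β} :=
      ⟨hβD, fun i'' => (h3 i''.1 i''.2).1⟩
    have h5 := csInf_mem (s := {β | β ∈ D ∧ ∀ i'' : Set.Iio i', en D i''.1 < β}) ⟨_, h4⟩
    rw [← en_eq] at h5
    refine ⟨?_, h5.1, fun i'' h => h5.2 ⟨i'', h⟩⟩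
    refine lt_of_le_of_lt ?_ hβα
    rw [en_eq]
    exact csInf_le' h4

end

theorem order_type {B : Type u} [CompleteBooleanAlgebra B] {γ : Cardinal.{u}} (hγ : ℵ₀ ≤ γ)
    (lam : Ordinal.{u}) (z : Ordinal.{u} → B) (D : Set Ordinal.{u})
    (hD : ∀ α < lam, α ∉ D → z α = ⊥)
    (hDα : ∀ α < lam, ∃ A : Type u, #A < γ ∧ Nonempty ({β // β ∈ D ∧ β < α} ↪ A))
    (s : Ordinal.{u} → Ordinal.{u}) (hs : ∀ i j, i < j → j < γ.ord → s i < s j)
    (hsl : ∀ i < γ.ord, s i < lam) (hsz : ∀ i < γ.ord, z (s i) = ⊤) :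
    ∃ f : Ordinal.{u} → Ordinal.{u} → B,
      (∀ i α, i < γ.ord → α < lam → f i α ≤ z α) ∧
      (∀ α < lam, z α ≤ ⨆ i : Set.Iio γ.ord, f i.1 α) ∧
      (∀ i j α β, i < j → j < γ.ord → α < lam → β < lam → ¬ α < β → f i α ⊓ f j β = ⊥) ∧
      (∀ i α β, i < γ.ord → α < lam → β < lam → α ≠ β → f i α ⊓ f i β = ⊥) ∧
      ∀ i < γ.ord, ⨆ α : Set.Iio lam, f i α.1 = ⊤ := by
  classical
  -- (2)
  have h2 : ∀ α < lam, ge z α γ.ord = ⊥ := by
    intro α hα
    by_contra hne
    have h := en_of_ge lam z D hD α hα γ.ord hne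
    obtain ⟨A, hA, ⟨e⟩⟩ := hDα α hα
    have hmem : ∀ x : γ.ord.ToType, (Ordinal.ToType.mk.symm x).1 < γ.ord := fun x =>
      (Ordinal.ToType.mk.symm x).2
    have hinj : Function.Injective fun x : γ.ord.ToType =>
        e ⟨en D (Ordinal.ToType.mk.symm x).1,
          (h _ (hmem x)).2.1, (h _ (hmem x)).1⟩ := by
      intro x y hxy
      have h1 := congrArg Subtype.val (e.injective hxy)
      change en D (Ordinal.ToType.mk.symm x).1 = en D (Ordinal.ToType.mk.symm y).1 at h1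
      apply Ordinal.ToType.mk.symm.injective
      apply Subtype.ext
      rcases lt_trichotomy (Ordinal.ToType.mk.symm x).1 (Ordinal.ToType.mk.symm y).1 with
        h3 | h3 | h3
      · exact absurd h1 ((h _ (hmem y)).2.2 _ h3).ne
      · exact h3
      · exact absurd h1 ((h _ (hmem x)).2.2 _ h3).ne'
    have h4 := Cardinal.mk_le_of_injective hinj
    rw [Cardinal.mk_toType, Cardinal.card_ord] at h4
    exact absurd hA (not_lt.2 h4)
  -- (4)
  have h4 : ∀ i < γ.ord, ge z (s i) i = ⊤ := by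
    intro i
    induction i using WellFoundedLT.induction with
    | ind i ih =>
      intro hi
      rw [ge_eq, iInf_eq_top]
      intro i'
      have h5 : i'.1 < i := i'.2
      rw [eq_top_iff]
      refine le_iSup_of_le (⟨s i'.1, hs _ _ h5 hi⟩ : Set.Iio (s i)) ?_
      rw [hsz _ (h5.trans hi), ih _ h5 (h5.trans hi), inf_idem]
  -- (5)
  have h5 : ∀ α < lam, (⨆ i : Set.Iio γ.ord, ge z α i.1 ⊓ (ge z α (Order.succ i.1))ᶜ) = ⊤ := by
    intro α hα
    have key : ∀ i ≤ γ.ord,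
        (⨆ i : Set.Iio γ.ord, ge z α i.1 ⊓ (ge z α (Order.succ i.1))ᶜ)ᶜ ≤ ge z α i := by
      intro i
      induction i using WellFoundedLT.induction with
      | ind i ih =>
        intro hi
        rw [ge_eq' z α i]
        refine le_iInf fun i' => ?_
        have h6 : i'.1 < i := i'.2
        have h7 := ih i'.1 h6 (h6.le.trans hi)
        have h8 : (⨆ i : Set.Iio γ.ord, ge z α i.1 ⊓ (ge z α (Order.succ i.1))ᶜ)ᶜ ≤
            (ge z α i'.1 ⊓ (ge z α (Order.succ i'.1))ᶜ)ᶜ := by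
          apply compl_le_compl
          exact le_iSup (fun i : Set.Iio γ.ord => ge z α i.1 ⊓ (ge z α (Order.succ i.1))ᶜ)
            ⟨i'.1, lt_of_lt_of_le h6 hi⟩
        rw [compl_inf, compl_compl] at h8
        calc (⨆ i : Set.Iio γ.ord, ge z α i.1 ⊓ (ge z α (Order.succ i.1))ᶜ)ᶜ
            ≤ ge z α i'.1 ⊓ ((ge z α i'.1)ᶜ ⊔ ge z α (Order.succ i'.1)) := le_inf h7 h8
          _ ≤ ge z α (Order.succ i'.1) := by
            rw [inf_sup_left, inf_compl_eq_bot, bot_sup_eq]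
            exact inf_le_right
    have h6 := key γ.ord le_rfl
    rw [h2 α hα, le_bot_iff, compl_eq_bot] at h6
    exact h6
  refine ⟨fun i α => z α ⊓ ge z α i ⊓ (ge z α (Order.succ i))ᶜ, ?_, ?_, ?_, ?_, ?_⟩
  · intro i α _ _
    exact inf_le_left.trans inf_le_left
  · intro α hα
    calc z α = z α ⊓ ⨆ i : Set.Iio γ.ord, ge z α i.1 ⊓ (ge z α (Order.succ i.1))ᶜ := by
          rw [h5 α hα, inf_top_eq]
      _ = ⨆ i : Set.Iio γ.ord, z α ⊓ ge z α i.1 ⊓ (ge z α (Order.succ i.1))ᶜ := by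
          rw [inf_iSup_eq]
          exact iSup_congr fun i => (inf_assoc _ _ _).symm
      _ ≤ _ := le_rfl
  · intro i j α β hij hj hα hβ hn
    rw [eq_bot_iff]
    rcases (not_lt.1 hn).eq_or_lt with h | h
    · subst h
      calc z β ⊓ ge z β i ⊓ (ge z β (Order.succ i))ᶜ ⊓ (z β ⊓ ge z β j ⊓ (ge z β (Order.succ j))ᶜ)
          ≤ (ge z β (Order.succ i))ᶜ ⊓ ge z β j :=
            inf_le_inf inf_le_right (inf_le_left.trans inf_le_right)
        _ ≤ (ge z β (Order.succ i))ᶜ ⊓ ge z β (Order.succ i) :=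
            inf_le_inf le_rfl (ge_anti z β (Order.succ_le_of_lt hij))
        _ = ⊥ := compl_inf_eq_bot
        _ ≤ ⊥ := le_rfl
    · calc z α ⊓ ge z α i ⊓ (ge z α (Order.succ i))ᶜ ⊓ (z β ⊓ ge z β j ⊓ (ge z β (Order.succ j))ᶜ)
          ≤ (ge z α (Order.succ i))ᶜ ⊓ (z β ⊓ ge z β j) :=
            inf_le_inf inf_le_right inf_le_left
        _ ≤ (ge z α (Order.succ i))ᶜ ⊓ ge z α (Order.succ i) :=
            inf_le_inf le_rfl ((le_ge_succ z h j).trans
              (ge_anti z α (Order.succ_le_succ hij.le)))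
        _ = ⊥ := compl_inf_eq_bot
        _ ≤ ⊥ := le_rfl
  · intro i α β hi hα hβ hne
    have key : ∀ α β, β < α → z α ⊓ ge z α i ⊓ (ge z α (Order.succ i))ᶜ ⊓
        (z β ⊓ ge z β i ⊓ (ge z β (Order.succ i))ᶜ) ≤ ⊥ := by
      intro α β h
      calc z α ⊓ ge z α i ⊓ (ge z α (Order.succ i))ᶜ ⊓ (z β ⊓ ge z β i ⊓ (ge z β (Order.succ i))ᶜ)
          ≤ (ge z α (Order.succ i))ᶜ ⊓ (z β ⊓ ge z β i) :=
            inf_le_inf inf_le_right inf_le_left
        _ ≤ (ge z α (Order.succ i))ᶜ ⊓ ge z α (Order.succ i) :=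
            inf_le_inf le_rfl (le_ge_succ z h i)
        _ = ⊥ := compl_inf_eq_bot
    rw [eq_bot_iff]
    rcases lt_or_gt_of_ne hne with h | h
    · rw [inf_comm]
      exact key β α h
    · exact key α β h
  · intro i hi
    set b : B := (⨆ α : Set.Iio lam, z α.1 ⊓ ge z α.1 i ⊓ (ge z α.1 (Order.succ i))ᶜ)ᶜ with hb
    have key : ∀ α < lam, b ⊓ (z α ⊓ ge z α i) ≤ ⊥ := by
      intro α
      induction α using WellFoundedLT.induction with
      | ind α ih =>
        intro hα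
        have h6 : b ≤ (z α ⊓ ge z α i ⊓ (ge z α (Order.succ i))ᶜ)ᶜ := by
          rw [hb]
          apply compl_le_compl
          exact le_iSup (fun α : Set.Iio lam => z α.1 ⊓ ge z α.1 i ⊓
            (ge z α.1 (Order.succ i))ᶜ) ⟨α, hα⟩
        rw [compl_inf, compl_compl] at h6
        have h7 : b ⊓ (z α ⊓ ge z α i) ≤ ge z α (Order.succ i) := by
          calc b ⊓ (z α ⊓ ge z α i)
              ≤ ((z α ⊓ ge z α i)ᶜ ⊔ ge z α (Order.succ i)) ⊓ (z α ⊓ ge z α i) :=
                inf_le_inf h6 le_rfl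
            _ ≤ ge z α (Order.succ i) := by
              rw [inf_sup_right, compl_inf_eq_bot, bot_sup_eq]
              exact inf_le_left
        rw [ge_succ] at h7
        have h8 : b ⊓ (z α ⊓ ge z α i) ≤
            b ⊓ ⨆ β : Set.Iio α, z β.1 ⊓ ge z β.1 i := le_inf inf_le_left h7
        refine h8.trans ?_
        rw [inf_iSup_eq]
        refine iSup_le fun β => ?_
        have h9 : β.1 < α := β.2
        exact ih β.1 h9 (h9.trans hα)
    have h6 := key (s i) (hsl i hi)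
    rw [hsz i hi, h4 i hi, inf_idem, inf_top_eq, le_bot_iff, hb, compl_eq_bot] at h6
    exact h6

end STP
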