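import Pool.Agent.STP.XStg

/-! # Existence of blocks (package X1)

(problem MP_e44aae_lc, project STP, X-half)

* `exists_block`: `Γ = γ.ord.ToType`. `kb > max γ c` from `hLI`; `k : Γ → Cardinal` by well-founded recursion (`WellFoundedLT.fix`, or `TR` of `Rec.lean`): given the earlier values `k j`, `j < i`, choose `k i > max kb (⨆ j : {j // j < i}, k j)` with `LI (k i)`
  (`hLI (max kb (⨆ j : {j // j < i}, k j))`; `k j ≤ ⨆` by `le_ciSup bddAbove_of_small`, compare `BlkA.lean`). `Block.init`: initial segments of `γ.ord.ToType` have fewer than `γ` elements (`Ordinal.mk_Iio_ord_toType` / `Cardinal.mk_Iio_ord_toType`; add the point `i`: `{j // j ≤ i}`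
  is covered by `{j // j < i}` and `i`, `γ` infinite; compare `ThmB.lean`, `Bdd.lean`). `Block.card`: `Cardinal.mk_ord_toType`. `Block.mono` from the construction.
* `exists_ch`: `exists_block` with `c = #σ.S`, then `thmB` with `N = (nu k).ord.ToType` (`Cardinal.mk_ord_toType`). -/

universe u

namespace STP

open Cardinal

theorem exists_block (hLI : ∀ c : Cardinal.{u}, ∃ κ, c < κ ∧ LI κ) {γ : Cardinal.{u}}
    (hγ : γ.IsRegular) (c : Cardinal.{u}) :
    ∃ (kb : Cardinal.{u}) (k : γ.ord.ToType → Cardinal.{u}), c < kb ∧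
      Block γ.ord.ToType γ kb k := by
  classical
  obtain ⟨kb, hkb, hkb'⟩ := hLI (max γ c)
  choose F hF1 hF2 using hLI
  let k : γ.ord.ToType → Cardinal.{u} := WellFoundedLT.fix fun i rec =>
    F (max kb (⨆ j : {j : γ.ord.ToType // j < i}, rec j.1 j.2))
  have hk : ∀ i, k i = F (max kb (⨆ j : {j : γ.ord.ToType // j < i}, k j.1)) :=
    fun i => WellFoundedLT.fix_eq _ i
  have hIio : ∀ i : γ.ord.ToType, #{j : γ.ord.ToType // j < i} < γ := by
    intro i
    have h3 := Cardinal.mk_Iio_lt i (by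
      rw [Cardinal.mk_ord_toType]
      exact (Ordinal.type_toType _).symm)
    rw [Cardinal.mk_ord_toType] at h3
    exact h3
  refine ⟨kb, k, (le_max_right _ _).trans_lt hkb, ?_⟩
  refine ⟨inferInstance, hγ, Cardinal.mk_ord_toType γ, fun i => ?_, hkb', fun i => ?_,
    (le_max_left _ _).trans_lt hkb, fun i => ?_, fun i j hij => ?_⟩
  · have h1 : #{j : γ.ord.ToType // j ≤ i} ≤ #{j : γ.ord.ToType // j < i} + 1 := by
      have h2 := Cardinal.mk_insert_le (s := Set.Iio i) (a := i)
      rw [Set.Iio_insert] at h2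
      exact h2
    exact h1.trans_lt (Cardinal.add_lt_of_lt hγ.aleph0_le (hIio i)
      (Cardinal.one_lt_aleph0.trans_le hγ.aleph0_le))
  · rw [hk]
    exact hF2 _
  · rw [hk]
    exact (le_max_left _ _).trans_lt (hF1 _)
  · rw [hk j]
    exact ((le_ciSup (f := fun j' : {j' : γ.ord.ToType // j' < j} => k j'.1)
      Cardinal.bddAbove_of_small ⟨i, hij⟩).trans (le_max_right _ _)).trans_lt (hF1 _)

theorem exists_ch (hLI : ∀ c : Cardinal.{u}, ∃ κ, c < κ ∧ LI κ) (σ : Stg.{u}) :
    Nonempty (Ch σ) := by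
  obtain ⟨kb, k, hS, hB⟩ := exists_block hLI σ.reg #σ.S
  obtain ⟨μ, h0, h1, h2, h3, h4⟩ := thmB hB (N := (nu k).ord.ToType) hS (Cardinal.mk_ord_toType _)
  exact ⟨⟨kb, k, hB, hS, μ, h0, h1, h2, h3, h4⟩⟩

end STP
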