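import Pool.Agent.STP.XStg

/-! # Size and closure of the forcing of a block (package X3)

(problem MP_e44aae_lc, project STP, X-half)

* `few_zero`: the only infinite cardinal `≤ ℵ₀` is `ℵ₀`: `A = PUnit`. `few_succ`: the infinite cardinals `≤ succ t` are `succ t` and cardinals `≤ t`; the cardinals `≤ t` are given by ordinals `≤ t.ord`: `A = Option (Order.succ t.ord).ToType` (`#A = t < succ t` as `t` is infinite),
  `f none = succ t`, `f (some a) = (typein a).card` (for `d ≤ t`: `d.ord ≤ t.ord < Order.succ t.ord`, take the element of rank `d.ord`; or `f (some a) = #{y // y < a}`, compare `ThmB.lean`, private lemma about `Mi`).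
* `PB.dc`: `Col σ.γ _` and `Col (s3 μ) _` are clique posets for a regular cardinal (`Clq.dc`; `γ ≤ μ < s3 μ`, `isRegular_succ`), `HR` is `DC kb⁺⁺` (`Block.dc_HR`), `γ < kb`.
* `Ch.card_next`: `#(S × PB) = #(TT S γ kb μ × HR) ≤ kb * 2 ^ nu = 2 ^ nu < succ (2 ^ nu)` (`Block.card_TT`, `Block.card_HR`, `Block.kb_lt_nu`, `mul_eq_self`; reassociation of the product).
* `tail_dc`: the product of the forcings of later blocks is `DC`. -/

universe u

namespace STP

open Cardinal

theorem few_zero : Few.{u} ℵ₀ := by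
  refine ⟨PUnit, fun _ => ℵ₀, ?_, fun d h1 h2 => ⟨PUnit.unit, le_antisymm h1 h2⟩⟩
  rw [Cardinal.mk_fintype]
  exact Cardinal.natCast_lt_aleph0

theorem few_succ {t : Cardinal.{u}} (ht : ℵ₀ ≤ t) : Few (Order.succ t) := by
  classical
  refine ⟨Option (Order.succ t.ord).ToType, fun x => match x with
    | none => Order.succ t
    | some a => ((Ordinal.ToType.mk.symm a : Set.Iio _) : Ordinal.{u}).card, ?_, fun d h1 h2 => ?_⟩
  · rw [Cardinal.mk_option, Cardinal.mk_toType, Ordinal.card_succ, Cardinal.card_ord,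
      Cardinal.add_one_eq ht, Cardinal.add_one_eq ht]
    exact Order.lt_succ t
  · rcases h2.eq_or_lt with h3 | h3
    · exact ⟨none, h3.symm⟩
    · have h4 : d.ord < Order.succ t.ord :=
        Order.lt_succ_iff.2 (Cardinal.ord_le_ord.2 (Order.lt_succ_iff.1 h3))
      refine ⟨some (Ordinal.ToType.mk ⟨d.ord, h4⟩), ?_⟩
      change ((Ordinal.ToType.mk.symm (Ordinal.ToType.mk ⟨d.ord, h4⟩) : Set.Iio _) :
        Ordinal.{u}).card = d
      rw [OrderIso.symm_apply_apply, Cardinal.card_ord]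

theorem PB.dc (σ : Stg.{u}) (c : Ch σ) : DC σ.γ (PB σ c) := by
  have h0 : ℵ₀ ≤ c.μ := σ.reg.aleph0_le.trans c.γμ
  have h1 : ℵ₀ ≤ Order.succ c.μ := h0.trans (Order.le_succ _)
  have h2 : ℵ₀ ≤ Order.succ (Order.succ c.μ) := h1.trans (Order.le_succ _)
  have h3 : σ.γ ≤ s3 c.μ :=
    ((c.γμ.trans (Order.le_succ _)).trans (Order.le_succ _)).trans (Order.le_succ _)
  have h4 : σ.γ ≤ Order.succ (Order.succ c.kb) :=
    (c.blk.gkb.le.trans (Order.le_succ _)).trans (Order.le_succ _)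
  refine DC.prod (DC.prod (Clq.dc σ.reg) (DC.mono h3 (Clq.dc ?_))) (DC.mono h4 c.blk.dc_HR)
  exact Cardinal.isRegular_succ h2

theorem Ch.card_next {σ : Stg.{u}} (c : Ch σ) :
    #(σ.S × PB σ c) < Order.succ (2 ^ nu c.k) := by
  have h0 := c.blk.aleph0_le_nu
  have hpow : ℵ₀ ≤ (2 : Cardinal.{u}) ^ nu c.k := h0.trans (Cardinal.cantor _).le
  have e : σ.S × PB σ c ≃ TT σ.S σ.γ c.kb c.μ × HR c.kb c.k :=
    { toFun := fun x => (((x.1, x.2.1.1), x.2.1.2), x.2.2)
      invFun := fun y => (y.1.1.1, ((y.1.1.2, y.1.2), y.2))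
      left_inv := fun _ => rfl
      right_inv := fun _ => rfl }
  rw [Cardinal.mk_congr e, Order.lt_succ_iff, Cardinal.mk_prod, Cardinal.lift_id,
    Cardinal.lift_id]
  refine (mul_le_mul' (((c.blk.card_TT c.hS c.μk).trans c.blk.kb_lt_nu.le).trans
    (Cardinal.cantor _).le) c.blk.card_HR).trans ?_
  rw [Cardinal.mul_eq_self hpow]

end STP
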