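import Pool.Agent.STP.Cls

/-! # Products over the natural numbers (package X2)

(problem MP_e44aae_lc, project STP, X-half)

* `DC.piN`: products of `δ`-directed closed posets over an index type `ι : Type` (copy the proof of `DC.pi`, it is not sensitive to the universe of `ι`; only `mk_image_le` for the coordinate projections of `D : Set (∀ i, P i)`, and `∀ i, P i : Type u`).
* `pi_main`: given posets `S n` with `S 0` a one point type and `S (n + 1) ≃o S n × P n`, the product over `ℕ` is isomorphic to `(S n × P n) × ∏_{m > n} P m`, and the factor `n` is kept. Proof: (a) `pi_split`: the product over `ℕ` is the product over `m < n`, the factor `n`, and the product over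
  `m > n` (case distinction; compare `split_iso` in `SplitIso.lean`); (b) `pi_succ`: the product over `m < n + 1` is the product over `m < n` times the factor `n`; (c) `piE`: the product over `m < n` is isomorphic to `S n`, by induction with `pi_succ` and `OrderIso` of products
  (`OrderIso.prodCongr` if it exists, otherwise write it out; `n = 0`: both are one point types). -/

universe u

namespace STP

open Cardinal

theorem DC.piN {δ : Cardinal.{u}} {ι : Type} {P : ι → Type u} [∀ i, Preorder (P i)]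
    (h : ∀ i, DC δ (P i)) : DC δ (∀ i, P i) := by
  intro D hD hc
  have h1 : ∀ i, ∃ p, ∀ d ∈ (fun f : ∀ i, P i => f i) '' D, p ≤ d := by
    intro i
    refine h i _ ?_ (mk_image_le.trans_lt hc)
    rintro _ ⟨x, hx, rfl⟩ _ ⟨y, hy, rfl⟩
    obtain ⟨z, hz, h1, h2⟩ := hD x hx y hy
    exact ⟨z i, ⟨z, hz, rfl⟩, h1 i, h2 i⟩
  choose p hp using h1
  exact ⟨p, fun d hd i => hp i _ ⟨d, hd, rfl⟩⟩

private theorem mk_iso {α β : Type u} [PartialOrder α] [PartialOrder β] (f : α → β)
    (hf : ∀ x y, f x ≤ f y ↔ x ≤ y) (hs : Function.Surjective f) :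
    ∃ e : α ≃o β, ∀ x, e x = f x :=
  ⟨RelIso.ofSurjective (OrderEmbedding.ofMapLEIff f hf) hs, fun _ => rfl⟩

private theorem pi_succ (P : ℕ → Type u) [∀ n, PartialOrder (P n)] (n : ℕ) :
    Nonempty ((∀ m : {m // m < n + 1}, P m.1) ≃o (∀ m : {m // m < n}, P m.1) × P n) := by
  obtain ⟨e, -⟩ := mk_iso
    (fun f : (∀ m : {m // m < n + 1}, P m.1) =>
      (((fun m : {m // m < n} => f ⟨m.1, m.2.trans (Nat.lt_succ_self n)⟩),
        f ⟨n, Nat.lt_succ_self n⟩) : (∀ m : {m // m < n}, P m.1) × P n)) (by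
      intro x y
      constructor
      · rintro ⟨h1, h2⟩ ⟨m, hm⟩
        rcases Nat.lt_or_eq_of_le (Nat.lt_succ_iff.1 hm) with h | rfl
        · exact h1 ⟨m, h⟩
        · exact h2
      · intro h
        exact ⟨fun m => h _, h _⟩) (by
      rintro ⟨g, x⟩
      have h1 : ∀ m : {m // m < n + 1}, ∃ y : P m.1, (∀ h : m.1 < n, y = g ⟨m.1, h⟩) ∧
          ∀ h : m.1 = n, h ▸ y = x := by
        rintro ⟨m, hm⟩
        rcases Nat.lt_or_eq_of_le (Nat.lt_succ_iff.1 hm) with h | rfl
        · exact ⟨g ⟨m, h⟩, fun _ => rfl, fun h' => absurd h' h.ne⟩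
        · exact ⟨x, fun h => absurd h (lt_irrefl _), fun _ => rfl⟩
      choose f hf1 hf2 using h1
      refine ⟨f, Prod.ext ?_ (hf2 ⟨n, Nat.lt_succ_self n⟩ rfl)⟩
      funext m
      exact hf1 ⟨m.1, m.2.trans (Nat.lt_succ_self n)⟩ m.2)
  exact ⟨e⟩

private theorem piE (P : ℕ → Type u) [∀ n, PartialOrder (P n)] (S : ℕ → Type u)
    [∀ n, PartialOrder (S n)] (h0 : Nonempty (Unique (S 0)))
    (hs : ∀ n, Nonempty (S (n + 1) ≃o S n × P n)) (n : ℕ) :
    Nonempty ((∀ m : {m // m < n}, P m.1) ≃o S n) := by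
  induction n with
  | zero =>
    obtain ⟨hu⟩ := h0
    obtain ⟨e, -⟩ := mk_iso (fun _ : (∀ m : {m // m < 0}, P m.1) => (default : S 0)) (by
      intro x y
      refine ⟨fun _ m => absurd m.2 (Nat.not_lt_zero _), fun _ => le_rfl⟩) (by
      intro x
      exact ⟨fun m => absurd m.2 (Nat.not_lt_zero _), Subsingleton.elim _ _⟩)
    exact ⟨e⟩
  | succ n ih =>
    obtain ⟨e⟩ := ih
    obtain ⟨e1⟩ := pi_succ P n
    obtain ⟨e2⟩ := hs n
    obtain ⟨e3, -⟩ := mk_iso (fun q : (∀ m : {m // m < n}, P m.1) × P n =>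
        ((e q.1, q.2) : S n × P n)) (by
      intro x y
      constructor
      · rintro ⟨h1, h2⟩
        exact ⟨e.le_iff_le.1 h1, h2⟩
      · rintro ⟨h1, h2⟩
        exact ⟨e.le_iff_le.2 h1, h2⟩) (by
      rintro ⟨a, b⟩
      exact ⟨(e.symm a, b), Prod.ext (e.apply_symm_apply a) rfl⟩)
    exact ⟨(e1.trans e3).trans e2.symm⟩

theorem pi_main (P : ℕ → Type u) [∀ n, PartialOrder (P n)] (S : ℕ → Type u)
    [∀ n, PartialOrder (S n)] (h0 : Nonempty (Unique (S 0)))
    (hs : ∀ n, Nonempty (S (n + 1) ≃o S n × P n)) (n : ℕ) :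
    Nonempty { e : (∀ m, P m) ≃o (S n × P n) × (∀ m : {m // n < m}, P m.1) //
      ∀ x, (e x).1.2 = x n } := by
  obtain ⟨E⟩ := piE P S h0 hs n
  obtain ⟨e, he⟩ := mk_iso (fun x : (∀ m, P m) =>
      (((E fun m => x m.1, x n), fun m : {m // n < m} => x m.1) :
        (S n × P n) × (∀ m : {m // n < m}, P m.1))) (by
    intro x y
    constructor
    · rintro ⟨⟨h1, h2⟩, h3⟩ m
      rcases lt_trichotomy m n with h | rfl | h
      · exact E.le_iff_le.1 h1 ⟨m, h⟩
      · exact h2
      · exact h3 ⟨m, h⟩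
    · intro h
      exact ⟨⟨E.le_iff_le.2 fun m => h _, h _⟩, fun m => h _⟩) (by
    rintro ⟨⟨a, b⟩, g⟩
    have h1 : ∀ m : ℕ, ∃ y : P m, (∀ h : m < n, y = E.symm a ⟨m, h⟩) ∧
        (∀ h : m = n, h ▸ y = b) ∧ ∀ h : n < m, y = g ⟨m, h⟩ := by
      intro m
      rcases lt_trichotomy m n with h | rfl | h
      · exact ⟨E.symm a ⟨m, h⟩, fun _ => rfl, fun h' => absurd h' h.ne,
          fun h' => absurd h' h.asymm⟩
      · exact ⟨b, fun h => absurd h (lt_irrefl _), fun _ => rfl,
          fun h => absurd h (lt_irrefl _)⟩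
      · exact ⟨g ⟨m, h⟩, fun h' => absurd h' h.asymm, fun h' => absurd h' h.ne',
          fun _ => rfl⟩
    choose f hf1 hf2 hf3 using h1
    refine ⟨f, Prod.ext (Prod.ext ?_ (hf2 n rfl)) ?_⟩
    · show E (fun m => f m.1) = a
      have h2 : (fun m : {m // m < n} => f m.1) = E.symm a := by
        funext m
        exact hf1 m.1 m.2
      rw [h2, E.apply_symm_apply]
    · funext m
      exact hf3 m.1 m.2)
  exact ⟨⟨e, fun x => by rw [he]⟩⟩

end STP
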