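import Pool.Agent.STP.XBlk
import Pool.Agent.STP.XPi
import Pool.Agent.STP.XCard

/-! # The sequence of blocks: definitions

(problem MP_e44aae_lc, project STP, X-half; no sorry in this file) -/

universe u

namespace STP

open Cardinal

/-- the first stage -/
def stg0 : Stg.{u} where
  S := PUnit
  γ := ℵ₀
  reg := isRegular_aleph0
  few := few_zero
  sm := Or.inl rfl

/-- the next stage -/
noncomputable def nxt (σ : Stg.{u}) (c : Ch σ) : Stg.{u} where
  S := σ.S × PB σ c
  γ := Order.succ (2 ^ nu c.k)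
  reg := isRegular_succ (c.blk.aleph0_le_nu.trans (cantor _).le)
  few := few_succ (c.blk.aleph0_le_nu.trans (cantor _).le)
  sm := Or.inr c.card_next

/-- the sequence of stages -/
noncomputable def stg (pk : ∀ σ : Stg.{u}, Ch σ) : ℕ → Stg.{u}
  | 0 => stg0
  | n + 1 => nxt (stg pk n) (pk (stg pk n))

/-- the forcing of the block `n` -/
abbrev PN (pk : ∀ σ : Stg.{u}, Ch σ) (n : ℕ) : Type u := PB (stg pk n) (pk (stg pk n))

/-- the cardinal `ν_n` -/
noncomputable def nuN (pk : ∀ σ : Stg.{u}, Ch σ) (n : ℕ) : Cardinal.{u} :=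
  nu (pk (stg pk n)).k

end STP
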