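import Pool.Agent.STP.ThmB
import Pool.Agent.STP.BF

/-! # Stages and blocks: definitions

(problem MP_e44aae_lc, project STP, X-half, architect helper69; no sorry in this file)

`Stg`: what has been constructed before a block: the product `S` of the earlier blocks and the cofinality `γ` of the next one. `Ch σ`: a block over the stage `σ` with the parameter `μ` and the
condition `h0` of `thmB`. `PB σ c`: the forcing of the block `Col(γ, μ) × Col(μ⁺⁺⁺, kb) × HR`. -/

universe u

namespace STP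

open Cardinal

/-- there are fewer than `γ` infinite cardinals `≤ γ` -/
def Few (γ : Cardinal.{u}) : Prop :=
  ∃ (A : Type u) (f : A → Cardinal.{u}), #A < γ ∧ ∀ d, ℵ₀ ≤ d → d ≤ γ → ∃ a, f a = d

/-- a stage -/
structure Stg : Type (u + 1) where
  /-- the product of the earlier blocks -/
  S : Type u
  [po : PartialOrder S]
  [ne : Nonempty S]
  /-- the cofinality -/
  γ : Cardinal.{u}
  reg : γ.IsRegular
  few : Few γ
  sm : γ = ℵ₀ ∨ #S < γ

attribute [instance] Stg.po Stg.ne

/-- the choice of a block over a stage -/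
structure Ch (σ : Stg.{u}) : Type (u + 1) where
  /-- the first supercompact cardinal -/
  kb : Cardinal.{u}
  /-- the other supercompact cardinals -/
  k : σ.γ.ord.ToType → Cardinal.{u}
  blk : Block σ.γ.ord.ToType σ.γ kb k
  hS : #σ.S < kb
  /-- the parameter `μ` -/
  μ : Cardinal.{u}
  /-- the condition -/
  h0 : HR kb k
  γμ : σ.γ ≤ μ
  Sμ : #σ.S ≤ μ
  μk : μ < kb
  thr : ∀ (R : Type u) [PartialOrder R], DC (Order.succ (2 ^ nu k)) R →
    ∀ (t : TT σ.S σ.γ kb μ) (r : R),
      Threads (TT σ.S σ.γ kb μ × (HR kb k × R)) (nu k).ord.ToType (t, h0, r)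

/-- `μ⁺⁺⁺` -/
noncomputable abbrev s3 (μ : Cardinal.{u}) : Cardinal.{u} :=
  Order.succ (Order.succ (Order.succ μ))

/-- the forcing of a block -/
abbrev PB (σ : Stg.{u}) (c : Ch σ) : Type u :=
  (Col σ.γ c.μ.out × Col (s3 c.μ) c.kb.out) × HR c.kb c.k

/-- the empty condition -/
def Clq.emp {X : Type u} {r : X → X → Prop} {δ : Cardinal.{u}} (hδ : 0 < δ) : Clq X r δ :=
  ⟨∅, by rw [Cardinal.mk_eq_zero]; exact hδ, fun _ h => h.elim⟩

/-- the distinguished condition of a block -/
noncomputable def pst (σ : Stg.{u}) (c : Ch σ) : PB σ c :=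
  ((Clq.emp (aleph0_pos.trans_le σ.reg.aleph0_le), Clq.emp (zero_le.trans_lt (Order.lt_succ _))), c.h0)

instance (σ : Stg.{u}) (c : Ch σ) : Nonempty (PB σ c) := ⟨pst σ c⟩

/-- reassociation -/
def asc (S A B H R : Type u) [Preorder S] [Preorder A] [Preorder B] [Preorder H] [Preorder R] :
    (S × ((A × B) × H)) × R ≃o ((S × A) × B) × (H × R) where
  toFun x := (((x.1.1, x.1.2.1.1), x.1.2.1.2), (x.1.2.2, x.2))
  invFun y := ((y.1.1.1, ((y.1.1.2, y.1.2), y.2.1)), y.2.2)
  left_inv _ := rfl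
  right_inv _ := rfl
  map_rel_iff' := by
    rintro ⟨⟨s, ⟨a, b⟩, h⟩, r⟩ ⟨⟨s', ⟨a', b'⟩, h'⟩, r'⟩
    simp only [Equiv.coe_fn_mk, Prod.mk_le_mk]
    tauto

end STP
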