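import Pool.Agent.STP.YOrd
import Pool.Agent.STP.YSeq
import Pool.Agent.STP.Bdd

/-! # Regular cardinals of the extension (package Y03)

(problem MP_e44aae_lc, project STP)

* `bdd_fun`: let `q ≤ p`. Put `W r x y := Fo r (fVal 2 1 0) (vl [ck y, ck x, f]) ∨ (y = 0 ∧ Fo r φ0 (vl [ck x, f, ck c.ord]))`, where `x : a.ToType`, `y : c.ord.ToType` are identified with ordinals (`Ordinal.ToType.toOrd`), and `φ0` is the formula: no element of `ck c.ord` is a value of `f` at `ck x`. `W` is open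
  (`Fo.mono`), it is single valued below `p` only; so use `W' r x y := r ≤ p ∧ W r x y` or (simplest) add `r ≤ p` to the definition (then `BddP` is applied with `p0 := q`): two values: `Fo r (fVal ..)` for `y`, `y'`: `IsFun` gives `ck y = ck y'` in some `NG G` (`Ult.exists_mem` for `RO.up r ≠ ⊥`), so `y = y'` (`ck_eq_iff`). A value `y` of
  the first kind and the second kind contradict each other, `ck y ∈ ck c.ord`. Dense: by `Fo.dec` either `φ0` or there is a value in `ck c.ord` (densely a `ck y`, `y < c.ord`: `Fo.bex`). The hypothesis `BddP P c` (index set `a.ToType`, `#a.ToType = a.card < c`) gives `r ≤ q` and a bound `b'`; `b := succ b' < c.ord`. Claim: `Fo r (∀ x y, (x,y) ∈ f → y ∈ ck c.ord → y ∈ ck b)`.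
  Since `f` is a function with domain `ck a`, it suffices to treat `x ∈ ck a`, by `Fo.ball` `x = ck x'` (`x' < a`); `Fo.all`, `Fo.imp`, `Fo.loc`: below any condition there is a condition `r'` with `W r' x' y'`, `y' ≤ b'`; in `NG G`, `up r' ∈ G`: the value is `ck y' ∈ ck b`, or it is not in `ck c.ord`.
* `isRC_of_bdd`. Let `κ = ck c.ord`. `IsOrd` by `ck_ord`; `ck ω ⊆ κ`, `IsOm (ck ω)` (`ck_om`, `ck_sub`, `ω ≤ c.ord`). `¬ Sm κ κ` and the regularity are of the form: for all `a ∈ κ` and all `f`, if `f` is a function with domain `a` then ... (formula `fBall`, `.all`, `.imp`): by `Fo.top` (for all `p`), `Fo.ball`, `Fo.all`, `Fo.imp` and `Fo.loc` we may take `a = ck a'`, `a' < c.ord`, `Fo q (fFun ..)`, and a condition `r` with a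
  bound `b < c.ord` as in `bdd_fun`; in `NG G`, `up r ∈ G`: all values of `f` which are in `κ` are in `ck b`; `ck b ∈ κ`; if all elements of `κ` were values, then `ck b ∈ ck b` (`ck_mem_iff`). If all values are in `κ` then they are in `ck b`.
* `isIC_sup`: `IsOrd`, `ck ω` as before. `¬ Sm`: the formula is `∀ a ∈ ck ν.ord, ∀ f, f function on a → ¬ ∀ y ∈ ck ν.ord, y is a value`. For `a = ck a'`, `a' < ν.ord`, `a'.card < ν`; let `k` be as in the hypothesis for `a'.card`; `a' < k.ord`; `ck k.ord ⊆ ck ν.ord`, so `(ck a', f)` would witness `Sm (ck k.ord) (ck k.ord)`, contradicting `IsRC`. (Because the hypothesis is about all `G`, this works in all `NG G'`.) -/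

universe u

namespace STP

open BSet Cardinal

variable {P : Type u} [PartialOrder P]

private theorem yb_exists (p : P) : ∃ G : Ult (RO P), RO.up p ∈ G.s :=
  Ult.exists_mem fun h => RO.not_mem_bot (p := p) (h ▸ RO.self_mem_up p)

private theorem yb_irr (G : Ult (RO P)) (x : NG G) : ¬ EG G x x := by
  intro h
  obtain ⟨z, hz⟩ := (NG_zfc (G := G)).pair x x
  obtain ⟨y, hy, h1⟩ := (NG_zfc (G := G)).found z ⟨x, (hz x).2 (Or.inl rfl)⟩
  have h2 : y = x := by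
    rcases (hz y).1 hy with h3 | h3 <;> exact h3
  subst h2
  exact h1 y hy h

/-- a bounded value: the semantic form -/
private def YbW (f : BSet (RO P)) (c : Ordinal.{u}) (q : P) (r : P) (x y : Ordinal.{u}) : Prop :=
  r ≤ q ∧ (Fo r (fVal 2 1 0) (vl [ck y, ck x, f, ck c]) ∨
    (y = 0 ∧ Fo r (fBall 2 (fVal 2 1 0).no) (vl [ck x, f, ck c])))

private theorem yb_val {r : P} {x y f z : BSet (RO P)}
    (h : Fo r (fVal 2 1 0) (vl [y, x, f, z])) (G : Ult (RO P)) (hG : RO.up r ∈ G.s) :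
    Val (EG G) (NG.mk G f) (NG.mk G x) (NG.mk G y) := sat_fVal.1 (h.tr G hG)

private theorem yb_noval {r : P} {x f z : BSet (RO P)}
    (h : Fo r (fBall 2 (fVal 2 1 0).no) (vl [x, f, z])) (G : Ult (RO P)) (hG : RO.up r ∈ G.s)
    (w : NG G) (hw : EG G w (NG.mk G z)) : ¬ Val (EG G) (NG.mk G f) (NG.mk G x) w := by
  intro h1
  exact sat_fBall.1 (h.tr G hG) w hw (sat_fVal.2 h1)

private theorem yb_isFun {r : P} {f x : BSet (RO P)} {l : List (BSet (RO P))}
    (h : Fo r (fFun 0 1) (vl (f :: x :: l))) (G : Ult (RO P)) (hG : RO.up r ∈ G.s) :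
    IsFun (EG G) (NG.mk G f) (NG.mk G x) := sat_fFun.1 (h.tr G hG)

private theorem yb_fn {f : BSet (RO P)} {a c : Ordinal.{u}} {q r : P} {x y y' : Ordinal.{u}}
    (hf : Fo q (fFun 0 1) (vl [f, ck a])) (hy : y < c) (hy' : y' < c)
    (h : YbW f c q r x y) (h' : YbW f c q r x y') : y = y' := by
  obtain ⟨hr, h⟩ := h
  obtain ⟨-, h'⟩ := h'
  obtain ⟨G, hG⟩ := yb_exists r
  have hfun := yb_isFun (hf.mono hr) G hG
  rcases h with h | ⟨rfl, h⟩
  · rcases h' with h' | ⟨rfl, h'⟩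
    · exact (ck_eq_iff G).1 (hfun.2.2 _ _ _ (yb_val h G hG) (yb_val h' G hG))
    · exact absurd (yb_val h G hG) (yb_noval h' G hG _ ((ck_mem_iff G).2 hy))
  · rcases h' with h' | ⟨rfl, h'⟩
    · exact absurd (yb_val h' G hG) (yb_noval h G hG _ ((ck_mem_iff G).2 hy'))
    · rfl

private theorem yb_dense {f : BSet (RO P)} {c : Ordinal.{u}} {q r : P} {x : Ordinal.{u}}
    (hc : 0 < c) (hr : r ≤ q) : ∃ s ≤ r, ∃ y < c, YbW f c q s x y := by
  obtain ⟨r1, hr1, h1⟩ := Fo.dec r (fBall 2 (fVal 2 1 0).no) (vl [ck x, f, ck c])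
  rcases h1 with h1 | h1
  · exact ⟨r1, hr1, 0, hc, hr1.trans hr, Or.inr ⟨rfl, h1⟩⟩
  · have h2 : Fo r1 (fBex 2 (fVal 2 1 0)) (vl [ck x, f, ck c]) := by
      refine Fo.of fun G hG => ?_
      have h3 := h1.tr G hG
      rw [sat_no, sat_fBall] at h3
      push Not at h3
      obtain ⟨w, hw, h4⟩ := h3
      rw [sat_fBex]
      refine ⟨w, hw, ?_⟩
      rw [sat_no] at h4
      exact not_not.1 h4
    obtain ⟨s, hs, y, hy, h3⟩ := (Fo.bex (j := 2) (o := c) rfl).1 h2 r1 le_rfl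
    rw [cns_vl] at h3
    exact ⟨s, hs.trans hr1, y, hy, hs.trans (hr1.trans hr), Or.inl h3⟩

theorem bdd_fun {c : Cardinal.{u}} (hc : ℵ₀ ≤ c) (h : BddP P c) {p : P} {f : BSet (RO P)}
    {a : Ordinal.{u}} (ha : a < c.ord) (hf : Fo p (fFun 0 1) (vl [f, ck a])) :
    ∀ q ≤ p, ∃ r ≤ q, ∃ b < c.ord,
      Fo r (.all (.all (.imp (fVal 2 1 0) (.imp (.mem 0 3) (.mem 0 4)))))
        (vl [f, ck c.ord, ck b]) := by
  intro q hq
  have hlim := isSuccLimit_ord hc
  have hpos : 0 < c.ord := hlim.bot_lt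
  have hcard : #a.ToType < c := by
    rw [mk_toType]
    exact lt_ord.1 ha
  obtain ⟨r, hr, bY, hb⟩ := h a.ToType hcard
    (fun r x y => YbW f c.ord q r (Ordinal.ToType.toOrd x).1 (Ordinal.ToType.toOrd y).1)
    (fun r r' x y hrr h1 => ⟨hrr.trans h1.1, h1.2.imp (fun h2 => h2.mono hrr)
      (fun h2 => ⟨h2.1, h2.2.mono hrr⟩)⟩)
    (fun r x y y' h1 h2 => Ordinal.ToType.mk.symm.injective (Subtype.ext
      (yb_fn (hf.mono hq) (Ordinal.ToType.toOrd y).2 (Ordinal.ToType.toOrd y').2 h1 h2)))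
    q (fun x r hr => by
      obtain ⟨s, hs, y, hy, h1⟩ := yb_dense (f := f)
        (x := (Ordinal.ToType.toOrd x).1) hpos hr
      refine ⟨s, hs, Ordinal.ToType.mk ⟨y, hy⟩, ?_⟩
      have h2 : Ordinal.ToType.toOrd (Ordinal.ToType.mk (o := c.ord) ⟨y, hy⟩) = ⟨y, hy⟩ :=
        (Ordinal.ToType.mk (o := c.ord)).symm_apply_apply _
      rw [h2]
      exact h1)
  refine ⟨r, hr, Order.succ (Ordinal.ToType.toOrd bY).1,
    hlim.succ_lt (Ordinal.ToType.toOrd bY).2, ?_⟩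
  set b := Order.succ (Ordinal.ToType.toOrd bY).1 with hbdef
  have hΨ : Fo r (fBall 3 (.all (.imp (fVal 2 1 0) (.imp (.mem 0 3) (.mem 0 4)))))
      (vl [f, ck c.ord, ck b, ck a]) := by
    rw [Fo.ball (j := 3) (o := a) rfl]
    intro a' ha'
    refine Fo.loc fun s hs => ?_
    obtain ⟨s', hs', y, hy, h1⟩ := hb (Ordinal.ToType.mk ⟨a', ha'⟩) s hs
    have h2 : Ordinal.ToType.toOrd (Ordinal.ToType.mk (o := a) ⟨a', ha'⟩) = ⟨a', ha'⟩ :=
      (Ordinal.ToType.mk (o := a)).symm_apply_apply _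
    rw [h2] at h1
    refine ⟨s', hs', Fo.of fun G hG => ?_⟩
    rw [sat_all]
    intro w
    rw [sat_imp, sat_imp, sat_fVal]
    intro (h3 : Val (EG G) (NG.mk G f) (NG.mk G (ck a')) w)
      (h4 : EG G w (NG.mk G (ck c.ord)))
    change EG G w (NG.mk G (ck b))
    rcases h1.2 with h5 | ⟨-, h5⟩
    · have hfun := yb_isFun ((hf.mono hq).mono h1.1) G hG
      have h6 := hfun.2.2 _ _ _ h3 (yb_val h5 G hG)
      rw [h6, ck_mem_iff]
      exact Order.lt_succ_of_le ((Ordinal.ToType.mk (o := c.ord)).symm.monotone hy)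
    · exact absurd h3 (yb_noval h5 G hG w h4)
  refine Fo.of fun G hG => ?_
  rw [sat_all]
  intro x
  rw [sat_all]
  intro y
  rw [sat_imp, sat_imp, sat_fVal]
  intro (h3 : Val (EG G) (NG.mk G f) x y) (h4 : EG G y (NG.mk G (ck c.ord)))
  change EG G y (NG.mk G (ck b))
  have hfun := yb_isFun ((hf.mono hq).mono hr) G hG
  have hx : EG G x (NG.mk G (ck a)) := by
    obtain ⟨z, hz, hz'⟩ := h3
    obtain ⟨x', y', hx', hz''⟩ := hfun.1 z hz
    obtain ⟨h5, -⟩ := IsOP.inj (NG_zfc (G := G)) hz' hz''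
    rw [h5]
    exact hx'
  have h5 := sat_fBall.1 (hΨ.tr G hG) x hx
  rw [sat_all] at h5
  have h6 := h5 y
  rw [sat_imp, sat_imp, sat_fVal] at h6
  exact h6 h3 h4

private theorem yb_key {c : Cardinal.{u}} (hc : ℵ₀ ≤ c) (h : BddP P c) (G : Ult (RO P))
    (α f : NG G) (hα : EG G α (NG.mk G (ck c.ord))) (hf : IsFun (EG G) f α) :
    ∃ b, EG G b (NG.mk G (ck c.ord)) ∧ ∀ x y, Val (EG G) f x y →
      EG G y (NG.mk G (ck c.ord)) → EG G y b := by
  have hK : ∀ p : P, Fo p (fBall 0 (.all (.imp (fFun 0 1) (fBex 2 (.all (.all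
      (.imp (fVal 3 1 0) (.imp (.mem 0 5) (.mem 0 2)))))))))
      (vl [ck c.ord]) := by
    intro p
    rw [Fo.ball (j := 0) (o := c.ord) rfl]
    intro a' ha'
    rw [Fo.all]
    intro f
    rw [Fo.imp]
    intro q hq h1
    rw [Fo.bex (j := 2) (o := c.ord) rfl]
    intro q' hq'
    have h2 : Fo q (fFun 0 1) (vl [f, ck a']) :=
      Fo.of fun G hG => sat_fFun.2 (sat_fFun.1 (h1.tr G hG))
    obtain ⟨r, hr, b, hb, h3⟩ := bdd_fun hc h ha' h2 q' hq'
    refine ⟨r, hr, b, hb, Fo.of fun G hG => ?_⟩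
    have h4 := h3.tr G hG
    rw [sat_all] at h4 ⊢
    intro x
    have h5 := h4 x
    rw [sat_all] at h5 ⊢
    intro y
    have h6 := h5 y
    rw [sat_imp, sat_imp, sat_fVal] at h6 ⊢
    exact h6
  have h1 := Fo.top hK G
  rw [sat_fBall] at h1
  have h2 := h1 α hα
  rw [sat_all] at h2
  have h3 := h2 f
  rw [sat_imp, sat_fFun, sat_fBex] at h3
  obtain ⟨b, hb, h4⟩ := h3 hf
  refine ⟨b, hb, fun x y hxy hy => ?_⟩
  rw [sat_all] at h4
  have h5 := h4 x
  rw [sat_all] at h5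
  have h6 := h5 y
  rw [sat_imp, sat_imp, sat_fVal] at h6
  exact h6 hxy hy

private theorem yb_om {c : Cardinal.{u}} (hc : ℵ₀ ≤ c) (G : Ult (RO P)) :
    ∃ w, IsOm (EG G) w ∧ Sub (EG G) w (NG.mk G (ck c.ord)) :=
  ⟨_, ck_om G, ck_sub G (by rw [← ord_aleph0]; exact ord_le_ord.2 hc)⟩

theorem isRC_of_bdd {c : Cardinal.{u}} (hc : ℵ₀ ≤ c) (h : BddP P c) (G : Ult (RO P)) :
    IsRC (EG G) (NG.mk G (ck c.ord)) := by
  refine ⟨⟨⟨ck_ord G _, ?_⟩, yb_om hc G⟩, ?_⟩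
  · rintro ⟨α, hα, f, hf, h1⟩
    obtain ⟨b, hb, h2⟩ := yb_key hc h G α f hα hf
    obtain ⟨z, -, h3⟩ := h1 b hb
    exact yb_irr G b (h2 z b h3 hb)
  · intro α f hα hf h1
    obtain ⟨b, hb, h2⟩ := yb_key hc h G α f hα hf
    exact ⟨b, hb, fun x y hxy => h2 x y hxy (h1 x y hxy)⟩

theorem isIC_sup {ν : Cardinal.{u}} (hν : ℵ₀ ≤ ν)
    (h : ∀ c < ν, ∃ k, c < k ∧ k ≤ ν ∧ ∀ G : Ult (RO P), IsRC (EG G) (NG.mk G (ck k.ord)))
    (G : Ult (RO P)) : IsIC (EG G) (NG.mk G (ck ν.ord)) := by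
  refine ⟨⟨ck_ord G _, ?_⟩, yb_om hν G⟩
  have hK : ∀ p : P, Fo p (fBall 0 (.all (.imp (fFun 0 1) (Fml.no (.all
      (.imp (.mem 0 3) (.ex (.an (.mem 0 3) (fVal 2 0 1)))))))))
      (vl [ck ν.ord]) := by
    intro p
    rw [Fo.ball (j := 0) (o := ν.ord) rfl]
    intro a' ha'
    refine Fo.of fun G hG => ?_
    rw [sat_all]
    intro f
    rw [sat_imp, sat_fFun, sat_no, sat_all]
    intro hf h1
    obtain ⟨k, hk, hkν, h2⟩ := h a'.card (lt_ord.1 ha')
    refine (h2 G).1.1.2 ⟨NG.mk G (ck a'), (ck_mem_iff G).2 (lt_ord.2 hk), f, hf, fun y hy => ?_⟩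
    have h3 := h1 y
    rw [sat_imp, sat_ex] at h3
    obtain ⟨z, hz⟩ := h3 (ck_sub G (ord_le_ord.2 hkν) y hy)
    rw [sat_an, sat_fVal] at hz
    exact ⟨z, hz⟩
  rintro ⟨α, hα, f, hf, h1⟩
  have h2 := sat_fBall.1 (Fo.top hK G) α hα
  rw [sat_all] at h2
  have h3 := h2 f
  rw [sat_imp, sat_fFun, sat_no, sat_all] at h3
  refine h3 hf fun y => ?_
  rw [sat_imp, sat_ex]
  intro hy
  obtain ⟨z, hz, h4⟩ := h1 y hy
  refine ⟨z, ?_⟩
  rw [sat_an, sat_fVal]
  exact ⟨hz, h4⟩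

end STP
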