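import Pool.Agent.STP.YSys

/-! # The branch given by a thread (package Y11)

(problem MP_e44aae_lc, project STP)

* `br_int`. For `z : BSet (RO P)` let `Φ z := ⨆ m, ⨆ ξ : Set.Iio o', ...`; to avoid a supremum over all ordinals use that `th q m ξ` for `q ≤ p` and all `m` determines `ξ` (`trR_fn` with `a = b`), or simply: `Φ z := RO.cl {q | ∃ m ξ, th q m ξ ∧ Fo q (.mem 0 1) (vl [z, w m ξ])}` (the set is open). `Φ` is extensional: if `q ∈ eq x y ⊓ Φ x` then densely many `r ≤ q` are in the set for `x` and in `eq x y`, so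
  in the set for `y` (`mem_congr_left`). `b := sepN lam Φ`, `mem z b = mem z lam ⊓ Φ z` (`mem_sepN`). `b ⊆ lam` is clear. Let `q ≤ p`, `th q m ξ`. `Fo q (w m ξ = b ∩ nm m)`: `Fo.of_`-style: `Fo.all` over names `z`, both implications (`Fo.imp`, `Fo.loc`; write `iff` as two implications, `Fo.an`).
  (→) `r ≤ q` forces `z ∈ w m ξ`. Then `r` forces `z ∈ nm m` and `z ∈ lam` (`inT`, `tr`: `w m ξ = s ∩ nm m`; `nm m ∈ C`, so `nm m ⊆ lam` by `club`), and `r ∈ Φ z` by definition.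
  (←) `r ≤ q` forces `z ∈ b`, `z ∈ nm m`. Densely many `t ≤ r` have `m', ξ'` with `th t m' ξ'`, `Fo t (z ∈ w m' ξ')`. By `hdir` there is `m''` above `m`, `m'`; by `htot` `t' ≤ t`, `ξ''` with `th t' m'' ξ''`. By `hcoh` (at `t'`): `w m ξ = w m'' ξ'' ∩ nm m` and `w m' ξ' = w m'' ξ'' ∩ nm m'`. So `z ∈ w m'' ξ''`, and `z ∈ nm m`, hence `z ∈ w m ξ`.
* `exists_br`: `b` from `br_int`. `Fo p (fBr 0 1 2 3) (vl [κ, lam, d, b])`: it remains to show that for every name `x` and `q ≤ p` forcing `x ∈ P_κ(lam)` densely many `r ≤ q` force the existence of `z, s, t`. `q` forces `∃ y, y ∈ C ∧ x ⊆ y` (`club`); let `y` be a name. `p0` forces `∃ y', y' ∈ C ∧ (y ∈ C → y' = y)` (`C` is not empty: by `club` it has an element above the empty set, or above `x`; the empty set is in `P_κ(lam)`: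
  `Sm ∅ κ` needs an element of `κ`, e.g. `nm m` for any `m`? Simplest: `C` has the element `nm m` for any `m : L`; `L` is not empty because of `hL`). Let `y'` be a name for `p0`, `m` with `Fo p0 (nm m = y')` (`all`); `q` forces `nm m = y`, so `x ⊆ nm m`. By `htot` `r ≤ q`, `ξ` with `th r m ξ`. In `NG G`, `up r ∈ G`: `w m ξ = b ∩ nm m` (`br_int`) and, since `w m ξ ∈ T m`, there are `z ∈ P_κ(lam)`, `nm m ⊆ z`, `Val d z s`,
  `w m ξ = s ∩ nm m`. So `x ⊆ z`, and `t := s ∩ x` (exists by separation) is equal to `b ∩ x`: for `u ∈ x ⊆ nm m`: `u ∈ s ↔ u ∈ w m ξ ↔ u ∈ b`. -/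

universe u

namespace STP

open BSet Cardinal Fml

variable {P : Type u} [PartialOrder P] {p0 : P} {κ lam d C : BSet (RO P)} {o : Ordinal.{u}}
  {L : Type u} {nm T : L → BSet (RO P)} {w : L → Ordinal.{u} → BSet (RO P)}

theorem br_int (D : TrD p0 κ lam d C o L nm T w)
    (hdir : ∀ a b : L, ∃ c : L, Fo p0 (fSub 0 1) (vl [nm a, nm c]) ∧
      Fo p0 (fSub 0 1) (vl [nm b, nm c])) {p : P} (hp : p ≤ p0)
    {th : P → L → Ordinal.{u} → Prop} (hmono : ∀ q r a ξ, r ≤ q → th q a ξ → th r a ξ)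
    (htot : ∀ a, ∀ q ≤ p, ∃ r ≤ q, ∃ ξ, th r a ξ)
    (hcoh : ∀ q a b ξ ζ, q ≤ p → Fo p0 (fSub 0 1) (vl [nm a, nm b]) → th q a ξ → th q b ζ →
      trR nm w q a b ξ ζ) :
    ∃ b : BSet (RO P), Fo p (fSub 0 1) (vl [b, lam]) ∧
      ∀ m ξ, ∀ q ≤ p, th q m ξ → Fo q (fInt 0 1 2) (vl [w m ξ, b, nm m]) := by
  have hS : ∀ z : BSet (RO P), ∀ q r : P, r ≤ q →
      q ∈ {q | ∃ m ξ, th q m ξ ∧ q ∈ mem z (w m ξ)} →
      r ∈ {q | ∃ m ξ, th q m ξ ∧ q ∈ mem z (w m ξ)} := by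
    rintro z q r hr ⟨m, ξ, h1, h2⟩
    exact ⟨m, ξ, hmono q r m ξ hr h1, RO.down _ hr h2⟩
  obtain ⟨Φ, hΦ⟩ : ∃ Φ : BSet (RO P) → RO P, ∀ z q, q ∈ Φ z ↔
      ∀ r ≤ q, ∃ t ≤ r, ∃ m ξ, th t m ξ ∧ t ∈ mem z (w m ξ) :=
    ⟨fun z => RO.cl {q | ∃ m ξ, th q m ξ ∧ q ∈ mem z (w m ξ)}, fun z q => RO.mem_cl (hS z)⟩
  have hE : Ext Φ := by
    intro x y
    rw [RO.le_def]
    rintro q ⟨h1, h2⟩
    rw [hΦ]
    intro r hr
    obtain ⟨t, ht, m, ξ, h3, h4⟩ := (hΦ x q).1 h2 r hr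
    refine ⟨t, ht, m, ξ, h3, ?_⟩
    exact RO.le_def.1 (mem_congr_left x y (w m ξ)) t ⟨RO.down _ (ht.trans hr) h1, h4⟩
  have hmem : ∀ (z : BSet (RO P)) (q : P), q ∈ mem z (sepN lam Φ) ↔ q ∈ mem z lam ∧ q ∈ Φ z := by
    intro z q
    rw [mem_sepN hE, RO.mem_inf]
  refine ⟨sepN lam Φ, ?_, fun m ξ q hq hth => ?_⟩
  · refine Fo.all.2 fun z => Fo.imp.2 fun q _ h1 => ?_
    exact ((hmem z q).1 h1).1
  · refine Fo.all.2 fun z => Fo.an.2 ⟨Fo.imp.2 fun r hr h1 => ?_, Fo.imp.2 fun r hr h1 => ?_⟩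
    · -- from the trace to the branch
      have h1' : Fo r (.mem 0 1) (vl [z, w m ξ]) := h1
      have h2 : Fo r (Fml.an (.mem 0 1) (.mem 0 2)) (vl [z, lam, nm m]) := by
        refine Fo.of fun G hG => ?_
        have hG0 : RO.up p0 ∈ G.s := up_mem ((hr.trans hq).trans hp) hG
        have e1 := h1'.tr G hG
        have e2 := (D.tr m).tr G hG0
        have e3 := (D.inT m ξ).tr G hG0
        have e4 := D.club.tr G hG0
        have e5 := (D.inC m).tr G hG0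
        simp only [sat_mem, sat_an, sat_fTrace, sat_fClub, ev_apply, vl_zero, vl_one] at *
        obtain ⟨x, s, -, -, -, h5⟩ := (e2 _).1 e3
        have h6 := ((h5 _).1 e1).2
        exact ⟨(e4.1 _ e5).1 _ h6, h6⟩
      have h3 := Fo.an.1 h2
      refine Fo.an.2 ⟨(hmem z r).2 ⟨h3.1, (hΦ z r).2 fun t ht => ?_⟩, h3.2⟩
      exact ⟨t, le_rfl, m, ξ, hmono q t m ξ (ht.trans hr) hth, RO.down _ ht h1⟩
    · -- from the branch to the trace
      have h2 := Fo.an.1 h1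
      have h3 : r ∈ mem z (sepN lam Φ) := h2.1
      have h4 : r ∈ mem z (nm m) := h2.2
      have h5 := (hΦ z r).1 ((hmem z r).1 h3).2
      refine Fo.loc fun r' hr' => ?_
      obtain ⟨t, ht, m', ξ', h6, h7⟩ := h5 r' hr'
      obtain ⟨c, hc1, hc2⟩ := hdir m m'
      have htp : t ≤ p := (ht.trans hr').trans (hr.trans hq)
      obtain ⟨t', ht', ξ'', h8⟩ := htot c t htp
      refine ⟨t', ht'.trans ht, ?_⟩
      have g1 := (hcoh t' m c ξ ξ'' (ht'.trans htp) hc1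
        (hmono q t' m ξ ((ht'.trans (ht.trans hr')).trans hr) hth) h8).1
      have g2 := (hcoh t' m' c ξ' ξ'' (ht'.trans htp) hc2 (hmono t t' m' ξ' ht' h6) h8).1
      have g3 : Fo t' (.mem 0 1) (vl [z, w m' ξ']) := RO.down _ ht' h7
      have g4 : Fo t' (.mem 0 1) (vl [z, nm m]) := RO.down _ (ht'.trans (ht.trans hr')) h4
      have g5 : Fo t' (.mem 0 1) (vl [z, w m ξ]) := by
        refine Fo.of fun G hG => ?_
        have e1 := g1.tr G hG
        have e2 := g2.tr G hG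
        have e3 := g3.tr G hG
        have e4 := g4.tr G hG
        simp only [sat_mem, sat_fInt, ev_apply, vl_zero, vl_one] at *
        exact (e1 _).2 ⟨((e2 _).1 e3).1, e4⟩
      exact g5

theorem exists_br (D : TrD p0 κ lam d C o L nm T w) (hL : Nonempty L)
    (hdir : ∀ a b : L, ∃ c : L, Fo p0 (fSub 0 1) (vl [nm a, nm c]) ∧
      Fo p0 (fSub 0 1) (vl [nm b, nm c])) {p : P} (hp : p ≤ p0)
    {th : P → L → Ordinal.{u} → Prop} (hmono : ∀ q r a ξ, r ≤ q → th q a ξ → th r a ξ)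
    (htot : ∀ a, ∀ q ≤ p, ∃ r ≤ q, ∃ ξ, th r a ξ)
    (hcoh : ∀ q a b ξ ζ, q ≤ p → Fo p0 (fSub 0 1) (vl [nm a, nm b]) → th q a ξ → th q b ζ →
      trR nm w q a b ξ ζ) :
    ∃ b : BSet (RO P), Fo p (fBr 0 1 2 3) (vl [κ, lam, d, b]) := by
  obtain ⟨b, hb1, hb2⟩ := br_int D hdir hp hmono htot hcoh
  obtain ⟨m0⟩ := hL
  refine ⟨b, Fo.an.2 ⟨?_, Fo.all.2 fun x => Fo.imp.2 fun q hq hx => Fo.loc fun q' hq' => ?_⟩⟩
  · refine Fo.of fun G hG => ?_
    have e1 := hb1.tr G hG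
    simp only [sat_fSub, ev_apply] at e1 ⊢
    exact e1
  · have hqp0 : q ≤ p0 := hq.trans hp
    have h1 : Fo q (Fml.ex (Fml.an (.mem 0 1) (fSub 2 0))) (vl [C, x]) := by
      refine Fo.of fun G hG => ?_
      have e1 := hx.tr G hG
      have e2 := D.club.tr G (up_mem hqp0 hG)
      simp only [sat_fP, sat_fClub, sat_ex, sat_an, sat_mem, sat_fSub, ev_apply] at e1 e2 ⊢
      obtain ⟨y, hy1, hy2⟩ := e2.2.1 _ e1
      exact ⟨y, hy1, hy2⟩
    obtain ⟨y, hy⟩ := Fo.ex.1 h1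
    rw [cns_vl] at hy
    have h2 : Fo p0 (Fml.ex (Fml.an (.mem 0 2) (.imp (.mem 1 2) (.eq 0 1)))) (vl [y, C]) := by
      refine Fo.of fun G hG => ?_
      have e1 := (D.inC m0).tr G hG
      simp only [sat_ex, sat_an, sat_mem, sat_imp, sat_eq, ev_apply] at e1 ⊢
      by_cases h3 : EG G (NG.mk G y) (NG.mk G C)
      · exact ⟨NG.mk G y, h3, fun _ => rfl⟩
      · exact ⟨NG.mk G (nm m0), e1, fun h4 => absurd h4 h3⟩
    obtain ⟨y', hy'⟩ := Fo.ex.1 h2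
    rw [cns_vl] at hy'
    have h3 := Fo.an.1 hy'
    obtain ⟨m, hm⟩ := D.all y' h3.1
    obtain ⟨r, hr, ξ, hth⟩ := htot m q' (hq'.trans hq)
    have hrp : r ≤ p := hr.trans (hq'.trans hq)
    have h4 := hb2 m ξ r hrp hth
    refine ⟨r, hr, Fo.of fun G hG => ?_⟩
    have hG0 : RO.up p0 ∈ G.s := up_mem (hrp.trans hp) hG
    have e1 := (D.tr m).tr G hG0
    have e2 := (D.inT m ξ).tr G hG0
    have e3 := h4.tr G hG
    have e4 := hy.tr G (up_mem (hr.trans hq') hG)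
    have e5 := hy'.tr G hG0
    have e6 := hm.tr G hG0
    simp only [sat_fTrace, sat_fInt, sat_ex, sat_an, sat_mem, sat_eq, sat_imp, sat_fSub,
      ev_apply] at e1 e2 e3 e4 e5 e6
    simp only [sat_ex, sat_an, sat_fP, sat_fSub, sat_fVal, sat_fInt]
    obtain ⟨z, s, hz, hsub, hval, hint⟩ := (e1 _).1 e2
    have hxm : ∀ u, EG G u (NG.mk G x) → EG G u (NG.mk G (nm m)) := by
      intro u hu
      have h5 : NG.mk G (nm m) = NG.mk G y' := e6
      have h6 : NG.mk G y' = NG.mk G y := e5.2 e4.1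
      rw [h5, h6]
      exact e4.2 u hu
    obtain ⟨t, ht⟩ := (NG_zfc G).separation (.mem 0 1) (fun _ => s) (NG.mk G x)
    refine ⟨z, s, t, hz, fun u hu => hsub u (hxm u hu), hval, fun u => ?_, fun u => ?_⟩
    · change EG G u t ↔ EG G u s ∧ EG G u (NG.mk G x)
      rw [ht u]
      exact and_comm
    · have h7 := ht u
      have h8 := hint u
      have h9 := e3 u
      have h10 := hxm u
      change EG G u t ↔ EG G u (NG.mk G b) ∧ EG G u (NG.mk G x)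
      change EG G u t ↔ EG G u (NG.mk G x) ∧ EG G u s at h7
      change EG G u (NG.mk G (w m ξ)) ↔ EG G u s ∧ EG G u (NG.mk G (nm m)) at h8
      change EG G u (NG.mk G (w m ξ)) ↔ EG G u (NG.mk G b) ∧ EG G u (NG.mk G (nm m)) at h9
      tauto

end STP
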