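import Pool.Agent.STP.YOrd
import Pool.Agent.STP.YSeq
import Pool.Agent.STP.BF

/-! # Collapsed cardinals (package Y04)

(problem MP_e44aae_lc, project STP)

* `OntoN.comp`: `W' p x' y' := ∃ y, W p (f x') y ∧ g y = y'`. `ontoN_surj`: `W p x y := f x = y`.
* `not_cd`: `W` as in `OntoN P p0 b.ToType a.ToType`. If `a = 0` there is nothing below it, so let `b < a`, `ck b ∈ ck a`. For `x < b` let `w x` be a name with `RO.cl {r | W r x y} ≤ eq (w x) (ck y)` for all `y < a` (`BSet.mix` for the index set `a.ToType`; the sets are pairwise disjoint because `W` is single valued: a condition `r` in both values has extensions `r' ≤ r` with `W r' x y` and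
  then `r'' ≤ r'` with `W r'' x y'`, `W r'' x y` by monotonicity). `F := seqN b w`: a function with domain `ck b` (`seqN_fun`). For `G` with `up p0 ∈ G.s` the formula `∀ y ∈ ck a, ∃ x ∈ ck b, (x, y) ∈ F` is forced by `p0`: `Fo.ball`: for `y = ck y'`; `Fo.loc`: below every condition there is `r` and `x'` with `W r x' y'`; so `Fo r (eq (w x') (ck y'))` and `seqN_val`. So `Sm (ck a) (ck a)`
  (witnesses `ck b`, `F`).
* `not_ic_fin`: if `IsOm w`, `w ⊆ ck a`, `a < ω`: `ck a ∈ ck ω ⊆ w ⊆ ck a` (`om_sub`), contradiction to `ck_mem_iff`.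
* `not_cd_ne`: `a ≠ a.card.ord`: then `b := a.card.ord < a` (`Cardinal.ord_card_le`), and there is a bijection `b.ToType ≃ a.ToType` (`Ordinal.card_ord`, `mk_toType`); `ontoN_surj`, `not_cd` with any `p0` such that `up p0 ∈ G.s`? There may be none, so apply the proof of `not_cd` for all `p0`: the formula `no (fCd 0)` is forced by all `p0` (`Fo.of` and `not_cd`), `Fo.top`.
* `not_cd_col`: `a < c` cardinals: `a.ord < c.ord`, `a.ord.ToType ≃ a.out`, `c.ord.ToType ≃ c.out`; `OntoN.comp`, `not_cd`. -/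

universe u

namespace STP

open BSet Cardinal

variable {P : Type u} [PartialOrder P]

theorem OntoN.comp {p0 : P} {A C A' C' : Type u} (h : OntoN P p0 A C) {f : A' → A}
    (hf : Function.Surjective f) {g : C → C'} (hg : Function.Surjective g) :
    OntoN P p0 A' C' := by
  obtain ⟨W, h1, h2, h3⟩ := h
  refine ⟨fun p x' y' => ∃ y, W p (f x') y ∧ g y = y', ?_, ?_, ?_⟩
  · rintro p p' x y hp ⟨z, hz, rfl⟩
    exact ⟨z, h1 _ _ _ _ hp hz, rfl⟩
  · rintro p x y y' ⟨z, hz, rfl⟩ ⟨z', hz', rfl⟩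
    rw [h2 p _ z z' hz hz']
  · intro y p hp
    obtain ⟨z, rfl⟩ := hg y
    obtain ⟨p', hp', x, hx⟩ := h3 z p hp
    obtain ⟨x', rfl⟩ := hf x
    exact ⟨p', hp', x', z, hx, rfl⟩

theorem ontoN_surj (p0 : P) {A C : Type u} {f : A → C} (hf : Function.Surjective f) :
    OntoN P p0 A C := by
  refine ⟨fun _ x y => f x = y, fun _ _ _ _ _ h => h, fun _ _ _ _ h h' => h.symm.trans h', ?_⟩
  intro y p _
  obtain ⟨x, hx⟩ := hf y
  exact ⟨p, le_rfl, x, hx⟩

private theorem yc_core {b a : Ordinal.{u}} {p0 : P} (h : OntoN P p0 b.ToType a.ToType) :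
    ∃ F : BSet (RO P), (∀ G : Ult (RO P), IsFun (EG G) (NG.mk G F) (NG.mk G (ck b))) ∧
      ∀ G : Ult (RO P), RO.up p0 ∈ G.s → ∀ y, EG G y (NG.mk G (ck a)) →
        ∃ x, EG G x (NG.mk G (ck b)) ∧ Val (EG G) (NG.mk G F) x y := by
  obtain ⟨W, h1, h2, h3⟩ := h
  have hm : ∀ x' : b.ToType, ∃ w : BSet (RO P), ∀ y' : a.ToType,
      RO.cl {r | W r x' y'} ≤ eq w (ck (Ordinal.ToType.toOrd y').1) := by
    intro x'
    refine mix (fun y' : a.ToType => RO.cl {r | W r x' y'}) ?_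
      (fun y' => ck (Ordinal.ToType.toOrd y').1)
    intro i j hij
    refine le_bot_iff.1 ?_
    rintro r ⟨hr1, hr2⟩
    exfalso
    obtain ⟨r', hr', h4⟩ := hr1 r le_rfl
    obtain ⟨r'', hr'', h5⟩ := hr2 r' hr'
    exact hij (h2 r'' x' i j (h4 r'' hr'') (h5 r'' le_rfl))
  choose w hw using hm
  refine ⟨seqN b fun o => if ho : o < b then w (Ordinal.ToType.mk ⟨o, ho⟩) else ck 0,
    fun G => seqN_fun b _ G, ?_⟩
  set w' : Ordinal.{u} → BSet (RO P) :=
    fun o => if ho : o < b then w (Ordinal.ToType.mk ⟨o, ho⟩) else ck 0 with hw'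
  have key : Fo p0 (fBall 2 (fBex 2 (fVal 2 0 1))) (vl [seqN b w', ck b, ck a]) := by
    rw [Fo.ball (o := a) rfl]
    intro y hy
    rw [Fo.bex (o := b) rfl]
    intro q hq
    obtain ⟨r, hr, x', hx'⟩ := h3 (Ordinal.ToType.mk ⟨y, hy⟩) q hq
    have hxb : (Ordinal.ToType.toOrd x').1 < b := (Ordinal.ToType.toOrd x').2
    refine ⟨r, hr, (Ordinal.ToType.toOrd x').1, hxb, Fo.of fun G hG => ?_⟩
    rw [sat_fVal]
    have h4 := seqN_val b w' hxb G
    have h5 : w' (Ordinal.ToType.toOrd x').1 = w x' := by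
      rw [hw']
      simp only [hxb, dif_pos]
      congr 1
      exact (Ordinal.ToType.mk (o := b)).apply_symm_apply x'
    have h6 : NG.mk G (w x') = NG.mk G (ck y) := by
      rw [NG.mk_eq]
      have h7 := hw x' (Ordinal.ToType.mk ⟨y, hy⟩)
      have h8 : Ordinal.ToType.toOrd ((Ordinal.ToType.mk (o := a)) ⟨y, hy⟩) = ⟨y, hy⟩ :=
        (Ordinal.ToType.mk (o := a)).symm_apply_apply ⟨y, hy⟩
      rw [h8] at h7
      refine G.up hG (RO.up_le.2 (h7 r ?_))
      intro q' hq'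
      exact ⟨q', le_rfl, fun t ht => h1 _ _ _ _ (ht.trans hq') hx'⟩
    rw [h5, h6] at h4
    exact h4
  intro G hG y hy
  have h4 := key.tr G hG
  have h5 := sat_fBall.1 h4 y hy
  obtain ⟨x, hx, hx'⟩ := sat_fBex.1 h5
  exact ⟨x, hx, sat_fVal.1 hx'⟩

theorem not_cd {b a : Ordinal.{u}} (hb : b < a) {p0 : P} (h : OntoN P p0 b.ToType a.ToType)
    (G : Ult (RO P)) (hG : RO.up p0 ∈ G.s) : ¬ IsCd (EG G) (NG.mk G (ck a)) := by
  obtain ⟨F, hF, hF'⟩ := yc_core h
  intro hcd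
  exact hcd.2 ⟨NG.mk G (ck b), (ck_mem_iff G).2 hb, NG.mk G F, hF G, hF' G hG⟩

theorem not_ic_fin {a : Ordinal.{u}} (ha : a < Ordinal.omega0) (G : Ult (RO P)) :
    ¬ IsIC (EG G) (NG.mk G (ck a)) := by
  rintro ⟨_, w, hw, hw'⟩
  have h1 := hw' _ (om_sub G hw _ ((ck_mem_iff G).2 ha))
  exact lt_irrefl a ((ck_mem_iff G).1 h1)

theorem not_cd_ne {a : Ordinal.{u}} (ha : a ≠ a.card.ord) (G : Ult (RO P)) :
    ¬ IsCd (EG G) (NG.mk G (ck a)) := by
  have hlt : a.card.ord < a := lt_of_le_of_ne (Cardinal.ord_card_le a) (Ne.symm ha)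
  have hb : Nonempty (a.card.ord.ToType ≃ a.ToType) := by
    rw [← Cardinal.eq]
    rw [Cardinal.mk_toType, Cardinal.mk_toType, Cardinal.card_ord]
  obtain ⟨e⟩ := hb
  have h1 : STP.sat (EG G) (.no (fCd 0)) (ev G (vl [ck a])) := by
    refine Fo.top (fun p => Fo.of fun G' hG' => ?_) G
    rw [sat_no, sat_fCd]
    exact not_cd hlt (ontoN_surj p e.surjective) G' hG'
  rw [sat_no, sat_fCd] at h1
  exact h1

theorem not_cd_col {a c : Cardinal.{u}} (hac : a < c) {p0 : P} (h : OntoN P p0 a.out c.out)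
    (G : Ult (RO P)) (hG : RO.up p0 ∈ G.s) : ¬ IsCd (EG G) (NG.mk G (ck c.ord)) := by
  have h1 : Nonempty (a.ord.ToType ≃ a.out) := by
    rw [← Cardinal.eq, Cardinal.mk_toType, Cardinal.card_ord, Cardinal.mk_out]
  have h2 : Nonempty (c.out ≃ c.ord.ToType) := by
    rw [← Cardinal.eq, Cardinal.mk_toType, Cardinal.card_ord, Cardinal.mk_out]
  obtain ⟨e⟩ := h1
  obtain ⟨e'⟩ := h2
  exact not_cd (Cardinal.ord_lt_ord.2 hac) (h.comp e.surjective e'.surjective) G hG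

end STP
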