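import Pool.Agent.STP.YOrd
import Pool.Agent.STP.YSeq

/-! # Names of sets of size at most `ν` (package Y07)

(problem MP_e44aae_lc, project STP)

`Enum p x o w`: `p` forces that every element of `x` is one of the `w ξ`, `ξ < o`.

* `Enum.mono`: clear.
* `enum_of_sm`. Let `κ = ck (succ ν).ord`. Claim: `p` forces that there is a function `g` with domain `ck ν.ord` such that every `y ∈ x` is a value of `g` (formula `φ := ex (an (fFun 0 2) (.all (.imp (.mem 0 2) (fBex 3 (fVal 2 0 1)))))` with `vl [x, ck ν.ord]`; check the indices). By `Fo.loc` it is forced by densely many `r`: let `q ≤ p`; `Fo q (fSm 0 1)`; by `Fo.ex` (or `Fo.iff`) there are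
  names `a`, `f` such that `q` forces `a ∈ κ`, `f` is a function with domain `a` and every `y ∈ x` is a value of `f` at some `z ∈ a`. By `ck_ex` there are `r ≤ q` and `α < (succ ν).ord` with `Fo r (eq a (ck α))`. If `α = 0` then `x` is empty (`ck_zero`), and `seqN ν.ord (fun _ => ck 0)` is as required. Otherwise `α.card ≤ ν` and there is a
  surjection `g0` from the ordinals `< ν.ord` onto the ordinals `< α`. For `ξ < ν.ord` let `v ξ` be a name such that `r` forces that `f` has the value `v ξ` at `ck (g0 ξ)` (`Fo.ex`; for other `ξ` let `v ξ = ck 0`). `seqN ν.ord v` is as required: in `NG G`, `up r ∈ G`; the statement `∀ y ∈ x, ∃ z ∈ ck ν.ord, y is its value` follows from the statement `∀ z ∈ ck α, ∀ y, (z, y) ∈ f → ∃ z' ∈ ck ν.ord, (z', y) ∈ seqN ν.ord v`,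
  which is forced by `r` (`Fo.ball`: `z = ck (g0 ξ)`, `y = v ξ` by single-valuedness, `z' = ck ξ`, `seqN_val`).
  Now let `g` be a name which works for `p` (`Fo.ex`), and for `ξ < ν.ord` let `w ξ` be a name such that `p` forces `(ck ξ, w ξ) ∈ g`. If `q ≤ p` and `Fo q (y ∈ x)` then `q` forces `∃ z ∈ ck ν.ord, (z, y) ∈ g`; by `Fo.bex` there are `r ≤ q` and `ξ < ν.ord` with `Fo r ((ck ξ, y) ∈ g)`, so `Fo r (y = w ξ)`.
* `sm_of_enum`: the function `seqN ν.ord w` with domain `ck ν.ord ∈ κ` (`ν.ord < (succ ν).ord`): `∀ y ∈ x, ∃ z ∈ ck ν.ord, (z, y) ∈ seqN ν.ord w` is forced (`Fo.all`, `Fo.imp`, `Fo.loc`, `Enum`, `seqN_val`).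
* `Enum.inside`: for `ξ < o`, `p` forces `∃ t, t ∈ x ∧ (w ξ ∈ x → t = w ξ)` (`x` is not empty); let `w' ξ` be such a name (`Fo.ex`). If `q ≤ p` forces `y ∈ x` then some `r ≤ q` forces `y = w ξ`, so `w ξ ∈ x` and `y = w' ξ`. -/

universe u

namespace STP

open BSet Cardinal Fml

variable {P : Type u} [PartialOrder P]

/-- `p` forces that every element of `x` is one of the `w ξ`, `ξ < o` -/
def Enum (p : P) (x : BSet (RO P)) (o : Ordinal.{u}) (w : Ordinal.{u} → BSet (RO P)) : Prop :=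
  ∀ q ≤ p, ∀ y, Fo q (.mem 0 1) (vl [y, x]) → ∃ r ≤ q, ∃ ξ < o, Fo r (.eq 0 1) (vl [y, w ξ])

theorem Enum.mono {p q : P} {x : BSet (RO P)} {o : Ordinal.{u}} {w : Ordinal.{u} → BSet (RO P)}
    (hq : q ≤ p) (h : Enum p x o w) : Enum q x o w :=
  fun r hr y hy => h r (hr.trans hq) y hy

/-- an injection of the ordinals below `α` into the ordinals below `ν` -/
private theorem ye_inj {ν : Cardinal.{u}} {α : Ordinal.{u}} (h : α < (Order.succ ν).ord) :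
    ∃ i : Ordinal.{u} → Ordinal.{u}, (∀ ζ < α, i ζ < ν.ord) ∧
      ∀ ζ < α, ∀ ζ' < α, i ζ = i ζ' → ζ = ζ' := by
  classical
  have h1 : α.card ≤ ν := Order.lt_succ_iff.1 (lt_ord.1 h)
  have h2 : #(Set.Iio α) ≤ #(Set.Iio ν.ord) := by
    rw [mk_Iio_ordinal, mk_Iio_ordinal, card_ord, lift_le]
    exact h1
  obtain ⟨e⟩ := (le_def _ _).1 h2
  refine ⟨fun ζ => if hz : ζ < α then (e ⟨ζ, hz⟩).1 else 0, ?_, ?_⟩
  · intro ζ hz
    simp only [dif_pos hz]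
    exact (e ⟨ζ, hz⟩).2
  · intro ζ hz ζ' hz' he
    simp only [dif_pos hz, dif_pos hz'] at he
    exact congrArg Subtype.val (e.injective (Subtype.ext he))

/-- the formula: `x_0` is a function with domain `x_2` and all elements of `x_1` are values -/
private def yeF : Fml := an (fFun 0 2) (.all (.imp (.mem 0 2) (fBex 3 (fVal 2 0 1))))

private theorem ye_dense {ν : Cardinal.{u}} {p : P} {x : BSet (RO P)}
    (h : Fo p (fSm 0 1) (vl [x, ck (Order.succ ν).ord])) :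
    ∃ r ≤ p, Fo r (ex yeF) (vl [x, ck ν.ord]) := by
  classical
  obtain ⟨a, ha⟩ := Fo.ex.1 h
  obtain ⟨ha1, ha2⟩ := Fo.an.1 ha
  obtain ⟨f, hf⟩ := Fo.ex.1 ha2
  obtain ⟨r, hr, α, hα, hra⟩ := ck_ex (x := a) (o := (Order.succ ν).ord) ha1 p le_rfl
  obtain ⟨i, hi1, hi2⟩ := ye_inj hα
  refine ⟨r, hr, ?_⟩
  -- the facts about `f` in the quotients
  have hF : ∀ G : Ult (RO P), RO.up r ∈ G.s →
      IsFun (EG G) (NG.mk G f) (NG.mk G (ck α)) ∧ ∀ y, EG G y (NG.mk G x) →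
        ∃ z, EG G z (NG.mk G (ck α)) ∧ Val (EG G) (NG.mk G f) z y := by
    intro G hG
    have h1 := hf.tr G (up_mem hr hG)
    have h2 : NG.mk G a = NG.mk G (ck α) := hra.tr G hG
    obtain ⟨h3, h4⟩ := sat_an.1 h1
    have h5 : IsFun (EG G) (NG.mk G f) (NG.mk G a) := sat_fFun.1 h3
    rw [h2] at h5
    refine ⟨h5, fun y hy => ?_⟩
    obtain ⟨z, hz⟩ := sat_ex.1 (h4 y hy)
    obtain ⟨hz1, hz2⟩ := sat_an.1 hz
    have hz3 : EG G z (NG.mk G a) := hz1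
    rw [h2] at hz3
    exact ⟨z, hz3, sat_fVal.1 hz2⟩
  -- names of the values
  have hu : ∀ ζ : Ordinal.{u}, ∃ t : BSet (RO P), ζ < α → ∀ G : Ult (RO P), RO.up r ∈ G.s →
      Val (EG G) (NG.mk G f) (NG.mk G (ck ζ)) (NG.mk G t) := by
    intro ζ
    by_cases hz : ζ < α
    · have h1 : Fo r (ex (fVal 1 2 0)) (vl [f, ck ζ]) := by
        refine Fo.of fun G hG => ?_
        obtain ⟨t, ht⟩ := (hF G hG).1.2.1 (NG.mk G (ck ζ)) ((ck_mem_iff G).2 hz)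
        exact sat_ex.2 ⟨t, sat_fVal.2 ht⟩
      obtain ⟨t, ht⟩ := Fo.ex.1 h1
      exact ⟨t, fun _ G hG => sat_fVal.1 (ht.tr G hG)⟩
    · exact ⟨ck 0, fun h => absurd h hz⟩
  choose u hu using hu
  obtain ⟨v, hv⟩ : ∃ v : Ordinal.{u} → BSet (RO P), ∀ ζ < α, v (i ζ) = u ζ := by
    refine ⟨fun ξ => if hx : ∃ ζ, ζ < α ∧ i ζ = ξ then u hx.choose else ck 0, ?_⟩
    intro ζ hz
    have hx : ∃ ζ', ζ' < α ∧ i ζ' = i ζ := ⟨ζ, hz, rfl⟩
    simp only [dif_pos hx]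
    rw [hi2 _ hx.choose_spec.1 _ hz hx.choose_spec.2]
  -- the values of `f` are values of the sequence
  have hB : Fo r (fBall 0 (.all (.imp (fVal 3 1 0) (ex (an (.mem 0 5) (fVal 6 0 1))))))
      (vl [ck α, f, ck ν.ord, seqN ν.ord v]) := by
    rw [Fo.ball (o := α) rfl]
    intro ζ hz
    refine Fo.of fun G hG => ?_
    intro y hy
    have hy' : Val (EG G) (NG.mk G f) (NG.mk G (ck ζ)) y := sat_fVal.1 hy
    have h1 := (hF G hG).1.2.2 _ _ _ hy' (hu ζ hz G hG)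
    refine sat_ex.2 ⟨NG.mk G (ck (i ζ)), sat_an.2 ⟨(ck_mem_iff G).2 (hi1 ζ hz), ?_⟩⟩
    rw [sat_fVal]
    have h2 := seqN_val ν.ord v (hi1 ζ hz) G
    rw [hv ζ hz, ← h1] at h2
    exact h2
  rw [Fo.ex]
  refine ⟨seqN ν.ord v, Fo.of fun G hG => ?_⟩
  refine sat_an.2 ⟨sat_fFun.2 (seqN_fun ν.ord v G), ?_⟩
  intro y hy
  obtain ⟨z, hz, hz'⟩ := (hF G hG).2 y hy
  have h1 := sat_fBall.1 (hB.tr G hG) z hz y (sat_fVal.2 hz')
  obtain ⟨z', hz1⟩ := sat_ex.1 h1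
  obtain ⟨hz2, hz3⟩ := sat_an.1 hz1
  exact sat_fBex.2 ⟨z', hz2, sat_fVal.2 (sat_fVal.1 hz3)⟩

theorem enum_of_sm {ν : Cardinal.{u}} (hν : ℵ₀ ≤ ν) {p : P} {x : BSet (RO P)}
    (h : Fo p (fSm 0 1) (vl [x, ck (Order.succ ν).ord])) :
    ∃ w : Ordinal.{u} → BSet (RO P), Enum p x ν.ord w := by
  have h1 : Fo p (ex yeF) (vl [x, ck ν.ord]) := by
    refine Fo.loc fun q hq => ?_
    exact ye_dense (h.mono hq)
  obtain ⟨g, hg⟩ := Fo.ex.1 h1
  obtain ⟨hg1, hg2⟩ := Fo.an.1 hg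
  have hfun : ∀ G : Ult (RO P), RO.up p ∈ G.s →
      IsFun (EG G) (NG.mk G g) (NG.mk G (ck ν.ord)) := fun G hG => sat_fFun.1 (hg1.tr G hG)
  have hw : ∀ ξ : Ordinal.{u}, ∃ t : BSet (RO P), ξ < ν.ord → ∀ G : Ult (RO P),
      RO.up p ∈ G.s → Val (EG G) (NG.mk G g) (NG.mk G (ck ξ)) (NG.mk G t) := by
    intro ξ
    by_cases hx : ξ < ν.ord
    · have h1 : Fo p (ex (fVal 1 2 0)) (vl [g, ck ξ]) := by
        refine Fo.of fun G hG => ?_
        obtain ⟨t, ht⟩ := (hfun G hG).2.1 (NG.mk G (ck ξ)) ((ck_mem_iff G).2 hx)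
        exact sat_ex.2 ⟨t, sat_fVal.2 ht⟩
      obtain ⟨t, ht⟩ := Fo.ex.1 h1
      exact ⟨t, fun _ G hG => sat_fVal.1 (ht.tr G hG)⟩
    · exact ⟨ck 0, fun h => absurd h hx⟩
  choose w hw using hw
  refine ⟨w, fun q hq y hy => ?_⟩
  have h3 := Fo.imp.1 (Fo.all.1 hg2 y) q hq hy
  rw [Fo.bex (o := ν.ord) rfl] at h3
  obtain ⟨r, hr, ξ, hξ, h4⟩ := h3 q le_rfl
  refine ⟨r, hr, ξ, hξ, Fo.of fun G hG => ?_⟩
  have h5 : Val (EG G) (NG.mk G g) (NG.mk G (ck ξ)) (NG.mk G y) := sat_fVal.1 (h4.tr G hG)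
  exact (hfun G (up_mem (hr.trans hq) hG)).2.2 _ _ _ h5 (hw ξ hξ G (up_mem (hr.trans hq) hG))

theorem sm_of_enum {ν : Cardinal.{u}} (hν : ℵ₀ ≤ ν) {p : P} {x : BSet (RO P)}
    {w : Ordinal.{u} → BSet (RO P)} (h : Enum p x ν.ord w) :
    Fo p (fSm 0 1) (vl [x, ck (Order.succ ν).ord]) := by
  have h1 : Fo p (.all (.imp (.mem 0 1) (fBex 2 (fVal 4 0 1))))
      (vl [x, ck ν.ord, seqN ν.ord w]) := by
    rw [Fo.all]
    intro y
    rw [Fo.imp]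
    intro q hq hy
    rw [Fo.bex (o := ν.ord) rfl]
    intro q' hq'
    obtain ⟨r, hr, ξ, hξ, h2⟩ := h q' (hq'.trans hq) y (hy.mono hq')
    refine ⟨r, hr, ξ, hξ, Fo.of fun G hG => ?_⟩
    have h3 : NG.mk G y = NG.mk G (w ξ) := h2.tr G hG
    have h4 := seqN_val ν.ord w hξ G
    rw [← h3] at h4
    exact sat_fVal.2 h4
  refine Fo.of fun G hG => ?_
  rw [sat_fSm]
  have h2 := h1.tr G hG
  refine ⟨NG.mk G (ck ν.ord), (ck_mem_iff G).2 (ord_lt_ord.2 (Order.lt_succ ν)),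
    NG.mk G (seqN ν.ord w), seqN_fun ν.ord w G, fun y hy => ?_⟩
  obtain ⟨z, hz, hz'⟩ := sat_fBex.1 (h2 y hy)
  exact ⟨z, hz, sat_fVal.1 hz'⟩

theorem Enum.inside {p : P} {x : BSet (RO P)} {o : Ordinal.{u}}
    {w : Ordinal.{u} → BSet (RO P)} (h : Enum p x o w)
    (hx : Fo p (ex (.mem 0 1)) (vl [x])) :
    ∃ w' : Ordinal.{u} → BSet (RO P), Enum p x o w' ∧ ∀ ξ, Fo p (.mem 0 1) (vl [w' ξ, x]) := by
  have h1 : ∀ ξ : Ordinal.{u}, ∃ t : BSet (RO P), ∀ G : Ult (RO P), RO.up p ∈ G.s →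
      EG G (NG.mk G t) (NG.mk G x) ∧
        (EG G (NG.mk G (w ξ)) (NG.mk G x) → NG.mk G t = NG.mk G (w ξ)) := by
    intro ξ
    have h2 : Fo p (ex (an (.mem 0 1) (.imp (.mem 2 1) (.eq 0 2)))) (vl [x, w ξ]) := by
      refine Fo.of fun G hG => ?_
      by_cases hm : EG G (NG.mk G (w ξ)) (NG.mk G x)
      · exact sat_ex.2 ⟨NG.mk G (w ξ), sat_an.2 ⟨hm, fun _ => rfl⟩⟩
      · obtain ⟨t, ht⟩ := sat_ex.1 (hx.tr G hG)
        exact sat_ex.2 ⟨t, sat_an.2 ⟨ht, fun h3 => absurd h3 hm⟩⟩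
    obtain ⟨t, ht⟩ := Fo.ex.1 h2
    refine ⟨t, fun G hG => ?_⟩
    obtain ⟨h3, h4⟩ := sat_an.1 (ht.tr G hG)
    exact ⟨h3, h4⟩
  choose w' hw' using h1
  refine ⟨w', fun q hq y hy => ?_, fun ξ => Fo.of fun G hG => (hw' ξ G hG).1⟩
  obtain ⟨r, hr, ξ, hξ, h2⟩ := h q hq y hy
  refine ⟨r, hr, ξ, hξ, Fo.of fun G hG => ?_⟩
  have h3 : NG.mk G y = NG.mk G (w ξ) := h2.tr G hG
  have h4 : EG G (NG.mk G y) (NG.mk G x) := hy.tr G (up_mem hr hG)
  have h5 := (hw' ξ G (up_mem (hr.trans hq) hG)).2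
  rw [h3] at h4
  exact h3.trans (h5 h4).symm

end STP
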