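import Pool.Agent.STP.YBdd
import Pool.Agent.STP.YCol
import Pool.Agent.STP.OT

/-! # The sequence of the infinite cardinals below `ν` (package Y05)

(problem MP_e44aae_lc, project STP)

Let `k` be the sequence of `BF.seq`, `D` the set of `BF.cand`, `lam := ν.ord`, `γ` as in `BF`. Define `z α := ⊤` if `α = (k i).ord` for some `i`, and `z α := bval (fIC 0) (vl [ck α]) ⊓ RO.up pstar` otherwise. Let `Do := {α | ∃ c, α = c.ord ∧ (c ∈ D ∨ ∃ i, c = k i)}`. Apply `order_type` (file OT) with `D := Do` and `s i := (k i').ord`, `i' : γ.ord.ToType` the element of rank `i` (for `i < γ.ord`,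
`Ordinal.ToType.mk`; `s i := 0` otherwise).
* `hD`: let `α < ν.ord`, `α ∉ Do`. `z α = ⊥`: otherwise some `p` is in it; `p ≤ pstar` may be assumed (`RO.mem_up`, `RO.down`), `Fo p (fIC 0) (vl [ck α])`. Take `G` with `up p ∈ G.s` (`Ult.exists_mem`, `RO.up p ≠ ⊥`). `α` is infinite (`not_ic_fin`), `α = α.card.ord` (`not_cd_ne`), so `c := α.card` satisfies `ℵ₀ ≤ c < ν`, `c ∉ D`, and there is `a < c` with `OntoN P pstar a.out c.out`; `not_cd_col`
  (`up pstar ∈ G.s` by `up_mem`). Contradiction.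
* `hDα`: for `α < ν.ord`, `α.card < ν`; `c := succ α.card < ν`? (`ν` is a supremum of the `k i`, so there is `i` with `α.card < k i`). The ordinals `β < α`, `β ∈ Do` inject (`β ↦ β.card`, injective on `Do`) into `{d ∈ D, d < k i}` plus the set of the `k j < k i`, i.e. `j < i`, which has fewer than `γ` elements (`j : γ.ord.ToType`, `Cardinal.mk_Iio_ord_toType` or similar); the sum of two cardinals `< γ` is `< γ`
  (`γ` infinite, `Cardinal.add_lt_of_lt`).
* `hs, hsl, hsz` are clear (`Cardinal.ord_lt_ord`).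
`order_type` gives `f`. For `i < γ.ord` let `w i` be a name with `f i α ≤ eq (w i) (ck α)` for all `α < ν.ord` (`BSet.mix` with the index set `ν.ord.ToType`; fourth clause of `order_type`).
(1): given `i < γ.ord`, `p ≤ pstar`: `p ∈ ⊤ = ⨆ α, f i α`, so there are `q ≤ p`, `α < ν.ord` with `q ∈ f i α`; `q ∈ z α`, so `Fo q (fIC 0) (vl [ck α])` (if `α = (k i').ord` by `isRC_of_bdd` and `Fo.of`; otherwise by definition).
(2): given `α < ν.ord`, `p ≤ pstar`, `Fo p (fIC 0) (vl [ck α])`: `p ∈ z α` (`RO.mem_up`), so `q ≤ p`, `i` with `q ∈ f i α`.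
(3): `i < j < γ.ord`. `Fo.loc`: below `p ≤ pstar` there are `q`, `α`, `β < ν.ord` with `q ∈ f i α`, `q ∈ f j β`; so `α < β` (third clause, otherwise `q ∈ ⊥`); `Fo q (mem (w i) (w j))` by `ck_mem_iff` in every `NG G`. -/

universe u

namespace STP

open BSet Cardinal

variable {P : Type u} [PartialOrder P]

theorem al_names {pstar : P} {γ ν : Cardinal.{u}} (h : BF0 P pstar γ ν) :
    ∃ w : Ordinal.{u} → BSet (RO P),
      (∀ i < γ.ord, ∀ p ≤ pstar, ∃ q ≤ p, ∃ α < ν.ord,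
        Fo q (.eq 0 1) (vl [w i, ck α]) ∧ Fo q (fIC 0) (vl [ck α])) ∧
      (∀ α < ν.ord, ∀ p ≤ pstar, Fo p (fIC 0) (vl [ck α]) →
        ∃ q ≤ p, ∃ i < γ.ord, Fo q (.eq 0 1) (vl [w i, ck α])) ∧
      ∀ i j, i < j → j < γ.ord → Fo pstar (.mem 0 1) (vl [w i, w j]) := by
  classical
  obtain ⟨k, hk1, hk2, hk3, hk4, hk5⟩ := h.seq
  obtain ⟨D, hDa, hDb⟩ := h.cand
  set z : Ordinal.{u} → RO P := fun α =>
    if ∃ i, α = (k i).ord then ⊤ else bval (fIC 0) (vl [ck α]) ⊓ RO.up pstar with hz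
  have hz1 : ∀ α q, q ∈ z α → Fo q (fIC 0) (vl [ck α]) := by
    intro α q hq
    by_cases hc : ∃ i, α = (k i).ord
    · obtain ⟨i, rfl⟩ := hc
      exact Fo.of fun G _ => sat_fIC.2 (isRC_of_bdd (hk2 i) (hk5 i) G).1
    · simp only [hz, if_neg hc] at hq
      exact (RO.mem_inf.1 hq).1
  have hz2 : ∀ α q, q ≤ pstar → Fo q (fIC 0) (vl [ck α]) → q ∈ z α := by
    intro α q hq hF
    by_cases hc : ∃ i, α = (k i).ord
    · simp only [hz, if_pos hc]
      exact RO.mem_top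
    · simp only [hz, if_neg hc]
      exact RO.mem_inf.2 ⟨hF, RO.mem_up.2 fun r hr => ⟨r, le_rfl, hr.trans hq⟩⟩
  set Do : Set Ordinal.{u} :=
    {α | ∃ c : Cardinal.{u}, α = c.ord ∧ (c ∈ D ∨ ∃ i, c = k i)} with hDo
  have hD : ∀ α < ν.ord, α ∉ Do → z α = ⊥ := by
    intro α hα hαD
    refine RO.ext' fun q => ⟨fun hq => ?_, fun hq => absurd hq RO.not_mem_bot⟩
    exfalso
    have hnc : ¬ ∃ i, α = (k i).ord := fun ⟨i, hi⟩ => hαD ⟨k i, hi, Or.inr ⟨i, rfl⟩⟩
    simp only [hz, if_neg hnc] at hq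
    obtain ⟨hq1, hq2⟩ := RO.mem_inf.1 hq
    obtain ⟨r, hr, hrp⟩ := RO.mem_up.1 hq2 q le_rfl
    have hF : Fo r (fIC 0) (vl [ck α]) := Fo.mono hr hq1
    obtain ⟨G, hG⟩ : ∃ G : Ult (RO P), RO.up r ∈ G.s :=
      Ult.exists_mem fun h => RO.not_mem_bot (p := r) (h ▸ RO.self_mem_up r)
    have hIC : IsIC (EG G) (NG.mk G (ck α)) := sat_fIC.1 (hF.tr G hG)
    have hω : Ordinal.omega0 ≤ α := by
      by_contra hc
      exact not_ic_fin (not_le.1 hc) G hIC
    have hcard : α = α.card.ord := by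
      by_contra hc
      exact not_cd_ne hc G hIC.1
    have hc1 : ℵ₀ ≤ α.card := by
      have h1 := Ordinal.card_le_card hω
      rwa [Ordinal.card_omega0] at h1
    have hc2 : α.card < ν := Cardinal.lt_ord.1 hα
    have hc3 : α.card ∉ D := fun hc => hαD ⟨α.card, hcard, Or.inl hc⟩
    obtain ⟨a, ha, hOn⟩ := hDa _ hc1 hc2 hc3
    refine not_cd_col ha hOn G (up_mem hrp hG) ?_
    rw [← hcard]
    exact hIC.1
  have hDα : ∀ α < ν.ord, ∃ A : Type u, #A < γ ∧ Nonempty ({β // β ∈ Do ∧ β < α} ↪ A) := by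
    intro α hα
    have hc2 : α.card < ν := Cardinal.lt_ord.1 hα
    obtain ⟨i0, hi0⟩ := hk4 _ hc2
    obtain ⟨A, hA, ⟨e⟩⟩ := hDb (k i0) (hk3 i0)
    refine ⟨A ⊕ Set.Iio i0, ?_, ?_⟩
    · rw [mk_sum, lift_id, lift_id]
      exact add_lt_of_lt h.inf hA (mk_Iio_toType_ord_lt i0)
    · have key : ∀ β : {β // β ∈ Do ∧ β < α}, β.1 = β.1.card.ord ∧ β.1.card < k i0 ∧
          (β.1.card ∈ D ∨ ∃ i : Set.Iio i0, β.1.card = k i) := by
        rintro ⟨β, ⟨c, rfl, hc⟩, hβ⟩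
        have h1 : c.ord.card = c := Cardinal.card_ord c
        have h2 : c < k i0 := by
          have h3 := Ordinal.card_le_card hβ.le
          rw [h1] at h3
          exact h3.trans_lt hi0
        refine ⟨by rw [h1], by rw [h1]; exact h2, ?_⟩
        rw [h1]
        rcases hc with hc | ⟨i, hi⟩
        · exact Or.inl hc
        · refine Or.inr ⟨⟨i, ?_⟩, hi⟩
          rw [Set.mem_Iio]
          by_contra hni
          rcases (not_lt.1 hni).eq_or_lt with h4 | h4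
          · rw [hi, h4] at h2
            exact lt_irrefl _ h2
          · rw [hi] at h2
            exact lt_irrefl _ (h2.trans (hk1 _ _ h4))
      have hF : ∀ β : {β // β ∈ Do ∧ β < α}, ∃ y : A ⊕ Set.Iio i0,
          (∃ hd : β.1.card ∈ D ∧ β.1.card < k i0, y = Sum.inl (e ⟨β.1.card, hd⟩)) ∨
          ∃ i : Set.Iio i0, β.1.card = k i ∧ y = Sum.inr i := by
        intro β
        obtain ⟨-, h2, h3⟩ := key β
        rcases h3 with h3 | ⟨i, hi⟩
        · exact ⟨_, Or.inl ⟨⟨h3, h2⟩, rfl⟩⟩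
        · exact ⟨_, Or.inr ⟨i, hi, rfl⟩⟩
      choose F hF using hF
      refine ⟨⟨F, ?_⟩⟩
      intro β β' hββ
      have hcc : β.1.card = β'.1.card := by
        rcases hF β with ⟨hd, h1⟩ | ⟨i, hi, h1⟩ <;> rcases hF β' with ⟨hd', h2⟩ | ⟨i', hi', h2⟩
        · rw [h1, h2] at hββ
          have h3 := e.injective (Sum.inl_injective hββ)
          exact congrArg Subtype.val h3
        · rw [h1, h2] at hββ
          exact absurd hββ (by simp)
        · rw [h1, h2] at hββ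
          exact absurd hββ (by simp)
        · rw [h1, h2] at hββ
          rw [hi, hi', Sum.inr_injective hββ]
      apply Subtype.ext
      rw [(key β).1, (key β').1, hcc]
  set s : Ordinal.{u} → Ordinal.{u} := fun i =>
    if hi : i < γ.ord then (k (Ordinal.ToType.mk ⟨i, hi⟩)).ord else 0 with hsdef
  have hs : ∀ i j, i < j → j < γ.ord → s i < s j := by
    intro i j hij hj
    simp only [hsdef, dif_pos hj, dif_pos (hij.trans hj)]
    rw [Cardinal.ord_lt_ord]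
    apply hk1
    exact (Ordinal.ToType.mk (o := γ.ord)).lt_iff_lt.2 hij
  have hsl : ∀ i < γ.ord, s i < ν.ord := by
    intro i hi
    simp only [hsdef, dif_pos hi]
    rw [Cardinal.ord_lt_ord]
    exact hk3 _
  have hsz : ∀ i < γ.ord, z (s i) = ⊤ := by
    intro i hi
    simp only [hsdef, dif_pos hi]
    simp only [hz]
    exact if_pos ⟨_, rfl⟩
  obtain ⟨f, hf1, hf2, hf3, hf4, hf5⟩ := order_type h.inf ν.ord z Do hD hDα s hs hsl hsz
  have hw : ∀ i : Ordinal.{u}, ∃ w : BSet (RO P), i < γ.ord →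
      ∀ α < ν.ord, f i α ≤ eq w (ck α) := by
    intro i
    by_cases hi : i < γ.ord
    · obtain ⟨w, hw⟩ := mix (fun x : ν.ord.ToType => f i (Ordinal.ToType.toOrd x).1)
        (fun x y hxy => hf4 i _ _ hi (Ordinal.ToType.toOrd x).2 (Ordinal.ToType.toOrd y).2
          (fun hc => hxy (Ordinal.ToType.mk.symm.injective (Subtype.ext hc))))
        (fun x => ck (Ordinal.ToType.toOrd x).1)
      refine ⟨w, fun _ α hα => ?_⟩
      have h1 := hw (Ordinal.ToType.mk ⟨α, hα⟩)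
      have h2 : Ordinal.ToType.toOrd (Ordinal.ToType.mk (o := ν.ord) ⟨α, hα⟩) = ⟨α, hα⟩ :=
        (Ordinal.ToType.mk (o := ν.ord)).symm_apply_apply _
      rw [h2] at h1
      exact h1
    · exact ⟨ck 0, fun hi' => absurd hi' hi⟩
  choose w hw using hw
  have h1 : ∀ i < γ.ord, ∀ p : P, ∃ q ≤ p, ∃ α < ν.ord, q ∈ f i α := by
    intro i hi p
    have h2 : p ∈ ⨆ α : Set.Iio ν.ord, f i α.1 := by
      rw [hf5 i hi]
      exact RO.mem_top
    obtain ⟨q, hq, α, h3⟩ := RO.mem_iSup.1 h2 p le_rfl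
    exact ⟨q, hq, α.1, α.2, h3⟩
  refine ⟨w, ?_, ?_, ?_⟩
  · intro i hi p _
    obtain ⟨q, hq, α, hα, h2⟩ := h1 i hi p
    exact ⟨q, hq, α, hα, hw i hi α hα q h2, hz1 α q (hf1 i α hi hα q h2)⟩
  · intro α hα p hp hF
    have h2 := hf2 α hα p (hz2 α p hp hF)
    obtain ⟨q, hq, i, h3⟩ := RO.mem_iSup.1 h2 p le_rfl
    exact ⟨q, hq, i.1, i.2, hw i.1 i.2 α hα q h3⟩
  · intro i j hij hj
    refine Fo.loc fun p _ => ?_
    obtain ⟨q, hq, α, hα, h2⟩ := h1 i (hij.trans hj) p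
    obtain ⟨r, hr, β, hβ, h3⟩ := h1 j hj q
    have h4 : r ∈ f i α := (f i α).down hr h2
    have hαβ : α < β := by
      by_contra hc
      have h5 : r ∈ f i α ⊓ f j β := RO.mem_inf.2 ⟨h4, h3⟩
      rw [hf3 i j α β hij hj hα hβ hc] at h5
      exact RO.not_mem_bot h5
    refine ⟨r, hr.trans hq, Fo.of fun G hG => ?_⟩
    have h5 : Fo r (.eq 0 1) (vl [w i, ck α]) := hw i (hij.trans hj) α hα r h4
    have h6 : Fo r (.eq 0 1) (vl [w j, ck β]) := hw j hj β hβ r h3
    have h7 : NG.mk G (w i) = NG.mk G (ck α) := h5.tr G hG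
    have h8 : NG.mk G (w j) = NG.mk G (ck β) := h6.tr G hG
    change EG G (NG.mk G (w i)) (NG.mk G (w j))
    rw [h7, h8, ck_mem_iff]
    exact hαβ

end STP
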