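import Pool.Agent.STP.YUni
import Pool.Agent.STP.YThr

/-! # The system of traces (package Y10)

(problem MP_e44aae_lc, project STP)

`TrD` collects the data: `p0` forces that `d` is a `P_κ(lam)`-list, `C` a club, `nm m` (`m : L`) represents all names of elements of `C`, `T m` is the set of traces of `d` on `nm m`, and `w m ξ` (`ξ < o`) enumerates `T m`.
`trR q a b ξ ζ`: `q` forces that `ξ` is the least index such that `w a ξ = w b ζ ∩ nm a`.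

* `trR_fn`: if `ξ < ξ'` then `q` forces `IsInt (w a ξ) ..` and its negation; some `G` contains `RO.up q` (or `Fo.no`).
* `trR_tot`: let `q ≤ p0`. Claim: `q` forces `∃ t, t ∈ T a ∧ t = w b ζ ∩ nm a`. In `NG G`, `up q ∈ G` (`up_mem`: also `up p0 ∈ G`; `ZFC` by `NG_zfc`): `w b ζ ∈ T b` gives `x ∈ P_κ(lam)`, `nm b ⊆ x`, `Val d x s`, `w b ζ = s ∩ nm b`. Let `t := s ∩ nm a` (separation with the formula `.mem 0 1`). Since `nm a ⊆ nm b ⊆ x`, `t` is a trace, `t ∈ T a`; and `t = w b ζ ∩ nm a`. Let `t` be a name (`Fo.ex`); by `Enum` there are `r ≤ q`, `ξ < o` with `Fo r (t = w a ξ)`,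
  so `Fo r (fInt 0 1 2) (vl [w a ξ, w b ζ, nm a])`. Let `ξ` be the least ordinal such that some `r ≤ q` has this property (it is `< o`), and `r` such a condition; for `ξ' < ξ` no `r' ≤ r` forces it, so `Fo r (.no ..)` (`Fo.no`).
* `trR_comp`: `w a ξ = w b ζ ∩ nm a`, `w b ζ = w c η ∩ nm b`, `nm a ⊆ nm b` imply `w a ξ = w c η ∩ nm a`; for `ξ' < ξ`: if `w a ξ' = w c η ∩ nm a` in `NG G` then `w a ξ' = w b ζ ∩ nm a`, contradiction. (`Fo.of`, `Fo.tr`.)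
* `exists_thr`: apply `Threads.belowR` with the preorder `preL p0 nm` on `L` and `R q a b ξ ζ := trR nm w q a b (toOrd ξ) (toOrd ζ)` (`Ordinal.ToType.toOrd`), `mono`, `loc` by `Fo.mono`, `Fo.loc`. `Dir`: let `A : Set L`, `#A ≤ #ν.ord.ToType = ν` (`Cardinal.mk_ord_toType`); `club_dir` for `J := A`, `m s := nm s`, gives `y`; `hall` gives `m` with `Fo p0 (nm m = y)`; `nm s ⊆ nm m`.
  Put `th' q a ξ := ∃ h : ξ < ν.ord, th q a (Ordinal.ToType.mk ⟨ξ, h⟩)`. -/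

universe u

namespace STP

open BSet Cardinal Fml

variable {P : Type u} [PartialOrder P]

/-- the data of the system of traces -/
structure TrD (p0 : P) (κ lam d C : BSet (RO P)) (o : Ordinal.{u}) (L : Type u)
    (nm T : L → BSet (RO P)) (w : L → Ordinal.{u} → BSet (RO P)) : Prop where
  list : Fo p0 (fList 0 1 2) (vl [κ, lam, d])
  club : Fo p0 (fClub 0 1 2) (vl [κ, lam, C])
  inC : ∀ m, Fo p0 (.mem 0 1) (vl [nm m, C])
  all : ∀ y, Fo p0 (.mem 0 1) (vl [y, C]) → ∃ m, Fo p0 (.eq 0 1) (vl [nm m, y])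
  tr : ∀ m, Fo p0 (fTrace 0 1 2 3 4) (vl [κ, lam, d, nm m, T m])
  inT : ∀ m ξ, Fo p0 (.mem 0 1) (vl [w m ξ, T m])
  enu : ∀ m, Enum p0 (T m) o (w m)

/-- the preorder of the names: `p0` forces `nm a ⊆ nm b` -/
@[reducible] def preL {L : Type u} (p0 : P) (nm : L → BSet (RO P)) : Preorder L where
  le a b := Fo p0 (fSub 0 1) (vl [nm a, nm b])
  le_refl a := Fo.of fun G _ => by simp [Sub]
  le_trans a b c h h' := Fo.of fun G hG => by
    have h1 := h.tr G hG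
    have h2 := h'.tr G hG
    simp only [sat_fSub, ev_apply, vl_zero, vl_one] at h1 h2 ⊢
    exact fun z hz => h2 z (h1 z hz)

/-- `q` forces that `ξ` is the least index with `w a ξ = w b ζ ∩ nm a` -/
def trR {L : Type u} (nm : L → BSet (RO P)) (w : L → Ordinal.{u} → BSet (RO P)) (q : P)
    (a b : L) (ξ ζ : Ordinal.{u}) : Prop :=
  Fo q (fInt 0 1 2) (vl [w a ξ, w b ζ, nm a]) ∧
    ∀ ξ' < ξ, Fo q (fInt 0 1 2).no (vl [w a ξ', w b ζ, nm a])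

variable {p0 : P} {κ lam d C : BSet (RO P)} {o : Ordinal.{u}} {L : Type u}
  {nm T : L → BSet (RO P)} {w : L → Ordinal.{u} → BSet (RO P)}

theorem trR_fn {q : P} {a b : L} {ξ ξ' ζ : Ordinal.{u}} (h : trR nm w q a b ξ ζ)
    (h' : trR nm w q a b ξ' ζ) : ξ = ξ' := by
  rcases lt_trichotomy ξ ξ' with h1 | h1 | h1
  · exact absurd h.1 (Fo.no.1 (h'.2 ξ h1) q le_rfl)
  · exact h1
  · exact absurd h'.1 (Fo.no.1 (h.2 ξ' h1) q le_rfl)

private theorem trR_ex (D : TrD p0 κ lam d C o L nm T w) {a b : L}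
    (hab : Fo p0 (fSub 0 1) (vl [nm a, nm b])) {q : P} (hq : q ≤ p0) (ζ : Ordinal.{u}) :
    ∃ r ≤ q, ∃ ξ < o, Fo r (fInt 0 1 2) (vl [w a ξ, w b ζ, nm a]) := by
  have h1 : Fo q (ex (an (.mem 0 1) (fInt 0 2 3))) (vl [T a, w b ζ, nm a]) := by
    refine Fo.of fun G hG => ?_
    have hG0 : RO.up p0 ∈ G.s := up_mem hq hG
    have e1 := (D.inT b ζ).tr G hG0
    have e2 := (D.tr b).tr G hG0
    have e3 := (D.tr a).tr G hG0
    have e4 := hab.tr G hG0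
    simp only [sat_fTrace, sat_mem, sat_fSub, ev_apply, vl_zero, vl_succ] at e1 e2 e3 e4
    obtain ⟨x, s, hP, hsub, hval, hint⟩ := (e2 _).1 e1
    obtain ⟨t, ht⟩ := (NG_zfc G).separation (.mem 0 1) (fun _ => NG.mk G (nm a)) s
    have ht' : IsInt (EG G) t s (NG.mk G (nm a)) := fun z => ht z
    have ht2 : EG G t (NG.mk G (T a)) :=
      (e3 t).2 ⟨x, s, hP, fun z hz => hsub z (e4 z hz), hval, ht'⟩
    simp only [sat_ex, sat_an, sat_mem, sat_fInt]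
    refine ⟨t, ht2, fun z => ?_⟩
    change EG G z t ↔ EG G z (NG.mk G (w b ζ)) ∧ EG G z (NG.mk G (nm a))
    rw [ht' z, hint z]
    exact ⟨fun hz => ⟨⟨hz.1, e4 z hz.2⟩, hz.2⟩, fun hz => ⟨hz.1.1, hz.2⟩⟩
  obtain ⟨x0, hx0⟩ := Fo.ex.1 h1
  obtain ⟨h2, h3⟩ := Fo.an.1 hx0
  obtain ⟨r, hr, ξ, hξ, h4⟩ := D.enu a q hq x0 h2
  refine ⟨r, hr, ξ, hξ, Fo.of fun G hG => ?_⟩
  have e1 := (h3.mono hr).tr G hG
  have e2 := h4.tr G hG
  simp only [sat_fInt, sat_eq, ev_apply, vl_zero, vl_succ, cns_vl] at e1 e2 ⊢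
  rw [← e2]
  exact e1

theorem trR_tot (D : TrD p0 κ lam d C o L nm T w) {a b : L}
    (hab : Fo p0 (fSub 0 1) (vl [nm a, nm b])) {q : P} (hq : q ≤ p0) (ζ : Ordinal.{u}) :
    ∃ r ≤ q, ∃ ξ < o, trR nm w r a b ξ ζ := by
  obtain ⟨r0, hr0, ξ0, hξ0, hF0⟩ := trR_ex D hab hq ζ
  let S : Set Ordinal.{u} :=
    {ξ | ξ < o ∧ ∃ r ≤ q, Fo r (fInt 0 1 2) (vl [w a ξ, w b ζ, nm a])}
  have hS : S.Nonempty := ⟨ξ0, hξ0, r0, hr0, hF0⟩
  obtain ⟨ξ, ⟨hξ, r, hr, hF⟩, hmin⟩ := Ordinal.lt_wf.has_min S hS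
  refine ⟨r, hr, ξ, hξ, hF, fun ξ' h' => Fo.no.2 fun r' hr' h2 => ?_⟩
  exact hmin ξ' ⟨h'.trans hξ, r', hr'.trans hr, h2⟩ h'

theorem trR_comp {a b c : L} (hab : Fo p0 (fSub 0 1) (vl [nm a, nm b])) {q : P} (hq : q ≤ p0)
    {ξ ζ η : Ordinal.{u}} (h : trR nm w q a b ξ ζ) (h' : trR nm w q b c ζ η) :
    trR nm w q a c ξ η := by
  have key : ∀ (G : Ult (RO P)), RO.up q ∈ G.s → ∀ y : NG G,
      IsInt (EG G) y (NG.mk G (w b ζ)) (NG.mk G (nm a)) ↔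
        IsInt (EG G) y (NG.mk G (w c η)) (NG.mk G (nm a)) := by
    intro G hG y
    have e1 := h'.1.tr G hG
    have e2 := (hab.mono hq).tr G hG
    simp only [sat_fInt, sat_fSub, ev_apply, vl_zero, vl_succ] at e1 e2
    refine forall_congr' fun z => ?_
    rw [e1 z]
    constructor
    · intro hz
      exact hz.trans ⟨fun h => ⟨h.1.1, h.2⟩, fun h => ⟨⟨h.1, e2 z h.2⟩, h.2⟩⟩
    · intro hz
      exact hz.trans ⟨fun h => ⟨⟨h.1, e2 z h.2⟩, h.2⟩, fun h => ⟨h.1.1, h.2⟩⟩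
  refine ⟨Fo.of fun G hG => ?_, fun ξ' hξ' => Fo.of fun G hG => ?_⟩
  · have e := h.1.tr G hG
    simp only [sat_fInt, ev_apply, vl_zero, vl_succ] at e ⊢
    exact (key G hG _).1 e
  · have e := (h.2 ξ' hξ').tr G hG
    simp only [sat_no, sat_fInt, ev_apply, vl_zero, vl_succ] at e ⊢
    exact fun h2 => e ((key G hG _).2 h2)

theorem exists_thr {ν : Cardinal.{u}} (hν : ℵ₀ ≤ ν) {pstar : P}
    (h : Threads P ν.ord.ToType pstar) (hp0 : p0 ≤ pstar)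
    (D : TrD p0 (ck (Order.succ ν).ord) lam d C ν.ord L nm T w) :
    (∀ a b : L, ∃ c : L, Fo p0 (fSub 0 1) (vl [nm a, nm c]) ∧
      Fo p0 (fSub 0 1) (vl [nm b, nm c])) ∧
    ∃ p ≤ p0, ∃ th : P → L → Ordinal.{u} → Prop,
      (∀ q r a ξ, r ≤ q → th q a ξ → th r a ξ) ∧
      (∀ a, ∀ q ≤ p, ∃ r ≤ q, ∃ ξ, th r a ξ) ∧
      ∀ q a b ξ ζ, q ≤ p → Fo p0 (fSub 0 1) (vl [nm a, nm b]) → th q a ξ → th q b ζ →
        trR nm w q a b ξ ζ := by
  have hdir : ∀ A : Set L, #A ≤ ν → ∃ m, ∀ s ∈ A, Fo p0 (fSub 0 1) (vl [nm s, nm m]) := by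
    intro A hA
    obtain ⟨y, hy, hy2⟩ := club_dir hν D.club (J := A) hA (fun s => nm s.1)
      (fun s => D.inC s.1)
    obtain ⟨m, hm⟩ := D.all y hy
    refine ⟨m, fun s hs => Fo.of fun G hG => ?_⟩
    have e1 := (hy2 ⟨s, hs⟩).tr G hG
    have e2 := hm.tr G hG
    simp only [sat_fSub, sat_eq, ev_apply, vl_zero, vl_one] at e1 e2 ⊢
    rw [e2]
    exact e1
  refine ⟨fun a b => ?_, ?_⟩
  · obtain ⟨m, hm⟩ := hdir {a, b} ((Cardinal.mk_le_aleph0 (α := ({a, b} : Set L))).trans hν)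
    exact ⟨m, hm a (by simp), hm b (by simp)⟩
  · let _ : Preorder L := preL p0 nm
    have hle : ∀ a b : L, a ≤ b ↔ Fo p0 (fSub 0 1) (vl [nm a, nm b]) := fun a b => Iff.rfl
    have hD : Dir #ν.ord.ToType L := by
      intro A hA
      rw [Cardinal.mk_ord_toType] at hA
      exact hdir A hA
    obtain ⟨p, hp, th, hth⟩ := h.belowR hD hp0
      (fun q a b ξ ζ => trR nm w q a b (Ordinal.ToType.toOrd ξ).1 (Ordinal.ToType.toOrd ζ).1)
      (fun hq _ h1 => ⟨h1.1.mono hq, fun ξ' h' => (h1.2 ξ' h').mono hq⟩)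
      (fun _ h1 => ⟨Fo.loc fun q hq => (h1 q hq).imp fun r hr => ⟨hr.1, hr.2.1⟩,
        fun ξ' h' => Fo.loc fun q hq => (h1 q hq).imp fun r hr => ⟨hr.1, hr.2.2 ξ' h'⟩⟩)
      (fun {a b} hab q hq ζ => by
        obtain ⟨r, hr, ξ, hξ, h1⟩ := trR_tot D hab hq (Ordinal.ToType.toOrd ζ).1
        refine ⟨r, hr, Ordinal.ToType.mk ⟨ξ, hξ⟩, ?_⟩
        simpa using h1)
      (fun _ _ h1 h2 => by
        have h3 := trR_fn h1 h2
        exact Ordinal.ToType.mk.symm.injective (Subtype.ext h3))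
      (fun hq hab _ h1 h2 => trR_comp hab hq h1 h2)
    refine ⟨p, hp, fun q a ξ => ∃ hξ : ξ < ν.ord, th q a (Ordinal.ToType.mk ⟨ξ, hξ⟩), ?_, ?_, ?_⟩
    · rintro q r a ξ hr ⟨hξ, h1⟩
      exact ⟨hξ, hth.mono hr h1⟩
    · intro a q hq
      obtain ⟨r, hr, ξ, h1⟩ := hth.tot a q hq
      refine ⟨r, hr, (Ordinal.ToType.toOrd ξ).1, (Ordinal.ToType.toOrd ξ).2, ?_⟩
      simpa using h1
    · rintro q a b ξ ζ hq hab ⟨hξ, h1⟩ ⟨hζ, h2⟩
      have h3 := hth.coh hq hab h1 h2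
      simpa using h3

end STP
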