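import Pool.Agent.STP.YEnum

/-! # Small unions, directedness of the names of elements of a club (package Y08)

(problem MP_e44aae_lc, project STP)

`κ = ck (succ ν).ord`.
* `union_small`: let `M := BSet.mk J m fun _ => ⊤`, `u := unN M`. `mem y u = ⨆ z, mem z M ⊓ mem y z = ⨆ s, mem y (m s)` (`mem_unN`, `iSup_mem` with `mem_congr_right`). So `m s ⊆ u`, and if `q` forces `y ∈ u` then there are `r ≤ q`, `s` such that `r` forces `y ∈ m s` (`RO.mem_iSup`). `u ⊆ lam`: `Fo.all`, `Fo.imp`, `Fo.loc`. `|u| < κ`: each `m s` has `w_s` with `Enum p (m s) ν.ord w_s` (`enum_of_sm`; `fP 0 1 2`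
  contains `fSm`: adapt the valuation with `Fo.iff` and `simp`). If `J` is empty, `u` is empty and any `w` will do. Otherwise there is a surjection `e` from the ordinals `< ν.ord` onto `J × {ordinals < ν.ord}` (`#J * ν = ν`); `w ξ := w_s η` for `e ξ = (s, η)`. `Enum p u ν.ord w`; `sm_of_enum`.
* `club_dir`: all `m s` satisfy `fP` (first clause of `fClub`); `u` from `union_small`; the second clause of `fClub` gives, by `Fo.ex`, a name `y` with `p` forcing `y ∈ C` and `u ⊆ y`.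
* `small_names`: `L := {g : C.ty → RO P // ∃ y, Fo p0 (.mem 0 1) (vl [y, C]) ∧ g = fun i => C.vl i ⊓ eq y (C.fn i)}` (a type in `Type u`), `nm g` a chosen such `y`. Given `y` forced to be in `C`, let `g` be its function, `y' := nm g`: `mem y C = ⨆ i, g i` by definition, so for `q ≤ p0` there are `r ≤ q`, `i` with `r ∈ g i`, `g i ≤ eq y (C.fn i)`, `g i ≤ eq y' (C.fn i)` (the same `g`), so `r ∈ eq y' y`
  (`eq_symm`, `eq_trans`). `Fo.loc`. -/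

universe u

namespace STP

open BSet Cardinal Fml

variable {P : Type u} [PartialOrder P]

/-- the union of the names `m s` -/
private theorem yu_un {J : Type u} (m : J → BSet (RO P)) : ∃ U : BSet (RO P), ∀ (q : P) y,
    Fo q (.mem 0 1) (vl [y, U]) ↔ ∀ q' ≤ q, ∃ r ≤ q', ∃ s, Fo r (.mem 0 1) (vl [y, m s]) := by
  refine ⟨unN (BSet.mk J m fun _ => ⊤), fun q y => ?_⟩
  have h1 : mem y (unN (BSet.mk J m fun _ => ⊤)) = ⨆ s : J, mem y (m s) := by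
    have hΦ : Ext fun w : BSet (RO P) => mem y w := fun w w' => mem_congr_right w w' y
    rw [mem_unN, iSup_mem hΦ]
    refine iSup_congr fun s => ?_
    exact top_inf_eq _
  have h2 : Fo q (.mem 0 1) (vl [y, unN (BSet.mk J m fun _ => ⊤)]) ↔
      q ∈ mem y (unN (BSet.mk J m fun _ => ⊤)) := Iff.rfl
  rw [h2, h1, RO.mem_iSup]
  exact Iff.rfl

private theorem yu_enum {ν : Cardinal.{u}} (hν : ℵ₀ ≤ ν) {J : Type u} (hJ : #J ≤ ν)
    [Nonempty J] {X : Type*} [Nonempty X] (w : J → Ordinal.{u} → X) :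
    ∃ W : Ordinal.{u} → X, ∀ s, ∀ η < ν.ord, ∃ ξ < ν.ord, W ξ = w s η := by
  classical
  have hA : #ν.ord.ToType = ν := Cardinal.mk_ord_toType ν
  have hne : Nonempty ν.ord.ToType := by
    rw [← Cardinal.mk_ne_zero_iff, hA]
    exact (lt_of_lt_of_le Cardinal.aleph0_pos hν).ne'
  have hle : #(J × ν.ord.ToType) ≤ #ν.ord.ToType := by
    rw [Cardinal.mk_prod, Cardinal.lift_id, Cardinal.lift_id, hA]
    exact (mul_le_mul' hJ le_rfl).trans (Cardinal.mul_eq_self hν).le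
  obtain ⟨f, hf⟩ := hle
  have hinv : ∀ x, Function.invFun f (f x) = x := Function.leftInverse_invFun hf
  refine ⟨fun ξ => if hξ : ξ < ν.ord then
    w (Function.invFun f ((Ordinal.ToType.mk (o := ν.ord)) ⟨ξ, hξ⟩)).1
      (Ordinal.ToType.toOrd
        (Function.invFun f ((Ordinal.ToType.mk (o := ν.ord)) ⟨ξ, hξ⟩)).2).1
    else Classical.arbitrary X, fun s η hη => ?_⟩
  have h5 : (Ordinal.ToType.toOrd (f (s, (Ordinal.ToType.mk (o := ν.ord)) ⟨η, hη⟩))).1 < ν.ord :=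
    (Ordinal.ToType.toOrd (f (s, (Ordinal.ToType.mk (o := ν.ord)) ⟨η, hη⟩))).2
  refine ⟨_, h5, ?_⟩
  have h3 : (Ordinal.ToType.mk (o := ν.ord)) (Ordinal.ToType.toOrd
      (f (s, (Ordinal.ToType.mk (o := ν.ord)) ⟨η, hη⟩))) =
      f (s, (Ordinal.ToType.mk (o := ν.ord)) ⟨η, hη⟩) :=
    (Ordinal.ToType.mk (o := ν.ord)).apply_symm_apply _
  have h4 : Ordinal.ToType.toOrd ((Ordinal.ToType.mk (o := ν.ord)) ⟨η, hη⟩) = ⟨η, hη⟩ :=
    (Ordinal.ToType.mk (o := ν.ord)).symm_apply_apply ⟨η, hη⟩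
  beta_reduce
  rw [dif_pos h5]
  have h6 : (⟨(Ordinal.ToType.toOrd (f (s, (Ordinal.ToType.mk (o := ν.ord)) ⟨η, hη⟩))).1, h5⟩ :
      Set.Iio ν.ord) = Ordinal.ToType.toOrd (f (s, (Ordinal.ToType.mk (o := ν.ord)) ⟨η, hη⟩)) :=
    rfl
  rw [h6, h3, hinv, h4]

private theorem yu_sm {p : P} {κ lam x : BSet (RO P)} :
    Fo p (fSm 2 0) (vl [κ, lam, x]) ↔ Fo p (fSm 0 1) (vl [x, κ]) := by
  constructor
  · intro h
    refine Fo.of fun G hG => ?_
    have h1 := Fo.tr h G hG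
    rw [sat_fSm] at h1 ⊢
    exact h1
  · intro h
    refine Fo.of fun G hG => ?_
    have h1 := Fo.tr h G hG
    rw [sat_fSm] at h1 ⊢
    exact h1

theorem union_small {ν : Cardinal.{u}} (hν : ℵ₀ ≤ ν) {p : P} {lam : BSet (RO P)} {J : Type u}
    (hJ : #J ≤ ν) (m : J → BSet (RO P))
    (h : ∀ s, Fo p (fP 0 1 2) (vl [ck (Order.succ ν).ord, lam, m s])) :
    ∃ u, Fo p (fP 0 1 2) (vl [ck (Order.succ ν).ord, lam, u]) ∧
      ∀ s, Fo p (fSub 0 1) (vl [m s, u]) := by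
  classical
  obtain ⟨U, hU⟩ := yu_un m
  choose w hw using fun s => enum_of_sm hν (yu_sm.1 (Fo.an.1 (h s)).2)
  have hsub : ∀ s, Fo p (fSub 0 1) (vl [m s, U]) := by
    intro s
    refine Fo.all.2 fun y => Fo.imp.2 fun q _ hq => ?_
    exact (hU q y).2 fun q' hq' => ⟨q', le_rfl, s, Fo.mono hq' hq⟩
  refine ⟨U, Fo.an.2 ⟨?_, ?_⟩, hsub⟩
  · refine Fo.all.2 fun y => Fo.imp.2 fun q hq h1 => Fo.loc fun q' hq' => ?_
    obtain ⟨r, hr, s, hs⟩ := (hU q y).1 h1 q' hq'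
    exact ⟨r, hr, Fo.imp.1 (Fo.all.1 (Fo.an.1 (h s)).1 y) r (hr.trans (hq'.trans hq)) hs⟩
  · refine yu_sm.2 ?_
    rcases isEmpty_or_nonempty J with hJe | hJn
    · refine sm_of_enum hν (w := fun _ => ck 0) fun q hq y hy => ?_
      obtain ⟨r, hr, s, hs⟩ := (hU q y).1 hy q le_rfl
      exact hJe.elim s
    · have hX : Nonempty (BSet (RO P)) := ⟨ck 0⟩
      obtain ⟨W, hW⟩ := yu_enum hν hJ w
      refine sm_of_enum hν (w := W) fun q hq y hy => ?_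
      obtain ⟨r, hr, s, hs⟩ := (hU q y).1 hy q le_rfl
      obtain ⟨r', hr', η, hη, h2⟩ := hw s r (hr.trans hq) y hs
      obtain ⟨ξ, hξ, h3⟩ := hW s η hη
      refine ⟨r', hr'.trans hr, ξ, hξ, ?_⟩
      rw [h3]
      exact h2

theorem club_dir {ν : Cardinal.{u}} (hν : ℵ₀ ≤ ν) {p : P} {lam C : BSet (RO P)}
    (hC : Fo p (fClub 0 1 2) (vl [ck (Order.succ ν).ord, lam, C])) {J : Type u}
    (hJ : #J ≤ ν) (m : J → BSet (RO P)) (h : ∀ s, Fo p (.mem 0 1) (vl [m s, C])) :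
    ∃ y, Fo p (.mem 0 1) (vl [y, C]) ∧ ∀ s, Fo p (fSub 0 1) (vl [m s, y]) := by
  obtain ⟨hC1, hC2⟩ := Fo.an.1 hC
  obtain ⟨hC2, -⟩ := Fo.an.1 hC2
  have h1 : ∀ s, Fo p (fP 0 1 2) (vl [ck (Order.succ ν).ord, lam, m s]) := by
    intro s
    have h2 := Fo.imp.1 (Fo.all.1 hC1 (m s)) p le_rfl (h s)
    refine Fo.of fun G hG => ?_
    have h3 := Fo.tr h2 G hG
    rw [sat_fP] at h3 ⊢
    exact h3
  obtain ⟨U, hU1, hU2⟩ := union_small hν hJ m h1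
  have h4 : Fo p (fP 1 2 0) (cns U (vl [ck (Order.succ ν).ord, lam, C])) := by
    refine Fo.of fun G hG => ?_
    have h3 := Fo.tr hU1 G hG
    rw [sat_fP] at h3 ⊢
    exact h3
  obtain ⟨y, hy⟩ := Fo.ex.1 (Fo.imp.1 (Fo.all.1 hC2 U) p le_rfl h4)
  obtain ⟨hy1, hy2⟩ := Fo.an.1 hy
  refine ⟨y, hy1, fun s => Fo.of fun G hG => ?_⟩
  have h5 := Fo.tr (hU2 s) G hG
  have h6 := Fo.tr hy2 G hG
  rw [sat_fSub] at h5 h6 ⊢
  exact fun z hz => h6 z (h5 z hz)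

theorem small_names (C : BSet (RO P)) (p0 : P) :
    ∃ (L : Type u) (nm : L → BSet (RO P)), (∀ m, Fo p0 (.mem 0 1) (vl [nm m, C])) ∧
      ∀ y, Fo p0 (.mem 0 1) (vl [y, C]) → ∃ m, Fo p0 (.eq 0 1) (vl [nm m, y]) := by
  refine ⟨{g : C.ty → RO P // ∃ y, Fo p0 (.mem 0 1) (vl [y, C]) ∧
    g = fun i => C.vl i ⊓ BSet.eq y (C.fn i)}, fun g => g.2.choose, fun g => g.2.choose_spec.1,
    fun y hy => ?_⟩
  let g : {g : C.ty → RO P // ∃ y, Fo p0 (.mem 0 1) (vl [y, C]) ∧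
    g = fun i => C.vl i ⊓ BSet.eq y (C.fn i)} := ⟨fun i => C.vl i ⊓ BSet.eq y (C.fn i), y, hy, rfl⟩
  refine ⟨g, Fo.loc fun q hq => ?_⟩
  have h1 : (fun i => C.vl i ⊓ BSet.eq y (C.fn i)) =
    fun i => C.vl i ⊓ BSet.eq g.2.choose (C.fn i) := g.2.choose_spec.2
  have h2 : q ∈ ⨆ i : C.ty, C.vl i ⊓ BSet.eq y (C.fn i) := Fo.mono hq hy
  obtain ⟨r, hr, i, h3⟩ := RO.mem_iSup.1 h2 q le_rfl
  have h4 : r ∈ C.vl i ⊓ BSet.eq g.2.choose (C.fn i) := by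
    rw [← congrFun h1 i]
    exact h3
  refine ⟨r, hr, ?_⟩
  change r ∈ BSet.eq g.2.choose y
  refine RO.le_def.1 (eq_trans g.2.choose (C.fn i) y) r ⟨h4.2, ?_⟩
  rw [eq_symm]
  exact h3.2

end STP
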