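import Pool.Agent.STP.ZInf

/-! # The quotient is a model: choice (package M08)

(problem MP_e44aae_lc, project STP)

* `NG_choice`: let `x` be a set of nonempty disjoint sets, `ẋ` a name. Let `u := unN ẋ`, and
well-order `u.ty` (`WellOrderingRel`). Let `c := mk u.ty u.fn (fun i => u.vl i ⊓ Ψ i)`, where `Ψ i`
is the truth value of: `i` is the first index of its element of `x`, i.e.   `Ψ i := ⨆ y, (mem y ẋ ⊓
mem (u.fn i) y ⊓ ⨅ j : {j // j < i}, (u.vl j ⊓ mem (u.fn j) y)ᶜ)`. Claim: for every `y ∈ x` there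
is exactly one `z ∈ c ∩ y`. Existence: `mem y ẋ ⊓ (⨆ z, mem z y) ≤ ⨆ i, u.vl i ⊓ mem (u.fn i) y`,
and the first `i` (well-founded induction in the Boolean algebra:   `⨆ i, b i = ⨆ i, (b i ⊓ ⨅ j <
i, (b j)ᶜ)`) is in `c`. Uniqueness: let `z, z' ∈ c ∩ y`, so `z = u.fn i`, `z' = u.fn j` (index by
index, suprema), with witnesses `y1`, `y2 ∈ x` for `Ψ i`, `Ψ j`; `u.fn i ∈ y1 ∩ y`, so `y1 = y`
(disjointness of the elements of `x`, which is part of the   hypothesis: work below its Boolean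
value), `y2 = y`; if `i < j` then `Ψ j` contradicts `u.fn i ∈ y`. So on each piece `i = j`, and `z
= z'`. Transfer to `NG G` by writing the hypotheses and the conclusion as formulas and `los` (the
conclusion for the name `c`), or by the maximum principle. -/

universe u

namespace STP

open BSet

variable {B : Type u} [CompleteBooleanAlgebra B]

/-- the truth value of: no index before `i` gives an element of `y` -/
private def chNN (x : BSet B) (i : (unN x).ty) (y : BSet B) : B :=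
  ⨅ j : {j : (unN x).ty // WellOrderingRel j i}, (mem ((unN x).fn j.1) y)ᶜ

/-- the truth value of: `i` is the first index of its element of `x` -/
private def chPs (x : BSet B) (i : (unN x).ty) : B :=
  ⨆ y, (mem y x ⊓ (mem ((unN x).fn i) y ⊓ chNN x i y))

/-- the name of the choice set -/
private def chC (x : BSet B) : BSet B := mk (unN x).ty (unN x).fn (chPs x)

private theorem ch_first {I : Type u} (b : I → B) :
    ⨆ i, b i ≤ ⨆ i, (b i ⊓ ⨅ j : {j : I // WellOrderingRel j i}, (b j.1)ᶜ) := by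
  refine iSup_le fun i => ?_
  induction i using (IsWellFounded.wf (r := WellOrderingRel (α := I))).induction with
  | _ i ih =>
    have h3 : (⨆ j : {j : I // WellOrderingRel j i}, b j.1) ≤
        ⨆ i, (b i ⊓ ⨅ j : {j : I // WellOrderingRel j i}, (b j.1)ᶜ) :=
      iSup_le fun j => ih j.1 j.2
    have h4 : (b i ⊓ ⨅ j : {j : I // WellOrderingRel j i}, (b j.1)ᶜ) ≤
        ⨆ i, (b i ⊓ ⨅ j : {j : I // WellOrderingRel j i}, (b j.1)ᶜ) :=
      le_iSup (fun i => (b i ⊓ ⨅ j : {j : I // WellOrderingRel j i}, (b j.1)ᶜ)) i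
    rw [← compl_iSup] at h4
    calc b i = (b i ⊓ (⨆ j : {j : I // WellOrderingRel j i}, b j.1)) ⊔
          (b i ⊓ (⨆ j : {j : I // WellOrderingRel j i}, b j.1)ᶜ) := (sup_inf_inf_compl).symm
      _ ≤ _ := sup_le (inf_le_right.trans h3) h4

private theorem ch_ex (x y : BSet B) :
    mem y x ⊓ (⨆ z, mem z y) ≤ ⨆ z, (mem z (chC x) ⊓ mem z y) := by
  have h1 : mem y x ⊓ (⨆ z, mem z y) ≤ ⨆ i, mem ((unN x).fn i) y := by
    rw [inf_iSup_eq]
    refine iSup_le fun z => ?_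
    have h2 : mem y x ⊓ mem z y ≤ mem z (unN x) := by
      rw [mem_unN]
      exact le_iSup (fun w => mem w x ⊓ mem z w) y
    refine (le_inf h2 inf_le_right).trans ?_
    have h0 : mem z (unN x) = ⨆ i : (unN x).ty, (unN x).vl i ⊓ eq z ((unN x).fn i) := rfl
    rw [h0, iSup_inf_eq]
    refine iSup_mono fun i => ?_
    exact (inf_le_inf_right _ inf_le_right).trans (mem_congr_left z ((unN x).fn i) y)
  refine (le_inf inf_le_left (h1.trans (ch_first fun i => mem ((unN x).fn i) y))).trans ?_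
  rw [inf_iSup_eq]
  refine iSup_le fun i => ?_
  refine le_trans ?_ (le_iSup (fun z => mem z (chC x) ⊓ mem z y) ((unN x).fn i))
  refine le_inf ?_ (inf_le_right.trans inf_le_left)
  refine le_trans ?_ (vl_le_mem (chC x) i)
  exact le_iSup (fun y => mem y x ⊓ (mem ((unN x).fn i) y ⊓ chNN x i y)) y

private theorem ch_un (x y z z' : BSet B) {D : B}
    (hD : ∀ y y' w, D ⊓ (mem y x ⊓ mem y' x ⊓ (mem w y ⊓ mem w y')) ≤ eq y y') :
    D ⊓ (mem y x ⊓ ((mem z (chC x) ⊓ mem z y) ⊓ (mem z' (chC x) ⊓ mem z' y))) ≤ eq z z' := by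
  have h0 : ∀ z, mem z (chC x) = ⨆ i : (unN x).ty, chPs x i ⊓ eq z ((unN x).fn i) := fun z => rfl
  -- one pair of indices and one pair of witnesses
  have key : ∀ i j y1 y2, D ⊓ (mem y x ⊓ ((((mem y1 x ⊓ (mem ((unN x).fn i) y1 ⊓ chNN x i y1)) ⊓
      eq z ((unN x).fn i)) ⊓ mem z y) ⊓ (((mem y2 x ⊓ (mem ((unN x).fn j) y2 ⊓ chNN x j y2)) ⊓
      eq z' ((unN x).fn j)) ⊓ mem z' y))) ≤ eq z z' := by
    intro i j y1 y2
    refine Ult.mem_of_all fun H hH => ?_
    have hinf : ∀ {a b : B}, a ⊓ b ∈ H.s → a ∈ H.s ∧ b ∈ H.s := fun {a b} h =>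
      ⟨H.up h inf_le_left, H.up h inf_le_right⟩
    obtain ⟨a0, hH⟩ := hinf hH
    obtain ⟨a1, hH⟩ := hinf hH
    obtain ⟨hA, hB⟩ := hinf hH
    obtain ⟨hA, a2⟩ := hinf hA
    obtain ⟨hA, a3⟩ := hinf hA
    obtain ⟨a4, hA⟩ := hinf hA
    obtain ⟨a5, a6⟩ := hinf hA
    obtain ⟨hB, b2⟩ := hinf hB
    obtain ⟨hB, b3⟩ := hinf hB
    obtain ⟨b4, hB⟩ := hinf hB
    obtain ⟨b5, b6⟩ := hinf hB
    have c1 : mem ((unN x).fn i) y ∈ H.s := H.up (H.inf a3 a2) (mem_congr_left _ _ _)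
    have c2 : mem ((unN x).fn j) y ∈ H.s := H.up (H.inf b3 b2) (mem_congr_left _ _ _)
    have d1 : eq y1 y ∈ H.s := H.up (H.inf a0 (H.inf (H.inf a4 a1) (H.inf a5 c1))) (hD y1 y _)
    have d2 : eq y2 y ∈ H.s := H.up (H.inf a0 (H.inf (H.inf b4 a1) (H.inf b5 c2))) (hD y2 y _)
    have e1 : mem ((unN x).fn j) y1 ∈ H.s := by
      rw [eq_symm] at d1
      exact H.up (H.inf d1 c2) (mem_congr_right _ _ _)
    have e2 : mem ((unN x).fn i) y2 ∈ H.s := by
      rw [eq_symm] at d2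
      exact H.up (H.inf d2 c1) (mem_congr_right _ _ _)
    rcases trichotomous_of WellOrderingRel i j with h | h | h
    · exfalso
      have h3 : (mem ((unN x).fn i) y2)ᶜ ∈ H.s := H.up b6
        (iInf_le (fun k : {k : (unN x).ty // WellOrderingRel k j} =>
          (mem ((unN x).fn k.1) y2)ᶜ) ⟨i, h⟩)
      have h4 := H.inf e2 h3
      rw [inf_compl_eq_bot] at h4
      exact H.bot h4
    · subst h
      rw [eq_symm z' _] at b3
      exact H.up (H.inf a3 b3) (eq_trans _ _ _)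
    · exfalso
      have h3 : (mem ((unN x).fn j) y1)ᶜ ∈ H.s := H.up a6
        (iInf_le (fun k : {k : (unN x).ty // WellOrderingRel k i} =>
          (mem ((unN x).fn k.1) y1)ᶜ) ⟨j, h⟩)
      have h4 := H.inf e1 h3
      rw [inf_compl_eq_bot] at h4
      exact H.bot h4
  have key2 : ∀ i j, D ⊓ (mem y x ⊓ (((chPs x i ⊓ eq z ((unN x).fn i)) ⊓ mem z y) ⊓
      ((chPs x j ⊓ eq z' ((unN x).fn j)) ⊓ mem z' y))) ≤ eq z z' := by
    intro i j
    unfold chPs
    simp only [iSup_inf_eq, inf_iSup_eq]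
    exact iSup_le fun y1 => iSup_le fun y2 => by
      first
        | exact key i j y1 y2
        | exact key i j y2 y1
  rw [h0 z, h0 z']
  simp only [iSup_inf_eq, inf_iSup_eq]
  exact iSup_le fun i => iSup_le fun j => by
    first
      | exact key2 i j
      | exact key2 j i

variable (G : Ult B)

theorem NG_choice (x : NG G) (h1 : ∀ y, EG G y x → ∃ z, EG G z y)
    (h2 : ∀ y z, EG G y x → EG G z x → y ≠ z → ¬ ∃ w, EG G w y ∧ EG G w z) :
    ∃ c, ∀ y, EG G y x → ∃! z, EG G z c ∧ EG G z y := by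
  obtain ⟨x', rfl⟩ := NG.exists_rep x
  -- the Boolean value of the disjointness
  have hD0 : sat (EG G) (.all (.all (.all (.imp (Fml.an (Fml.an (.mem 1 3) (.mem 2 3))
      (Fml.an (.mem 0 1) (.mem 0 2))) (.eq 1 2))))) (fun i => NG.mk G ((fun _ => x') i)) := by
    intro y y' w
    rw [sat_imp, sat_an, sat_an, sat_an]
    rintro ⟨⟨h3, h4⟩, h5, h6⟩
    by_contra hne
    exact h2 _ _ h3 h4 hne ⟨_, h5, h6⟩
  rw [los] at hD0
  have hE0 : sat (EG G) (.all (.imp (.mem 0 1) (Fml.ex (.mem 0 1))))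
      (fun i => NG.mk G ((fun _ => x') i)) := by
    intro y hy
    rw [sat_ex]
    exact h1 y hy
  rw [los] at hE0
  set D : B := bval (.all (.all (.all (.imp (Fml.an (Fml.an (.mem 1 3) (.mem 2 3))
      (Fml.an (.mem 0 1) (.mem 0 2))) (.eq 1 2))))) (fun _ => x') with hDdef
  have hD : ∀ y y' w, D ⊓ (mem y x' ⊓ mem y' x' ⊓ (mem w y ⊓ mem w y')) ≤ eq y y' := by
    intro y y' w
    rw [← le_himp_iff]
    refine (iInf_le _ y').trans ((iInf_le _ y).trans ((iInf_le _ w).trans ?_))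
    change (bval (Fml.an (Fml.an (.mem 1 3) (.mem 2 3)) (Fml.an (.mem 0 1) (.mem 0 2)))
      (cns w (cns y (cns y' fun _ => x'))) ⇨ eq y y') ≤ _
    rw [bval_an, bval_an, bval_an]
    exact le_rfl
  have hinf : ∀ {a b : B}, a ⊓ b ∈ G.s → a ∈ G.s ∧ b ∈ G.s := fun {a b} h =>
    ⟨G.up h inf_le_left, G.up h inf_le_right⟩
  refine ⟨NG.mk G (chC x'), fun y hy => ?_⟩
  obtain ⟨y, rfl⟩ := NG.exists_rep y
  rw [EG_mk] at hy
  have hE : (⨆ z, mem z y) ∈ G.s := by
    refine G.up (G.inf hE0 hy) ?_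
    rw [← le_himp_iff]
    refine (iInf_le _ y).trans ?_
    change (mem y x' ⇨ bval (Fml.ex (.mem 0 1)) (cns y fun _ => x')) ≤ _
    rw [bval_ex]
    exact le_rfl
  have h3 : (⨆ z, (mem z (chC x') ⊓ mem z y)) ∈ G.s := G.up (G.inf hy hE) (ch_ex x' y)
  obtain ⟨z, hz⟩ := full (Φ := fun z => mem z (chC x') ⊓ mem z y)
    (fun a b => le_inf ((inf_le_inf_left _ inf_le_left).trans (mem_congr_left a b _))
      ((inf_le_inf_left _ inf_le_right).trans (mem_congr_left a b _)))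
  rw [← hz] at h3
  refine ⟨NG.mk G z, ⟨EG_mk.2 (hinf h3).1, EG_mk.2 (hinf h3).2⟩, ?_⟩
  rintro w ⟨hw1, hw2⟩
  obtain ⟨w, rfl⟩ := NG.exists_rep w
  rw [EG_mk] at hw1 hw2
  rw [NG.mk_eq]
  exact G.up (G.inf hD0 (G.inf hy (G.inf (G.inf hw1 hw2) h3))) (ch_un x' y w z hD)

/-- The quotient is a model of ZFC. -/
theorem NG_zfc : ZFC (EG G) where
  ext := NG_ext G
  found := NG_found G
  pair := NG_pair G
  union := NG_union G
  power := NG_power G
  infinity := NG_inf G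
  separation := NG_sep G
  replacement := NG_repl G
  choice := NG_choice G

end STP
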