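import Pool.Agent.STP.ZRep
import Pool.Agent.STP.Ck

/-! # The quotient is a model: infinity and choice (package M07)

(problem MP_e44aae_lc, project STP)

* `NG_inf`: the element `NG.mk G (ck ω)` (`Ordinal.omega0`). The empty set is `ck 0`. Successor:
  for every `z`: `mem z (ck (Order.succ a)) = mem z (ck a) ⊔ eq z (ck a)` (`mem_ck`). The
  statement `∀ y ∈ ck ω, ∃ z ∈ ck ω, ∀ w (w ∈ z ↔ w ∈ y ∨ w = y)` is a formula; by `ball_ck` its
  value is the infimum over `a < ω` of the values at `y = ck a`, each of which is `⊤` (take `z =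
  ck (succ a)`). Use `los`. -/

universe u

namespace STP

open BSet

variable {B : Type u} [CompleteBooleanAlgebra B]

theorem mem_ck_succ (z : BSet B) (a : Ordinal.{u}) :
    mem z (ck (Order.succ a)) = mem z (ck a) ⊔ eq z (ck a) := by
  rw [mem_ck, mem_ck]
  refine le_antisymm (iSup_le fun b => ?_) (sup_le (iSup_le fun b => ?_) ?_)
  · rcases lt_or_eq_of_le (Order.lt_succ_iff.1 (Set.mem_Iio.1 b.2)) with h | h
    · exact le_sup_of_le_left (le_iSup (fun c : Set.Iio a => eq z (ck c.1)) ⟨b.1, h⟩)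
    · rw [h]
      exact le_sup_right
  · exact le_iSup (fun c : Set.Iio (Order.succ a) => eq z (ck c.1))
      ⟨b.1, Set.mem_Iio.2 (lt_of_lt_of_le b.2 (Order.le_succ a))⟩
  · exact le_iSup (fun c : Set.Iio (Order.succ a) => eq z (ck c.1)) ⟨a, Order.lt_succ a⟩

variable (G : Ult B)

theorem NG_inf : ∃ x, (∃ y, EG G y x ∧ ∀ z, ¬ EG G z y) ∧
    ∀ y, EG G y x → ∃ z, EG G z x ∧ ∀ w, EG G w z ↔ EG G w y ∨ w = y := by
  refine ⟨NG.mk G (ck Ordinal.omega0), ⟨NG.mk G (ck 0), ?_, ?_⟩, ?_⟩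
  · rw [EG_mk, mem_ck_ck]
    have h : (chi ((0 : Ordinal.{u}) < Ordinal.omega0) : B) = ⊤ := by
      unfold chi
      exact iSup_pos Ordinal.omega0_pos
    rw [h]
    exact G.top
  · intro z
    obtain ⟨z', rfl⟩ := NG.exists_rep z
    rw [EG_mk, mem_ck]
    have h : (⨆ a : Set.Iio (0 : Ordinal.{u}), eq z' (ck a.1)) = ⊥ := by
      refine iSup_eq_bot.2 fun a => ?_
      exact absurd a.2 (not_lt_of_ge (zero_le (a := a.1)))
    rw [h]
    exact G.bot
  · let χ : Fml := .all (.iff (.mem 0 1) (.or (.mem 0 2) (.eq 0 2)))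
    let ψ : Fml := fBall 0 (fBex 1 χ)
    let v : ℕ → BSet B := fun _ => ck Ordinal.omega0
    have h1 : bval ψ v = ⊤ := by
      change bval (fBall 0 (fBex 1 χ)) v = ⊤
      rw [ball_ck (fBex 1 χ) v 0 Ordinal.omega0 rfl]
      refine iInf_eq_top.2 fun a => ?_
      rw [bex_ck χ (cns (ck a.1) v) 1 Ordinal.omega0 rfl]
      have ha : Order.succ a.1 < Ordinal.omega0 :=
        Ordinal.isSuccLimit_omega0.succ_lt a.2
      refine eq_top_iff.2 (le_iSup_of_le ⟨Order.succ a.1, ha⟩ ?_)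
      change ⊤ ≤ ⨅ w, bval (Fml.iff (.mem 0 1) (.or (.mem 0 2) (.eq 0 2)))
        (cns w (cns (ck (Order.succ a.1)) (cns (ck a.1) v)))
      refine le_iInf fun w => ?_
      have h2 : bval (Fml.iff (.mem 0 1) (.or (.mem 0 2) (.eq 0 2)))
          (cns w (cns (ck (Order.succ a.1)) (cns (ck a.1) v))) =
          (mem w (ck (Order.succ a.1)) ⇨ ((mem w (ck a.1))ᶜ ⇨ eq w (ck a.1))) ⊓
          (((mem w (ck a.1))ᶜ ⇨ eq w (ck a.1)) ⇨ mem w (ck (Order.succ a.1))) := by
        unfold Fml.iff Fml.or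
        rw [bval_an]
        change (_ ⇨ (bval (Fml.no (.mem 0 2)) _ ⇨ _)) ⊓
          ((bval (Fml.no (.mem 0 2)) _ ⇨ _) ⇨ _) = _
        rw [bval_no]
        rfl
      rw [h2, mem_ck_succ, himp_eq (x := (mem w (ck a.1))ᶜ), compl_compl,
        sup_comm (eq w (ck a.1)), himp_self, inf_idem]
    have h3 : sat (EG G) ψ (fun i => NG.mk G (v i)) := by
      rw [los, h1]
      exact G.top
    intro y hy
    have h4 := h3 y hy
    have h5 : ∃ z, EG G z (NG.mk G (ck Ordinal.omega0)) ∧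
        sat (EG G) χ (cns z (cns y (fun i => NG.mk G (v i)))) := by
      have h6 := sat_ex.1 h4
      obtain ⟨z, hz⟩ := h6
      obtain ⟨h7, h8⟩ := sat_an.1 hz
      exact ⟨z, h7, h8⟩
    obtain ⟨z, hz, h6⟩ := h5
    refine ⟨z, hz, fun w => ?_⟩
    have h7 := h6 w
    rw [sat_iff, sat_or] at h7
    exact h7

end STP
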