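import Pool.Agent.STP.ZSep

/-! # The quotient is a model: foundation, replacement (package M06)

(problem MP_e44aae_lc, project STP)

* `found_le`: `b ⊓ mem y x = ⊥` for all `y`, where `b := ⨅ y, (mem y x ⇨ ⨆ z, (mem z y ⊓ mem z x))`. Induction on `y = mk β C ψ`: `b ⊓ mem y x ≤ ⨆ z, mem z y ⊓ mem z x ⊓ b = ⨆ c, ψ c ⊓ mem (C c) x ⊓ b = ⊥` (`iSup_mem`, the induction hypothesis for `C c`).
  (`mem · x` is extensional: `mem_congr_left`.)
* `NG_found`: let `x = mk ẋ` have an element `mk ẏ`. If for every `y` in `x` there were a `z ∈ y` with `z ∈ x`, the value `b ∈ G` (`los` for the formula `∀ y (y ∈ x → ∃ z (z ∈ y ∧ z ∈ x))`, or `full`), and `mem ẏ ẋ ∈ G`, so `⊥ ∈ G`.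
* `coll`: collection: for a binary extensional `Φ : BSet B → BSet B → B` and a name `x` there is a name `y` such that for all `z`: `mem z x ⊓ (⨆ w, Φ z w) ≤ ⨆ w, (mem w y ⊓ Φ z w)`: choose (`full`) for each `a : x.ty` a name `W a` with `Φ (x.fn a) (W a) = ⨆ w, Φ (x.fn a) w`, and
  `y := mk x.ty W (fun _ => ⊤)`. By extensionality in `z` it is enough to treat `z = x.fn a`.
* `NG_repl`: replacement follows from collection and separation: let `φ, v, x` be as in the axiom; `Φ z w := bval φ (cns w (cns z v̇))`. Take `y0` from `coll`, and by `NG_sep` the set `{w ∈ y0 | ∃ z ∈ x, φ(w, z)}` (with the formula `fRep φ` below, whose satisfaction is `sat_fRep`; the variables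
  must be permuted: the formula `φ` has `w` as variable 0, `z` as variable 1, `v i` as variable `i + 2`; inside `∃ z` of a separation formula for `w` with parameters `x, v`, the variables are `z = 0`, `w = 1`, `x = 2`, `v i = i + 3`. Either define a substitution of variables for formulas (`sub`, below) or avoid it
  by working with names: `sepN y0 (fun w => ⨆ z, (mem z x ⊓ Φ z w))` and `mem_sepN`. The second way is simpler: the function is extensional in `w`, and membership of `⨆ z, (mem z x ⊓ bval φ (cns w (cns z v̇)))` in `G` is equivalent to `∃ z, EG z x ∧ sat φ ..` by the maximum principle `full`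
  for `fun z => mem z x ⊓ bval φ (cns w (cns z v̇))` (extensional in `z`: `bval_congr`) and `los`.)
  The uniqueness hypothesis gives: every `w` with `∃ z ∈ x, φ(w, z)` is the element of `y0` provided by `coll`. -/

universe u

namespace STP

open BSet

variable {B : Type u} [CompleteBooleanAlgebra B]

theorem found_le (x y : BSet B) :
    (⨅ y, (mem y x ⇨ ⨆ z, (mem z y ⊓ mem z x))) ⊓ mem y x = ⊥ := by
  induction y with
  | mk β C ψ ih =>
    rw [eq_bot_iff]
    have hΦ : Ext fun z => mem z x := fun a c => mem_congr_left a c x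
    have h1 : (⨅ y, (mem y x ⇨ ⨆ z, (mem z y ⊓ mem z x))) ⊓ mem (mk β C ψ) x ≤
        ⨆ c : β, (ψ c ⊓ mem (C c) x) := by
      refine (inf_le_inf_right _ (iInf_le _ (mk β C ψ))).trans (himp_inf_le.trans ?_)
      exact (iSup_congr fun z => inf_comm _ _).le.trans
        ((iSup_congr fun z => inf_comm _ _).le.trans (iSup_mem hΦ (mk β C ψ)).le)
    refine (le_inf inf_le_left h1).trans ?_
    rw [inf_iSup_eq]
    refine iSup_le fun c => ?_
    rw [← ih c]
    exact inf_le_inf_left _ inf_le_right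

theorem coll (Φ : BSet B → BSet B → B) (h1 : ∀ w, Ext fun z => Φ z w) (h2 : ∀ z, Ext (Φ z))
    (x : BSet B) : ∃ y, ∀ z, mem z x ⊓ (⨆ w, Φ z w) ≤ ⨆ w, (mem w y ⊓ Φ z w) := by
  choose W hW using fun a : x.ty => full (h2 (x.fn a))
  refine ⟨mk x.ty W fun _ => ⊤, fun z => ?_⟩
  have h0 : mem z x = ⨆ a : x.ty, x.vl a ⊓ eq z (x.fn a) := rfl
  rw [h0, iSup_inf_eq]
  refine iSup_le fun a => ?_
  refine le_trans ?_ (le_iSup _ (W a))
  refine le_inf ?_ ?_
  · have h3 := vl_le_mem (mk x.ty W fun _ => ⊤) a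
    exact le_top.trans h3
  · have h3 : eq z (x.fn a) ⊓ (⨆ w, Φ z w) ≤ Φ (x.fn a) (W a) := by
      rw [hW a, inf_iSup_eq]
      exact iSup_mono fun w => h1 w z (x.fn a)
    have h4 : x.vl a ⊓ eq z (x.fn a) ⊓ (⨆ w, Φ z w) ≤ eq (x.fn a) z ⊓ Φ (x.fn a) (W a) := by
      refine le_inf ?_ ((inf_le_inf_right _ inf_le_right).trans h3)
      rw [eq_symm (x.fn a) z]
      exact inf_le_left.trans inf_le_right
    exact h4.trans (h1 (W a) (x.fn a) z)

variable (G : Ult B)

theorem NG_found (x : NG G) (h : ∃ y, EG G y x) : ∃ y, EG G y x ∧ ∀ z, EG G z x → ¬ EG G z y := by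
  by_contra hcon
  push Not at hcon
  obtain ⟨x', rfl⟩ := NG.exists_rep x
  obtain ⟨y, hy⟩ := h
  obtain ⟨y', rfl⟩ := NG.exists_rep y
  rw [EG_mk] at hy
  have h1 : sat (EG G) (.all (.imp (.mem 0 1) (Fml.ex (Fml.an (.mem 0 1) (.mem 0 2)))))
      (fun i => NG.mk G ((fun _ => x') i)) := by
    intro y h2
    obtain ⟨z, h3, h4⟩ := hcon y h2
    rw [sat_ex]
    refine ⟨z, ?_⟩
    rw [sat_an]
    exact ⟨h4, h3⟩
  rw [los] at h1
  have h2 : bval (.all (.imp (.mem 0 1) (Fml.ex (Fml.an (.mem 0 1) (.mem 0 2)))))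
      (fun _ => x') = ⨅ y, (mem y x' ⇨ ⨆ z, (mem z y ⊓ mem z x')) := by
    change (⨅ y, (mem y x' ⇨ bval (Fml.ex (Fml.an (.mem 0 1) (.mem 0 2)))
      (cns y fun _ => x'))) = _
    refine iInf_congr fun y => ?_
    rw [bval_ex]
    congr 1
    refine iSup_congr fun z => ?_
    rw [bval_an]
    rfl
  have h3 := G.inf h1 hy
  rw [h2, found_le] at h3
  exact G.bot h3

theorem NG_repl (φ : Fml) (v : ℕ → NG G) (x : NG G)
    (h : ∀ z, EG G z x → ∃! w, sat (EG G) φ (cns w (cns z v))) :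
    ∃ y, ∀ w, EG G w y ↔ ∃ z, EG G z x ∧ sat (EG G) φ (cns w (cns z v)) := by
  obtain ⟨x', rfl⟩ := NG.exists_rep x
  choose v' hv' using fun i => NG.exists_rep (v i)
  obtain rfl : (fun i => NG.mk G (v' i)) = v := funext hv'
  have hc : ∀ w z : BSet B, (fun i => NG.mk G (cns w (cns z v') i)) =
      cns (NG.mk G w) (cns (NG.mk G z) fun i => NG.mk G (v' i)) := by
    intro w z
    funext i
    rcases i with - | - | i <;> rfl
  have hs : ∀ w z : BSet B, sat (EG G) φ (cns (NG.mk G w) (cns (NG.mk G z)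
      fun i => NG.mk G (v' i))) ↔ bval φ (cns w (cns z v')) ∈ G.s := by
    intro w z
    rw [← hc, los]
  have e1 : ∀ w, Ext fun z => bval φ (cns w (cns z v')) := by
    intro w z z'
    refine (inf_le_inf_right _ (le_iInf fun i => ?_)).trans (bval_congr φ _ _)
    rcases i with - | - | i
    · change eq z z' ≤ eq w w
      rw [eq_refl]
      exact le_top
    · exact le_rfl
    · change eq z z' ≤ eq (v' i) (v' i)
      rw [eq_refl]
      exact le_top
  have e2 : ∀ z, Ext fun w => bval φ (cns w (cns z v')) := fun z => bval_ext φ _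
  obtain ⟨y, hy⟩ := coll (fun z w => bval φ (cns w (cns z v'))) e1 e2 x'
  have e3 : Ext fun w => ⨆ z, (mem z x' ⊓ bval φ (cns w (cns z v'))) := by
    intro w w'
    rw [inf_iSup_eq]
    refine iSup_mono fun z => ?_
    refine le_inf (inf_le_right.trans inf_le_left) ?_
    exact (inf_le_inf_left _ inf_le_right).trans (e2 z w w')
  have hsup : ∀ Ψ : BSet B → B, Ext Ψ → ((⨆ w, Ψ w) ∈ G.s ↔ ∃ w, Ψ w ∈ G.s) := by
    intro Ψ hΨ
    constructor
    · intro h1
      obtain ⟨w, hw⟩ := full hΨ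
      exact ⟨w, hw ▸ h1⟩
    · rintro ⟨w, hw⟩
      exact G.up hw (le_iSup _ w)
  have hinf : ∀ a b : B, a ⊓ b ∈ G.s ↔ a ∈ G.s ∧ b ∈ G.s := fun a b =>
    ⟨fun h1 => ⟨G.up h1 inf_le_left, G.up h1 inf_le_right⟩, fun h1 => G.inf h1.1 h1.2⟩
  have hP : ∀ w : BSet B, (⨆ z, (mem z x' ⊓ bval φ (cns w (cns z v')))) ∈ G.s ↔
      ∃ z, EG G z (NG.mk G x') ∧ sat (EG G) φ (cns (NG.mk G w) (cns z
        fun i => NG.mk G (v' i))) := by
    intro w
    rw [hsup _ (fun z z' => le_inf ((inf_le_inf_left _ inf_le_left).trans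
      (mem_congr_left z z' x')) ((inf_le_inf_left _ inf_le_right).trans (e1 w z z')))]
    constructor
    · rintro ⟨z, hz⟩
      rw [hinf] at hz
      exact ⟨NG.mk G z, EG_mk.2 hz.1, (hs w z).2 hz.2⟩
    · rintro ⟨z, hz, hz'⟩
      obtain ⟨z, rfl⟩ := NG.exists_rep z
      refine ⟨z, ?_⟩
      rw [hinf]
      exact ⟨EG_mk.1 hz, (hs w z).1 hz'⟩
  refine ⟨NG.mk G (sepN y fun w => ⨆ z, (mem z x' ⊓ bval φ (cns w (cns z v')))), fun w => ?_⟩
  obtain ⟨w, rfl⟩ := NG.exists_rep w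
  rw [EG_mk, mem_sepN e3, hinf, hP]
  refine ⟨fun h1 => h1.2, fun h1 => ⟨?_, h1⟩⟩
  obtain ⟨z, hz, hz'⟩ := h1
  obtain ⟨u, hu, huu⟩ := h z hz
  obtain ⟨z, rfl⟩ := NG.exists_rep z
  have h2 : mem z x' ⊓ (⨆ w, bval φ (cns w (cns z v'))) ∈ G.s :=
    G.inf (EG_mk.1 hz) (G.up ((hs w z).1 hz') (le_iSup (fun w => bval φ (cns w (cns z v'))) w))
  have h3 := G.up h2 (hy z)
  rw [hsup _ (fun a b => le_inf ((inf_le_inf_left _ inf_le_left).trans
      (mem_congr_left a b y)) ((inf_le_inf_left _ inf_le_right).trans (e2 z a b)))] at h3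
  obtain ⟨t, ht⟩ := h3
  rw [hinf] at ht
  have h4 : NG.mk G t = NG.mk G w := by
    rw [huu _ ((hs t z).2 ht.2), huu _ hz']
  have h5 : EG G (NG.mk G t) (NG.mk G y) := EG_mk.2 ht.1
  rw [h4] at h5
  exact EG_mk.1 h5

end STP
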